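import Pool.Agent.PHW.Defs

/-!
PHW part B: definitions for the Hammersley-Welsh end (walks, half plane walks, chains of bridges).
-/

set_option autoImplicit false

namespace HexObs

open Complex Finset ENNReal

/-- the upper half plane -/
def HP : Set Pt := {v | 0 < ip v up}

/-- self-avoiding words with n letters -/
def SawN (n : ℕ) : Set (List Bool) := {t | t.length = n ∧ Saw Set.univ oo up t}

/-- half plane words with n letters -/
def HpN (n : ℕ) : Set (List Bool) := {t | t.length = n ∧ Saw HP oo up t}

/-- number of the self-avoiding words with n letters -/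
noncomputable def cS (n : ℕ) : ℕ := (SawN n).ncard

/-- number of the half plane words with n letters -/
noncomputable def cH (n : ℕ) : ℕ := (HpN n).ncard

/-- walks of the strip of height T -/
def SSt (T : ℕ) : Set (List Bool) := {t | Saw (St T) oo up t}

/-- walks of the strip of height T that visit the level 3 T -/
def HT (T : ℕ) : Set (List Bool) := {t | t ∈ SSt T ∧ ∃ i, i ≤ t.length ∧ lev t i = 3 * T}

/-- the walk t starts (downwards, in the frame turned by 180 degrees) at the odd vertex below the last vertex of g;
b is the last letter of g, so t is on the left in the turned frame for b = true -/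
def Hang (g : List Bool) (b : Bool) (t : List Bool) : Prop :=
  if b then Dj (false :: true :: t) (rev g) else Dj (rev g) (true :: false :: t)

/-- weight of the walks of the strip of height m that hang at the end of g -/
noncomputable def GH (m : ℕ) (g : List Bool) : ℝ≥0∞ :=
  gf {t | t ∈ SSt m ∧ Hang g true t} + gf {t | t ∈ SSt m ∧ Hang g false t}

/-- g' hangs next to the last foot of g (on either side) and is disjoint from g -/
def Nb (g g' : List Bool) : Prop := Dj (rev g) g' ∨ Dj g' (rev g)

/-- chain functional: total weight of the chains of bridges of heights n ≥ t 1 > t 2 > …, where the first one is a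
neighbour of g and consecutive ones are neighbours, with a factor κ for every bridge -/
noncomputable def Fch (κ : ℝ≥0∞) : ℕ → List Bool → ℝ≥0∞
  | 0, _ => 1
  | n + 1, g => Fch κ n g + κ * ∑' g' : {g' : List Bool // g' ∈ Brd (n + 1) ∧ Nb g g'}, wE g'.1 * Fch κ n g'.1

/-- closed under passing to a beginning -/
def PrefC (P : Set (List Bool)) : Prop := ∀ a b, a ++ b ∈ P → a ∈ P

/-- closed under the change of the last letter -/
def LastC (P : Set (List Bool)) : Prop := ∀ a c c', a ++ [c] ∈ P → a ++ [c'] ∈ P

/-- two letters in front of a strand that starts at an odd vertex (or nothing) -/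
def Lead (p : List Bool) : Prop := p = [] ∨ p = [true, false] ∨ p = [false, true]

/-- adjacency of the honeycomb lattice, brick wall coordinates (as in the frozen statement) -/
def AdjB (p q : ℤ × ℤ) : Prop :=
  q - p = (1, 0) ∨ q - p = (-1, 0) ∨ (q - p = (0, 1) ∧ Even (p.1 + p.2)) ∨ (q - p = (0, -1) ∧ Even (q.1 + q.2))

/-- number of the n-step self-avoiding walks of the honeycomb lattice from the origin -/
noncomputable def aB (n : ℕ) : ℕ := Set.ncard {f : Fin (n + 1) → ℤ × ℤ |
  f 0 = 0 ∧ Function.Injective f ∧ ∀ i : Fin n, AdjB (f i.castSucc) (f i.succ)}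

/-- the connective constant of the honeycomb lattice -/
noncomputable def muB : ℝ := ⨅ n : {n : ℕ // 1 ≤ n}, ((aB n.1 : ℝ) ^ ((1 : ℝ) / (n.1 : ℝ)))

end HexObs
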