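import Pool.Agent.PHW.Defs
import Pool.Agent.W47.Final
import Pool.Agent.W47.D2

/-!
PHW A7c: weights of disjoint pairs of bridges.
-/

set_option autoImplicit false

namespace HexObs

open Complex Finset ENNReal

/-- weight of the disjoint pairs of bridges of the heights a (left) and b (right) -/
noncomputable def gg (a b : ℕ) : ℝ≥0∞ :=
  ∑' p : {p : List Bool × List Bool | p.1 ∈ Brd a ∧ p.2 ∈ Brd b ∧ Dj p.1 p.2}, wE p.1.1 * wE p.1.2

namespace GGaux

lemma foot0 : foot oo up 0 = oo := by decide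

/-- the words of the bridges do not depend on the foot -/
lemma br_foot (T : ℕ) (k : ℤ) : Br (St T) ∅ (foot oo up k) up = Brd T := by
  unfold Brd
  rw [br_empty, br_empty]
  have h1 := (strip_rot upd upd (foot oo up k) oo T).1
  rw [strip_foot oo up k T] at h1
  exact h1

/-- the reflection -/
def uR : Pt := (-1, 1)

lemma uR_nrm : nrm uR = 1 := by decide

lemma uR_up : mulE uR (conjE up) = up := by decide

lemma uR_foot : mulE uR (conjE (-(foot oo up 1))) = foot oo up 1 := by decide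

lemma vx_not (v0 v0' : Pt) (t : List Bool) {i : ℕ} (hi : i ≤ t.length + 1) :
    vx v0' up (t.map not) i = v0' + mulE uR (conjE (vx v0 up t i - v0)) := by
  have h := vx_refl uR v0 v0' up t hi
  rw [uR_up] at h
  exact h

lemma dx_not (t : List Bool) {i : ℕ} (hi : i ≤ t.length) :
    dx up (t.map not) i = mulE uR (conjE (dx up t i)) := by
  have h := dx_refl uR up t hi
  rw [uR_up] at h
  exact h

lemma refl_inj {p q : Pt} (h : mulE uR (conjE p) = mulE uR (conjE q)) : p = q := by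
  have h1 := congrArg conjE (mulE_inj uR_nrm h)
  rwa [conjE_conjE, conjE_conjE] at h1

lemma lev_not (t : List Bool) {i : ℕ} (hi : i ≤ t.length + 1) : lev (t.map not) i = lev t i := by
  unfold lev
  rw [vx_not oo oo t hi]
  have e1 : oo + mulE uR (conjE (vx oo up t i - oo)) = mulE uR (conjE (vx oo up t i)) := by
    have e2 : vx oo up t i - oo = vx oo up t i := sub_zero _
    rw [e2]
    exact zero_add _
  rw [e1]
  have h := ip_mulE uR (conjE (vx oo up t i)) (conjE up)
  rw [uR_up, uR_nrm, one_mul, ip_conjE] at h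
  exact h

lemma brd_not {T : ℕ} {t : List Bool} (h : t ∈ Brd T) : t.map not ∈ Brd T := by
  have hl : (t.map not).length = t.length := List.length_map _
  rw [mem_Brd] at h ⊢
  obtain ⟨h1, h2, h3, h4⟩ := h
  refine ⟨?_, ?_, ?_, ?_⟩
  · intro i hi hil
    rw [hl] at hil
    rw [lev_not t (by omega)]
    exact h1 i hi hil
  · intro i k hik hk heq
    rw [hl] at hk
    rw [vx_not oo oo t (by omega), vx_not oo oo t (by omega)] at heq
    apply h2 i k hik hk
    exact sub_left_injective (refl_inj (add_left_cancel heq))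
  · rw [hl, dx_not t le_rfl, h3, uR_up]
  · rw [hl, lev_not t (by omega), h4]

lemma dj_not {s t : List Bool} (h : Dj s t) : Dj (t.map not) (s.map not) := by
  unfold Dj at h ⊢
  rw [Set.disjoint_left] at h ⊢
  rintro p ⟨i, hi, hil, h1⟩ ⟨j, hj, hjl, h2⟩
  rw [List.length_map] at hil hjl
  rw [vx_not (foot oo up 1) (foot oo up 0) t (by omega)] at h1
  rw [vx_not (foot oo up 0) (foot oo up 1) s (by omega)] at h2
  rw [← h1] at h2
  apply h ⟨j, hj, hjl, rfl⟩
  refine ⟨i, hi, hil, ?_⟩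
  have e0 : ∀ q : Pt, foot oo up 0 + q = q := by
    intro q
    rw [foot0]
    exact zero_add q
  have e0' : ∀ q : Pt, q - foot oo up 0 = q := by
    intro q
    rw [foot0]
    exact sub_zero q
  rw [e0, e0'] at h2
  rw [foot0] at h2 ⊢
  have h3 : mulE uR (conjE (-(foot oo up 1) + vx oo up s j)) =
      mulE uR (conjE (vx (foot oo up 1) up t i - foot oo up 1)) := by
    rw [conjE_add, mulE_add, uR_foot]
    exact h2
  have h4 := refl_inj h3
  have h5 : vx (foot oo up 1) up t i - foot oo up 1 = vx oo up s j - foot oo up 1 := by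
    rw [← h4]
    abel
  exact sub_left_injective h5

lemma gg_le (a b : ℕ) : gg a b ≤ gg b a := by
  unfold gg
  let F : {p : List Bool × List Bool | p.1 ∈ Brd a ∧ p.2 ∈ Brd b ∧ Dj p.1 p.2} →
      {p : List Bool × List Bool | p.1 ∈ Brd b ∧ p.2 ∈ Brd a ∧ Dj p.1 p.2} :=
    fun p => ⟨(p.1.2.map not, p.1.1.map not), brd_not p.2.2.1, brd_not p.2.1, dj_not p.2.2.2⟩
  have hF : Function.Injective F := by
    intro p q h
    have h1 : (p.1.2.map not, p.1.1.map not) = (q.1.2.map not, q.1.1.map not) := congrArg Subtype.val h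
    have h2 := congrArg (fun r => (r : List Bool × List Bool).1.map not) h1
    have h3 := congrArg (fun r => (r : List Bool × List Bool).2.map not) h1
    simp only [map_not_not] at h2 h3
    exact Subtype.ext (Prod.ext h3 h2)
  calc ∑' p : {p : List Bool × List Bool | p.1 ∈ Brd a ∧ p.2 ∈ Brd b ∧ Dj p.1 p.2}, wE p.1.1 * wE p.1.2
      = ∑' p : {p : List Bool × List Bool | p.1 ∈ Brd a ∧ p.2 ∈ Brd b ∧ Dj p.1 p.2},
          wE (F p).1.1 * wE (F p).1.2 := by
        apply tsum_congr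
        intro p
        show wE p.1.1 * wE p.1.2 = wE (p.1.2.map not) * wE (p.1.1.map not)
        rw [wE_map_not, wE_map_not, mul_comm]
    _ ≤ _ := ENNReal.tsum_comp_le_tsum_of_injective hF
        (fun p : {p : List Bool × List Bool | p.1 ∈ Brd b ∧ p.2 ∈ Brd a ∧ Dj p.1 p.2} => wE p.1.1 * wE p.1.2)

lemma uu_zero_le : uu 0 ≤ 1 := by
  unfold uu
  rw [← gf_Brd, Brd_zero]
  have h : gf ({[]} : Set (List Bool)) = 1 := by
    unfold gf
    have hm : ([] : List Bool) ∈ ({[]} : Set (List Bool)) := rfl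
    rw [tsum_subtype ({[]} : Set (List Bool)) (fun t => wE t), tsum_eq_single []]
    · rw [Set.indicator_of_mem hm]
      unfold wE
      simp
    · intro t ht
      have ht2 : t ∉ ({[]} : Set (List Bool)) := ht
      exact Set.indicator_of_notMem ht2 _
  rw [h]
  simp

lemma bT_anti1 {T : ℕ} (hT : 1 ≤ T) : bT T ≤ 1 := by
  have := ENNReal.toReal_mono ENNReal.one_ne_top (BT_le_one hT)
  simpa [bT] using this

/-- the partial sums against the sum over the even heights -/
lemma sum_even (m : ℕ) : ∑ t ∈ Finset.range (2 * m + 2), uu t ≤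
    2 + 2 * ∑ r ∈ Finset.range m, bT (2 * (r + 1)) := by
  induction m with
  | zero =>
    have h0 := uu_zero_le
    have h1 : uu 1 ≤ 1 := bT_anti1 le_rfl
    simp only [mul_zero, zero_add, Finset.sum_range_zero, add_zero]
    rw [Finset.sum_range_succ, Finset.sum_range_one]
    linarith
  | succ m ih =>
    have e : 2 * (m + 1) + 2 = 2 * m + 2 + 1 + 1 := by ring
    rw [e, Finset.sum_range_succ, Finset.sum_range_succ, Finset.sum_range_succ (fun r => bT (2 * (r + 1)))]
    have h1 : uu (2 * m + 2) = bT (2 * (m + 1)) := by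
      rw [show 2 * m + 2 = 2 * (m + 1) by ring]
      rfl
    have h2 : uu (2 * m + 2 + 1) ≤ bT (2 * (m + 1)) := by
      have := bT_antitone (T := 2 * (m + 1)) (by omega)
      exact this
    linarith

end GGaux

theorem gg_same (T : ℕ) : gg T T = Pi2 T 1 := by
  rw [D2aux.pi2_eq]
  unfold gg
  rw [tsum_subtype {p : List Bool × List Bool | p.1 ∈ Brd T ∧ p.2 ∈ Brd T ∧ Dj p.1 p.2}
    (fun p => wE p.1 * wE p.2)]
  have hset : {p : List Bool × List Bool | p.1 ∈ Brd T ∧ p.2 ∈ Brd T ∧ Dj p.1 p.2} =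
      {p : List Bool × List Bool | p.1 ∈ Br (St T) ∅ oo up ∧
        p.2 ∈ Br (St T) (vis oo up p.1) (foot oo up 1) up} := by
    ext p
    rw [Set.mem_ofPred_eq, Set.mem_ofPred_eq, mem_br (X := vis oo up p.1), GGaux.br_foot]
    unfold Dj
    rw [GGaux.foot0]
    rfl
  rw [hset]

theorem gg_symm (a b : ℕ) : gg a b = gg b a := le_antisymm (GGaux.gg_le a b) (GGaux.gg_le b a)

theorem gg_top (T : ℕ) (hT : 1 ≤ T) : (gg T T).toReal ≤ 2 * (1 + Real.sqrt 2) ^ 3 * (uu T ^ 2 / UU T) := by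
  rw [gg_same]
  have h1 := repulsion hT
  have h2 := GGaux.sum_even (T / 2)
  have h3 : UU T ≤ ∑ t ∈ Finset.range (2 * (T / 2) + 2), uu t := by
    unfold UU
    apply Finset.sum_le_sum_of_subset_of_nonneg
    · intro t ht
      rw [Finset.mem_range] at ht ⊢
      omega
    · intro t _ _
      exact ENNReal.toReal_nonneg
  have hs : Real.sqrt 2 ^ 2 = 2 := Real.sq_sqrt (by norm_num)
  have hs0 : 0 ≤ Real.sqrt 2 := Real.sqrt_nonneg 2
  have hprod : (1 + Real.sqrt 2) ^ 3 * (Real.sqrt 2 - 1) ^ 3 = 1 := by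
    rw [← mul_pow]
    have : (1 + Real.sqrt 2) * (Real.sqrt 2 - 1) = 1 := by linarith [hs, sq (Real.sqrt 2)]
    rw [this, one_pow]
  set S := ∑ r ∈ Finset.range (T / 2), bT (2 * (r + 1)) with hS
  have hS0 : 0 ≤ S := Finset.sum_nonneg fun r _ => bT_nonneg _
  have hbig : 1 ≤ (1 + Real.sqrt 2) ^ 3 := one_le_pow₀ (by linarith)
  have h4 : UU T ≤ 2 * (1 + Real.sqrt 2) ^ 3 * (1 + (Real.sqrt 2 - 1) ^ 3 * S) := by
    have e : 2 * (1 + Real.sqrt 2) ^ 3 * (1 + (Real.sqrt 2 - 1) ^ 3 * S) =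
        2 * (1 + Real.sqrt 2) ^ 3 + 2 * S * ((1 + Real.sqrt 2) ^ 3 * (Real.sqrt 2 - 1) ^ 3) := by ring
    rw [e, hprod]
    linarith
  have hUpos : 0 < UU T := by
    unfold UU
    have hm : T ∈ Finset.range (T + 1) := Finset.self_mem_range_succ T
    have hp : 0 < uu T := bT_pos hT
    exact lt_of_lt_of_le hp (Finset.single_le_sum (f := uu) (fun t _ => ENNReal.toReal_nonneg) hm)
  have hP : 0 ≤ (Pi2 T 1).toReal := ENNReal.toReal_nonneg
  rw [mul_div_assoc', le_div_iff₀ hUpos]
  calc (Pi2 T 1).toReal * UU T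
      ≤ (Pi2 T 1).toReal * (2 * (1 + Real.sqrt 2) ^ 3 * (1 + (Real.sqrt 2 - 1) ^ 3 * S)) :=
        mul_le_mul_of_nonneg_left h4 hP
    _ = 2 * (1 + Real.sqrt 2) ^ 3 * ((Pi2 T 1).toReal * (1 + (Real.sqrt 2 - 1) ^ 3 * S)) := by ring
    _ ≤ 2 * (1 + Real.sqrt 2) ^ 3 * uu T ^ 2 := by
        apply mul_le_mul_of_nonneg_left h1
        positivity

end HexObs
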