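import Pool.Agent.PHW.Defs
import Pool.Agent.PHW.DefsB
import Pool.Agent.PHW.GG

/-!
PHW, part Q: definitions for the closing estimate (unequal heights) and the recursion along the chain.
-/

set_option autoImplicit false

namespace HexObs

open Complex Finset ENNReal

/-- weight of the pairs (s, t), s in A, t in B, with the relation R -/
noncomputable def g2 (A B : Set (List Bool)) (R : List Bool → List Bool → Prop) : ℝ≥0∞ :=
  ∑' p : {p : List Bool × List Bool | p.1 ∈ A ∧ p.2 ∈ B ∧ R p.1 p.2}, wE p.1.1 * wE p.1.2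

/-- the vertex number i of t lies in the row above the height c -/
def InRow (t : List Bool) (c i : ℕ) : Prop := i ≤ t.length ∧ (lev t i = 3 * c + 2 ∨ lev t i = 3 * c + 3)

/-- all visits of t (which starts at the foot 1) to the row above the height c are at distance at least G
on the right of the end of s (which starts at the foot 0) -/
def Gap (s t : List Bool) (c : ℕ) (G : ℤ) : Prop := ∀ i, InRow t c i → latE s + G ≤ lat t i + 2

/-- viable pairs: at every cut of s (including 0 and the height of s) the walk t stays on the right of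
the cut point in the row above it -/
def Via (s t : List Bool) : Prop := ∀ (c b : ℕ) (s1 s2 : List Bool), s1 ∈ Brd c → s2 ∈ Brd b → s = s1 ++ s2 →
  Gap s1 t c 1

/-- weight of the viable disjoint pairs of bridges, heights a (left) and b (right) -/
noncomputable def VV (a b : ℕ) : ℝ≥0∞ := g2 (Brd a) (Brd b) (fun s t => Dj s t ∧ Via s t)

/-- weight of the viable disjoint pairs, the left bridge ends at its first cut j at or above M -/
noncomputable def PVf (M j b : ℕ) : ℝ≥0∞ := g2 (FC M j) (Brd b) (fun s t => Dj s t ∧ Via s t)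

/-- total weight of the bridges of height a with their chains of bridges of heights at most n -/
noncomputable def GF (κ : ℝ≥0∞) (n a : ℕ) : ℝ≥0∞ := ∑' g : {g : List Bool // g ∈ Brd a}, wE g.1 * Fch κ n g.1

/-- contribution of the strands of height n cut at the height l -/
noncomputable def wq (n l : ℕ) : ℝ := UU n * ∑ i ∈ Finset.range (l + 1), ∑ r ∈ Finset.Ico (l + 1 - i) (n + 1 - i),
  uu i / UU i * kk r * (uu (n - i - r) / UU (n - i - r))

theorem gg_eq_g2 (a b : ℕ) : gg a b = g2 (Brd a) (Brd b) Dj := rfl

theorem g2_mono {A A' B B' : Set (List Bool)} {R R' : List Bool → List Bool → Prop} (hA : A ⊆ A') (hB : B ⊆ B')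
    (hR : ∀ s t, s ∈ A → t ∈ B → R s t → R' s t) : g2 A B R ≤ g2 A' B' R' := by
  unfold g2
  exact ENNReal.tsum_mono_subtype (fun p : List Bool × List Bool => wE p.1 * wE p.2)
    (fun p hp => ⟨hA hp.1, hB hp.2.1, hR _ _ hp.1 hp.2.1 hp.2.2⟩)

open Classical in
theorem gf_ind (P : Set (List Bool)) : gf P = ∑' t : List Bool, if t ∈ P then wE t else 0 := by
  unfold gf
  rw [tsum_subtype P wE]
  exact tsum_congr fun t => by simp only [Set.indicator_apply]

open Classical in
theorem g2_ind (A B : Set (List Bool)) (R : List Bool → List Bool → Prop) :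
    g2 A B R = ∑' s : List Bool, ∑' t : List Bool, if s ∈ A ∧ t ∈ B ∧ R s t then wE s * wE t else 0 := by
  unfold g2
  rw [tsum_subtype {p : List Bool × List Bool | p.1 ∈ A ∧ p.2 ∈ B ∧ R p.1 p.2}
    (fun p : List Bool × List Bool => wE p.1 * wE p.2), ENNReal.tsum_prod']
  exact tsum_congr fun s => tsum_congr fun t => by simp only [Set.indicator_apply, Set.mem_ofPred_eq]

/-- sum over the left walk outside -/
theorem g2_left (A B : Set (List Bool)) (R : List Bool → List Bool → Prop) :
    g2 A B R = ∑' s : {s : List Bool // s ∈ A}, wE s.1 * gf {t | t ∈ B ∧ R s.1 t} := by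
  classical
  rw [g2_ind]
  have h2 := tsum_subtype A (fun s : List Bool => wE s * gf {t | t ∈ B ∧ R s t})
  refine Eq.trans ?_ h2.symm
  refine tsum_congr fun s => ?_
  by_cases hs : s ∈ A
  · rw [Set.indicator_of_mem hs, gf_ind, ← ENNReal.tsum_mul_left]
    refine tsum_congr fun t => ?_
    rw [Set.mem_ofPred_eq]
    by_cases h : t ∈ B ∧ R s t
    · rw [if_pos ⟨hs, h⟩, if_pos h]
    · rw [if_neg (fun h' => h h'.2), if_neg h, mul_zero]
  · rw [Set.indicator_of_notMem hs]
    simp [hs]

/-- sum over the right walk outside -/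
theorem g2_right (A B : Set (List Bool)) (R : List Bool → List Bool → Prop) :
    g2 A B R = ∑' t : {t : List Bool // t ∈ B}, wE t.1 * gf {s | s ∈ A ∧ R s t.1} := by
  classical
  rw [g2_ind, ENNReal.tsum_comm]
  have h2 := tsum_subtype B (fun t : List Bool => wE t * gf {s | s ∈ A ∧ R s t})
  refine Eq.trans ?_ h2.symm
  refine tsum_congr fun t => ?_
  by_cases ht : t ∈ B
  · rw [Set.indicator_of_mem ht, gf_ind, ← ENNReal.tsum_mul_left]
    refine tsum_congr fun s => ?_
    rw [Set.mem_ofPred_eq]
    by_cases h : s ∈ A ∧ R s t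
    · rw [if_pos ⟨h.1, ht, h.2⟩, if_pos h, mul_comm]
    · rw [if_neg (fun h' => h ⟨h'.1, h'.2.2⟩), if_neg h, mul_zero]
  · rw [Set.indicator_of_notMem ht]
    simp [ht]

end HexObs
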