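import Pool.Agent.PHW.IrrDec

/-!
PHW, module A5a: the real weights of bridges and of irreducible bridges.
-/

set_option autoImplicit false

namespace HexObs

open Complex Finset ENNReal

private lemma BT_zero' : BT 0 = 1 := by
  rw [← gf_Brd, Brd_zero]
  unfold gf
  rw [tsum_singleton (f := wE)]
  unfold wE
  simp

private lemma BT_le_one' (T : ℕ) : BT T ≤ 1 := by
  rcases Nat.eq_zero_or_pos T with rfl | h
  · exact BT_zero'.le
  · exact BT_le_one h

private lemma BT_ne_top' (T : ℕ) : BT T ≠ ∞ := ne_top_of_le_ne_top ENNReal.one_ne_top (BT_le_one' T)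

private lemma kap_le (r : ℕ) : kap' r ≤ BT r := by
  rw [← gf_Brd]
  exact gf_mono (fun t ht => ht.1)

private lemma kap_ne_top (r : ℕ) : kap' r ≠ ∞ := ne_top_of_le_ne_top (BT_ne_top' r) (kap_le r)

theorem uu_zero : uu 0 = 1 := by
  unfold uu
  rw [BT_zero', ENNReal.toReal_one]

theorem uu_eq {T : ℕ} (hT : 1 ≤ T) : uu T = bT T := rfl

theorem uu_le_one (T : ℕ) : uu T ≤ 1 := by
  unfold uu
  have := ENNReal.toReal_mono ENNReal.one_ne_top (BT_le_one' T)
  rwa [ENNReal.toReal_one] at this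

theorem uu_pos (T : ℕ) : 0 < uu T := by
  rcases Nat.eq_zero_or_pos T with rfl | h
  · rw [uu_zero]
    exact zero_lt_one
  · exact bT_pos h

private lemma uu_succ_le (T : ℕ) : uu (T + 1) ≤ uu T := by
  rcases Nat.eq_zero_or_pos T with rfl | h
  · rw [uu_zero]
    exact uu_le_one _
  · exact bT_antitone h

theorem uu_anti {T T' : ℕ} (h : T ≤ T') : uu T' ≤ uu T :=
  antitone_nat_of_succ_le uu_succ_le h

theorem kk_nonneg (r : ℕ) : 0 ≤ kk r := ENNReal.toReal_nonneg

theorem kk_zero : kk 0 = 0 := by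
  have h : Irr 0 = ∅ := by
    ext t
    simp only [Set.mem_empty_iff_false, iff_false]
    intro ht
    have := Irr_pos ht
    omega
  unfold kk kap' gf
  rw [h]
  simp

theorem kk_le (r : ℕ) (hr : 1 ≤ r) : kk r ≤ uu r :=
  ENNReal.toReal_mono (BT_ne_top' r) (kap_le r)

theorem renewal_real {T : ℕ} (hT : 1 ≤ T) : uu T = ∑ r ∈ Finset.Icc 1 T, kk r * uu (T - r) := by
  unfold uu kk
  rw [renewal hT, ENNReal.toReal_sum]
  · exact Finset.sum_congr rfl fun r _ => ENNReal.toReal_mul
  · intro r _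
    exact ENNReal.mul_ne_top (kap_ne_top r) (BT_ne_top' _)

end HexObs
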