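import Pool.Agent.PHW.Num3Gen
import Pool.Agent.PHW.Num1
import Pool.Agent.W47.Final

/-!
PHW, A5c: the renewal sequence of the bridge weights.
-/

set_option autoImplicit false

namespace HexObs

open Complex Finset ENNReal

theorem sum_kk_le (n : ℕ) : ∑ r ∈ Finset.range n, kk r ≤ 1 :=
  RenewNum.sum_k_le uu_pos uu_anti kk_nonneg kk_zero renewal_real n

lemma UU_unbounded (C : ℝ) : ∃ n : ℕ, C < ∑ t ∈ Finset.range (n + 1), uu t := by
  have hs : 0 < Real.sqrt 2 - 1 := by
    have : 1 < Real.sqrt 2 := by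
      rw [show (1 : ℝ) = Real.sqrt 1 from Real.sqrt_one.symm]
      exact Real.sqrt_lt_sqrt (by norm_num) (by norm_num)
    linarith
  have hC : 0 < CW := by
    unfold CW
    positivity
  have hb := bT_pos (T := 1) le_rfl
  have h1 : Filter.Tendsto (fun T : ℕ => ((T : ℝ) + 1) ^ (1 / (2 + CW))) Filter.atTop Filter.atTop := by
    apply (tendsto_rpow_atTop (by positivity : 0 < 1 / (2 + CW))).comp
    exact Filter.tendsto_atTop_add_const_right _ _ tendsto_natCast_atTop_atTop
  obtain ⟨n, hn1, hn⟩ := ((Filter.eventually_ge_atTop 1).and (h1.eventually_gt_atTop (2 * C / bT 1))).exists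
  refine ⟨n, ?_⟩
  have h2 := W47_final.2.1 n hn1
  rw [div_lt_iff₀ hb] at hn
  have e : Finset.range (n + 1) = insert 0 (Finset.Icc 1 n) := by
    ext x
    simp only [Finset.mem_range, Finset.mem_insert, Finset.mem_Icc]
    omega
  rw [e, Finset.sum_insert (by simp), uu_zero]
  have h3 : ∑ t ∈ Finset.Icc 1 n, uu t = ∑ t ∈ Finset.Icc 1 n, bT t := by
    apply Finset.sum_congr rfl
    intro t ht
    rw [Finset.mem_Icc] at ht
    exact uu_eq ht.1
  rw [h3]
  linarith

theorem tsum_kk : ∑' r : ℕ, kk r = 1 :=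
  RenewNum.tsum_k uu_zero uu_pos uu_anti kk_nonneg kk_zero renewal_real UU_unbounded

lemma summable_kk : Summable kk := summable_of_sum_range_le kk_nonneg sum_kk_le

lemma KK_nonneg (n : ℕ) : 0 ≤ KK' n := by
  unfold KK'
  linarith [sum_kk_le n]

lemma KK_anti {m n : ℕ} (h : m ≤ n) : KK' n ≤ KK' m := RenewNum.K_anti kk_nonneg h

lemma KK_le_one (n : ℕ) : KK' n ≤ 1 := by
  have := KK_anti (Nat.zero_le n)
  simpa [KK'] using this

/-- exactly one piece jumps over the level N -/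
theorem KK_renewal (N : ℕ) : ∑ y ∈ Finset.range (N + 1), uu y * KK' (N + 1 - y) = 1 :=
  RenewNum.K_renewal uu_zero kk_zero renewal_real N

theorem UU_mul_KK (n : ℕ) : UU n * KK' (n + 1) ≤ 1 :=
  RenewNum.U_mul_K uu_zero uu_pos kk_nonneg kk_zero renewal_real n

theorem sum_mul_kk {R : ℕ} (hR : 1 ≤ R) : ∑ r ∈ Finset.range (R + 1), r * kk r ≤ 3 * (R / UU R) :=
  RenewNum.sum_mul_k uu_zero uu_pos uu_anti kk_nonneg kk_zero renewal_real hR

/-- no cut in (s, S]: probability -/
theorem no_cut {s S : ℕ} (h : s ≤ S) : ∑ y ∈ Finset.range (s + 1), uu y * KK' (S + 1 - y) ≤ UU s / UU (S - s) :=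
  RenewNum.no_cut uu_zero uu_pos kk_nonneg kk_zero renewal_real h

end HexObs
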