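import Pool.Agent.PHW.Num2
import Pool.Agent.PHW.Num3
import Pool.Agent.PHW.DefsQ

/-!
PHW, part Q, module QG: the average over v of the last cut below v.
-/

set_option autoImplicit false

namespace HexObs

open Complex Finset ENNReal

theorem sum_KK : ∃ C : ℝ, 0 < C ∧ ∀ M : ℕ, 1 ≤ M → ∑ n ∈ Finset.range M, KK' (n + 1) ≤ C * (M / UU M) := by
  refine ⟨4, by norm_num, fun M hM => ?_⟩
  have h1 : ∑ n ∈ Finset.range M, KK' (n + 1) =
      ∑ r ∈ Finset.range (M + 1), r * kk r + M * KK' (M + 1) := RenewNum.sum_K M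
  have h2 := sum_mul_kk hM
  have h3 := UU_mul_KK M
  have hU : 0 < UU M := Num2Aux.UU_pos M
  have h4 : KK' (M + 1) ≤ 1 / UU M := by
    rw [le_div_iff₀ hU]
    linarith
  have h5 : (M : ℝ) * KK' (M + 1) ≤ M * (1 / UU M) :=
    mul_le_mul_of_nonneg_left h4 (Nat.cast_nonneg M)
  rw [h1]
  calc ∑ r ∈ Finset.range (M + 1), r * kk r + M * KK' (M + 1) ≤
      3 * (M / UU M) + M * (1 / UU M) := add_le_add h2 h5
    _ = 4 * (M / UU M) := by ring

/-- inner sum -/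
private lemma avg_inner {C : ℝ} (hC : ∀ M : ℕ, 1 ≤ M → ∑ n ∈ Finset.range M, KK' (n + 1) ≤ C * (M / UU M))
    {M i : ℕ} (hM : 1 ≤ M) (hi : i < M) :
    ∑ v ∈ Finset.Ico i M, ENNReal.ofReal (KK' (v + 1 - i)) ≤ ENNReal.ofReal (C * (M / UU M)) := by
  rw [← ENNReal.ofReal_sum_of_nonneg (fun v _ => KK_nonneg _)]
  apply ENNReal.ofReal_le_ofReal
  refine le_trans ?_ (hC M hM)
  have e : ∑ v ∈ Finset.Ico i M, KK' (v + 1 - i) = ∑ n ∈ Finset.range (M - i), KK' (n + 1) := by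
    rw [Finset.sum_Ico_eq_sum_range]
    apply Finset.sum_congr rfl
    intro n _
    rw [show i + n + 1 - i = n + 1 by omega]
  rw [e]
  apply Finset.sum_le_sum_of_subset_of_nonneg
  · intro x hx
    rw [Finset.mem_range] at hx ⊢
    omega
  · intro x _ _
    exact KK_nonneg _

/-- `PVf_avg` with `PVf_jump` (module QF, JumpV.lean) as a hypothesis -/
theorem PVf_avg_of (PVf_jump : ∀ {v M : ℕ}, v < M → ∀ N b : ℕ,
    ∑ j ∈ Finset.Ico M N, PVf M j b ≤ ∑ i ∈ Finset.range (v + 1), VV i b * ENNReal.ofReal (KK' (v + 1 - i))) :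
    ∃ C : ℝ, 0 < C ∧ ∀ M : ℕ, 1 ≤ M → ∀ N b : ℕ,
    ∑ j ∈ Finset.Ico M N, PVf M j b ≤ ENNReal.ofReal (C / UU M) * ∑ i ∈ Finset.range M, VV i b := by
  obtain ⟨C, hC0, hC⟩ := sum_KK
  refine ⟨C, hC0, fun M hM N b => ?_⟩
  have hM' : (0 : ℝ) < M := by exact_mod_cast hM
  have hU : 0 < UU M := Num2Aux.UU_pos M
  -- sum over all v < M
  have h1 : (M : ℝ≥0∞) * ∑ j ∈ Finset.Ico M N, PVf M j b ≤
      ∑ v ∈ Finset.range M, ∑ i ∈ Finset.range (v + 1), VV i b * ENNReal.ofReal (KK' (v + 1 - i)) := by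
    have h := Finset.card_nsmul_le_sum (Finset.range M)
      (fun v => ∑ i ∈ Finset.range (v + 1), VV i b * ENNReal.ofReal (KK' (v + 1 - i)))
      (∑ j ∈ Finset.Ico M N, PVf M j b)
      (fun v hv => PVf_jump (Finset.mem_range.1 hv) N b)
    rwa [Finset.card_range, nsmul_eq_mul] at h
  -- exchange the sums
  have h2 : ∑ v ∈ Finset.range M, ∑ i ∈ Finset.range (v + 1), VV i b * ENNReal.ofReal (KK' (v + 1 - i)) =
      ∑ i ∈ Finset.range M, ∑ v ∈ Finset.Ico i M, VV i b * ENNReal.ofReal (KK' (v + 1 - i)) := by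
    apply Finset.sum_comm'
    intro v i
    simp only [Finset.mem_range, Finset.mem_Ico]
    omega
  have h3 : ∑ i ∈ Finset.range M, ∑ v ∈ Finset.Ico i M, VV i b * ENNReal.ofReal (KK' (v + 1 - i)) ≤
      ENNReal.ofReal (C * (M / UU M)) * ∑ i ∈ Finset.range M, VV i b := by
    rw [Finset.mul_sum]
    apply Finset.sum_le_sum
    intro i hi
    rw [← Finset.mul_sum, mul_comm]
    exact mul_le_mul_left (avg_inner hC hM (Finset.mem_range.1 hi)) _
  have h4 := h1.trans (h2.le.trans h3)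
  have h5 : ENNReal.ofReal (C * (M / UU M)) = (M : ℝ≥0∞) * ENNReal.ofReal (C / UU M) := by
    rw [← ENNReal.ofReal_natCast M, ← ENNReal.ofReal_mul hM'.le]
    congr 1
    ring
  rw [h5, mul_assoc] at h4
  have hM0 : (M : ℝ≥0∞) ≠ 0 := by
    exact_mod_cast (by omega : M ≠ 0)
  have hMt : (M : ℝ≥0∞) ≠ ∞ := ENNReal.natCast_ne_top M
  exact (ENNReal.mul_le_mul_iff_right hM0 hMt).1 h4

end HexObs
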