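import Pool.Agent.PHW.DefsB

/-!
PHW B2d: elementary properties of Hang.
-/

set_option autoImplicit false

namespace HexObs

open Complex Finset ENNReal

namespace HangA

lemma vis_pref (v d0 : Pt) (a c : List Bool) : vis v d0 a ⊆ vis v d0 (a ++ c) := by
  rintro p ⟨i, h1, h2, h3⟩
  refine ⟨i, h1, ?_, ?_⟩
  · rw [List.length_append]
    omega
  · rw [vx_append (by omega)]
    exact h3

lemma vis_last (v d0 : Pt) (a : List Bool) (c c' : Bool) : vis v d0 (a ++ [c]) = vis v d0 (a ++ [c']) := by
  have key : ∀ c c' : Bool, vis v d0 (a ++ [c]) ⊆ vis v d0 (a ++ [c']) := by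
    rintro c c' p ⟨i, h1, h2, h3⟩
    rw [List.length_append, List.length_singleton] at h2
    refine ⟨i, h1, ?_, ?_⟩
    · rw [List.length_append, List.length_singleton]
      exact h2
    · rw [vx_append h2] at h3 ⊢
      exact h3
  exact Set.Subset.antisymm (key c c') (key c' c)

lemma Dj_pref_left {a c g : List Bool} (h : Dj (a ++ c) g) : Dj a g :=
  Set.disjoint_of_subset_left (vis_pref _ _ a c) h

lemma Dj_pref_right {a c g : List Bool} (h : Dj g (a ++ c)) : Dj g a :=
  Set.disjoint_of_subset_right (vis_pref _ _ a c) h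

lemma Dj_last_left {a g : List Bool} (c c' : Bool) (h : Dj (a ++ [c]) g) : Dj (a ++ [c']) g := by
  unfold Dj at h ⊢
  rwa [vis_last _ _ a c' c]

lemma Dj_last_right {a g : List Bool} (c c' : Bool) (h : Dj g (a ++ [c])) : Dj g (a ++ [c']) := by
  unfold Dj at h ⊢
  rwa [vis_last _ _ a c' c]

end HangA

theorem PrefC_Hang (g : List Bool) (b : Bool) : PrefC {t | Hang g b t} := by
  intro a c h
  cases b with
  | true =>
    have h1 : Dj ((false :: true :: a) ++ c) (rev g) := h
    exact (HangA.Dj_pref_left h1 : Dj (false :: true :: a) (rev g))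
  | false =>
    have h1 : Dj (rev g) ((true :: false :: a) ++ c) := h
    exact (HangA.Dj_pref_right h1 : Dj (rev g) (true :: false :: a))

theorem LastC_Hang (g : List Bool) (b : Bool) : LastC {t | Hang g b t} := by
  intro a c c' h
  cases b with
  | true =>
    have h1 : Dj ((false :: true :: a) ++ [c]) (rev g) := h
    exact (HangA.Dj_last_left c c' h1 : Dj ((false :: true :: a) ++ [c']) (rev g))
  | false =>
    have h1 : Dj (rev g) ((true :: false :: a) ++ [c]) := h
    exact (HangA.Dj_last_right c c' h1 : Dj (rev g) ((true :: false :: a) ++ [c']))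

theorem Hang_Nb {g t : List Bool} {b : Bool} (h : Hang g b t) : Nb g ((!b) :: b :: t) := by
  cases b with
  | true => exact Or.inr (h : Dj (false :: true :: t) (rev g))
  | false => exact Or.inl (h : Dj (rev g) (true :: false :: t))

theorem step_mem_Brd (b : Bool) : [!b, b] ∈ Brd 1 := by
  rw [mem_Brd]
  have h2 : lev [!b, b] 1 = 2 := by cases b <;> decide
  have h3 : lev [!b, b] 2 = 3 := by cases b <;> decide
  refine ⟨?_, ?_, ?_, ?_⟩
  · intro i hi hl
    have hl' : i ≤ 2 := hl
    have : i = 1 ∨ i = 2 := by omega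
    rcases this with rfl | rfl
    · rw [h2]
      norm_num
    · rw [h3]
      norm_num
  · intro i k hik hk heq
    have hk' : k ≤ 2 := hk
    have h0 : lev [!b, b] 0 = 0 := lev_zero _
    have he : lev [!b, b] i = lev [!b, b] k := by
      unfold lev
      rw [heq]
    have : (i = 0 ∧ k = 1) ∨ (i = 0 ∧ k = 2) ∨ (i = 1 ∧ k = 2) := by omega
    rcases this with ⟨rfl, rfl⟩ | ⟨rfl, rfl⟩ | ⟨rfl, rfl⟩
    · rw [h0, h2] at he
      omega
    · rw [h0, h3] at he
      omega
    · rw [h2, h3] at he
      omega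
  · cases b <;> decide
  · show lev [!b, b] 2 = 3 * ((1 : ℕ) : ℤ)
    rw [h3]
    norm_num

theorem Brd_step {T : ℕ} {b : Bool} {g : List Bool} (h : g ∈ Brd T) : (!b) :: b :: g ∈ Brd (T + 1) := by
  have h1 : [!b, b] ++ g ∈ Brd (1 + T) := Brd_append (step_mem_Brd b) h
  rw [Nat.add_comm T 1]
  exact h1

end HexObs
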