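import Pool.Agent.PHW.Defs

/-!
PHW A4: the piece that jumps over the level s.
-/

set_option autoImplicit false

namespace HexObs

open Complex Finset ENNReal

private lemma jump_app {a b : ℕ} {s t : List Bool} (hs : s ∈ Brd a) (ht : t ∈ Brd b) {n : ℕ}
    (h : n = a + b) : s ++ t ∈ Brd n := by
  rw [h]
  exact Brd_append hs ht

private lemma jump_zero {t : List Bool} (h : t ∈ Brd 0) : t = [] := by
  rw [Brd_zero] at h
  exact h

/-- level beyond the cut -/
private lemma jump_beyond {c b : ℕ} {s u : List Bool} (hs : s ∈ Brd c) (hu : u ∈ Brd b) {i : ℕ}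
    (h1 : s.length < i) (h2 : i ≤ (s ++ u).length) : 3 * (c : ℤ) < lev (s ++ u) i := by
  rw [mem_Brd] at hs hu
  obtain ⟨s1, s2, s3, s4⟩ := hs
  obtain ⟨u1, u2, u3, u4⟩ := hu
  rw [List.length_append] at h2
  obtain ⟨k, rfl⟩ : ∃ k, i = s.length + k := ⟨i - s.length, by omega⟩
  have := (u1 k (by omega) (by omega)).1
  rw [lev_cat s3, s4]
  omega

private lemma jump_at {c : ℕ} {s u : List Bool} (hs : s ∈ Brd c) :
    lev (s ++ u) s.length = 3 * (c : ℤ) := by
  rw [lev_append (by omega)]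
  exact (mem_Brd.1 hs).2.2.2

private lemma jump_nested {c c' b b' : ℕ} {s s' u u' : List Bool} (hs : s ∈ Brd c) (hs' : s' ∈ Brd c')
    (hu : u ∈ Brd b) (hu' : u' ∈ Brd b') (hc : c ≤ c') (h : s ++ u = s' ++ u') :
    ∃ v ∈ Brd (c' - c), s' = s ++ v ∧ u = v ++ u' := by
  have hl : s.length ≤ s'.length := by
    by_contra hlt
    push Not at hlt
    have h1 := jump_beyond hs' hu' hlt (by rw [← h, List.length_append]; omega)
    rw [← h, jump_at hs] at h1
    omega
  obtain ⟨v, hv⟩ : ∃ v, s' = s ++ v := by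
    have h1 : s <+: s' := by
      apply List.prefix_of_prefix_length_le (l₃ := s ++ u) (List.prefix_append s u) _ hl
      rw [h]
      exact List.prefix_append s' u'
    obtain ⟨v, hv⟩ := h1
    exact ⟨v, hv.symm⟩
  have hu2 : u = v ++ u' := by
    rw [hv, List.append_assoc] at h
    exact List.append_cancel_left h
  refine ⟨v, ?_, hv, hu2⟩
  refine (Brd_cancel hs (hv ▸ hs') ?_).2
  intro j hj1 hj2
  have h1 := jump_beyond hs hu (i := s.length + j) (by omega)
    (by rw [List.length_append, hu2, List.length_append]; omega)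
  rw [hu2, ← List.append_assoc, lev_append (by rw [List.length_append]; omega)] at h1
  exact h1

theorem jump_dec {s n : ℕ} (hs : s < n) {t : List Bool} (ht : t ∈ Brd n) :
    ∃ j r a p u, j ≤ s ∧ s < j + r ∧ j + r ≤ n ∧ a ∈ Brd j ∧ p ∈ Irr r ∧ u ∈ Brd (n - j - r) ∧ t = a ++ p ++ u := by
  classical
  -- the last cut
  let P : ℕ → Prop := fun j => ∃ a w, a ∈ Brd j ∧ w ∈ Brd (n - j) ∧ t = a ++ w
  have hP0 : P 0 := ⟨[], t, nil_mem_Brd, ht, rfl⟩
  obtain ⟨j, hjs, ⟨a, w, ha, hw, htw⟩, hmax⟩ : ∃ j, j ≤ s ∧ P j ∧ ∀ j', j' ≤ s → P j' → j' ≤ j :=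
    ⟨Nat.findGreatest P s, Nat.findGreatest_le s, Nat.findGreatest_spec (m := 0) (Nat.zero_le s) hP0,
      fun j' h1 h2 => Nat.le_findGreatest h1 h2⟩
  -- the first cut of the rest
  let Q : ℕ → Prop := fun r => 1 ≤ r ∧ r ≤ n - j ∧ ∃ p u, p ∈ Brd r ∧ u ∈ Brd (n - j - r) ∧ w = p ++ u
  have hQ : ∃ r, Q r := ⟨n - j, by omega, le_rfl, w, [], hw, by
    rw [Nat.sub_self]
    exact nil_mem_Brd, (List.append_nil w).symm⟩
  obtain ⟨r, ⟨hr1, hr2, p, u, hp, hu, hwu⟩, hmin⟩ : ∃ r, Q r ∧ ∀ r', Q r' → r ≤ r' :=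
    ⟨Nat.find hQ, Nat.find_spec hQ, fun r' h => Nat.find_min' hQ h⟩
  refine ⟨j, r, a, p, u, hjs, ?_, by omega, ha, ⟨hp, ?_, ?_⟩, hu, ?_⟩
  · by_contra hle
    push Not at hle
    have h1 : P (j + r) := ⟨a ++ p, u, Brd_append ha hp, by
      rw [← Nat.sub_sub]
      exact hu, by rw [htw, hwu, List.append_assoc]⟩
    have := hmax (j + r) hle h1
    omega
  · rintro rfl
    have := Brd_height hp nil_mem_Brd
    omega
  · intro x y s' u' hs' hu' he
    by_contra hne
    push Not at hne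
    obtain ⟨n1, n2⟩ := hne
    have hx : x ≠ 0 := by
      rintro rfl
      exact n1 (jump_zero hs')
    have hy : y ≠ 0 := by
      rintro rfl
      exact n2 (jump_zero hu')
    have hxy : x + y = r := Brd_height (Brd_append hs' hu') (he ▸ hp)
    have h1 : Q x := ⟨by omega, by omega, s', u' ++ u, hs', jump_app hu' hu (by omega), by
      rw [hwu, he, List.append_assoc]⟩
    have := hmin x h1
    omega
  · rw [htw, hwu, List.append_assoc]

private lemma jump_irr {r c b b' : ℕ} {p u v w : List Bool} (hp : p ∈ Irr r) (hv : v ∈ Brd c)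
    (hu : u ∈ Brd b) (hw : w ∈ Brd b') (hc : c ≤ r) (h : v ++ w = p ++ u) :
    v = [] ∨ (v = p ∧ w = u) := by
  obtain ⟨x, hx, h1, h2⟩ := jump_nested hv hp.1 hw hu hc h
  rcases hp.2.2 _ _ _ _ hv hx h1 with h3 | h3
  · exact Or.inl h3
  · right
    rw [h3, List.append_nil] at h1
    rw [h3, List.nil_append] at h2
    exact ⟨h1.symm, h2⟩

private lemma jump_unique' {s j r j' r' b b' : ℕ} {a p u a' p' u' : List Bool}
    (hr : s < j + r) (hj' : j' ≤ s) (ha : a ∈ Brd j) (hp : p ∈ Irr r) (hu : u ∈ Brd b)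
    (ha' : a' ∈ Brd j') (hp' : p' ∈ Irr r') (hu' : u' ∈ Brd b') (h : a ++ p ++ u = a' ++ p' ++ u')
    (hjj : j ≤ j') : a = a' ∧ p = p' ∧ u = u' := by
  rw [List.append_assoc, List.append_assoc] at h
  have hpu : p ++ u ∈ Brd (r + b) := Brd_append hp.1 hu
  have hpu' : p' ++ u' ∈ Brd (r' + b') := Brd_append hp'.1 hu'
  obtain ⟨v, hv, h1, h2⟩ := jump_nested ha ha' hpu hpu' hjj h
  have hv0 : v = [] := by
    rcases jump_irr hp hv hu hpu' (by omega) h2.symm with h3 | ⟨h3, -⟩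
    · exact h3
    · exfalso
      rw [h3] at hv
      have := Brd_height hv hp.1
      omega
  rw [hv0, List.append_nil] at h1
  rw [hv0, List.nil_append] at h2
  refine ⟨h1.symm, ?_⟩
  rcases le_total r r' with hrr | hrr
  · rcases jump_irr hp' hp.1 hu' hu hrr h2 with h3 | h3
    · exact absurd h3 hp.2.1
    · exact h3
  · rcases jump_irr hp hp'.1 hu hu' hrr h2.symm with h3 | h3
    · exact absurd h3 hp'.2.1
    · exact ⟨h3.1.symm, h3.2.symm⟩

theorem jump_unique {s j r j' r' b b' : ℕ} {a p u a' p' u' : List Bool} (hj : j ≤ s) (hr : s < j + r)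
    (hj' : j' ≤ s) (hr' : s < j' + r') (ha : a ∈ Brd j) (hp : p ∈ Irr r) (hu : u ∈ Brd b)
    (ha' : a' ∈ Brd j') (hp' : p' ∈ Irr r') (hu' : u' ∈ Brd b') (h : a ++ p ++ u = a' ++ p' ++ u') :
    a = a' ∧ p = p' ∧ u = u' := by
  rcases le_total j j' with hjj | hjj
  · exact jump_unique' hr hj' ha hp hu ha' hp' hu' h hjj
  · obtain ⟨h1, h2, h3⟩ := jump_unique' hr' hj ha' hp' hu' ha hp hu h.symm hjj
    exact ⟨h1.symm, h2.symm, h3.symm⟩

end HexObs
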