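import Pool.Agent.PHW.ViaE
import Pool.Agent.PHW.Jump
import Pool.Agent.PHW.HangA

/-!
PHW Q6: the last cut below v.
-/

set_option autoImplicit false

namespace HexObs

open Complex Finset ENNReal

namespace JumpVaux

/-- weight of a finite union -/
lemma gf_biUnion_le {ι : Type*} (I : Finset ι) (A : ι → Set (List Bool)) :
    gf (⋃ i ∈ I, A i) ≤ ∑ i ∈ I, gf (A i) := by
  classical
  induction I using Finset.induction_on with
  | empty =>
    simp only [Finset.notMem_empty, Set.iUnion_of_empty, Set.iUnion_empty, Finset.sum_empty]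
    unfold gf
    rw [nonpos_iff_eq_zero, ENNReal.tsum_eq_zero]
    rintro ⟨t, ht⟩
    exact absurd ht (Set.notMem_empty t)
  | insert a s ha ih =>
    rw [Finset.set_biUnion_insert, Finset.sum_insert ha]
    exact (gf_union_le _ _).trans (add_le_add le_rfl ih)

lemma gf_empty : gf (∅ : Set (List Bool)) = 0 := by
  unfold gf
  rw [ENNReal.tsum_eq_zero]
  rintro ⟨t, ht⟩
  exact absurd ht (Set.notMem_empty t)

lemma gf_nil : gf ({[]} : Set (List Bool)) = 1 := by
  unfold gf
  rw [tsum_singleton]
  unfold wE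
  simp

/-- the rest after the piece that jumps over v; m = height of the end of the piece -/
def UR (M m j : ℕ) : Set (List Bool) :=
  {u | (M ≤ m ∧ j = m ∧ u = []) ∨ (m < M ∧ u ∈ FC (M - m) (j - m))}

lemma sum_UR (M m N : ℕ) : ∑ j ∈ Finset.Ico M N, gf (UR M m j) ≤ 1 := by
  rcases Nat.lt_or_ge m M with h | h
  · have h1 : ∀ j, UR M m j = FC (M - m) (j - m) := by
      intro j
      ext u
      constructor
      · rintro (⟨h2, -⟩ | ⟨-, h2⟩)
        · omega
        · exact h2
      · exact fun h2 => Or.inr ⟨h, h2⟩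
    simp only [h1]
    have h2 : ∑ j ∈ Finset.Ico M N, gf (FC (M - m) (j - m)) =
        ∑ i ∈ (Finset.Ico M N).image (fun j => j - m), gf (FC (M - m) i) := by
      rw [Finset.sum_image]
      intro a ha b hb hab
      simp only [Finset.coe_Ico, Set.mem_Ico] at ha hb
      have hab' : a - m = b - m := hab
      omega
    rw [h2]
    refine le_trans (Finset.sum_le_sum_of_subset ?_) (sum_FC_le (M - m) N)
    intro i hi
    rw [Finset.mem_image] at hi
    obtain ⟨j, hj, rfl⟩ := hi
    rw [Finset.mem_Ico] at hj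
    rw [Finset.mem_range]
    omega
  · have h1 : ∀ j, j ≠ m → gf (UR M m j) = 0 := by
      intro j hj
      have h2 : UR M m j = ∅ := by
        ext u
        constructor
        · rintro (⟨-, h3, -⟩ | ⟨h3, -⟩)
          · exact absurd h3 hj
          · omega
        · exact fun h2 => absurd h2 (Set.notMem_empty u)
      rw [h2, gf_empty]
    have h2 : gf (UR M m m) ≤ 1 := by
      rw [← gf_nil]
      apply gf_mono
      rintro u (⟨-, -, h3⟩ | ⟨h3, -⟩)
      · exact h3
      · omega
    by_cases hm : m ∈ Finset.Ico M N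
    · rw [Finset.sum_eq_single_of_mem m hm (fun j _ hj => h1 j hj)]
      exact h2
    · rw [Finset.sum_eq_zero]
      · exact zero_le_one
      · intro j hj
        apply h1
        rintro rfl
        exact hm hj

/-- the left walks of height i that can be continued -/
def AA (i : ℕ) (t : List Bool) : Set (List Bool) := {a | a ∈ Brd i ∧ Dj a t ∧ Via a t}

/-- one height of the end -/
lemma one_j {v M N : ℕ} (hv : v < M) {j : ℕ} (hj : j ∈ Finset.Ico M N) (t : List Bool) :
    gf {s | s ∈ FC M j ∧ Dj s t ∧ Via s t} ≤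
      ∑ i ∈ Finset.range (v + 1), ∑ r ∈ Finset.Ico (v - i + 1) N, gf (AA i t) * (kap' r * gf (UR M (i + r) j)) := by
  rw [Finset.mem_Ico] at hj
  have hsub : {s | s ∈ FC M j ∧ Dj s t ∧ Via s t} ⊆
      ⋃ i ∈ Finset.range (v + 1), ⋃ r ∈ Finset.Ico (v - i + 1) N,
        {s | ∃ a ∈ AA i t, ∃ w ∈ {w | ∃ p ∈ Irr r, ∃ u ∈ UR M (i + r) j, w = p ++ u}, s = a ++ w} := by
    rintro s ⟨hs, hd, hvia⟩
    obtain ⟨i, r, a, p, u, hi, hir, hirj, ha, hp, hu, hsapu⟩ := jump_dec (s := v) (n := j) (by omega) hs.1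
    have hpu : p ++ u ∈ Brd (r + (j - i - r)) := Brd_append hp.1 hu
    have hs2 : s = a ++ (p ++ u) := by rw [hsapu, List.append_assoc]
    rw [Set.mem_iUnion₂]
    refine ⟨i, Finset.mem_range.2 (by omega), ?_⟩
    rw [Set.mem_iUnion₂]
    refine ⟨r, Finset.mem_Ico.2 ⟨by omega, by omega⟩, a, ⟨ha, ?_, ?_⟩, p ++ u, ⟨p, hp, u, ?_, rfl⟩, hs2⟩
    · rw [hs2] at hd
      exact HangA.Dj_pref_left hd
    · rw [hs2] at hvia
      exact Via_left ha hpu hvia
    · have hap : a ++ p ∈ Brd (i + r) := Brd_append ha hp.1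
      rcases Nat.lt_or_ge (i + r) M with h | h
      · right
        refine ⟨h, ?_, by omega, ?_⟩
        · have e : j - (i + r) = j - i - r := by omega
          rw [e]
          exact hu
        · rintro c hc1 hc2 ⟨x, y, b, hx, hy, hxy⟩
          apply hs.2.2 (i + r + c) (by omega) (by omega)
          refine ⟨a ++ p ++ x, y, b, Brd_append hap hx, hy, ?_⟩
          rw [hsapu, hxy]
          simp only [List.append_assoc]
      · left
        have hj2 : j = i + r := by
          by_contra hne
          exact hs.2.2 (i + r) h (by omega) ⟨a ++ p, u, _, hap, hu, hsapu⟩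
        refine ⟨h, hj2, ?_⟩
        have e : j - i - r = 0 := by omega
        rw [e, Brd_zero] at hu
        exact hu
  refine (gf_mono hsub).trans ((gf_biUnion_le _ _).trans (Finset.sum_le_sum fun i _ => ?_))
  refine (gf_biUnion_le _ _).trans (Finset.sum_le_sum fun r _ => ?_)
  refine (gf_le_mul (Q := AA i t) (R := {w | ∃ p ∈ Irr r, ∃ u ∈ UR M (i + r) j, w = p ++ u})
    fun s hs => hs).trans ?_
  gcongr
  exact gf_le_mul fun w hw => hw

end JumpVaux

open JumpVaux

theorem PVf_jump {v M : ℕ} (hv : v < M) (N b : ℕ) :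
    ∑ j ∈ Finset.Ico M N, PVf M j b ≤ ∑ i ∈ Finset.range (v + 1), VV i b * ENNReal.ofReal (KK' (v + 1 - i)) := by
  have hfix : ∀ t : List Bool, ∑ j ∈ Finset.Ico M N, gf {s | s ∈ FC M j ∧ Dj s t ∧ Via s t} ≤
      ∑ i ∈ Finset.range (v + 1), gf (AA i t) * ENNReal.ofReal (KK' (v + 1 - i)) := by
    intro t
    refine (Finset.sum_le_sum fun j hj => one_j hv hj t).trans ?_
    rw [Finset.sum_comm]
    refine Finset.sum_le_sum fun i hi => ?_
    rw [Finset.mem_range] at hi
    rw [Finset.sum_comm]
    calc ∑ r ∈ Finset.Ico (v - i + 1) N, ∑ j ∈ Finset.Ico M N, gf (AA i t) * (kap' r * gf (UR M (i + r) j))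
        = ∑ r ∈ Finset.Ico (v - i + 1) N, gf (AA i t) * (kap' r * ∑ j ∈ Finset.Ico M N, gf (UR M (i + r) j)) := by
          refine Finset.sum_congr rfl fun r _ => ?_
          rw [Finset.mul_sum, Finset.mul_sum]
      _ ≤ ∑ r ∈ Finset.Ico (v - i + 1) N, gf (AA i t) * kap' r := by
          refine Finset.sum_le_sum fun r _ => ?_
          gcongr
          calc kap' r * ∑ j ∈ Finset.Ico M N, gf (UR M (i + r) j) ≤ kap' r * 1 := by
                gcongr
                exact sum_UR M (i + r) N
            _ = kap' r := mul_one _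
      _ = gf (AA i t) * ∑ r ∈ Finset.Ico (v - i + 1) N, kap' r := by rw [Finset.mul_sum]
      _ ≤ gf (AA i t) * ENNReal.ofReal (KK' (v + 1 - i)) := by
          gcongr
          have e : v + 1 - i = v - i + 1 := by omega
          rw [e]
          exact sum_kap_gt (v - i) N
  calc ∑ j ∈ Finset.Ico M N, PVf M j b
      = ∑ j ∈ Finset.Ico M N, ∑' t : {t : List Bool // t ∈ Brd b},
          wE t.1 * gf {s | s ∈ FC M j ∧ Dj s t.1 ∧ Via s t.1} := by
        refine Finset.sum_congr rfl fun j _ => ?_
        unfold PVf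
        rw [g2_right]
    _ = ∑' t : {t : List Bool // t ∈ Brd b}, ∑ j ∈ Finset.Ico M N,
          wE t.1 * gf {s | s ∈ FC M j ∧ Dj s t.1 ∧ Via s t.1} :=
        (Summable.tsum_finsetSum fun _ _ => ENNReal.summable).symm
    _ ≤ ∑' t : {t : List Bool // t ∈ Brd b}, ∑ i ∈ Finset.range (v + 1),
          ENNReal.ofReal (KK' (v + 1 - i)) * (wE t.1 * gf (AA i t.1)) := by
        refine ENNReal.tsum_le_tsum fun t => ?_
        rw [← Finset.mul_sum]
        calc wE t.1 * ∑ j ∈ Finset.Ico M N, gf {s | s ∈ FC M j ∧ Dj s t.1 ∧ Via s t.1}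
            ≤ wE t.1 * ∑ i ∈ Finset.range (v + 1), gf (AA i t.1) * ENNReal.ofReal (KK' (v + 1 - i)) := by
              gcongr
              exact hfix t.1
          _ = ∑ i ∈ Finset.range (v + 1), ENNReal.ofReal (KK' (v + 1 - i)) * (wE t.1 * gf (AA i t.1)) := by
              rw [Finset.mul_sum]
              refine Finset.sum_congr rfl fun i _ => ?_
              ring
    _ = ∑ i ∈ Finset.range (v + 1), ∑' t : {t : List Bool // t ∈ Brd b},
          ENNReal.ofReal (KK' (v + 1 - i)) * (wE t.1 * gf (AA i t.1)) :=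
        Summable.tsum_finsetSum fun _ _ => ENNReal.summable
    _ = ∑ i ∈ Finset.range (v + 1), VV i b * ENNReal.ofReal (KK' (v + 1 - i)) := by
        refine Finset.sum_congr rfl fun i _ => ?_
        rw [ENNReal.tsum_mul_left, mul_comm]
        congr 1
        unfold VV
        rw [g2_right]
        rfl

end HexObs
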