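import Pool.Agent.PHW.AvgV0
import Pool.Agent.PHW.JumpV

/-!
PHW, part Q, module QG: the average over v of the last cut below v.
-/

set_option autoImplicit false

namespace HexObs

open Complex Finset ENNReal

theorem PVf_avg : ∃ C : ℝ, 0 < C ∧ ∀ M : ℕ, 1 ≤ M → ∀ N b : ℕ,
    ∑ j ∈ Finset.Ico M N, PVf M j b ≤ ENNReal.ofReal (C / UU M) * ∑ i ∈ Finset.range M, VV i b :=
  PVf_avg_of fun hv N b => PVf_jump hv N b

end HexObs
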