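import Pool.Agent.PHW.Defs
import Pool.Agent.W47.Final

/-!
PHW: numbers, part 2: regularity and growth of the bridge weights with u 0 = 1.
-/

set_option autoImplicit false

namespace HexObs

open Complex Finset ENNReal

namespace Num2Aux

lemma zero : uu 0 = 1 := by
  unfold uu
  rw [← gf_Brd, Brd_zero]
  simp [gf, wE]

lemma eq (T : ℕ) : uu T = bT T := rfl

lemma nonneg (T : ℕ) : 0 ≤ uu T := ENNReal.toReal_nonneg

lemma succ_le (T : ℕ) : uu (T + 1) ≤ uu T := by
  rcases Nat.eq_zero_or_pos T with h | h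
  · subst h
    rw [zero, eq]
    have h1 := bT_add_aT (T := 0 + 1) (by omega)
    have h2 := mul_nonneg cos3_pos.le (aT_nonneg (0 + 1))
    linarith
  · exact bT_antitone h

lemma anti {T T' : ℕ} (h : T ≤ T') : uu T' ≤ uu T := antitone_nat_of_succ_le succ_le h

lemma CW_pos : 0 < CW := by
  unfold CW
  have hs2 : 1 < Real.sqrt 2 := by
    rw [Real.lt_sqrt (by norm_num)]; norm_num
  have : 0 < Real.sqrt 2 - 1 := by linarith
  positivity

lemma UU_eq (T : ℕ) : UU T = 1 + ∑ t ∈ Finset.Icc 1 T, bT t := by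
  unfold UU
  rw [Finset.sum_range_succ', zero, add_comm]
  congr 1
  rw [Finset.range_eq_Ico, Finset.sum_Ico_add' (fun t => uu t) 0 T 1]
  apply Finset.sum_congr
  · ext x
    simp only [Finset.mem_Ico, Finset.mem_Icc]
    omega
  · intro x _
    rfl

lemma UU_succ (T : ℕ) : UU (T + 1) = UU T + uu (T + 1) := by
  unfold UU
  rw [Finset.sum_range_succ]

lemma UU_pos (T : ℕ) : 0 < UU T := by
  rw [UU_eq]
  have : 0 ≤ ∑ t ∈ Finset.Icc 1 T, bT t := Finset.sum_nonneg fun t _ => bT_nonneg t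
  linarith

lemma mul_le_UU (T : ℕ) : T * uu T ≤ UU T := by
  unfold UU
  have h1 : ∑ _t ∈ Finset.range (T + 1), uu T ≤ ∑ t ∈ Finset.range (T + 1), uu t := by
    apply Finset.sum_le_sum
    intro t ht
    rw [Finset.mem_range] at ht
    exact anti (by omega)
  rw [Finset.sum_const, Finset.card_range, nsmul_eq_mul] at h1
  push_cast at h1
  have := nonneg T
  linarith

lemma UU_mono {a b : ℕ} (h : a ≤ b) : UU a ≤ UU b := by
  unfold UU
  apply Finset.sum_le_sum_of_subset_of_nonneg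
  · intro x hx
    rw [Finset.mem_range] at hx ⊢
    omega
  · intro x _ _
    exact nonneg x

end Num2Aux

open Num2Aux

theorem UU_le_mul {T : ℕ} (hT : 1 ≤ T) : UU T ≤ (6 + CW) * (T * uu T) := by
  have h1 := W47_final.1 T hT
  have h2 := bT_lower hT
  have hT' : (1 : ℝ) ≤ T := by exact_mod_cast hT
  have h3 : 1 ≤ (T + 3 : ℝ) * bT T := by
    have := mul_le_mul_of_nonneg_left h2 (by linarith : (0 : ℝ) ≤ T + 3)
    rwa [mul_one_div_cancel (by linarith : (T : ℝ) + 3 ≠ 0)] at this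
  have h4 : (T + 3 : ℝ) * bT T ≤ 4 * (T * bT T) := by
    have := mul_le_mul_of_nonneg_right (by linarith : (T + 3 : ℝ) ≤ 4 * T) (bT_nonneg T)
    linarith
  rw [UU_eq, eq]
  linarith

theorem UU_double (T : ℕ) : UU (2 * T) ≤ 2 * UU T := by
  have h1 : UU (2 * T) = UU T + ∑ t ∈ Finset.range T, uu (T + 1 + t) := by
    unfold UU
    rw [show 2 * T + 1 = (T + 1) + T by ring, Finset.sum_range_add]
  have h2 : ∑ t ∈ Finset.range T, uu (T + 1 + t) ≤ ∑ t ∈ Finset.range T, uu t :=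
    Finset.sum_le_sum fun t _ => anti (by omega)
  have h3 : UU T = ∑ t ∈ Finset.range T, uu t + uu T := by
    unfold UU
    rw [Finset.sum_range_succ]
  have h4 := nonneg T
  linarith

theorem uu_double {T : ℕ} (hT : 1 ≤ T) : uu T ≤ 2 * (6 + CW) * uu (2 * T) := by
  have h1 := mul_le_UU T
  have h2 := UU_mono (show T ≤ 2 * T by omega)
  have h3 := UU_le_mul (T := 2 * T) (by omega)
  have hT' : (0 : ℝ) < T := by exact_mod_cast hT
  push_cast at h3
  have h4 : (T : ℝ) * uu T ≤ T * (2 * (6 + CW) * uu (2 * T)) := by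
    calc (T : ℝ) * uu T ≤ (6 + CW) * (2 * T * uu (2 * T)) := h1.trans (h2.trans h3)
      _ = _ := by ring
  exact le_of_mul_le_mul_left h4 hT'

theorem UU_growth {s T : ℕ} (hs : 1 ≤ s) (h : s ≤ T) :
    UU s * ((T : ℝ) / s) ^ (1 / (6 + CW)) ≤ 2 * UU T := by
  have hCW := CW_pos
  obtain ⟨θ, hθ⟩ : ∃ θ : ℝ, θ = 1 / (6 + CW) := ⟨_, rfl⟩
  have hθ0 : 0 < θ := by rw [hθ]; positivity
  have hθ1 : θ ≤ 1 := by
    rw [hθ, div_le_one (by linarith)]
    linarith
  have hs' : (1 : ℝ) ≤ s := by exact_mod_cast hs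
  rw [← hθ]
  -- one step
  have step : ∀ n : ℕ, 1 ≤ n → UU n * (((n : ℝ) + 2) / (n + 1)) ^ θ ≤ UU (n + 1) := by
    intro n hn
    have hn' : (1 : ℝ) ≤ n := by exact_mod_cast hn
    have h1 := UU_le_mul (T := n + 1) (by omega)
    have h2 := UU_succ n
    have h3 := UU_mono (show n ≤ n + 1 by omega)
    push_cast at h1
    have h4 : θ * UU (n + 1) ≤ (n + 1) * uu (n + 1) := by
      rw [hθ, one_div, inv_mul_le_iff₀ (by linarith)]
      exact h1
    have h5 : θ * UU n ≤ (n + 1) * uu (n + 1) := (mul_le_mul_of_nonneg_left h3 hθ0.le).trans h4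
    have h6 : UU n * (1 + θ * (1 / ((n : ℝ) + 1))) ≤ UU (n + 1) := by
      rw [h2, mul_add, mul_one]
      have h7 : UU n * (θ * (1 / ((n : ℝ) + 1))) = (θ * UU n) / (n + 1) := by ring
      have h8 : (θ * UU n) / ((n : ℝ) + 1) ≤ uu (n + 1) := by
        rw [div_le_iff₀ (by linarith)]
        linarith
      rw [h7]
      linarith
    have h9 : (((n : ℝ) + 2) / (n + 1)) ^ θ ≤ 1 + θ * (1 / ((n : ℝ) + 1)) := by
      have h10 : ((n : ℝ) + 2) / (n + 1) = 1 + 1 / ((n : ℝ) + 1) := by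
        field_simp
        ring
      rw [h10]
      have h11 : 0 ≤ 1 / ((n : ℝ) + 1) := by positivity
      exact rpow_one_add_le_one_add_mul_self (by linarith) hθ0.le hθ1
    exact (mul_le_mul_of_nonneg_left h9 (UU_pos n).le).trans h6
  have key : ∀ m : ℕ, s ≤ m → UU s * (((m : ℝ) + 1) / (s + 1)) ^ θ ≤ UU m := by
    intro m hm
    induction m, hm using Nat.le_induction with
    | base =>
      rw [div_self (by linarith), Real.one_rpow, mul_one]
    | succ m hm ih =>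
      have h1 := step m (by omega)
      have h2 : ((((m + 1 : ℕ) : ℝ) + 1) / (s + 1)) ^ θ =
          (((m : ℝ) + 1) / (s + 1)) ^ θ * (((m : ℝ) + 2) / (m + 1)) ^ θ := by
        rw [← Real.mul_rpow (by positivity) (by positivity)]
        congr 1
        push_cast
        field_simp
        ring
      rw [h2]
      have h3 : (0 : ℝ) ≤ (((m : ℝ) + 2) / (m + 1)) ^ θ := by positivity
      calc UU s * ((((m : ℝ) + 1) / (s + 1)) ^ θ * (((m : ℝ) + 2) / (m + 1)) ^ θ) =
          (UU s * (((m : ℝ) + 1) / (s + 1)) ^ θ) * (((m : ℝ) + 2) / (m + 1)) ^ θ := by ring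
        _ ≤ UU m * (((m : ℝ) + 2) / (m + 1)) ^ θ := mul_le_mul_of_nonneg_right ih h3
        _ ≤ UU (m + 1) := h1
  have hT : (1 : ℝ) ≤ T := by exact_mod_cast (hs.trans h)
  have h1 : ((T : ℝ) / s) ^ θ ≤ 2 * (((T : ℝ) + 1) / (s + 1)) ^ θ := by
    have h2 : (T : ℝ) / s ≤ 2 * (((T : ℝ) + 1) / (s + 1)) := by
      rw [← mul_div_assoc, div_le_div_iff₀ (by linarith) (by linarith)]
      nlinarith
    calc ((T : ℝ) / s) ^ θ ≤ (2 * (((T : ℝ) + 1) / (s + 1))) ^ θ :=
          Real.rpow_le_rpow (by positivity) h2 hθ0.le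
      _ = (2 : ℝ) ^ θ * (((T : ℝ) + 1) / (s + 1)) ^ θ :=
          Real.mul_rpow (by norm_num) (by positivity)
      _ ≤ (2 : ℝ) ^ (1 : ℝ) * (((T : ℝ) + 1) / (s + 1)) ^ θ := by
          apply mul_le_mul_of_nonneg_right
          · exact Real.rpow_le_rpow_of_exponent_le (by norm_num) hθ1
          · positivity
      _ = _ := by rw [Real.rpow_one]
  calc UU s * ((T : ℝ) / s) ^ θ ≤ UU s * (2 * (((T : ℝ) + 1) / (s + 1)) ^ θ) :=
        mul_le_mul_of_nonneg_left h1 (UU_pos s).le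
    _ = 2 * (UU s * (((T : ℝ) + 1) / (s + 1)) ^ θ) := by ring
    _ ≤ 2 * UU T := mul_le_mul_of_nonneg_left (key T h) (by norm_num)

end HexObs
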