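import Pool.Agent.PHW.DefsQ
import Pool.Agent.PHW.Num2
import Pool.Agent.PHW.Num3

/-!
PHW Q7: the numerical iteration.
-/

set_option autoImplicit false

namespace HexObs

open Complex Finset ENNReal Num2Aux

namespace IterQ

lemma UU_eight (M : ℕ) : UU (8 * M) ≤ 8 * UU M := by
  have h1 := UU_double (4 * M)
  have h2 := UU_double (2 * M)
  have h3 := UU_double M
  have e1 : 2 * (4 * M) = 8 * M := by ring
  have e2 : 2 * (2 * M) = 4 * M := by ring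
  rw [e1] at h1
  rw [e2] at h2
  linarith

lemma UU_down {k m : ℕ} (h : m ≤ k) : UU (2 ^ (k - m)) * ((2 : ℝ) ^ m) ^ (1 / (6 + CW)) ≤ 2 * UU (2 ^ k) := by
  have h1 := UU_growth (s := 2 ^ (k - m)) (T := 2 ^ k) Nat.one_le_two_pow
    (Nat.pow_le_pow_right (by norm_num) (by omega))
  have e : (((2 ^ k : ℕ) : ℝ)) / ((2 ^ (k - m) : ℕ) : ℝ) = (2 : ℝ) ^ m := by
    push_cast
    rw [div_eq_iff (by positivity), ← pow_add]
    congr 1
    omega
  rwa [e] at h1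

lemma one_add_pow (J : ℕ) : (1 + 1 / ((J : ℝ) + 1)) ^ J ≤ 3 := by
  have h0 : (0 : ℝ) ≤ J := Nat.cast_nonneg J
  have h1 : 1 + 1 / ((J : ℝ) + 1) ≤ Real.exp (1 / ((J : ℝ) + 1)) := by
    have := Real.add_one_le_exp (1 / ((J : ℝ) + 1))
    linarith
  calc (1 + 1 / ((J : ℝ) + 1)) ^ J ≤ Real.exp (1 / ((J : ℝ) + 1)) ^ J := by
        apply pow_le_pow_left₀ (by positivity) h1
    _ = Real.exp (J * (1 / ((J : ℝ) + 1))) := by rw [← Real.exp_nat_mul]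
    _ ≤ Real.exp 1 := by
        apply Real.exp_le_exp.2
        rw [mul_one_div, div_le_one (by linarith)]
        linarith
    _ ≤ 3 := by
        have := Real.exp_one_lt_d9
        linarith

end IterQ

theorem iterQ {C1 : ℝ} (hC1 : 0 < C1) : ∃ C : ℝ, 0 < C ∧ ∀ (J : ℕ) (u : ℝ) (S : ℕ → ℝ), 0 ≤ u → (∀ n, 0 ≤ S n) →
    Monotone S → (∀ n : ℕ, S n ≤ n * u) →
    (∀ M G D : ℕ, 1 ≤ M → 1 ≤ G → 1 ≤ D → D ≤ M → 8 * M ≤ 2 ^ J →
      S (8 * M) ≤ S (4 * M) + 8 * M / G * u + C1 / UU M * S M * (C1 * (G / D) * UU (8 * M) + UU D)) →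
    ∀ N : ℕ, N ≤ 2 ^ J → S N ≤ C * ((J : ℝ) + 1) ^ C * u := by
  have hCW := CW_pos
  obtain ⟨θ, hθ⟩ : ∃ θ : ℝ, θ = 1 / (6 + CW) := ⟨_, rfl⟩
  have hθ0 : 0 < θ := by rw [hθ]; positivity
  have hθ1 : θ ≤ 1 := by
    rw [hθ, div_le_one (by linarith)]
    linarith
  obtain ⟨B, hB⟩ : ∃ B : ℝ, B = C1 * (8 * C1 + 2) := ⟨_, rfl⟩
  have hB0 : 0 < B := by rw [hB]; positivity
  refine ⟨max (96 * (B + 1) ^ (2 / θ)) (1 + 2 / θ), ?_, ?_⟩
  · apply lt_max_of_lt_right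
    positivity
  intro J u S hu hS hmono hlin hrec N hN
  have hJ0 : (0 : ℝ) ≤ J := Nat.cast_nonneg J
  have hJ1 : (1 : ℝ) ≤ (J : ℝ) + 1 := by linarith
  -- the number m
  obtain ⟨X, hX⟩ : ∃ X : ℝ, X = ((B + 1) * ((J : ℝ) + 1)) ^ (1 / θ) := ⟨_, rfl⟩
  have hBJ : 1 ≤ (B + 1) * ((J : ℝ) + 1) := by nlinarith
  have hX1 : 1 ≤ X := by
    rw [hX]
    exact Real.one_le_rpow hBJ (by positivity)
  obtain ⟨m', hm1, hm2⟩ := exists_nat_pow_near hX1 (by norm_num : (1 : ℝ) < 2)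
  obtain ⟨m, hm⟩ : ∃ m : ℕ, m = m' + 1 := ⟨_, rfl⟩
  have hmX : X ≤ (2 : ℝ) ^ m := by rw [hm]; exact hm2.le
  have hmX2 : (2 : ℝ) ^ m ≤ 2 * X := by
    rw [hm, pow_succ]
    linarith
  have hpm : (0 : ℝ) < (2 : ℝ) ^ m := by positivity
  have hpm1 : (1 : ℝ) ≤ (2 : ℝ) ^ m := one_le_pow₀ (by norm_num)
  obtain ⟨r, hr⟩ : ∃ r : ℝ, r = ((2 : ℝ) ^ m) ^ θ := ⟨_, rfl⟩
  have hr0 : 0 < r := by rw [hr]; positivity
  have hrle : r ≤ (2 : ℝ) ^ m := by
    rw [hr]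
    calc ((2 : ℝ) ^ m) ^ θ ≤ ((2 : ℝ) ^ m) ^ (1 : ℝ) := Real.rpow_le_rpow_of_exponent_le hpm1 hθ1
      _ = (2 : ℝ) ^ m := Real.rpow_one _
  have hrB : (B + 1) * ((J : ℝ) + 1) ≤ r := by
    have h1 : X ^ θ ≤ r := by
      rw [hr]
      exact Real.rpow_le_rpow (by linarith) hmX hθ0.le
    have h2 : X ^ θ = (B + 1) * ((J : ℝ) + 1) := by
      rw [hX, ← Real.rpow_mul (by positivity), one_div_mul_cancel hθ0.ne', Real.rpow_one]
    rwa [h2] at h1
  obtain ⟨E, hE⟩ : ∃ E : ℝ, E = 8 * ((2 : ℝ) ^ m) ^ 2 * u := ⟨_, rfl⟩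
  have hE0 : 0 ≤ E := by rw [hE]; positivity
  obtain ⟨q, hq⟩ : ∃ q : ℝ, q = 1 + 1 / ((J : ℝ) + 1) := ⟨_, rfl⟩
  have hq1 : 1 ≤ q := by
    rw [hq]
    have : 0 ≤ 1 / ((J : ℝ) + 1) := by positivity
    linarith
  -- one step
  have step : ∀ k : ℕ, 2 * m ≤ k → k + 3 ≤ J → S (2 ^ (k + 3)) ≤ q * S (2 ^ (k + 2)) + E := by
    intro k hk hkJ
    have h1 := hrec (2 ^ k) (2 ^ (k - 2 * m)) (2 ^ (k - m)) Nat.one_le_two_pow Nat.one_le_two_pow
      Nat.one_le_two_pow (Nat.pow_le_pow_right (by norm_num) (by omega)) (by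
        have : 8 * 2 ^ k = 2 ^ (k + 3) := by ring
        rw [this]
        exact Nat.pow_le_pow_right (by norm_num) hkJ)
    have e8 : 8 * 2 ^ k = 2 ^ (k + 3) := by ring
    have e4 : 4 * 2 ^ k = 2 ^ (k + 2) := by ring
    have hU8 := IterQ.UU_eight (2 ^ k)
    have hUd := IterQ.UU_down (show m ≤ k by omega)
    rw [← hθ, ← hr] at hUd
    have hU0 := UU_pos (2 ^ k)
    have hS0 := hS (2 ^ k)
    have hSm : S (2 ^ k) ≤ S (2 ^ (k + 2)) := hmono (Nat.pow_le_pow_right (by norm_num) (by omega))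
    have eG : 8 * (((2 ^ k : ℕ) : ℝ)) / ((2 ^ (k - 2 * m) : ℕ) : ℝ) * u = E := by
      rw [hE]
      congr 1
      push_cast
      rw [div_eq_iff (by positivity), mul_assoc, ← pow_mul, ← pow_add]
      congr 2
      omega
    have eGD : (((2 ^ (k - 2 * m) : ℕ) : ℝ)) / ((2 ^ (k - m) : ℕ) : ℝ) = ((2 : ℝ) ^ m)⁻¹ := by
      push_cast
      rw [div_eq_iff (by positivity), eq_inv_mul_iff_mul_eq₀ (by positivity), ← pow_add]
      congr 1
      omega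
    rw [eG, eGD] at h1
    have hfac : C1 * ((2 : ℝ) ^ m)⁻¹ * UU (8 * 2 ^ k) + UU (2 ^ (k - m)) ≤ UU (2 ^ k) * (8 * C1 + 2) / r := by
      have h2 : C1 * ((2 : ℝ) ^ m)⁻¹ * UU (8 * 2 ^ k) ≤ C1 * r⁻¹ * (8 * UU (2 ^ k)) := by
        apply mul_le_mul _ hU8 (UU_pos _).le (by positivity)
        apply mul_le_mul_of_nonneg_left _ hC1.le
        exact inv_anti₀ hr0 hrle
      have h3 : UU (2 ^ (k - m)) ≤ 2 * UU (2 ^ k) / r := by
        rw [le_div_iff₀ hr0]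
        exact hUd
      calc C1 * ((2 : ℝ) ^ m)⁻¹ * UU (8 * 2 ^ k) + UU (2 ^ (k - m)) ≤
          C1 * r⁻¹ * (8 * UU (2 ^ k)) + 2 * UU (2 ^ k) / r := add_le_add h2 h3
        _ = UU (2 ^ k) * (8 * C1 + 2) / r := by
          field_simp
    have hlast : C1 / UU (2 ^ k) * S (2 ^ k) * (C1 * ((2 : ℝ) ^ m)⁻¹ * UU (8 * 2 ^ k) + UU (2 ^ (k - m))) ≤
        1 / ((J : ℝ) + 1) * S (2 ^ (k + 2)) := by
      calc C1 / UU (2 ^ k) * S (2 ^ k) * (C1 * ((2 : ℝ) ^ m)⁻¹ * UU (8 * 2 ^ k) + UU (2 ^ (k - m))) ≤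
          C1 / UU (2 ^ k) * S (2 ^ k) * (UU (2 ^ k) * (8 * C1 + 2) / r) := by
            apply mul_le_mul_of_nonneg_left hfac
            positivity
        _ = B / r * S (2 ^ k) := by
            rw [hB]
            field_simp
        _ ≤ 1 / ((J : ℝ) + 1) * S (2 ^ k) := by
            apply mul_le_mul_of_nonneg_right _ hS0
            rw [div_le_div_iff₀ hr0 (by linarith)]
            nlinarith
        _ ≤ _ := mul_le_mul_of_nonneg_left hSm (by positivity)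
    rw [← e8]
    have h5 : S (4 * 2 ^ k) = S (2 ^ (k + 2)) := by rw [e4]
    rw [h5] at h1
    rw [hq]
    linarith
  -- induction
  have key : ∀ j : ℕ, j ≤ J → S (2 ^ j) ≤ q ^ j * ((j : ℝ) + 1) * E := by
    intro j
    induction j using Nat.strong_induction_on with
    | _ j ih =>
    intro hj
    have hqj : 1 ≤ q ^ j := one_le_pow₀ hq1
    by_cases hcase : j ≤ 2 * m + 2
    · have h1 := hlin (2 ^ j)
      have h2 : (((2 ^ j : ℕ) : ℝ)) * u ≤ E := by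
        rw [hE]
        apply mul_le_mul_of_nonneg_right _ hu
        push_cast
        calc (2 : ℝ) ^ j ≤ 2 ^ (2 * m + 3) := pow_le_pow_right₀ (by norm_num) (by omega)
          _ = 8 * ((2 : ℝ) ^ m) ^ 2 := by ring
      have h3 : E ≤ q ^ j * ((j : ℝ) + 1) * E := by
        have h4 : 1 ≤ q ^ j * ((j : ℝ) + 1) := by
          have : (0 : ℝ) ≤ j := Nat.cast_nonneg j
          nlinarith
        nlinarith
      linarith
    · obtain ⟨k, rfl⟩ : ∃ k, j = k + 3 := ⟨j - 3, by omega⟩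
      have h1 := step k (by omega) hj
      have h2 := ih (k + 2) (by omega) (by omega)
      have h3 : q * S (2 ^ (k + 2)) ≤ q * (q ^ (k + 2) * (((k + 2 : ℕ) : ℝ) + 1) * E) :=
        mul_le_mul_of_nonneg_left h2 (by linarith)
      have h4 : E ≤ q ^ (k + 3) * E := by nlinarith
      have h5 : q ^ (k + 3) * (((k + 3 : ℕ) : ℝ) + 1) * E =
          q * (q ^ (k + 2) * (((k + 2 : ℕ) : ℝ) + 1) * E) + q ^ (k + 3) * E := by
        push_cast
        ring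
      rw [h5]
      linarith
  have hfin := key J le_rfl
  have hSN : S N ≤ S (2 ^ J) := hmono hN
  have hq3 : q ^ J ≤ 3 := by
    rw [hq]
    exact IterQ.one_add_pow J
  have hX2 : ((2 : ℝ) ^ m) ^ 2 ≤ 4 * X ^ 2 := by
    calc ((2 : ℝ) ^ m) ^ 2 ≤ (2 * X) ^ 2 := pow_le_pow_left₀ hpm.le hmX2 2
      _ = 4 * X ^ 2 := by ring
  have hXX : X ^ 2 = (B + 1) ^ (2 / θ) * ((J : ℝ) + 1) ^ (2 / θ) := by
    rw [hX, ← Real.rpow_natCast, ← Real.rpow_mul (by positivity), ← Real.mul_rpow (by positivity) (by positivity)]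
    congr 1
    push_cast
    ring
  have hA : S N ≤ 96 * (B + 1) ^ (2 / θ) * (((J : ℝ) + 1) ^ (2 / θ) * ((J : ℝ) + 1)) * u := by
    calc S N ≤ q ^ J * ((J : ℝ) + 1) * E := hSN.trans hfin
      _ ≤ 3 * ((J : ℝ) + 1) * (8 * (4 * X ^ 2) * u) := by
          rw [hE]
          apply mul_le_mul
          · exact mul_le_mul_of_nonneg_right hq3 (by linarith)
          · apply mul_le_mul_of_nonneg_right _ hu
            linarith
          · positivity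
          · positivity
      _ = _ := by
          rw [hXX]
          ring
  refine hA.trans ?_
  apply mul_le_mul_of_nonneg_right _ hu
  have hpw : ((J : ℝ) + 1) ^ (2 / θ) * ((J : ℝ) + 1) = ((J : ℝ) + 1) ^ (1 + 2 / θ) := by
    rw [Real.rpow_add (by linarith), Real.rpow_one, mul_comm]
  rw [hpw]
  apply mul_le_mul (le_max_left _ _) _ (by positivity) (by positivity)
  exact Real.rpow_le_rpow_of_exponent_le hJ1 (le_max_right _ _)

end HexObs
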