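import Pool.Agent.PHW.AntiC

/-!
PHW, part Q: the end point of a fresh bridge is rarely near the other walk.
-/

set_option autoImplicit false

namespace HexObs

open Complex Finset ENNReal

namespace NearAux

/-- the weight of a family of words with a labelling in a finite set of integers -/
lemma gf_le_card (P : Set (List Bool)) (A : Finset ℤ) (f : List Bool → ℤ) (hf : ∀ v ∈ P, f v ∈ A) (c : ℝ≥0∞)
    (hc : ∀ x : ℤ, gf {v | v ∈ P ∧ f v = x} ≤ c) : gf P ≤ A.card * c := by
  induction A using Finset.induction_on generalizing P with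
  | empty =>
    have hP : P = ∅ := by
      ext v
      simp only [Set.mem_empty_iff_false, iff_false]
      intro hv
      exact absurd (hf v hv) (Finset.notMem_empty _)
    rw [hP]
    unfold gf
    rw [tsum_empty]
    exact zero_le
  | insert x A hx ih =>
    have h1 : P ⊆ {v | v ∈ P ∧ f v = x} ∪ {v | v ∈ P ∧ f v ∈ A} := by
      intro v hv
      rcases Finset.mem_insert.1 (hf v hv) with h | h
      · exact Or.inl ⟨hv, h⟩
      · exact Or.inr ⟨hv, h⟩
    have h2 : gf {v | v ∈ P ∧ f v ∈ A} ≤ A.card * c := by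
      refine ih {v | v ∈ P ∧ f v ∈ A} (fun v hv => hv.2) (fun y => ?_)
      refine le_trans (gf_mono ?_) (hc y)
      rintro v ⟨hv, hy⟩
      exact ⟨hv.1, hy⟩
    rw [Finset.card_insert_of_notMem hx, Nat.cast_add, Nat.cast_one, add_mul, one_mul, add_comm]
    exact (gf_mono h1).trans ((gf_union_le _ _).trans (add_le_add (hc x) h2))

end NearAux

theorem near : ∃ C : ℝ, 0 < C ∧ ∀ h : ℕ, 1 ≤ h → ∀ (b y : ℕ), y < b → ∀ t ∈ Brd b, ∀ (x0 : ℤ) (G : ℕ),
    gf {v | v ∈ Brd h ∧ (∀ i, InRow t y i → x0 + latE v < lat t i + 2) ∧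
      ¬ (∀ i, InRow t y i → x0 + latE v + G ≤ lat t i + 2)} ≤ ENNReal.ofReal (C * (G * (uu h / h))) := by
  classical
  obtain ⟨C, hC, hend⟩ := anti_end
  refine ⟨C, hC, fun h hh b y _ t _ x0 G => ?_⟩
  set S : Set (List Bool) := {v | v ∈ Brd h ∧ (∀ i, InRow t y i → x0 + latE v < lat t i + 2) ∧
      ¬ (∀ i, InRow t y i → x0 + latE v + G ≤ lat t i + 2)} with hS
  set R : Finset ℕ := (Finset.range (t.length + 1)).filter (fun i => InRow t y i) with hR
  have hmemR : ∀ i, i ∈ R ↔ InRow t y i := by
    intro i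
    rw [hR, Finset.mem_filter, Finset.mem_range]
    constructor
    · exact fun h => h.2
    · exact fun h => ⟨Nat.lt_succ_of_le h.1, h⟩
  rcases R.eq_empty_or_nonempty with hRe | hRn
  · have hSe : S = ∅ := by
      ext v
      simp only [Set.mem_empty_iff_false, iff_false]
      rintro ⟨-, -, hv⟩
      apply hv
      intro i hi
      rw [← hmemR, hRe] at hi
      exact absurd hi (Finset.notMem_empty _)
    rw [hSe]
    unfold gf
    rw [tsum_empty]
    exact zero_le
  · obtain ⟨i0, hi0, hmin⟩ := Finset.exists_min_image R (fun i => lat t i) hRn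
    have hi0' := (hmemR i0).1 hi0
    have key := NearAux.gf_le_card S (Finset.Ico (lat t i0 + 2 - x0 - G) (lat t i0 + 2 - x0)) latE
      (by
        rintro v ⟨-, hv1, hv2⟩
        rw [Finset.mem_Ico]
        push Not at hv2
        obtain ⟨i, hi, hlt⟩ := hv2
        have h1 := hv1 i0 hi0'
        have h2 := hmin i ((hmemR i).2 hi)
        constructor
        · linarith
        · linarith)
      (ENNReal.ofReal (C * (uu h / h)))
      (by
        intro x
        refine le_trans (gf_mono ?_) (hend h hh x)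
        rintro v ⟨hv, hx⟩
        exact ⟨hv.1, hx⟩)
    refine key.trans (le_of_eq ?_)
    have hcard : (Finset.Ico (lat t i0 + 2 - x0 - G) (lat t i0 + 2 - x0)).card = G := by
      rw [Int.card_Ico]
      have : lat t i0 + 2 - x0 - (lat t i0 + 2 - x0 - (G : ℤ)) = (G : ℤ) := by ring
      rw [this, Int.toNat_natCast]
    rw [hcard]
    have hG : ((G : ℕ) : ℝ≥0∞) = ENNReal.ofReal (G : ℝ) := (ENNReal.ofReal_natCast G).symm
    rw [hG, ← ENNReal.ofReal_mul (Nat.cast_nonneg G)]
    congr 1
    ring

end HexObs
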