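import Pool.Agent.PHW.NearB0
import Pool.Agent.PHW.Near

/-!
PHW, module QE: the viable pairs of one block of heights.
-/

set_option autoImplicit false

namespace HexObs

open Complex Finset ENNReal

/-- one block of heights -/
theorem near_block : ∃ C : ℝ, 0 < C ∧ ∀ M b G D : ℕ, 1 ≤ M → 8 * M ≤ b → 1 ≤ G → 1 ≤ D →
    ∑ y ∈ Finset.Ico (4 * M) (8 * M), VV y b ≤ ENNReal.ofReal (8 * M / G * uu b) +
      (∑ j ∈ Finset.Ico M (8 * M), PVf M j b) * ENNReal.ofReal (C * (G / D) * UU (8 * M) + UU D) :=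
  near_block_of near

end HexObs
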