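import Pool.Agent.PHW.ViaE
import Pool.Agent.PHW.NearB
import Pool.Agent.PHW.AvgV
import Pool.Agent.PHW.IterQ
import Pool.Agent.PHW.Num1
import Pool.Agent.PHW.Num2

/-!
PHW part Q, module QI: the weight of the viable pairs, summed over the height of the left bridge up to half the
height of the right bridge, is at most a power of log b times uu b.
-/

set_option autoImplicit false

namespace HexObs

open Complex Finset ENNReal

theorem VV_sum : ∃ C : ℝ, 0 < C ∧ ∀ b N : ℕ, 1 ≤ b → 2 * N ≤ b →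
    ∑ i ∈ Finset.range N, VV i b ≤ ENNReal.ofReal (C * (1 + (Nat.log 2 b : ℝ)) ^ C * uu b) := by
  obtain ⟨CA, hCA, hnear⟩ := near_block
  obtain ⟨CB, hCB, havg⟩ := PVf_avg
  obtain ⟨C1, hC1⟩ : ∃ C1 : ℝ, C1 = max CA CB := ⟨_, rfl⟩
  have hCA1 : CA ≤ C1 := hC1 ▸ le_max_left _ _
  have hCB1 : CB ≤ C1 := hC1 ▸ le_max_right _ _
  have hC10 : 0 < C1 := hCA.trans_le hCA1
  obtain ⟨C, hC, hiter⟩ := iterQ hC10
  refine ⟨C, hC, fun b N hb hN => ?_⟩
  have hub : 0 ≤ uu b := (uu_pos b).le
  have hfinV : ∀ i, VV i b ≠ ∞ := fun i => ne_top_of_le_ne_top ENNReal.ofReal_ne_top (VV_le' i b)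
  have hfin : ∀ s : Finset ℕ, ∑ i ∈ s, VV i b ≠ ∞ := fun s => by
    rw [ENNReal.sum_ne_top]
    exact fun i _ => hfinV i
  obtain ⟨S, hS⟩ : ∃ S : ℕ → ℝ, S = fun n => (∑ i ∈ Finset.range n, VV i b).toReal := ⟨_, rfl⟩
  have hS0 : ∀ n, 0 ≤ S n := by
    intro n
    rw [hS]
    exact ENNReal.toReal_nonneg
  have hSmono : Monotone S := by
    intro m n hmn
    rw [hS]
    exact ENNReal.toReal_mono (hfin _) (Finset.sum_le_sum_of_subset (Finset.range_mono hmn))
  have hSle : ∀ n : ℕ, S n ≤ n * uu b := by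
    intro n
    rw [hS]
    show (∑ i ∈ Finset.range n, VV i b).toReal ≤ n * uu b
    rw [ENNReal.toReal_sum (fun i _ => hfinV i)]
    calc ∑ i ∈ Finset.range n, (VV i b).toReal ≤ ∑ _i ∈ Finset.range n, uu b := by
          apply Finset.sum_le_sum
          intro i _
          exact ENNReal.toReal_le_of_le_ofReal hub (VV_le' i b)
      _ = n * uu b := by rw [Finset.sum_const, Finset.card_range, nsmul_eq_mul]
  have hrec : ∀ M G D : ℕ, 1 ≤ M → 1 ≤ G → 1 ≤ D → D ≤ M → 8 * M ≤ 2 ^ Nat.log 2 b →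
      S (8 * M) ≤ S (4 * M) + 8 * M / G * uu b + C1 / UU M * S M * (C1 * (G / D) * UU (8 * M) + UU D) := by
    intro M G D hM hG hD _ h8
    have h8b : 8 * M ≤ b := h8.trans (Nat.pow_log_le_self 2 (by omega))
    have h1 := hnear M b G D hM h8b hG hD
    have h2 := havg M hM (8 * M) b
    have hGpos : (0 : ℝ) < G := by exact_mod_cast hG
    have hDpos : (0 : ℝ) < D := by exact_mod_cast hD
    have hUM := Num2Aux.UU_pos M
    have hU8 := Num2Aux.UU_pos (8 * M)
    have hUD := Num2Aux.UU_pos D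
    have e1 : S (8 * M) = S (4 * M) + (∑ y ∈ Finset.Ico (4 * M) (8 * M), VV y b).toReal := by
      rw [hS]
      show (∑ i ∈ Finset.range (8 * M), VV i b).toReal = (∑ i ∈ Finset.range (4 * M), VV i b).toReal +
        (∑ y ∈ Finset.Ico (4 * M) (8 * M), VV y b).toReal
      rw [← ENNReal.toReal_add (hfin _) (hfin _), Finset.sum_range_add_sum_Ico _ (by omega)]
    have h3 : ∑ y ∈ Finset.Ico (4 * M) (8 * M), VV y b ≤
        ENNReal.ofReal (8 * M / G * uu b + C1 / UU M * S M * (C1 * (G / D) * UU (8 * M) + UU D)) := by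
      have hSM : ∑ i ∈ Finset.range M, VV i b = ENNReal.ofReal (S M) := by
        rw [hS]
        exact (ENNReal.ofReal_toReal (hfin _)).symm
      have h4 : ∑ j ∈ Finset.Ico M (8 * M), PVf M j b ≤ ENNReal.ofReal (C1 / UU M * S M) := by
        refine h2.trans ?_
        rw [hSM, ← ENNReal.ofReal_mul (by positivity)]
        apply ENNReal.ofReal_le_ofReal
        have := hS0 M
        gcongr
      have h5 : ENNReal.ofReal (CA * (G / D) * UU (8 * M) + UU D) ≤
          ENNReal.ofReal (C1 * (G / D) * UU (8 * M) + UU D) := by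
        apply ENNReal.ofReal_le_ofReal
        gcongr
      have hSM0 := hS0 M
      calc ∑ y ∈ Finset.Ico (4 * M) (8 * M), VV y b
          ≤ ENNReal.ofReal (8 * M / G * uu b) + (∑ j ∈ Finset.Ico M (8 * M), PVf M j b) *
            ENNReal.ofReal (CA * (G / D) * UU (8 * M) + UU D) := h1
        _ ≤ ENNReal.ofReal (8 * M / G * uu b) + ENNReal.ofReal (C1 / UU M * S M) *
            ENNReal.ofReal (C1 * (G / D) * UU (8 * M) + UU D) := by gcongr
        _ = _ := by
          rw [← ENNReal.ofReal_mul (by positivity), ← ENNReal.ofReal_add (by positivity) (by positivity)]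
    have hSM0 := hS0 M
    have h6 := ENNReal.toReal_le_of_le_ofReal (by positivity) h3
    rw [e1]
    linarith
  have hN2 : N ≤ 2 ^ Nat.log 2 b := by
    have h1 : b < 2 ^ (Nat.log 2 b + 1) := Nat.lt_pow_succ_log_self (by norm_num) b
    rw [pow_succ] at h1
    omega
  have h7 := hiter (Nat.log 2 b) (uu b) S hub hS0 hSmono hSle hrec N hN2
  have h8 : ∑ i ∈ Finset.range N, VV i b = ENNReal.ofReal (S N) := by
    rw [hS]
    exact (ENNReal.ofReal_toReal (hfin _)).symm
  rw [h8]
  apply ENNReal.ofReal_le_ofReal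
  rw [add_comm (1 : ℝ)]
  exact h7

end HexObs
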