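import Pool.Agent.PHW.Defs

/-!
PHW A7a: disjoint pairs of bridge words: prefixes, mirror image, parts beyond the top.
-/

set_option autoImplicit false

namespace HexObs

open Complex Finset ENNReal

lemma vis_prefix (v d : Pt) (s s' : List Bool) : vis v d s ⊆ vis v d (s ++ s') := by
  rintro p ⟨i, h1, h2, rfl⟩
  exact ⟨i, h1, by rw [List.length_append]; omega, vx_append (by omega)⟩

theorem Dj_prefix {s s' t t' : List Bool} (h : Dj (s ++ s') (t ++ t')) : Dj s t :=
  Disjoint.mono (vis_prefix _ _ _ _) (vis_prefix _ _ _ _) h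

lemma foot_zero_eq : foot oo up 0 = (0, 0) := by decide

lemma foot_one_eq : foot oo up 1 = (2, -1) := by decide

lemma refl_form (v : Pt) : mulE (-1, 1) (conjE v) = (-v.1, v.1 + v.2) := by
  unfold mulE conjE
  apply Prod.ext
  · simp only []
    ring
  · simp only []
    ring

theorem Dj_not {s t : List Bool} (h : Dj s t) : Dj (t.map not) (s.map not) := by
  unfold Dj at h ⊢
  rw [Set.disjoint_left] at h ⊢
  rintro p ⟨i, hi, hil, h1⟩ ⟨j, hj, hjl, h2⟩
  rw [List.length_map] at hil hjl
  have hup : mulE (-1, 1) (conjE up) = up := by decide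
  have e1 := vx_refl (-1, 1) (foot oo up 1) (foot oo up 0) up t (i := i) (by omega)
  have e2 := vx_refl (-1, 1) (foot oo up 0) (foot oo up 1) up s (i := j) (by omega)
  rw [hup, refl_form] at e1 e2
  rw [← h1, e1, e2] at h2
  refine h ⟨j, hj, hjl, rfl⟩ ⟨i, hi, hil, ?_⟩
  rw [foot_zero_eq, foot_one_eq] at h2 ⊢
  have a1 := congrArg Prod.fst h2
  have a2 := congrArg Prod.snd h2
  simp only [Prod.fst_add, Prod.snd_add, Prod.fst_sub, Prod.snd_sub] at a1 a2
  apply Prod.ext
  · linarith
  · linarith

/-- the walk that starts at another point -/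
lemma vx_start (w : Pt) (t : List Bool) (j : ℕ) : vx w up t j = w + vx oo up t j := by
  have h2 := vx_mulE (1, 0) oo w up t j
  rw [mulE_one, mulE_one] at h2
  rw [h2]
  congr 1
  exact sub_zero _

lemma ip_vx_start {w : Pt} (hw : ip w up = 0) (t : List Bool) (j : ℕ) : ip (vx w up t j) up = lev t j := by
  rw [vx_start, ip_add_left, hw, zero_add]
  rfl

/-- parts beyond the top of the other walk do not matter -/
theorem Dj_beyond {a b n : ℕ} {s t u : List Bool} (hs : s ∈ Brd a) (ht : t ∈ Brd b) (hu : u ∈ Brd n) (hab : a ≤ b)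
    (h : Dj s t) : Dj s (t ++ u) := by
  unfold Dj at h ⊢
  rw [Set.disjoint_left] at h ⊢
  rintro p ⟨i, hi, hil, h1⟩ ⟨j, hj, hjl, h2⟩
  by_cases hjt : j ≤ t.length
  · refine h ⟨i, hi, hil, h1⟩ ⟨j, hj, hjt, ?_⟩
    rw [← h2]
    exact (vx_append (by omega)).symm
  · rw [List.length_append] at hjl
    have h0 : ip (foot oo up 0) up = 0 := by decide
    have h1' : ip (foot oo up 1) up = 0 := by decide
    have l1 : ip p up = lev s i := by rw [← h1, ip_vx_start h0]
    have l2 : ip p up = lev (t ++ u) j := by rw [← h2, ip_vx_start h1']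
    rw [mem_Brd] at hs ht hu
    have e : j = t.length + (j - t.length) := by omega
    rw [e, lev_cat ht.2.2.1, ht.2.2.2] at l2
    have b1 := (hs.1 i hi hil).2
    have b2 := (hu.1 (j - t.length) (by omega) (by omega)).1
    omega

end HexObs
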