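import Pool.Agent.PHW.Kill
import Pool.Agent.PHW.DefsQ

/-!
PHW part Q: planarity at a cut of the taller walk. A bridge t on the right of s, of height at most the height of s,
visits the row above a cut of s only on the right of the cut point; consequently the part of s below a cut
which is at most as high as t and t form a viable pair.
-/

set_option autoImplicit false

namespace HexObs

open Complex Finset ENNReal

namespace Planar

/-- the parity does not change along an edge disjoint from the path; the ends of the path are far away -/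
private lemma via_KK_adj {a : ℕ → ℤ × ℤ} {n : ℕ} (ha : ∀ i, i ≤ n → Adj (a i) (a (i + 1)))
    {r r' : ℤ × ℤ} (h : EE r r') (h2 : ∀ c, phi c r (a 0) = 0) (h3 : ∀ c, phi c r (a (n + 1)) = 0)
    (hr : ∀ i, i ≤ n + 1 → a i ≠ r) (hr' : ∀ i, i ≤ n + 1 → a i ≠ r') : KK a n r = KK a n r' := by
  obtain ⟨e1, e2, e3⟩ := h
  have hsum : ∀ x y : ZMod 2, x + y = 0 → x = y := by decide
  rcases e3 with ⟨b1, b2⟩ | ⟨b1, b2⟩ | ⟨b1, b2⟩
  · unfold KK
    apply sum_congr rfl
    intro i hi
    rw [mem_range] at hi
    exact kap_vert (ha i (by omega)) e1 b1 b2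
  · apply hsum
    unfold KK
    rw [← sum_add_distrib]
    have h1 : ∀ i ∈ range (n + 1), kap (a i) (a (i + 1)) r + kap (a i) (a (i + 1)) r' =
        phi 1 r (a i) + phi 1 r (a (i + 1)) := by
      intro i hi
      rw [mem_range] at hi
      exact kap_right (ha i (by omega)) e1 e2 b1 b2 (hr' i (by omega)) (hr' (i + 1) (by omega))
    rw [sum_congr rfl h1, sum_tele (fun i => phi 1 r (a i)) n, h2, h3, add_zero]
  · apply hsum
    unfold KK
    rw [← sum_add_distrib]
    have h1 : ∀ i ∈ range (n + 1), kap (a i) (a (i + 1)) r + kap (a i) (a (i + 1)) r' =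
        phi 0 r (a i) + phi 0 r (a (i + 1)) := by
      intro i hi
      rw [mem_range] at hi
      exact kap_left (ha i (by omega)) e1 e2 b1 b2 (hr i (by omega)) (hr (i + 1) (by omega))
    rw [sum_congr rfl h1, sum_tele (fun i => phi 0 r (a i)) n, h2, h3, add_zero]

/-- `a` crosses the strip 0 < level ≤ H, `g` starts on the right of `a` and stays in the strip off `a`:
every vertex of `g` on a level 2 mod 3 has on its left a vertical edge of `a` with an end on the same level. -/
theorem ray_vert {a g : ℕ → ℤ × ℤ} {n m : ℕ} {H : ℤ} (hH : 0 < H) (hH3 : H % 3 = 0)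
    (ha : ∀ i, i < n → Adj (a i) (a (i + 1))) (ha0 : (a 0).2 = 0) (han : (a n).2 = H)
    (hin : ∀ i, 1 ≤ i → i ≤ n → 0 < (a i).2 ∧ (a i).2 ≤ H)
    (hg : ∀ j, j < m → Adj (g j) (g (j + 1))) (hg0 : (g 0).2 = 0) (hm : 1 ≤ m)
    (hgin : ∀ j, 1 ≤ j → j ≤ m → 0 < (g j).2 ∧ (g j).2 ≤ H)
    (hdis : ∀ i, i ≤ n → ∀ j, j ≤ m → a i ≠ g j) (h0 : (a 0).1 < (g 0).1) (hmod : (g m).2 % 3 = 2) :
    ∃ i, i < n ∧ (a i).1 = (a (i + 1)).1 ∧ ((a i).2 = (g m).2 ∨ (a (i + 1)).2 = (g m).2) ∧ (a i).1 ≤ (g m).1 := by
  have hn : 1 ≤ n := by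
    by_contra hcon
    have h0 : n = 0 := by omega
    subst h0
    omega
  -- the path with one more step upwards
  set b : ℕ → ℤ × ℤ := fun i => if i ≤ n then a i else ((a n).1, H + 2) with hb
  have b1 : ∀ i, i ≤ n → b i = a i := by
    intro i hi
    simp only [hb]
    rw [if_pos hi]
  have b2 : b (n + 1) = ((a n).1, H + 2) := by
    simp only [hb]
    rw [if_neg (by omega)]
  have hb0 : (b 0).2 = 0 := by rw [b1 0 (by omega), ha0]
  have hpar : ((a n).1 + (a n).2) % 2 = 0 := by
    obtain ⟨k, rfl⟩ : ∃ k, n = k + 1 := ⟨n - 1, by omega⟩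
    have h1 := ha k (by omega)
    unfold Adj EE at h1
    omega
  have hadj : ∀ i, i ≤ n → Adj (b i) (b (i + 1)) := by
    intro i hi
    rcases Nat.lt_or_ge i n with h | h
    · rw [b1 i hi, b1 (i + 1) h]
      exact ha i h
    · have h' : i = n := by omega
      subst h'
      rw [b1 i le_rfl, b2]
      left
      refine ⟨by rw [han, hH3], hpar, Or.inl ⟨rfl, ?_⟩⟩
      rw [han]
  have hbdis : ∀ i, i ≤ n + 1 → ∀ j, j ≤ m → b i ≠ g j := by
    intro i hi j hj heq
    rcases Nat.lt_or_ge n i with h | h
    · have h' : i = n + 1 := by omega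
      rw [h', b2] at heq
      have h1 := congrArg Prod.snd heq
      simp only at h1
      rcases Nat.eq_zero_or_pos j with h2 | h2
      · rw [h2, hg0] at h1
        omega
      · have := (hgin j h2 hj).2
        omega
    · rw [b1 i h] at heq
      exact hdis i h j hj heq
  have hphi0 : ∀ (c : ℤ) (r : ℤ × ℤ), r.2 % 3 = 0 → 0 < r.2 → phi c r (b 0) = 0 := by
    intro c r h1 h2
    unfold phi
    rw [if_neg]
    omega
  have hphi1 : ∀ (c : ℤ) (r : ℤ × ℤ), r.2 ≤ H → phi c r (b (n + 1)) = 0 := by
    intro c r h1
    unfold phi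
    rw [if_neg]
    rw [b2]
    simp only
    omega
  -- the parity along g
  have key : ∀ j, j ≤ m → KK b n (g j) = KK b n (g 0) := by
    intro j
    induction j with
    | zero => intro _; rfl
    | succ j ih =>
      intro hj
      rw [← ih (by omega)]
      obtain ⟨hp, hq⟩ := hgin (j + 1) (by omega) hj
      have hjH : (g j).2 ≤ H := by
        rcases Nat.eq_zero_or_pos j with h0 | h0
        · rw [h0, hg0]
          exact hH.le
        · exact (hgin j h0 (by omega)).2
      rcases hg j (by omega) with h | h
      · rcases Nat.eq_zero_or_pos j with h0 | h0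
        · -- first step: vertical
          subst h0
          obtain ⟨e1, e2, e3⟩ := h
          have e4 : (g (0 + 1)).1 = (g 0).1 ∧ (g (0 + 1)).2 = (g 0).2 + 2 := by
            rcases e3 with e3 | e3 | e3
            · exact e3
            · omega
            · omega
          unfold KK
          apply sum_congr rfl
          intro i hi
          rw [mem_range] at hi
          exact (kap_vert (hadj i (by omega)) e1 e4.1 e4.2).symm
        · have hpos := (hgin j h0 (by omega)).1
          exact (via_KK_adj hadj h (fun c => hphi0 c _ h.1 hpos) (fun c => hphi1 c _ hjH)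
            (fun i hi => hbdis i hi j (by omega)) (fun i hi => hbdis i hi (j + 1) hj)).symm
      · exact via_KK_adj hadj h (fun c => hphi0 c _ h.1 hp) (fun c => hphi1 c _ hq)
            (fun i hi => hbdis i hi (j + 1) hj) (fun i hi => hbdis i hi j (by omega))
  have h1 := key m le_rfl
  -- bottom
  have hbin : ∀ i, 1 ≤ i → i ≤ n → 0 < (b i).2 ∧ (b i).2 ≤ H := by
    intro i h1 h2
    rw [b1 i h2]
    exact hin i h1 h2
  have bot : KK b n (g 0) = if (a 0).1 ≤ (g 0).1 then 1 else 0 := by
    unfold KK
    rw [sum_range_succ']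
    have h2 : ∑ k ∈ range n, kap (b (k + 1)) (b (k + 1 + 1)) (g 0) = 0 := by
      apply sum_eq_zero
      intro i hi
      rw [mem_range] at hi
      unfold kap
      rw [if_neg]
      have h3 := hbin (i + 1) (by omega) (by omega)
      have h4 : 0 < (b (i + 1 + 1)).2 := by
        rcases Nat.lt_or_ge n (i + 1 + 1) with h | h
        · have h' : i + 1 + 1 = n + 1 := by omega
          rw [h', b2]
          show 0 < H + 2
          omega
        · exact (hbin (i + 1 + 1) (by omega) h).1
      omega
    rw [h2, zero_add]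
    unfold kap
    have h3 := hadj 0 (by omega)
    have h4 : 0 < (b (0 + 1)).2 := (hbin 1 le_rfl hn).1
    unfold Adj EE at h3
    have e0 : (b 0).1 = (a 0).1 := by rw [b1 0 (by omega)]
    have h5 : ((b 0).1 = (b (0 + 1)).1 ∧ ((b 0).2 = (g 0).2 ∨ (b (0 + 1)).2 = (g 0).2) ∧
        (b 0).1 ≤ (g 0).1) ↔ (a 0).1 ≤ (g 0).1 := by
      omega
    simp only [h5]
  rw [bot, if_pos h0.le] at h1
  -- a vertical edge on the left
  by_contra hcon
  have h2 : KK b n (g m) = 0 := by
    unfold KK
    apply sum_eq_zero
    intro i hi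
    rw [mem_range] at hi
    unfold kap
    rw [if_neg]
    rintro ⟨e1, e2, e3⟩
    rcases Nat.lt_or_ge i n with h | h
    · apply hcon
      refine ⟨i, h, ?_, ?_, ?_⟩
      · rw [← b1 i (by omega), ← b1 (i + 1) (by omega)]
        exact e1
      · rw [← b1 i (by omega), ← b1 (i + 1) (by omega)]
        exact e2
      · rw [← b1 i (by omega)]
        exact e3
    · have h' : i = n := by omega
      have hgm := hgin m hm le_rfl
      rw [h', b2, b1 n le_rfl, han] at e2
      simp only at e2
      omega
  rw [h2] at h1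
  have h4 : (0 : ZMod 2) ≠ 1 := by decide
  exact h4 h1

end Planar

private lemma viat_vx (v : Pt) (t : List Bool) (i : ℕ) : vx v up t i = v + vx oo up t i := by
  have h1 := vx_mulE (1, 0) oo v up t i
  rw [mulE_one, mulE_one] at h1
  rw [h1]
  congr 1
  exact sub_zero _

private lemma viat_xy (k : ℤ) (t : List Bool) (i : ℕ) :
    xy oo up (vx (foot oo up k) up t i) = (lat t i + 2 * k, lev t i) := by
  rw [viat_vx]
  have h1 : cross up (foot oo up k) = -(2 * k) := by
    have h2 := cross_foot upd oo k 0
    have h3 : foot oo up 0 = oo := by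
      unfold foot
      rw [zero_smul, add_zero]
    rw [h3] at h2
    have h4 : foot oo up k - oo = foot oo up k := sub_zero _
    rw [h4] at h2
    omega
  have h5 : ip (foot oo up k) up = 0 := by
    have := ft_ip oo up k
    have h4 : foot oo up k - oo = foot oo up k := sub_zero _
    rwa [h4] at this
  unfold xy lat lev
  have h6 : foot oo up k + vx oo up t i - oo = foot oo up k + vx oo up t i := sub_zero _
  rw [h6]
  refine Prod.ext ?_ ?_
  · have h7 : cross up (foot oo up k + vx oo up t i) = cross up (foot oo up k) + cross up (vx oo up t i) := by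
      simp only [cross, Prod.fst_add, Prod.snd_add]
      ring
    show -(cross up (foot oo up k + vx oo up t i)) = -(cross up (vx oo up t i)) + 2 * k
    rw [h7, h1]
    ring
  · show ip (foot oo up k + vx oo up t i) up = ip (vx oo up t i) up
    rw [ip_add_left, h5, zero_add]

/-- A bridge s of height a (foot 0) and a walk t (foot k on the right of it) that stays in the strip of s up to the
vertex number m, on a level 2 mod 3, and off s: s has a vertical edge on the left with an end on this level. -/
theorem ray_cross {a n m : ℕ} {k : ℤ} {s t : List Bool} (ha : 1 ≤ a)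
    (hs : ∀ i, 1 ≤ i → i ≤ n → 0 < lev s i ∧ lev s i ≤ 3 * a) (hsn : lev s n = 3 * a)
    (hm1 : 1 ≤ m) (ht : ∀ i, 1 ≤ i → i ≤ m → 0 < lev t i ∧ lev t i ≤ 3 * a) (hk : 0 < k)
    (hd : ∀ i, 1 ≤ i → i ≤ n → ∀ j, 1 ≤ j → j ≤ m →
      vx (foot oo up 0) up s i ≠ vx (foot oo up k) up t j) (hmod : lev t m % 3 = 2) :
    ∃ i, i < n ∧ lat s i = lat s (i + 1) ∧ (lev s i = lev t m ∨ lev s (i + 1) = lev t m) ∧
      lat s i ≤ lat t m + 2 * k := by
  have h0 : lat s 0 = 0 := lat_zero' s
  have h0' : lat t 0 = 0 := lat_zero' t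
  have key := Planar.ray_vert (a := fun i => xy oo up (vx (foot oo up 0) up s i))
    (g := fun j => xy oo up (vx (foot oo up k) up t j)) (n := n) (m := m) (H := 3 * (a : ℤ))
    (by omega) (by omega) (fun i _ => xy_adj upd (ft_cl oo up 0) s i) ?_ ?_ ?_
    (fun j _ => xy_adj upd (ft_cl oo up k) t j) ?_ hm1 ?_ ?_ ?_ ?_
  · obtain ⟨i, i1, i2, i3, i4⟩ := key
    simp only [viat_xy] at i2 i3 i4
    exact ⟨i, i1, by omega, i3, by omega⟩
  · simp only [viat_xy]
    exact lev_zero s
  · simp only [viat_xy]
    exact hsn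
  · intro i h1 h2
    simp only [viat_xy]
    exact hs i h1 h2
  · simp only [viat_xy]
    exact lev_zero t
  · intro i h1 h2
    simp only [viat_xy]
    exact ht i h1 h2
  · intro i hi j hj heq
    rcases Nat.eq_zero_or_pos i with i0 | i0
    · rcases Nat.eq_zero_or_pos j with j0 | j0
      · subst i0
        subst j0
        have h1 := congrArg Prod.fst heq
        simp only [viat_xy] at h1
        rw [h0, h0'] at h1
        omega
      · have h1 := congrArg Prod.snd heq
        simp only [viat_xy] at h1
        rw [i0, lev_zero] at h1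
        have := (ht j j0 hj).1
        omega
    · rcases Nat.eq_zero_or_pos j with j0 | j0
      · have h1 := congrArg Prod.snd heq
        simp only [viat_xy] at h1
        rw [j0, lev_zero] at h1
        have := (hs i i0 hi).1
        omega
      · exact hd i i0 hi j j0 hj (xy_inj upd heq)
  · simp only [viat_xy, h0, h0']
    omega
  · simp only [viat_xy]
    exact hmod

/-- the part below the cut c of s1 ++ s2 and a vertex of the walk t directly above the cut level -/
theorem cross_right {c n m : ℕ} {k : ℤ} {s1 s2 t : List Bool} (h1 : s1 ∈ Brd c) (h2 : s2 ∈ Brd n) (hn : 1 ≤ n)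
    (hm1 : 1 ≤ m) (ht : ∀ i, 1 ≤ i → i ≤ m → 0 < lev t i ∧ lev t i ≤ 3 * ((c : ℤ) + n)) (hk : 0 < k)
    (hd : ∀ i, 1 ≤ i → i ≤ (s1 ++ s2).length → ∀ j, 1 ≤ j → j ≤ m →
      vx (foot oo up 0) up (s1 ++ s2) i ≠ vx (foot oo up k) up t j)
    (hl : lev t m = 3 * c + 2) : latE s1 < lat t m + 2 * k := by
  have hs := mem_Brd.1 (Brd_append h1 h2)
  have h1' := mem_Brd.1 h1
  have h2' := mem_Brd.1 h2
  have hcast : ((c + n : ℕ) : ℤ) = (c : ℤ) + n := by push_cast; ring
  obtain ⟨p1, p2, p3, p4⟩ := h1'
  obtain ⟨q1, q2, q3, q4⟩ := h2'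
  have hlen2 : 1 ≤ s2.length := by
    by_contra hcon
    have h0 : s2.length = 0 := by omega
    rw [h0, lev_zero] at q4
    omega
  have hlen : (s1 ++ s2).length = s1.length + s2.length := by simp
  -- the levels of the two parts
  have L1 : ∀ i, i ≤ s1.length → lev (s1 ++ s2) i ≤ 3 * c := by
    intro i hi
    rw [lev_append (by omega)]
    rcases Nat.eq_zero_or_pos i with h | h
    · rw [h, lev_zero]
      omega
    · exact (p1 i h hi).2
  have L2 : ∀ i, s1.length < i → i ≤ s1.length + s2.length → 3 * (c : ℤ) < lev (s1 ++ s2) i := by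
    intro i hi hi2
    obtain ⟨j, rfl⟩ : ∃ j, i = s1.length + j := ⟨i - s1.length, by omega⟩
    rw [lev_cat p3, p4]
    have := (q1 j (by omega) (by omega)).1
    omega
  obtain ⟨i, i1, i2, i3, i4⟩ := ray_cross (a := c + n) (by omega) hs.1 hs.2.2.2 hm1
    (fun i i1 i2 => by rw [hcast]; exact ht i i1 i2) hk hd (by omega)
  rw [hlen] at i1
  -- the vertical edge is the crossing of the cut level
  have hadj := xy_adj upd (ft_cl oo up 0) (s1 ++ s2) i
  simp only [viat_xy] at hadj
  unfold Planar.Adj Planar.EE at hadj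
  simp only at hadj
  have hi : i = s1.length := by
    rcases Nat.lt_trichotomy i s1.length with h | h | h
    · have a1 := L1 i h.le
      have a2 := L1 (i + 1) h
      omega
    · exact h
    · have a1 := L2 i h (by omega)
      have a2 := L2 (i + 1) (by omega) (by omega)
      omega
  subst hi
  have e1 : lat (s1 ++ s2) s1.length = latE s1 := lat_append (by omega)
  rw [e1] at i4 i2
  rcases lt_or_eq_of_le i4 with h | h
  · exact h
  · exfalso
    apply hd (s1.length + 1) (by omega) (by omega) m hm1 le_rfl
    apply xy_inj upd (v0 := oo)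
    rw [viat_xy, viat_xy]
    have a1 := L1 s1.length le_rfl
    have a2 := L2 (s1.length + 1) (by omega) (by omega)
    refine Prod.ext ?_ ?_
    · show lat (s1 ++ s2) (s1.length + 1) + 2 * 0 = lat t m + 2 * k
      omega
    · show lev (s1 ++ s2) (s1.length + 1) = lev t m
      omega

/-- s = s1 ++ s2 is at least as high as t, c is a cut of s: the vertices of t in the row above the height c lie on
the right of the cut point -/
theorem row_right {c n b : ℕ} {s1 s2 t : List Bool} (hs1 : s1 ∈ Brd c) (hs2 : s2 ∈ Brd n) (ht : t ∈ Brd b)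
    (hcb : c < b) (hb : b ≤ c + n) (hd : Dj (s1 ++ s2) t) : Gap s1 t c 1 := by
  obtain ⟨t1, t2, t3, t4⟩ := mem_Brd.1 ht
  have hlow : ∀ m, 1 ≤ m → m ≤ t.length → lev t m = 3 * c + 2 → latE s1 < lat t m + 2 := by
    intro m m1 m2 hl
    have := cross_right (k := 1) hs1 hs2 (by omega) m1 (fun i i1 i2 => ⟨(t1 i i1 (by omega)).1, by
      have := (t1 i i1 (by omega)).2
      omega⟩) one_pos (fun i i1 i2 j j1 j2 heq => Set.disjoint_left.1 hd ⟨i, i1, i2, rfl⟩ ⟨j, j1, by omega, heq.symm⟩)
      hl
    omega
  -- parity of the coordinates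
  have par : ∀ (w : List Bool) (j : ℕ), (lat w j + lev w j) % 2 = 0 := by
    intro w j
    unfold lat lev
    simp only [cross, ip, up]
    omega
  have p1 : (latE s1 + 3 * (c : ℤ)) % 2 = 0 := by
    have h1 := par s1 s1.length
    have h2 := (mem_Brd.1 hs1).2.2.2
    rw [h2] at h1
    exact h1
  intro i hi
  obtain ⟨hil, hl⟩ := hi
  have hi1 : 1 ≤ i := by
    rcases Nat.eq_zero_or_pos i with h | h
    · rw [h, lev_zero] at hl
      omega
    · exact h
  rcases hl with hl | hl
  · have := hlow i hi1 hil hl
    omega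
  · -- a neighbour one level below
    have hadj : ∀ j, Planar.Adj (lat t j, lev t j) (lat t (j + 1), lev t (j + 1)) := by
      intro j
      have h1 := xy_adj upd (ft_cl oo up 0) t j
      simp only [viat_xy, mul_zero, add_zero] at h1
      exact h1
    obtain ⟨j, j1, j2, j3, j4⟩ : ∃ j, 1 ≤ j ∧ j ≤ t.length ∧ lev t j = 3 * c + 2 ∧
        (lat t j ≤ lat t i + 1) := by
      obtain ⟨i', rfl⟩ : ∃ i', i = i' + 1 := ⟨i - 1, by omega⟩
      have a1 := hadj i'
      unfold Planar.Adj Planar.EE at a1
      simp only at a1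
      by_cases hprev : lev t i' = 3 * c + 2
      · refine ⟨i', ?_, by omega, hprev, by omega⟩
        rcases Nat.eq_zero_or_pos i' with h | h
        · rw [h, lev_zero] at hprev
          omega
        · exact h
      · -- the walk comes from above
        have hup : lev t i' = 3 * c + 5 := by omega
        have hlt : i' + 1 < t.length := by
          rcases Nat.lt_or_ge (i' + 1) t.length with h | h
          · exact h
          · exfalso
            have h' : i' + 1 = t.length := by omega
            have := (t1 i' (by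
              rcases Nat.eq_zero_or_pos i' with h | h
              · rw [h, lev_zero] at hup
                omega
              · exact h) (by omega)).2
            rw [h', t4] at hl
            omega
        have a2 := hadj (i' + 1)
        unfold Planar.Adj Planar.EE at a2
        simp only at a2
        refine ⟨i' + 1 + 1, by omega, by omega, ?_, ?_⟩
        · by_contra hne
          -- then the next vertex is the previous one
          have h1 : lev t (i' + 1 + 1) = 3 * c + 5 ∧ lat t (i' + 1 + 1) = lat t i' := by omega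
          have h2 : vx oo up t (i' + 1 + 1) = vx oo up t i' := by
            have h3 : foot oo up 0 = oo := by
              unfold foot
              rw [zero_smul, add_zero]
            apply xy_inj upd (v0 := oo)
            have e1 := viat_xy 0 t (i' + 1 + 1)
            have e2 := viat_xy 0 t i'
            rw [h3] at e1 e2
            rw [e1, e2, h1.1, h1.2, hup]
          exact t2 i' (i' + 1 + 1) (by omega) (by omega) h2.symm
        · omega
    have := hlow j j1 j2 j3
    have q1 := par t j
    have q2 := par t i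
    omega

theorem via_taller {c n b : ℕ} {s1 s2 t : List Bool} (hs1 : s1 ∈ Brd c) (hs2 : s2 ∈ Brd n) (ht : t ∈ Brd b)
    (hcb : c ≤ b) (hb : b ≤ c + n) (hd : Dj (s1 ++ s2) t) : Via s1 t := by
  intro c' b' r1 r2 hr1 hr2 hr
  have hc : c' + b' = c := by
    have h1 := (mem_Brd.1 (Brd_append hr1 hr2)).2.2.2
    have h2 := (mem_Brd.1 hs1).2.2.2
    rw [← hr, h2] at h1
    push_cast at h1
    omega
  rcases Nat.lt_or_ge c' b with h | h
  · rw [hr, List.append_assoc] at hd
    exact row_right hr1 (Brd_append hr2 hs2) ht h (by omega) hd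
  · intro i hi
    exfalso
    obtain ⟨h1, h2⟩ := hi
    obtain ⟨t1, t2, t3, t4⟩ := mem_Brd.1 ht
    rcases Nat.eq_zero_or_pos i with h0 | h0
    · rw [h0, lev_zero] at h2
      omega
    · have := (t1 i h0 h1).2
      omega

end HexObs
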