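import Pool.Agent.PHW.ViaE
import Pool.Agent.PHW.ViaT
import Pool.Agent.PHW.PairsA
import Pool.Agent.PHW.Jump

/-!
PHW QJ: a disjoint pair of bridges is cut at the piece of the taller bridge which jumps over a level below the height
of the shorter bridge.
-/

set_option autoImplicit false

namespace HexObs

open Complex Finset ENNReal

namespace GgJumpAux

/-- the rests of the bridges of height n after a cut, when the next piece jumps over a level R above the cut -/
def JR (R n : ℕ) : Set (List Bool) := {w | ∃ r p u, R < r ∧ r ≤ n ∧ p ∈ Irr r ∧ u ∈ Brd (n - r) ∧ w = p ++ u}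

lemma gf_biUnion_le (s : Finset ℕ) (P : ℕ → Set (List Bool)) : gf (⋃ i ∈ s, P i) ≤ ∑ i ∈ s, gf (P i) :=
  ENNReal.tsum_biUnion_le wE s P

lemma gf_JR (R n : ℕ) : gf (JR R n) ≤ ENNReal.ofReal (KK' (R + 1) * uu n) := by
  refine le_trans ?_ (sum_kap_u R n)
  have hcover : JR R n ⊆ ⋃ r ∈ Finset.Ico (R + 1) (n + 1), {w | ∃ p ∈ Irr r, ∃ u ∈ Brd (n - r), w = p ++ u} := by
    rintro w ⟨r, p, u, h1, h2, hp, hu, hw⟩
    rw [Set.mem_iUnion₂]
    exact ⟨r, Finset.mem_Ico.2 ⟨by omega, by omega⟩, p, hp, u, hu, hw⟩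
  refine (gf_mono hcover).trans ((gf_biUnion_le _ _).trans (Finset.sum_le_sum fun r _ => ?_))
  have h : gf {w | ∃ p ∈ Irr r, ∃ u ∈ Brd (n - r), w = p ++ u} ≤ gf (Irr r) * gf (Brd (n - r)) :=
    gf_le_mul (fun t ht => ht)
  rw [gf_Brd] at h
  exact h

lemma gf_pair {a b l : ℕ} (hl : l < b) (hab : b ≤ a) {t : List Bool} (ht : t ∈ Brd b) :
    gf {s | s ∈ Brd a ∧ Dj s t} ≤ ∑ i ∈ Finset.range (l + 1),
      gf {s | s ∈ Brd i ∧ (Dj s t ∧ Via s t)} * ENNReal.ofReal (KK' (l + 1 - i) * uu (a - i)) := by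
  have hcover : {s | s ∈ Brd a ∧ Dj s t} ⊆ ⋃ i ∈ Finset.range (l + 1),
      {s | ∃ s1 ∈ {s | s ∈ Brd i ∧ (Dj s t ∧ Via s t)}, ∃ w ∈ JR (l - i) (a - i), s = s1 ++ w} := by
    rintro s ⟨hs, hd⟩
    obtain ⟨j, r, s1, p, u, h1, h2, h3, hs1, hp, hu, he⟩ := jump_dec (lt_of_lt_of_le hl hab) hs
    rw [List.append_assoc] at he
    rw [Set.mem_iUnion₂]
    refine ⟨j, Finset.mem_range.2 (by omega), s1, ⟨hs1, ?_, ?_⟩, p ++ u, ?_, he⟩
    · rw [he] at hd
      have h4 : Dj (s1 ++ (p ++ u)) (t ++ []) := by rwa [List.append_nil]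
      exact Dj_prefix h4
    · rw [he] at hd
      have hpu : p ++ u ∈ Brd (a - j) := by
        have h5 := Brd_append hp.1 hu
        have h6 : r + (a - j - r) = a - j := by omega
        rwa [h6] at h5
      exact via_taller hs1 hpu ht (by omega) (by omega) hd
    · refine ⟨r, p, u, by omega, by omega, hp, hu, rfl⟩
  refine (gf_mono hcover).trans ((gf_biUnion_le _ _).trans (Finset.sum_le_sum fun i hi => ?_))
  have hi' := Finset.mem_range.1 hi
  refine (gf_le_mul (fun t ht => ht)).trans ?_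
  have h7 := gf_JR (l - i) (a - i)
  have h8 : l - i + 1 = l + 1 - i := by omega
  rw [h8] at h7
  exact mul_le_mul' le_rfl h7

end GgJumpAux

open GgJumpAux in
/-- jump of the taller walk over the height l, which is below the height of the shorter one -/
theorem gg_jump {a b l : ℕ} (hl : l < b) (hab : b ≤ a) :
    gg b a ≤ ∑ i ∈ Finset.range (l + 1), VV i b * ENNReal.ofReal (KK' (l + 1 - i) * uu (a - i)) := by
  rw [gg_symm b a, gg_eq_g2, g2_right]
  have h1 : ∀ t : {t : List Bool // t ∈ Brd b}, wE t.1 * gf {s | s ∈ Brd a ∧ Dj s t.1} ≤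
      ∑ i ∈ Finset.range (l + 1), wE t.1 * gf {s | s ∈ Brd i ∧ (Dj s t.1 ∧ Via s t.1)} *
        ENNReal.ofReal (KK' (l + 1 - i) * uu (a - i)) := by
    intro t
    refine (mul_le_mul' le_rfl (gf_pair hl hab t.2)).trans (le_of_eq ?_)
    rw [Finset.mul_sum]
    exact Finset.sum_congr rfl fun i _ => (mul_assoc _ _ _).symm
  refine (ENNReal.tsum_le_tsum h1).trans (le_of_eq ?_)
  rw [Summable.tsum_finsetSum (fun i _ => ENNReal.summable)]
  refine Finset.sum_congr rfl fun i _ => ?_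
  rw [ENNReal.tsum_mul_right, VV, g2_right]

end HexObs
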