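import Pool.Agent.PHW.DefsQ
import Pool.Agent.PHW.Num3
import Pool.Agent.PHW.AvgV0
import Pool.Agent.PHW.CuLog1
import Pool.Agent.PHW.GgJump
import Pool.Agent.PHW.Num2

/-!
PHW, part Q: the closing estimate for unequal heights with a power of the logarithm.
-/

set_option autoImplicit false

namespace HexObs

open Complex Finset ENNReal

namespace CuLogAux

lemma kk_nonneg (r : ℕ) : 0 ≤ kk r := ENNReal.toReal_nonneg

lemma uu_nonneg (T : ℕ) : 0 ≤ uu T := ENNReal.toReal_nonneg

lemma bt_ne_top (T : ℕ) : BT T ≠ ∞ := by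
  rcases Nat.eq_zero_or_pos T with rfl | h
  · rw [← gf_Brd, Brd_zero]
    unfold gf
    rw [tsum_singleton (f := wE)]
    unfold wE
    simp
  · exact ne_top_of_le_ne_top ENNReal.one_ne_top (BT_le_one h)

lemma bt_eq (T : ℕ) : BT T = ENNReal.ofReal (uu T) := (ENNReal.ofReal_toReal (bt_ne_top T)).symm

/-- the trivial bound. -/
lemma gg_le_mul (a b : ℕ) : gg a b ≤ BT a * BT b := by
  rw [gg_eq_g2, g2_left, ← gf_Brd a, ← gf_Brd b]
  calc ∑' s : {s : List Bool // s ∈ Brd a}, wE s.1 * gf {t | t ∈ Brd b ∧ Dj s.1 t}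
      ≤ ∑' s : {s : List Bool // s ∈ Brd a}, wE s.1 * gf (Brd b) :=
        ENNReal.tsum_le_tsum (fun s => mul_le_mul_right (gf_mono (fun t ht => ht.1)) _)
    _ = gf (Brd a) * gf (Brd b) := by
        rw [ENNReal.tsum_mul_right]
        rfl

/-- exchange of the sums. -/
lemma swap (L : ℕ) (v : ℕ → ℝ≥0∞) (K : ℕ → ℝ) (hK : ∀ n, 0 ≤ K n) (D : ℝ) :
    ∑ l ∈ Finset.range L, ∑ i ∈ Finset.range (l + 1), v i * ENNReal.ofReal (K (l + 1 - i) * D) ≤
      (∑ i ∈ Finset.range L, v i) * ENNReal.ofReal ((∑ n ∈ Finset.range L, K (n + 1)) * D) := by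
  rcases le_or_gt 0 D with hD | hD
  · have h1 : ∀ l ∈ Finset.range L, ∑ i ∈ Finset.range (l + 1), v i * ENNReal.ofReal (K (l + 1 - i) * D) =
        ∑ i ∈ Finset.range L, if i ≤ l then v i * ENNReal.ofReal (K (l + 1 - i) * D) else 0 := by
      intro l hl
      rw [← Finset.sum_filter]
      apply Finset.sum_congr
      · ext i
        simp only [Finset.mem_range, Finset.mem_filter] at hl ⊢
        omega
      · intro i _
        rfl
    rw [Finset.sum_congr rfl h1, Finset.sum_comm, Finset.sum_mul]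
    refine Finset.sum_le_sum (fun i hi => ?_)
    have h2 : ∑ l ∈ Finset.range L, (if i ≤ l then v i * ENNReal.ofReal (K (l + 1 - i) * D) else 0) =
        v i * ∑ l ∈ (Finset.range L).filter (fun l => i ≤ l), ENNReal.ofReal (K (l + 1 - i) * D) := by
      rw [← Finset.sum_filter, Finset.mul_sum]
    rw [h2]
    refine mul_le_mul_right ?_ _
    rw [← ENNReal.ofReal_sum_of_nonneg (fun l _ => mul_nonneg (hK _) hD), ← Finset.sum_mul]
    refine ENNReal.ofReal_le_ofReal (mul_le_mul_of_nonneg_right ?_ hD)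
    have h3 : ∑ l ∈ (Finset.range L).filter (fun l => i ≤ l), K (l + 1 - i) =
        ∑ n ∈ Finset.range (L - i), K (n + 1) := by
      refine Finset.sum_nbij' (fun l => l - i) (fun n => n + i) ?_ ?_ ?_ ?_ ?_
      · intro l hl
        simp only [Finset.mem_range, Finset.mem_filter] at hl ⊢
        omega
      · intro l hl
        simp only [Finset.mem_range, Finset.mem_filter] at hl ⊢
        omega
      · intro l hl
        simp only [Finset.mem_range, Finset.mem_filter] at hl ⊢
        omega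
      · intro l hl
        simp only [Finset.mem_range] at hl ⊢
        omega
      · intro l hl
        simp only [Finset.mem_range, Finset.mem_filter] at hl
        congr 1
        omega
    rw [h3]
    exact Finset.sum_le_sum_of_subset_of_nonneg (Finset.range_subset_range.2 (Nat.sub_le L i))
      (fun n _ _ => hK _)
  · have h1 : ∀ l ∈ Finset.range L, ∑ i ∈ Finset.range (l + 1), v i * ENNReal.ofReal (K (l + 1 - i) * D) = 0 := by
      intro l _
      refine Finset.sum_eq_zero (fun i _ => ?_)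
      rw [ENNReal.ofReal_of_nonpos (mul_nonpos_of_nonneg_of_nonpos (hK _) hD.le), mul_zero]
    rw [Finset.sum_congr rfl h1, Finset.sum_const_zero]
    exact bot_le

lemma UU_le_succ (b : ℕ) : UU b ≤ b + 1 := by
  unfold UU
  calc ∑ t ∈ Finset.range (b + 1), uu t ≤ ∑ t ∈ Finset.range (b + 1), (1 : ℝ) :=
        Finset.sum_le_sum (fun t _ => by
          have h1 := Num2Aux.anti (Nat.zero_le t)
          rw [Num2Aux.zero] at h1
          exact h1)
    _ = b + 1 := by simp

/-- division by a positive integer. -/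
lemma div_nat {L : ℕ} (hL : 1 ≤ L) {x : ℝ≥0∞} {R : ℝ} (h : (L : ℝ≥0∞) * x ≤ ENNReal.ofReal (L * R)) :
    x ≤ ENNReal.ofReal R := by
  rw [ENNReal.ofReal_mul (by positivity), ENNReal.ofReal_natCast] at h
  have h0 : (L : ℝ≥0∞) ≠ 0 := by
    rw [Nat.cast_ne_zero]
    omega
  exact (ENNReal.mul_le_mul_iff_right h0 (ENNReal.natCast_ne_top L)).1 h

end CuLogAux

open CuLogAux in
theorem cu_log : ∃ C : ℝ, 0 < C ∧ ∀ a b : ℕ, 1 ≤ b → b ≤ a →
    gg b a ≤ ENNReal.ofReal (C * (1 + (Nat.log 2 b : ℝ)) ^ C * (uu a * uu b / UU b)) := by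
  obtain ⟨C1, hC1, h1⟩ := VV_sum
  obtain ⟨C2, hC2, h2⟩ := sum_KK
  have hCW := Num2Aux.CW_pos
  set D : ℝ := 2 * (6 + CW) with hD
  have hD0 : 0 < D := by positivity
  set C : ℝ := max (8 * C1 * C2 * D) (max C1 4) with hC
  have hCa : 8 * C1 * C2 * D ≤ C := le_max_left _ _
  have hCb : C1 ≤ C := le_trans (le_max_left _ _) (le_max_right _ _)
  have hCc : 4 ≤ C := le_trans (le_max_right _ _) (le_max_right _ _)
  refine ⟨C, by linarith, ?_⟩
  intro a b hb hab
  set lam : ℝ := 1 + (Nat.log 2 b : ℝ) with hlam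
  have hlam1 : 1 ≤ lam := by
    rw [hlam]
    have : (0 : ℝ) ≤ (Nat.log 2 b : ℝ) := by positivity
    linarith
  have hUb : 0 < UU b := Num2Aux.UU_pos b
  have hua : 0 ≤ uu a := uu_nonneg a
  have hub : 0 ≤ uu b := uu_nonneg b
  have hpow : 1 ≤ lam ^ C := Real.one_le_rpow hlam1 (by linarith)
  rcases Nat.lt_or_ge b 4 with hb4 | hb4
  · -- small b
    refine le_trans (gg_le_mul b a) ?_
    rw [bt_eq, bt_eq, ← ENNReal.ofReal_mul hub]
    refine ENNReal.ofReal_le_ofReal ?_
    have hU : UU b ≤ 4 := by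
      refine le_trans (UU_le_succ b) ?_
      have : (b : ℝ) ≤ 3 := by exact_mod_cast (by omega : b ≤ 3)
      linarith
    have h3 : uu b * uu a = UU b * (uu a * uu b / UU b) := by
      field_simp
    rw [h3]
    refine mul_le_mul_of_nonneg_right ?_ (by positivity)
    nlinarith
  · set L : ℕ := b / 4 with hL
    have hL1 : 1 ≤ L := by omega
    have hL2 : 2 * L ≤ b := by omega
    have hLb : L < b := by omega
    have hUL : 0 < UU L := Num2Aux.UU_pos L
    have hULb : UU b ≤ 8 * UU L := by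
      have h3 : b ≤ 2 * (2 * (2 * L)) := by omega
      calc UU b ≤ UU (2 * (2 * (2 * L))) := Num2Aux.UU_mono h3
        _ ≤ 2 * UU (2 * (2 * L)) := UU_double _
        _ ≤ 2 * (2 * UU (2 * L)) := by linarith [UU_double (2 * L)]
        _ ≤ 8 * UU L := by linarith [UU_double L]
    have huD : ∀ i, i < L → uu (a - i) ≤ D * uu a := by
      intro i hi
      have h3 : uu (a - i) ≤ uu (a - L) := Num2Aux.anti (by omega)
      have h4 : uu (a - L) ≤ D * uu (2 * (a - L)) := uu_double (by omega)
      have h5 : uu (2 * (a - L)) ≤ uu a := Num2Aux.anti (by omega)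
      calc uu (a - i) ≤ D * uu (2 * (a - L)) := le_trans h3 h4
        _ ≤ D * uu a := mul_le_mul_of_nonneg_left h5 hD0.le
    have hKn : ∀ n, 0 ≤ KK' n := KK_nonneg
    -- every l < L
    have hl : ∀ l ∈ Finset.range L, gg b a ≤
        ∑ i ∈ Finset.range (l + 1), VV i b * ENNReal.ofReal (KK' (l + 1 - i) * (D * uu a)) := by
      intro l hl
      have hl' := Finset.mem_range.1 hl
      refine le_trans (gg_jump (by omega) hab) (Finset.sum_le_sum (fun i hi => ?_))
      have hi' := Finset.mem_range.1 hi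
      refine mul_le_mul_right (ENNReal.ofReal_le_ofReal ?_) _
      exact mul_le_mul_of_nonneg_left (huD i (by omega)) (hKn _)
    have hsum := Finset.sum_le_sum hl
    rw [Finset.sum_const, Finset.card_range, nsmul_eq_mul] at hsum
    have h3 := le_trans hsum (swap L (fun i => VV i b) KK' hKn (D * uu a))
    have h4 : (∑ n ∈ Finset.range L, KK' (n + 1)) * (D * uu a) ≤ C2 * (L / UU L) * (D * uu a) :=
      mul_le_mul_of_nonneg_right (h2 L hL1) (by positivity)
    have h5 : (L : ℝ≥0∞) * gg b a ≤ ENNReal.ofReal (C1 * lam ^ C1 * uu b) *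
        ENNReal.ofReal (C2 * (L / UU L) * (D * uu a)) :=
      le_trans h3 (mul_le_mul' (h1 b L hb hL2) (ENNReal.ofReal_le_ofReal h4))
    rw [← ENNReal.ofReal_mul (by positivity)] at h5
    have h6 : C1 * lam ^ C1 * uu b * (C2 * (L / UU L) * (D * uu a)) =
        L * (C1 * C2 * D * lam ^ C1 * (uu a * uu b / UU L)) := by
      field_simp
    rw [h6] at h5
    refine le_trans (div_nat hL1 h5) (ENNReal.ofReal_le_ofReal ?_)
    have h7 : uu a * uu b / UU L ≤ 8 * (uu a * uu b / UU b) := by
      rw [div_le_iff₀ hUL]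
      have h8 : 8 * (uu a * uu b / UU b) * UU L = uu a * uu b * (8 * UU L / UU b) := by
        field_simp
      rw [h8]
      have h9 : 1 ≤ 8 * UU L / UU b := by
        rw [le_div_iff₀ hUb]
        linarith
      nlinarith [mul_nonneg hua hub]
    have h10 : lam ^ C1 ≤ lam ^ C := Real.rpow_le_rpow_of_exponent_le hlam1 hCb
    have h11 : 0 ≤ uu a * uu b / UU b := by positivity
    calc C1 * C2 * D * lam ^ C1 * (uu a * uu b / UU L)
        ≤ C1 * C2 * D * lam ^ C1 * (8 * (uu a * uu b / UU b)) :=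
          mul_le_mul_of_nonneg_left h7 (by positivity)
      _ = (8 * C1 * C2 * D) * lam ^ C1 * (uu a * uu b / UU b) := by ring
      _ ≤ C * lam ^ C * (uu a * uu b / UU b) := by
          refine mul_le_mul_of_nonneg_right ?_ h11
          exact mul_le_mul hCa h10 (by positivity) (by linarith)

end HexObs
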