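import Pool.Agent.PHW.Defs

/-!
PHW: rotation of a bridge by 180 degrees (reversal of the word).
-/

set_option autoImplicit false

namespace HexObs

open Complex Finset ENNReal

lemma mulE_neg_one (p : Pt) : mulE (-1, 0) p = -p := by
  simp only [mulE]
  ext <;> simp

/-- the vertices of the rotated bridge -/
theorem vx_rot {t : List Bool} (ht : dx up t t.length = up) {i : ℕ} (hi : i ≤ t.length + 1) :
    vx oo up (rev t) i = tip oo up t - vx oo up t (t.length + 1 - i) := by
  have h1 := vx_rev oo up t i hi
  rw [ht] at h1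
  have h2 := vx_mulE (-1, 0) oo (tip oo up t) up (rev t) i
  rw [mulE_neg_one, mulE_neg_one, h1] at h2
  have h3 : vx oo up (rev t) i - oo = vx oo up (rev t) i := sub_zero _
  rw [h3] at h2
  rw [h2]
  abel

/-- the directions of the rotated bridge -/
theorem dx_rot {t : List Bool} (ht : dx up t t.length = up) {i : ℕ} (hi : i ≤ t.length) :
    dx up (rev t) i = dx up t (t.length - i) := by
  have h1 := dx_rev up t i hi
  rw [ht] at h1
  have h2 := dx_mulE (-1, 0) up (rev t) i
  rw [mulE_neg_one, mulE_neg_one, h1] at h2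
  exact (neg_inj.1 h2).symm

/-- the levels of the rotated bridge -/
theorem lev_rot {t : List Bool} (ht : dx up t t.length = up) {i : ℕ} (hi : i ≤ t.length + 1) :
    lev (rev t) i = lev t (t.length + 1) - lev t (t.length + 1 - i) := by
  unfold lev
  rw [vx_rot ht hi]
  exact ip_sub_left _ _ _

/-- horizontal coordinates of the rotated bridge -/
theorem lat_rot {t : List Bool} (ht : dx up t t.length = up) {i : ℕ} (hi : i ≤ t.length + 1) :
    lat (rev t) i = lat t (t.length + 1) - lat t (t.length + 1 - i) := by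
  unfold lat
  rw [vx_rot ht hi]
  show -(cross up (tip oo up t - vx oo up t (t.length + 1 - i))) =
    -(cross up (tip oo up t)) - -(cross up (vx oo up t (t.length + 1 - i)))
  unfold cross
  simp only [Prod.fst_sub, Prod.snd_sub]
  ring

lemma lev_one (t : List Bool) : lev t 1 = 2 := by
  have := lev_succ t 0
  rw [lev_zero] at this
  rw [this]
  show 0 + ip up up = 2
  decide

lemma lev_top {T : ℕ} {t : List Bool} (h : t ∈ Brd T) : lev t (t.length + 1) = 3 * T + 2 := by
  rw [mem_Brd] at h
  rw [lev_succ, h.2.2.1, h.2.2.2]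
  congr 1

theorem Brd_rev {T : ℕ} {t : List Bool} (h : t ∈ Brd T) : rev t ∈ Brd T := by
  have htop := lev_top h
  rw [mem_Brd] at h ⊢
  obtain ⟨h1, h2, h3, h4⟩ := h
  rw [rev_length]
  refine ⟨?_, ?_, ?_, ?_⟩
  · intro i hi hl
    have h5 := lev_rot h3 (i := i) (by omega)
    rw [htop] at h5
    have h6 := h1 (t.length + 1 - i) (by omega) (by omega)
    have h7 := lev_mod (rev t) i
    split_ifs at h7 <;> omega
  · intro i k hik hk heq
    rw [vx_rot h3 (by omega), vx_rot h3 (by omega)] at heq
    have h5 : vx oo up t (t.length + 1 - i) = vx oo up t (t.length + 1 - k) := sub_right_injective heq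
    rcases Nat.eq_zero_or_pos i with hi | hi
    · have h6 : lev t (t.length + 1 - i) = lev t (t.length + 1 - k) := by
        unfold lev
        rw [h5]
      have h7 := h1 (t.length + 1 - k) (by omega) (by omega)
      rw [hi, Nat.sub_zero, htop] at h6
      omega
    · exact h2 (t.length + 1 - k) (t.length + 1 - i) (by omega) (by omega) h5.symm
  · rw [dx_rot h3 le_rfl, Nat.sub_self]
    rfl
  · rw [lev_rot h3 (by omega), htop]
    have : t.length + 1 - t.length = 1 := by omega
    rw [this, lev_one]
    ring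

theorem Brd_rev_iff {T : ℕ} {t : List Bool} : rev t ∈ Brd T ↔ t ∈ Brd T := by
  refine ⟨fun h => ?_, Brd_rev⟩
  have := Brd_rev h
  rwa [rev_rev] at this

lemma rev_append (s u : List Bool) : rev (s ++ u) = rev u ++ rev s := by
  unfold rev
  rw [List.map_append, List.reverse_append]

lemma rev_eq_nil {t : List Bool} (h : rev t = []) : t = [] := by
  have := congrArg List.length h
  rw [rev_length] at this
  exact List.length_eq_zero_iff.1 this

lemma rev_eq_append {t s u : List Bool} (h : rev t = s ++ u) : t = rev u ++ rev s := by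
  rw [← rev_append, ← h, rev_rev]

theorem Irr_rev {T : ℕ} {t : List Bool} (h : t ∈ Irr T) : rev t ∈ Irr T := by
  obtain ⟨h1, h2, h3⟩ := h
  refine ⟨Brd_rev h1, fun h => h2 (rev_eq_nil h), ?_⟩
  intro a b s u hs hu hsu
  rcases h3 b a (rev u) (rev s) (Brd_rev hu) (Brd_rev hs) (rev_eq_append hsu) with h4 | h4
  · exact Or.inr (rev_eq_nil h4)
  · exact Or.inl (rev_eq_nil h4)

theorem Cut_rev {T c : ℕ} {t : List Bool} (h : t ∈ Brd T) (hc : c ≤ T) : Cut (rev t) c ↔ Cut t (T - c) := by
  constructor
  · rintro ⟨s, u, b, hs, hu, hsu⟩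
    have e := rev_eq_append hsu
    have h1 : t ∈ Brd (b + c) := by
      rw [e]
      exact Brd_append (Brd_rev hu) (Brd_rev hs)
    have h2 := Brd_height h h1
    refine ⟨rev u, rev s, c, ?_, Brd_rev hs, e⟩
    rw [h2, Nat.add_sub_cancel]
    exact Brd_rev hu
  · rintro ⟨s, u, b, hs, hu, hsu⟩
    have h1 : t ∈ Brd (T - c + b) := by
      rw [hsu]
      exact Brd_append hs hu
    have h2 := Brd_height h h1
    have h3 : b = c := by omega
    refine ⟨rev u, rev s, T - c, ?_, Brd_rev hs, ?_⟩
    · rw [← h3]
      exact Brd_rev hu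
    · rw [hsu, rev_append]

end HexObs
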