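import Pool.Agent.PHW.CoreF
import Pool.Agent.HexWall.Sym

/-!
PHW section S6: the fold lemma.
-/

set_option autoImplicit false

namespace HexObs

open Complex Finset ENNReal

namespace Fld

lemma W2_union_le (G G' : Set (List Bool × List Bool)) : W2 (G ∪ G') ≤ W2 G + W2 G' :=
  ENNReal.tsum_union_le (fun p : List Bool × List Bool => wE p.1 * wE p.2) G G'

lemma W2_empty : W2 ∅ = 0 := by
  unfold W2
  rw [ENNReal.tsum_eq_zero]
  rintro ⟨p, hp⟩
  exact absurd hp (Set.notMem_empty p)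

/-- weights of sets of pairs can be compared along an injective map that preserves the weights -/
lemma W2_le_of_inj {G G' : Set (List Bool × List Bool)} (φ : List Bool × List Bool → List Bool × List Bool)
    (h : ∀ p ∈ G, φ p ∈ G') (hi : Function.Injective φ)
    (hw : ∀ p, wE p.1 * wE p.2 = wE (φ p).1 * wE (φ p).2) : W2 G ≤ W2 G' := by
  unfold W2
  let ψ : {p : List Bool × List Bool // p ∈ G} → {p : List Bool × List Bool // p ∈ G'} := fun p => ⟨φ p.1, h p.1 p.2⟩
  have hψ : Function.Injective ψ := by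
    intro p q hpq
    have h1 : (ψ p).1 = (ψ q).1 := by rw [hpq]
    exact Subtype.ext (hi h1)
  calc ∑' p : {p : List Bool × List Bool // p ∈ G}, wE p.1.1 * wE p.1.2
      = ∑' p : {p : List Bool × List Bool // p ∈ G}, wE (ψ p).1.1 * wE (ψ p).1.2 := tsum_congr fun p => hw p.1
    _ ≤ _ := ENNReal.tsum_comp_le_tsum_of_injective hψ
        (fun p : {p : List Bool × List Bool // p ∈ G'} => wE p.1.1 * wE p.1.2)

/-- exact leg X (left) with the barrier I.take m at its end, fresh leg Y (right), not shorter than X; the whole left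
walk X ++ X' is not lower than Y, the whole right walk Y ++ Y' is not lower than X with the barrier -/
def Gen (I : List Bool) (m : ℕ) (X Y : List Bool) : Prop :=
  ∃ (x y p q : ℕ) (X' Y' : List Bool), X ∈ Brd x ∧ Y ∈ Brd y ∧ x ≤ y ∧ X' ∈ Brd p ∧ Y' ∈ Brd q ∧ y ≤ x + p ∧
    m ≤ I.length ∧ (∃ Q, X' = I.take m ++ Q) ∧ (∀ i, i ≤ m → (x : ℤ) * 3 + lev I i ≤ 3 * (y + q)) ∧
    Dj (X ++ X') (Y ++ Y')

lemma BesP_of_Gen {I : List Bool} {m : ℕ} {X Y : List Bool} (h : Gen I m X Y) : BesP I m X Y := by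
  obtain ⟨x, y, p, q, X', Y', hX, hY, hxy, hX', hY', hyp, hm, hQ, hlev, hd⟩ := h
  obtain ⟨c, t1, t2, hc1, hc2, ht1, ht2, hYt⟩ := FC_dec hxy hY
  refine ⟨x, c, y - c, t1, t2, hX, ht1, ht2, hYt, x, c, y - c, p, q, X', Y', hX, ht1.1, ht2, hX', hY', hc1, by omega, hm,
    hQ, ?_, ?_⟩
  · intro i hi
    have := hlev i hi
    omega
  · rw [← hYt]
    exact hd

/-- output for exact leg in a part of the block a, fresh leg in a part of the block b -/
def FoldI (A : ℕ) (ε C : ℝ) : Prop := ∀ (a b v l v' l' : ℕ) (I : List Bool) (m : ℕ),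
  W2 {p | p.1 ∈ BrI a v l ∧ p.2 ∈ BrI b v' l' ∧ Gen I m p.1 p.2} ≤
    ENNReal.ofReal (C * Real.sqrt (UU l / UU (2 ^ a)) * UU l' * (1 - ε) ^ nfl A ((I.take m).map not) a b)

/-- whole blocks -/
def FoldB (A : ℕ) (ε C : ℝ) : Prop := ∀ (a b : ℕ) (I : List Bool) (m : ℕ),
  W2 {p | p.1 ∈ BrB a ∧ p.2 ∈ BrB b ∧ Gen I m p.1 p.2} ≤
    ENNReal.ofReal (C * UU (2 ^ b) * (1 - ε) ^ nfl A ((I.take m).map not) a b)

/-- the two outputs of the section S5 -/
def S5 : Prop := (∃ C ρ δ : ℝ, 0 < C ∧ 0 < ρ ∧ ρ < 1 ∧ 0 < δ ∧ S5H C ρ δ) ∧ ∃ C : ℝ, 0 < C ∧ S5T C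

theorem foldI (h5 : S5) (A : ℕ) : ∃ ε C : ℝ, 0 < ε ∧ ε < 1 ∧ 0 < C ∧ FoldI A ε C := by
  obtain ⟨⟨C2, ρ, δ, hC2, hρ0, hρ1, hδ, h5H⟩, C3, hC3, h5T⟩ := h5
  obtain ⟨ε0, C1, he0, he1, hC1, hK⟩ := killL_ex A
  obtain ⟨r, hr⟩ : ∃ r : ℝ, r = max ((2 : ℝ) ^ (-δ)) ((1 + ρ) / 2) := ⟨_, rfl⟩
  have hr0 : 0 < r := by
    rw [hr]
    exact lt_of_lt_of_le (by positivity : (0 : ℝ) < (2 : ℝ) ^ (-δ)) (le_max_left _ _)
  have hr1 : r < 1 := by
    rw [hr]
    apply max_lt
    · exact Real.rpow_lt_one_of_one_lt_of_neg (by norm_num) (by linarith)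
    · linarith
  have hs0 : 0 < Real.sqrt r := Real.sqrt_pos.2 hr0
  have hs1 : Real.sqrt r < 1 := by
    rw [Real.sqrt_lt' one_pos]
    simpa using hr1
  obtain ⟨ε, hε⟩ : ∃ ε : ℝ, ε = min ε0 (1 - Real.sqrt r) := ⟨_, rfl⟩
  have hε0 : 0 < ε := by
    rw [hε]
    exact lt_min he0 (by linarith)
  have hεε : ε ≤ ε0 := by
    rw [hε]
    exact min_le_left _ _
  have hεs : ε ≤ 1 - Real.sqrt r := by
    rw [hε]
    exact min_le_right _ _
  have hε1 : ε < 1 := by linarith
  have hq0 : 0 < 1 - ε := by linarith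
  have hq : r ≤ (1 - ε) ^ 2 := by
    have h1 : Real.sqrt r ≤ 1 - ε := by linarith
    calc r = Real.sqrt r ^ 2 := (Real.sq_sqrt hr0.le).symm
      _ ≤ (1 - ε) ^ 2 := pow_le_pow_left₀ hs0.le h1 2
  have h1 : ((1 - ε) ^ 2)⁻¹ ≤ (2 : ℝ) ^ δ := by
    have h2 : (2 : ℝ) ^ (-δ) ≤ (1 - ε) ^ 2 := (le_trans (by rw [hr]; exact le_max_left _ _) hq)
    rw [Real.rpow_neg (by norm_num)] at h2
    exact inv_le_of_inv_le₀ (by positivity) h2
  have h2 : ((1 - ε) ^ 2)⁻¹ * ρ < 1 := by
    have h3 : (1 + ρ) / 2 ≤ (1 - ε) ^ 2 := (le_trans (by rw [hr]; exact le_max_right _ _) hq)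
    rw [inv_mul_lt_iff₀ (by positivity), mul_one]
    linarith
  obtain ⟨C, hC, hcore⟩ := core hε0 hε1 hC1 (hK.mono hC1 hεε he1) hC2 hρ0 hδ h5H hC3 h5T h1 h2
  refine ⟨ε, C, hε0, hε1, hC, ?_⟩
  intro a b v l v' l' I m
  by_cases hm : m ≤ I.length
  · refine (W2_mono ?_).trans (hcore a b v l v' l' I m hm)
    rintro p ⟨p1, p2, p3⟩
    exact ⟨p1, p2, BesP_of_Gen p3⟩
  · refine le_trans (le_of_eq ?_) zero_le
    rw [← W2_empty]
    congr 1
    ext p
    constructor
    · rintro ⟨-, -, x, y, p', q, X', Y', -, -, -, -, -, -, h, -⟩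
      exact absurd h hm
    · exact fun h => absurd h (Set.notMem_empty p)

lemma BrB_sub (a : ℕ) : BrB a ⊆ BrI a 0 (2 ^ (a + 1)) := by
  rintro t ⟨h, h1, h2⟩
  exact ⟨h, h1, Nat.zero_le h, by have := h1.1; omega, h2⟩

lemma UU_two_pow (a : ℕ) : UU (2 ^ (a + 1)) ≤ 2 * UU (2 ^ a) := by
  rw [pow_succ']
  exact UU_double (2 ^ a)

theorem FoldB_of_FoldI {A : ℕ} {ε C : ℝ} (hε1 : ε < 1) (hC : 0 < C) (h : FoldI A ε C) : FoldB A ε (4 * C) := by
  intro a b I m
  refine (W2_mono ?_).trans ((h a b 0 (2 ^ (a + 1)) 0 (2 ^ (b + 1)) I m).trans (ENNReal.ofReal_le_ofReal ?_))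
  · rintro p ⟨p1, p2, p3⟩
    exact ⟨BrB_sub a p1, BrB_sub b p2, p3⟩
  · have hUa := Num2Aux.UU_pos (2 ^ a)
    have hUb := Num2Aux.UU_pos (2 ^ b)
    have h1 : Real.sqrt (UU (2 ^ (a + 1)) / UU (2 ^ a)) ≤ 2 := by
      rw [Real.sqrt_le_left (by norm_num)]
      rw [div_le_iff₀ hUa]
      have := UU_two_pow a
      linarith
    have h2 := UU_two_pow b
    have hq0 : 0 < 1 - ε := by linarith
    have h3 : 0 ≤ (1 - ε) ^ nfl A ((I.take m).map not) a b := by positivity
    have h4 : C * Real.sqrt (UU (2 ^ (a + 1)) / UU (2 ^ a)) * UU (2 ^ (b + 1)) ≤ C * 2 * (2 * UU (2 ^ b)) := by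
      apply mul_le_mul _ h2 (Num2Aux.UU_pos _).le (by positivity)
      exact mul_le_mul_of_nonneg_left h1 hC.le
    calc C * Real.sqrt (UU (2 ^ (a + 1)) / UU (2 ^ a)) * UU (2 ^ (b + 1)) * (1 - ε) ^ nfl A ((I.take m).map not) a b
        ≤ C * 2 * (2 * UU (2 ^ b)) * (1 - ε) ^ nfl A ((I.take m).map not) a b := mul_le_mul_of_nonneg_right h4 h3
      _ = _ := by ring

/-- the vertices before the first visit of the level 3 m -/
lemma fv_spec {m : ℕ} {P : List Bool} {i : ℕ} (hi : i ≤ fv m P - 1) : i ≤ P.length ∧ lev P i ≤ 3 * m := by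
  rcases Nat.eq_zero_or_pos i with h0 | h0
  · subst h0
    refine ⟨Nat.zero_le _, ?_⟩
    rw [lev_zero]
    positivity
  · have h1 : i < fv m P := by omega
    have h2 := Nat.notMem_of_lt_sInf h1
    rw [Set.mem_ofPred_eq, not_or, not_lt, not_le] at h2
    exact ⟨h2.1, h2.2.le⟩

lemma take_map_not (I : List Bool) (m : ℕ) : (I.map not).take m = (I.take m).map not := by
  rw [List.map_take]

lemma nfl_self (A : ℕ) (P : List Bool) (a : ℕ) : nfl A P a a = 0 := by
  classical
  unfold nfl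
  simp

lemma rev_append' (s t : List Bool) : rev (s ++ t) = rev t ++ rev s := by
  unfold rev
  rw [List.map_append, List.reverse_append]

lemma map_not_inj : Function.Injective (fun t : List Bool => t.map not) := fun s t h => by
  have h1 : (s.map not).map not = (t.map not).map not := congrArg (List.map not) h
  rwa [map_not_not, map_not_not] at h1

lemma rev_inj : Function.Injective (fun t : List Bool => rev t) := fun s t h => by
  have h1 : rev (rev s) = rev (rev t) := congrArg rev h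
  rwa [rev_rev, rev_rev] at h1

/-- a fold: left strand Y = N P X not taller than the right strand X = rev (R I M); cases (i) N not taller than M,
(ii) M not taller than N, and the two mirror images -/
lemma Gen_of_FoldH {T a b : ℕ} {I P M N : List Bool} (hT : 2 ^ (b + 2) ≤ T) (hM : M ∈ BrB b) (hN : N ∈ BrB a)
    (h : FoldH T I P M N) :
    (a ≤ b ∧ Gen P P.length N (rev M)) ∨
    (b ≤ a ∧ Gen ((rev I).map not) (fv (T / 2) (rev I) - 1) ((rev M).map not) (N.map not)) ∨
    (a ≤ b ∧ Gen (P.map not) P.length (N.map not) ((rev M).map not)) ∨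
    (b ≤ a ∧ Gen (rev I) (fv (T / 2) (rev I) - 1) (rev M) N) := by
  obtain ⟨x, y, p, q, R, X, hMx, hNy, hRI, hPX, h1, h2, h3⟩ := h
  obtain ⟨x', hx', hMx'⟩ := hM
  obtain ⟨y', hy', hNy'⟩ := hN
  obtain rfl : x = x' := Brd_height hMx hMx'
  obtain rfl : y = y' := Brd_height hNy hNy'
  have hrM : rev M ∈ Brd x := Brd_rev hMx
  have hrRI : rev I ++ rev R ∈ Brd p := by
    rw [← rev_append']
    exact Brd_rev hRI
  have e1 : rev (R ++ (I ++ M)) = rev M ++ (rev I ++ rev R) := by
    rw [rev_append', rev_append', List.append_assoc]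
  have hx2 : x < 2 ^ (b + 1) := hx'.1
  have hpow : 2 ^ (b + 2) = 2 * 2 ^ (b + 1) := by rw [pow_succ']
  have hxT : x + T / 2 ≤ T := by omega
  have hPlev : ∀ i, i ≤ P.length → lev P i ≤ 3 * q := by
    intro i hi
    have h4 := mem_Brd.1 hPX
    rcases Nat.eq_zero_or_pos i with h0 | h0
    · rw [h0, lev_zero]
      positivity
    · have h5 := (h4.1 i h0 (by rw [List.length_append]; omega)).2
      rwa [lev_append (by omega)] at h5
  have hblock : ∀ {k k' z z' : ℕ}, Bl k z → Bl k' z' → z ≤ z' → k ≤ k' := by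
    intro k k' z z' g1 g2 g3
    rw [← Bl_log g1, ← Bl_log g2]
    exact Nat.log_mono_right g3
  set j := fv (T / 2) (rev I) - 1 with hj
  have hjl : j ≤ (rev I).length := (fv_spec (m := T / 2) (P := rev I) le_rfl).1
  have hjlev : ∀ i, i ≤ j → lev (rev I) i ≤ 3 * ((T / 2 : ℕ) : ℤ) := fun i hi => (fv_spec hi).2
  unfold Nb at h3
  rw [e1] at h3
  rcases h3 with h3 | h3
  · -- the taller strand on the left
    rcases le_total y x with hyx | hyx
    · right; right; left
      refine ⟨hblock hy' hx' hyx, y, x, q, p, (P ++ X).map not, (rev I ++ rev R).map not, Brd_not hNy, Brd_not hrM, hyx,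
        Brd_not hPX, Brd_not hrRI, by omega, by rw [List.length_map], ⟨X.map not, ?_⟩, ?_, ?_⟩
      · rw [take_map_not, List.take_length, List.map_append]
      · intro i hi
        rw [lev_not P (by omega)]
        have := hPlev i hi
        omega
      · rw [← List.map_append, ← List.map_append]
        exact Dj_not h3
    · right; right; right
      refine ⟨hblock hx' hy' hyx, x, y, p, q, rev I ++ rev R, P ++ X, hrM, hNy, hyx, hrRI, hPX, by omega, hjl,
        ⟨(rev I).drop j ++ rev R, ?_⟩, ?_, h3⟩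
      · rw [← List.append_assoc, List.take_append_drop]
      · intro i hi
        have := hjlev i hi
        push_cast at this ⊢
        omega
  · rcases le_total y x with hyx | hyx
    · left
      refine ⟨hblock hy' hx' hyx, y, x, q, p, P ++ X, rev I ++ rev R, hNy, hrM, hyx,
        hPX, hrRI, by omega, le_rfl, ⟨X, ?_⟩, ?_, h3⟩
      · rw [List.take_length]
      · intro i hi
        have := hPlev i hi
        omega
    · right; left
      refine ⟨hblock hx' hy' hyx, x, y, p, q, (rev I ++ rev R).map not, (P ++ X).map not, Brd_not hrM, Brd_not hNy, hyx,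
        Brd_not hrRI, Brd_not hPX, by omega, by rw [List.length_map]; exact hjl, ⟨((rev I).drop j ++ rev R).map not, ?_⟩,
        ?_, ?_⟩
      · rw [take_map_not, ← List.map_append, ← List.append_assoc, List.take_append_drop]
      · intro i hi
        rw [lev_not (rev I) (by omega)]
        have := hjlev i hi
        push_cast at this ⊢
        omega
      · rw [← List.map_append, ← List.map_append]
        exact Dj_not h3

lemma BrB_rev {a : ℕ} {t : List Bool} (h : t ∈ BrB a) : rev t ∈ BrB a := by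
  obtain ⟨k, h1, h2⟩ := h
  exact ⟨k, h1, Brd_rev h2⟩

lemma BrB_not {a : ℕ} {t : List Bool} (h : t ∈ BrB a) : t.map not ∈ BrB a := by
  obtain ⟨k, h1, h2⟩ := h
  exact ⟨k, h1, Brd_not h2⟩

/-- **the fold lemma**, block form -/
theorem fold_H6 (h5 : S5) (A : ℕ) : ∃ ε C : ℝ, 0 < ε ∧ ε < 1 ∧ 0 < C ∧ ∀ (T a b : ℕ) (I P : List Bool),
    2 ^ (b + 2) ≤ T → g2 (BrB b) (BrB a) (FoldH T I P) ≤
      ENNReal.ofReal (C * UU (2 ^ max a b) * (if a ≤ b then fin ε A b a P else fout ε A T b a I)) := by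
  classical
  obtain ⟨ε, C, hε0, hε1, hC, hI⟩ := foldI h5 A
  have hB := FoldB_of_FoldI hε1 hC hI
  refine ⟨ε, 16 * C, hε0, hε1, by positivity, ?_⟩
  intro T a b I P hT
  have hq0 : 0 < 1 - ε := by linarith
  have hq1 : 1 - ε ≤ 1 := by linarith
  have hUa := Num2Aux.UU_pos (2 ^ a)
  have hUb := Num2Aux.UU_pos (2 ^ b)
  set j := fv (T / 2) (rev I) - 1 with hj
  -- the four families
  set S1 : Set (List Bool × List Bool) := {p | p.1 ∈ BrB b ∧ p.2 ∈ BrB a ∧ a ≤ b ∧ Gen P P.length p.2 (rev p.1)}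
    with hS1
  set S2 : Set (List Bool × List Bool) := {p | p.1 ∈ BrB b ∧ p.2 ∈ BrB a ∧ b ≤ a ∧
    Gen ((rev I).map not) j ((rev p.1).map not) (p.2.map not)} with hS2
  set S3 : Set (List Bool × List Bool) := {p | p.1 ∈ BrB b ∧ p.2 ∈ BrB a ∧ a ≤ b ∧
    Gen (P.map not) P.length (p.2.map not) ((rev p.1).map not)} with hS3
  set S4 : Set (List Bool × List Bool) := {p | p.1 ∈ BrB b ∧ p.2 ∈ BrB a ∧ b ≤ a ∧
    Gen (rev I) j (rev p.1) p.2} with hS4
  have hcov : g2 (BrB b) (BrB a) (FoldH T I P) ≤ (W2 S1 + W2 S2) + (W2 S3 + W2 S4) := by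
    rw [g2_eq_W2]
    refine (W2_mono (G' := (S1 ∪ S2) ∪ (S3 ∪ S4)) ?_).trans ((W2_union_le _ _).trans
      (add_le_add (W2_union_le _ _) (W2_union_le _ _)))
    rintro p ⟨p1, p2, p3⟩
    rcases Gen_of_FoldH hT p1 p2 p3 with h | h | h | h
    · exact Or.inl (Or.inl ⟨p1, p2, h.1, h.2⟩)
    · exact Or.inl (Or.inr ⟨p1, p2, h.1, h.2⟩)
    · exact Or.inr (Or.inl ⟨p1, p2, h.1, h.2⟩)
    · exact Or.inr (Or.inr ⟨p1, p2, h.1, h.2⟩)
  have b1 : W2 S1 ≤ W2 {p | p.1 ∈ BrB a ∧ p.2 ∈ BrB b ∧ Gen P P.length p.1 p.2} := by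
    refine W2_le_of_inj (fun p => (p.2, rev p.1)) ?_ ?_ ?_
    · rintro p ⟨p1, p2, -, p3⟩
      exact ⟨p2, BrB_rev p1, p3⟩
    · rintro ⟨s, t⟩ ⟨s', t'⟩ h
      have h1 := congrArg Prod.fst h
      have h2 := congrArg Prod.snd h
      simp only at h1 h2
      exact Prod.ext (rev_inj h2) h1
    · intro p
      show wE p.1 * wE p.2 = wE p.2 * wE (rev p.1)
      rw [Wall.wE_rev, mul_comm]
  have b2 : W2 S2 ≤ W2 {p | p.1 ∈ BrB b ∧ p.2 ∈ BrB a ∧ Gen ((rev I).map not) j p.1 p.2} := by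
    refine W2_le_of_inj (fun p => ((rev p.1).map not, p.2.map not)) ?_ ?_ ?_
    · rintro p ⟨p1, p2, -, p3⟩
      exact ⟨BrB_not (BrB_rev p1), BrB_not p2, p3⟩
    · rintro ⟨s, t⟩ ⟨s', t'⟩ h
      have h1 := congrArg Prod.fst h
      have h2 := congrArg Prod.snd h
      simp only at h1 h2
      exact Prod.ext (rev_inj (map_not_inj h1)) (map_not_inj h2)
    · intro p
      show wE p.1 * wE p.2 = wE ((rev p.1).map not) * wE (p.2.map not)
      rw [Wall.wE_not, Wall.wE_rev, Wall.wE_not]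
  have b3 : W2 S3 ≤ W2 {p | p.1 ∈ BrB a ∧ p.2 ∈ BrB b ∧ Gen (P.map not) P.length p.1 p.2} := by
    refine W2_le_of_inj (fun p => (p.2.map not, (rev p.1).map not)) ?_ ?_ ?_
    · rintro p ⟨p1, p2, -, p3⟩
      exact ⟨BrB_not p2, BrB_not (BrB_rev p1), p3⟩
    · rintro ⟨s, t⟩ ⟨s', t'⟩ h
      have h1 := congrArg Prod.fst h
      have h2 := congrArg Prod.snd h
      simp only at h1 h2
      exact Prod.ext (rev_inj (map_not_inj h2)) (map_not_inj h1)
    · intro p
      show wE p.1 * wE p.2 = wE (p.2.map not) * wE ((rev p.1).map not)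
      rw [Wall.wE_not, Wall.wE_not, Wall.wE_rev, mul_comm]
  have b4 : W2 S4 ≤ W2 {p | p.1 ∈ BrB b ∧ p.2 ∈ BrB a ∧ Gen (rev I) j p.1 p.2} := by
    refine W2_le_of_inj (fun p => (rev p.1, p.2)) ?_ ?_ ?_
    · rintro p ⟨p1, p2, -, p3⟩
      exact ⟨BrB_rev p1, p2, p3⟩
    · rintro ⟨s, t⟩ ⟨s', t'⟩ h
      have h1 := congrArg Prod.fst h
      have h2 := congrArg Prod.snd h
      simp only at h1 h2
      exact Prod.ext (rev_inj h1) h2
    · intro p
      show wE p.1 * wE p.2 = wE (rev p.1) * wE p.2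
      rw [Wall.wE_rev]
  -- the bounds
  have c1 := b1.trans (hB a b P P.length)
  have c2 := b2.trans (hB b a ((rev I).map not) j)
  have c3 := b3.trans (hB a b (P.map not) P.length)
  have c4 := b4.trans (hB b a (rev I) j)
  rw [List.take_length] at c1
  have e3 : (P.map not).take P.length = P.map not := by
    conv_lhs => rw [← List.length_map (f := not) (as := P)]
    exact List.take_length
  rw [e3, map_not_not] at c3
  rw [take_map_not, map_not_not] at c2
  have hpre : pre (T / 2) (rev I) = (rev I).take j := rfl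
  rcases Nat.lt_trichotomy a b with hab | hab | hab
  · -- a < b
    rw [if_pos hab.le, max_eq_right hab.le]
    have z2 : W2 S2 = 0 := by
      have : S2 = ∅ := by
        ext p
        constructor
        · rintro ⟨-, -, h, -⟩
          omega
        · exact fun h => absurd h (Set.notMem_empty p)
      rw [this, W2_empty]
    have z4 : W2 S4 = 0 := by
      have : S4 = ∅ := by
        ext p
        constructor
        · rintro ⟨-, -, h, -⟩
          omega
        · exact fun h => absurd h (Set.notMem_empty p)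
      rw [this, W2_empty]
    have f1 : (1 - ε) ^ nfl A (P.map not) a b ≤ fin ε A b a P := by
      unfold fin
      exact pow_le_pow_of_le_one hq0.le hq1 (min_le_right _ _)
    have f3 : (1 - ε) ^ nfl A P a b ≤ fin ε A b a P := by
      unfold fin
      exact pow_le_pow_of_le_one hq0.le hq1 (min_le_left _ _)
    have hf0 : 0 ≤ fin ε A b a P := le_trans (by positivity) f1
    calc g2 (BrB b) (BrB a) (FoldH T I P) ≤ (W2 S1 + W2 S2) + (W2 S3 + W2 S4) := hcov
      _ = W2 S1 + W2 S3 := by rw [z2, z4, add_zero, add_zero]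
      _ ≤ ENNReal.ofReal (4 * C * UU (2 ^ b) * fin ε A b a P) + ENNReal.ofReal (4 * C * UU (2 ^ b) * fin ε A b a P) := by
          apply add_le_add
          · refine c1.trans (ENNReal.ofReal_le_ofReal ?_)
            exact mul_le_mul_of_nonneg_left f1 (by positivity)
          · refine c3.trans (ENNReal.ofReal_le_ofReal ?_)
            exact mul_le_mul_of_nonneg_left f3 (by positivity)
      _ = ENNReal.ofReal (4 * C * UU (2 ^ b) * fin ε A b a P + 4 * C * UU (2 ^ b) * fin ε A b a P) := by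
          rw [ENNReal.ofReal_add (by positivity) (by positivity)]
      _ ≤ _ := by
          apply ENNReal.ofReal_le_ofReal
          have : 0 ≤ C * UU (2 ^ b) * fin ε A b a P := by positivity
          nlinarith
  · -- a = b
    subst hab
    rw [if_pos le_rfl, max_self]
    have hf : fin ε A a a P = 1 := by
      unfold fin
      rw [nfl_self, nfl_self, min_self, pow_zero]
    rw [hf]
    rw [nfl_self, pow_zero] at c1 c2 c3 c4
    calc g2 (BrB a) (BrB a) (FoldH T I P) ≤ (W2 S1 + W2 S2) + (W2 S3 + W2 S4) := hcov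
      _ ≤ (ENNReal.ofReal (4 * C * UU (2 ^ a) * 1) + ENNReal.ofReal (4 * C * UU (2 ^ a) * 1)) +
          (ENNReal.ofReal (4 * C * UU (2 ^ a) * 1) + ENNReal.ofReal (4 * C * UU (2 ^ a) * 1)) := by
          gcongr
      _ = ENNReal.ofReal ((4 * C * UU (2 ^ a) * 1 + 4 * C * UU (2 ^ a) * 1) +
          (4 * C * UU (2 ^ a) * 1 + 4 * C * UU (2 ^ a) * 1)) := by
          rw [ENNReal.ofReal_add (by positivity) (by positivity), ENNReal.ofReal_add (by positivity) (by positivity)]
      _ ≤ _ := by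
          apply ENNReal.ofReal_le_ofReal
          nlinarith
  · -- b < a
    rw [if_neg (by omega), max_eq_left hab.le]
    have z1 : W2 S1 = 0 := by
      have : S1 = ∅ := by
        ext p
        constructor
        · rintro ⟨-, -, h, -⟩
          omega
        · exact fun h => absurd h (Set.notMem_empty p)
      rw [this, W2_empty]
    have z3 : W2 S3 = 0 := by
      have : S3 = ∅ := by
        ext p
        constructor
        · rintro ⟨-, -, h, -⟩
          omega
        · exact fun h => absurd h (Set.notMem_empty p)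
      rw [this, W2_empty]
    have f2 : (1 - ε) ^ nfl A ((rev I).take j) b a ≤ fout ε A T b a I := by
      unfold fout
      rw [hpre]
      exact pow_le_pow_of_le_one hq0.le hq1 (min_le_left _ _)
    have f4 : (1 - ε) ^ nfl A (((rev I).take j).map not) b a ≤ fout ε A T b a I := by
      unfold fout
      rw [hpre]
      exact pow_le_pow_of_le_one hq0.le hq1 (min_le_right _ _)
    have hf0 : 0 ≤ fout ε A T b a I := le_trans (by positivity) f2
    calc g2 (BrB b) (BrB a) (FoldH T I P) ≤ (W2 S1 + W2 S2) + (W2 S3 + W2 S4) := hcov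
      _ = W2 S2 + W2 S4 := by rw [z1, z3, zero_add, zero_add]
      _ ≤ ENNReal.ofReal (4 * C * UU (2 ^ a) * fout ε A T b a I) +
          ENNReal.ofReal (4 * C * UU (2 ^ a) * fout ε A T b a I) := by
          apply add_le_add
          · refine c2.trans (ENNReal.ofReal_le_ofReal ?_)
            exact mul_le_mul_of_nonneg_left f2 (by positivity)
          · refine c4.trans (ENNReal.ofReal_le_ofReal ?_)
            exact mul_le_mul_of_nonneg_left f4 (by positivity)
      _ = ENNReal.ofReal (4 * C * UU (2 ^ a) * fout ε A T b a I + 4 * C * UU (2 ^ a) * fout ε A T b a I) := by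
          rw [ENNReal.ofReal_add (by positivity) (by positivity)]
      _ ≤ _ := by
          apply ENNReal.ofReal_le_ofReal
          have : 0 ≤ C * UU (2 ^ a) * fout ε A T b a I := by positivity
          nlinarith

end Fld

end HexObs
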