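import Pool.Agent.PHW.Defs
import Pool.Agent.W47.K1

/-!
PHW, module A3: first cut at or above s: decomposition, uniqueness, strong Markov property.
-/

set_option autoImplicit false

namespace HexObs

open Complex Finset ENNReal

namespace FCaux

/-- nested cuts -/
lemma nested {c c' b b' : ℕ} {s s' u u' : List Bool} (hs : s ∈ Brd c) (hs' : s' ∈ Brd c')
    (hu : u ∈ Brd b) (hu' : u' ∈ Brd b') (hc : c ≤ c') (h : s ++ u = s' ++ u') :
    ∃ v ∈ Brd (c' - c), s' = s ++ v ∧ u = v ++ u' := by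
  have hs2 := mem_Brd.1 hs
  have hs2' := mem_Brd.1 hs'
  have hu2 := mem_Brd.1 hu
  have hu2' := mem_Brd.1 hu'
  rcases List.append_eq_append_iff.1 h with ⟨v, h1, h2⟩ | ⟨v, h1, h2⟩
  · refine ⟨v, (Brd_cancel hs (h1 ▸ hs') fun j hj hj' => ?_).2, h1, h2⟩
    have h3 : lev (s ++ v) (s.length + j) = lev (s ++ v ++ u') (s.length + j) :=
      (lev_append (by rw [List.length_append]; omega)).symm
    rw [h3, ← h1, ← h, lev_cat hs2.2.2.1, hs2.2.2.2]
    have h4 := (hu2.1 j hj (by rw [h2, List.length_append]; omega)).1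
    omega
  · rcases List.eq_nil_or_concat v with rfl | ⟨w, x, hw⟩
    · rw [List.append_nil] at h1
      rw [List.nil_append] at h2
      subst h1
      have hcc := Brd_height hs hs'
      refine ⟨[], ?_, (List.append_nil s).symm, h2.symm⟩
      rw [hcc, Nat.sub_self]
      exact nil_mem_Brd
    · exfalso
      have hv : 1 ≤ v.length := by
        rw [hw, List.length_concat]
        omega
      have h3 := lev_cat (t := v ++ u) hs2'.2.2.1 v.length
      have h4 : lev (s' ++ (v ++ u)) (s'.length + v.length) = lev s s.length := by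
        rw [← List.append_assoc, ← h1, ← List.length_append, ← h1]
        exact lev_append (by omega)
      rw [h4, hs2.2.2.2, hs2'.2.2.2, ← h2] at h3
      have h5 := (hu2'.1 v.length hv (by rw [h2, List.length_append]; omega)).1
      have h6 : (c : ℤ) ≤ c' := by exact_mod_cast hc
      omega

end FCaux

open FCaux

theorem FC_dec {s n : ℕ} (hs : s ≤ n) {t : List Bool} (ht : t ∈ Brd n) :
    ∃ j a u, s ≤ j ∧ j ≤ n ∧ a ∈ FC s j ∧ u ∈ Brd (n - j) ∧ t = a ++ u := by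
  classical
  have hex : ∃ j, s ≤ j ∧ Cut t j := ⟨n, hs, t, [], 0, ht, nil_mem_Brd, (List.append_nil t).symm⟩
  obtain ⟨hj, a, u, b, ha, hu, htau⟩ := Nat.find_spec hex
  have hmin : ∀ c, s ≤ c → c < Nat.find hex → ¬ Cut t c := fun c hc hlt h => Nat.find_min hex hlt ⟨hc, h⟩
  set j := Nat.find hex
  have hn : n = j + b := Brd_height ht (htau ▸ Brd_append ha hu)
  refine ⟨j, a, u, hj, by omega, ⟨ha, hj, fun c hc hlt hcut => ?_⟩, ?_, htau⟩
  · obtain ⟨s', u', b', hs', hu', hau⟩ := hcut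
    exact hmin c hc hlt ⟨s', u' ++ u, b' + b, hs', Brd_append hu' hu, by rw [htau, hau, List.append_assoc]⟩
  · have h1 : n - j = b := by omega
    rw [h1]
    exact hu

theorem FC_unique {s j j' b b' : ℕ} {a a' u u' : List Bool} (ha : a ∈ FC s j) (ha' : a' ∈ FC s j')
    (hu : u ∈ Brd b) (hu' : u' ∈ Brd b') (h : a ++ u = a' ++ u') : a = a' ∧ u = u' := by
  have key : ∀ {j j' b b' : ℕ} {a a' u u' : List Bool}, a ∈ FC s j → a' ∈ FC s j' → u ∈ Brd b → u' ∈ Brd b' →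
      a ++ u = a' ++ u' → j ≤ j' → a = a' ∧ u = u' := by
    intro j j' b b' a a' u u' ha ha' hu hu' h hjj
    obtain ⟨v, hv, h1, h2⟩ := nested ha.1 ha'.1 hu hu' hjj h
    rcases Nat.lt_or_ge j j' with hlt | hge
    · exact absurd ⟨a, v, _, ha.1, hv, h1⟩ (ha'.2.2 j ha.2.1 hlt)
    · have h3 : j' - j = 0 := by omega
      rw [h3, Brd_zero] at hv
      have h4 : v = [] := hv
      rw [h4, List.append_nil] at h1
      rw [h4, List.nil_append] at h2
      exact ⟨h1.symm, h2⟩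
  rcases Nat.le_total j j' with hjj | hjj
  · exact key ha ha' hu hu' h hjj
  · obtain ⟨h1, h2⟩ := key ha' ha hu' hu h.symm hjj
    exact ⟨h1.symm, h2.symm⟩

/-- the strong Markov property at the first cut at or above s -/
theorem gf_FC (P : Set (List Bool)) {s n : ℕ} (h : s ≤ n) :
    gf {t | t ∈ Brd n ∧ ∃ j a u, j ≤ n ∧ a ∈ FC s j ∧ a ∈ P ∧ u ∈ Brd (n - j) ∧ t = a ++ u} =
      ∑ j ∈ Finset.Icc s n, gf (FC s j ∩ P) * BT (n - j) := by
  have _ := h
  let C : Finset.Icc s n → Set (List Bool) := fun j =>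
    {t | ∃ a u, a ∈ FC s (j : ℕ) ∩ P ∧ u ∈ Brd (n - (j : ℕ)) ∧ t = a ++ u}
  have hset : {t | t ∈ Brd n ∧ ∃ j a u, j ≤ n ∧ a ∈ FC s j ∧ a ∈ P ∧ u ∈ Brd (n - j) ∧ t = a ++ u} = ⋃ j, C j := by
    ext t
    rw [Set.mem_iUnion]
    constructor
    · rintro ⟨_, j, a, u, hj, ha, haP, hu, rfl⟩
      exact ⟨⟨j, Finset.mem_Icc.2 ⟨ha.2.1, hj⟩⟩, a, u, ⟨ha, haP⟩, hu, rfl⟩
    · rintro ⟨⟨j, hj⟩, a, u, ⟨ha, haP⟩, hu, rfl⟩
      have hj' := (Finset.mem_Icc.1 hj).2
      refine ⟨?_, j, a, u, hj', ha, haP, hu, rfl⟩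
      have h1 := Brd_append ha.1 hu
      rwa [Nat.add_sub_of_le hj'] at h1
  have hdisj : ∀ i j, ∀ t, t ∈ C i → t ∈ C j → i = j := by
    rintro ⟨i, hi⟩ ⟨j, hj⟩ t ⟨a, u, ⟨ha, _⟩, hu, rfl⟩ ⟨a', u', ⟨ha', _⟩, hu', h1⟩
    obtain ⟨h2, -⟩ := FC_unique ha ha' hu hu' h1
    rw [h2] at ha
    exact Subtype.ext (Brd_height ha.1 ha'.1)
  have hC : ∀ j, gf (C j) = gf (FC s (j : ℕ) ∩ P) * BT (n - (j : ℕ)) := by
    intro j
    rw [← gf_Brd]
    apply le_antisymm
    · refine gf_le_mul fun t ht => ?_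
      obtain ⟨a, u, ha, hu, hta⟩ := ht
      exact ⟨a, ha, u, hu, hta⟩
    · refine mul_le_gf (fun a ha b hb => ⟨a, b, ha, hb, rfl⟩) fun a ha b hb a' ha' b' hb' hab => ?_
      exact (FC_unique ha.1 ha'.1 hb hb' hab).1
  rw [hset, K1.gf_iUnion C hdisj, tsum_fintype, ← Finset.sum_coe_sort (Finset.Icc s n)]
  exact Finset.sum_congr rfl fun j _ => hC j

end HexObs
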