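import Pool.Agent.PHW.Defs

/-!
PHW, module A6a: mirror images of bridge words.
-/

set_option autoImplicit false

namespace HexObs

open Complex Finset ENNReal

lemma mirror_up : mulE (-1, 1) (conjE up) = up := by decide

lemma mirror_pt (p : Pt) : mulE (-1, 1) (conjE p) = (-p.1, p.1 + p.2) := by
  simp only [mulE, conjE]
  congr 1 <;> ring

/-- the vertices of the mirrored word -/
lemma vx_not (t : List Bool) {i : ℕ} (hi : i ≤ t.length + 1) :
    vx oo up (t.map not) i = (-(vx oo up t i).1, (vx oo up t i).1 + (vx oo up t i).2) := by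
  have h := vx_refl (-1, 1) oo oo up t hi
  rw [mirror_up] at h
  have h0 : ∀ p : Pt, p - oo = p := fun p => sub_zero p
  have h1 : ∀ p : Pt, oo + p = p := fun p => zero_add p
  rw [h, h0, h1, mirror_pt]

lemma dx_not (t : List Bool) {i : ℕ} (hi : i ≤ t.length) :
    dx up (t.map not) i = mulE (-1, 1) (conjE (dx up t i)) := by
  have h := dx_refl (-1, 1) up t hi
  rwa [mirror_up] at h

theorem lev_not (t : List Bool) {i : ℕ} (hi : i ≤ t.length + 1) : lev (t.map not) i = lev t i := by
  unfold lev
  rw [vx_not t hi]
  simp only [ip, up]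
  ring

theorem lat_not (t : List Bool) {i : ℕ} (hi : i ≤ t.length + 1) : lat (t.map not) i = -lat t i := by
  unfold lat
  rw [vx_not t hi]
  simp only [cross, up]
  ring

theorem latE_not (t : List Bool) : latE (t.map not) = -latE t := by
  unfold latE
  rw [List.length_map]
  exact lat_not t (by omega)

theorem lat_cat {s t : List Bool} (hs : dx up s s.length = up) (j : ℕ) :
    lat (s ++ t) (s.length + j) = latE s + lat t j := by
  unfold latE lat
  rw [vx_cat hs]
  simp only [cross, up, Prod.fst_add, Prod.snd_add]
  ring

theorem lat_append {s t : List Bool} {i : ℕ} (h : i ≤ s.length + 1) : lat (s ++ t) i = lat s i := by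
  unfold lat
  rw [vx_append h]

theorem latE_cat {s t : List Bool} (hs : dx up s s.length = up) :
    latE (s ++ t) = latE s + latE t := by
  have := lat_cat (t := t) hs t.length
  unfold latE at this ⊢
  rw [List.length_append]
  exact this

theorem Brd_not {T : ℕ} {t : List Bool} (h : t ∈ Brd T) : t.map not ∈ Brd T := by
  rw [mem_Brd] at h ⊢
  obtain ⟨h1, h2, h3, h4⟩ := h
  rw [List.length_map]
  refine ⟨?_, ?_, ?_, ?_⟩
  · intro i hi hl
    rw [lev_not t (by omega)]
    exact h1 i hi hl
  · intro i k hik hk heq
    rw [vx_not t (by omega), vx_not t (by omega)] at heq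
    apply h2 i k hik hk
    have e1 := congrArg Prod.fst heq
    have e2 := congrArg Prod.snd heq
    simp only at e1 e2
    ext
    · linarith
    · linarith
  · rw [dx_not t le_rfl, h3]
    exact mirror_up
  · rw [lev_not t (by omega)]
    exact h4

theorem Brd_not_iff {T : ℕ} {t : List Bool} : t.map not ∈ Brd T ↔ t ∈ Brd T := by
  constructor
  · intro h
    have := Brd_not h
    rwa [map_not_not] at this
  · exact Brd_not

theorem Irr_not {T : ℕ} {t : List Bool} (h : t ∈ Irr T) : t.map not ∈ Irr T := by
  obtain ⟨h1, h2, h3⟩ := h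
  refine ⟨Brd_not h1, ?_, ?_⟩
  · simpa using h2
  · intro a b s u hs hu hst
    have h4 : t = s.map not ++ u.map not := by
      have := congrArg (List.map not) hst
      rwa [map_not_not, List.map_append] at this
    rcases h3 a b _ _ (Brd_not hs) (Brd_not hu) h4 with h5 | h5
    · left
      simpa using h5
    · right
      simpa using h5

theorem Irr_not_iff {T : ℕ} {t : List Bool} : t.map not ∈ Irr T ↔ t ∈ Irr T := by
  constructor
  · intro h
    have := Irr_not h
    rwa [map_not_not] at this
  · exact Irr_not

theorem Cut_not {c : ℕ} {t : List Bool} (h : Cut t c) : Cut (t.map not) c := by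
  obtain ⟨s, u, b, hs, hu, rfl⟩ := h
  exact ⟨s.map not, u.map not, b, Brd_not hs, Brd_not hu, List.map_append⟩

theorem Cut_not_iff {c : ℕ} {t : List Bool} : Cut (t.map not) c ↔ Cut t c := by
  constructor
  · intro h
    have := Cut_not h
    rwa [map_not_not] at this
  · exact Cut_not

end HexObs
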