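import Pool.Agent.PHW.DefsF
import Pool.Agent.PHW7.Defs7
import Pool.Agent.HexWall.FlatF

/-!
PHW: masses of the giants for which the gain factors of the fold lemma are bad (inputs Hin, Hout of section S8).
-/

set_option autoImplicit false

namespace HexObs

open Complex Finset ENNReal

namespace Fld

/-- scales which are flat and not flat -/
lemma nfl_add (A : ℕ) (P : List Bool) (b a : ℕ) : nfl A P b a + Wall.nflat A P (b + 1) a = a - b := by
  classical
  have e : Finset.Icc (b + 1) a = Finset.Ioc b a := by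
    ext k
    rw [Finset.mem_Icc, Finset.mem_Ioc]
    omega
  unfold nfl Wall.nflat
  rw [e, add_comm]
  have h := Finset.card_filter_add_card_filter_not (s := Finset.Ioc b a) (fun k => Wall.Flat 8 A P k)
  rw [Nat.card_Ioc] at h
  exact h

lemma nfl_mono {A : ℕ} {P : List Bool} {b b' a a' : ℕ} (hb : b' ≤ b) (ha : a ≤ a') : nfl A P b a ≤ nfl A P b' a' := by
  classical
  unfold nfl
  apply Finset.card_le_card
  intro k hk
  rw [Finset.mem_filter, Finset.mem_Ioc] at hk ⊢
  exact ⟨⟨by omega, by omega⟩, hk.2⟩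

lemma fin_le_one {ε : ℝ} (h0 : 0 ≤ ε) (h1 : ε ≤ 1) (A b a : ℕ) (P : List Bool) : fin ε A b a P ≤ 1 :=
  pow_le_one₀ (by linarith) (by linarith)

lemma fout_le_one {ε : ℝ} (h0 : 0 ≤ ε) (h1 : ε ≤ 1) (A T b a : ℕ) (P : List Bool) : fout ε A T b a P ≤ 1 :=
  pow_le_one₀ (by linarith) (by linarith)

lemma fin_anti {ε : ℝ} (h0 : 0 ≤ ε) (h1 : ε ≤ 1) {A b b' a : ℕ} (P : List Bool) (hb : b' ≤ b) :
    fin ε A b a P ≤ fin ε A b' a P := by
  unfold fin
  apply pow_le_pow_of_le_one (by linarith) (by linarith)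
  exact min_le_min (nfl_mono le_rfl hb) (nfl_mono le_rfl hb)

lemma fout_anti {ε : ℝ} (h0 : 0 ≤ ε) (h1 : ε ≤ 1) {A T b a a' : ℕ} (P : List Bool) (ha : a' ≤ a) :
    fout ε A T b a P ≤ fout ε A T b a' P := by
  unfold fout
  apply pow_le_pow_of_le_one (by linarith) (by linarith)
  exact min_le_min (nfl_mono le_rfl ha) (nfl_mono le_rfl ha)

/-- larger A: more gain is lost -/
lemma nfl_anti {A A' : ℕ} {P : List Bool} {b a : ℕ} (h : A ≤ A') : nfl A P b a ≤ nfl A' P b a := by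
  classical
  unfold nfl
  apply Finset.card_le_card
  intro k hk
  rw [Finset.mem_filter] at hk ⊢
  exact ⟨hk.1, fun hf => hk.2 (Wall.flat_anti h hf)⟩

/-- splitting the mass -/
lemma mass_split (r : ℕ) (Φ : List Bool → ℝ≥0∞) (B : List Bool → Prop) (x : ℝ≥0∞) (h1 : ∀ P, Φ P ≤ 1)
    (hx : ∀ P ∈ Irr r, ¬ B P → Φ P ≤ x) :
    ∑' P : {P : List Bool // P ∈ Irr r}, wE P.1 * Φ P.1 ≤ x * gf (Irr r) + gf {P | P ∈ Irr r ∧ B P} := by
  classical
  have e1 : ∑' P : {P : List Bool // P ∈ Irr r}, wE P.1 * Φ P.1 =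
      ∑' P : List Bool, (Irr r).indicator (fun P => wE P * Φ P) P :=
    tsum_subtype (Irr r) (fun P => wE P * Φ P)
  rw [e1, Wall.gf_eq_tsum, Wall.gf_eq_tsum, ← ENNReal.tsum_mul_left, ← ENNReal.tsum_add]
  apply ENNReal.tsum_le_tsum
  intro P
  by_cases hP : P ∈ Irr r
  · rw [Set.indicator_of_mem hP, Set.indicator_of_mem hP]
    by_cases hB : B P
    · have h2 : P ∈ {P | P ∈ Irr r ∧ B P} := ⟨hP, hB⟩
      rw [Set.indicator_of_mem h2]
      calc wE P * Φ P ≤ wE P * 1 := by gcongr; exact h1 P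
        _ = wE P := mul_one _
        _ ≤ x * wE P + wE P := le_add_self
    · calc wE P * Φ P ≤ wE P * x := by gcongr; exact hx P hP hB
        _ = x * wE P := mul_comm _ _
        _ ≤ _ := le_self_add
  · rw [Set.indicator_of_notMem hP]
    exact zero_le

/-- flatness of a prefix: if the rest of the word is above the layer 2 ^ j -/
lemma clr_take {P : List Bool} {n y : ℕ} {w : ℤ} (h : ∀ i, n < i → i ≤ P.length → 3 * (y : ℤ) < lev P i) :
    Wall.Clr (P.take n) y w ↔ Wall.Clr P y w := by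
  have hl : ∀ i, i ≤ (P.take n).length → lev (P.take n) i = lev P i ∧ lat (P.take n) i = lat P i := by
    intro i hi
    have e : P.take n ++ P.drop n = P := List.take_append_drop n P
    constructor
    · conv_rhs => rw [← e]
      rw [lev_append (by omega)]
    · conv_rhs => rw [← e]
      rw [lat_append (by omega)]
  constructor
  · intro hc i hi hlev
    by_cases hin : i ≤ n
    · have h1 : i ≤ (P.take n).length := by
        rw [List.length_take]
        omega
      have h2 := hc i h1 (by rw [(hl i h1).1]; exact hlev)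
      rwa [(hl i h1).2] at h2
    · have := h i (by omega) hi
      omega
  · intro hc i hi hlev
    have h1 : i ≤ P.length := by
      rw [List.length_take] at hi
      omega
    rw [(hl i hi).1] at hlev
    rw [(hl i hi).2]
    exact hc i h1 hlev

lemma flat_take {P : List Bool} {n j k A : ℕ} (h : ∀ i, n < i → i ≤ P.length → 3 * (2 ^ j : ℤ) < lev P i) (hk : k ≤ j) :
    Wall.Flat 8 A (P.take n) k ↔ Wall.Flat 8 A P k := by
  have e : Wall.nvis (P.take n) k (A * 2 ^ k) = Wall.nvis P k (A * 2 ^ k) := by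
    classical
    unfold Wall.nvis
    congr 1
    apply Finset.filter_congr
    intro y hy
    rw [Finset.mem_Ioc] at hy
    rw [clr_take]
    intro i hi hl
    have h1 := h i hi hl
    have h2 : y ≤ 2 ^ j := hy.2.trans (Nat.pow_le_pow_right (by norm_num) hk)
    have h3 : (y : ℤ) ≤ 2 ^ j := by exact_mod_cast h2
    linarith
  unfold Wall.Flat
  rw [e]

lemma nfl_take {P : List Bool} {n j b a A : ℕ} (h : ∀ i, n < i → i ≤ P.length → 3 * (2 ^ j : ℤ) < lev P i)
    (ha : a ≤ j) : nfl A (P.take n) b a = nfl A P b a := by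
  classical
  unfold nfl
  congr 1
  apply Finset.filter_congr
  intro k hk
  rw [Finset.mem_Ioc] at hk
  rw [flat_take h (by omega)]

lemma nfl_take_not {P : List Bool} {n j b a A : ℕ} (h : ∀ i, n < i → i ≤ P.length → 3 * (2 ^ j : ℤ) < lev P i)
    (ha : a ≤ j) : nfl A ((P.take n).map not) b a = nfl A (P.map not) b a := by
  have e : (P.take n).map not = (P.map not).take n := List.map_take
  rw [e]
  refine nfl_take (j := j) ?_ ha
  intro i hi hl
  rw [List.length_map] at hl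
  rw [lev_not P (by omega)]
  exact h i hi hl

/-- without a return the word is high after its prefix -/
lemma pre_high {P : List Bool} {m k0 : ℕ} (h : ¬ Ret (2 ^ k0) m P) (hm : 2 ^ k0 < m) :
    ∀ i, fv m P - 1 < i → i ≤ P.length → 3 * (2 ^ k0 : ℤ) < lev P i := by
  intro i hi hl
  have hne : ({i | P.length < i ∨ 3 * (m : ℤ) ≤ lev P i} : Set ℕ).Nonempty := ⟨P.length + 1, Or.inl (by omega)⟩
  have hmem : P.length < fv m P ∨ 3 * (m : ℤ) ≤ lev P (fv m P) := Nat.sInf_mem hne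
  have hle : fv m P ≤ i := by omega
  have hlev : 3 * (m : ℤ) ≤ lev P (fv m P) := by
    rcases hmem with h1 | h1
    · omega
    · exact h1
  have hm' : (2 ^ k0 : ℤ) < m := by exact_mod_cast hm
  rcases Nat.eq_or_lt_of_le hle with h2 | h2
  · rw [← h2]
    linarith
  · by_contra hcon
    push Not at hcon
    refine h ⟨fv m P, i, h2, hl, hlev, ?_⟩
    push_cast
    exact hcon

lemma nfl_pre {A m k0 : ℕ} {P : List Bool} (h : ¬ Ret (2 ^ k0) m P) (hm : 2 ^ k0 < m) {b a : ℕ} (ha : a ≤ k0) :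
    nfl A (pre m P) b a = nfl A P b a := nfl_take (pre_high h hm) ha

lemma nfl_pre_not {A m k0 : ℕ} {P : List Bool} (h : ¬ Ret (2 ^ k0) m P) (hm : 2 ^ k0 < m) {b a : ℕ} (ha : a ≤ k0) :
    nfl A ((pre m P).map not) b a = nfl A (P.map not) b a := nfl_take_not (pre_high h hm) ha

lemma flat_pre {A m k0 : ℕ} {P : List Bool} (h : ¬ Ret (2 ^ k0) m P) (hm : 2 ^ k0 < m) {k : ℕ} (hk : k ≤ k0) :
    Wall.Flat 8 A (pre m P) k ↔ Wall.Flat 8 A P k := flat_take (pre_high h hm) hk

/-- (1 - ε) ^ h as a power of its square root -/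
lemma pow_half {q : ℝ} (h0 : 0 ≤ q) (h1 : q ≤ 1) {n h : ℕ} (hn : n ≤ 2 * h) : q ^ h ≤ (Real.sqrt q) ^ n := by
  have e : q ^ h = (Real.sqrt q) ^ (2 * h) := by
    rw [pow_mul, Real.sq_sqrt h0]
  rw [e]
  exact pow_le_pow_of_le_one (Real.sqrt_nonneg _) (Real.sqrt_le_one.2 h1) hn

lemma tail_pow (l N : ℕ) : ∑ r ∈ Finset.Ico (2 ^ l) N, gf (Irr r) ≤ ENNReal.ofReal (2 / UU (2 ^ l)) := by
  obtain ⟨s, hs⟩ : ∃ s : ℕ, 2 ^ l = s + 1 := by
    have h1 : 1 ≤ 2 ^ l := Nat.one_le_two_pow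
    exact ⟨2 ^ l - 1, by omega⟩
  have hUl := Num2Aux.UU_pos (2 ^ l)
  have hUs := Num2Aux.UU_pos s
  have hU2 : UU (2 ^ l) ≤ 2 * UU s := by rw [hs]; exact Wall.UU_pred
  have h := Wall.tail_triv s N
  rw [← hs] at h
  refine h.trans (ENNReal.ofReal_le_ofReal ?_)
  rw [div_le_div_iff₀ hUs hUl]
  linarith

/-- bad giants in one of the forms -/
def BadF (m A a b : ℕ) (u v w : Bool) (P : List Bool) : Prop :=
  b - a ≤ m * Wall.nflat A (Wall.sy u w P) (a + 1) b ∨ b - a ≤ m * Wall.nflat A (Wall.sy v w P) (a + 1) b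

lemma gf_BadF (m A a b r : ℕ) (u v w : Bool) : gf {P | P ∈ Irr r ∧ BadF m A a b u v w P} ≤
    gf (Wall.FS u w m A (a + 1) b r) + gf (Wall.FS v w m A (a + 1) b r) := by
  refine (gf_mono ?_).trans (gf_union_le _ _)
  rintro P ⟨hP, h | h⟩
  · exact Or.inl ⟨hP, by omega⟩
  · exact Or.inr ⟨hP, by omega⟩

/-- (Hin): masses of the giants with the gain of the lower strand -/
theorem hin : ∃ A0 : ℕ, ∀ ε : ℝ, 0 < ε → ε < 1 → ∃ C ρ : ℝ, 0 < C ∧ 0 < ρ ∧ ρ < 1 ∧
    ∀ A a b l N : ℕ, A0 ≤ A → a ≤ b → b ≤ l →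
      ∑ r ∈ Finset.Ico (2 ^ l) N, ∑' P : {P : List Bool // P ∈ Irr r}, wE P.1 * ENNReal.ofReal (fin ε A b a P.1) ≤
        ENNReal.ofReal (C / UU (2 ^ l) * 2 ^ (l - b) * ρ ^ (b - a)) := by
  obtain ⟨A0, C1, hC1, h1⟩ := Wall.flat_log 2 (ε := 1 / 2) (by norm_num)
  refine ⟨A0, fun ε hε0 hε1 => ?_⟩
  obtain ⟨q, hq⟩ : ∃ q : ℝ, q = 1 - ε := ⟨_, rfl⟩
  have hq0 : 0 < q := by linarith
  have hq1 : q < 1 := by linarith
  have hs0 : 0 < Real.sqrt q := Real.sqrt_pos.2 hq0
  have hs1 : Real.sqrt q < 1 := by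
    rw [Real.sqrt_lt' one_pos]
    linarith
  refine ⟨2 + 2 * C1, max (Real.sqrt q) (1 / 2), by positivity, lt_max_of_lt_left hs0, max_lt hs1 (by norm_num), ?_⟩
  intro A a b l N hA hab hbl
  obtain ⟨ρ, hρ⟩ : ∃ ρ : ℝ, ρ = max (Real.sqrt q) (1 / 2) := ⟨_, rfl⟩
  rw [← hρ]
  have hρs : Real.sqrt q ≤ ρ := by rw [hρ]; exact le_max_left _ _
  have hρ2 : 1 / 2 ≤ ρ := by rw [hρ]; exact le_max_right _ _
  have hU := Num2Aux.UU_pos (2 ^ l)
  have h2l : (1 : ℝ) ≤ 2 ^ (l - b) := one_le_pow₀ (by norm_num)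
  -- good giants
  have hgood : ∀ P, ¬ BadF 2 A a b false true false P → fin ε A b a P ≤ (Real.sqrt q) ^ (b - a) := by
    intro P hP
    unfold BadF at hP
    push Not at hP
    obtain ⟨g1, g2⟩ := hP
    rw [Wall.sy_ff] at g1
    rw [Wall.sy_tf] at g2
    have e1 := nfl_add A P a b
    have e2 := nfl_add A (P.map not) a b
    unfold fin
    rw [← hq]
    apply pow_half hq0.le hq1.le
    rcases le_total (nfl A P a b) (nfl A (P.map not) a b) with h | h
    · rw [min_eq_left h]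
      omega
    · rw [min_eq_right h]
      omega
  have hstep : ∀ r, ∑' P : {P : List Bool // P ∈ Irr r}, wE P.1 * ENNReal.ofReal (fin ε A b a P.1) ≤
      ENNReal.ofReal ((Real.sqrt q) ^ (b - a)) * gf (Irr r) +
        (gf (Wall.FS false false 2 A (a + 1) b r) + gf (Wall.FS true false 2 A (a + 1) b r)) := by
    intro r
    refine (mass_split r (fun P => ENNReal.ofReal (fin ε A b a P)) (BadF 2 A a b false true false)
      (ENNReal.ofReal ((Real.sqrt q) ^ (b - a))) ?_ ?_).trans ?_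
    · intro P
      rw [ENNReal.ofReal_le_one]
      exact fin_le_one hε0.le hε1.le A b a P
    · intro P _ hP
      exact ENNReal.ofReal_le_ofReal (hgood P hP)
    · gcongr
      exact gf_BadF 2 A a b r false true false
  have hflat : ∀ u : Bool, ∑ r ∈ Finset.Ico (2 ^ l) N, gf (Wall.FS u false 2 A (a + 1) b r) ≤
      ENNReal.ofReal (C1 / UU (2 ^ l) * 2 ^ (l - b) * ρ ^ (b - a)) := by
    intro u
    refine (h1 u false A (a + 1) b l N hA hbl).trans (ENNReal.ofReal_le_ofReal ?_)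
    rw [show b + 1 - (a + 1) = b - a by omega]
    gcongr
  calc ∑ r ∈ Finset.Ico (2 ^ l) N, ∑' P : {P : List Bool // P ∈ Irr r}, wE P.1 * ENNReal.ofReal (fin ε A b a P.1)
      ≤ ∑ r ∈ Finset.Ico (2 ^ l) N, (ENNReal.ofReal ((Real.sqrt q) ^ (b - a)) * gf (Irr r) +
        (gf (Wall.FS false false 2 A (a + 1) b r) + gf (Wall.FS true false 2 A (a + 1) b r))) :=
        Finset.sum_le_sum fun r _ => hstep r
    _ = ENNReal.ofReal ((Real.sqrt q) ^ (b - a)) * ∑ r ∈ Finset.Ico (2 ^ l) N, gf (Irr r) +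
        (∑ r ∈ Finset.Ico (2 ^ l) N, gf (Wall.FS false false 2 A (a + 1) b r) +
          ∑ r ∈ Finset.Ico (2 ^ l) N, gf (Wall.FS true false 2 A (a + 1) b r)) := by
        rw [Finset.sum_add_distrib, Finset.sum_add_distrib, Finset.mul_sum]
    _ ≤ ENNReal.ofReal ((Real.sqrt q) ^ (b - a)) * ENNReal.ofReal (2 / UU (2 ^ l)) +
        (ENNReal.ofReal (C1 / UU (2 ^ l) * 2 ^ (l - b) * ρ ^ (b - a)) +
          ENNReal.ofReal (C1 / UU (2 ^ l) * 2 ^ (l - b) * ρ ^ (b - a))) := by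
        gcongr
        · exact tail_pow l N
        · exact hflat false
        · exact hflat true
    _ ≤ ENNReal.ofReal ((2 + 2 * C1) / UU (2 ^ l) * 2 ^ (l - b) * ρ ^ (b - a)) := by
        have hρ0 : 0 < ρ := by linarith
        rw [← ENNReal.ofReal_mul (by positivity), ← ENNReal.ofReal_add (by positivity) (by positivity),
          ← ENNReal.ofReal_add (by positivity) (by positivity)]
        apply ENNReal.ofReal_le_ofReal
        have g1 : (Real.sqrt q) ^ (b - a) * (2 / UU (2 ^ l)) ≤ 2 / UU (2 ^ l) * 2 ^ (l - b) * ρ ^ (b - a) := by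
          calc (Real.sqrt q) ^ (b - a) * (2 / UU (2 ^ l)) ≤ ρ ^ (b - a) * (2 / UU (2 ^ l) * 2 ^ (l - b)) := by
                gcongr
                exact le_mul_of_one_le_right (by positivity) h2l
            _ = _ := by ring
        calc _ ≤ 2 / UU (2 ^ l) * 2 ^ (l - b) * ρ ^ (b - a) + (C1 / UU (2 ^ l) * 2 ^ (l - b) * ρ ^ (b - a) +
              C1 / UU (2 ^ l) * 2 ^ (l - b) * ρ ^ (b - a)) := by linarith
          _ = _ := by ring

/-- (Hout): masses of the giants with the gain of the taller strand; (DR) is the output of section S7 -/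
theorem hout {C0 c : ℝ} (hC0 : 0 < C0) (hc : 0 < c) (hDR : ∀ y τ R : ℕ, 1 ≤ y → y ≤ τ →
      ∑ r ∈ Finset.range R, KR y τ r ≤ ENNReal.ofReal (C0 / UU τ * ((y : ℝ) / τ) ^ c)) :
    ∃ A0 : ℕ, ∀ ε : ℝ, 0 < ε → ε < 1 → ∃ C ρ : ℝ, 0 < C ∧ 0 < ρ ∧ ρ < 1 ∧
    ∀ A T a b l N : ℕ, A0 ≤ A → b ≤ a → a ≤ l → 2 ^ (a + 1) ≤ T →
      ∑ r ∈ Finset.Ico (2 ^ l) N, ∑' P : {P : List Bool // P ∈ Irr r}, wE P.1 * ENNReal.ofReal (fout ε A T b a P.1) ≤
        ENNReal.ofReal (C / UU (2 ^ l) * 2 ^ (l - a) * ρ ^ (a - b)) := by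
  obtain ⟨A0, C1, hC1, h1⟩ := Wall.flat_log 4 (ε := 1 / 2) (by norm_num)
  refine ⟨A0, fun ε hε0 hε1 => ?_⟩
  obtain ⟨q, hq⟩ : ∃ q : ℝ, q = 1 - ε := ⟨_, rfl⟩
  have hq0 : 0 < q := by linarith
  have hq1 : q < 1 := by linarith
  have hs0 : 0 < Real.sqrt q := Real.sqrt_pos.2 hq0
  have hs1 : Real.sqrt q < 1 := by
    rw [Real.sqrt_lt' one_pos]
    linarith
  -- the rate of the returns
  obtain ⟨τ, hτ⟩ : ∃ τ : ℝ, τ = (2 : ℝ) ^ (-(c / 4)) := ⟨_, rfl⟩
  have hτ0 : 0 < τ := by rw [hτ]; positivity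
  have hτ1 : τ < 1 := by
    rw [hτ]
    exact Real.rpow_lt_one_of_one_lt_of_neg (by norm_num) (by linarith)
  obtain ⟨ρ, hρ⟩ : ∃ ρ : ℝ, ρ = max (max (Real.sqrt q) (1 / 2)) τ := ⟨_, rfl⟩
  have hρs : Real.sqrt q ≤ ρ := by rw [hρ]; exact (le_max_left _ _).trans (le_max_left _ _)
  have hρ2 : 1 / 2 ≤ ρ := by rw [hρ]; exact (le_max_right _ _).trans (le_max_left _ _)
  have hρτ : τ ≤ ρ := by rw [hρ]; exact le_max_right _ _
  have hρ1 : ρ < 1 := by rw [hρ]; exact max_lt (max_lt hs1 (by norm_num)) hτ1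
  have hρ0 : 0 < ρ := by linarith
  obtain ⟨C, hC⟩ : ∃ C : ℝ, C = 2 / ρ ^ 4 + 2 * C1 + C0 / τ ^ 4 := ⟨_, rfl⟩
  have hC2 : 0 < 2 / ρ ^ 4 := by positivity
  have hC3 : 0 < C0 / τ ^ 4 := by positivity
  have hC4 : 2 ≤ 2 / ρ ^ 4 := by
    rw [le_div_iff₀ (by positivity)]
    have : ρ ^ 4 ≤ 1 := pow_le_one₀ hρ0.le hρ1.le
    linarith
  refine ⟨C, ρ, by rw [hC]; linarith, hρ0, hρ1, ?_⟩
  intro A T a b l N hA hba hal hT
  have hU := Num2Aux.UU_pos (2 ^ l)
  have h2l : (1 : ℝ) ≤ 2 ^ (l - a) := one_le_pow₀ (by norm_num)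
  rcases Nat.lt_or_ge (a - b) 4 with hn | hn
  · -- few scales
    calc ∑ r ∈ Finset.Ico (2 ^ l) N, ∑' P : {P : List Bool // P ∈ Irr r}, wE P.1 * ENNReal.ofReal (fout ε A T b a P.1)
        ≤ ∑ r ∈ Finset.Ico (2 ^ l) N, gf (Irr r) := by
          apply Finset.sum_le_sum
          intro r _
          unfold gf
          apply ENNReal.tsum_le_tsum
          intro P
          calc wE P.1 * ENNReal.ofReal (fout ε A T b a P.1) ≤ wE P.1 * 1 := by
                gcongr
                rw [ENNReal.ofReal_le_one]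
                exact fout_le_one hε0.le hε1.le A T b a P.1
            _ = _ := mul_one _
      _ ≤ ENNReal.ofReal (2 / UU (2 ^ l)) := tail_pow l N
      _ ≤ _ := by
          apply ENNReal.ofReal_le_ofReal
          have g1 : 2 ≤ C * ρ ^ (a - b) := by
            calc (2 : ℝ) = 2 / ρ ^ 4 * ρ ^ 4 := by field_simp
              _ ≤ C * ρ ^ (a - b) := by
                  have g2 : ρ ^ 4 ≤ ρ ^ (a - b) := pow_le_pow_of_le_one hρ0.le hρ1.le hn.le
                  have g3 : 2 / ρ ^ 4 ≤ C := by rw [hC]; linarith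
                  gcongr
                  linarith
          calc 2 / UU (2 ^ l) ≤ C * ρ ^ (a - b) / UU (2 ^ l) := by gcongr
            _ ≤ C * ρ ^ (a - b) / UU (2 ^ l) * 2 ^ (l - a) := by
                apply le_mul_of_one_le_right _ h2l
                have : 0 ≤ C * ρ ^ (a - b) := by linarith
                positivity
            _ = _ := by ring
  · obtain ⟨n, hn'⟩ : ∃ n, n = a - b := ⟨_, rfl⟩
    obtain ⟨j, hj⟩ : ∃ j, j = a - n / 4 := ⟨_, rfl⟩
    have h2a : 2 ^ a ≤ T / 2 := by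
      rw [pow_succ] at hT
      omega
    have hja : 2 ^ j < T / 2 := by
      have : 2 ^ j < 2 ^ a := Nat.pow_lt_pow_right (by norm_num) (by omega)
      omega
    -- good giants
    have hgood : ∀ P, ¬ (BadF 4 A b a false true true P ∨ Ret (2 ^ j) (T / 2) (rev P)) →
        fout ε A T b a P ≤ (Real.sqrt q) ^ (a - b) := by
      intro P hP
      push Not at hP
      obtain ⟨hP1, hP2⟩ := hP
      unfold BadF at hP1
      push Not at hP1
      obtain ⟨g1, g2⟩ := hP1
      rw [Wall.sy_ft] at g1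
      rw [Wall.sy_tt] at g2
      have e1 := nfl_add A (rev P) b j
      have e2 := nfl_add A ((rev P).map not) b j
      have f1 : Wall.nflat A (rev P) (b + 1) j ≤ Wall.nflat A (rev P) (b + 1) a := by
        classical
        unfold Wall.nflat
        apply Finset.card_le_card
        intro k hk
        rw [Finset.mem_filter, Finset.mem_Icc] at hk ⊢
        exact ⟨⟨hk.1.1, by omega⟩, hk.2⟩
      have f2 : Wall.nflat A ((rev P).map not) (b + 1) j ≤ Wall.nflat A ((rev P).map not) (b + 1) a := by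
        classical
        unfold Wall.nflat
        apply Finset.card_le_card
        intro k hk
        rw [Finset.mem_filter, Finset.mem_Icc] at hk ⊢
        exact ⟨⟨hk.1.1, by omega⟩, hk.2⟩
      have p1 := nfl_pre (A := A) hP2 hja (b := b) (a := j) le_rfl
      have p2 := nfl_pre_not (A := A) hP2 hja (b := b) (a := j) le_rfl
      have m1 := nfl_mono (A := A) (P := pre (T / 2) (rev P)) (b := b) (b' := b) (a := j) (a' := a) le_rfl (by omega)
      have m2 := nfl_mono (A := A) (P := (pre (T / 2) (rev P)).map not) (b := b) (b' := b) (a := j) (a' := a) le_rfl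
        (by omega)
      unfold fout
      rw [← hq]
      apply pow_half hq0.le hq1.le
      rcases le_total (nfl A (pre (T / 2) (rev P)) b a) (nfl A ((pre (T / 2) (rev P)).map not) b a) with h | h
      · rw [min_eq_left h]
        omega
      · rw [min_eq_right h]
        omega
    have hstep : ∀ r, ∑' P : {P : List Bool // P ∈ Irr r}, wE P.1 * ENNReal.ofReal (fout ε A T b a P.1) ≤
        ENNReal.ofReal ((Real.sqrt q) ^ (a - b)) * gf (Irr r) +
          ((gf (Wall.FS false true 4 A (b + 1) a r) + gf (Wall.FS true true 4 A (b + 1) a r)) +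
            KR (2 ^ j) (T / 2) r) := by
      intro r
      refine (mass_split r (fun P => ENNReal.ofReal (fout ε A T b a P))
        (fun P => BadF 4 A b a false true true P ∨ Ret (2 ^ j) (T / 2) (rev P))
        (ENNReal.ofReal ((Real.sqrt q) ^ (a - b))) ?_ ?_).trans ?_
      · intro P
        rw [ENNReal.ofReal_le_one]
        exact fout_le_one hε0.le hε1.le A T b a P
      · intro P _ hP
        exact ENNReal.ofReal_le_ofReal (hgood P hP)
      · have e3 : {P | P ∈ Irr r ∧ (BadF 4 A b a false true true P ∨ Ret (2 ^ j) (T / 2) (rev P))} ⊆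
            {P | P ∈ Irr r ∧ BadF 4 A b a false true true P} ∪ {P | P ∈ Irr r ∧ Ret (2 ^ j) (T / 2) (rev P)} := by
          rintro P ⟨hP, h | h⟩
          · exact Or.inl ⟨hP, h⟩
          · exact Or.inr ⟨hP, h⟩
        have e4 : gf {P | P ∈ Irr r ∧ Ret (2 ^ j) (T / 2) (rev P)} = KR (2 ^ j) (T / 2) r :=
          Wall.gf_Irr_rev r (fun P => Ret (2 ^ j) (T / 2) P)
        gcongr
        refine (gf_mono e3).trans ((gf_union_le _ _).trans ?_)
        rw [e4]
        gcongr
        exact gf_BadF 4 A b a r false true true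
    have hflat : ∀ u : Bool, ∑ r ∈ Finset.Ico (2 ^ l) N, gf (Wall.FS u true 4 A (b + 1) a r) ≤
        ENNReal.ofReal (C1 / UU (2 ^ l) * 2 ^ (l - a) * ρ ^ (a - b)) := by
      intro u
      refine (h1 u true A (b + 1) a l N hA hal).trans (ENNReal.ofReal_le_ofReal ?_)
      rw [show a + 1 - (b + 1) = a - b by omega]
      gcongr
    have hret : ∑ r ∈ Finset.Ico (2 ^ l) N, KR (2 ^ j) (T / 2) r ≤
        ENNReal.ofReal (C0 / τ ^ 4 / UU (2 ^ l) * 2 ^ (l - a) * ρ ^ (a - b)) := by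
      have g0 : ∑ r ∈ Finset.Ico (2 ^ l) N, KR (2 ^ j) (T / 2) r ≤ ∑ r ∈ Finset.range N, KR (2 ^ j) (T / 2) r := by
        apply Finset.sum_le_sum_of_subset
        intro r hr
        rw [Finset.mem_Ico] at hr
        rw [Finset.mem_range]
        exact hr.2
      refine (g0.trans (hDR (2 ^ j) (T / 2) N Nat.one_le_two_pow hja.le)).trans (ENNReal.ofReal_le_ofReal ?_)
      have hUT := Num2Aux.UU_pos (T / 2)
      have hUa := Num2Aux.UU_pos (2 ^ a)
      -- the volume
      have g1 : ∀ i : ℕ, UU (2 ^ (a + i)) ≤ 2 ^ i * UU (2 ^ a) := by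
        intro i
        induction i with
        | zero => simp
        | succ i ih =>
          have := UU_double (2 ^ (a + i))
          rw [show a + (i + 1) = (a + i) + 1 by omega, pow_succ 2 (a + i), mul_comm (2 ^ (a + i)) 2]
          calc UU (2 * 2 ^ (a + i)) ≤ 2 * UU (2 ^ (a + i)) := this
            _ ≤ 2 * (2 ^ i * UU (2 ^ a)) := by gcongr
            _ = 2 ^ (i + 1) * UU (2 ^ a) := by ring
      have g2 : UU (2 ^ l) ≤ 2 ^ (l - a) * UU (T / 2) := by
        have h3 := g1 (l - a)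
        rw [show a + (l - a) = l by omega] at h3
        refine h3.trans ?_
        gcongr
        exact Num2Aux.UU_mono h2a
      have g3 : 1 / UU (T / 2) ≤ 2 ^ (l - a) / UU (2 ^ l) := by
        rw [div_le_div_iff₀ hUT hU]
        linarith
      -- the gain
      have g4 : (((2 ^ j : ℕ) : ℝ) / ((T / 2 : ℕ) : ℝ)) ^ c ≤ ρ ^ (a - b) / τ ^ 4 := by
        have hT0 : (0 : ℝ) < ((T / 2 : ℕ) : ℝ) := by
          have : 0 < T / 2 := by
            have : 0 < 2 ^ a := by positivity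
            omega
          exact_mod_cast this
        have e5 : ((2 ^ j : ℕ) : ℝ) / ((T / 2 : ℕ) : ℝ) ≤ (2 : ℝ) ^ (-((n / 4 : ℕ) : ℝ)) := by
          rw [div_le_iff₀ hT0, Real.rpow_neg (by norm_num), Real.rpow_natCast, inv_mul_eq_div,
            le_div_iff₀ (by positivity)]
          have e6 : 2 ^ j * 2 ^ (n / 4) ≤ T / 2 := by
            rw [← pow_add]
            refine le_trans (le_of_eq ?_) h2a
            congr 1
            omega
          exact_mod_cast e6
        calc (((2 ^ j : ℕ) : ℝ) / ((T / 2 : ℕ) : ℝ)) ^ c ≤ ((2 : ℝ) ^ (-((n / 4 : ℕ) : ℝ))) ^ c := by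
              apply Real.rpow_le_rpow (by positivity) e5 hc.le
          _ = τ ^ (4 * (n / 4)) := by
              rw [hτ, ← Real.rpow_natCast ((2 : ℝ) ^ (-(c / 4))), ← Real.rpow_mul (by norm_num),
                ← Real.rpow_mul (by norm_num)]
              congr 1
              push_cast
              ring
          _ ≤ ρ ^ (a - b) / τ ^ 4 := by
              rw [le_div_iff₀ (by positivity), ← pow_add, ← hn']
              calc τ ^ (4 * (n / 4) + 4) ≤ τ ^ n := pow_le_pow_of_le_one hτ0.le hτ1.le (by omega)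
                _ ≤ ρ ^ n := by gcongr
      calc C0 / UU (T / 2) * (((2 ^ j : ℕ) : ℝ) / ((T / 2 : ℕ) : ℝ)) ^ c
          = C0 * (1 / UU (T / 2)) * (((2 ^ j : ℕ) : ℝ) / ((T / 2 : ℕ) : ℝ)) ^ c := by ring
        _ ≤ C0 * (2 ^ (l - a) / UU (2 ^ l)) * (ρ ^ (a - b) / τ ^ 4) := by gcongr
        _ = _ := by
            field_simp
    calc ∑ r ∈ Finset.Ico (2 ^ l) N, ∑' P : {P : List Bool // P ∈ Irr r}, wE P.1 * ENNReal.ofReal (fout ε A T b a P.1)
        ≤ ∑ r ∈ Finset.Ico (2 ^ l) N, (ENNReal.ofReal ((Real.sqrt q) ^ (a - b)) * gf (Irr r) +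
          ((gf (Wall.FS false true 4 A (b + 1) a r) + gf (Wall.FS true true 4 A (b + 1) a r)) +
            KR (2 ^ j) (T / 2) r)) := Finset.sum_le_sum fun r _ => hstep r
      _ = ENNReal.ofReal ((Real.sqrt q) ^ (a - b)) * ∑ r ∈ Finset.Ico (2 ^ l) N, gf (Irr r) +
          ((∑ r ∈ Finset.Ico (2 ^ l) N, gf (Wall.FS false true 4 A (b + 1) a r) +
            ∑ r ∈ Finset.Ico (2 ^ l) N, gf (Wall.FS true true 4 A (b + 1) a r)) +
            ∑ r ∈ Finset.Ico (2 ^ l) N, KR (2 ^ j) (T / 2) r) := by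
          rw [Finset.sum_add_distrib, Finset.sum_add_distrib, Finset.sum_add_distrib, Finset.mul_sum]
      _ ≤ ENNReal.ofReal ((Real.sqrt q) ^ (a - b)) * ENNReal.ofReal (2 / UU (2 ^ l)) +
          ((ENNReal.ofReal (C1 / UU (2 ^ l) * 2 ^ (l - a) * ρ ^ (a - b)) +
            ENNReal.ofReal (C1 / UU (2 ^ l) * 2 ^ (l - a) * ρ ^ (a - b))) +
            ENNReal.ofReal (C0 / τ ^ 4 / UU (2 ^ l) * 2 ^ (l - a) * ρ ^ (a - b))) := by
          gcongr
          · exact tail_pow l N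
          · exact hflat false
          · exact hflat true
      _ ≤ _ := by
          rw [← ENNReal.ofReal_mul (by positivity), ← ENNReal.ofReal_add (by positivity) (by positivity),
            ← ENNReal.ofReal_add (by positivity) (by positivity), ← ENNReal.ofReal_add (by positivity) (by positivity)]
          apply ENNReal.ofReal_le_ofReal
          have g1 : (Real.sqrt q) ^ (a - b) * (2 / UU (2 ^ l)) ≤ 2 / ρ ^ 4 / UU (2 ^ l) * 2 ^ (l - a) * ρ ^ (a - b) := by
            calc (Real.sqrt q) ^ (a - b) * (2 / UU (2 ^ l)) ≤ ρ ^ (a - b) * (2 / ρ ^ 4 / UU (2 ^ l) * 2 ^ (l - a)) := by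
                  gcongr
                  calc 2 / UU (2 ^ l) ≤ 2 / ρ ^ 4 / UU (2 ^ l) := by gcongr
                    _ ≤ _ := le_mul_of_one_le_right (by positivity) h2l
              _ = _ := by ring
          rw [hC]
          calc _ ≤ 2 / ρ ^ 4 / UU (2 ^ l) * 2 ^ (l - a) * ρ ^ (a - b) + (C1 / UU (2 ^ l) * 2 ^ (l - a) * ρ ^ (a - b) +
                C1 / UU (2 ^ l) * 2 ^ (l - a) * ρ ^ (a - b) + C0 / τ ^ 4 / UU (2 ^ l) * 2 ^ (l - a) * ρ ^ (a - b)) := by
                  linarith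
            _ = _ := by ring

end Fld

end HexObs
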