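import Pool.Agent.PHW.DefsB

/-!
PHW, B2b: weights of the strip walks that reach the top, cut at the last top vertex.
-/

set_option autoImplicit false

namespace HexObs

open Complex Finset ENNReal

lemma B2b_xc_le_one : xc ≤ 1 := by
  have h2 : 0 < Real.cos (Real.pi / 8) := Real.cos_pos_of_mem_Ioo ⟨by linarith [Real.pi_pos], by linarith [Real.pi_pos]⟩
  have h1 : (1 / 2 : ℝ) ≤ Real.cos (Real.pi / 8) := by
    rw [← Real.cos_pi_div_three]
    apply Real.cos_le_cos_of_nonneg_of_le_pi <;> linarith [Real.pi_pos]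
  unfold xc
  rw [div_le_one (by positivity)]
  linarith

lemma B2b_wE_le_one (t : List Bool) : wE t ≤ 1 := by
  unfold wE
  rw [ENNReal.ofReal_le_one]
  exact pow_le_one₀ xc_pos.le B2b_xc_le_one

lemma B2b_wE_length {s t : List Bool} (h : t.length = s.length) : wE t = wE s := by
  unfold wE
  rw [h]

lemma B2b_gf_singleton (t : List Bool) : gf {t} = wE t := by
  unfold gf
  rw [tsum_singleton t wE]

/-- short endings -/
lemma B2b_gf_short : gf {e : List Bool | e.length ≤ 1} ≤ 3 := by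
  have h : {e : List Bool | e.length ≤ 1} ⊆ {([] : List Bool)} ∪ ({[true]} ∪ {[false]}) := by
    intro e he
    rw [Set.mem_ofPred_eq] at he
    match e, he with
    | [], _ => exact Or.inl rfl
    | [true], _ => exact Or.inr (Or.inl rfl)
    | [false], _ => exact Or.inr (Or.inr rfl)
    | _ :: _ :: _, h => simp at h
  calc gf {e : List Bool | e.length ≤ 1} ≤ gf ({([] : List Bool)} ∪ ({[true]} ∪ {[false]})) := gf_mono h
    _ ≤ gf {([] : List Bool)} + (gf {[true]} + gf {[false]}) :=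
        (gf_union_le _ _).trans (add_le_add le_rfl (gf_union_le _ _))
    _ ≤ 1 + (1 + 1) := by
        rw [B2b_gf_singleton, B2b_gf_singleton, B2b_gf_singleton]
        exact add_le_add (B2b_wE_le_one _) (add_le_add (B2b_wE_le_one _) (B2b_wE_le_one _))
    _ = 3 := by norm_num

/-- the walks that belong to the bridge g -/
def B2bA (T : ℕ) (p g : List Bool) : Set (List Bool) :=
  {t | ∃ s b, g = s ++ [b] ∧ ((∃ c, t = s ++ [c]) ∨
      ∃ r e, r ∈ SSt (T - 1) ∧ e.length ≤ 1 ∧ Hang (p ++ (s ++ [b])) b r ∧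
        (t = s ++ ((!b) :: (!b) :: (r ++ e)) ∨ (r = [] ∧ t = s ++ [!b, b])))}

lemma B2b_gf_A (T : ℕ) (p g : List Bool) :
    gf (B2bA T p g) ≤ wE g * (4 + 4 * GH (T - 1) (p ++ g)) := by
  rcases List.eq_nil_or_concat g with h | ⟨s, b, h⟩
  · have : B2bA T p g ⊆ ∅ := by
      rintro t ⟨s, b, hg, _⟩
      rw [h] at hg
      simp at hg
    have h0 : gf (∅ : Set (List Bool)) = 0 := by
      unfold gf
      rw [_root_.tsum_subtype]
      simp
    exact (gf_mono this).trans (by rw [h0]; exact zero_le)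
  · have hR : gf {r | r ∈ SSt (T - 1) ∧ Hang (p ++ g) b r} ≤ GH (T - 1) (p ++ g) := by
      unfold GH
      cases b
      · exact le_add_self
      · exact le_self_add
    have h1 : B2bA T p g ⊆ ({s ++ [true]} ∪ {s ++ [false]}) ∪ ({s ++ [!b, b]} ∪
        {t | ∃ a ∈ ({s ++ [!b, !b]} : Set (List Bool)), ∃ q ∈ {q | ∃ r ∈ {r | r ∈ SSt (T - 1) ∧ Hang (p ++ g) b r},
          ∃ e ∈ {e : List Bool | e.length ≤ 1}, q = r ++ e}, t = a ++ q}) := by
      rintro t ⟨s', b', hg, ht⟩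
      have h2 : s' = s ∧ b' = b := by
        rw [h, List.concat_eq_append] at hg
        have := List.append_inj' hg rfl
        exact ⟨this.1.symm, by simpa using this.2.symm⟩
      obtain ⟨rfl, rfl⟩ := h2
      rcases ht with ⟨c, rfl⟩ | ⟨r, e, hr, he, hh, ht⟩
      · cases c
        · exact Or.inl (Or.inr rfl)
        · exact Or.inl (Or.inl rfl)
      · rcases ht with rfl | ⟨rfl, rfl⟩
        · right
          right
          refine ⟨_, rfl, r ++ e, ⟨r, ⟨hr, ?_⟩, e, he, rfl⟩, by simp⟩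
          rw [hg]
          exact hh
        · exact Or.inr (Or.inl rfl)
    have hg : g = s ++ [b] := by rw [h, List.concat_eq_append]
    have w1 : ∀ c, wE (s ++ [c]) = wE g := by
      intro c
      apply B2b_wE_length
      rw [hg]
      simp
    have w2 : ∀ c c', wE (s ++ [c, c']) ≤ wE g := by
      intro c c'
      have e1 : s ++ [c, c'] = (s ++ [c]) ++ [c'] := by simp
      rw [e1, wE_append, w1]
      exact mul_le_of_le_one_right' (B2b_wE_le_one _)
    have h3 : gf {t | ∃ a ∈ ({s ++ [!b, !b]} : Set (List Bool)), ∃ q ∈ {q | ∃ r ∈ {r | r ∈ SSt (T - 1) ∧ Hang (p ++ g) b r},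
          ∃ e ∈ {e : List Bool | e.length ≤ 1}, q = r ++ e}, t = a ++ q} ≤ wE g * (GH (T - 1) (p ++ g) * 3) := by
      refine (gf_le_mul (Q := {s ++ [!b, !b]}) (R := {q | ∃ r ∈ {r | r ∈ SSt (T - 1) ∧ Hang (p ++ g) b r},
          ∃ e ∈ {e : List Bool | e.length ≤ 1}, q = r ++ e}) (fun t ht => ht)).trans ?_
      rw [B2b_gf_singleton]
      apply mul_le_mul' (w2 _ _)
      refine (gf_le_mul (Q := {r | r ∈ SSt (T - 1) ∧ Hang (p ++ g) b r}) (R := {e : List Bool | e.length ≤ 1})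
        (fun t ht => ht)).trans ?_
      exact mul_le_mul' hR B2b_gf_short
    calc gf (B2bA T p g) ≤ _ := gf_mono h1
      _ ≤ _ := gf_union_le _ _
      _ ≤ (wE g + wE g) + (wE g + wE g * (GH (T - 1) (p ++ g) * 3)) := by
          apply add_le_add
          · refine (gf_union_le _ _).trans ?_
            rw [B2b_gf_singleton, B2b_gf_singleton, w1, w1]
          · refine (gf_union_le _ _).trans ?_
            rw [B2b_gf_singleton]
            exact add_le_add (w2 _ _) h3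
      _ = wE g * (3 + 3 * GH (T - 1) (p ++ g)) := by ring
      _ ≤ wE g * (4 + 4 * GH (T - 1) (p ++ g)) := by
          gcongr <;> norm_num

/-- gf_HT_le with the decomposition HT_split as a hypothesis -/
theorem gf_HT_le_of {T : ℕ}
    (hsplit : ∀ t ∈ HT T, ∃ s b, s ++ [b] ∈ Brd T ∧ ((∃ c, t = s ++ [c]) ∨
      ∃ r e, r ∈ SSt (T - 1) ∧ e.length ≤ 1 ∧ (∀ p, Lead p → Hang (p ++ (s ++ [b])) b r) ∧
        (t = s ++ ((!b) :: (!b) :: (r ++ e)) ∨ (r = [] ∧ t = s ++ [!b, b]))))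
    {P : Set (List Bool)} (hP : PrefC P) (hL : LastC P) {p : List Bool} (hp : Lead p) :
    gf (HT T ∩ P) ≤ ∑' g : {g : List Bool // g ∈ Brd T ∧ g ∈ P}, wE g.1 * (4 + 4 * GH (T - 1) (p ++ g.1)) := by
  have h1 : HT T ∩ P ⊆ ⋃ g : {g : List Bool // g ∈ Brd T ∧ g ∈ P}, B2bA T p g.1 := by
    rintro t ⟨ht, htP⟩
    obtain ⟨s, b, hs, hcase⟩ := hsplit t ht
    have hsP : s ++ [b] ∈ P := by
      rcases hcase with ⟨c, rfl⟩ | ⟨r, e, _, _, _, h | ⟨_, h⟩⟩
      · exact hL _ _ _ htP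
      · have e1 : t = (s ++ [!b]) ++ ((!b) :: (r ++ e)) := by rw [h]; simp
        rw [e1] at htP
        exact hL _ _ _ (hP _ _ htP)
      · have e1 : t = (s ++ [!b]) ++ [b] := by rw [h]; simp
        rw [e1] at htP
        exact hL _ _ _ (hP _ _ htP)
    rw [Set.mem_iUnion]
    refine ⟨⟨s ++ [b], hs, hsP⟩, s, b, rfl, ?_⟩
    rcases hcase with h | ⟨r, e, hr, he, hh, h⟩
    · exact Or.inl h
    · exact Or.inr ⟨r, e, hr, he, hh p hp, h⟩
  calc gf (HT T ∩ P) ≤ gf (⋃ g : {g : List Bool // g ∈ Brd T ∧ g ∈ P}, B2bA T p g.1) := gf_mono h1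
    _ ≤ ∑' g : {g : List Bool // g ∈ Brd T ∧ g ∈ P}, gf (B2bA T p g.1) := ENNReal.tsum_iUnion_le_tsum wE _
    _ ≤ _ := ENNReal.tsum_le_tsum (fun g => B2b_gf_A T p g.1)

end HexObs
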