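import Pool.Agent.PHW.DefsB
import Pool.Agent.Slit.WordsLe
import Pool.Agent.HexObs.Lower

/-!
PHW part B3b: the dictionary with the frozen statement S19669 and the value of the connective constant.
-/

set_option autoImplicit false

namespace HexObs

open Finset ENNReal

namespace PHWDict

lemma dist_rot {d0 d0' : Pt} (h0 : d0 ∈ dirs) (h0' : d0' ∈ dirs) (v0 v0' : Pt) {t : List Bool} {i k : ℕ}
    (h : vx v0 d0 t i = vx v0 d0 t k) : vx v0' d0' t i = vx v0' d0' t k := by
  have h1 := rotTo_apply d0' h0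
  rw [← h1, vx_mulE _ v0, vx_mulE _ v0, h]

/-- words with n - 1 letters whose vertices 0, ..., n are distinct -/
def AA (n : ℕ) : Set (List Bool) := {t | t.length + 1 = n ∧ ∀ i k, i < k → k ≤ n → vx oo up t i ≠ vx oo up t k}

lemma cS_eq {n : ℕ} (hn : 1 ≤ n) : cS n = 2 * (AA n).ncard := by
  have himg : SawN n = (fun p : List Bool × Bool => p.1 ++ [p.2]) '' (AA n ×ˢ Set.univ) := by
    ext t
    constructor
    · rintro ⟨h1, h2⟩
      have hne : t ≠ [] := by
        rintro rfl
        simp at h1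
        omega
      refine ⟨(t.dropLast, t.getLast hne), ⟨⟨?_, ?_⟩, trivial⟩, List.dropLast_append_getLast hne⟩
      · simp only [List.length_dropLast]
        omega
      · intro i k hik hk he
        have hl : t.dropLast.length + 1 = n := by
          rw [List.length_dropLast]
          omega
        have h3 : ∀ j, j ≤ n → vx oo up t.dropLast j = vx oo up t j := by
          intro j hj
          have := vx_append (v0 := oo) (d0 := up) (t := t.dropLast) (s := [t.getLast hne]) (i := j) (by omega)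
          rw [List.dropLast_append_getLast hne] at this
          exact this.symm
        have h4 : vx oo up t.dropLast i = vx oo up t.dropLast k := he
        rw [h3 i (by omega), h3 k hk] at h4
        exact h2.inj i k hik (by omega) h4
    · rintro ⟨⟨t', b⟩, ⟨⟨h1, h2⟩, _⟩, rfl⟩
      simp only at h1 h2 ⊢
      refine ⟨by simpa using h1, ⟨fun _ _ _ => trivial, ?_⟩⟩
      intro i k hik hk
      have hk' : k ≤ t'.length + 1 := by simpa using hk
      rw [vx_append (by omega), vx_append hk']
      exact h2 i k hik (by omega)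
  unfold cS
  rw [himg, Set.ncard_image_of_injective _ (by
    rintro ⟨a, b⟩ ⟨a', b'⟩ h
    simp only at h
    have h1 := List.append_inj' h rfl
    exact Prod.ext h1.1 (List.cons.inj h1.2).1), Set.ncard_prod, Set.ncard_univ]
  simp [mul_comm]

lemma stepsOf_tw_eq {d : ℤ × ℤ} {l : List (ℤ × ℤ)} (h : HexMu.Ch d l) :
    HexMu.stepsOf d (HexMu.tw d l) = d :: l := by
  induction l generalizing d with
  | nil => rfl
  | cons s l ih =>
    obtain ⟨h1, h2⟩ := h
    rw [HexMu.tw, HexMu.stepsOf, HexMu.turn_decide h1, ih h2]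

lemma WS_eq {n : ℕ} (hn : 1 ≤ n) : (SawNu.WS SawNu.hexL n).card = 3 * (AA n).ncard := by
  classical
  have hS3 : ((SawNu.hexL.S false : Finset (ℤ × ℤ)) : Set (ℤ × ℤ)).ncard = 3 := by
    rw [Set.ncard_coe_finset]
    simp only [SawNu.hexL, cond_false]
    decide
  have hup : up ∈ dirs := by decide
  have himg : ((SawNu.WS SawNu.hexL n : Finset (List (ℤ × ℤ))) : Set (List (ℤ × ℤ))) =
      (fun p : (ℤ × ℤ) × List Bool => (HexMu.stepsOf (HexMu.phi p.1) p.2).map HexMu.psi) ''
        (((SawNu.hexL.S false : Finset (ℤ × ℤ)) : Set (ℤ × ℤ)) ×ˢ AA n) := by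
    ext l
    rw [Finset.mem_coe, SawNu.mem_WS]
    constructor
    · rintro ⟨h1, h2, h3⟩
      rcases l with _ | ⟨s, l⟩
      · simp at h1
        omega
      rw [List.length_cons] at h1
      have hs := h2.1
      refine ⟨(s, HexMu.tword (s :: l)), ⟨hs, ?_, ?_⟩, ?_⟩
      · simp only
        rw [HexMu.tword_length]
        exact h1
      · intro i k hik hk he
        simp only at he
        have h4 := HexMu.vx_tword_inj h2 h3 oo hik (by omega)
        exact h4 (dist_rot hup (HexMu.phi_dirs hs) oo oo he)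
      · simp only
        rw [HexMu.tword, stepsOf_tw_eq (HexMu.ch_of_SA h2 h3)]
        rw [List.map_cons, HexMu.psi_phi hs]
        congr 1
        have key : ∀ (b : Bool) (l : List (ℤ × ℤ)), SawNu.TW SawNu.hexL.S b l →
            (l.map HexMu.phi).map HexMu.psi = l := by
          intro b l
          induction l generalizing b with
          | nil => intro _; rfl
          | cons s l ih =>
            rintro ⟨k1, k2⟩
            rw [List.map_cons, List.map_cons, HexMu.psi_phi k1, ih _ k2]
        exact key _ l h2.2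
    · rintro ⟨⟨s, t⟩, ⟨hs, h1, h2⟩, rfl⟩
      simp only at hs h1 h2 ⊢
      rw [Finset.mem_coe] at hs
      have hd := HexMu.phi_dirs hs
      refine ⟨?_, HexMu.stepsOf_tw hd (by rw [HexMu.psi_phi hs]; exact hs) _, ?_⟩
      · rw [List.length_map, HexMu.stepsOf_length]
        exact h1
      · intro i j hij hj he
        rw [List.length_map, HexMu.stepsOf_length] at hj
        rw [HexMu.ps_map_psi, HexMu.ps_map_psi] at he
        have h3 := HexMu.psi_inj he
        have h4 := HexMu.ps_stepsOf oo (HexMu.phi s) t i (by omega)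
        have h5 := HexMu.ps_stepsOf oo (HexMu.phi s) t j hj
        apply h2 i j hij (by omega)
        apply dist_rot hd hup oo oo
        rw [← h4, ← h5, h3]
  have hinj : Set.InjOn (fun p : (ℤ × ℤ) × List Bool => (HexMu.stepsOf (HexMu.phi p.1) p.2).map HexMu.psi)
      (((SawNu.hexL.S false : Finset (ℤ × ℤ)) : Set (ℤ × ℤ)) ×ˢ AA n) := by
    rintro ⟨s, t⟩ ⟨hs, _⟩ ⟨s', t'⟩ ⟨hs', _⟩ he
    simp only [Finset.mem_coe] at hs hs' he
    have h1 := HexMu.map_psi_inj he
    obtain ⟨l, hl⟩ := HexMu.stepsOf_head (HexMu.phi s) t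
    obtain ⟨l', hl'⟩ := HexMu.stepsOf_head (HexMu.phi s') t'
    have h2 : HexMu.phi s = HexMu.phi s' := by
      rw [hl, hl'] at h1
      exact (List.cons.inj h1).1
    have h3 : s = s' := by rw [← HexMu.psi_phi hs, ← HexMu.psi_phi hs', h2]
    subst h3
    rw [HexMu.stepsOf_inj (HexMu.phi_dirs hs) h1]
  rw [← Set.ncard_coe_finset, himg, Set.ncard_image_of_injOn hinj, Set.ncard_prod, hS3]

lemma aB_WS (n : ℕ) : aB n = (SawNu.WS SawNu.hexL n).card := SawNu.vencHex.ncard_eq n

end PHWDict

open PHWDict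

theorem aB_eq {n : ℕ} (hn : 1 ≤ n) : 2 * aB n = 3 * cS n := by
  rw [aB_WS, WS_eq hn, cS_eq hn]
  ring

theorem aB_mul_le (m n : ℕ) : aB (m + n) ≤ aB m * aB n := by
  rw [aB_WS, aB_WS, aB_WS]
  exact SawNu.WS_mul Pool.Agent.Lib.SAW.HW.mirrored_hex m n

theorem muB_le : muB ≤ 1 / xc := by
  rw [one_div]
  exact HexMu.mu_le (a := aB) (fun _ => rfl) rfl

namespace PHWDict

lemma SawN_fin (n : ℕ) : (SawN n).Finite :=
  (List.finite_length_eq Bool n).subset (fun _ ht => ht.1)

lemma gf_SawN (n : ℕ) : gf (SawN n) = ENNReal.ofReal (cS n * xc ^ n) := by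
  have h1 : ((SawN_fin n).toFinset : Set (List Bool)) = SawN n := Set.Finite.coe_toFinset _
  rw [← h1, gf_finset]
  congr 1
  have h2 : ∀ t ∈ (SawN_fin n).toFinset, xc ^ t.length = xc ^ n := by
    intro t ht
    rw [Set.Finite.mem_toFinset] at ht
    rw [ht.1]
  rw [Finset.sum_congr rfl h2, Finset.sum_const, nsmul_eq_mul]
  congr 2
  rw [cS, Set.ncard_eq_toFinset_card _ (SawN_fin n)]

/-- bridges of heights 1, ..., N -/
def QQ (N : ℕ) : Set (List Bool) := {t | ∃ T, 1 ≤ T ∧ T ≤ N ∧ t ∈ out (strip oo up T) oo up up}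

lemma gf_QQ (N : ℕ) : gf (QQ N) = ∑ T ∈ Finset.Icc 1 N, BT T := by
  have hup : up ∈ dirs := by decide
  induction N with
  | zero =>
    have h1 : QQ 0 = ∅ := by
      ext t
      simp only [QQ, Set.mem_ofPred_eq, Set.mem_empty_iff_false, iff_false, not_exists]
      intro T h
      omega
    rw [h1]
    simp [gf]
  | succ N ih =>
    have h1 : QQ (N + 1) = QQ N ∪ out (strip oo up (N + 1)) oo up up := by
      ext t
      simp only [QQ, Set.mem_union, Set.mem_ofPred_eq]
      constructor
      · rintro ⟨T, h1, h2, h3⟩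
        rcases Nat.lt_or_ge T (N + 1) with h | h
        · exact Or.inl ⟨T, h1, by omega, h3⟩
        · right
          have : T = N + 1 := by omega
          rw [this] at h3
          exact h3
      · rintro (⟨T, h1, h2, h3⟩ | h)
        · exact ⟨T, h1, by omega, h3⟩
        · exact ⟨N + 1, by omega, le_rfl, h⟩
    have hlev : ∀ T, 1 ≤ T → ∀ t ∈ out (strip oo up T) oo up up, ip (tip oo up t - oo) up = 3 * T + 2 := by
      intro T hT t ht
      rcases strip_exit hup hT ht.1 ht.2.1 with ⟨h2, _⟩ | ⟨_, h2⟩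
      · exfalso
        rw [ht.2.2] at h2
        exact absurd h2 (by decide)
      · exact h2
    have h2 : Disjoint (QQ N) (out (strip oo up (N + 1)) oo up up) := by
      rw [Set.disjoint_left]
      rintro t ⟨T, k1, k2, k3⟩ k4
      have e1 := hlev T k1 t k3
      have e2 := hlev (N + 1) (by omega) t k4
      rw [e1] at e2
      push_cast at e2
      omega
    rw [h1, gf_union h2, ih, gf_B hup, Finset.sum_Icc_succ_top (by omega)]

lemma QQ_sub (N : ℕ) : QQ N ⊆ ⋃ n, SawN n := by
  rintro t ⟨T, _, _, h⟩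
  rw [Set.mem_iUnion]
  exact ⟨t.length, rfl, ⟨fun _ _ _ => trivial, h.1.inj⟩⟩

lemma sum_BT_le (N : ℕ) : ∑ T ∈ Finset.Icc 1 N, BT T ≤ ∑' n, gf (SawN n) := by
  rw [← gf_QQ]
  refine (gf_mono (QQ_sub N)).trans ?_
  exact ENNReal.tsum_iUnion_le_tsum wE SawN

lemma summable_of_submul {u : ℕ → ℝ} (h0 : ∀ n, 0 ≤ u n) (hm : ∀ m n, u (m + n) ≤ u m * u n) {n0 : ℕ}
    (hn0 : 1 ≤ n0) (hq : u n0 < 1) : Summable u := by
  set q := u n0 with hqd
  set M := ∑ n ∈ Finset.range n0, u n with hM
  have hM0 : 0 ≤ M := Finset.sum_nonneg (fun n _ => h0 n)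
  have h1q : 0 < 1 - q := by linarith
  have key : ∀ K, ∑ n ∈ Finset.range (K * n0), u n ≤ M / (1 - q) := by
    intro K
    induction K with
    | zero => simp only [zero_mul, Finset.range_zero, Finset.sum_empty]; positivity
    | succ K ih =>
      rw [show (K + 1) * n0 = n0 + K * n0 by ring, Finset.sum_range_add]
      have h1 : ∑ x ∈ Finset.range (K * n0), u (n0 + x) ≤ q * ∑ x ∈ Finset.range (K * n0), u x := by
        rw [Finset.mul_sum]
        exact Finset.sum_le_sum (fun x _ => hm n0 x)
      have h2 : q * ∑ x ∈ Finset.range (K * n0), u x ≤ q * (M / (1 - q)) :=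
        mul_le_mul_of_nonneg_left ih (h0 _)
      calc M + ∑ x ∈ Finset.range (K * n0), u (n0 + x) ≤ M + q * (M / (1 - q)) := by linarith
        _ = M / (1 - q) := by field_simp; ring
  apply summable_of_sum_range_le (c := M / (1 - q)) h0
  intro N
  refine le_trans ?_ (key N)
  apply Finset.sum_le_sum_of_subset_of_nonneg
  · intro x hx
    rw [Finset.mem_range] at hx ⊢
    nlinarith
  · intro x _ _
    exact h0 x

end PHWDict

/-- lower bound for the connective constant: the weights of the bridges have infinite sum -/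
theorem le_muB : 1 / xc ≤ muB := by
  have hx := xc_pos
  by_contra hcon
  rw [not_le] at hcon
  unfold muB at hcon
  obtain ⟨⟨n0, hn0⟩, hlt⟩ := exists_lt_of_ciInf_lt hcon
  simp only at hlt
  have hn0' : (0 : ℝ) < n0 := by exact_mod_cast hn0
  have hq : (aB n0 : ℝ) * xc ^ n0 < 1 := by
    have h1 : (aB n0 : ℝ) < (1 / xc) ^ n0 := by
      have h2 : ((aB n0 : ℝ) ^ ((1 : ℝ) / n0)) ^ n0 < (1 / xc) ^ n0 :=
        pow_lt_pow_left₀ hlt (by positivity) (by omega)
      rwa [← Real.rpow_natCast, ← Real.rpow_mul (Nat.cast_nonneg _), one_div_mul_cancel hn0'.ne',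
        Real.rpow_one] at h2
    have h3 : 0 < xc ^ n0 := pow_pos hx _
    rw [div_pow, one_pow, lt_div_iff₀ h3] at h1
    exact h1
  have hsum : Summable (fun n : ℕ => (aB n : ℝ) * xc ^ n) := by
    apply summable_of_submul (n0 := n0) _ _ hn0 hq
    · intro n
      positivity
    · intro m n
      have h1 : (aB (m + n) : ℝ) ≤ aB m * aB n := by exact_mod_cast aB_mul_le m n
      calc (aB (m + n) : ℝ) * xc ^ (m + n) ≤ (aB m * aB n) * xc ^ (m + n) :=
            mul_le_mul_of_nonneg_right h1 (pow_pos hx _).le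
        _ = aB m * xc ^ m * (aB n * xc ^ n) := by rw [pow_add]; ring
  have hsum2 : Summable (fun n : ℕ => (cS n : ℝ) * xc ^ n) := by
    rw [← summable_nat_add_iff 1]
    refine Summable.of_nonneg_of_le (fun n => by positivity) (fun n => ?_) ((summable_nat_add_iff 1).2 hsum)
    have h1 := aB_eq (n := n + 1) (by omega)
    have h2 : (2 : ℝ) * aB (n + 1) = 3 * cS (n + 1) := by exact_mod_cast h1
    have h3 : (cS (n + 1) : ℝ) ≤ aB (n + 1) := by
      have : (0 : ℝ) ≤ cS (n + 1) := Nat.cast_nonneg _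
      linarith
    exact mul_le_mul_of_nonneg_right h3 (pow_pos hx _).le
  set B := ∑' n, (cS n : ℝ) * xc ^ n with hB
  have hfin : ∑' n, gf (SawN n) = ENNReal.ofReal B := by
    rw [hB, ENNReal.ofReal_tsum_of_nonneg (fun n => by positivity) hsum2]
    exact tsum_congr (fun n => gf_SawN n)
  have hB0 : 0 ≤ B := tsum_nonneg (fun n => by positivity)
  have hbd : ∀ N, ∑ T ∈ Finset.range N, bT (T + 1) ≤ B := by
    intro N
    have h1 := sum_BT_le N
    rw [hfin] at h1
    have h2 : ∑ T ∈ Finset.Icc 1 N, BT T = ENNReal.ofReal (∑ T ∈ Finset.range N, bT (T + 1)) := by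
      rw [ENNReal.ofReal_sum_of_nonneg (fun T _ => bT_nonneg _)]
      rw [Finset.range_eq_Ico, Finset.sum_Ico_add' (fun T => ENNReal.ofReal (bT T)) 0 N 1]
      apply Finset.sum_congr
      · ext T
        simp only [Finset.mem_Icc, Finset.mem_Ico]
        omega
      · intro T hT
        rw [Finset.mem_Ico] at hT
        rw [ofReal_bT (by omega)]
    rw [h2] at h1
    exact (ENNReal.ofReal_le_ofReal_iff hB0).1 h1
  have hs1 : Summable (fun T : ℕ => bT (T + 1)) := summable_of_sum_range_le (fun T => bT_nonneg _) hbd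
  have hs2 : Summable (fun T : ℕ => (1 : ℝ) / ((T + 4 : ℕ) : ℝ)) := by
    refine Summable.of_nonneg_of_le (fun n => by positivity) (fun T => ?_) hs1
    have := bT_lower (T := T + 1) (by omega)
    push_cast at this ⊢
    rw [show (T : ℝ) + 4 = T + 1 + 3 by ring]
    exact this
  exact Real.not_summable_one_div_natCast ((summable_nat_add_iff 4).1 hs2)

end HexObs
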