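import Pool.Agent.PHW.DefsB

/-!
PHW B1a: position of the lowest vertex of a walk.
-/

set_option autoImplicit false

namespace HexObs

open Complex Finset ENNReal

lemma lowA_trans (p q d : Pt) (w : List Bool) (i : ℕ) : vx (p + q) d w i = p + vx q d w i := by
  induction i with
  | zero => rfl
  | succ i ih => rw [vx_succ, ih, vx_succ, add_assoc]

lemma lowA_cons (p d : Pt) (b : Bool) (w : List Bool) (i : ℕ) :
    vx p d (b :: w) (i + 1) = vx (p + d) (turn b d) w i ∧ dx d (b :: w) (i + 1) = dx (turn b d) w i := by
  induction i with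
  | zero => exact ⟨rfl, rfl⟩
  | succ i ih =>
    constructor
    · rw [vx_succ, ih.1, ih.2, vx_succ]
    · rw [dx_succ, ih.2, dx_succ]
      rfl

lemma lowA_drop (p d : Pt) (t : List Bool) (j i : ℕ) :
    vx p d t (j + i) = vx (vx p d t j) (dx d t j) (t.drop j) i := by
  unfold vx dx
  rw [vs_shift]
  apply vs_congr
  intro k _
  unfold tf
  simp only [List.getD_eq_getElem?_getD, List.getElem?_drop]

lemma lowA_ipup : ip up up = 2 := by decide

/-- even interior vertices are not lowest -/
lemma lowA_even {n : ℕ} {t : List Bool} (hl : t.length = n) (hs : Saw Set.univ oo up t) {k : ℕ} (h1 : 1 ≤ k)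
    (hk : k < n) (he : Even k) (hmin : ∀ i, i ≤ n → lev t k ≤ lev t i) : False := by
  have ho : ¬ Even (k - 1) := by
    obtain ⟨m, hm⟩ := he
    rintro ⟨m', hm'⟩
    omega
  have e1 : dx up t k = up := by
    rcases step_even upd t he with h | h | h
    · exact h.1
    · have h3 := lev_succ t k
      rw [h.2] at h3
      have := hmin (k + 1) (by omega)
      omega
    · have h3 := lev_succ t k
      rw [h.2] at h3
      have := hmin (k + 1) (by omega)
      omega
  have e2 : dx up t (k - 1) = -up := by
    have h3 := lev_succ t (k - 1)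
    rw [show k - 1 + 1 = k by omega] at h3
    have h4 := hmin (k - 1) (by omega)
    rcases step_odd upd t ho with h | h | h
    · exact h.1
    · rw [h.2] at h3
      omega
    · rw [h.2] at h3
      omega
  have e3 : vx oo up t (k + 1) = vx oo up t (k - 1) := by
    rw [vx_succ, e1]
    have h3 : vx oo up t k = vx oo up t (k - 1) + dx up t (k - 1) := by
      rw [← vx_succ, show k - 1 + 1 = k by omega]
    rw [h3, e2]
    abel
  exact hs.inj (k - 1) (k + 1) (by omega) (by omega) e3.symm

/-- the reversed beginning -/
lemma lowA_rev {n : ℕ} {t : List Bool} (hl : t.length = n) {j : ℕ} (h1 : 1 ≤ j) (hj : j ≤ n) {d : Pt}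
    (hd : dx up t (j - 1) = -d) (i : ℕ) (hi : i ≤ j) :
    vx (vx oo up t j) d (rev (t.take (j - 1))) i = vx oo up t (j - i) := by
  have hsl : (t.take (j - 1)).length = j - 1 := by
    rw [List.length_take]
    omega
  have hap : t.take (j - 1) ++ t.drop (j - 1) = t := List.take_append_drop _ _
  have hv : ∀ i, i ≤ j → vx oo up (t.take (j - 1)) i = vx oo up t i := by
    intro i hi
    have := vx_append (v0 := oo) (d0 := up) (t := t.take (j - 1)) (s := t.drop (j - 1)) (i := i) (by omega)
    rw [hap] at this
    exact this.symm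
  have hdx : dx up (t.take (j - 1)) (j - 1) = dx up t (j - 1) := by
    have := dx_append (d0 := up) (t := t.take (j - 1)) (s := t.drop (j - 1)) (i := j - 1) (by omega)
    rw [hap] at this
    exact this.symm
  have h := vx_rev oo up (t.take (j - 1)) i (by omega)
  unfold tip at h
  rw [hsl, show j - 1 + 1 = j by omega, hv j le_rfl, hdx, hd, neg_neg, hv _ (by omega)] at h
  exact h

/-- the part before an odd lowest vertex -/
lemma lowA_head {n : ℕ} {t : List Bool} (hl : t.length = n) (hs : Saw Set.univ oo up t) {j : ℕ} (h1 : 1 ≤ j)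
    (hj : j ≤ n) (ho : ¬ Even j) (hmin : ∀ i, i ≤ n → lev t j ≤ lev t i) :
    ∃ b, dx up t (j - 1) = -(turn b up) ∧ b :: (rev (t.take (j - 1)) ++ [true]) ∈ HpN (j + 1) := by
  have he : Even (j - 1) := by
    rcases Nat.even_or_odd j with h | ⟨m, hm⟩
    · exact absurd h ho
    · exact ⟨m, by omega⟩
  obtain ⟨b, hb⟩ : ∃ b, dx up t (j - 1) = -(turn b up) := by
    have h3 := lev_succ t (j - 1)
    rw [show j - 1 + 1 = j by omega] at h3
    rcases step_even upd t he with h | h | h
    · rw [h.2] at h3
      have := hmin (j - 1) (by omega)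
      omega
    · exact ⟨false, by rw [h.1]; decide⟩
    · exact ⟨true, by rw [h.1]; decide⟩
  refine ⟨b, hb, ?_⟩
  have hsl : (rev (t.take (j - 1))).length = j - 1 := by
    rw [rev_length, List.length_take]
    omega
  have hlen : (b :: (rev (t.take (j - 1)) ++ [true])).length = j + 1 := by
    rw [List.length_cons, List.length_append, hsl, List.length_singleton]
    omega
  have key : ∀ i, i ≤ j → vx oo up (b :: (rev (t.take (j - 1)) ++ [true])) (i + 1) =
      (up - vx oo up t j) + vx oo up t (j - i) := by
    intro i hi
    rw [(lowA_cons oo up b _ i).1, vx_append (by omega)]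
    rw [← lowA_rev hl h1 hj hb i hi, ← lowA_trans]
    congr 1
    show oo + up = up - vx oo up t j + vx oo up t j
    rw [sub_add_cancel]
    exact zero_add _
  have hpos : ∀ i, i ≤ j → 0 < ip (vx oo up (b :: (rev (t.take (j - 1)) ++ [true])) (i + 1)) up := by
    intro i hi
    rw [key i hi, ip_add_left, ip_sub_left, lowA_ipup]
    have h2 := hmin (j - i) (by omega)
    unfold lev at h2
    omega
  refine ⟨hlen, ⟨?_, ?_⟩⟩
  · intro i hi hil
    rw [hlen] at hil
    have := hpos (i - 1) (by omega)
    rw [show i - 1 + 1 = i by omega] at this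
    exact this
  · intro i k hik hk heq
    rw [hlen] at hk
    rcases Nat.eq_zero_or_pos i with h0 | h0
    · have h2 := hpos (k - 1) (by omega)
      rw [show k - 1 + 1 = k by omega, ← heq, h0] at h2
      exact absurd h2 (show ¬ 0 < ip oo up by decide)
    · have h2 := key (i - 1) (by omega)
      have h3 := key (k - 1) (by omega)
      rw [show i - 1 + 1 = i by omega] at h2
      rw [show k - 1 + 1 = k by omega] at h3
      rw [h2, h3] at heq
      exact hs.inj (j - (k - 1)) (j - (i - 1)) (by omega) (by omega) (add_left_cancel heq).symm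

/-- the part after an odd lowest vertex -/
lemma lowA_tail {n : ℕ} {t : List Bool} (hl : t.length = n) (hs : Saw Set.univ oo up t) {j : ℕ} (h1 : 1 ≤ j)
    (hj : j < n) (hmin : ∀ i, i ≤ n → lev t j ≤ lev t i) {b : Bool} (hb : dx up t (j - 1) = -(turn b up)) :
    tf t (j - 1) = b ∧ ((!b) :: t.drop j) ∈ HpN (n - j + 1) := by
  have hdj : dx up t j = turn (tf t (j - 1)) (-(turn b up)) := by
    rw [← hb, ← dx_succ, show j - 1 + 1 = j by omega]
  have hbb : tf t (j - 1) = b := by
    by_contra hne
    have h2 : tf t (j - 1) = !b := by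
      revert hne
      cases tf t (j - 1) <;> cases b <;> decide
    rw [h2] at hdj
    have h3 := lev_succ t j
    have h4 : ip (dx up t j) up = -2 := by
      rw [hdj]
      cases b <;> decide
    have := hmin (j + 1) (by omega)
    omega
  refine ⟨hbb, ?_⟩
  rw [hbb] at hdj
  have hdj' : dx up t j = turn (!b) up := by
    rw [hdj]
    cases b <;> decide
  have hlen : ((!b) :: t.drop j).length = n - j + 1 := by
    rw [List.length_cons, List.length_drop, hl]
  have key : ∀ i, vx oo up ((!b) :: t.drop j) (i + 1) = (up - vx oo up t j) + vx oo up t (j + i) := by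
    intro i
    rw [(lowA_cons oo up (!b) _ i).1, lowA_drop oo up t j i, ← lowA_trans, hdj']
    congr 1
    show oo + up = up - vx oo up t j + vx oo up t j
    rw [sub_add_cancel]
    exact zero_add _
  have hpos : ∀ i, j + i ≤ n → 0 < ip (vx oo up ((!b) :: t.drop j) (i + 1)) up := by
    intro i hi
    rw [key i, ip_add_left, ip_sub_left, lowA_ipup]
    have h2 := hmin (j + i) hi
    unfold lev at h2
    omega
  refine ⟨hlen, ⟨?_, ?_⟩⟩
  · intro i hi hil
    rw [hlen] at hil
    have := hpos (i - 1) (by omega)
    rw [show i - 1 + 1 = i by omega] at this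
    exact this
  · intro i k hik hk heq
    rw [hlen] at hk
    rcases Nat.eq_zero_or_pos i with h0 | h0
    · have h2 := hpos (k - 1) (by omega)
      rw [show k - 1 + 1 = k by omega, ← heq, h0] at h2
      exact absurd h2 (show ¬ 0 < ip oo up by decide)
    · have h2 := key (i - 1)
      have h3 := key (k - 1)
      rw [show i - 1 + 1 = i by omega] at h2
      rw [show k - 1 + 1 = k by omega] at h3
      rw [h2, h3] at heq
      exact hs.inj (j + (i - 1)) (j + (k - 1)) (by omega) (by omega) (add_left_cancel heq)

/-- lowest vertex (last one): either the start, or the end, or an interior odd vertex j -/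
theorem low_split {n : ℕ} (hn : 1 ≤ n) {t : List Bool} (ht : t ∈ SawN n) :
    t ∈ HpN n ∨ rev (t.take (n - 1)) ∈ HpN (n - 1) ∨
    (∃ b, b :: (rev (t.take (n - 1)) ++ [true]) ∈ HpN (n + 1)) ∨
    (∃ j b, 1 ≤ j ∧ j < n ∧ t = t.take (j - 1) ++ (b :: t.drop j) ∧
      (b :: (rev (t.take (j - 1)) ++ [true])) ∈ HpN (j + 1) ∧ ((!b) :: t.drop j) ∈ HpN (n - j + 1)) := by
  obtain ⟨hl, hs⟩ := ht
  obtain ⟨j0, hj0, hmin0⟩ := Finset.exists_min_image (Finset.range (n + 1)) (fun i => lev t i) ⟨0, by simp⟩
  rw [Finset.mem_range] at hj0
  have hmin : ∀ i, i ≤ n → lev t j0 ≤ lev t i := fun i hi => hmin0 i (Finset.mem_range.2 (by omega))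
  by_cases hodd : ∃ j, j ≤ n ∧ ¬ Even j ∧ lev t j = lev t j0
  · obtain ⟨j, hj, ho, hjl⟩ := hodd
    have h1 : 1 ≤ j := by
      rcases Nat.eq_zero_or_pos j with h | h
      · rw [h] at ho
        exact absurd (by decide) ho
      · exact h
    have hminj : ∀ i, i ≤ n → lev t j ≤ lev t i := by
      rw [hjl]
      exact hmin
    obtain ⟨b, hb, hb'⟩ := lowA_head hl hs h1 hj ho hminj
    rcases Nat.lt_or_ge j n with h | h
    · obtain ⟨h3, h4⟩ := lowA_tail hl hs h1 h hminj hb
      refine Or.inr (Or.inr (Or.inr ⟨j, b, h1, h, ?_, hb', h4⟩))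
      have h5 : j - 1 < t.length := by omega
      have h6 : t[j - 1] = b := by
        rw [← h3]
        unfold tf
        rw [List.getD_eq_getElem _ _ h5]
      have h7 := List.drop_eq_getElem_cons h5
      rw [h6, show j - 1 + 1 = j by omega] at h7
      rw [← h7, List.take_append_drop]
    · have : j = n := by omega
      subst this
      exact Or.inr (Or.inr (Or.inl ⟨b, hb'⟩))
  · push Not at hodd
    have hstrict : ∀ k, 1 ≤ k → k < n → lev t j0 < lev t k := by
      intro k hk1 hk
      by_contra hcon
      have h2 : lev t k = lev t j0 := le_antisymm (not_lt.1 hcon) (hmin k hk.le)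
      by_cases he : Even k
      · exact lowA_even hl hs hk1 hk he (by rw [h2]; exact hmin)
      · exact hodd k hk.le he h2
    by_cases hlast : lev t n = lev t j0
    · -- the end is lowest
      have he : Even n := by
        by_contra he
        exact hodd n le_rfl he hlast
      have ho : ¬ Even (n - 1) := by
        obtain ⟨m, hm⟩ := he
        rintro ⟨m', hm'⟩
        omega
      have hd : dx up t (n - 1) = -up := by
        have h3 := lev_succ t (n - 1)
        rw [show n - 1 + 1 = n by omega] at h3
        have h4 := hmin (n - 1) (by omega)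
        rcases step_odd upd t ho with h | h | h
        · exact h.1
        · rw [h.2] at h3
          omega
        · rw [h.2] at h3
          omega
      have hsl : (rev (t.take (n - 1))).length = n - 1 := by
        rw [rev_length, List.length_take]
        omega
      have key : ∀ i, i ≤ n → vx oo up (rev (t.take (n - 1))) i = -(vx oo up t n) + vx oo up t (n - i) := by
        intro i hi
        rw [← lowA_rev hl hn le_rfl hd i hi, ← lowA_trans, neg_add_cancel]
        rfl
      refine Or.inr (Or.inl ⟨hsl, ⟨?_, ?_⟩⟩)
      · intro i hi hil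
        rw [hsl] at hil
        show 0 < ip (vx oo up (rev (t.take (n - 1))) i) up
        rw [key i (by omega), ip_add_left, ip_neg_left]
        have h2 := hstrict (n - i) (by omega) (by omega)
        rw [← hlast] at h2
        unfold lev at h2
        omega
      · intro i k hik hk heq
        rw [hsl] at hk
        rw [key i (by omega), key k (by omega)] at heq
        exact hs.inj (n - k) (n - i) (by omega) (by omega) (add_left_cancel heq).symm
    · -- the start is lowest
      have h0 : j0 = 0 := by
        by_contra hne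
        rcases Nat.lt_or_ge j0 n with h | h
        · exact lt_irrefl _ (hstrict j0 (by omega) h)
        · exact hlast (by rw [show j0 = n by omega])
      refine Or.inl ⟨hl, ⟨?_, hs.inj⟩⟩
      intro i hi hil
      rw [hl] at hil
      show 0 < lev t i
      rw [h0, lev_zero] at hstrict hmin hlast
      rcases Nat.lt_or_ge i n with h | h
      · exact hstrict i hi h
      · have h2 := hmin i hil
        have h3 : i = n := by omega
        rw [h3] at h2 ⊢
        omega

end HexObs
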