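import Pool.Agent.PHW.Defs

/-!
PHW, A1: first irreducible piece of a bridge, renewal equation.
-/

set_option autoImplicit false

namespace HexObs

open Complex Finset ENNReal

theorem Irr_pos {r : ℕ} {t : List Bool} (h : t ∈ Irr r) : 1 ≤ r := by
  rcases Nat.eq_zero_or_pos r with h0 | h0
  · subst h0
    have h1 := h.1
    rw [Brd_zero] at h1
    exact absurd h1 h.2.1
  · exact h0

theorem Brd_first {T : ℕ} {t : List Bool} (ht : t ∈ Brd T) (hT : 1 ≤ T) :
    ∃ r s u, 1 ≤ r ∧ r ≤ T ∧ s ∈ Irr r ∧ u ∈ Brd (T - r) ∧ t = s ++ u := by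
  classical
  have hne : t ≠ [] := by
    rintro rfl
    have := Brd_height ht nil_mem_Brd
    omega
  have hex : ∃ n, 1 ≤ n ∧ ∃ s u r b, s.length = n ∧ s ∈ Brd r ∧ u ∈ Brd b ∧ t = s ++ u :=
    ⟨t.length, List.length_pos_iff.2 hne, t, [], T, 0, rfl, ht, nil_mem_Brd, (List.append_nil t).symm⟩
  obtain ⟨h1, s, u, r, b, hn, hs, hu, he⟩ := Nat.find_spec hex
  have hmin := fun m hm => Nat.find_min hex (m := m) hm
  rw [← hn] at h1 hmin
  have hsne : s ≠ [] := by
    rintro rfl
    simp at h1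
  have hI : s ∈ Irr r := by
    refine ⟨hs, hsne, ?_⟩
    intro a c s1 s2 h2 h3 h4
    by_contra hcon
    push Not at hcon
    obtain ⟨c1, c2⟩ := hcon
    have l1 : 0 < s1.length := List.length_pos_iff.2 c1
    have l2 : 0 < s2.length := List.length_pos_iff.2 c2
    apply hmin s1.length
    · rw [h4, List.length_append]
      omega
    · exact ⟨l1, s1, s2 ++ u, a, c + b, rfl, h2, Brd_append h3 hu, by rw [he, h4, List.append_assoc]⟩
  have h5 : T = r + b := by
    rw [he] at ht
    exact Brd_height ht (Brd_append hs hu)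
  refine ⟨r, s, u, Irr_pos hI, by omega, hI, ?_, he⟩
  have h6 : T - r = b := by omega
  rw [h6]
  exact hu

private lemma Irr_unique_aux {r r' b : ℕ} {s s' u u' : List Bool} (hs : s ∈ Irr r) (hs' : s' ∈ Irr r')
    (hu : u ∈ Brd b) (h : s ++ u = s' ++ u') (hl : s.length ≤ s'.length) : s = s' := by
  obtain ⟨v, hv⟩ : ∃ v, s' = s ++ v := by
    have h1 : s <+: s' := List.prefix_of_prefix_length_le (List.prefix_append s u)
      (h ▸ List.prefix_append s' u') hl
    obtain ⟨v, hv⟩ := h1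
    exact ⟨v, hv.symm⟩
  have hu2 : u = v ++ u' := by
    rw [hv, List.append_assoc] at h
    exact List.append_cancel_left h
  have hd : dx up s s.length = up := (mem_Brd.1 hs.1).2.2.1
  have h4 : lev s s.length = 3 * r := (mem_Brd.1 hs.1).2.2.2
  have hcut : ∀ j, 1 ≤ j → j ≤ v.length → 3 * (r : ℤ) < lev (s ++ v) (s.length + j) := by
    intro j h1 h2
    rw [lev_cat hd, h4]
    have h5 : lev u j = lev v j := by
      rw [hu2]
      exact lev_append (by omega)
    have h6 := ((mem_Brd.1 hu).1 j h1 (by rw [hu2, List.length_append]; omega)).1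
    rw [h5] at h6
    omega
  have hb := Brd_cancel hs.1 (hv ▸ hs'.1) hcut
  rcases hs'.2.2 r (r' - r) s v hs.1 hb.2 hv with h7 | h7
  · exact absurd h7 hs.2.1
  · rw [hv, h7, List.append_nil]

theorem Irr_unique {r r' b b' : ℕ} {s s' u u' : List Bool} (hs : s ∈ Irr r) (hs' : s' ∈ Irr r')
    (hu : u ∈ Brd b) (hu' : u' ∈ Brd b') (h : s ++ u = s' ++ u') : s = s' ∧ u = u' := by
  have key : s = s' := by
    rcases le_total s.length s'.length with hl | hl
    · exact Irr_unique_aux hs hs' hu h hl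
    · exact (Irr_unique_aux hs' hs hu' h.symm hl).symm
  refine ⟨key, ?_⟩
  rw [key] at h
  exact List.append_cancel_left h

lemma gf_biUnion {ι : Type} (I : Finset ι) (P : ι → Set (List Bool))
    (hd : ∀ i ∈ I, ∀ j ∈ I, i ≠ j → Disjoint (P i) (P j)) :
    gf (⋃ i ∈ I, P i) = ∑ i ∈ I, gf (P i) := by
  classical
  induction I using Finset.induction_on with
  | empty =>
    simp only [Finset.notMem_empty, Set.iUnion_of_empty, Set.iUnion_empty, Finset.sum_empty]
    unfold gf
    simp
  | insert a I ha ih =>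
    rw [Finset.set_biUnion_insert, Finset.sum_insert ha, gf_union, ih]
    · intro i hi j hj hij
      exact hd i (Finset.mem_insert_of_mem hi) j (Finset.mem_insert_of_mem hj) hij
    · rw [Set.disjoint_iUnion₂_right]
      intro i hi
      exact hd a (Finset.mem_insert_self a I) i (Finset.mem_insert_of_mem hi) (fun h => ha (h ▸ hi))

theorem renewal {T : ℕ} (hT : 1 ≤ T) : BT T = ∑ r ∈ Finset.Icc 1 T, kap' r * BT (T - r) := by
  have h1 : Brd T = ⋃ r ∈ Finset.Icc 1 T, {t | ∃ s u, s ∈ Irr r ∧ u ∈ Brd (T - r) ∧ t = s ++ u} := by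
    ext t
    simp only [Set.mem_iUnion, Finset.mem_Icc]
    constructor
    · intro ht
      obtain ⟨r, s, u, h1, h2, h3, h4, h5⟩ := Brd_first ht hT
      exact ⟨r, ⟨h1, h2⟩, s, u, h3, h4, h5⟩
    · rintro ⟨r, ⟨h1, h2⟩, s, u, h3, h4, h5⟩
      have h6 := Brd_append h3.1 h4
      rw [← h5, Nat.add_sub_cancel' h2] at h6
      exact h6
  rw [← gf_Brd, h1, gf_biUnion]
  · apply Finset.sum_congr rfl
    intro r _
    rw [← gf_Brd (T - r)]
    unfold kap'
    apply le_antisymm
    · apply gf_le_mul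
      rintro t ⟨s, u, h3, h4, h5⟩
      exact ⟨s, h3, u, h4, h5⟩
    · apply mul_le_gf
      · intro a ha b hb
        exact ⟨a, b, ha, hb, rfl⟩
      · intro a ha b hb a' ha' b' hb' h
        exact (Irr_unique ha ha' hb hb' h).1
  · intro i _ j _ hij
    rw [Set.disjoint_left]
    rintro t ⟨s, u, h3, h4, h5⟩ ⟨s', u', h3', h4', h5'⟩
    have h6 := (Irr_unique h3 h3' h4 h4' (h5.symm.trans h5')).1
    apply hij
    rw [h6] at h3
    exact Brd_height h3.1 h3'.1

end HexObs
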