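import Pool.Agent.PHW.DefsB
import Pool.Agent.PHW.IrrDec

/-!
PHW part B: walks of the strip, sorted by the highest level.
-/

set_option autoImplicit false

namespace HexObs

open Complex Finset ENNReal

theorem HT_zero : HT 0 = {[]} := by
  ext t
  rw [Set.mem_singleton_iff]
  constructor
  · rintro ⟨h, _⟩
    by_contra hne
    have hl : 1 ≤ t.length := List.length_pos_iff.2 hne
    have h1 := mem_St.1 (h.mem 1 le_rfl hl)
    have h2 : lev t 1 = 2 := by
      rw [lev_succ, lev_zero]
      show 0 + ip up up = 2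
      decide
    rw [h2] at h1
    have := h1.2
    norm_num at this
  · rintro rfl
    refine ⟨⟨?_, ?_⟩, 0, le_rfl, ?_⟩
    · intro i h1 h2
      simp only [List.length_nil] at h2
      omega
    · intro i k h1 h2
      simp only [List.length_nil] at h2
      omega
    · rw [lev_zero]
      rfl

private lemma topC_ip : ∀ d ∈ dirs, (ip d up = 2 → d = up) ∧ (ip d up = -2 → d = -up) ∧ -2 ≤ ip d up ∧ ip d up ≤ 2 := by
  decide

/-- a vertex on the level 3 T + 2 that is a highest one is the last one -/
private lemma topC_last {m T : ℕ} {t : List Bool} (ht : t ∈ SSt m) (hmax : ∀ i, i ≤ t.length → lev t i ≤ 3 * T + 2)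
    {j : ℕ} (hj : j + 1 ≤ t.length) (he : lev t (j + 1) = 3 * T + 2) :
    j + 1 = t.length ∧ dx up t j = up ∧ lev t j = 3 * T := by
  have hup2 : ip up up = 2 := by decide
  have a1 := lev_succ t j
  have a2 := topC_ip _ (dx_mem upd t j)
  have a3 := lev_mod t j
  have a4 := lev_mod t (j + 1)
  have a5 := hmax j (by omega)
  have e1 : lev t j = 3 * T := by
    by_cases hev : Even j
    · rw [if_pos hev] at a3
      obtain ⟨_, _, b1, b2⟩ := a2
      omega
    · have hev' : Even (j + 1) := by
        rw [Nat.even_add_one]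
        exact hev
      rw [if_pos hev'] at a4
      omega
  have e2 : dx up t j = up := a2.1 (by omega)
  refine ⟨?_, e2, e1⟩
  by_contra hne
  have hj2 : j + 2 ≤ t.length := by omega
  have c1 := lev_succ t (j + 1)
  have c2 := topC_ip _ (dx_mem upd t (j + 1))
  have c5 := hmax (j + 1 + 1) (by omega)
  have hev : Even j := by
    by_contra h
    have hev' : Even (j + 1) := by
      rw [Nat.even_add_one]
      exact h
    rw [if_pos hev'] at a4
    omega
  have hev2 : Even (j + 1 + 1) := by
    rw [Nat.even_add_one, Nat.even_add_one, not_not]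
    exact hev
  have c3 := lev_mod t (j + 1 + 1)
  rw [if_pos hev2] at c3
  obtain ⟨_, d0, d1, d2⟩ := c2
  have e3 : ip (dx up t (j + 1)) up = -2 := by omega
  have e4 := d0 e3
  have h6 := ht.inj j (j + 2) (by omega) hj2
  apply h6
  rw [vx_succ, vx_succ, e2, e4]
  abel

theorem SSt_cases {m : ℕ} {t : List Bool} (ht : t ∈ SSt m) :
    (∃ T ≤ m, t ∈ HT T) ∨ (∃ T < m, ∃ g ∈ Brd T, ∃ c, t = g ++ [c]) := by
  have hnn : ∀ i, i ≤ t.length → 0 ≤ lev t i ∧ (lev t i : ℤ) < 3 * m + 2 := by
    intro i hi
    rcases Nat.eq_zero_or_pos i with rfl | h0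
    · rw [lev_zero]
      constructor <;> omega
    · have := mem_St.1 (ht.mem i h0 hi)
      omega
  -- a highest vertex
  obtain ⟨k, hk, hmax⟩ := Finset.exists_max_image (Finset.range (t.length + 1)) (fun i => lev t i)
    ⟨0, Finset.mem_range.2 (by omega)⟩
  rw [Finset.mem_range] at hk
  have hmax' : ∀ i, i ≤ t.length → lev t i ≤ lev t k := fun i hi => hmax i (Finset.mem_range.2 (by omega))
  have hk0 := hnn k (by omega)
  have hm := lev_mod t k
  by_cases hev : Even k
  · -- level 3 T
    rw [if_pos hev] at hm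
    obtain ⟨T, hT⟩ : ∃ T : ℕ, lev t k = 3 * T := ⟨(lev t k / 3).toNat, by omega⟩
    left
    refine ⟨T, by omega, ⟨?_, ht.inj⟩, k, by omega, hT⟩
    intro i hi hl
    rw [mem_St]
    have h1 := mem_St.1 (ht.mem i hi hl)
    have h2 := hmax' i hl
    omega
  · rw [if_neg hev] at hm
    obtain ⟨T, hT⟩ : ∃ T : ℕ, lev t k = 3 * T + 2 := ⟨((lev t k - 2) / 3).toNat, by omega⟩
    obtain ⟨j, rfl⟩ : ∃ j, k = j + 1 := by
      rcases k with _ | j
      · exact absurd Even.zero hev
      · exact ⟨j, rfl⟩
    have hmax2 : ∀ i, i ≤ t.length → lev t i ≤ 3 * T + 2 := by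
      intro i hi
      have := hmax' i hi
      omega
    obtain ⟨h1, h2, h3⟩ := topC_last ht hmax2 (by omega) hT
    right
    have hne : t ≠ [] := by
      rintro rfl
      simp at h1
    refine ⟨T, by omega, t.dropLast, ?_, t.getLast hne, (List.dropLast_append_getLast hne).symm⟩
    have hgl : t.dropLast.length = j := by
      rw [List.length_dropLast]
      omega
    have hvx : ∀ i, i ≤ t.dropLast.length + 1 → vx oo up t i = vx oo up t.dropLast i := by
      intro i hi
      have := vx_append (v0 := oo) (d0 := up) (t := t.dropLast) (s := [t.getLast hne]) hi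
      rw [List.dropLast_append_getLast hne] at this
      exact this
    have hlev : ∀ i, i ≤ t.dropLast.length + 1 → lev t i = lev t.dropLast i := by
      intro i hi
      unfold lev
      rw [hvx i hi]
    have hdx : dx up t j = dx up t.dropLast j := by
      have := dx_append (d0 := up) (t := t.dropLast) (s := [t.getLast hne]) (i := j) (by omega)
      rw [List.dropLast_append_getLast hne] at this
      exact this
    rw [mem_Brd]
    refine ⟨?_, ?_, ?_, ?_⟩
    · intro i hi hl
      rw [← hlev i (by omega)]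
      have e1 := hmax2 i (by omega)
      have e2 := mem_St.1 (ht.mem i hi (by omega))
      have e3 : lev t i ≠ 3 * T + 2 := by
        intro he
        obtain ⟨i', rfl⟩ : ∃ i', i = i' + 1 := ⟨i - 1, by omega⟩
        have := (topC_last ht hmax2 (by omega) he).1
        omega
      have e4 := lev_mod t i
      split_ifs at e4 <;> omega
    · intro i l hil hl
      rw [← hvx i (by omega), ← hvx l (by omega)]
      exact ht.inj i l hil (by omega)
    · rw [hgl, ← hdx]
      exact h2
    · rw [hgl, ← hlev j (by omega)]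
      exact h3

theorem gf_SSt_le {P : Set (List Bool)} (hP : PrefC P) (m : ℕ) :
    gf (SSt m ∩ P) ≤ ∑ T ∈ Finset.range (m + 1), gf (HT T ∩ P) + 2 * ∑ T ∈ Finset.range m, gf (Brd T ∩ P) := by
  classical
  have hxc1 : ENNReal.ofReal xc ≤ 1 := by
    rw [← ENNReal.ofReal_one]
    apply ENNReal.ofReal_le_ofReal
    have h1 := xc_sq
    have h2 : (1 : ℝ) / (2 + Real.sqrt 2) ≤ 1 := by
      rw [div_le_one (by positivity)]
      have := Real.sqrt_nonneg 2
      linarith
    rw [← h1] at h2
    have h3 := xc_pos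
    nlinarith
  have hadd : ∀ (c : Bool) (T : ℕ), gf ({t | ∃ g ∈ Brd T ∩ P, t = g ++ [c]}) ≤ gf (Brd T ∩ P) := by
    intro c T
    have h1 := gf_le_mul (P := {t | ∃ g ∈ Brd T ∩ P, t = g ++ [c]}) (Q := Brd T ∩ P) (R := {[c]}) (by
      rintro t ⟨g, hg, rfl⟩
      exact ⟨g, hg, [c], rfl, rfl⟩)
    refine h1.trans ?_
    have h2 : gf ({[c]} : Set (List Bool)) ≤ 1 := by
      have h3 := gf_finset {[c]}
      rw [Finset.coe_singleton] at h3
      rw [h3, Finset.sum_singleton, List.length_singleton, pow_one]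
      exact hxc1
    calc gf (Brd T ∩ P) * gf {[c]} ≤ gf (Brd T ∩ P) * 1 := by gcongr
      _ = gf (Brd T ∩ P) := mul_one _
  have hsub : SSt m ∩ P ⊆ (⋃ T ∈ Finset.range (m + 1), HT T ∩ P) ∪
      ((⋃ T ∈ Finset.range m, {t | ∃ g ∈ Brd T ∩ P, t = g ++ [true]}) ∪
       (⋃ T ∈ Finset.range m, {t | ∃ g ∈ Brd T ∩ P, t = g ++ [false]})) := by
    rintro t ⟨ht, htP⟩
    rcases SSt_cases ht with ⟨T, hT, h⟩ | ⟨T, hT, g, hg, c, rfl⟩
    · left
      rw [Set.mem_iUnion₂]
      exact ⟨T, Finset.mem_range.2 (by omega), h, htP⟩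
    · right
      have hgP : g ∈ P := hP g [c] htP
      cases c
      · right
        rw [Set.mem_iUnion₂]
        exact ⟨T, Finset.mem_range.2 hT, g, ⟨hg, hgP⟩, rfl⟩
      · left
        rw [Set.mem_iUnion₂]
        exact ⟨T, Finset.mem_range.2 hT, g, ⟨hg, hgP⟩, rfl⟩
  have hun : ∀ (I : Finset ℕ) (Q : ℕ → Set (List Bool)), gf (⋃ T ∈ I, Q T) ≤ ∑ T ∈ I, gf (Q T) := by
    intro I Q
    induction I using Finset.induction_on with
    | empty =>
      simp [gf]
    | insert a s ha ih =>
      rw [Finset.set_biUnion_insert, Finset.sum_insert ha]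
      exact (gf_union_le _ _).trans (add_le_add le_rfl ih)
  refine (gf_mono hsub).trans ((gf_union_le _ _).trans (add_le_add (hun _ _) ((gf_union_le _ _).trans ?_)))
  rw [two_mul]
  apply add_le_add
  · exact (hun _ _).trans (Finset.sum_le_sum (fun T _ => hadd true T))
  · exact (hun _ _).trans (Finset.sum_le_sum (fun T _ => hadd false T))

end HexObs
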