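import Pool.Agent.PHW.LowA

/-!
PHW part B, counting: walks are cut at the lowest vertex into half plane walks.
-/

set_option autoImplicit false

namespace HexObs

open Complex Finset ENNReal

theorem SawN_finite (n : ℕ) : (SawN n).Finite :=
  (List.finite_length_eq Bool n).subset (fun _ ht => ht.1)

theorem HpN_finite (n : ℕ) : (HpN n).Finite :=
  (List.finite_length_eq Bool n).subset (fun _ ht => ht.1)

/-- all the words with the position of the lowest vertex given -/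
private def LowB_D (n j : ℕ) : Set (List Bool) :=
  (fun w : List Bool × List Bool => rev (w.1.tail.dropLast) ++ (w.1.headD true :: w.2.tail)) ''
    (HpN (j + 1) ×ˢ HpN (n - j + 1))

private def LowB_B (n : ℕ) : Set (List Bool) :=
  (fun w : List Bool × Bool => rev w.1 ++ [w.2]) '' (HpN (n - 1) ×ˢ (Set.univ : Set Bool))

private def LowB_C (n : ℕ) : Set (List Bool) :=
  (fun w : List Bool × Bool => rev (w.1.tail.dropLast) ++ [w.2]) ''
    (HpN (n + 1) ×ˢ (Set.univ : Set Bool))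

private lemma LowB_B_card (n : ℕ) : (LowB_B n).ncard ≤ 2 * cH (n - 1) := by
  unfold LowB_B
  refine (Set.ncard_image_le ((HpN_finite _).prod Set.finite_univ)).trans ?_
  rw [Set.ncard_prod, Set.ncard_univ, Nat.card_eq_fintype_card, Fintype.card_bool, mul_comm]
  rfl

private lemma LowB_C_card (n : ℕ) : (LowB_C n).ncard ≤ 2 * cH (n + 1) := by
  unfold LowB_C
  refine (Set.ncard_image_le ((HpN_finite _).prod Set.finite_univ)).trans ?_
  rw [Set.ncard_prod, Set.ncard_univ, Nat.card_eq_fintype_card, Fintype.card_bool, mul_comm]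
  rfl

private lemma LowB_D_card (n j : ℕ) : (LowB_D n j).ncard ≤ cH (j + 1) * cH (n - j + 1) := by
  unfold LowB_D
  refine (Set.ncard_image_le ((HpN_finite _).prod (HpN_finite _))).trans ?_
  rw [Set.ncard_prod]
  rfl

private lemma LowB_fin_B (n : ℕ) : (LowB_B n).Finite :=
  ((HpN_finite _).prod Set.finite_univ).image _

private lemma LowB_fin_C (n : ℕ) : (LowB_C n).Finite :=
  ((HpN_finite _).prod Set.finite_univ).image _

private lemma LowB_fin_D (n j : ℕ) : (LowB_D n j).Finite :=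
  ((HpN_finite _).prod (HpN_finite _)).image _

private lemma LowB_last {n : ℕ} (hn : 1 ≤ n) {t : List Bool} (ht : t.length = n) :
    ∃ c, t = t.take (n - 1) ++ [c] := by
  have h1 : (t.drop (n - 1)).length = 1 := by
    rw [List.length_drop]
    omega
  obtain ⟨c, hc⟩ := List.length_eq_one_iff.1 h1
  refine ⟨c, ?_⟩
  rw [← hc, List.take_append_drop]

private lemma LowB_sub {n : ℕ} (hn : 1 ≤ n) :
    SawN n ⊆ HpN n ∪ LowB_B n ∪ LowB_C n ∪ ⋃ j ∈ Finset.Ico 1 n, LowB_D n j := by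
  intro t ht
  obtain ⟨c, hc⟩ := LowB_last hn ht.1
  rcases low_split hn ht with h | h | ⟨b, h⟩ | ⟨j, b, hj1, hjn, heq, h1, h2⟩
  · exact Or.inl (Or.inl (Or.inl h))
  · refine Or.inl (Or.inl (Or.inr ⟨(rev (t.take (n - 1)), c), ⟨h, trivial⟩, ?_⟩))
    show rev (rev (t.take (n - 1))) ++ [c] = t
    rw [rev_rev, ← hc]
  · refine Or.inl (Or.inr ⟨(b :: (rev (t.take (n - 1)) ++ [true]), c), ⟨h, trivial⟩, ?_⟩)
    show rev ((rev (t.take (n - 1)) ++ [true]).dropLast) ++ [c] = t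
    rw [List.dropLast_concat, rev_rev, ← hc]
  · refine Or.inr ?_
    rw [Set.mem_iUnion₂]
    refine ⟨j, Finset.mem_Ico.2 ⟨hj1, hjn⟩,
      (b :: (rev (t.take (j - 1)) ++ [true]), (!b) :: t.drop j), ⟨h1, h2⟩, ?_⟩
    show rev ((rev (t.take (j - 1)) ++ [true]).dropLast) ++ (b :: t.drop j) = t
    rw [List.dropLast_concat, rev_rev, ← heq]

theorem cS_le_sum {n : ℕ} (hn : 1 ≤ n) :
    cS n ≤ cH n + 2 * cH (n - 1) + 4 * cH (n + 1) + 2 * ∑ j ∈ Finset.Ico 1 n, cH (j + 1) * cH (n - j + 1) := by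
  have hfU : (⋃ j ∈ Finset.Ico 1 n, LowB_D n j).Finite :=
    (Finset.finite_toSet (Finset.Ico 1 n)).biUnion (fun j _ => LowB_fin_D n j)
  have hfin : (HpN n ∪ LowB_B n ∪ LowB_C n ∪ ⋃ j ∈ Finset.Ico 1 n, LowB_D n j).Finite :=
    (((HpN_finite n).union (LowB_fin_B n)).union (LowB_fin_C n)).union hfU
  have h1 : cS n ≤ (HpN n ∪ LowB_B n ∪ LowB_C n ∪ ⋃ j ∈ Finset.Ico 1 n, LowB_D n j).ncard :=
    Set.ncard_le_ncard (LowB_sub hn) hfin
  have h2 := Set.ncard_union_le (HpN n ∪ LowB_B n ∪ LowB_C n) (⋃ j ∈ Finset.Ico 1 n, LowB_D n j)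
  have h3 := Set.ncard_union_le (HpN n ∪ LowB_B n) (LowB_C n)
  have h4 := Set.ncard_union_le (HpN n) (LowB_B n)
  have h5 : (⋃ j ∈ Finset.Ico 1 n, LowB_D n j).ncard ≤
      ∑ j ∈ Finset.Ico 1 n, cH (j + 1) * cH (n - j + 1) := by
    have key : ∀ S : Finset ℕ, (⋃ j ∈ S, LowB_D n j).ncard ≤
        ∑ j ∈ S, cH (j + 1) * cH (n - j + 1) := by
      intro S
      induction S using Finset.induction_on with
      | empty => simp
      | insert a S ha ih =>
        rw [Finset.set_biUnion_insert, Finset.sum_insert ha]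
        exact (Set.ncard_union_le _ _).trans (add_le_add (LowB_D_card n a) ih)
    exact key _
  have h6 := LowB_B_card n
  have h7 := LowB_C_card n
  have h8 : (HpN n).ncard = cH n := rfl
  omega

private lemma LowB_inv : 1 ≤ 2 * xc ∧ xc ≤ 1 ∧ 0 < xc := by
  have h0 : 0 < Real.cos (Real.pi / 8) := by
    apply Real.cos_pos_of_mem_Ioo
    constructor <;> linarith [Real.pi_pos]
  have h1 : Real.cos (Real.pi / 8) ≤ 1 := Real.cos_le_one _
  have h2 : 1 / 2 ≤ Real.cos (Real.pi / 8) := by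
    rw [← Real.cos_pi_div_three]
    apply Real.cos_le_cos_of_nonneg_of_le_pi
    · positivity
    · linarith [Real.pi_pos]
    · linarith [Real.pi_pos]
  unfold xc
  refine ⟨?_, ?_, by positivity⟩
  · rw [show 2 * (1 / (2 * Real.cos (Real.pi / 8))) = 1 / Real.cos (Real.pi / 8) by field_simp]
    rw [le_div_iff₀ h0]
    linarith
  · rw [div_le_one (by positivity)]
    linarith

theorem cS_le (n : ℕ) {Q : ℝ} (hQ : 1 ≤ Q) (h : ∀ m ≤ n + 1, cH m * xc ^ m ≤ Q) :
    cS n * xc ^ n ≤ 40 * (n + 1) * Q ^ 2 := by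
  obtain ⟨hx1, hx2, hx0⟩ := LowB_inv
  have hQQ : Q ≤ Q ^ 2 := by nlinarith
  rcases Nat.eq_zero_or_pos n with hn | hn
  · subst hn
    have h1 : cS 0 ≤ 1 := by
      have h2 : SawN 0 ⊆ {[]} := by
        intro t ht
        exact List.length_eq_zero_iff.1 ht.1
      have := Set.ncard_le_ncard h2 (Set.finite_singleton _)
      rwa [Set.ncard_singleton] at this
    have h2 : (cS 0 : ℝ) ≤ 1 := by exact_mod_cast h1
    simp only [pow_zero, mul_one, Nat.cast_zero, zero_add]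
    nlinarith
  · have hs := cS_le_sum hn
    have hs' : (cS n : ℝ) ≤ cH n + 2 * cH (n - 1) + 4 * cH (n + 1) +
        2 * ∑ j ∈ Finset.Ico 1 n, (cH (j + 1) : ℝ) * cH (n - j + 1) := by
      exact_mod_cast hs
    have hp : 0 < xc ^ n := by positivity
    have e1 : (cH n : ℝ) * xc ^ n ≤ Q := h n (by omega)
    have e2 : (cH (n - 1) : ℝ) * xc ^ n ≤ Q := by
      have h2 := h (n - 1) (by omega)
      have h3 : xc ^ n = xc ^ (n - 1) * xc := by
        rw [← pow_succ]
        congr 1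
        omega
      rw [h3, ← mul_assoc]
      have h4 : 0 ≤ (cH (n - 1) : ℝ) * xc ^ (n - 1) := by positivity
      nlinarith
    have e3 : (cH (n + 1) : ℝ) * xc ^ n ≤ 2 * Q := by
      have h2 := h (n + 1) le_rfl
      have h4 : 0 ≤ (cH (n + 1) : ℝ) * xc ^ n := by positivity
      rw [pow_succ, ← mul_assoc] at h2
      nlinarith
    have e4 : ∀ j ∈ Finset.Ico 1 n, (cH (j + 1) : ℝ) * cH (n - j + 1) * xc ^ n ≤ 4 * Q ^ 2 := by
      intro j hj
      rw [Finset.mem_Ico] at hj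
      have h2 := h (j + 1) (by omega)
      have h3 := h (n - j + 1) (by omega)
      have h4 : (cH (j + 1) : ℝ) * xc ^ (j + 1) * (cH (n - j + 1) * xc ^ (n - j + 1)) ≤ Q * Q :=
        mul_le_mul h2 h3 (by positivity) (by linarith)
      have h5 : xc ^ (j + 1) * xc ^ (n - j + 1) = xc ^ n * (xc * xc) := by
        rw [← pow_add, show j + 1 + (n - j + 1) = n + 2 by omega, pow_add]
        ring
      have h6 : (cH (j + 1) : ℝ) * xc ^ (j + 1) * (cH (n - j + 1) * xc ^ (n - j + 1)) =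
          ((cH (j + 1) : ℝ) * cH (n - j + 1) * xc ^ n) * (xc * xc) := by
        rw [show (cH (j + 1) : ℝ) * xc ^ (j + 1) * (cH (n - j + 1) * xc ^ (n - j + 1)) =
          (cH (j + 1) : ℝ) * cH (n - j + 1) * (xc ^ (j + 1) * xc ^ (n - j + 1)) by ring, h5]
        ring
      rw [h6] at h4
      have h7 : 0 ≤ (cH (j + 1) : ℝ) * cH (n - j + 1) * xc ^ n := by positivity
      have h8 : (1 : ℝ) / 4 ≤ xc * xc := by nlinarith
      nlinarith
    have e5 : (∑ j ∈ Finset.Ico 1 n, (cH (j + 1) : ℝ) * cH (n - j + 1)) * xc ^ n ≤ n * (4 * Q ^ 2) := by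
      rw [Finset.sum_mul]
      refine (Finset.sum_le_sum e4).trans ?_
      rw [Finset.sum_const, Nat.card_Ico, nsmul_eq_mul]
      have : ((n - 1 : ℕ) : ℝ) ≤ n := by exact_mod_cast Nat.sub_le n 1
      have h9 : 0 ≤ 4 * Q ^ 2 := by positivity
      nlinarith
    have hn0 : (1 : ℝ) ≤ n := by exact_mod_cast hn
    calc (cS n : ℝ) * xc ^ n ≤ (cH n + 2 * cH (n - 1) + 4 * cH (n + 1) +
          2 * ∑ j ∈ Finset.Ico 1 n, (cH (j + 1) : ℝ) * cH (n - j + 1)) * xc ^ n :=
          mul_le_mul_of_nonneg_right hs' hp.le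
      _ = cH n * xc ^ n + 2 * (cH (n - 1) * xc ^ n) + 4 * (cH (n + 1) * xc ^ n) +
          2 * ((∑ j ∈ Finset.Ico 1 n, (cH (j + 1) : ℝ) * cH (n - j + 1)) * xc ^ n) := by ring
      _ ≤ Q + 2 * Q + 4 * (2 * Q) + 2 * (n * (4 * Q ^ 2)) := by
          gcongr
      _ ≤ 40 * (n + 1) * Q ^ 2 := by nlinarith

end HexObs
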