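import Pool.Agent.PHW.Base
import Pool.Agent.HexObs.Sym

/-!
PHW: definitions for the renewal structure of bridge words.
-/

set_option autoImplicit false

namespace HexObs

open Complex Finset ENNReal

/-- the height c is a cut of the word t -/
def Cut (t : List Bool) (c : ℕ) : Prop := ∃ s u b, s ∈ Brd c ∧ u ∈ Brd b ∧ t = s ++ u

/-- bridges of height j (at least s) without cuts in [s, j): j is the first cut at or above s -/
def FC (s j : ℕ) : Set (List Bool) := {t | t ∈ Brd j ∧ s ≤ j ∧ ∀ c, s ≤ c → c < j → ¬ Cut t c}

/-- horizontal coordinate of the vertex number i (two units = distance of neighbouring feet are 2) -/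
def lat (t : List Bool) (i : ℕ) : ℤ := -(cross up (vx oo up t i))

/-- horizontal coordinate of the last vertex -/
def latE (t : List Bool) : ℤ := lat t t.length

/-- real bridge weights, u 0 = 1 -/
noncomputable def uu (T : ℕ) : ℝ := (BT T).toReal

/-- real weights of the irreducible bridges -/
noncomputable def kk (r : ℕ) : ℝ := (kap' r).toReal

/-- partial sums of the bridge weights, including u 0 = 1 -/
noncomputable def UU (T : ℕ) : ℝ := ∑ t ∈ Finset.range (T + 1), uu t

/-- probability that the first piece has height at least n (n ≥ 1) -/
noncomputable def KK' (n : ℕ) : ℝ := 1 - ∑ r ∈ Finset.range n, kk r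

/-- number of the first vertex of t on the level 3 h (t is a bridge of height at least h) or beyond, that is the
first index i with 3 h ≤ lev t i -/
noncomputable def fp (t : List Bool) (h : ℕ) : ℕ := sInf {i | 3 * (h : ℤ) ≤ lev t i}

end HexObs
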