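import Pool.Agent.PHW.DefsQ
import Pool.Agent.PHW.Num3
import Pool.Agent.PHW.FirstCut
import Pool.Agent.W47.Final
import Pool.Agent.HexObs.NI

/-!
PHW, part Q, module Q4: elementary properties of Via, VV, FC and of the sums of large pieces.
-/

set_option autoImplicit false

namespace HexObs

open Complex Finset ENNReal

theorem Via_left {a b : ℕ} {s1 s2 t : List Bool} (hs1 : s1 ∈ Brd a) (hs2 : s2 ∈ Brd b) (h : Via (s1 ++ s2) t) :
    Via s1 t := by
  have _ := hs1
  intro c b' p q hp hq hpq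
  exact h c (b' + b) p (q ++ s2) hp (Brd_append hq hs2) (by rw [hpq, List.append_assoc])

theorem Via_gap {a : ℕ} {s t : List Bool} (hs : s ∈ Brd a) (h : Via s t) : Gap s t a 1 :=
  h a 0 s [] hs nil_mem_Brd (List.append_nil s).symm

namespace ViaEaux

lemma BT_le_one0 (T : ℕ) : BT T ≤ 1 := by
  rcases Nat.eq_zero_or_pos T with rfl | h
  · rw [← gf_Brd, Brd_zero]
    unfold gf
    rw [tsum_singleton (f := wE)]
    unfold wE
    simp
  · exact BT_le_one h

lemma BT_ne_top0 (T : ℕ) : BT T ≠ ∞ := ne_top_of_le_ne_top ENNReal.one_ne_top (BT_le_one0 T)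

lemma kap_ne_top0 (r : ℕ) : kap' r ≠ ∞ := by
  refine ne_top_of_le_ne_top (BT_ne_top0 r) ?_
  rw [← gf_Brd]
  exact gf_mono (fun t ht => ht.1)

end ViaEaux

open ViaEaux

theorem kap'_eq (r : ℕ) : kap' r = ENNReal.ofReal (kk r) := (ENNReal.ofReal_toReal (kap_ne_top0 r)).symm

theorem BT_eq_uu (T : ℕ) : BT T = ENNReal.ofReal (uu T) := (ENNReal.ofReal_toReal (BT_ne_top0 T)).symm

theorem VV_le (a b : ℕ) : VV a b ≤ BT a * BT b := by
  unfold VV
  rw [g2_left]
  calc ∑' s : {s : List Bool // s ∈ Brd a}, wE s.1 * gf {t | t ∈ Brd b ∧ (Dj s.1 t ∧ Via s.1 t)}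
      ≤ ∑' s : {s : List Bool // s ∈ Brd a}, wE s.1 * BT b := by
        refine ENNReal.tsum_le_tsum fun s => ?_
        rw [← gf_Brd b]
        exact mul_le_mul_right (gf_mono fun t ht => ht.1) _
    _ = BT a * BT b := by
        rw [ENNReal.tsum_mul_right, ← gf_Brd a]
        rfl

theorem VV_le' (a b : ℕ) : VV a b ≤ ENNReal.ofReal (uu b) := by
  rw [← BT_eq_uu]
  calc VV a b ≤ BT a * BT b := VV_le a b
    _ ≤ 1 * BT b := mul_le_mul_left (BT_le_one0 a) _
    _ = BT b := one_mul _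

theorem sum_FC_le (s N : ℕ) : ∑ j ∈ Finset.range N, gf (FC s j) ≤ 1 := by
  set n := max s N with hn
  have h1 := gf_FC (Set.univ) (le_max_left s N : s ≤ n)
  have h2 : ∑ j ∈ Finset.Icc s n, gf (FC s j ∩ Set.univ) * BT (n - j) ≤ BT n := by
    rw [← h1, ← gf_Brd n]
    exact gf_mono fun t ht => ht.1
  have h3 : (∑ j ∈ Finset.Icc s n, gf (FC s j)) * BT n ≤ 1 * BT n := by
    rw [Finset.sum_mul, one_mul]
    refine le_trans (Finset.sum_le_sum fun j hj => ?_) h2
    rw [Set.inter_univ, BT_eq_uu n, BT_eq_uu (n - j)]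
    exact mul_le_mul_right (ENNReal.ofReal_le_ofReal (uu_anti (Nat.sub_le n j))) _
  have h4 : BT n ≠ 0 := by
    rw [BT_eq_uu n]
    exact (ENNReal.ofReal_pos.2 (uu_pos n)).ne'
  have h5 : ∑ j ∈ Finset.Icc s n, gf (FC s j) ≤ 1 := (ENNReal.mul_le_mul_iff_left h4 (BT_ne_top0 n)).1 h3
  refine le_trans ?_ h5
  have h6 : ∑ j ∈ Finset.range N, gf (FC s j) = ∑ j ∈ (Finset.range N).filter (fun j => s ≤ j), gf (FC s j) := by
    rw [Finset.sum_filter]
    refine Finset.sum_congr rfl fun j _ => ?_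
    split_ifs with h
    · rfl
    · have : FC s j = ∅ := by
        ext t
        simp only [Set.mem_empty_iff_false, iff_false]
        intro ht
        exact h ht.2.1
      rw [this]
      unfold gf
      simp
  rw [h6]
  refine Finset.sum_le_sum_of_subset fun j hj => ?_
  rw [Finset.mem_filter, Finset.mem_range] at hj
  rw [Finset.mem_Icc]
  have := le_max_right s N
  omega

/-- pieces that jump: sum of the weights of the large pieces -/
theorem sum_kap_gt (R N : ℕ) : ∑ r ∈ Finset.Ico (R + 1) N, kap' r ≤ ENNReal.ofReal (KK' (R + 1)) := by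
  have h1 : ∑ r ∈ Finset.Ico (R + 1) N, kap' r = ENNReal.ofReal (∑ r ∈ Finset.Ico (R + 1) N, kk r) := by
    rw [ENNReal.ofReal_sum_of_nonneg fun r _ => kk_nonneg r]
    exact Finset.sum_congr rfl fun r _ => kap'_eq r
  rw [h1]
  refine ENNReal.ofReal_le_ofReal ?_
  unfold KK'
  rcases Nat.lt_or_ge N (R + 1) with h | h
  · rw [Finset.Ico_eq_empty (by omega), Finset.sum_empty]
    linarith [sum_kk_le (R + 1)]
  · have h2 := Finset.sum_range_add_sum_Ico (fun r => kk r) h
    linarith [sum_kk_le N]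

/-- the same for bridges of exact height n -/
theorem sum_kap_u (R n : ℕ) :
    ∑ r ∈ Finset.Ico (R + 1) (n + 1), kap' r * BT (n - r) ≤ ENNReal.ofReal (KK' (R + 1) * uu n) := by
  have h1 : ∑ r ∈ Finset.Ico (R + 1) (n + 1), kap' r * BT (n - r) =
      ENNReal.ofReal (∑ r ∈ Finset.Ico (R + 1) (n + 1), kk r * uu (n - r)) := by
    rw [ENNReal.ofReal_sum_of_nonneg fun r _ => mul_nonneg (kk_nonneg r) (uu_pos _).le]
    refine Finset.sum_congr rfl fun r _ => ?_
    rw [kap'_eq, BT_eq_uu, ENNReal.ofReal_mul (kk_nonneg r)]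
  rw [h1]
  refine ENNReal.ofReal_le_ofReal ?_
  rcases Nat.lt_or_ge n (R + 1) with h | h
  · rw [Finset.Ico_eq_empty (by omega), Finset.sum_empty]
    exact mul_nonneg (KK_nonneg _) (uu_pos n).le
  · have h2 := renewal_real (T := n) (by omega)
    have e : Finset.Icc 1 n = Finset.Ico 1 (n + 1) := by
      ext x
      simp only [Finset.mem_Icc, Finset.mem_Ico]
      omega
    rw [e, ← Finset.sum_Ico_consecutive (fun r => kk r * uu (n - r)) (by omega : 1 ≤ R + 1)
      (by omega : R + 1 ≤ n + 1)] at h2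
    have h3 : (∑ r ∈ Finset.Ico 1 (R + 1), kk r) * uu n ≤ ∑ r ∈ Finset.Ico 1 (R + 1), kk r * uu (n - r) := by
      rw [Finset.sum_mul]
      exact Finset.sum_le_sum fun r _ => mul_le_mul_of_nonneg_left (uu_anti (Nat.sub_le n r)) (kk_nonneg r)
    have h4 : ∑ r ∈ Finset.range (R + 1), kk r = ∑ r ∈ Finset.Ico 1 (R + 1), kk r := by
      rw [Finset.range_eq_Ico, Finset.sum_eq_sum_Ico_succ_bot (by omega : 0 < R + 1), kk_zero, zero_add]
    unfold KK'
    rw [h4, sub_mul, one_mul]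
    linarith

end HexObs
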