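import Pool.Agent.PHW.Defs

/-!
PHW, module A2: cuts of a bridge.
-/

set_option autoImplicit false

namespace HexObs

open Complex Finset ENNReal

theorem cut_nested {c c' b b' : ℕ} {s s' u u' : List Bool} (hs : s ∈ Brd c) (hs' : s' ∈ Brd c')
    (hu : u ∈ Brd b) (hu' : u' ∈ Brd b') (hc : c ≤ c') (h : s ++ u = s' ++ u') :
    ∃ v ∈ Brd (c' - c), s' = s ++ v ∧ u = v ++ u' := by
  have hs2 := mem_Brd.1 hs
  have hs2' := mem_Brd.1 hs'
  have hu2 := mem_Brd.1 hu
  have hu2' := mem_Brd.1 hu'
  rcases List.append_eq_append_iff.1 h with ⟨v, h1, h2⟩ | ⟨v, h1, h2⟩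
  · refine ⟨v, (Brd_cancel hs (h1 ▸ hs') fun j hj hj' => ?_).2, h1, h2⟩
    have h3 : lev (s ++ v) (s.length + j) = lev (s ++ v ++ u') (s.length + j) :=
      (lev_append (by rw [List.length_append]; omega)).symm
    rw [h3, ← h1, ← h, lev_cat hs2.2.2.1, hs2.2.2.2]
    have h4 := (hu2.1 j hj (by rw [h2, List.length_append]; omega)).1
    omega
  · rcases List.eq_nil_or_concat v with rfl | ⟨w, x, hw⟩
    · rw [List.append_nil] at h1
      rw [List.nil_append] at h2
      subst h1
      have hcc := Brd_height hs hs'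
      refine ⟨[], ?_, (List.append_nil s).symm, h2.symm⟩
      rw [hcc, Nat.sub_self]
      exact nil_mem_Brd
    · exfalso
      have hv : 1 ≤ v.length := by
        rw [hw, List.length_concat]
        omega
      have h3 := lev_cat (t := v ++ u) hs2'.2.2.1 v.length
      have h4 : lev (s' ++ (v ++ u)) (s'.length + v.length) = lev s s.length := by
        rw [← List.append_assoc, ← h1, ← List.length_append, ← h1]
        exact lev_append (by omega)
      rw [h4, hs2.2.2.2, hs2'.2.2.2, ← h2] at h3
      have h5 := (hu2'.1 v.length hv (by rw [h2, List.length_append]; omega)).1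
      have h6 : (c : ℤ) ≤ c' := by exact_mod_cast hc
      omega

theorem cut_unique {c b b' : ℕ} {s s' u u' : List Bool} (hs : s ∈ Brd c) (hs' : s' ∈ Brd c)
    (hu : u ∈ Brd b) (hu' : u' ∈ Brd b') (h : s ++ u = s' ++ u') : s = s' ∧ u = u' := by
  obtain ⟨v, hv, h1, h2⟩ := cut_nested hs hs' hu hu' le_rfl h
  rw [Nat.sub_self, Brd_zero] at hv
  have h3 : v = [] := hv
  rw [h3, List.append_nil] at h1
  rw [h3, List.nil_append] at h2
  exact ⟨h1.symm, h2⟩

/-- c is a cut iff all vertices after some vertex of level 3c are higher and all vertices up to it are at most so high -/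
theorem cut_iff {T c : ℕ} {t : List Bool} (ht : t ∈ Brd T) :
    Cut t c ↔ ∃ i, i ≤ t.length ∧ lev t i = 3 * c ∧ dx up t i = up ∧
      (∀ k, k ≤ i → lev t k ≤ 3 * c) ∧ (∀ k, i < k → k ≤ t.length → 3 * (c : ℤ) < lev t k) := by
  constructor
  · rintro ⟨s, u, b, hs, hu, rfl⟩
    have hs2 := mem_Brd.1 hs
    have hu2 := mem_Brd.1 hu
    refine ⟨s.length, by rw [List.length_append]; omega, ?_, ?_, ?_, ?_⟩
    · rw [lev_append (by omega), hs2.2.2.2]
    · rw [dx_append le_rfl, hs2.2.2.1]
    · intro k hk
      rw [lev_append (by omega)]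
      rcases Nat.eq_zero_or_pos k with h0 | h0
      · rw [h0, lev_zero]
        omega
      · exact (hs2.1 k h0 hk).2
    · intro k hk hl
      rw [List.length_append] at hl
      obtain ⟨j, rfl⟩ : ∃ j, k = s.length + j := ⟨k - s.length, by omega⟩
      rw [lev_cat hs2.2.2.1, hs2.2.2.2]
      have h1 := (hu2.1 j (by omega) (by omega)).1
      omega
  · rintro ⟨i, hi, h1, h2, h3, h4⟩
    have ht2 := mem_Brd.1 ht
    have hlen : (t.take i).length = i := by rw [List.length_take]; omega
    have hcat : t.take i ++ t.drop i = t := List.take_append_drop i t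
    have hlev : ∀ k, k ≤ i + 1 → lev (t.take i) k = lev t k := by
      intro k hk
      conv_rhs => rw [← hcat]
      exact (lev_append (by omega)).symm
    have hs : t.take i ∈ Brd c := by
      rw [mem_Brd, hlen]
      refine ⟨?_, ?_, ?_, ?_⟩
      · intro k hk hki
        rw [hlev k (by omega)]
        exact ⟨(ht2.1 k hk (by omega)).1, h3 k hki⟩
      · intro j k hjk hki
        have e1 : vx oo up (t.take i) j = vx oo up t j := by
          conv_rhs => rw [← hcat]
          exact (vx_append (by omega)).symm
        have e2 : vx oo up (t.take i) k = vx oo up t k := by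
          conv_rhs => rw [← hcat]
          exact (vx_append (by omega)).symm
        rw [e1, e2]
        exact ht2.2.1 j k hjk (by omega)
      · have e1 : dx up (t.take i) i = dx up t i := by
          conv_rhs => rw [← hcat]
          exact (dx_append (by omega)).symm
        rw [e1, h2]
      · rw [hlev i (by omega), h1]
    refine ⟨t.take i, t.drop i, T - c, hs, ?_, hcat.symm⟩
    refine (Brd_cancel hs (T := T) (hcat.symm ▸ ht) ?_).2
    intro j hj hl
    rw [hcat, hlen]
    rw [List.length_drop] at hl
    exact h4 (i + j) (by omega) (by omega)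

end HexObs
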