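import Pool.Agent.PHW.DefsQ
import Pool.Agent.PHW.Num1
import Pool.Agent.PHW.Num2
import Pool.Agent.W47.Final
import Pool.Agent.HexObs.NI

/-!
PHW, part Q: anti-concentration of the end point of a bridge.
-/

set_option autoImplicit false

namespace HexObs

open Complex Finset ENNReal

namespace AntiCaux

/-- the bridges that end at the column x end at the same edge -/
lemma sub_BrAt {h : ℕ} {x : ℤ} {t0 : List Bool} (ht0 : t0 ∈ Brd h) (hx0 : latE t0 = x) :
    {t | t ∈ Brd h ∧ latE t = x} ⊆ BrAt (strip oo up h) oo up (tip oo up t0) := by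
  rintro t ⟨ht, hx⟩
  have a := mem_Brd.1 ht
  have a0 := mem_Brd.1 ht0
  have e : vx oo up t t.length = vx oo up t0 t0.length := by
    apply xy_inj (v0 := oo) upd
    have o1 : ∀ p : Pt, p - oo = p := fun p => sub_zero p
    apply Prod.ext
    · show -(cross up (vx oo up t t.length - oo)) = -(cross up (vx oo up t0 t0.length - oo))
      rw [o1, o1]
      exact hx.trans hx0.symm
    · show ip (vx oo up t t.length - oo) up = ip (vx oo up t0 t0.length - oo) up
      rw [lev_sub, lev_sub, a.2.2.2, a0.2.2.2]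
  refine ⟨⟨?_, ht.2.1, ht.2.2⟩, ?_⟩
  · have h1 := ht.1
    rw [Set.sdiff_empty] at h1
    exact h1
  · rw [tip_eq, tip_eq, e, a.2.2.1, a0.2.2.1]

end AntiCaux

theorem anti_end : ∃ C : ℝ, 0 < C ∧ ∀ h : ℕ, 1 ≤ h → ∀ x : ℤ,
    gf {t | t ∈ Brd h ∧ latE t = x} ≤ ENNReal.ofReal (C * (uu h / h)) := by
  obtain ⟨c, hc⟩ : ∃ c : ℝ, c = 3 + 2 * Real.sqrt 2 := ⟨_, rfl⟩
  obtain ⟨c', hc'⟩ : ∃ c' : ℝ, c' = 2 * (1 + Real.sqrt 2) ^ 3 := ⟨_, rfl⟩
  have hs0 : 0 ≤ Real.sqrt 2 := Real.sqrt_nonneg 2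
  have hs1 : 0 < Real.sqrt 2 := Real.sqrt_pos.2 (by norm_num)
  have hc0 : 0 < c := by rw [hc]; linarith
  have hc0' : 0 < c' := by rw [hc']; positivity
  refine ⟨c * (Real.sqrt 2 * c'), by positivity, fun h hh x => ?_⟩
  have hh' : (0 : ℝ) < h := by exact_mod_cast hh
  by_cases hne : ∃ t, t ∈ Brd h ∧ latE t = x
  · obtain ⟨t0, ht0, hx0⟩ := hne
    refine (gf_mono (AntiCaux.sub_BrAt ht0 hx0)).trans ((anti_conc upd hh _).trans ?_)
    apply ENNReal.ofReal_le_ofReal
    rw [← hc]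
    have h1 := loss hh
    have h2 := gg_top (h + 1) (by omega)
    rw [gg_same, ← hc'] at h2
    have h3 : uu (h + 1) ^ 2 / UU (h + 1) ≤ uu h / h := by
      have h4 := Num2Aux.mul_le_UU (h + 1)
      have h5 := uu_pos (h + 1)
      have h6 : uu (h + 1) ≤ uu h := uu_anti (Nat.le_succ h)
      have h7 : 0 < UU (h + 1) := by
        have : 0 < ((h + 1 : ℕ) : ℝ) * uu (h + 1) := by positivity
        linarith
      rw [div_le_div_iff₀ h7 hh']
      have h8 : (h : ℝ) * uu (h + 1) ≤ UU (h + 1) := by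
        push_cast at h4
        nlinarith
      calc uu (h + 1) ^ 2 * h = uu (h + 1) * (h * uu (h + 1)) := by ring
        _ ≤ uu h * UU (h + 1) := mul_le_mul h6 h8 (by positivity) (uu_pos h).le
    have h9 : bT h - bT (h + 1) ≤ Real.sqrt 2 * c' * (uu h / h) := by
      have a1 := mul_le_mul_of_nonneg_left h2 hs0
      have a2 := mul_le_mul_of_nonneg_left h3 (by positivity : 0 ≤ Real.sqrt 2 * c')
      have a3 : Real.sqrt 2 * (c' * (uu (h + 1) ^ 2 / UU (h + 1))) =
        Real.sqrt 2 * c' * (uu (h + 1) ^ 2 / UU (h + 1)) := by ring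
      linarith
    have h10 := mul_le_mul_of_nonneg_left h9 hc0.le
    calc c * (bT h - bT (h + 1)) ≤ c * (Real.sqrt 2 * c' * (uu h / h)) := h10
      _ = c * (Real.sqrt 2 * c') * (uu h / h) := by ring
  · have he : {t | t ∈ Brd h ∧ latE t = x} = ∅ := by
      rw [Set.eq_empty_iff_forall_notMem]
      intro t ht
      exact hne ⟨t, ht⟩
    rw [he]
    unfold gf
    simp

end HexObs
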