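import Pool.Agent.W47.Base
import Pool.Agent.HexObs.Planar2

/-!
PHW: bridges as words, concatenation, cuts, irreducible bridges.
-/

set_option autoImplicit false

namespace HexObs

open Complex Finset ENNReal

lemma upd : up ∈ dirs := by decide

/-- level of the vertex number i of the walk that starts at the origin upwards -/
def lev (t : List Bool) (i : ℕ) : ℤ := ip (vx oo up t i) up

/-- bridges of height T -/
def Brd (T : ℕ) : Set (List Bool) := Br (St T) ∅ oo up

lemma gf_Brd (T : ℕ) : gf (Brd T) = BT T := by
  unfold Brd Br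
  rw [Set.sdiff_empty]
  exact gf_B upd oo T

lemma lev_sub (t : List Bool) (i : ℕ) : ip (vx oo up t i - oo) up = lev t i := by
  unfold lev
  congr 1
  exact sub_zero _

lemma lev_zero (t : List Bool) : lev t 0 = 0 := by
  show ip oo up = 0
  decide

lemma lev_mod (t : List Bool) (i : ℕ) : (3 : ℤ) ∣ lev t i - (if Even i then 0 else 2) := by
  have := level_mod_foot (v0 := oo) (v1 := oo) upd (by decide) t i
  rwa [lev_sub] at this

lemma lev_succ (t : List Bool) (i : ℕ) : lev t (i + 1) = lev t i + ip (dx up t i) up := by
  have := level_succ_foot oo oo up t i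
  rwa [lev_sub, lev_sub] at this

lemma mem_St {T : ℕ} {t : List Bool} {i : ℕ} :
    vx oo up t i ∈ St T ↔ 0 < lev t i ∧ lev t i < 3 * T + 2 := by
  unfold St strip
  rw [Set.mem_ofPred_eq, lev_sub]
  exact ⟨fun h => h.2, fun h => ⟨vx_hex oo up t i, h⟩⟩

/-- intrinsic form of the definition of bridges -/
lemma mem_Brd {T : ℕ} {t : List Bool} : t ∈ Brd T ↔
    (∀ i, 1 ≤ i → i ≤ t.length → 0 < lev t i ∧ lev t i ≤ 3 * T) ∧
    (∀ i k, i < k → k ≤ t.length → vx oo up t i ≠ vx oo up t k) ∧
    dx up t t.length = up ∧ lev t t.length = 3 * T := by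
  have htip : ip (tip oo up t - oo) up = lev t (t.length + 1) := lev_sub t _
  constructor
  · intro ht
    have h0 := br_level upd (by decide) rfl ht
    obtain ⟨⟨h1, h2⟩, h3, h4⟩ := ht
    have h5 : lev t t.length = 3 * T := by
      rw [htip, lev_succ, h4] at h0
      have : ip up up = 2 := by decide
      omega
    refine ⟨?_, h2, h4, h5⟩
    intro i hi hl
    have h6 := mem_St.1 (h1 i hi hl).1
    have h7 := lev_mod t i
    refine ⟨h6.1, ?_⟩
    split_ifs at h7 <;> omega
  · rintro ⟨h1, h2, h3, h4⟩
    have h5 : lev t (t.length + 1) = 3 * T + 2 := by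
      rw [lev_succ, h3, h4]
      have : ip up up = 2 := by decide
      omega
    refine ⟨⟨?_, h2⟩, ?_, h3⟩
    · intro i hi hl
      refine ⟨mem_St.2 ?_, fun h => h⟩
      have := h1 i hi hl
      constructor
      · exact this.1
      · have := this.2
        omega
    · intro h
      have h6 : 0 < lev t (t.length + 1) ∧ lev t (t.length + 1) < 3 * T + 2 := mem_St.1 h
      omega

/-- the second part of a concatenation -/
lemma vx_cat {s t : List Bool} (hs : dx up s s.length = up) (j : ℕ) :
    vx oo up (s ++ t) (s.length + j) = vx oo up s s.length + vx oo up t j := by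
  have h1 : vx oo up (s ++ t) (s.length + j) =
      vx (vx oo up (s ++ t) s.length) (dx up (s ++ t) s.length) t j := by
    unfold vx dx
    rw [vs_shift]
    apply vs_congr
    intro k _
    exact tf_append_right k
  have e1 : vx oo up (s ++ t) s.length = vx oo up s s.length := vx_append (by omega)
  have e2 : dx up (s ++ t) s.length = up := (dx_append le_rfl).trans hs
  rw [e1, e2] at h1
  rw [h1]
  have h2 := vx_mulE (1, 0) oo (vx oo up s s.length) up t j
  rw [mulE_one, mulE_one] at h2
  rw [h2]
  congr 1
  exact sub_zero _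

lemma dx_cat {s t : List Bool} (hs : dx up s s.length = up) (j : ℕ) :
    dx up (s ++ t) (s.length + j) = dx up t j := by
  have h1 : dx up (s ++ t) (s.length + j) = dx (dx up (s ++ t) s.length) t j := by
    unfold dx
    rw [ds_shift]
    apply ds_congr
    intro k _
    exact tf_append_right k
  rw [h1, dx_append le_rfl, hs]

lemma lev_cat {s t : List Bool} (hs : dx up s s.length = up) (j : ℕ) :
    lev (s ++ t) (s.length + j) = lev s s.length + lev t j := by
  unfold lev
  rw [vx_cat hs, ip_add_left]

lemma lev_append {s t : List Bool} {i : ℕ} (h : i ≤ s.length + 1) : lev (s ++ t) i = lev s i := by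
  unfold lev
  rw [vx_append h]

/-- concatenation of bridges -/
theorem Brd_append {a b : ℕ} {s t : List Bool} (hs : s ∈ Brd a) (ht : t ∈ Brd b) : s ++ t ∈ Brd (a + b) := by
  rw [mem_Brd] at hs ht ⊢
  obtain ⟨s1, s2, s3, s4⟩ := hs
  obtain ⟨t1, t2, t3, t4⟩ := ht
  have key : ∀ i, i ≤ (s ++ t).length → ¬ i ≤ s.length → ∃ j, 1 ≤ j ∧ j ≤ t.length ∧ i = s.length + j := by
    intro i h1 h2
    rw [List.length_append] at h1
    exact ⟨i - s.length, by omega, by omega, by omega⟩
  refine ⟨?_, ?_, ?_, ?_⟩
  · intro i hi hl
    by_cases h : i ≤ s.length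
    · rw [lev_append (by omega)]
      have := s1 i hi h
      push_cast
      constructor
      · exact this.1
      · have := this.2
        omega
    · obtain ⟨j, j1, j2, rfl⟩ := key i hl h
      rw [lev_cat s3, s4]
      have := t1 j j1 j2
      push_cast
      constructor
      · have := this.1
        omega
      · have := this.2
        omega
  · intro i k hik hk heq
    by_cases h : k ≤ s.length
    · rw [vx_append (by omega), vx_append (by omega)] at heq
      exact s2 i k hik h heq
    · obtain ⟨j, j1, j2, rfl⟩ := key k hk h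
      by_cases h' : i ≤ s.length
      · have h5 := congrArg (fun p => ip p up) heq
        have h6 : lev (s ++ t) i = lev (s ++ t) (s.length + j) := h5
        rw [lev_cat s3, s4, lev_append (by omega)] at h6
        have h7 := (t1 j j1 j2).1
        rcases Nat.eq_zero_or_pos i with hi | hi
        · rw [hi, lev_zero] at h6
          omega
        · have := (s1 i hi h').2
          omega
      · obtain ⟨j', j1', j2', rfl⟩ := key i (by omega) h'
        rw [vx_cat s3, vx_cat s3] at heq
        exact t2 j' j (by omega) j2 (add_left_cancel heq)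
  · rw [List.length_append, dx_cat s3, t3]
  · rw [List.length_append, lev_cat s3, s4, t4]
    push_cast
    ring

/-- if a bridge starts with a bridge, the rest is a bridge -/
theorem Brd_cancel {a T : ℕ} {s t : List Bool} (hs : s ∈ Brd a) (hst : s ++ t ∈ Brd T)
    (hcut : ∀ j, 1 ≤ j → j ≤ t.length → 3 * (a : ℤ) < lev (s ++ t) (s.length + j)) :
    a ≤ T ∧ t ∈ Brd (T - a) := by
  rw [mem_Brd] at hs hst
  obtain ⟨s1, s2, s3, s4⟩ := hs
  obtain ⟨h1, h2, h3, h4⟩ := hst
  rw [List.length_append] at h1 h2 h3 h4
  have hT : (a : ℤ) ≤ T := by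
    rw [lev_cat s3, s4] at h4
    rcases Nat.eq_zero_or_pos t.length with h | h
    · rw [h, lev_zero] at h4
      omega
    · have := hcut t.length h le_rfl
      rw [lev_cat s3, s4] at this
      omega
  have haT : a ≤ T := by exact_mod_cast hT
  refine ⟨haT, ?_⟩
  rw [mem_Brd]
  refine ⟨?_, ?_, ?_, ?_⟩
  · intro i hi hl
    have h5 := hcut i hi hl
    have h6 := (h1 (s.length + i) (by omega) (by omega)).2
    rw [lev_cat s3, s4] at h5 h6
    rw [Nat.cast_sub haT]
    constructor <;> omega
  · intro i k hik hk heq
    apply h2 (s.length + i) (s.length + k) (by omega) (by omega)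
    rw [vx_cat s3, vx_cat s3, heq]
  · rw [dx_cat s3] at h3
    exact h3
  · rw [lev_cat s3, s4] at h4
    rw [Nat.cast_sub haT]
    omega

/-- the height of a bridge is determined by the word -/
theorem Brd_height {a b : ℕ} {t : List Bool} (h : t ∈ Brd a) (h' : t ∈ Brd b) : a = b := by
  rw [mem_Brd] at h h'
  have h1 := h.2.2.2
  have h2 := h'.2.2.2
  omega

lemma nil_mem_Brd : ([] : List Bool) ∈ Brd 0 := by
  rw [mem_Brd]
  refine ⟨?_, ?_, rfl, ?_⟩
  · intro i h1 h2
    simp at h2
    omega
  · intro i k h1 h2
    simp at h2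
    omega
  · rw [List.length_nil, lev_zero]
    rfl

lemma Brd_zero : Brd 0 = {[]} := by
  ext t
  constructor
  · intro h
    rw [mem_Brd] at h
    rcases Nat.eq_zero_or_pos t.length with h0 | h0
    · exact List.length_eq_zero_iff.1 h0
    · have := h.1 1 le_rfl h0
      have h1 := this.1
      have h2 := this.2
      push_cast at h2
      omega
  · rintro rfl
    exact nil_mem_Brd

/-- irreducible bridges of height r: nonempty and not a concatenation of two nonempty bridges -/
def Irr (r : ℕ) : Set (List Bool) :=
  {t | t ∈ Brd r ∧ t ≠ [] ∧ ∀ a b s u, s ∈ Brd a → u ∈ Brd b → t = s ++ u → s = [] ∨ u = []}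

/-- weight of the irreducible bridges -/
noncomputable def kap' (r : ℕ) : ℝ≥0∞ := gf (Irr r)

/-- disjoint pair: s hangs at foot 0 (left), t at foot 1 (right) -/
def Dj (s t : List Bool) : Prop := Disjoint (vis (foot oo up 0) up s) (vis (foot oo up 1) up t)

end HexObs
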