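import Pool.Agent.PHW.TopB
import Pool.Agent.PHW.TopC
import Pool.Agent.PHW.HangA

/-!
PHW part B2e: induction along the chain of bridges.
-/

set_option autoImplicit false

namespace HexObs

open Complex Finset ENNReal

namespace ChainIaux

lemma gf_le_tsum_mul {P Q : Set (List Bool)} (h : P = Q) (f : List Bool → ℝ≥0∞) (hf : ∀ t, 1 ≤ f t) :
    gf P ≤ ∑' g : {g : List Bool // g ∈ Q}, wE g.1 * f g.1 := by
  subst h
  unfold gf
  refine ENNReal.tsum_le_tsum fun a => ?_
  calc wE a.1 = wE a.1 * 1 := (mul_one _).symm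
    _ ≤ wE a.1 * f a.1 := mul_le_mul_right (hf a.1) _

lemma lead_step (b : Bool) : Lead [!b, b] := by
  cases b
  · right; left; rfl
  · right; right; rfl

/-- common part: sum over the top levels -/
lemma strip_sum {P : Set (List Bool)} (hP : PrefC P) (hL : LastC P) {p : List Bool} (hp : Lead p) (m : ℕ) :
    gf (SSt m ∩ P) ≤ 6 * ∑ T ∈ Finset.range (m + 1), ∑' h : {h : List Bool // h ∈ Brd T ∧ h ∈ P},
      wE h.1 * (1 + if T = 0 then 0 else GH (T - 1) (p ++ h.1)) := by
  set f : ℕ → List Bool → ℝ≥0∞ := fun T h => 1 + if T = 0 then 0 else GH (T - 1) (p ++ h) with hf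
  set S : ℕ → ℝ≥0∞ := fun T => ∑' h : {h : List Bool // h ∈ Brd T ∧ h ∈ P}, wE h.1 * f T h.1 with hS
  have h1 : ∀ T h, 1 ≤ f T h := fun T h => le_self_add
  have hB : ∀ T, gf (Brd T ∩ P) ≤ S T := fun T => gf_le_tsum_mul rfl (f T) (h1 T)
  have hH : ∀ T, gf (HT T ∩ P) ≤ 4 * S T := by
    intro T
    rcases Nat.eq_zero_or_pos T with h0 | h0
    · subst h0
      have e : HT 0 ∩ P = Brd 0 ∩ P := by rw [HT_zero, Brd_zero]
      rw [e]
      calc gf (Brd 0 ∩ P) ≤ S 0 := hB 0
        _ = 1 * S 0 := (one_mul _).symm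
        _ ≤ 4 * S 0 := mul_le_mul_left (by norm_num) _
    · refine (gf_HT_le hP hL hp h0).trans (le_of_eq ?_)
      rw [hS, ← ENNReal.tsum_mul_left]
      refine tsum_congr fun h => ?_
      simp only [hf]
      rw [if_neg (by omega)]
      ring
  calc gf (SSt m ∩ P) ≤ ∑ T ∈ Finset.range (m + 1), gf (HT T ∩ P) + 2 * ∑ T ∈ Finset.range m, gf (Brd T ∩ P) :=
        gf_SSt_le hP m
    _ ≤ ∑ T ∈ Finset.range (m + 1), 4 * S T + 2 * ∑ T ∈ Finset.range (m + 1), S T := by
        refine add_le_add (Finset.sum_le_sum fun T _ => hH T) (mul_le_mul_right ?_ _)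
        calc ∑ T ∈ Finset.range m, gf (Brd T ∩ P) ≤ ∑ T ∈ Finset.range m, S T :=
              Finset.sum_le_sum fun T _ => hB T
          _ ≤ ∑ T ∈ Finset.range (m + 1), S T :=
              Finset.sum_le_sum_of_subset (Finset.range_subset_range.2 (Nat.le_succ m))
    _ = 6 * ∑ T ∈ Finset.range (m + 1), S T := by
        rw [← Finset.mul_sum, ← add_mul]
        norm_num

lemma xc_sq : 1 ≤ ENNReal.ofReal (xc ^ 2) * 4 := by
  have h1 : xc = 1 / (2 * Real.cos (Real.pi / 8)) := rfl
  have h2 : Real.cos (Real.pi / 8) ≤ 1 := Real.cos_le_one _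
  have h3 : 0 < Real.cos (Real.pi / 8) := cos_pos
  have h4 : 1 / 4 ≤ xc ^ 2 := by
    rw [h1, div_pow, one_pow]
    apply one_div_le_one_div_of_le (by positivity)
    nlinarith
  have e : (4 : ℝ≥0∞) = ENNReal.ofReal 4 := by norm_num
  rw [e, ← ENNReal.ofReal_mul (by positivity)]
  have : (1 : ℝ≥0∞) = ENNReal.ofReal 1 := by norm_num
  rw [this]
  apply ENNReal.ofReal_le_ofReal
  linarith

lemma wE_step (b : Bool) (h : List Bool) : wE h ≤ 4 * wE ((!b) :: b :: h) := by
  have e : wE ((!b) :: b :: h) = ENNReal.ofReal (xc ^ 2) * wE h := by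
    have : ((!b) :: b :: h) = [!b, b] ++ h := rfl
    rw [this, wE_append]
    rfl
  rw [e, ← mul_assoc, mul_comm 4 _]
  calc wE h = 1 * wE h := (one_mul _).symm
    _ ≤ _ := mul_le_mul_left xc_sq _

end ChainIaux

open ChainIaux

/-- total weight of the continuations on the side b -/
theorem SSt_Hang_le (m : ℕ) (g : List Bool) (b : Bool) :
    gf {t | t ∈ SSt m ∧ Hang g b t} ≤
      6 * ∑ T ∈ Finset.range (m + 1), ∑' h : {h : List Bool // h ∈ Brd T ∧ Hang g b h},
        wE h.1 * (1 + if T = 0 then 0 else GH (T - 1) ((!b) :: b :: h.1)) :=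
  strip_sum (P := {t | Hang g b t}) (PrefC_Hang g b) (LastC_Hang g b) (lead_step b) m

theorem GH_le_step (m : ℕ) (g : List Bool) :
    GH m g ≤ 64 * ∑ T ∈ Finset.range (m + 1), ∑' h : {h : List Bool // h ∈ Brd (T + 1) ∧ Nb g h},
        wE h.1 * (1 + if T = 0 then 0 else GH (T - 1) h.1) := by
  set S : ℝ≥0∞ := ∑ T ∈ Finset.range (m + 1), ∑' h : {h : List Bool // h ∈ Brd (T + 1) ∧ Nb g h},
        wE h.1 * (1 + if T = 0 then 0 else GH (T - 1) h.1) with hS
  have key : ∀ b : Bool, gf {t | t ∈ SSt m ∧ Hang g b t} ≤ 24 * S := by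
    intro b
    refine (SSt_Hang_le m g b).trans ?_
    have e : (24 : ℝ≥0∞) * S = 6 * (4 * S) := by
      rw [← mul_assoc]
      norm_num
    rw [e]
    refine mul_le_mul_right ?_ _
    rw [hS, Finset.mul_sum]
    refine Finset.sum_le_sum fun T _ => ?_
    rw [← ENNReal.tsum_mul_left]
    have hinj : Function.Injective (fun h : {h : List Bool // h ∈ Brd T ∧ Hang g b h} =>
        (⟨(!b) :: b :: h.1, Brd_step h.2.1, Hang_Nb h.2.2⟩ : {h : List Bool // h ∈ Brd (T + 1) ∧ Nb g h})) := by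
      intro h h' hh
      have := congrArg (fun z => z.1) hh
      simp only [List.cons.injEq, true_and] at this
      exact Subtype.ext this
    refine le_trans ?_ (ENNReal.tsum_comp_le_tsum_of_injective hinj _)
    refine ENNReal.tsum_le_tsum fun h => ?_
    simp only
    rw [← mul_assoc]
    exact mul_le_mul_left (wE_step b h.1) _
  calc GH m g ≤ 24 * S + 24 * S := add_le_add (key true) (key false)
    _ = 48 * S := by rw [← add_mul]; norm_num
    _ ≤ 64 * S := mul_le_mul_left (by norm_num) _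

theorem Fch_succ_sum (κ : ℝ≥0∞) (m : ℕ) (g : List Bool) : Fch κ m g = 1 + κ * ∑ T ∈ Finset.range m,
    ∑' h : {h : List Bool // h ∈ Brd (T + 1) ∧ Nb g h}, wE h.1 * Fch κ T h.1 := by
  induction m with
  | zero => simp [Fch]
  | succ n ih =>
    rw [Finset.sum_range_succ, mul_add, ← add_assoc, ← ih]
    rfl

theorem GH_le (m : ℕ) (g : List Bool) : 1 + GH m g ≤ Fch 64 (m + 1) g := by
  induction m using Nat.strong_induction_on generalizing g with
  | _ m ih =>
    rw [Fch_succ_sum]
    refine add_le_add le_rfl ((GH_le_step m g).trans (mul_le_mul_right ?_ _))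
    refine Finset.sum_le_sum fun T hT => ?_
    refine ENNReal.tsum_le_tsum fun h => mul_le_mul_right ?_ _
    have hT' := Finset.mem_range.1 hT
    split_ifs with h0
    · subst h0
      simp [Fch]
    · have := ih (T - 1) (by omega) h.1
      have e : T - 1 + 1 = T := by omega
      rwa [e] at this

theorem gf_SSt_chain (m : ℕ) :
    gf (SSt m) ≤ 8 * ∑ T ∈ Finset.range (m + 1), ∑' g : {g : List Bool // g ∈ Brd T}, wE g.1 * Fch 64 T g.1 := by
  have h := strip_sum (P := Set.univ) (fun _ _ _ => Set.mem_univ _) (fun _ _ _ _ => Set.mem_univ _)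
    (p := []) (Or.inl rfl) m
  rw [Set.inter_univ] at h
  refine h.trans ?_
  have h2 : ∀ x y : ℝ≥0∞, x ≤ y → 6 * x ≤ 8 * y := fun x y hxy => mul_le_mul' (by norm_num) hxy
  refine h2 _ _ (Finset.sum_le_sum fun T _ => ?_)
  have hinj : Function.Injective (fun h : {h : List Bool // h ∈ Brd T ∧ h ∈ (Set.univ : Set (List Bool))} =>
      (⟨h.1, h.2.1⟩ : {g : List Bool // g ∈ Brd T})) := by
    intro h h' hh
    exact Subtype.ext (congrArg (fun z => z.1) hh)
  refine le_trans ?_ (ENNReal.tsum_comp_le_tsum_of_injective hinj _)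
  refine ENNReal.tsum_le_tsum fun h => mul_le_mul_right ?_ _
  simp only [List.nil_append]
  split_ifs with h0
  · subst h0
    simp [Fch]
  · have := GH_le (T - 1) h.1
    have e : T - 1 + 1 = T := by omega
    rwa [e] at this

end HexObs
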