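import Pool.Agent.PHW.DefsQ
import Pool.Agent.PHW.Jump
import Pool.Agent.PHW.PairsA
import Pool.Agent.PHW.Rotate

/-!
PHW, part Q: one step of the recursion along the chain.
-/

set_option autoImplicit false

namespace HexObs

open Complex Finset ENNReal

namespace ChainSaux

lemma nb_right {s t g : List Bool} (h : Nb (s ++ t) g) : Nb t g := by
  unfold Nb at h ⊢
  rw [rev_append] at h
  rcases h with h | h
  · left
    have : Dj (rev t ++ rev s) (g ++ []) := by rwa [List.append_nil]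
    exact Dj_prefix this
  · right
    have : Dj (g ++ []) (rev t ++ rev s) := by rwa [List.append_nil]
    exact Dj_prefix this

lemma Fch_right' (κ : ℝ≥0∞) (n : ℕ) (s t : List Bool) : Fch κ n (s ++ t) ≤ Fch κ n t := by
  induction n with
  | zero => exact le_rfl
  | succ n ih =>
    show Fch κ n (s ++ t) + κ * ∑' g' : {g' : List Bool // g' ∈ Brd (n + 1) ∧ Nb (s ++ t) g'}, wE g'.1 * Fch κ n g'.1
      ≤ Fch κ n t + κ * ∑' g' : {g' : List Bool // g' ∈ Brd (n + 1) ∧ Nb t g'}, wE g'.1 * Fch κ n g'.1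
    refine add_le_add ih (mul_le_mul_right ?_ κ)
    exact ENNReal.tsum_mono_subtype (s := {g' : List Bool | g' ∈ Brd (n + 1) ∧ Nb (s ++ t) g'})
      (t := {g' : List Bool | g' ∈ Brd (n + 1) ∧ Nb t g'}) (fun g' : List Bool => wE g' * Fch κ n g')
      (fun g hg => ⟨hg.1, nb_right hg.2⟩)

open Classical in
lemma GF_ind (κ : ℝ≥0∞) (n a : ℕ) :
    GF κ n a = ∑' t : List Bool, if t ∈ Brd a then wE t * Fch κ n t else 0 := by
  unfold GF
  rw [tsum_subtype (Brd a) (fun g : List Bool => wE g * Fch κ n g)]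
  exact tsum_congr fun t => by simp only [Set.indicator_apply]

/-- a strand of height n + 1 is cut at its jump over the height l -/
lemma step {κ : ℝ≥0∞} {n l : ℕ} (hl : l ≤ n) (R : List Bool → Prop) (hR : ∀ N w, R (N ++ w) → R N) :
    ∑' g' : {g' : List Bool // g' ∈ Brd (n + 1) ∧ R g'}, wE g'.1 * Fch κ n g'.1 ≤
    ∑ i ∈ Finset.range (l + 1), ∑ r ∈ Finset.Ico (l + 1 - i) (n + 2 - i),
      gf {N | N ∈ Brd i ∧ R N} * kap' r * GF κ n (n + 1 - i - r) := by
  classical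
  -- the pieces of a strand
  have hdec : ∀ x : {g' : List Bool // g' ∈ Brd (n + 1) ∧ R g'},
      ∃ y : (ℕ × ℕ) × (List Bool × List Bool × List Bool),
        (y.1.1 ∈ Finset.range (l + 1) ∧ y.1.2 ∈ Finset.Ico (l + 1 - y.1.1) (n + 2 - y.1.1)) ∧
        (y.2.1 ∈ Brd y.1.1 ∧ R y.2.1) ∧ y.2.2.1 ∈ Irr y.1.2 ∧ y.2.2.2 ∈ Brd (n + 1 - y.1.1 - y.1.2) ∧
        x.1 = y.2.1 ++ y.2.2.1 ++ y.2.2.2 := by
    intro x
    obtain ⟨j, r, a, p, u, h1, h2, h3, ha, hp, hu, he⟩ := jump_dec (s := l) (n := n + 1) (by omega) x.2.1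
    refine ⟨((j, r), (a, p, u)), ⟨?_, ?_⟩, ⟨ha, ?_⟩, hp, hu, he⟩
    · simp only [Finset.mem_range]
      omega
    · simp only [Finset.mem_Ico]
      omega
    · have := x.2.2
      rw [he, List.append_assoc] at this
      exact hR a _ this
  choose φ hφ1 hφ2 hφ3 hφ4 hφ5 using hdec
  have hinj : Function.Injective φ := by
    intro x y hxy
    apply Subtype.ext
    rw [hφ5 x, hφ5 y, hxy]
  let G : (ℕ × ℕ) × (List Bool × List Bool × List Bool) → ℝ≥0∞ := fun y =>
    if y.1.1 ∈ Finset.range (l + 1) ∧ y.1.2 ∈ Finset.Ico (l + 1 - y.1.1) (n + 2 - y.1.1) then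
      (if y.2.1 ∈ Brd y.1.1 ∧ R y.2.1 then wE y.2.1 else 0) *
        ((if y.2.2.1 ∈ Irr y.1.2 then wE y.2.2.1 else 0) *
          (if y.2.2.2 ∈ Brd (n + 1 - y.1.1 - y.1.2) then wE y.2.2.2 * Fch κ n y.2.2.2 else 0))
    else 0
  have hle : ∀ x : {g' : List Bool // g' ∈ Brd (n + 1) ∧ R g'}, wE x.1 * Fch κ n x.1 ≤ G (φ x) := by
    intro x
    have e : G (φ x) = wE (φ x).2.1 * (wE (φ x).2.2.1 * (wE (φ x).2.2.2 * Fch κ n (φ x).2.2.2)) := by
      show (if (φ x).1.1 ∈ Finset.range (l + 1) ∧ (φ x).1.2 ∈ Finset.Ico (l + 1 - (φ x).1.1) (n + 2 - (φ x).1.1) then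
        (if (φ x).2.1 ∈ Brd (φ x).1.1 ∧ R (φ x).2.1 then wE (φ x).2.1 else 0) *
        ((if (φ x).2.2.1 ∈ Irr (φ x).1.2 then wE (φ x).2.2.1 else 0) *
          (if (φ x).2.2.2 ∈ Brd (n + 1 - (φ x).1.1 - (φ x).1.2) then
            wE (φ x).2.2.2 * Fch κ n (φ x).2.2.2 else 0)) else 0) = _
      rw [if_pos (hφ1 x), if_pos (hφ2 x), if_pos (hφ3 x), if_pos (hφ4 x)]
    rw [e]
    conv_lhs => rw [hφ5 x]
    rw [wE_append, wE_append]
    have h1 := Fch_right' κ n ((φ x).2.1 ++ (φ x).2.2.1) (φ x).2.2.2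
    calc wE (φ x).2.1 * wE (φ x).2.2.1 * wE (φ x).2.2.2 *
          Fch κ n ((φ x).2.1 ++ (φ x).2.2.1 ++ (φ x).2.2.2)
        ≤ wE (φ x).2.1 * wE (φ x).2.2.1 * wE (φ x).2.2.2 * Fch κ n (φ x).2.2.2 :=
          mul_le_mul_right h1 _
      _ = _ := by ring
  refine (ENNReal.tsum_le_tsum hle).trans
    ((ENNReal.tsum_comp_le_tsum_of_injective hinj G).trans (le_of_eq ?_))
  rw [ENNReal.tsum_prod', ENNReal.tsum_prod']
  have hin : ∀ i r : ℕ, ∑' y : List Bool × List Bool × List Bool, G ((i, r), y) =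
      if i ∈ Finset.range (l + 1) ∧ r ∈ Finset.Ico (l + 1 - i) (n + 2 - i) then
        gf {N | N ∈ Brd i ∧ R N} * kap' r * GF κ n (n + 1 - i - r) else 0 := by
    intro i r
    by_cases h : i ∈ Finset.range (l + 1) ∧ r ∈ Finset.Ico (l + 1 - i) (n + 2 - i)
    · rw [if_pos h]
      have e : ∀ y : List Bool × List Bool × List Bool, G ((i, r), y) =
          (if y.1 ∈ Brd i ∧ R y.1 then wE y.1 else 0) *
          ((if y.2.1 ∈ Irr r then wE y.2.1 else 0) *
            (if y.2.2 ∈ Brd (n + 1 - i - r) then wE y.2.2 * Fch κ n y.2.2 else 0)) := by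
        intro y
        show (if i ∈ Finset.range (l + 1) ∧ r ∈ Finset.Ico (l + 1 - i) (n + 2 - i) then _ else _) = _
        rw [if_pos h]
      rw [tsum_congr e, ENNReal.tsum_prod']
      have e2 : ∀ N : List Bool, ∑' y : List Bool × List Bool,
          (if N ∈ Brd i ∧ R N then wE N else 0) * ((if y.1 ∈ Irr r then wE y.1 else 0) *
            (if y.2 ∈ Brd (n + 1 - i - r) then wE y.2 * Fch κ n y.2 else 0)) =
          (if N ∈ Brd i ∧ R N then wE N else 0) * (kap' r * GF κ n (n + 1 - i - r)) := by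
        intro N
        rw [ENNReal.tsum_mul_left, ENNReal.tsum_prod']
        congr 1
        simp only [ENNReal.tsum_mul_left, ENNReal.tsum_mul_right]
        unfold kap'
        rw [gf_ind, GF_ind]
      rw [tsum_congr e2, ENNReal.tsum_mul_right, gf_ind, mul_assoc]
      congr 1
      refine tsum_congr fun N => ?_
      by_cases hN : N ∈ Brd i ∧ R N
      · rw [if_pos hN]
        exact (if_pos hN).symm
      · rw [if_neg hN]
        exact (if_neg hN).symm
    · rw [if_neg h]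
      have e : ∀ y : List Bool × List Bool × List Bool, G ((i, r), y) = 0 := by
        intro y
        show (if i ∈ Finset.range (l + 1) ∧ r ∈ Finset.Ico (l + 1 - i) (n + 2 - i) then _ else _) = _
        rw [if_neg h]
      rw [tsum_congr e, tsum_zero]
  simp only [hin]
  have h1 : ∀ i : ℕ, ∑' r : ℕ, (if i ∈ Finset.range (l + 1) ∧ r ∈ Finset.Ico (l + 1 - i) (n + 2 - i) then
      gf {N | N ∈ Brd i ∧ R N} * kap' r * GF κ n (n + 1 - i - r) else 0) =
      if i ∈ Finset.range (l + 1) then ∑ r ∈ Finset.Ico (l + 1 - i) (n + 2 - i),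
        gf {N | N ∈ Brd i ∧ R N} * kap' r * GF κ n (n + 1 - i - r) else 0 := by
    intro i
    by_cases hi : i ∈ Finset.range (l + 1)
    · rw [if_pos hi, tsum_eq_sum (s := Finset.Ico (l + 1 - i) (n + 2 - i))]
      · exact Finset.sum_congr rfl fun r hr => if_pos ⟨hi, hr⟩
      · intro r hr
        exact if_neg fun h => hr h.2
    · rw [if_neg hi]
      rw [tsum_congr (fun r => if_neg fun h => hi h.1), tsum_zero]
  rw [tsum_congr h1, tsum_eq_sum (s := Finset.range (l + 1))]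
  · exact Finset.sum_congr rfl fun i hi => if_pos hi
  · intro i hi
    exact if_neg hi

/-- reversal of the upper strand -/
noncomputable def revE (a : ℕ) : {g : List Bool // g ∈ Brd a} ≃ {g : List Bool // g ∈ Brd a} where
  toFun g := ⟨rev g.1, Brd_rev g.2⟩
  invFun g := ⟨rev g.1, Brd_rev g.2⟩
  left_inv g := Subtype.ext (rev_rev _)
  right_inv g := Subtype.ext (rev_rev _)

lemma rev_left (a i : ℕ) :
    ∑' g : {g : List Bool // g ∈ Brd a}, wE g.1 * gf {N | N ∈ Brd i ∧ Dj (rev g.1) N} = gg a i := by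
  rw [gg_eq_g2, g2_left]
  rw [← (revE a).tsum_eq (fun s : {s : List Bool // s ∈ Brd a} => wE s.1 * gf {t | t ∈ Brd i ∧ Dj s.1 t})]
  refine tsum_congr fun g => ?_
  show _ = wE (rev g.1) * _
  rw [wE_rev]
  rfl

lemma rev_right (a i : ℕ) :
    ∑' g : {g : List Bool // g ∈ Brd a}, wE g.1 * gf {N | N ∈ Brd i ∧ Dj N (rev g.1)} = gg a i := by
  rw [gg_symm, gg_eq_g2, g2_right]
  rw [← (revE a).tsum_eq (fun s : {s : List Bool // s ∈ Brd a} => wE s.1 * gf {t | t ∈ Brd i ∧ Dj t s.1})]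
  refine tsum_congr fun g => ?_
  show _ = wE (rev g.1) * _
  rw [wE_rev]
  rfl

end ChainSaux

open ChainSaux

theorem Fch_right (κ : ℝ≥0∞) (n : ℕ) {a b : ℕ} {s t : List Bool} (hs : s ∈ Brd a) (ht : t ∈ Brd b) :
    Fch κ n (s ++ t) ≤ Fch κ n t :=
  Fch_right' κ n s t

theorem GF_zero (κ : ℝ≥0∞) (a : ℕ) : GF κ 0 a = BT a := by
  rw [← gf_Brd]
  unfold GF gf
  exact tsum_congr fun g => mul_one _

theorem GF_step (κ : ℝ≥0∞) {n l : ℕ} (hl : l ≤ n) (a : ℕ) :
    GF κ (n + 1) a ≤ GF κ n a + κ * (2 * ∑ i ∈ Finset.range (l + 1), ∑ r ∈ Finset.Ico (l + 1 - i) (n + 2 - i),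
      gg a i * kap' r * GF κ n (n + 1 - i - r)) := by
  have h0 : GF κ (n + 1) a = GF κ n a + κ * ∑' g : {g : List Bool // g ∈ Brd a},
      wE g.1 * ∑' g' : {g' : List Bool // g' ∈ Brd (n + 1) ∧ Nb g.1 g'}, wE g'.1 * Fch κ n g'.1 := by
    unfold GF
    rw [← ENNReal.tsum_mul_left, ← ENNReal.tsum_add]
    refine tsum_congr fun g => ?_
    show wE g.1 * (Fch κ n g.1 + κ * _) = _
    ring
  rw [h0]
  refine add_le_add le_rfl (mul_le_mul_right ?_ κ)
  -- the two sides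
  have h1 : ∀ g : {g : List Bool // g ∈ Brd a},
      wE g.1 * ∑' g' : {g' : List Bool // g' ∈ Brd (n + 1) ∧ Nb g.1 g'}, wE g'.1 * Fch κ n g'.1 ≤
      ∑ i ∈ Finset.range (l + 1), ∑ r ∈ Finset.Ico (l + 1 - i) (n + 2 - i),
        (wE g.1 * gf {N | N ∈ Brd i ∧ Dj (rev g.1) N} + wE g.1 * gf {N | N ∈ Brd i ∧ Dj N (rev g.1)}) *
          kap' r * GF κ n (n + 1 - i - r) := by
    intro g
    have hsub : {g' : List Bool | g' ∈ Brd (n + 1) ∧ Nb g.1 g'} ⊆
        {g' | g' ∈ Brd (n + 1) ∧ Dj (rev g.1) g'} ∪ {g' | g' ∈ Brd (n + 1) ∧ Dj g' (rev g.1)} := by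
      rintro g' ⟨hg', h | h⟩
      · exact Or.inl ⟨hg', h⟩
      · exact Or.inr ⟨hg', h⟩
    have h2 := (ENNReal.tsum_mono_subtype (fun g' : List Bool => wE g' * Fch κ n g') hsub).trans
      (ENNReal.tsum_union_le (fun g' : List Bool => wE g' * Fch κ n g') _ _)
    have h3 := step (κ := κ) hl (fun N => Dj (rev g.1) N) (fun N w h => by
      have : Dj (rev g.1 ++ []) (N ++ w) := by rwa [List.append_nil]
      exact Dj_prefix this)
    have h4 := step (κ := κ) hl (fun N => Dj N (rev g.1)) (fun N w h => by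
      have : Dj (N ++ w) (rev g.1 ++ []) := by rwa [List.append_nil]
      exact Dj_prefix this)
    refine (mul_le_mul_right (h2.trans (add_le_add h3 h4)) (wE g.1)).trans (le_of_eq ?_)
    rw [← Finset.sum_add_distrib, Finset.mul_sum]
    refine Finset.sum_congr rfl fun i _ => ?_
    rw [← Finset.sum_add_distrib, Finset.mul_sum]
    refine Finset.sum_congr rfl fun r _ => ?_
    ring
  refine (ENNReal.tsum_le_tsum h1).trans (le_of_eq ?_)
  rw [Summable.tsum_finsetSum (fun i _ => ENNReal.summable), Finset.mul_sum]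
  refine Finset.sum_congr rfl fun i _ => ?_
  rw [Summable.tsum_finsetSum (fun i _ => ENNReal.summable), Finset.mul_sum]
  refine Finset.sum_congr rfl fun r _ => ?_
  rw [ENNReal.tsum_mul_right, ENNReal.tsum_mul_right, ENNReal.tsum_add, rev_left, rev_right]
  ring

end HexObs
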