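import Pool.Agent.PHW.TopA
import Pool.Agent.PHW.TopB0

/-!
PHW, B2b: weights of the strip walks that reach the top.
-/

set_option autoImplicit false

namespace HexObs

open Complex Finset ENNReal

theorem gf_HT_le {P : Set (List Bool)} (hP : PrefC P) (hL : LastC P) {p : List Bool} (hp : Lead p) {T : ℕ}
    (hT : 1 ≤ T) :
    gf (HT T ∩ P) ≤ ∑' g : {g : List Bool // g ∈ Brd T ∧ g ∈ P}, wE g.1 * (4 + 4 * GH (T - 1) (p ++ g.1)) :=
  gf_HT_le_of (fun _ ht => HT_split hT ht) hP hL hp

end HexObs
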