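import Pool.Agent.PHW.DefsB

/-!
PHW B2a: cutting a walk of the strip at its last top vertex.
-/

set_option autoImplicit false

namespace HexObs

open Complex Finset ENNReal

/-- the turned walk. -/
lemma vx_turned (x : Pt) (t : List Bool) (j : ℕ) : vx x (-up) t j = x - vx oo up t j := by
  have h := vx_mulE (-1, 0) oo x up t j
  have e : mulE (-1, 0) up = -up := by decide
  have e2 : ∀ p : Pt, mulE (-1, 0) p = -p := by
    intro p
    ext <;> simp [mulE]
  rw [e, e2] at h
  rw [h]
  have : vx oo up t j - oo = vx oo up t j := sub_zero _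
  rw [this]
  abel

/-- the turned walk, arbitrary translation. -/
lemma vx_shift (x : Pt) (t : List Bool) (j : ℕ) : vx x up t j = x + vx oo up t j := by
  have h := vx_mulE (1, 0) oo x up t j
  rw [mulE_one, mulE_one] at h
  rw [h]
  congr 1
  exact sub_zero _

/-- the reversed walk in the turned frame. -/
lemma vx_rev_turned {G : List Bool} (hG : dx up G G.length = up) {i : ℕ} (hi : i ≤ G.length + 1) :
    vx oo up (rev G) i = vx oo up G G.length + up - vx oo up G (G.length + 1 - i) := by
  have h := vx_rev oo up G i hi
  rw [hG, vx_turned] at h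
  have h2 : tip oo up G = vx oo up G G.length + up := by
    show vx oo up G G.length + dx up G G.length = _
    rw [hG]
  rw [h2] at h
  rw [← h]
  abel

/-- vertices of a word with two letters in front. -/
lemma vx_two (c : Bool) (r : List Bool) (j : ℕ) :
    vx oo up (c :: (!c) :: r) (j + 2) = up + turn c up + vx oo up r j := by
  have hs : dx up [c, !c] [c, !c].length = up := by
    show turn (!c) (turn c up) = up
    exact turn_turn c up
  have h := vx_cat (s := [c, !c]) (t := r) hs j
  have e : ([c, !c] ++ r) = c :: (!c) :: r := rfl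
  have e2 : ([c, !c] : List Bool).length = 2 := rfl
  rw [e, e2] at h
  rw [add_comm j 2, h]
  have e3 : vx oo up [c, !c] 2 = up + turn c up := by
    show oo + up + turn c up = _
    have : oo + up = up := zero_add up
    rw [this]
  rw [e3]

lemma vx_one (t : List Bool) : vx oo up t 1 = up := zero_add up

lemma foot0 : foot oo up 0 = oo := by decide

lemma foot1 : foot oo up 1 = turn false up + turn false (turn false up) := by decide

lemma vis_zero (t : List Bool) : vis (foot oo up 0) up t = vis oo up t := by
  rw [foot0]

/-- sufficient condition for hanging. -/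
lemma hang_of {G r : List Bool} {b : Bool} (hG : dx up G G.length = up)
    (h1 : ∀ j, 1 ≤ j → j ≤ G.length → vx oo up G j ≠ vx oo up G G.length + turn (!b) up + turn (!b) (turn (!b) up))
    (h2 : ∀ j, 1 ≤ j → j ≤ G.length → ∀ k, k ≤ r.length →
      vx oo up G j ≠ vx oo up G G.length + turn (!b) (turn (!b) up) - vx oo up r k) : Hang G b r := by
  have hrev : ∀ j, 1 ≤ j → j ≤ (rev G).length → ∃ i, 1 ≤ i ∧ i ≤ G.length ∧
      vx oo up (rev G) j = vx oo up G G.length + up - vx oo up G i := by
    intro j hj hl
    rw [rev_length] at hl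
    exact ⟨G.length + 1 - j, by omega, by omega, vx_rev_turned hG (by omega)⟩
  cases b with
  | true =>
    unfold Hang
    rw [if_pos rfl]
    unfold Dj
    rw [Set.disjoint_left]
    rintro p ⟨j, hj1, hj2, rfl⟩ ⟨i, hi1, hi2, hi3⟩
    obtain ⟨k, hk1, hk2, hk3⟩ := hrev i hi1 hi2
    rw [vx_shift, foot1, hk3, foot0] at hi3
    rcases Nat.lt_or_ge j 2 with hj | hj
    · have : j = 1 := by omega
      rw [this, vx_one] at hi3
      apply h1 k hk1 hk2
      show _ = vx oo up G G.length + turn false up + turn false (turn false up)
      linear_combination (-1 : Pt) * hi3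
    · obtain ⟨l, rfl⟩ : ∃ l, j = l + 2 := ⟨j - 2, by omega⟩
      have e := vx_two false r l
      simp only [Bool.not_false] at e
      rw [e] at hi3
      apply h2 k hk1 hk2 l (by simp only [List.length_cons] at hj2; omega)
      show _ = vx oo up G G.length + turn false (turn false up) - vx oo up r l
      linear_combination (-1 : Pt) * hi3
  | false =>
    unfold Hang
    rw [if_neg (by decide)]
    unfold Dj
    rw [Set.disjoint_left]
    rintro p ⟨i, hi1, hi2, hi3⟩ ⟨j, hj1, hj2, rfl⟩
    obtain ⟨k, hk1, hk2, hk3⟩ := hrev i hi1 hi2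
    rw [vx_shift (foot oo up 1), foot1, foot0, hk3] at hi3
    have hL : turn false up + turn false (turn false up) = -(turn true up + turn true (turn true up)) := by decide
    rw [hL] at hi3
    rcases Nat.lt_or_ge j 2 with hj | hj
    · have : j = 1 := by omega
      rw [this, vx_one] at hi3
      apply h1 k hk1 hk2
      show _ = vx oo up G G.length + turn true up + turn true (turn true up)
      linear_combination (-1 : Pt) * hi3
    · obtain ⟨l, rfl⟩ : ∃ l, j = l + 2 := ⟨j - 2, by omega⟩
      have e := vx_two true r l
      simp only [Bool.not_true] at e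
      rw [e] at hi3
      apply h2 k hk1 hk2 l (by simp only [List.length_cons] at hj2; omega)
      show _ = vx oo up G G.length + turn true (turn true up) - vx oo up r l
      linear_combination (-1 : Pt) * hi3

/-- the free neighbour of the top: w = v + d + e with the two directions of the side of c is not visited -/
lemma top_free {T : ℕ} {t : List Bool} (hT : 1 ≤ T) {c : Bool} {m : ℕ} (hm : m + 2 ≤ t.length)
    (hle : ∀ k, 1 ≤ k → k ≤ t.length → lev t k ≤ 3 * T)
    (hinj : ∀ i k, i < k → k ≤ t.length → vx oo up t i ≠ vx oo up t k)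
    (hlev : lev t (m + 1) = 3 * T) (hd : dx up t (m + 1) = turn c (turn c up)) :
    ∀ j, j ≤ m + 1 → vx oo up t j ≠ vx oo up t (m + 1) + turn c up + turn c (turn c up) := by
  intro j hj heq
  have hlj : lev t j = 3 * T := by
    have e := congrArg (fun p => ip p up) heq
    simp only [ip_add_left] at e
    have e1 : ip (turn c up) up + ip (turn c (turn c up)) up = 0 := by
      cases c <;> decide
    have e2 : lev t j = lev t (m + 1) + ip (turn c up) up + ip (turn c (turn c up)) up := e
    rw [e2, hlev]
    linarith
  have hj0 : j ≠ 0 := by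
    rintro rfl
    rw [lev_zero] at hlj
    omega
  have hjm : j ≠ m + 1 := by
    rintro rfl
    have : turn c up + turn c (turn c up) = 0 := by
      linear_combination (-1 : Pt) * heq
    revert this
    cases c <;> decide
  have hev : Even j := by
    by_contra he
    have hmod := lev_mod t j
    rw [if_neg he, hlj] at hmod
    omega
  obtain ⟨l, rfl⟩ : ∃ l, j = l + 1 := ⟨j - 1, by omega⟩
  have hodd : ¬ Even l := by
    intro he
    rw [Nat.even_add_one] at hev
    exact hev he
  have hl1 : 1 ≤ l := by
    by_contra hcon
    have : l = 0 := by omega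
    rw [this] at hodd
    exact hodd (by decide)
  have v2 : vx oo up t (m + 2) = vx oo up t (m + 1) + turn c (turn c up) := by
    rw [show m + 2 = m + 1 + 1 from rfl, vx_succ, hd]
  have s1 := lev_succ t l
  have s2 := lev_succ t (l + 1)
  have p1 := vx_succ oo up t l
  have p2 := vx_succ oo up t (l + 1)
  have n1 := hinj l (l + 2) (by omega) (by omega)
  have n2 := hinj l (m + 2) (by omega) (by omega)
  have n3 := hinj (l + 2) (m + 2) (by omega) (by omega)
  have b1 := hle l hl1 (by omega)
  have b2 := hle (l + 2) (by omega) (by omega)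
  -- arrival
  have c1 : dx up t l = rotL up ∨ dx up t l = rotR up := by
    rcases step_odd upd t hodd with ⟨h, hip⟩ | ⟨h, hip⟩ | ⟨h, hip⟩
    · exfalso
      rw [hip, hlj] at s1
      omega
    · exact Or.inl h
    · exact Or.inr h
  have c2 : dx up t (l + 1) = rotL (rotL up) ∨ dx up t (l + 1) = rotR (rotR up) := by
    rcases step_even upd t hev with ⟨h, hip⟩ | ⟨h, hip⟩ | ⟨h, hip⟩
    · exfalso
      rw [hip, hlj] at s2
      have : lev t (l + 2) = lev t (l + 1 + 1) := rfl
      omega
    · exact Or.inl h
    · exact Or.inr h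
  have hLL : rotL (rotL up) = -rotR up := by decide
  have hRR : rotR (rotR up) = -rotL up := by decide
  rw [hLL, hRR] at c2
  rw [v2] at n2 n3
  have e4 : vx oo up t l = vx oo up t (m + 1) + turn c up + turn c (turn c up) - dx up t l := by
    rw [← heq, p1]
    abel
  have e5 : vx oo up t (l + 2) = vx oo up t (m + 1) + turn c up + turn c (turn c up) + dx up t (l + 1) := by
    rw [← heq]
    exact p2
  rcases c1 with c1 | c1 <;> rcases c2 with c2 | c2
  · rw [c1] at e4
    rw [c2] at e5
    cases c
    · -- c = false: turn c up = rotR up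
      apply n3
      rw [e5]
      show _ + rotR up + _ + -rotR up = _
      abel
    · apply n2
      rw [e4]
      show _ + rotL up + _ - rotL up = _
      abel
  · apply n1
    rw [e4, e5, c1, c2]
    abel
  · apply n1
    rw [e4, e5, c1, c2]
    abel
  · rw [c1] at e4
    rw [c2] at e5
    cases c
    · apply n2
      rw [e4]
      show _ + rotR up + _ - rotR up = _
      abel
    · apply n3
      rw [e5]
      show _ + rotL up + _ + -rotL up = _
      abel

/-- the hanging relation at a cut: G = p ++ (a ++ [!c]) with a the beginning of t -/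
lemma hang_cut {T : ℕ} {t : List Bool} (hT : 1 ≤ T) {c : Bool} {m : ℕ} (hm : m + 2 ≤ t.length)
    (hpos : ∀ k, 1 ≤ k → k ≤ t.length → 0 < lev t k)
    (hle : ∀ k, 1 ≤ k → k ≤ t.length → lev t k ≤ 3 * T)
    (hinj : ∀ i k, i < k → k ≤ t.length → vx oo up t i ≠ vx oo up t k)
    (hlev : lev t (m + 1) = 3 * T) (hd0 : dx up t m = turn c up) (hd : dx up t (m + 1) = turn c (turn c up))
    {r : List Bool} (hr : ∀ k, k ≤ r.length → m + 2 + k ≤ t.length ∧
      vx oo up r k = vx oo up t (m + 2) - vx oo up t (m + 2 + k))
    {p : List Bool} (hp : Lead p) : Hang (p ++ (t.take m ++ [!c])) (!c) r := by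
  obtain ⟨a, ha⟩ : ∃ a, a = t.take m := ⟨_, rfl⟩
  have hal : a.length = m := by
    rw [ha, List.length_take]
    omega
  have hsplit : t = a ++ t.drop m := by
    rw [ha]
    exact (List.take_append_drop m t).symm
  rw [← ha]
  have hva : ∀ k, k ≤ m + 1 → vx oo up (a ++ [!c]) k = vx oo up t k := by
    intro k hk
    rw [vx_append (by omega), hsplit, vx_append (by omega)]
  have hgl : (a ++ [!c]).length = m + 1 := by
    rw [List.length_append, hal]
    rfl
  have hgd : dx up (a ++ [!c]) (m + 1) = up := by
    have h1 := dx_append_one (d0 := up) (t := a) (b := !c)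
    rw [hgl] at h1
    rw [h1, hal]
    have h2 : dx up a m = dx up t m := by
      rw [hsplit, dx_append (by omega)]
    rw [h2, hd0, turn_turn]
  obtain ⟨g, hg⟩ : ∃ g, g = a ++ [!c] := ⟨_, rfl⟩
  rw [← hg] at hva hgl hgd ⊢
  have hp1 : dx up p p.length = up := by
    rcases hp with rfl | rfl | rfl <;> decide
  have hp2 : ∀ j, 1 ≤ j → j ≤ p.length → lev p j ≤ lev p p.length := by
    rcases hp with rfl | rfl | rfl
    · intro j h1 h2
      simp at h2
      omega
    · intro j h1 h2
      have h3 : j ≤ 2 := h2
      have h4 : j = 1 ∨ j = 2 := by omega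
      rcases h4 with rfl | rfl <;> decide
    · intro j h1 h2
      have h3 : j ≤ 2 := h2
      have h4 : j = 1 ∨ j = 2 := by omega
      rcases h4 with rfl | rfl <;> decide
  obtain ⟨P, hP⟩ : ∃ P, P = vx oo up p p.length := ⟨_, rfl⟩
  have hPl : ip P up = lev p p.length := by rw [hP]; rfl
  have hGl : (p ++ g).length = p.length + (m + 1) := by rw [List.length_append, hgl]
  have hG1 : ∀ j, vx oo up (p ++ g) (p.length + j) = P + vx oo up g j := by
    intro j
    rw [vx_cat hp1, hP]
  have hG2 : dx up (p ++ g) (p ++ g).length = up := by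
    rw [hGl, dx_cat hp1, hgd]
  have hV : vx oo up (p ++ g) (p ++ g).length = P + vx oo up t (m + 1) := by
    rw [hGl, hG1, hva _ le_rfl]
  have v2 : vx oo up t (m + 2) = vx oo up t (m + 1) + turn c (turn c up) := by
    rw [show m + 2 = m + 1 + 1 from rfl, vx_succ, hd]
  apply hang_of hG2
  · intro j hj1 hj2
    rw [hV]
    simp only [Bool.not_not]
    rcases Nat.lt_or_ge p.length j with hj | hj
    · obtain ⟨l, rfl⟩ : ∃ l, j = p.length + l := ⟨j - p.length, by omega⟩
      rw [hG1, hva l (by omega)]
      intro heq
      apply top_free hT hm hle hinj hlev hd l (by omega)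
      linear_combination heq
    · intro heq
      rw [vx_append (by omega)] at heq
      have e := congrArg (fun p => ip p up) heq
      simp only [ip_add_left] at e
      have e1 : ip (turn c up) up + ip (turn c (turn c up)) up = 0 := by
        cases c <;> decide
      have e2 : lev p j = ip P up + lev t (m + 1) + ip (turn c up) up + ip (turn c (turn c up)) up := e
      have := hp2 j hj1 hj
      rw [hPl, hlev] at e2
      omega
  · intro j hj1 hj2 k hk
    rw [hV]
    simp only [Bool.not_not]
    obtain ⟨hk1, hk2⟩ := hr k hk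
    rw [hk2]
    rcases Nat.lt_or_ge p.length j with hj | hj
    · obtain ⟨l, rfl⟩ : ∃ l, j = p.length + l := ⟨j - p.length, by omega⟩
      rw [hG1, hva l (by omega)]
      intro heq
      apply hinj l (m + 2 + k) (by omega) hk1
      rw [v2] at heq
      linear_combination heq
    · intro heq
      rw [vx_append (by omega)] at heq
      have h3 : vx oo up p j = P + vx oo up t (m + 2 + k) := by
        rw [v2] at heq
        linear_combination heq
      have e := congrArg (fun p => ip p up) h3
      simp only [ip_add_left] at e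
      have e2 : lev p j = ip P up + lev t (m + 2 + k) := e
      have h4 := hp2 j hj1 hj
      have h5 := hpos (m + 2 + k) (by omega) hk1
      rw [hPl] at e2
      omega

theorem HT_split {T : ℕ} (hT : 1 ≤ T) {t : List Bool} (ht : t ∈ HT T) :
    ∃ s b, s ++ [b] ∈ Brd T ∧ ((∃ c, t = s ++ [c]) ∨
      ∃ r e, r ∈ SSt (T - 1) ∧ e.length ≤ 1 ∧ (∀ p, Lead p → Hang (p ++ (s ++ [b])) b r) ∧
        (t = s ++ ((!b) :: (!b) :: (r ++ e)) ∨ (r = [] ∧ t = s ++ [!b, b]))) := by
  classical
  obtain ⟨⟨hmem, hinj⟩, hex⟩ := ht
  obtain ⟨i0, hi0, hi0'⟩ := hex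
  set i := Nat.findGreatest (fun k => lev t k = 3 * T) t.length with hi
  have hspec : lev t i = 3 * T := Nat.findGreatest_spec (P := fun k => lev t k = 3 * T) hi0 hi0'
  have hil : i ≤ t.length := Nat.findGreatest_le _
  have hmax : ∀ k, i < k → k ≤ t.length → lev t k ≠ 3 * T := fun k hk hl =>
    Nat.findGreatest_is_greatest hk hl
  clear_value i
  have hpos : ∀ k, 1 ≤ k → k ≤ t.length → 0 < lev t k := fun k h1 h2 => (mem_St.1 (hmem k h1 h2)).1
  have hle : ∀ k, 1 ≤ k → k ≤ t.length → lev t k ≤ 3 * T := by
    intro k h1 h2
    have h3 := (mem_St.1 (hmem k h1 h2)).2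
    have h4 := lev_mod t k
    split_ifs at h4 <;> omega
  have hi1 : i ≠ 0 := by
    rintro rfl
    rw [lev_zero] at hspec
    omega
  have hev : Even i := by
    by_contra he
    have hmod := lev_mod t i
    rw [if_neg he, hspec] at hmod
    omega
  obtain ⟨m, rfl⟩ : ∃ m, i = m + 1 := ⟨i - 1, by omega⟩
  have hodd : ¬ Even m := by
    intro he
    rw [Nat.even_add_one] at hev
    exact hev he
  have hm1 : 1 ≤ m := by
    by_contra hcon
    have : m = 0 := by omega
    rw [this] at hodd
    exact hodd (by decide)
  -- direction of arrival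
  obtain ⟨c, hc⟩ : ∃ c : Bool, dx up t m = turn c up := by
    rcases step_odd upd t hodd with ⟨hd, hip⟩ | ⟨hd, hip⟩ | ⟨hd, hip⟩
    · exfalso
      have hs := lev_succ t m
      rw [hip, hspec] at hs
      have := hle m hm1 (by omega)
      omega
    · exact ⟨true, hd⟩
    · exact ⟨false, hd⟩
  obtain ⟨a, ha⟩ : ∃ a, a = t.take m := ⟨_, rfl⟩
  have hal : a.length = m := by
    rw [ha, List.length_take]
    omega
  have hsp0 : t = a ++ t.drop m := by
    rw [ha]
    exact (List.take_append_drop m t).symm
  have hva : ∀ k, k ≤ m + 1 → vx oo up a k = vx oo up t k := by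
    intro k hk
    rw [hsp0, vx_append (by omega)]
  have hda : ∀ k, k ≤ m → dx up a k = dx up t k := by
    intro k hk
    rw [hsp0, dx_append (by omega)]
  have hgl : (a ++ [!c]).length = m + 1 := by
    rw [List.length_append, hal]
    rfl
  have hgB : a ++ [!c] ∈ Brd T := by
    have hvg : ∀ k, k ≤ m + 1 → vx oo up (a ++ [!c]) k = vx oo up t k := by
      intro k hk
      rw [vx_append (by omega), hva k hk]
    rw [mem_Brd, hgl]
    refine ⟨?_, ?_, ?_, ?_⟩
    · intro k h1 h2
      have e : lev (a ++ [!c]) k = lev t k := by
        unfold lev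
        rw [hvg k h2]
      rw [e]
      exact ⟨hpos k h1 (by omega), hle k h1 (by omega)⟩
    · intro k l hkl hl
      rw [hvg k (by omega), hvg l hl]
      exact hinj k l hkl (by omega)
    · have h1 := dx_append_one (d0 := up) (t := a) (b := !c)
      rw [hgl] at h1
      rw [h1, hal, hda m le_rfl, hc, turn_turn]
    · have e : lev (a ++ [!c]) (m + 1) = lev t (m + 1) := by
        unfold lev
        rw [hvg _ le_rfl]
      rw [e, hspec]
  refine ⟨a, !c, hgB, ?_⟩
  have hsp1 := take_split (t := t) (i := m) (by omega)
  rw [← ha] at hsp1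
  rcases Nat.lt_or_ge (m + 1) t.length with hlt | hge
  swap
  · -- the walk ends at the top
    left
    have h1 : t.drop (m + 1) = [] := List.drop_eq_nil_of_le hge
    rw [h1] at hsp1
    exact ⟨tf t m, hsp1⟩
  right
  have hdx1 := dx_succ up t m
  rw [hc] at hdx1
  have hb : tf t m = c := by
    by_contra hne
    have hb' : tf t m = !c := by
      cases h5 : tf t m <;> cases h6 : c <;> rw [h5, h6] at hne <;> simp at hne ⊢
    rw [hb', turn_turn] at hdx1
    have hs := lev_succ t (m + 1)
    rw [hdx1, hspec, ip_self_dir upd] at hs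
    have := hle (m + 2) (by omega) (by omega)
    rw [show m + 2 = m + 1 + 1 from rfl, hs] at this
    omega
  rw [hb] at hdx1
  have hl2 : lev t (m + 2) = 3 * T - 1 := by
    have hs := lev_succ t (m + 1)
    rw [hdx1, hspec] at hs
    have e : ip (turn c (turn c up)) up = -1 := by
      cases c <;> decide
    rw [e] at hs
    rw [show m + 2 = m + 1 + 1 from rfl, hs]
    ring
  have hsp2 := take_split (t := t) (i := m + 1) (by omega)
  have htk : t.take (m + 1) = a ++ [c] := by
    have h1 : t.take (m + 1) = (a ++ ([tf t m] ++ t.drop (m + 1))).take (m + 1) := by rw [← hsp1]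
    rw [h1, ← List.append_assoc, List.take_append_of_le_length (by simp [hal]),
      List.take_of_length_le (by simp [hal]), hb]
  rw [htk] at hsp2
  rcases Nat.lt_or_ge (m + 2) t.length with hlt2 | hge2
  swap
  · -- the walk ends at the first odd vertex below the top
    have h1 : t.drop (m + 1 + 1) = [] := List.drop_eq_nil_of_le hge2
    rw [h1] at hsp2
    refine ⟨[], [], ?_, by simp, ?_, ?_⟩
    · refine ⟨?_, ?_⟩
      · intro k h1 h2
        simp at h2
        omega
      · intro k l h1 h2
        simp at h2
        omega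
    · intro p hp
      have h2 := hang_cut (c := c) hT hlt hpos hle hinj hspec hc hdx1 (r := []) (by
        intro k hk
        have : k = 0 := by simpa using hk
        subst this
        refine ⟨by omega, ?_⟩
        rw [add_zero, sub_self]
        rfl) hp
      rw [← ha] at h2
      exact h2
    · cases hx : tf t (m + 1) <;> cases hy : c <;> rw [hx, hy] at hsp2
      · left
        rw [hsp2]
        simp
      · right
        refine ⟨rfl, ?_⟩
        rw [hsp2]
        simp
      · right
        refine ⟨rfl, ?_⟩
        rw [hsp2]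
        simp
      · left
        rw [hsp2]
        simp
  -- general case
  have hb2 : tf t (m + 1) = c := by
    by_contra hne
    have hb' : tf t (m + 1) = !c := by
      cases h5 : tf t (m + 1) <;> cases h6 : c <;> rw [h5, h6] at hne <;> simp at hne ⊢
    have hdx2 := dx_succ up t (m + 1)
    rw [hb', hdx1, turn_turn] at hdx2
    have hs := lev_succ t (m + 1 + 1)
    rw [hdx2] at hs
    have e : ip (turn c up) up = 1 := by
      cases c <;> decide
    rw [e] at hs
    apply hmax (m + 3) (by omega) (by omega)
    have h3 : lev t (m + 1 + 1) = 3 * T - 1 := hl2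
    rw [h3] at hs
    rw [show m + 3 = m + 1 + 1 + 1 from rfl, hs]
    ring
  rw [hb2] at hsp2
  have hdx2 : dx up t (m + 2) = -up := by
    have h1 := dx_succ up t (m + 1)
    rw [hb2, hdx1] at h1
    rw [show m + 2 = m + 1 + 1 from rfl, h1]
    cases c <;> decide
  -- levels of the rest
  have hrest : ∀ k, m + 3 ≤ k → k < t.length → lev t k ≤ 3 * T - 3 := by
    intro k h1 h2
    have h3 := hmax k (by omega) (by omega)
    have h4 := hle k (by omega) (by omega)
    have h5 := lev_mod t k
    by_cases he : Even k
    · rw [if_pos he] at h5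
      omega
    · rw [if_neg he] at h5
      by_contra hcon
      have h6 : lev t k = 3 * T - 1 := by omega
      -- arrival
      obtain ⟨l, rfl⟩ : ∃ l, k = l + 1 := ⟨k - 1, by omega⟩
      have hel : Even l := by
        rw [Nat.even_add_one, not_not] at he
        exact he
      have s1 := lev_succ t l
      have s2 := lev_succ t (l + 1)
      have g1 := hmax l (by omega) (by omega)
      have g2 := hmax (l + 2) (by omega) (by omega)
      have d1 : dx up t l = up := by
        rcases step_even upd t hel with ⟨h, hip⟩ | ⟨h, hip⟩ | ⟨h, hip⟩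
        · exact h
        · exfalso
          rw [hip, h6] at s1
          apply g1
          linarith
        · exfalso
          rw [hip, h6] at s1
          apply g1
          linarith
      have d2 : dx up t (l + 1) = -up := by
        rcases step_odd upd t he with ⟨h, hip⟩ | ⟨h, hip⟩ | ⟨h, hip⟩
        · exact h
        · exfalso
          rw [hip, h6] at s2
          apply g2
          rw [show l + 2 = l + 1 + 1 from rfl, s2]
          ring
        · exfalso
          rw [hip, h6] at s2
          apply g2
          rw [show l + 2 = l + 1 + 1 from rfl, s2]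
          ring
      have d3 := dx_succ up t l
      rw [d1, d2] at d3
      revert d3
      cases tf t l <;> decide
  -- the remainder as a walk
  obtain ⟨q, hq⟩ : ∃ q, q = t.drop (m + 2) := ⟨_, rfl⟩
  have hql : q.length + (m + 2) = t.length := by
    rw [hq, List.length_drop]
    omega
  have hsp3 : t = (a ++ [c, c]) ++ q := by
    rw [hq]
    rw [show m + 1 + 1 = m + 2 from rfl] at hsp2
    conv_lhs => rw [hsp2]
    simp
  have hvq : ∀ k, vx oo up q k = vx oo up t (m + 2) - vx oo up t (m + 2 + k) := by
    intro k
    have e1 : vx oo up t (m + 2 + k) = vx (vx oo up t (m + 2)) (dx up t (m + 2)) q k := by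
      unfold vx dx
      rw [vs_shift]
      apply vs_congr
      intro l _
      have h1 : tf ((a ++ [c, c]) ++ q) ((a ++ [c, c]).length + l) = tf q l := tf_append_right l
      have h2 : (a ++ [c, c]).length = m + 2 := by
        rw [List.length_append, hal]
        rfl
      rw [h2, ← hsp3] at h1
      exact h1
    rw [e1, hdx2, vx_turned]
    abel
  have hlq : ∀ k, lev q k = 3 * T - 1 - lev t (m + 2 + k) := by
    intro k
    have h1 := congrArg (fun p => ip p up) (hvq k)
    simp only [ip_sub_left] at h1
    have h2 : lev q k = lev t (m + 2) - lev t (m + 2 + k) := h1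
    rw [h2, hl2]
  have hSSt : ∀ (r : List Bool), (∀ k, k ≤ r.length → k ≤ q.length ∧ vx oo up r k = vx oo up q k) →
      (∀ k, 1 ≤ k → k ≤ r.length → lev t (m + 2 + k) ≤ 3 * T - 3) → r ∈ SSt (T - 1) := by
    intro r hr1 hr2
    refine ⟨?_, ?_⟩
    · intro k h1 h2
      rw [mem_St]
      obtain ⟨h3, h4⟩ := hr1 k h2
      have e : lev r k = lev q k := by
        unfold lev
        rw [h4]
      rw [e, hlq]
      have h5 := hr2 k h1 h2
      have h6 := hpos (m + 2 + k) (by omega) (by omega)
      rw [Nat.cast_sub hT]
      push_cast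
      constructor <;> linarith
    · intro k l hkl hl heq
      obtain ⟨h3, h4⟩ := hr1 k (by omega)
      obtain ⟨h5, h6⟩ := hr1 l hl
      rw [h4, h6, hvq, hvq] at heq
      apply hinj (m + 2 + k) (m + 2 + l) (by omega) (by omega)
      linear_combination (-1 : Pt) * heq
  have hHang : ∀ (r : List Bool), (∀ k, k ≤ r.length → k ≤ q.length ∧ vx oo up r k = vx oo up q k) →
      ∀ p, Lead p → Hang (p ++ (a ++ [!c])) (!c) r := by
    intro r hr1 p hp
    have h2 := hang_cut (c := c) hT (by omega) hpos hle hinj hspec hc hdx1 (r := r) (by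
      intro k hk
      obtain ⟨h3, h4⟩ := hr1 k hk
      refine ⟨by omega, ?_⟩
      rw [h4, hvq]) hp
    rw [← ha] at h2
    exact h2
  by_cases hlast : lev t t.length ≤ 3 * T - 3
  · refine ⟨q, [], hSSt q (fun k hk => ⟨hk, rfl⟩) ?_, by simp, hHang q (fun k hk => ⟨hk, rfl⟩), ?_⟩
    · intro k h1 h2
      rcases Nat.lt_or_ge (m + 2 + k) t.length with h3 | h3
      · exact hrest _ (by omega) h3
      · have h4 : m + 2 + k = t.length := by omega
        rw [h4]
        exact hlast
    · left
      conv_lhs => rw [hsp3]
      simp
  · -- the last vertex is removed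
    obtain ⟨r, hr⟩ : ∃ r, r = q.take (q.length - 1) := ⟨_, rfl⟩
    have hq1 : 1 ≤ q.length := by omega
    have hrl : r.length = q.length - 1 := by
      rw [hr, List.length_take]
      omega
    have hqr : q = r ++ q.drop (q.length - 1) := by
      rw [hr]
      exact (List.take_append_drop _ q).symm
    have hr1 : ∀ k, k ≤ r.length → k ≤ q.length ∧ vx oo up r k = vx oo up q k := by
      intro k hk
      refine ⟨by omega, ?_⟩
      conv_rhs => rw [hqr]
      rw [vx_append (by omega)]
    refine ⟨r, q.drop (q.length - 1), hSSt r hr1 ?_, ?_, hHang r hr1, ?_⟩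
    · intro k h1 h2
      exact hrest _ (by omega) (by omega)
    · rw [List.length_drop]
      omega
    · left
      conv_lhs => rw [hsp3, hqr]
      simp

end HexObs
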