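import Pool.Agent.PHW.FoldF

/-!
PHW section S6: the fold lemma for two strands of which neither one has to be the taller one.
-/

set_option autoImplicit false

namespace HexObs

open Complex Finset ENNReal

namespace Fld

/-- X ++ I and Y can be continued to disjoint neighbours of height at least D (the words end at cuts) -/
def ExtD (D : ℕ) (I X Y : List Bool) : Prop :=
  ∃ (x y p q : ℕ) (X' Y' : List Bool), X ∈ Brd x ∧ Y ∈ Brd y ∧ I ++ X' ∈ Brd p ∧ Y' ∈ Brd q ∧
    D ≤ x + p ∧ D ≤ y + q ∧ (Dj (X ++ (I ++ X')) (Y ++ Y') ∨ Dj (Y ++ Y') (X ++ (I ++ X')))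

lemma Gen_of_ExtD {D a b : ℕ} {I X Y : List Bool} (hba : b ≤ a) (hD : 2 ^ (a + 2) ≤ D) (hX : X ∈ BrB b)
    (hY : Y ∈ BrB a) (h : ExtD D I X Y) :
    (Gen I (fv (D / 2) I - 1) X Y) ∨ (a = b ∧ Gen [] 0 Y X) ∨
    (Gen (I.map not) (fv (D / 2) I - 1) (X.map not) (Y.map not)) ∨ (a = b ∧ Gen [] 0 (Y.map not) (X.map not)) := by
  obtain ⟨x, y, p, q, X', Y', hx, hy, hIX, hY', h1, h2, h3⟩ := h
  obtain ⟨x', hxb, hx'⟩ := hX
  obtain ⟨y', hya, hy'⟩ := hY
  obtain rfl : x = x' := Brd_height hx hx'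
  obtain rfl : y = y' := Brd_height hy hy'
  have hx2 : x < 2 ^ (b + 1) := hxb.1
  have hy2 : y < 2 ^ (a + 1) := hya.1
  have hpow : 2 ^ (a + 2) = 2 * 2 ^ (a + 1) := by rw [pow_succ']
  have hpow2 : 2 ^ (b + 1) ≤ 2 ^ (a + 1) := Nat.pow_le_pow_right (by norm_num) (by omega)
  set j := fv (D / 2) I - 1 with hj
  have hjl : j ≤ I.length := (fv_spec (m := D / 2) (P := I) le_rfl).1
  have hjlev : ∀ i, i ≤ j → lev I i ≤ 3 * ((D / 2 : ℕ) : ℤ) := fun i hi => (fv_spec hi).2
  have hab : y < x → a = b := by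
    intro hlt
    have g1 := Bl_log hxb
    have g2 := Bl_log hya
    have g3 : Nat.log 2 y ≤ Nat.log 2 x := Nat.log_mono_right hlt.le
    omega
  rcases h3 with h3 | h3
  · rcases Nat.lt_or_ge y x with hyx | hyx
    · right; right; right
      refine ⟨hab hyx, y, x, q, p, Y'.map not, (I ++ X').map not, Brd_not hy, Brd_not hx, hyx.le, Brd_not hY',
        Brd_not hIX, by omega, by simp, ⟨Y'.map not, by simp⟩, ?_, ?_⟩
      · intro i hi
        have h0 : i = 0 := by omega
        rw [h0, lev_zero]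
        omega
      · rw [← List.map_append, ← List.map_append]
        exact Dj_not h3
    · left
      refine ⟨x, y, p, q, I ++ X', Y', hx, hy, hyx, hIX, hY', by omega, hjl, ⟨I.drop j ++ X', ?_⟩, ?_, h3⟩
      · rw [← List.append_assoc, List.take_append_drop]
      · intro i hi
        have := hjlev i hi
        push_cast at this ⊢
        omega
  · rcases Nat.lt_or_ge y x with hyx | hyx
    · right; left
      refine ⟨hab hyx, y, x, q, p, Y', I ++ X', hy, hx, hyx.le, hY', hIX, by omega, by simp, ⟨Y', by simp⟩, ?_, h3⟩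
      intro i hi
      have h0 : i = 0 := by omega
      rw [h0, lev_zero]
      omega
    · right; right; left
      refine ⟨x, y, p, q, (I ++ X').map not, Y'.map not, Brd_not hx, Brd_not hy, hyx, Brd_not hIX, Brd_not hY', by omega,
        by rw [List.length_map]; exact hjl, ⟨(I.drop j ++ X').map not, ?_⟩, ?_, ?_⟩
      · rw [take_map_not, ← List.map_append, ← List.append_assoc, List.take_append_drop]
      · intro i hi
        rw [lev_not I (by omega)]
        have := hjlev i hi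
        push_cast at this ⊢
        omega
      · rw [← List.map_append, ← List.map_append]
        exact Dj_not h3

/-- **the fold lemma** for two strands of height at least D, b ≤ a: X is followed by the giant I -/
theorem fold_gen (h5 : S5) (A : ℕ) : ∃ ε C : ℝ, 0 < ε ∧ ε < 1 ∧ 0 < C ∧ ∀ (D a b : ℕ) (I : List Bool), b ≤ a →
    2 ^ (a + 2) ≤ D → g2 (BrB b) (BrB a) (ExtD D I) ≤
      ENNReal.ofReal (C * UU (2 ^ a) *
        (1 - ε) ^ min (nfl A (pre (D / 2) I) b a) (nfl A ((pre (D / 2) I).map not) b a)) := by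
  classical
  obtain ⟨ε, C, hε0, hε1, hC, hI⟩ := foldI h5 A
  have hB := FoldB_of_FoldI hε1 hC hI
  refine ⟨ε, C * 16, hε0, hε1, by positivity, ?_⟩
  intro D a b I hba hD
  have hq0 : 0 < 1 - ε := by linarith
  have hq1 : 1 - ε ≤ 1 := by linarith
  have hUa := Num2Aux.UU_pos (2 ^ a)
  set j := fv (D / 2) I - 1 with hj
  have hpre : pre (D / 2) I = I.take j := rfl
  set S1 : Set (List Bool × List Bool) := {p | p.1 ∈ BrB b ∧ p.2 ∈ BrB a ∧ Gen I j p.1 p.2} with hS1
  set S2 : Set (List Bool × List Bool) := {p | p.1 ∈ BrB b ∧ p.2 ∈ BrB a ∧ a = b ∧ Gen [] 0 p.2 p.1} with hS2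
  set S3 : Set (List Bool × List Bool) := {p | p.1 ∈ BrB b ∧ p.2 ∈ BrB a ∧
    Gen (I.map not) j (p.1.map not) (p.2.map not)} with hS3
  set S4 : Set (List Bool × List Bool) := {p | p.1 ∈ BrB b ∧ p.2 ∈ BrB a ∧ a = b ∧
    Gen [] 0 (p.2.map not) (p.1.map not)} with hS4
  have hcov : g2 (BrB b) (BrB a) (ExtD D I) ≤ (W2 S1 + W2 S2) + (W2 S3 + W2 S4) := by
    rw [g2_eq_W2]
    refine (W2_mono (G' := (S1 ∪ S2) ∪ (S3 ∪ S4)) ?_).trans ((W2_union_le _ _).trans
      (add_le_add (W2_union_le _ _) (W2_union_le _ _)))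
    rintro p ⟨p1, p2, p3⟩
    rcases Gen_of_ExtD hba hD p1 p2 p3 with h | h | h | h
    · exact Or.inl (Or.inl ⟨p1, p2, h⟩)
    · exact Or.inl (Or.inr ⟨p1, p2, h.1, h.2⟩)
    · exact Or.inr (Or.inl ⟨p1, p2, h⟩)
    · exact Or.inr (Or.inr ⟨p1, p2, h.1, h.2⟩)
  set F : ℝ := (1 - ε) ^ min (nfl A (pre (D / 2) I) b a) (nfl A ((pre (D / 2) I).map not) b a) with hF
  have hF0 : 0 ≤ F := by positivity
  have f1 : (1 - ε) ^ nfl A ((I.take j).map not) b a ≤ F := by
    rw [hF, hpre]
    exact pow_le_pow_of_le_one hq0.le hq1 (min_le_right _ _)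
  have f3 : (1 - ε) ^ nfl A (I.take j) b a ≤ F := by
    rw [hF, hpre]
    exact pow_le_pow_of_le_one hq0.le hq1 (min_le_left _ _)
  have c1 : W2 S1 ≤ ENNReal.ofReal (4 * C * UU (2 ^ a) * F) := by
    refine (hB b a I j).trans (ENNReal.ofReal_le_ofReal ?_)
    exact mul_le_mul_of_nonneg_left f1 (by positivity)
  have c3 : W2 S3 ≤ ENNReal.ofReal (4 * C * UU (2 ^ a) * F) := by
    have h1 : W2 S3 ≤ W2 {p | p.1 ∈ BrB b ∧ p.2 ∈ BrB a ∧ Gen (I.map not) j p.1 p.2} := by
      refine W2_le_of_inj (fun p => (p.1.map not, p.2.map not)) ?_ ?_ ?_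
      · rintro p ⟨p1, p2, p3⟩
        exact ⟨BrB_not p1, BrB_not p2, p3⟩
      · rintro ⟨s, t⟩ ⟨s', t'⟩ h
        have h1 := congrArg Prod.fst h
        have h2 := congrArg Prod.snd h
        simp only at h1 h2
        exact Prod.ext (map_not_inj h1) (map_not_inj h2)
      · intro p
        show wE p.1 * wE p.2 = wE (p.1.map not) * wE (p.2.map not)
        rw [Wall.wE_not, Wall.wE_not]
    have h2 := hB b a (I.map not) j
    rw [take_map_not, map_not_not] at h2
    refine h1.trans (h2.trans (ENNReal.ofReal_le_ofReal ?_))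
    exact mul_le_mul_of_nonneg_left f3 (by positivity)
  have c2 : W2 S2 ≤ ENNReal.ofReal (4 * C * UU (2 ^ a) * F) := by
    rcases eq_or_ne a b with hab | hab
    · have h1 : W2 S2 ≤ W2 {p | p.1 ∈ BrB a ∧ p.2 ∈ BrB b ∧ Gen [] 0 p.1 p.2} := by
        refine W2_le_of_inj (fun p => (p.2, p.1)) ?_ ?_ ?_
        · rintro p ⟨p1, p2, -, p3⟩
          exact ⟨p2, p1, p3⟩
        · rintro ⟨s, t⟩ ⟨s', t'⟩ h
          have h1 := congrArg Prod.fst h
          have h2 := congrArg Prod.snd h
          simp only at h1 h2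
          exact Prod.ext h2 h1
        · intro p
          show wE p.1 * wE p.2 = wE p.2 * wE p.1
          rw [mul_comm]
      refine h1.trans ((hB a b [] 0).trans (ENNReal.ofReal_le_ofReal ?_))
      have h2 : F = 1 := by
        rw [hF, hab, nfl_self, nfl_self, min_self, pow_zero]
      rw [h2, hab, nfl_self, pow_zero]
    · have : S2 = ∅ := by
        ext p
        constructor
        · rintro ⟨-, -, h, -⟩
          exact absurd h hab
        · exact fun h => absurd h (Set.notMem_empty p)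
      rw [this, W2_empty]
      exact zero_le
  have c4 : W2 S4 ≤ ENNReal.ofReal (4 * C * UU (2 ^ a) * F) := by
    rcases eq_or_ne a b with hab | hab
    · have h1 : W2 S4 ≤ W2 {p | p.1 ∈ BrB a ∧ p.2 ∈ BrB b ∧ Gen [] 0 p.1 p.2} := by
        refine W2_le_of_inj (fun p => (p.2.map not, p.1.map not)) ?_ ?_ ?_
        · rintro p ⟨p1, p2, -, p3⟩
          exact ⟨BrB_not p2, BrB_not p1, p3⟩
        · rintro ⟨s, t⟩ ⟨s', t'⟩ h
          have h1 := congrArg Prod.fst h
          have h2 := congrArg Prod.snd h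
          simp only at h1 h2
          exact Prod.ext (map_not_inj h2) (map_not_inj h1)
        · intro p
          show wE p.1 * wE p.2 = wE (p.2.map not) * wE (p.1.map not)
          rw [Wall.wE_not, Wall.wE_not, mul_comm]
      refine h1.trans ((hB a b [] 0).trans (ENNReal.ofReal_le_ofReal ?_))
      have h2 : F = 1 := by
        rw [hF, hab, nfl_self, nfl_self, min_self, pow_zero]
      rw [h2, hab, nfl_self, pow_zero]
    · have : S4 = ∅ := by
        ext p
        constructor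
        · rintro ⟨-, -, h, -⟩
          exact absurd h hab
        · exact fun h => absurd h (Set.notMem_empty p)
      rw [this, W2_empty]
      exact zero_le
  calc g2 (BrB b) (BrB a) (ExtD D I) ≤ (W2 S1 + W2 S2) + (W2 S3 + W2 S4) := hcov
    _ ≤ (ENNReal.ofReal (4 * C * UU (2 ^ a) * F) + ENNReal.ofReal (4 * C * UU (2 ^ a) * F)) +
        (ENNReal.ofReal (4 * C * UU (2 ^ a) * F) + ENNReal.ofReal (4 * C * UU (2 ^ a) * F)) := by
        gcongr
    _ = ENNReal.ofReal ((4 * C * UU (2 ^ a) * F + 4 * C * UU (2 ^ a) * F) +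
        (4 * C * UU (2 ^ a) * F + 4 * C * UU (2 ^ a) * F)) := by
        rw [ENNReal.ofReal_add (by positivity) (by positivity), ENNReal.ofReal_add (by positivity) (by positivity)]
    _ = _ := by
        congr 1
        ring

end Fld

end HexObs
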