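import Pool.Agent.PHW.Defs

/-!
PHW, module A7b: two disjoint bridges keep their order (planarity).
-/

set_option autoImplicit false

namespace HexObs

open Complex Finset ENNReal

namespace Planar

/-- the parity does not change along an edge disjoint from the path; the ends of the path are far away -/
private lemma ord_KK_adj {a : ℕ → ℤ × ℤ} {n : ℕ} (ha : ∀ i, i ≤ n → Adj (a i) (a (i + 1)))
    {r r' : ℤ × ℤ} (h : EE r r') (h2 : ∀ c, phi c r (a 0) = 0) (h3 : ∀ c, phi c r (a (n + 1)) = 0)
    (hr : ∀ i, i ≤ n + 1 → a i ≠ r) (hr' : ∀ i, i ≤ n + 1 → a i ≠ r') : KK a n r = KK a n r' := by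
  obtain ⟨e1, e2, e3⟩ := h
  have hsum : ∀ x y : ZMod 2, x + y = 0 → x = y := by decide
  rcases e3 with ⟨b1, b2⟩ | ⟨b1, b2⟩ | ⟨b1, b2⟩
  · unfold KK
    apply sum_congr rfl
    intro i hi
    rw [mem_range] at hi
    exact kap_vert (ha i (by omega)) e1 b1 b2
  · apply hsum
    unfold KK
    rw [← sum_add_distrib]
    have h1 : ∀ i ∈ range (n + 1), kap (a i) (a (i + 1)) r + kap (a i) (a (i + 1)) r' =
        phi 1 r (a i) + phi 1 r (a (i + 1)) := by
      intro i hi
      rw [mem_range] at hi
      exact kap_right (ha i (by omega)) e1 e2 b1 b2 (hr' i (by omega)) (hr' (i + 1) (by omega))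
    rw [sum_congr rfl h1, sum_tele (fun i => phi 1 r (a i)) n, h2, h3, add_zero]
  · apply hsum
    unfold KK
    rw [← sum_add_distrib]
    have h1 : ∀ i ∈ range (n + 1), kap (a i) (a (i + 1)) r + kap (a i) (a (i + 1)) r' =
        phi 0 r (a i) + phi 0 r (a (i + 1)) := by
      intro i hi
      rw [mem_range] at hi
      exact kap_left (ha i (by omega)) e1 e2 b1 b2 (hr i (by omega)) (hr (i + 1) (by omega))
    rw [sum_congr rfl h1, sum_tele (fun i => phi 0 r (a i)) n, h2, h3, add_zero]

/-- two disjoint paths from the level 0 to the level H within the strip have the same order at both ends -/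
theorem order_abs {a g : ℕ → ℤ × ℤ} {n m : ℕ} {H : ℤ} (hH : 0 < H) (hH3 : H % 3 = 0)
    (ha : ∀ i, i < n → Adj (a i) (a (i + 1))) (ha0 : (a 0).2 = 0) (han : (a n).2 = H)
    (hin : ∀ i, 1 ≤ i → i ≤ n → 0 < (a i).2 ∧ (a i).2 ≤ H)
    (hg : ∀ j, j < m → Adj (g j) (g (j + 1))) (hg0 : (g 0).2 = 0) (hgm : (g m).2 = H)
    (hgin : ∀ j, 1 ≤ j → j ≤ m → 0 < (g j).2 ∧ (g j).2 ≤ H)
    (hdis : ∀ i, i ≤ n → ∀ j, j ≤ m → a i ≠ g j) :
    (a 0).1 < (g 0).1 ↔ (a n).1 < (g m).1 := by
  have hn : 1 ≤ n := by
    by_contra hcon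
    have h0 : n = 0 := by omega
    subst h0
    omega
  -- the path with one more step upwards
  set b : ℕ → ℤ × ℤ := fun i => if i ≤ n then a i else ((a n).1, H + 2) with hb
  have b1 : ∀ i, i ≤ n → b i = a i := by
    intro i hi
    simp only [hb]
    rw [if_pos hi]
  have b2 : b (n + 1) = ((a n).1, H + 2) := by
    simp only [hb]
    rw [if_neg (by omega)]
  have hb0 : (b 0).2 = 0 := by rw [b1 0 (by omega), ha0]
  have hpar : ((a n).1 + (a n).2) % 2 = 0 := by
    obtain ⟨k, rfl⟩ : ∃ k, n = k + 1 := ⟨n - 1, by omega⟩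
    have h1 := ha k (by omega)
    unfold Adj EE at h1
    omega
  have hadj : ∀ i, i ≤ n → Adj (b i) (b (i + 1)) := by
    intro i hi
    rcases Nat.lt_or_ge i n with h | h
    · rw [b1 i hi, b1 (i + 1) h]
      exact ha i h
    · have h' : i = n := by omega
      subst h'
      rw [b1 i le_rfl, b2]
      left
      refine ⟨by rw [han, hH3], hpar, Or.inl ⟨rfl, ?_⟩⟩
      rw [han]
  have hbdis : ∀ i, i ≤ n + 1 → ∀ j, j ≤ m → b i ≠ g j := by
    intro i hi j hj heq
    rcases Nat.lt_or_ge n i with h | h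
    · have h' : i = n + 1 := by omega
      rw [h', b2] at heq
      have h1 := congrArg Prod.snd heq
      simp only at h1
      rcases Nat.eq_zero_or_pos j with h2 | h2
      · rw [h2, hg0] at h1
        omega
      · have := (hgin j h2 hj).2
        omega
    · rw [b1 i h] at heq
      exact hdis i h j hj heq
  have hphi0 : ∀ (c : ℤ) (r : ℤ × ℤ), r.2 % 3 = 0 → 0 < r.2 → phi c r (b 0) = 0 := by
    intro c r h1 h2
    unfold phi
    rw [if_neg]
    omega
  have hphi1 : ∀ (c : ℤ) (r : ℤ × ℤ), r.2 ≤ H → phi c r (b (n + 1)) = 0 := by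
    intro c r h1
    unfold phi
    rw [if_neg]
    rw [b2]
    simp only
    omega
  -- the parity along g
  have key : ∀ j, j ≤ m → KK b n (g j) = KK b n (g 0) := by
    intro j
    induction j with
    | zero => intro _; rfl
    | succ j ih =>
      intro hj
      rw [← ih (by omega)]
      obtain ⟨hp, hq⟩ := hgin (j + 1) (by omega) hj
      have hjH : (g j).2 ≤ H := by
        rcases Nat.eq_zero_or_pos j with h0 | h0
        · rw [h0, hg0]
          exact hH.le
        · exact (hgin j h0 (by omega)).2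
      rcases hg j (by omega) with h | h
      · rcases Nat.eq_zero_or_pos j with h0 | h0
        · -- first step: vertical
          subst h0
          obtain ⟨e1, e2, e3⟩ := h
          have e4 : (g (0 + 1)).1 = (g 0).1 ∧ (g (0 + 1)).2 = (g 0).2 + 2 := by
            rcases e3 with e3 | e3 | e3
            · exact e3
            · omega
            · omega
          unfold KK
          apply sum_congr rfl
          intro i hi
          rw [mem_range] at hi
          exact (kap_vert (hadj i (by omega)) e1 e4.1 e4.2).symm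
        · have hpos := (hgin j h0 (by omega)).1
          exact (ord_KK_adj hadj h (fun c => hphi0 c _ h.1 hpos) (fun c => hphi1 c _ hjH)
            (fun i hi => hbdis i hi j (by omega)) (fun i hi => hbdis i hi (j + 1) hj)).symm
      · exact ord_KK_adj hadj h (fun c => hphi0 c _ h.1 hp) (fun c => hphi1 c _ hq)
            (fun i hi => hbdis i hi (j + 1) hj) (fun i hi => hbdis i hi j (by omega))
  have h1 := key m le_rfl
  -- bottom
  have hbin : ∀ i, 1 ≤ i → i ≤ n → 0 < (b i).2 ∧ (b i).2 ≤ H := by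
    intro i h1 h2
    rw [b1 i h2]
    exact hin i h1 h2
  have bot : KK b n (g 0) = if (a 0).1 ≤ (g 0).1 then 1 else 0 := by
    unfold KK
    rw [sum_range_succ']
    have h2 : ∑ k ∈ range n, kap (b (k + 1)) (b (k + 1 + 1)) (g 0) = 0 := by
      apply sum_eq_zero
      intro i hi
      rw [mem_range] at hi
      unfold kap
      rw [if_neg]
      have h3 := hbin (i + 1) (by omega) (by omega)
      have h4 : 0 < (b (i + 1 + 1)).2 := by
        rcases Nat.lt_or_ge n (i + 1 + 1) with h | h
        · have h' : i + 1 + 1 = n + 1 := by omega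
          rw [h', b2]
          show 0 < H + 2
          omega
        · exact (hbin (i + 1 + 1) (by omega) h).1
      omega
    rw [h2, zero_add]
    unfold kap
    have h3 := hadj 0 (by omega)
    have h4 : 0 < (b (0 + 1)).2 := (hbin 1 le_rfl hn).1
    unfold Adj EE at h3
    have e0 : (b 0).1 = (a 0).1 := by rw [b1 0 (by omega)]
    have h5 : ((b 0).1 = (b (0 + 1)).1 ∧ ((b 0).2 = (g 0).2 ∨ (b (0 + 1)).2 = (g 0).2) ∧
        (b 0).1 ≤ (g 0).1) ↔ (a 0).1 ≤ (g 0).1 := by
      omega
    simp only [h5]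
  -- top
  have top : KK b n (g m) = if (a n).1 ≤ (g m).1 then 1 else 0 := by
    unfold KK
    rw [sum_range_succ]
    have h2 : ∑ k ∈ range n, kap (b k) (b (k + 1)) (g m) = 0 := by
      apply sum_eq_zero
      intro i hi
      rw [mem_range] at hi
      unfold kap
      rw [if_neg]
      have h3 := hadj i (by omega)
      have h4 := (hbin (i + 1) (by omega) (by omega)).2
      have h5 : (b i).2 ≤ H := by
        rcases Nat.eq_zero_or_pos i with h0 | h0
        · rw [h0, hb0]
          exact hH.le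
        · exact (hbin i h0 (by omega)).2
      unfold Adj EE at h3
      omega
    rw [h2, zero_add]
    unfold kap
    rw [b1 n le_rfl, b2]
    have h5 : ((a n).1 = (a n).1 ∧ ((a n).2 = (g m).2 ∨ H + 2 = (g m).2) ∧ (a n).1 ≤ (g m).1) ↔
        (a n).1 ≤ (g m).1 := ⟨fun h => h.2.2, fun h => ⟨rfl, Or.inl (by rw [han, hgm]), h⟩⟩
    exact if_congr h5 rfl rfl
  rw [top, bot] at h1
  have n0 : (a 0).1 ≠ (g 0).1 := by
    intro h
    exact hdis 0 (by omega) 0 (by omega) (Prod.ext h (by rw [ha0, hg0]))
  have nn : (a n).1 ≠ (g m).1 := by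
    intro h
    exact hdis n le_rfl m le_rfl (Prod.ext h (by rw [han, hgm]))
  have h4 : (0 : ZMod 2) ≠ 1 := by decide
  have h4' : (1 : ZMod 2) ≠ 0 := by decide
  split_ifs at h1 with h5 h6 h6
  · constructor <;> intro _ <;> omega
  · exact absurd h1 h4'
  · exact absurd h1 h4
  · constructor <;> intro _ <;> omega

end Planar

/-- translation of a walk -/
private lemma ord_vx (v : Pt) (t : List Bool) (i : ℕ) : vx v up t i = v + vx oo up t i := by
  have h1 := vx_mulE (1, 0) oo v up t i
  rw [mulE_one, mulE_one] at h1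
  rw [h1]
  congr 1
  exact sub_zero _

private lemma ord_xy (k : ℤ) (t : List Bool) (i : ℕ) :
    xy oo up (vx (foot oo up k) up t i) = (lat t i + 2 * k, lev t i) := by
  rw [ord_vx]
  have h1 : cross up (foot oo up k) = -(2 * k) := by
    have h2 := cross_foot upd oo k 0
    have h3 : foot oo up 0 = oo := by
      unfold foot
      rw [zero_smul, add_zero]
    rw [h3] at h2
    have h4 : foot oo up k - oo = foot oo up k := sub_zero _
    rw [h4] at h2
    omega
  have h5 : ip (foot oo up k) up = 0 := by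
    have := ft_ip oo up k
    have h4 : foot oo up k - oo = foot oo up k := sub_zero _
    rwa [h4] at this
  unfold xy lat lev
  have h6 : foot oo up k + vx oo up t i - oo = foot oo up k + vx oo up t i := sub_zero _
  rw [h6]
  refine Prod.ext ?_ ?_
  · have h7 : cross up (foot oo up k + vx oo up t i) = cross up (foot oo up k) + cross up (vx oo up t i) := by
      simp only [cross, Prod.fst_add, Prod.snd_add]
      ring
    show -(cross up (foot oo up k + vx oo up t i)) = -(cross up (vx oo up t i)) + 2 * k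
    rw [h7, h1]
    ring
  · show ip (foot oo up k + vx oo up t i) up = ip (vx oo up t i) up
    rw [ip_add_left, h5, zero_add]

private lemma ord_lat_zero (t : List Bool) : lat t 0 = 0 := by
  show -(cross up oo) = 0
  decide

/-- the order of two disjoint walks at the ends of their parts below the level 3 h -/
private lemma ord_walks {h n m : ℕ} (hh : 1 ≤ h) {s t : List Bool}
    (hs : ∀ i, 1 ≤ i → i ≤ n → 0 < lev s i ∧ lev s i ≤ 3 * h) (hsn : lev s n = 3 * h) (hn : n ≤ s.length)
    (ht : ∀ i, 1 ≤ i → i ≤ m → 0 < lev t i ∧ lev t i ≤ 3 * h) (htm : lev t m = 3 * h) (hm : m ≤ t.length)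
    (hd : Dj s t) : lat s n < lat t m + 2 := by
  have hdj : ∀ i, 1 ≤ i → i ≤ n → ∀ j, 1 ≤ j → j ≤ m →
      vx (foot oo up 0) up s i ≠ vx (foot oo up 1) up t j := by
    intro i hi1 hi2 j hj1 hj2 heq
    exact Set.disjoint_left.1 hd ⟨i, hi1, by omega, rfl⟩ ⟨j, hj1, by omega, heq.symm⟩
  have key := Planar.order_abs (a := fun i => xy oo up (vx (foot oo up 0) up s i))
    (g := fun j => xy oo up (vx (foot oo up 1) up t j)) (n := n) (m := m) (H := 3 * (h : ℤ))
    (by omega) (by omega) (fun i _ => xy_adj upd (ft_cl oo up 0) s i) ?_ ?_ ?_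
    (fun j _ => xy_adj upd (ft_cl oo up 1) t j) ?_ ?_ ?_ ?_
  · simp only [ord_xy] at key
    have h0 : lat s 0 = 0 := ord_lat_zero s
    have h0' : lat t 0 = 0 := ord_lat_zero t
    rw [h0, h0'] at key
    have := key.1 (by norm_num)
    omega
  · simp only [ord_xy]
    exact lev_zero s
  · simp only [ord_xy]
    exact hsn
  · intro i h1 h2
    simp only [ord_xy]
    exact hs i h1 h2
  · simp only [ord_xy]
    exact lev_zero t
  · simp only [ord_xy]
    exact htm
  · intro i h1 h2
    simp only [ord_xy]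
    exact ht i h1 h2
  · intro i hi j hj heq
    rcases Nat.eq_zero_or_pos i with i0 | i0
    · rcases Nat.eq_zero_or_pos j with j0 | j0
      · subst i0
        subst j0
        have h1 := congrArg Prod.fst heq
        simp only [ord_xy] at h1
        have h0 : lat s 0 = 0 := ord_lat_zero s
        have h0' : lat t 0 = 0 := ord_lat_zero t
        rw [h0, h0'] at h1
        omega
      · have h1 := congrArg Prod.snd heq
        simp only [ord_xy] at h1
        rw [i0, lev_zero] at h1
        have := (ht j j0 hj).1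
        omega
    · rcases Nat.eq_zero_or_pos j with j0 | j0
      · have h1 := congrArg Prod.snd heq
        simp only [ord_xy] at h1
        rw [j0, lev_zero] at h1
        have := (hs i i0 hi).1
        omega
      · exact hdj i i0 hi j j0 hj (xy_inj upd heq)

/-- the right walk stays on the right: two bridges of the same height -/
theorem Dj_order {T : ℕ} {s t : List Bool} (hT : 1 ≤ T) (hs : s ∈ Brd T) (ht : t ∈ Brd T) (h : Dj s t) :
    latE s < latE t + 2 := by
  rw [mem_Brd] at hs ht
  exact ord_walks hT hs.1 hs.2.2.2 le_rfl ht.1 ht.2.2.2 le_rfl h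

/-- the first passage -/
private lemma ord_fp {a h : ℕ} {s : List Bool} (hh : 1 ≤ h) (hs : s ∈ Brd a) (ha : h ≤ a) :
    fp s h ≤ s.length ∧ lev s (fp s h) = 3 * h ∧
      ∀ i, 1 ≤ i → i ≤ fp s h → 0 < lev s i ∧ lev s i ≤ 3 * h := by
  rw [mem_Brd] at hs
  obtain ⟨h1, h2, h3, h4⟩ := hs
  have hne : {i | 3 * (h : ℤ) ≤ lev s i}.Nonempty := ⟨s.length, by
    show 3 * (h : ℤ) ≤ lev s s.length
    rw [h4]
    omega⟩
  have hmem : 3 * (h : ℤ) ≤ lev s (fp s h) := Nat.sInf_mem hne
  have hle : fp s h ≤ s.length := Nat.sInf_le (by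
    show 3 * (h : ℤ) ≤ lev s s.length
    rw [h4]
    omega)
  have hlt : ∀ i, i < fp s h → lev s i < 3 * h := by
    intro i hi
    by_contra hcon
    have := Nat.sInf_le (s := {i | 3 * (h : ℤ) ≤ lev s i}) (m := i) (not_lt.1 hcon)
    have h5 : fp s h ≤ i := this
    omega
  have hpos : 1 ≤ fp s h := by
    by_contra hcon
    have h0 : fp s h = 0 := by omega
    rw [h0, lev_zero] at hmem
    omega
  have heq : lev s (fp s h) = 3 * h := by
    obtain ⟨k, hk⟩ : ∃ k, fp s h = k + 1 := ⟨fp s h - 1, by omega⟩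
    have h5 := hlt k (by omega)
    rw [hk] at hmem ⊢
    have h6 := lev_mod s k
    have h7 := lev_mod s (k + 1)
    have h8 := lev_succ s k
    by_cases he : Even k
    · rcases step_even upd s he with ⟨_, h⟩ | ⟨_, h⟩ | ⟨_, h⟩ <;> rw [h] at h8 <;>
        rw [if_pos he] at h6 <;> omega
    · rcases step_odd upd s he with ⟨_, h⟩ | ⟨_, h⟩ | ⟨_, h⟩ <;> rw [h] at h8 <;>
        rw [if_neg he] at h6 <;> omega
  refine ⟨hle, heq, ?_⟩
  intro i i1 i2
  refine ⟨(h1 i i1 (by omega)).1, ?_⟩
  rcases Nat.lt_or_ge i (fp s h) with h5 | h5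
  · exact (hlt i h5).le
  · have h6 : i = fp s h := by omega
    rw [h6, heq]

/-- order at the first passages of the level h -/
theorem Dj_order_fp {a b h : ℕ} {s t : List Bool} (hh : 1 ≤ h) (hs : s ∈ Brd a) (ht : t ∈ Brd b) (ha : h ≤ a) (hb : h ≤ b)
    (hd : Dj s t) : lat s (fp s h) < lat t (fp t h) + 2 := by
  obtain ⟨s1, s2, s3⟩ := ord_fp hh hs ha
  obtain ⟨t1, t2, t3⟩ := ord_fp hh ht hb
  exact ord_walks hh s3 s2 s1 t3 t2 t1 hd

end HexObs
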