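import Pool.Agent.PHW.Order
import Pool.Agent.PHW.PairsA

/-!
PHW: the killing lemma (planarity). A walk that starts on the right of a bridge s and stays in the strip of s
and off s does not visit the left half of a row in which s makes only one step between two cuts.
-/

set_option autoImplicit false

namespace HexObs

open Complex Finset ENNReal

namespace Planar

/-- the parity does not change along an edge disjoint from the path; the ends of the path are far away -/
private lemma kil_KK_adj {a : ℕ → ℤ × ℤ} {n : ℕ} (ha : ∀ i, i ≤ n → Adj (a i) (a (i + 1)))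
    {r r' : ℤ × ℤ} (h : EE r r') (h2 : ∀ c, phi c r (a 0) = 0) (h3 : ∀ c, phi c r (a (n + 1)) = 0)
    (hr : ∀ i, i ≤ n + 1 → a i ≠ r) (hr' : ∀ i, i ≤ n + 1 → a i ≠ r') : KK a n r = KK a n r' := by
  obtain ⟨e1, e2, e3⟩ := h
  have hsum : ∀ x y : ZMod 2, x + y = 0 → x = y := by decide
  rcases e3 with ⟨b1, b2⟩ | ⟨b1, b2⟩ | ⟨b1, b2⟩
  · unfold KK
    apply sum_congr rfl
    intro i hi
    rw [mem_range] at hi
    exact kap_vert (ha i (by omega)) e1 b1 b2
  · apply hsum
    unfold KK
    rw [← sum_add_distrib]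
    have h1 : ∀ i ∈ range (n + 1), kap (a i) (a (i + 1)) r + kap (a i) (a (i + 1)) r' =
        phi 1 r (a i) + phi 1 r (a (i + 1)) := by
      intro i hi
      rw [mem_range] at hi
      exact kap_right (ha i (by omega)) e1 e2 b1 b2 (hr' i (by omega)) (hr' (i + 1) (by omega))
    rw [sum_congr rfl h1, sum_tele (fun i => phi 1 r (a i)) n, h2, h3, add_zero]
  · apply hsum
    unfold KK
    rw [← sum_add_distrib]
    have h1 : ∀ i ∈ range (n + 1), kap (a i) (a (i + 1)) r + kap (a i) (a (i + 1)) r' =
        phi 0 r (a i) + phi 0 r (a (i + 1)) := by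
      intro i hi
      rw [mem_range] at hi
      exact kap_left (ha i (by omega)) e1 e2 b1 b2 (hr i (by omega)) (hr (i + 1) (by omega))
    rw [sum_congr rfl h1, sum_tele (fun i => phi 0 r (a i)) n, h2, h3, add_zero]

/-- `a` crosses the strip 0 < level ≤ H, `g` starts on the right of `a` and stays in the strip off `a`:
every vertex of `g` has a vertex of `a` on its left, on the same level. -/
theorem ray_abs {a g : ℕ → ℤ × ℤ} {n m : ℕ} {H : ℤ} (hH : 0 < H) (hH3 : H % 3 = 0)
    (ha : ∀ i, i < n → Adj (a i) (a (i + 1))) (ha0 : (a 0).2 = 0) (han : (a n).2 = H)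
    (hin : ∀ i, 1 ≤ i → i ≤ n → 0 < (a i).2 ∧ (a i).2 ≤ H)
    (hg : ∀ j, j < m → Adj (g j) (g (j + 1))) (hg0 : (g 0).2 = 0) (hm : 1 ≤ m)
    (hgin : ∀ j, 1 ≤ j → j ≤ m → 0 < (g j).2 ∧ (g j).2 ≤ H)
    (hdis : ∀ i, i ≤ n → ∀ j, j ≤ m → a i ≠ g j) (h0 : (a 0).1 < (g 0).1) :
    ∃ i, 1 ≤ i ∧ i ≤ n ∧ (a i).2 = (g m).2 ∧ (a i).1 ≤ (g m).1 := by
  have hn : 1 ≤ n := by
    by_contra hcon
    have h0 : n = 0 := by omega
    subst h0
    omega
  -- the path with one more step upwards
  set b : ℕ → ℤ × ℤ := fun i => if i ≤ n then a i else ((a n).1, H + 2) with hb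
  have b1 : ∀ i, i ≤ n → b i = a i := by
    intro i hi
    simp only [hb]
    rw [if_pos hi]
  have b2 : b (n + 1) = ((a n).1, H + 2) := by
    simp only [hb]
    rw [if_neg (by omega)]
  have hb0 : (b 0).2 = 0 := by rw [b1 0 (by omega), ha0]
  have hpar : ((a n).1 + (a n).2) % 2 = 0 := by
    obtain ⟨k, rfl⟩ : ∃ k, n = k + 1 := ⟨n - 1, by omega⟩
    have h1 := ha k (by omega)
    unfold Adj EE at h1
    omega
  have hadj : ∀ i, i ≤ n → Adj (b i) (b (i + 1)) := by
    intro i hi
    rcases Nat.lt_or_ge i n with h | h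
    · rw [b1 i hi, b1 (i + 1) h]
      exact ha i h
    · have h' : i = n := by omega
      subst h'
      rw [b1 i le_rfl, b2]
      left
      refine ⟨by rw [han, hH3], hpar, Or.inl ⟨rfl, ?_⟩⟩
      rw [han]
  have hbdis : ∀ i, i ≤ n + 1 → ∀ j, j ≤ m → b i ≠ g j := by
    intro i hi j hj heq
    rcases Nat.lt_or_ge n i with h | h
    · have h' : i = n + 1 := by omega
      rw [h', b2] at heq
      have h1 := congrArg Prod.snd heq
      simp only at h1
      rcases Nat.eq_zero_or_pos j with h2 | h2
      · rw [h2, hg0] at h1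
        omega
      · have := (hgin j h2 hj).2
        omega
    · rw [b1 i h] at heq
      exact hdis i h j hj heq
  have hphi0 : ∀ (c : ℤ) (r : ℤ × ℤ), r.2 % 3 = 0 → 0 < r.2 → phi c r (b 0) = 0 := by
    intro c r h1 h2
    unfold phi
    rw [if_neg]
    omega
  have hphi1 : ∀ (c : ℤ) (r : ℤ × ℤ), r.2 ≤ H → phi c r (b (n + 1)) = 0 := by
    intro c r h1
    unfold phi
    rw [if_neg]
    rw [b2]
    simp only
    omega
  -- the parity along g
  have key : ∀ j, j ≤ m → KK b n (g j) = KK b n (g 0) := by
    intro j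
    induction j with
    | zero => intro _; rfl
    | succ j ih =>
      intro hj
      rw [← ih (by omega)]
      obtain ⟨hp, hq⟩ := hgin (j + 1) (by omega) hj
      have hjH : (g j).2 ≤ H := by
        rcases Nat.eq_zero_or_pos j with h0 | h0
        · rw [h0, hg0]
          exact hH.le
        · exact (hgin j h0 (by omega)).2
      rcases hg j (by omega) with h | h
      · rcases Nat.eq_zero_or_pos j with h0 | h0
        · -- first step: vertical
          subst h0
          obtain ⟨e1, e2, e3⟩ := h
          have e4 : (g (0 + 1)).1 = (g 0).1 ∧ (g (0 + 1)).2 = (g 0).2 + 2 := by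
            rcases e3 with e3 | e3 | e3
            · exact e3
            · omega
            · omega
          unfold KK
          apply sum_congr rfl
          intro i hi
          rw [mem_range] at hi
          exact (kap_vert (hadj i (by omega)) e1 e4.1 e4.2).symm
        · have hpos := (hgin j h0 (by omega)).1
          exact (kil_KK_adj hadj h (fun c => hphi0 c _ h.1 hpos) (fun c => hphi1 c _ hjH)
            (fun i hi => hbdis i hi j (by omega)) (fun i hi => hbdis i hi (j + 1) hj)).symm
      · exact kil_KK_adj hadj h (fun c => hphi0 c _ h.1 hp) (fun c => hphi1 c _ hq)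
            (fun i hi => hbdis i hi (j + 1) hj) (fun i hi => hbdis i hi j (by omega))
  have h1 := key m le_rfl
  -- bottom
  have hbin : ∀ i, 1 ≤ i → i ≤ n → 0 < (b i).2 ∧ (b i).2 ≤ H := by
    intro i h1 h2
    rw [b1 i h2]
    exact hin i h1 h2
  have bot : KK b n (g 0) = if (a 0).1 ≤ (g 0).1 then 1 else 0 := by
    unfold KK
    rw [sum_range_succ']
    have h2 : ∑ k ∈ range n, kap (b (k + 1)) (b (k + 1 + 1)) (g 0) = 0 := by
      apply sum_eq_zero
      intro i hi
      rw [mem_range] at hi
      unfold kap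
      rw [if_neg]
      have h3 := hbin (i + 1) (by omega) (by omega)
      have h4 : 0 < (b (i + 1 + 1)).2 := by
        rcases Nat.lt_or_ge n (i + 1 + 1) with h | h
        · have h' : i + 1 + 1 = n + 1 := by omega
          rw [h', b2]
          show 0 < H + 2
          omega
        · exact (hbin (i + 1 + 1) (by omega) h).1
      omega
    rw [h2, zero_add]
    unfold kap
    have h3 := hadj 0 (by omega)
    have h4 : 0 < (b (0 + 1)).2 := (hbin 1 le_rfl hn).1
    unfold Adj EE at h3
    have e0 : (b 0).1 = (a 0).1 := by rw [b1 0 (by omega)]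
    have h5 : ((b 0).1 = (b (0 + 1)).1 ∧ ((b 0).2 = (g 0).2 ∨ (b (0 + 1)).2 = (g 0).2) ∧
        (b 0).1 ≤ (g 0).1) ↔ (a 0).1 ≤ (g 0).1 := by
      omega
    simp only [h5]
  rw [bot, if_pos h0.le] at h1
  -- a vertical edge on the left
  by_contra hcon
  have h2 : KK b n (g m) = 0 := by
    unfold KK
    apply sum_eq_zero
    intro i hi
    rw [mem_range] at hi
    unfold kap
    rw [if_neg]
    rintro ⟨e1, e2, e3⟩
    have hgm := hgin m hm le_rfl
    rcases e2 with e2 | e2
    · have hi1 : 1 ≤ i := by
        rcases Nat.eq_zero_or_pos i with h | h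
        · rw [h, hb0] at e2
          omega
        · exact h
      apply hcon
      refine ⟨i, hi1, by omega, ?_, ?_⟩
      · rw [← b1 i (by omega)]
        exact e2
      · rw [← b1 i (by omega)]
        exact e3
    · rcases Nat.lt_or_ge i n with h | h
      · apply hcon
        refine ⟨i + 1, by omega, by omega, ?_, ?_⟩
        · rw [← b1 (i + 1) (by omega)]
          exact e2
        · rw [← b1 (i + 1) (by omega), ← e1]
          exact e3
      · have h' : i = n := by omega
        rw [h', b2] at e2
        simp only at e2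
        omega
  rw [h2] at h1
  have h4 : (0 : ZMod 2) ≠ 1 := by decide
  exact h4 h1

end Planar

private lemma kil_vx (v : Pt) (t : List Bool) (i : ℕ) : vx v up t i = v + vx oo up t i := by
  have h1 := vx_mulE (1, 0) oo v up t i
  rw [mulE_one, mulE_one] at h1
  rw [h1]
  congr 1
  exact sub_zero _

private lemma kil_xy (k : ℤ) (t : List Bool) (i : ℕ) :
    xy oo up (vx (foot oo up k) up t i) = (lat t i + 2 * k, lev t i) := by
  rw [kil_vx]
  have h1 : cross up (foot oo up k) = -(2 * k) := by
    have h2 := cross_foot upd oo k 0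
    have h3 : foot oo up 0 = oo := by
      unfold foot
      rw [zero_smul, add_zero]
    rw [h3] at h2
    have h4 : foot oo up k - oo = foot oo up k := sub_zero _
    rw [h4] at h2
    omega
  have h5 : ip (foot oo up k) up = 0 := by
    have := ft_ip oo up k
    have h4 : foot oo up k - oo = foot oo up k := sub_zero _
    rwa [h4] at this
  unfold xy lat lev
  have h6 : foot oo up k + vx oo up t i - oo = foot oo up k + vx oo up t i := sub_zero _
  rw [h6]
  refine Prod.ext ?_ ?_
  · have h7 : cross up (foot oo up k + vx oo up t i) = cross up (foot oo up k) + cross up (vx oo up t i) := by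
      simp only [cross, Prod.fst_add, Prod.snd_add]
      ring
    show -(cross up (foot oo up k + vx oo up t i)) = -(cross up (vx oo up t i)) + 2 * k
    rw [h7, h1]
    ring
  · show ip (foot oo up k + vx oo up t i) up = ip (vx oo up t i) up
    rw [ip_add_left, h5, zero_add]

lemma lat_zero' (t : List Bool) : lat t 0 = 0 := by
  show -(cross up oo) = 0
  decide

lemma lat_append {s t : List Bool} {i : ℕ} (h : i ≤ s.length + 1) : lat (s ++ t) i = lat s i := by
  unfold lat
  rw [vx_append h]

lemma lat_cat {s t : List Bool} (hs : dx up s s.length = up) (j : ℕ) :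
    lat (s ++ t) (s.length + j) = latE s + lat t j := by
  unfold latE lat
  rw [vx_cat hs]
  simp only [cross, Prod.fst_add, Prod.snd_add]
  ring

/-- A bridge s of height a (foot 0) and a walk t (foot k on the right of it) that stays in the strip of s up to the
vertex number m and off s: on the level of this vertex s has a vertex on the left. -/
theorem ray_left {a n m : ℕ} {k : ℤ} {s t : List Bool} (ha : 1 ≤ a)
    (hs : ∀ i, 1 ≤ i → i ≤ n → 0 < lev s i ∧ lev s i ≤ 3 * a) (hsn : lev s n = 3 * a)
    (hm1 : 1 ≤ m) (ht : ∀ i, 1 ≤ i → i ≤ m → 0 < lev t i ∧ lev t i ≤ 3 * a) (hk : 0 < k)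
    (hd : ∀ i, 1 ≤ i → i ≤ n → ∀ j, 1 ≤ j → j ≤ m →
      vx (foot oo up 0) up s i ≠ vx (foot oo up k) up t j) :
    ∃ i, 1 ≤ i ∧ i ≤ n ∧ lev s i = lev t m ∧ lat s i < lat t m + 2 * k := by
  have h0 : lat s 0 = 0 := lat_zero' s
  have h0' : lat t 0 = 0 := lat_zero' t
  have key := Planar.ray_abs (a := fun i => xy oo up (vx (foot oo up 0) up s i))
    (g := fun j => xy oo up (vx (foot oo up k) up t j)) (n := n) (m := m) (H := 3 * (a : ℤ))
    (by omega) (by omega) (fun i _ => xy_adj upd (ft_cl oo up 0) s i) ?_ ?_ ?_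
    (fun j _ => xy_adj upd (ft_cl oo up k) t j) ?_ hm1 ?_ ?_ ?_
  · obtain ⟨i, i1, i2, i3, i4⟩ := key
    simp only [kil_xy] at i3 i4
    refine ⟨i, i1, i2, i3, ?_⟩
    have hne : lat s i ≠ lat t m + 2 * k := by
      intro h
      apply hd i i1 i2 m hm1 le_rfl
      apply xy_inj upd (v0 := oo)
      rw [kil_xy, kil_xy, i3, h]
      simp
    omega
  · simp only [kil_xy]
    exact lev_zero s
  · simp only [kil_xy]
    exact hsn
  · intro i h1 h2
    simp only [kil_xy]
    exact hs i h1 h2
  · simp only [kil_xy]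
    exact lev_zero t
  · intro i h1 h2
    simp only [kil_xy]
    exact ht i h1 h2
  · intro i hi j hj heq
    rcases Nat.eq_zero_or_pos i with i0 | i0
    · rcases Nat.eq_zero_or_pos j with j0 | j0
      · subst i0
        subst j0
        have h1 := congrArg Prod.fst heq
        simp only [kil_xy] at h1
        rw [h0, h0'] at h1
        omega
      · have h1 := congrArg Prod.snd heq
        simp only [kil_xy] at h1
        rw [i0, lev_zero] at h1
        have := (ht j j0 hj).1
        omega
    · rcases Nat.eq_zero_or_pos j with j0 | j0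
      · have h1 := congrArg Prod.snd heq
        simp only [kil_xy] at h1
        rw [j0, lev_zero] at h1
        have := (hs i i0 hi).1
        omega
      · exact hd i i0 hi j j0 hj (xy_inj upd heq)
  · simp only [kil_xy, h0, h0']
    omega

/-- the vertices of the row y of a bridge that makes there the step left, right between two cuts -/
theorem row_of_step {a y : ℕ} {s1 s2 : List Bool} (hy : 1 ≤ y) (hya : y ≤ a) (h1 : s1 ∈ Brd (y - 1))
    (h2 : s2 ∈ Brd (a - y)) {i : ℕ} (hi : 1 ≤ i) (hil : i ≤ (s1 ++ [true, false] ++ s2).length)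
    (hl : lev (s1 ++ [true, false] ++ s2) i = 3 * y - 1 ∨ lev (s1 ++ [true, false] ++ s2) i = 3 * y) :
    (lev (s1 ++ [true, false] ++ s2) i = 3 * y - 1 ∧ lat (s1 ++ [true, false] ++ s2) i = latE s1) ∨
    (lev (s1 ++ [true, false] ++ s2) i = 3 * y ∧ lat (s1 ++ [true, false] ++ s2) i = latE s1 - 1) := by
  rw [mem_Brd] at h1 h2
  obtain ⟨p1, p2, p3, p4⟩ := h1
  obtain ⟨q1, q2, q3, q4⟩ := h2
  have hcast : ((y - 1 : ℕ) : ℤ) = (y : ℤ) - 1 := by omega
  have hcast2 : ((a - y : ℕ) : ℤ) = (a : ℤ) - y := by omega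
  rw [hcast] at p4
  have hz1 : lev [true, false] 1 = 2 := by decide
  have hz2 : lev [true, false] 2 = 3 := by decide
  have hx1 : lat [true, false] 1 = 0 := by decide
  have hx2 : lat [true, false] 2 = -1 := by decide
  have hzd : dx up [true, false] 2 = up := by decide
  have hlen : (s1 ++ [true, false]).length = s1.length + 2 := by simp
  have hd2 : dx up (s1 ++ [true, false]) (s1 ++ [true, false]).length = up := by
    rw [hlen, dx_cat p3, hzd]
  have hl2 : lev (s1 ++ [true, false]) (s1 ++ [true, false]).length = 3 * y := by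
    rw [hlen, lev_cat p3, p4, hz2]
    ring
  rcases Nat.lt_or_ge s1.length i with h | h
  · rcases Nat.lt_or_ge (s1.length + 2) i with h' | h'
    · -- in s2
      exfalso
      obtain ⟨j, rfl⟩ : ∃ j, i = (s1 ++ [true, false]).length + j := ⟨i - (s1.length + 2), by omega⟩
      have hj1 : 1 ≤ j := by omega
      have hj2 : j ≤ s2.length := by
        simp only [List.length_append, List.length_cons, List.length_nil] at hil
        omega
      have := (q1 j hj1 hj2).1
      rw [lev_cat hd2, hl2] at hl
      omega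
    · obtain ⟨j, rfl⟩ : ∃ j, i = s1.length + j := ⟨i - s1.length, by omega⟩
      have e1 : lev (s1 ++ [true, false] ++ s2) (s1.length + j) = 3 * y - 3 + lev [true, false] j := by
        rw [lev_append (by omega), lev_cat p3, p4]
        ring
      have e2 : lat (s1 ++ [true, false] ++ s2) (s1.length + j) = latE s1 + lat [true, false] j := by
        rw [lat_append (by omega), lat_cat p3]
      have hj : j = 1 ∨ j = 2 := by omega
      rcases hj with rfl | rfl
      · left
        rw [e1, e2, hz1, hx1]
        omega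
      · right
        rw [e1, e2, hz2, hx2]
        omega
  · exfalso
    have := (p1 i hi h).2
    rw [hcast] at this
    rw [List.append_assoc, lev_append (by omega)] at hl
    omega

/-- KILLING. s makes the step left, right between the cuts y - 1 and y; a walk on the right of s in the strip of s
does not visit the left half of the row y. -/
theorem kill_path {a y m : ℕ} {k : ℤ} {s1 s2 t : List Bool} (hy : 1 ≤ y) (hya : y ≤ a) (h1 : s1 ∈ Brd (y - 1))
    (h2 : s2 ∈ Brd (a - y)) (hm1 : 1 ≤ m)
    (ht : ∀ i, 1 ≤ i → i ≤ m → 0 < lev t i ∧ lev t i ≤ 3 * a) (hk : 0 < k)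
    (hd : ∀ i, 1 ≤ i → i ≤ (s1 ++ [true, false] ++ s2).length → ∀ j, 1 ≤ j → j ≤ m →
      vx (foot oo up 0) up (s1 ++ [true, false] ++ s2) i ≠ vx (foot oo up k) up t j)
    (hl : lev t m = 3 * y - 1 ∨ lev t m = 3 * y) : latE s1 < lat t m + 2 * k := by
  have hs : s1 ++ [true, false] ++ s2 ∈ Brd a := by
    have h3 : [true, false] ∈ Brd 1 := by
      rw [mem_Brd]
      refine ⟨?_, ?_, ?_, ?_⟩
      · intro i i1 i2
        have i3 : i = 1 ∨ i = 2 := by
          simp only [List.length_cons, List.length_nil] at i2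
          omega
        rcases i3 with rfl | rfl <;> decide
      · intro i j hij hj heq
        simp only [List.length_cons, List.length_nil] at hj
        have h4 : (i = 0 ∧ j = 1) ∨ (i = 0 ∧ j = 2) ∨ (i = 1 ∧ j = 2) := by omega
        rcases h4 with ⟨rfl, rfl⟩ | ⟨rfl, rfl⟩ | ⟨rfl, rfl⟩ <;> revert heq <;> decide
      · decide
      · decide
    have h4 := Brd_append (Brd_append h1 h3) h2
    have h5 : y - 1 + 1 + (a - y) = a := by omega
    rwa [h5] at h4
  have hs' := mem_Brd.1 hs
  obtain ⟨i, i1, i2, i3, i4⟩ := ray_left (by omega) hs'.1 hs'.2.2.2 hm1 ht hk hd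
  rw [← i3] at hl
  have h6 := row_of_step hy hya h1 h2 i1 i2 hl
  -- the parity of the coordinates
  have hodd : lat t m + 2 * k ≠ latE s1 ∨ lev t m ≠ 3 * y := by
    by_contra hcon
    push Not at hcon
    obtain ⟨c1, c2⟩ := hcon
    -- both vertices are on the level 3 y, their distance is odd: impossible
    rcases h6 with ⟨d1, d2⟩ | ⟨d1, d2⟩
    · omega
    · have par : ∀ (w : List Bool) (j : ℕ), (lat w j + lev w j) % 2 = 0 := by
        intro w j
        unfold lat lev
        simp only [cross, ip, up]
        omega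
      have p1 := par (s1 ++ [true, false] ++ s2) i
      have p2 := par t m
      omega
  rcases h6 with ⟨d1, d2⟩ | ⟨d1, d2⟩
  · omega
  · omega

/-- the killing lemma for two bridges -/
theorem kill_left {a b y : ℕ} {s1 s2 t : List Bool} (hy : 1 ≤ y) (hya : y ≤ a) (hb : b ≤ a) (h1 : s1 ∈ Brd (y - 1))
    (h2 : s2 ∈ Brd (a - y)) (ht : t ∈ Brd b) (hd : Dj (s1 ++ [true, false] ++ s2) t) {i : ℕ} (hi : 1 ≤ i)
    (hil : i ≤ t.length) (hl : lev t i = 3 * y - 1 ∨ lev t i = 3 * y) : latE s1 < lat t i + 2 := by
  have ht' := mem_Brd.1 ht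
  have := kill_path (k := 1) hy hya h1 h2 hi (fun j j1 j2 => ⟨(ht'.1 j j1 (by omega)).1, by
    have := (ht'.1 j j1 (by omega)).2
    omega⟩) one_pos (fun i' i1 i2 j j1 j2 heq => Set.disjoint_left.1 hd ⟨i', i1, i2, rfl⟩ ⟨j, j1, by omega, heq.symm⟩) hl
  omega

end HexObs
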