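import Pool.Agent.HexObs.NI

/-!
Windings of the exits through a wall attached to the left infinity (slit strip, boxes).
-/

set_option autoImplicit false

namespace HexObs

open Complex Finset

/-- the half row on the left of abscissa c: levels 3 r + 2, 3 r + 3. -/
def hrow (v0 d0 : Pt) (r c : ℤ) : Set Pt :=
  {q | (ip (q - v0) d0 = 3 * r + 2 ∨ ip (q - v0) d0 = 3 * r + 3) ∧ c ≤ cross d0 (q - v0)}

/-- invariant of the escape path. -/
structure Esc (Ω : Set Pt) (v0 d0 : Pt) (r c : ℤ) (s : List Bool) : Prop where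
  saw : Saw (Ω ∪ hrow v0 d0 r c) v0 d0 s
  tip : tip v0 d0 s ∈ hrow v0 d0 r c
  left : ∀ i, i ≤ s.length → vx v0 d0 s i ∈ hrow v0 d0 r c →
    cross d0 (vx v0 d0 s i - v0) < cross d0 (HexObs.tip v0 d0 s - v0) ∧
    ip (vx v0 d0 s i - v0) (rotL d0) < ip (HexObs.tip v0 d0 s - v0) (rotL d0)

lemma v0_not_hrow {v0 d0 : Pt} {r c : ℤ} (hr : 0 ≤ r) : v0 ∉ hrow v0 d0 r c := by
  rintro ⟨h, _⟩
  rw [sub_self] at h
  simp [ip] at h
  omega

lemma esc_step {Ω : Set Pt} {v0 d0 : Pt} {r c : ℤ} {s : List Bool} (hs : Esc Ω v0 d0 r c s) {b : Bool} {e : Pt} (he : turn b (dx d0 s s.length) = e)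
    (hlev : ip (tip v0 d0 s - v0) d0 + ip e d0 = 3 * r + 2 ∨ ip (tip v0 d0 s - v0) d0 + ip e d0 = 3 * r + 3)
    (hc : cross d0 e = 1) (hL : 0 < ip e (rotL d0)) : Esc Ω v0 d0 r c (s ++ [b]) := by
  have hl : (s ++ [b]).length = s.length + 1 := by simp
  have htip : tip v0 d0 (s ++ [b]) - v0 = (tip v0 d0 s - v0) + e := by
    rw [tip_append_one, he]
    abel
  refine ⟨saw_append_one.2 ⟨hs.saw, Or.inr hs.tip, ?_⟩, ?_, ?_⟩
  · intro i hi heq
    have h1 := hs.left i hi (heq ▸ hs.tip)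
    rw [heq] at h1
    exact lt_irrefl _ h1.1
  · refine ⟨?_, ?_⟩
    · rw [htip, ip_add_left]
      exact hlev
    · rw [htip, cross_add_right, hc]
      have := hs.tip.2
      linarith
  · intro i hi hm
    rw [hl] at hi
    rw [htip, cross_add_right, ip_add_left, hc]
    rcases Nat.lt_or_ge s.length i with h | h
    · have hii : i = s.length + 1 := by omega
      have e1 : vx v0 d0 (s ++ [b]) i = tip v0 d0 s := by
        rw [hii, vx_append le_rfl]
        rfl
      rw [e1]
      constructor <;> linarith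
    · rw [vx_append (by omega)] at hm ⊢
      have := hs.left i h hm
      constructor <;> linarith

lemma esc_tab : ∀ d ∈ dirs, ip (rotL d) d = 1 ∧ ip (rotL (rotL d)) d = -1 ∧ cross d (rotL d) = 1 ∧
    cross d (rotL (rotL d)) = 1 ∧ ip (rotL d) (rotL d) = 2 ∧ ip (rotL (rotL d)) (rotL d) = 1 ∧
    turn true d = rotL d ∧ turn true (rotL d) = rotL (rotL d) ∧ turn false (rotL (rotL d)) = rotL d ∧
    turn false (-d) = rotL (rotL d) ∧ ip d d = 2 ∧ ip (-d) d = -2 ∧ cross d d = 0 ∧ cross d (-d) = 0 := by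
  decide

lemma wind_one (s : List Bool) (b : Bool) : wind (s ++ [b]) = wind s + sgn b := by
  rw [wind_append]
  simp [wind]

/-- going on along the wall: n zigzags. -/
lemma esc_zig {Ω : Set Pt} {v0 d0 : Pt} (h0 : d0 ∈ dirs) {r c : ℤ} {s : List Bool} (hs : Esc Ω v0 d0 r c s)
    (hdx : dx d0 s s.length = rotL d0) (hlev : ip (tip v0 d0 s - v0) d0 = 3 * r + 3) (n : ℕ) :
    ∃ s', Esc Ω v0 d0 r c s' ∧ dx d0 s' s'.length = rotL d0 ∧ ip (tip v0 d0 s' - v0) d0 = 3 * r + 3 ∧
      wind s' = wind s ∧ ip (tip v0 d0 s - v0) (rotL d0) + 3 * n ≤ ip (tip v0 d0 s' - v0) (rotL d0) := by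
  obtain ⟨t1, t2, t3, t4, t5, t6, t7, t8, t9, t10, t11, t12, t13, t14⟩ := esc_tab d0 h0
  induction n with
  | zero => exact ⟨s, hs, hdx, hlev, rfl, by simp⟩
  | succ n ih =>
    obtain ⟨s', a1, a2, a3, a4, a5⟩ := ih
    have b1 : turn true (dx d0 s' s'.length) = rotL (rotL d0) := by rw [a2, t8]
    have c1 := esc_step a1 b1 (Or.inl (by rw [a3, t2]; ring)) t4 (by rw [t6]; norm_num)
    have b2 : dx d0 (s' ++ [true]) (s' ++ [true]).length = rotL (rotL d0) := by
      rw [dx_append_one, b1]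
    have b3 : tip v0 d0 (s' ++ [true]) - v0 = (tip v0 d0 s' - v0) + rotL (rotL d0) := by
      rw [tip_append_one, b1]
      abel
    have b4 : turn false (dx d0 (s' ++ [true]) (s' ++ [true]).length) = rotL d0 := by rw [b2, t9]
    have b5 : tip v0 d0 (s' ++ [true] ++ [false]) - v0 = (tip v0 d0 s' - v0) + rotL (rotL d0) + rotL d0 := by
      rw [tip_append_one, b4, ← b3]
      abel
    have c2 := esc_step c1 b4 (Or.inr (by rw [b3, ip_add_left, a3, t2, t1]; ring)) t3 (by rw [t5]; norm_num)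
    refine ⟨s' ++ [true] ++ [false], c2, ?_, ?_, ?_, ?_⟩
    · rw [dx_append_one, b4]
    · rw [b5, ip_add_left, ip_add_left, a3, t2, t1]
      ring
    · rw [wind_one, wind_one, a4]
      simp [sgn]
    · rw [b5, ip_add_left, ip_add_left, t6, t5]
      push_cast
      linarith

/-- the winding of a walk that can be continued along the wall. -/
lemma esc_wind {Ω : Set Pt} {v0 d0 : Pt} (h0 : d0 ∈ dirs) {r c M : ℤ} (hr : 0 ≤ r)
    (hpos : ∀ v ∈ Ω, 0 < ip (v - v0) d0)
    (hM : ∀ v ∈ Ω, ip (v - v0) (rotL d0) < M) {s : List Bool} (hs : Esc Ω v0 d0 r c s)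
    (hdx : dx d0 s s.length = rotL d0) (hlev : ip (tip v0 d0 s - v0) d0 = 3 * r + 3) : wind s = 1 := by
  obtain ⟨n, hn⟩ : ∃ n : ℕ, M ≤ ip (tip v0 d0 s - v0) (rotL d0) + 3 * n := by
    refine ⟨(M - ip (tip v0 d0 s - v0) (rotL d0)).toNat, ?_⟩
    have := Int.self_le_toNat (M - ip (tip v0 d0 s - v0) (rotL d0))
    linarith
  obtain ⟨s', a1, a2, a3, a4, a5⟩ := esc_zig h0 hs hdx hlev n
  rw [← a4]
  have hhalf : ∀ i, 1 ≤ i → i ≤ s'.length → 0 < ip (vx v0 d0 s' i - v0) d0 := by
    intro i h1 h2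
    rcases a1.saw.mem i h1 h2 with h | h
    · exact hpos _ h
    · rcases h.1 with h3 | h3 <;> omega
  have hexit : ∀ i, 1 ≤ i → i ≤ s'.length → 0 < ip (tip v0 d0 s' - vx v0 d0 s' i) (dx d0 s' s'.length) := by
    intro i h1 h2
    rw [a2]
    have e : tip v0 d0 s' - vx v0 d0 s' i = (tip v0 d0 s' - v0) - (vx v0 d0 s' i - v0) := by abel
    rw [e, ip_sub_left (tip v0 d0 s' - v0)]
    rcases a1.saw.mem i h1 h2 with h | h
    · have := hM _ h
      linarith
    · have := (a1.left i h2 h).2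
      linarith
  obtain ⟨⟨d1, d2, d3, d4, d5⟩, ⟨d6, d7, d8, d9⟩, _⟩ := dirs_distinct d0 h0
  rcases wind_exit h0 a1.saw.inj hhalf hexit with ⟨h, hw⟩ | ⟨h, hw⟩ | ⟨h, hw⟩ | ⟨h, hw⟩ | ⟨h, hw⟩ | ⟨h, hw⟩
  · exact absurd (a2.symm.trans h) d1
  · exact hw
  · exact absurd (a2.symm.trans h).symm d6
  · exact absurd (a2.symm.trans h).symm d7
  · exact absurd (a2.symm.trans h).symm d8
  · exact absurd (a2.symm.trans h).symm d9

/-- Winding of the exits through a wall attached to the left infinity: the walk stops on a half row which is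
not in the domain. From below 0, from the end of the wall 1 or 2, from above 3. -/
theorem wall_wind {Ω : Set Pt} {v0 d0 : Pt} (h0 : d0 ∈ dirs) {r c M : ℤ} (hr : 0 ≤ r)
    (hd : Disjoint Ω (hrow v0 d0 r c)) (hpos : ∀ v ∈ Ω, 0 < ip (v - v0) d0)
    (hM : ∀ v ∈ Ω, ip (v - v0) (rotL d0) < M) {t : List Bool} (ht : Saw Ω v0 d0 t)
    (htip : tip v0 d0 t ∈ hrow v0 d0 r c) :
    (dx d0 t t.length = d0 ∧ wind t = 0 ∧ ip (tip v0 d0 t - v0) d0 = 3 * r + 2) ∨
    (dx d0 t t.length = rotL d0 ∧ wind t = 1 ∧ ip (tip v0 d0 t - v0) d0 = 3 * r + 3) ∨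
    (dx d0 t t.length = rotL (rotL d0) ∧ wind t = 2 ∧ ip (tip v0 d0 t - v0) d0 = 3 * r + 2) ∨
    (dx d0 t t.length = -d0 ∧ wind t = 3 ∧ ip (tip v0 d0 t - v0) d0 = 3 * r + 3) := by
  obtain ⟨t1, t2, t3, t4, t5, t6, t7, t8, t9, t10, t11, t12, t13, t14⟩ := esc_tab d0 h0
  have hnot : ∀ i, i ≤ t.length → vx v0 d0 t i ∉ hrow v0 d0 r c := by
    intro i hi
    rcases Nat.eq_zero_or_pos i with h | h
    · rw [h]
      exact v0_not_hrow hr
    · exact fun h2 => Set.disjoint_left.1 hd (ht.mem i h hi) h2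
  have hE : Esc Ω v0 d0 r c t :=
    ⟨ht.mono Set.subset_union_left, htip, fun i hi h => absurd h (hnot i hi)⟩
  have hde := dx_mem h0 t t.length
  have e0 : tip v0 d0 t - v0 = (vx v0 d0 t t.length - v0) + dx d0 t t.length := by
    rw [tip_eq]
    abel
  have lev1 := hex_level h0 (vx_hex v0 d0 t t.length)
  have hprev := hnot t.length le_rfl
  obtain ⟨q1, q2⟩ := htip
  have q1' := q1
  have q2' := q2
  rw [e0, ip_add_left] at q1'
  rw [e0, cross_add_right] at q2'
  have hprev' : ¬ ((ip (vx v0 d0 t t.length - v0) d0 = 3 * r + 2 ∨ ip (vx v0 d0 t t.length - v0) d0 = 3 * r + 3) ∧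
      c ≤ cross d0 (vx v0 d0 t t.length - v0)) := hprev
  rcases dir_tab d0 h0 _ hde with ⟨he, c1, c2⟩ | ⟨he, c1, c2⟩ | ⟨he, c1, c2⟩ | ⟨he, c1, c2⟩ | ⟨he, c1, c2⟩ |
    ⟨he, c1, c2⟩
  · -- from below
    left
    have hlv : ip (tip v0 d0 t - v0) d0 = 3 * r + 2 := by
      rw [e0, ip_add_left, c2]
      rw [c2] at q1'
      omega
    refine ⟨he, ?_, hlv⟩
    have b1 : turn true (dx d0 t t.length) = rotL d0 := by rw [he, t7]
    have k1 := esc_step hE b1 (Or.inr (by rw [hlv, t1]; ring)) t3 (by rw [t5]; norm_num)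
    have k2 := esc_wind h0 hr hpos hM k1 (by rw [dx_append_one, b1])
      (by
        have : tip v0 d0 (t ++ [true]) - v0 = (tip v0 d0 t - v0) + rotL d0 := by
          rw [tip_append_one, b1]
          abel
        rw [this, ip_add_left, hlv, t1]
        ring)
    rw [wind_one] at k2
    simp [sgn] at k2
    exact k2
  · -- end of the wall, first kind
    right
    left
    have hlv : ip (tip v0 d0 t - v0) d0 = 3 * r + 3 := by
      rw [e0, ip_add_left, c2]
      rw [c2] at q1'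
      omega
    exact ⟨he, esc_wind h0 hr hpos hM hE he hlv, hlv⟩
  · exfalso
    rw [c2] at q1'
    rw [c1] at q2'
    apply hprev'
    constructor
    · omega
    · linarith
  · -- end of the wall, second kind
    right
    right
    left
    have hlv : ip (tip v0 d0 t - v0) d0 = 3 * r + 2 := by
      rw [e0, ip_add_left, c2]
      rw [c2] at q1'
      omega
    refine ⟨he, ?_, hlv⟩
    have b1 : turn false (dx d0 t t.length) = rotL d0 := by rw [he, t9]
    have k1 := esc_step hE b1 (Or.inr (by rw [hlv, t1]; ring)) t3 (by rw [t5]; norm_num)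
    have k2 := esc_wind h0 hr hpos hM k1 (by rw [dx_append_one, b1])
      (by
        have : tip v0 d0 (t ++ [false]) - v0 = (tip v0 d0 t - v0) + rotL d0 := by
          rw [tip_append_one, b1]
          abel
        rw [this, ip_add_left, hlv, t1]
        ring)
    rw [wind_one] at k2
    simp [sgn] at k2
    linarith
  · exfalso
    rw [c2] at q1'
    rw [c1] at q2'
    apply hprev'
    constructor
    · omega
    · linarith
  · -- from above
    right
    right
    right
    have hlv : ip (tip v0 d0 t - v0) d0 = 3 * r + 3 := by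
      rw [e0, ip_add_left, c2]
      rw [c2] at q1'
      omega
    refine ⟨he, ?_, hlv⟩
    have b1 : turn false (dx d0 t t.length) = rotL (rotL d0) := by rw [he, t10]
    have k1 := esc_step hE b1 (Or.inl (by rw [hlv, t2]; ring)) t4 (by rw [t6]; norm_num)
    have b2 : dx d0 (t ++ [false]) (t ++ [false]).length = rotL (rotL d0) := by rw [dx_append_one, b1]
    have b3 : tip v0 d0 (t ++ [false]) - v0 = (tip v0 d0 t - v0) + rotL (rotL d0) := by
      rw [tip_append_one, b1]
      abel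
    have b4 : turn false (dx d0 (t ++ [false]) (t ++ [false]).length) = rotL d0 := by rw [b2, t9]
    have k3 := esc_step k1 b4 (Or.inr (by rw [b3, ip_add_left, hlv, t2, t1]; ring)) t3 (by rw [t5]; norm_num)
    have k2 := esc_wind h0 hr hpos hM k3 (by rw [dx_append_one, b4])
      (by
        have : tip v0 d0 (t ++ [false] ++ [false]) - v0 = (tip v0 d0 (t ++ [false]) - v0) + rotL d0 := by
          rw [tip_append_one, b4]
          abel
        rw [this, b3, ip_add_left, ip_add_left, hlv, t2, t1]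
        ring)
    rw [wind_one, wind_one] at k2
    simp [sgn] at k2
    linarith

end HexObs
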