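import Mathlib

/-!
PHW, section S7 (deep returns): the bootstrap lemma.
-/

set_option autoImplicit false

namespace HexObs

open Filter Topology

/-- there is a threshold beyond which C (1 + log z) ^ m is at most z / 2 -/
theorem boot_threshold (C : ℝ) (m : ℕ) : ∃ z1 : ℝ, 1 ≤ z1 ∧ ∀ z, z1 ≤ z → C * (1 + Real.log z) ^ m ≤ z / 2 := by
  have h1 : (fun z : ℝ => (1 + Real.log z) ^ m) =o[atTop] fun z : ℝ => z := by
    have h2 : (fun z : ℝ => 1 + Real.log z) =O[atTop] Real.log := by
      refine Asymptotics.IsBigO.add ?_ (Asymptotics.isBigO_refl _ _)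
      exact (Real.isLittleO_const_log_atTop).isBigO
    refine (h2.pow m).trans_isLittleO ?_
    exact Real.isLittleO_pow_log_id_atTop
  have h3 : (fun z : ℝ => C * (1 + Real.log z) ^ m) =o[atTop] fun z : ℝ => z := h1.const_mul_left C
  have h4 := h3.bound (c := 1 / 2) (by norm_num)
  obtain ⟨z0, hz0⟩ := eventually_atTop.1 h4
  refine ⟨max z0 1, le_max_right _ _, fun z hz => ?_⟩
  have h5 := hz0 z ((le_max_left _ _).trans hz)
  have h6 : (1 : ℝ) ≤ z := (le_max_right _ _).trans hz
  rw [Real.norm_eq_abs, Real.norm_eq_abs, abs_of_nonneg (by linarith : (0 : ℝ) ≤ z)] at h5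
  have := le_abs_self (C * (1 + Real.log z) ^ m)
  linarith

/-- bootstrap: X R ≤ C (1 + log X (4 R)) ^ m and polynomial growth imply a bound that depends only on C and m -/
theorem boot (C : ℝ) (hC : 0 ≤ C) (m : ℕ) : ∃ z1 : ℝ, 1 ≤ z1 ∧ ∀ (X : ℕ → ℝ) (A B : ℝ), (∀ R, 1 ≤ X R) →
    (∀ R, Real.log (X R) ≤ A + B * Real.log (R + 1)) → (∀ R, X R ≤ C * (1 + Real.log (X (4 * R))) ^ m) →
    ∀ R, X R ≤ z1 := by
  obtain ⟨z1, hz1, hz⟩ := boot_threshold C m
  refine ⟨z1, hz1, fun X A B hX1 hXg hX R => ?_⟩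
  have mono : ∀ a b : ℝ, 1 ≤ a → a ≤ b → C * (1 + Real.log a) ^ m ≤ C * (1 + Real.log b) ^ m := by
    intro a b ha hab
    refine mul_le_mul_of_nonneg_left (pow_le_pow_left₀ ?_ ?_ m) hC
    · have := Real.log_nonneg ha
      linarith
    · have := Real.log_le_log (by linarith) hab
      linarith
  -- one step
  have step : ∀ R' : ℕ, X R' ≤ max z1 (X (4 * R') / 2) := by
    intro R'
    rcases le_total z1 (X (4 * R')) with h | h
    · exact ((hX R').trans (hz _ h)).trans (le_max_right _ _)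
    · refine le_trans ((hX R').trans ?_) (le_max_left _ _)
      have h1 := mono _ _ (hX1 (4 * R')) h
      have h2 := hz z1 le_rfl
      linarith
  have iter : ∀ n : ℕ, X R ≤ max z1 (X (4 ^ n * R) / 2 ^ n) := by
    intro n
    induction n with
    | zero => simp
    | succ n ih =>
      refine ih.trans (max_le (le_max_left _ _) ?_)
      have h1 := step (4 ^ n * R)
      rcases le_max_iff.1 h1 with h2 | h2
      · refine le_trans ?_ (le_max_left _ _)
        have h3 : X (4 ^ n * R) / 2 ^ n ≤ X (4 ^ n * R) :=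
          div_le_self (by linarith [hX1 (4 ^ n * R)]) (one_le_pow₀ (by norm_num))
        linarith
      · refine le_trans ?_ (le_max_right _ _)
        have e : 4 ^ (n + 1) * R = 4 * (4 ^ n * R) := by ring
        rw [e, pow_succ, div_le_div_iff₀ (by positivity) (by positivity)]
        have h3 : X (4 ^ n * R) * 2 ≤ X (4 * (4 ^ n * R)) := by linarith
        have h4 : (0 : ℝ) < 2 ^ n := by positivity
        nlinarith
  -- polynomial bound in n
  have poly : ∀ n : ℕ, X (4 ^ n * R) ≤ C * (1 + |A| + |B| * (Real.log (R + 1) + (n + 1) * Real.log 4)) ^ m := by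
    intro n
    refine (hX _).trans (mul_le_mul_of_nonneg_left (pow_le_pow_left₀ ?_ ?_ m) hC)
    · have := Real.log_nonneg (hX1 (4 * (4 ^ n * R)))
      linarith
    · have h1 := hXg (4 * (4 ^ n * R))
      have h2 : Real.log (((4 * (4 ^ n * R) : ℕ) : ℝ) + 1) ≤ Real.log (R + 1) + (n + 1) * Real.log 4 := by
        have h3 : (((4 * (4 ^ n * R) : ℕ) : ℝ) + 1) ≤ 4 ^ (n + 1) * ((R : ℝ) + 1) := by
          push_cast
          have : (1 : ℝ) ≤ 4 ^ (n + 1) := one_le_pow₀ (by norm_num)
          have e : (4 : ℝ) * (4 ^ n * R) = 4 ^ (n + 1) * R := by ring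
          rw [e]
          linarith
        have h4 := Real.log_le_log (by positivity) h3
        rw [Real.log_mul (by positivity) (by positivity), Real.log_pow] at h4
        push_cast at h4 ⊢
        linarith
      have h5 : (0 : ℝ) ≤ Real.log (((4 * (4 ^ n * R) : ℕ) : ℝ) + 1) := Real.log_nonneg (by
        have : (0 : ℝ) ≤ ((4 * (4 ^ n * R) : ℕ) : ℝ) := Nat.cast_nonneg _
        linarith)
      have h6 : B * Real.log (((4 * (4 ^ n * R) : ℕ) : ℝ) + 1) ≤
          |B| * (Real.log (R + 1) + (n + 1) * Real.log 4) :=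
        (mul_le_mul_of_nonneg_right (le_abs_self B) h5).trans (mul_le_mul_of_nonneg_left h2 (abs_nonneg B))
      have h7 := le_abs_self A
      linarith
  -- the second term tends to zero
  have lim : Tendsto (fun n : ℕ => max z1 (C * (1 + |A| + |B| * (Real.log (R + 1) + (n + 1) * Real.log 4)) ^ m / 2 ^ n))
      atTop (𝓝 (max z1 0)) := by
    refine tendsto_const_nhds.max ?_
    set a : ℝ := 1 + |A| + |B| * (Real.log (R + 1) + Real.log 4) with ha
    set b : ℝ := |B| * Real.log 4 with hb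
    have e : ∀ n : ℕ, C * (1 + |A| + |B| * (Real.log (R + 1) + (n + 1) * Real.log 4)) ^ m / 2 ^ n =
        C * (((a + b * n) ^ m) * (1 / 2) ^ n) := by
      intro n
      rw [ha, hb, one_div, inv_pow]
      ring
    simp_rw [e]
    have h0 : (0 : ℝ) ≤ a := by
      have h1 : (0 : ℝ) ≤ Real.log (R + 1) := Real.log_nonneg (by
        have : (0 : ℝ) ≤ (R : ℝ) := Nat.cast_nonneg _
        linarith)
      have h2 : (0 : ℝ) ≤ Real.log 4 := Real.log_nonneg (by norm_num)
      positivity
    have h1 : (0 : ℝ) ≤ b := by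
      have h2 : (0 : ℝ) ≤ Real.log 4 := Real.log_nonneg (by norm_num)
      positivity
    have h2 : Tendsto (fun n : ℕ => (n : ℝ) ^ m * (1 / 2 : ℝ) ^ n) atTop (𝓝 0) :=
      tendsto_pow_const_mul_const_pow_of_abs_lt_one m (by rw [abs_of_pos] <;> norm_num)
    have h3 : Tendsto (fun n : ℕ => C * ((a + b) ^ m * ((n : ℝ) ^ m * (1 / 2 : ℝ) ^ n))) atTop (𝓝 0) := by
      have := (h2.const_mul ((a + b) ^ m)).const_mul C
      simpa using this
    refine squeeze_zero' (Eventually.of_forall fun n => by positivity) ?_ h3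
    filter_upwards [eventually_ge_atTop 1] with n hn
    have h4 : a + b * n ≤ (a + b) * n := by
      have : (1 : ℝ) ≤ n := by exact_mod_cast hn
      nlinarith
    have h5 : (a + b * n) ^ m ≤ (a + b) ^ m * (n : ℝ) ^ m := by
      rw [← mul_pow]
      exact pow_le_pow_left₀ (by positivity) h4 m
    refine mul_le_mul_of_nonneg_left ?_ hC
    calc (a + b * n) ^ m * (1 / 2 : ℝ) ^ n ≤ ((a + b) ^ m * (n : ℝ) ^ m) * (1 / 2 : ℝ) ^ n :=
          mul_le_mul_of_nonneg_right h5 (by positivity)
      _ = (a + b) ^ m * ((n : ℝ) ^ m * (1 / 2 : ℝ) ^ n) := by ring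
  have h8 : X R ≤ max z1 0 := by
    refine ge_of_tendsto' lim fun n => (iter n).trans (max_le_max le_rfl ?_)
    exact div_le_div_of_nonneg_right (poly n) (by positivity)
  rwa [max_eq_left (by linarith)] at h8

end HexObs
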