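import Pool.Agent.PHW.StateF

/-!
PHW section S6 (fold lemma): the core estimate.
-/

set_option autoImplicit false

namespace HexObs

open Complex Finset ENNReal

namespace Fld

/-- height of a bridge -/
noncomputable def hg (t : List Bool) : ℕ := (lev t t.length / 3).toNat

lemma hg_eq {c : ℕ} {t : List Bool} (h : t ∈ Brd c) : hg t = c := by
  unfold hg
  rw [(mem_Brd.1 h).2.2.2]
  omega

/-- block of the height of the right walk -/
noncomputable def nn (p : List Bool × List Bool) : ℕ := Nat.log 2 (hg p.2)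

/-- the offset -/
noncomputable def oo' (p : List Bool × List Bool) : ℕ := (latE p.2 + 2 - latE p.1).natAbs

/-- scale of the offset, relative to the block -/
noncomputable def dd (p : List Bool × List Bool) : ℕ := Nat.log 2 (oo' p / 2 ^ nn p) + 1

lemma Bl_log {k h : ℕ} (hk : Bl k h) : Nat.log 2 h = k := by
  obtain ⟨h1, h2 | h2⟩ := hk
  · exact (Nat.log_eq_iff (Or.inr ⟨by norm_num, by have := Nat.two_pow_pos k; omega⟩)).2 ⟨h2, h1⟩
  · subst h2
    have : h = 0 ∨ h = 1 := by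
      rw [zero_add, pow_one] at h1
      omega
    rcases this with rfl | rfl <;> simp

lemma Bl_of_log (h : ℕ) : Bl (Nat.log 2 h) h := by
  refine ⟨Nat.lt_pow_succ_log_self (by norm_num) h, ?_⟩
  rcases Nat.eq_zero_or_pos h with h0 | h0
  · right
    rw [h0]
    simp
  · left
    exact Nat.pow_log_le_self 2 h0.ne'

lemma oo_le (p : List Bool × List Bool) : oo' p ≤ 2 ^ (nn p + dd p) := by
  have h1 : oo' p / 2 ^ nn p < 2 ^ dd p := Nat.lt_pow_succ_log_self (by norm_num) _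
  have h2 := Nat.lt_mul_div_succ (oo' p) (Nat.two_pow_pos (nn p))
  rw [pow_add]
  calc oo' p ≤ 2 ^ nn p * (oo' p / 2 ^ nn p + 1) := h2.le
    _ ≤ 2 ^ nn p * 2 ^ dd p := Nat.mul_le_mul_left _ h1

lemma dd_le (p : List Bool × List Bool) : (2 : ℝ) ^ dd p ≤ 2 * (1 + (oo' p : ℝ) / 2 ^ nn p) := by
  unfold dd
  rw [pow_succ]
  have h0 : (0 : ℝ) ≤ (oo' p : ℝ) / 2 ^ nn p := by positivity
  rcases Nat.eq_zero_or_pos (oo' p / 2 ^ nn p) with h | h
  · rw [h]
    simp only [Nat.log_zero_right, pow_zero, one_mul]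
    linarith
  · have h1 := Nat.pow_log_le_self 2 h.ne'
    have h2 : ((2 : ℝ) ^ Nat.log 2 (oo' p / 2 ^ nn p)) ≤ ((oo' p / 2 ^ nn p : ℕ) : ℝ) := by exact_mod_cast h1
    have h3 : ((oo' p / 2 ^ nn p : ℕ) : ℝ) ≤ (oo' p : ℝ) / 2 ^ nn p := by
      have := Nat.cast_div_le (α := ℝ) (m := oo' p) (n := 2 ^ nn p)
      push_cast at this
      exact this
    linarith

lemma SI_block {a v l : ℕ} {p : List Bool × List Bool} (h : p ∈ SI a v l) : a ≤ nn p ∧ p ∈ St a (nn p) := by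
  obtain ⟨y, c, hy, -, -, hs, ht, hv⟩ := h
  have e : hg p.2 = c := hg_eq ht.1
  have h1 : nn p = Nat.log 2 c := by
    unfold nn
    rw [e]
  have h2 : a ≤ nn p := by
    rw [h1, ← Bl_log hy]
    exact Nat.log_mono_right ht.2.1
  refine ⟨h2, y, c, hy, ?_, hs, ht, hv⟩
  rw [h1]
  exact Bl_of_log c

/-- the fresh legs, for one state -/
theorem gf_fresh {A : ℕ} {ε C : ℝ} (hε0 : 0 < ε) (hε1 : ε < 1) (hC : 0 < C) (hK : KillL A ε C) {P : List Bool}
    {m a b v l v' l' : ℕ} (hm : m ≤ P.length) {p : List Bool × List Bool} (hp : p ∈ SI a v l) :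
    gf {u | ∃ x, Bl b x ∧ v' ≤ x ∧ x < v' + l' ∧ hg p.2 ≤ x ∧ u ∈ Brd (x - hg p.2) ∧ Bes P m p.1 p.2 u} ≤
      ENNReal.ofReal (C * (1 - ε) ^ nfl A ((P.take m).map not) a b * ((1 - ε) ^ 2)⁻¹ * UU l' *
        ((1 - ε) ^ (nn p - a + dd p))⁻¹) := by
  classical
  have hblock := SI_block hp
  obtain ⟨y, c, hy, hv1, hv2, hs, ht, hv⟩ := hp
  have e : hg p.2 = c := hg_eq ht.1
  have hn1 : nn p = Nat.log 2 c := by
    unfold nn
    rw [e]
  have hyc := ht.2.1
  rw [e]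
  set i := nn p + 1 + dd p with hi
  have hc2 : c < 2 ^ (nn p + 1) := by
    rw [hn1]
    exact Nat.lt_pow_succ_log_self (by norm_num) c
  have hci : c ≤ 2 ^ i := hc2.le.trans (Nat.pow_le_pow_right (by norm_num) (by omega))
  have hoi : (latE p.2 + 2 - latE p.1).natAbs ≤ 2 ^ i :=
    (oo_le p).trans (Nat.pow_le_pow_right (by norm_num) (by omega))
  have hsub : {u | ∃ x, Bl b x ∧ v' ≤ x ∧ x < v' + l' ∧ c ≤ x ∧ u ∈ Brd (x - c) ∧ Bes P m p.1 p.2 u} ⊆
      ⋃ x ∈ ((Finset.Ico v' (v' + l')).filter (fun x => c ≤ x)), {u | Bl b x ∧ u ∈ Brd (x - c) ∧ Bes P m p.1 p.2 u} := by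
    rintro u ⟨x, h1, h2, h3, h4, h5, h6⟩
    rw [Set.mem_iUnion₂]
    exact ⟨x, Finset.mem_filter.2 ⟨Finset.mem_Ico.2 ⟨h2, h3⟩, h4⟩, h1, h5, h6⟩
  refine (gf_mono hsub).trans ((JumpVaux.gf_biUnion_le _ _).trans ?_)
  have hone : ∀ x ∈ (Finset.Ico v' (v' + l')).filter (fun x => c ≤ x),
      gf {u | Bl b x ∧ u ∈ Brd (x - c) ∧ Bes P m p.1 p.2 u} ≤
        ENNReal.ofReal (C * (1 - ε) ^ nfl A ((P.take m).map not) i (b - 1) * uu (x - c)) := by
    intro x hx
    rw [Finset.mem_filter] at hx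
    by_cases hb : Bl b x
    · refine le_trans (gf_mono ?_) (kill_one (n := x - c) (B := b - 1) hK hm hs ht.1 (by omega) hoi ?_)
      · rintro u ⟨-, h2, h3⟩
        exact ⟨h2, h3⟩
      · intro k hk1 hk2
        have h1 : y < 2 ^ (a + 1) := hy.1
        have h2 : 2 ^ (a + 1) * 2 ≤ 2 ^ k := by
          rw [← pow_succ]
          exact Nat.pow_le_pow_right (by norm_num) (by omega)
        have h3 : 2 ^ b ≤ x := by
          rcases hb.2 with h | h
          · exact h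
          · omega
        have h4 : 2 * 2 ^ k ≤ 2 ^ b := by
          rw [← pow_succ']
          exact Nat.pow_le_pow_right (by norm_num) (by omega)
        omega
    · refine le_trans (le_of_eq ?_) zero_le
      have : {u | Bl b x ∧ u ∈ Brd (x - c) ∧ Bes P m p.1 p.2 u} = ∅ := by
        ext u
        constructor
        · rintro ⟨h1, -⟩
          exact absurd h1 hb
        · exact fun h => absurd h (Set.notMem_empty u)
      rw [this, JumpVaux.gf_empty]
  refine (Finset.sum_le_sum hone).trans ?_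
  rw [← ENNReal.ofReal_sum_of_nonneg (fun x _ => by
    have := uu_pos (x - c)
    have : 0 < 1 - ε := by linarith
    positivity)]
  apply ENNReal.ofReal_le_ofReal
  rw [← Finset.mul_sum]
  have h1 := sum_uu_interval c v' l'
  have h2 := nfl_le A ((P.take m).map not) a b i (b - 1)
  have hq0 : 0 < 1 - ε := by linarith
  have hq1 : 1 - ε ≤ 1 := by linarith
  have h3 : nfl A ((P.take m).map not) a b ≤ nfl A ((P.take m).map not) i (b - 1) + (nn p - a + dd p + 2) := by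
    have := hblock.1
    omega
  have h4 : (1 - ε) ^ nfl A ((P.take m).map not) i (b - 1) ≤
      (1 - ε) ^ nfl A ((P.take m).map not) a b * ((1 - ε) ^ 2)⁻¹ * ((1 - ε) ^ (nn p - a + dd p))⁻¹ := by
    have h5 : (1 - ε) ^ (nfl A ((P.take m).map not) i (b - 1) + (nn p - a + dd p + 2)) ≤
        (1 - ε) ^ nfl A ((P.take m).map not) a b := pow_le_pow_of_le_one hq0.le hq1 h3
    rw [pow_add, pow_add] at h5
    have h6 : 0 < (1 - ε) ^ 2 := by positivity
    have h7 : 0 < (1 - ε) ^ (nn p - a + dd p) := by positivity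
    rw [mul_assoc, ← mul_inv, ← div_eq_mul_inv, le_div_iff₀ (by positivity)]
    calc (1 - ε) ^ nfl A ((P.take m).map not) i (b - 1) * ((1 - ε) ^ 2 * (1 - ε) ^ (nn p - a + dd p))
        = (1 - ε) ^ nfl A ((P.take m).map not) i (b - 1) * ((1 - ε) ^ (nn p - a + dd p) * (1 - ε) ^ 2) := by ring
      _ ≤ _ := h5
  have hU := Num2Aux.UU_pos l'
  calc C * (1 - ε) ^ nfl A ((P.take m).map not) i (b - 1) *
      ∑ x ∈ (Finset.Ico v' (v' + l')).filter (fun x => c ≤ x), uu (x - c)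
      ≤ C * (1 - ε) ^ nfl A ((P.take m).map not) i (b - 1) * UU l' := by
        apply mul_le_mul_of_nonneg_left h1
        positivity
    _ ≤ C * ((1 - ε) ^ nfl A ((P.take m).map not) a b * ((1 - ε) ^ 2)⁻¹ * ((1 - ε) ^ (nn p - a + dd p))⁻¹) *
        UU l' := by
        apply mul_le_mul_of_nonneg_right _ hU.le
        exact mul_le_mul_of_nonneg_left h4 hC.le
    _ = _ := by ring

/-- second moment of the loss factor over the states -/
theorem tsum_loss {ε C ρ δ : ℝ} {a v l : ℕ} (hε1 : ε < 1) (hC : 0 < C) (hρ : 0 < ρ) (hδ : 0 < δ) (h5 : S5H C ρ δ)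
    (hr1 : ((1 - ε) ^ 2)⁻¹ ≤ (2 : ℝ) ^ δ) (hr2 : ((1 - ε) ^ 2)⁻¹ * ρ < 1) :
    ∑' p : {p : List Bool × List Bool // p ∈ SI a v l}, wE p.1.1 * wE p.1.2 *
      ENNReal.ofReal ((((1 - ε) ^ (nn p.1 - a + dd p.1))⁻¹) ^ 2) ≤
      ENNReal.ofReal (C * 2 ^ δ * (1 - ((1 - ε) ^ 2)⁻¹ * ρ)⁻¹) := by
  classical
  have hq0 : 0 < 1 - ε := by linarith
  set rr := ((1 - ε) ^ 2)⁻¹ with hrr
  have hrr0 : 0 < rr := by positivity
  have h1 := tsum_iUnion_le (fun p : List Bool × List Bool => wE p.1 * wE p.2 *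
      ENNReal.ofReal ((((1 - ε) ^ (nn p - a + dd p))⁻¹) ^ 2))
    (fun k : ℕ => {p : List Bool × List Bool | p ∈ St a (a + k) ∧ nn p = a + k}) (S := SI a v l) (fun p hp => by
      obtain ⟨h2, h3⟩ := SI_block hp
      have e : a + (nn p - a) = nn p := by omega
      exact ⟨nn p - a, by rw [e]; exact h3, e.symm⟩)
  refine h1.trans ?_
  have h2 : ∀ k : ℕ, ∑' p : {p : List Bool × List Bool // p ∈ {p : List Bool × List Bool |
      p ∈ St a (a + k) ∧ nn p = a + k}}, wE p.1.1 * wE p.1.2 *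
      ENNReal.ofReal ((((1 - ε) ^ (nn p.1 - a + dd p.1))⁻¹) ^ 2) ≤ ENNReal.ofReal (C * 2 ^ δ * (rr * ρ) ^ k) := by
    intro k
    have h3 : ∑' p : {p : List Bool × List Bool // p ∈ {p : List Bool × List Bool |
        p ∈ St a (a + k) ∧ nn p = a + k}}, wE p.1.1 * wE p.1.2 *
        ENNReal.ofReal ((((1 - ε) ^ (nn p.1 - a + dd p.1))⁻¹) ^ 2) ≤
        ENNReal.ofReal (2 ^ δ * rr ^ k) * Vw δ a (a + k) := by
      unfold Vw
      rw [← ENNReal.tsum_mul_left]
      have h4 : ∀ p : {p : List Bool × List Bool // p ∈ {p : List Bool × List Bool |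
          p ∈ St a (a + k) ∧ nn p = a + k}}, wE p.1.1 * wE p.1.2 *
          ENNReal.ofReal ((((1 - ε) ^ (nn p.1 - a + dd p.1))⁻¹) ^ 2) ≤
          ENNReal.ofReal (2 ^ δ * rr ^ k) * (wE p.1.1 * wE p.1.2 *
            ENNReal.ofReal ((1 + ((|latE p.1.1 - latE p.1.2 - 2| : ℤ) : ℝ) / 2 ^ (a + k)) ^ δ)) := by
        rintro ⟨p, hp1, hp2⟩
        show wE p.1 * wE p.2 * ENNReal.ofReal ((((1 - ε) ^ (nn p - a + dd p))⁻¹) ^ 2) ≤
          ENNReal.ofReal (2 ^ δ * rr ^ k) * (wE p.1 * wE p.2 *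
            ENNReal.ofReal ((1 + ((|latE p.1 - latE p.2 - 2| : ℤ) : ℝ) / 2 ^ (a + k)) ^ δ))
        have e1 : nn p - a = k := by omega
        have e2 : ((|latE p.1 - latE p.2 - 2| : ℤ) : ℝ) = (oo' p : ℝ) := by
          unfold oo'
          have h5 : |latE p.1 - latE p.2 - 2| = ((latE p.2 + 2 - latE p.1).natAbs : ℤ) := by
            rw [Int.natCast_natAbs, ← abs_neg]
            congr 1
            ring
          rw [h5]
          exact Int.cast_natCast _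
        rw [e1, e2, ← hp2]
        have h5 := dd_le p
        have h6 : (((1 - ε) ^ (k + dd p))⁻¹) ^ 2 = rr ^ k * rr ^ dd p := by
          rw [hrr, inv_pow, inv_pow, inv_pow, ← mul_inv, ← pow_mul, ← pow_mul, ← pow_mul, ← pow_add]
          congr 2
          ring
        have h7 : rr ^ dd p ≤ (2 * (1 + (oo' p : ℝ) / 2 ^ nn p)) ^ δ := by
          calc rr ^ dd p ≤ ((2 : ℝ) ^ δ) ^ dd p := pow_le_pow_left₀ hrr0.le hr1 _
            _ = ((2 : ℝ) ^ dd p) ^ δ := by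
                rw [← Real.rpow_natCast, ← Real.rpow_mul (by norm_num), mul_comm, Real.rpow_mul (by norm_num),
                  Real.rpow_natCast]
            _ ≤ _ := Real.rpow_le_rpow (by positivity) h5 hδ.le
        have h8 : (2 * (1 + (oo' p : ℝ) / 2 ^ nn p)) ^ δ = 2 ^ δ * (1 + (oo' p : ℝ) / 2 ^ nn p) ^ δ :=
          Real.mul_rpow (by norm_num) (by positivity)
        rw [h8] at h7
        have h9 : (((1 - ε) ^ (k + dd p))⁻¹) ^ 2 ≤ (2 ^ δ * rr ^ k) * (1 + (oo' p : ℝ) / 2 ^ nn p) ^ δ := by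
          rw [h6]
          calc rr ^ k * rr ^ dd p ≤ rr ^ k * (2 ^ δ * (1 + (oo' p : ℝ) / 2 ^ nn p) ^ δ) :=
                mul_le_mul_of_nonneg_left h7 (by positivity)
            _ = _ := by ring
        calc wE p.1 * wE p.2 * ENNReal.ofReal ((((1 - ε) ^ (k + dd p))⁻¹) ^ 2)
            ≤ wE p.1 * wE p.2 * ENNReal.ofReal ((2 ^ δ * rr ^ k) * (1 + (oo' p : ℝ) / 2 ^ nn p) ^ δ) := by
              gcongr
          _ = _ := by
              rw [ENNReal.ofReal_mul (by positivity)]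
              ring
      refine (ENNReal.tsum_le_tsum h4).trans ?_
      exact ENNReal.tsum_mono_subtype (fun p : List Bool × List Bool => ENNReal.ofReal (2 ^ δ * rr ^ k) *
        (wE p.1 * wE p.2 * ENNReal.ofReal ((1 + ((|latE p.1 - latE p.2 - 2| : ℤ) : ℝ) / 2 ^ (a + k)) ^ δ)))
        (fun p hp => hp.1)
    refine h3.trans ?_
    have h6 := h5 a (a + k) (by omega)
    have e3 : a + k - a = k := by omega
    rw [e3] at h6
    calc ENNReal.ofReal (2 ^ δ * rr ^ k) * Vw δ a (a + k) ≤ ENNReal.ofReal (2 ^ δ * rr ^ k) *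
          ENNReal.ofReal (C * ρ ^ k) := by gcongr
      _ = ENNReal.ofReal (2 ^ δ * rr ^ k * (C * ρ ^ k)) := by rw [← ENNReal.ofReal_mul (by positivity)]
      _ = _ := by
          congr 1
          rw [mul_pow]
          ring
  refine (ENNReal.tsum_le_tsum h2).trans (le_of_eq ?_)
  have hx0 : 0 ≤ rr * ρ := by positivity
  rw [← ENNReal.ofReal_tsum_of_nonneg (fun k => by positivity)
    ((summable_geometric_of_lt_one hx0 hr2).mul_left _), tsum_mul_left, tsum_geometric_of_lt_one hx0 hr2]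

/-- **core estimate**: exact leg in the block a (heights in [v, v + l)), fresh leg in the block b (heights in
[v', v' + l')) beside a barrier that hangs at the end of the exact leg -/
theorem core {A : ℕ} {ε C1 C2 C3 ρ δ : ℝ} (hε0 : 0 < ε) (hε1 : ε < 1) (hC1 : 0 < C1) (hK : KillL A ε C1)
    (hC2 : 0 < C2) (hρ : 0 < ρ) (hδ : 0 < δ) (h5 : S5H C2 ρ δ) (hC3 : 0 < C3) (h5T : S5T C3)
    (hr1 : ((1 - ε) ^ 2)⁻¹ ≤ (2 : ℝ) ^ δ) (hr2 : ((1 - ε) ^ 2)⁻¹ * ρ < 1) :
    ∃ C : ℝ, 0 < C ∧ ∀ (a b v l v' l' : ℕ) (P : List Bool) (m : ℕ), m ≤ P.length →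
      W2 {p | p.1 ∈ BrI a v l ∧ p.2 ∈ BrI b v' l' ∧ BesP P m p.1 p.2} ≤
        ENNReal.ofReal (C * Real.sqrt (UU l / UU (2 ^ a)) * UU l' * (1 - ε) ^ nfl A ((P.take m).map not) a b) := by
  classical
  have hq0 : 0 < 1 - ε := by linarith
  have hx1 : 0 < 1 - ((1 - ε) ^ 2)⁻¹ * ρ := by linarith
  refine ⟨C1 * ((1 - ε) ^ 2)⁻¹ * ((C3 + 2) + C2 * 2 ^ δ * (1 - ((1 - ε) ^ 2)⁻¹ * ρ)⁻¹), by positivity, ?_⟩
  intro a b v l v' l' P m hm
  have hUl := Num2Aux.UU_pos l
  have hUl' := Num2Aux.UU_pos l'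
  have hUa := Num2Aux.UU_pos (2 ^ a)
  refine (W2_dep1 (S := SI a v l) (R := fun p => {u | ∃ x, Bl b x ∧ v' ≤ x ∧ x < v' + l' ∧ hg p.2 ≤ x ∧
    u ∈ Brd (x - hg p.2) ∧ Bes P m p.1 p.2 u}) ?_).trans ?_
  · rintro ⟨s, t⟩ ⟨⟨y, hy, hv1, hv2, hs⟩, ⟨x, hx, hx1, hx2, ht⟩, ⟨y', c, n, t1, t2, hs', ht1, ht2, htt, hbes⟩⟩
    obtain rfl : y = y' := Brd_height hs hs'
    simp only at hs ht htt
    have hcn : x = c + n := by
      rw [htt] at ht
      exact Brd_height ht (Brd_append ht1.1 ht2)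
    have e : hg t1 = c := hg_eq ht1.1
    refine ⟨(s, t1), ⟨y, c, hy, hv1, hv2, hs, ht1, V2_of_Bes hbes⟩, t2, ⟨x, hx, hx1, hx2, ?_, ?_, hbes⟩, ?_⟩
    · show hg t1 ≤ x
      omega
    · show t2 ∈ Brd (x - hg t1)
      have e2 : x - hg t1 = n := by omega
      rw [e2]
      exact ht2
    · show (s, t) = (s, t1 ++ t2)
      rw [htt]
  · set K : ℝ := C1 * (1 - ε) ^ nfl A ((P.take m).map not) a b * ((1 - ε) ^ 2)⁻¹ * UU l' with hKdef
    have hK0 : 0 < K := by positivity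
    set lam : ℝ := Real.sqrt (UU (2 ^ a) / UU l) with hlam
    have hlam0 : 0 < lam := Real.sqrt_pos.2 (by positivity)
    have hlam2 : lam * (UU l / UU (2 ^ a)) = Real.sqrt (UU l / UU (2 ^ a)) := by
      have h1 : UU l / UU (2 ^ a) = Real.sqrt (UU l / UU (2 ^ a)) * Real.sqrt (UU l / UU (2 ^ a)) :=
        (Real.mul_self_sqrt (by positivity)).symm
      have h2 : lam * Real.sqrt (UU l / UU (2 ^ a)) = 1 := by
        rw [hlam, ← Real.sqrt_mul (by positivity)]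
        have : UU (2 ^ a) / UU l * (UU l / UU (2 ^ a)) = 1 := by
          field_simp
        rw [this, Real.sqrt_one]
      calc lam * (UU l / UU (2 ^ a)) = lam * Real.sqrt (UU l / UU (2 ^ a)) * Real.sqrt (UU l / UU (2 ^ a)) := by
            rw [mul_assoc, ← h1]
        _ = _ := by rw [h2, one_mul]
    have hlam3 : lam⁻¹ = Real.sqrt (UU l / UU (2 ^ a)) := by
      rw [hlam, ← Real.sqrt_inv]
      congr 1
      rw [inv_div]
    have h1 : ∀ p : {p : List Bool × List Bool // p ∈ SI a v l}, wE p.1.1 * wE p.1.2 *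
        gf {u | ∃ x, Bl b x ∧ v' ≤ x ∧ x < v' + l' ∧ hg p.1.2 ≤ x ∧ u ∈ Brd (x - hg p.1.2) ∧ Bes P m p.1.1 p.1.2 u} ≤
        ENNReal.ofReal K * (ENNReal.ofReal lam * (wE p.1.1 * wE p.1.2) + ENNReal.ofReal lam⁻¹ * (wE p.1.1 * wE p.1.2 *
          ENNReal.ofReal ((((1 - ε) ^ (nn p.1 - a + dd p.1))⁻¹) ^ 2))) := by
      rintro ⟨p, hp⟩
      have h2 := gf_fresh (b := b) (v' := v') (l' := l') hε0 hε1 hC1 hK hm hp
      set g : ℝ := ((1 - ε) ^ (nn p - a + dd p))⁻¹ with hg'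
      have hg0 : 0 < g := by positivity
      have h3 : g ≤ lam + lam⁻¹ * g ^ 2 := by
        rcases le_total g lam with h | h
        · have : 0 ≤ lam⁻¹ * g ^ 2 := by positivity
          linarith
        · have h4 : g ≤ lam⁻¹ * g ^ 2 := by
            rw [← div_eq_inv_mul, le_div_iff₀ hlam0, sq]
            exact mul_le_mul_of_nonneg_left h hg0.le
          linarith
      show wE p.1 * wE p.2 * gf {u | ∃ x, Bl b x ∧ v' ≤ x ∧ x < v' + l' ∧ hg p.2 ≤ x ∧ u ∈ Brd (x - hg p.2) ∧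
        Bes P m p.1 p.2 u} ≤ ENNReal.ofReal K * (ENNReal.ofReal lam * (wE p.1 * wE p.2) +
          ENNReal.ofReal lam⁻¹ * (wE p.1 * wE p.2 * ENNReal.ofReal (g ^ 2)))
      calc wE p.1 * wE p.2 * gf {u | ∃ x, Bl b x ∧ v' ≤ x ∧ x < v' + l' ∧ hg p.2 ≤ x ∧ u ∈ Brd (x - hg p.2) ∧
          Bes P m p.1 p.2 u} ≤ wE p.1 * wE p.2 * ENNReal.ofReal (K * g) := by
            gcongr
        _ ≤ wE p.1 * wE p.2 * ENNReal.ofReal (K * (lam + lam⁻¹ * g ^ 2)) := by
            gcongr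
        _ = _ := by
            rw [ENNReal.ofReal_mul hK0.le, ENNReal.ofReal_add hlam0.le (by positivity),
              ENNReal.ofReal_mul (by positivity : 0 ≤ lam⁻¹)]
            ring
    refine (ENNReal.tsum_le_tsum h1).trans ?_
    rw [ENNReal.tsum_mul_left, ENNReal.tsum_add, ENNReal.tsum_mul_left, ENNReal.tsum_mul_left]
    have h2 := W2_SI hC3 h5T a v l
    have h3 := tsum_loss (a := a) (v := v) (l := l) hε1 hC2 hρ hδ h5 hr1 hr2
    unfold W2 at h2
    calc ENNReal.ofReal K * (ENNReal.ofReal lam * ∑' p : {p : List Bool × List Bool // p ∈ SI a v l},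
        wE p.1.1 * wE p.1.2 + ENNReal.ofReal lam⁻¹ * ∑' p : {p : List Bool × List Bool // p ∈ SI a v l},
          wE p.1.1 * wE p.1.2 * ENNReal.ofReal ((((1 - ε) ^ (nn p.1 - a + dd p.1))⁻¹) ^ 2))
        ≤ ENNReal.ofReal K * (ENNReal.ofReal lam * ENNReal.ofReal ((C3 + 2) * (UU l / UU (2 ^ a))) +
          ENNReal.ofReal lam⁻¹ * ENNReal.ofReal (C2 * 2 ^ δ * (1 - ((1 - ε) ^ 2)⁻¹ * ρ)⁻¹)) := by
          gcongr
      _ = ENNReal.ofReal (K * (lam * ((C3 + 2) * (UU l / UU (2 ^ a))) +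
          lam⁻¹ * (C2 * 2 ^ δ * (1 - ((1 - ε) ^ 2)⁻¹ * ρ)⁻¹))) := by
          rw [← ENNReal.ofReal_mul hlam0.le, ← ENNReal.ofReal_mul (by positivity), ← ENNReal.ofReal_add
            (by positivity) (by positivity), ← ENNReal.ofReal_mul hK0.le]
      _ = _ := by
          congr 1
          have e1 : lam * ((C3 + 2) * (UU l / UU (2 ^ a))) = (C3 + 2) * Real.sqrt (UU l / UU (2 ^ a)) := by
            rw [← hlam2]
            ring
          rw [e1, hlam3, hKdef]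
          ring

end Fld

end HexObs
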