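import Pool.Agent.PHW.DefsQ
import Pool.Agent.HexWall.FlatB

/-!
PHW section S6 (fold lemma): definitions.
-/

set_option autoImplicit false

namespace HexObs

open Complex Finset ENNReal

namespace Fld

/-- h lies in the block k of heights: 2 ^ k ≤ h < 2 ^ (k + 1), the block 0 also contains 0 -/
def Bl (k h : ℕ) : Prop := h < 2 ^ (k + 1) ∧ (2 ^ k ≤ h ∨ k = 0)

/-- bridges with height in the block k -/
def BrB (k : ℕ) : Set (List Bool) := {t | ∃ h, Bl k h ∧ t ∈ Brd h}

/-- bridges with height in the block k and in the interval [v, v + l) -/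
def BrI (k v l : ℕ) : Set (List Bool) := {t | ∃ h, Bl k h ∧ v ≤ h ∧ h < v + l ∧ t ∈ Brd h}

/-- disjoint pairs (left walk s, right walk t) which are viable both ways: at every cut of either walk the other
one stays on its side in the row above the cut -/
def V2 (s t : List Bool) : Prop := Dj s t ∧ Via s t ∧ Via (t.map not) (s.map not)

/-- the states: s is a bridge (left) of a height y in the block k, t (right) goes up to its first cut c at or
above y, c in the block n -/
def St (k n : ℕ) : Set (List Bool × List Bool) :=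
  {p | ∃ y c, Bl k y ∧ Bl n c ∧ p.1 ∈ Brd y ∧ p.2 ∈ FC y c ∧ V2 p.1 p.2}

/-- weight of the states with the offset weight -/
noncomputable def Vw (δ : ℝ) (k n : ℕ) : ℝ≥0∞ :=
  ∑' p : {p : List Bool × List Bool // p ∈ St k n}, wE p.1.1 * wE p.1.2 *
    ENNReal.ofReal ((1 + ((|latE p.1.1 - latE p.1.2 - 2| : ℤ) : ℝ) / 2 ^ n) ^ δ)

/-- first output of section S5 -/
def S5H (C ρ δ : ℝ) : Prop := ∀ k n : ℕ, k ≤ n → Vw δ k n ≤ ENNReal.ofReal (C * ρ ^ (n - k))

/-- walks up to their first cut at or above h -/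
def FCU (h : ℕ) : Set (List Bool) := {t | ∃ c, t ∈ FC h c}

/-- second output of section S5 -/
def S5T (C : ℝ) : Prop := ∀ k : ℕ, g2 (FCU (2 ^ k)) (FCU (2 ^ k)) V2 ≤ ENNReal.ofReal (C / UU (2 ^ k))

/-- number of the scales in (b, a] at which the word P (seen from its left side) is not flat -/
noncomputable def nfl (A : ℕ) (P : List Bool) (b a : ℕ) : ℕ := by
  classical exact ((Finset.Ioc b a).filter (fun k => ¬ Wall.Flat 8 A P k)).card

/-- number of the first vertex of the word P on the level 3 m or beyond (P.length + 1 if there is none) -/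
noncomputable def fv (m : ℕ) (P : List Bool) : ℕ := sInf {i | P.length < i ∨ 3 * (m : ℤ) ≤ lev P i}

/-- the prefix of the word P before its first visit of the level 3 m (the whole word if there is none) -/
noncomputable def pre (m : ℕ) (P : List Bool) : List Bool := P.take (fv m P - 1)

/-- gain factor of the giant P of the lower strand (which starts with a strand of size 2 ^ a) beside a random strand
of size 2 ^ b, a ≤ b -/
noncomputable def fin (ε : ℝ) (A b a : ℕ) (P : List Bool) : ℝ :=
  (1 - ε) ^ min (nfl A P a b) (nfl A (P.map not) a b)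

/-- gain factor of the giant I of the taller strand (I is followed by a strand of size 2 ^ b that ends at the fold)
beside a random strand of size 2 ^ a, b ≤ a; only the part of the giant up to its first visit of the level T / 2
(seen from the fold) is used -/
noncomputable def fout (ε : ℝ) (A T b a : ℕ) (I : List Bool) : ℝ :=
  (1 - ε) ^ min (nfl A (pre (T / 2) (rev I)) b a) (nfl A ((pre (T / 2) (rev I)).map not) b a)

/-- the fold relation in terms of the words: M is the end of the taller strand R I M, N is the beginning of the lower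
strand N P X, which starts next to the end of the taller strand -/
def FoldH (T : ℕ) (I P M N : List Bool) : Prop :=
  ∃ (b a p q : ℕ) (R X : List Bool), M ∈ Brd b ∧ N ∈ Brd a ∧ R ++ I ∈ Brd p ∧ P ++ X ∈ Brd q ∧
    a + q ≤ b + p ∧ T ≤ a + q ∧ Nb (R ++ (I ++ M)) (N ++ (P ++ X))

/-- the fold, seen from the fold: short strand Y = Y1 J Y' (left), long strand X = X1 I X' (right), both of height
at least h -/
def Fold (h : ℕ) (J I Y1 X1 : List Bool) : Prop :=
  ∃ (y x q p : ℕ) (Y' X' : List Bool), Y1 ∈ Brd y ∧ X1 ∈ Brd x ∧ J ++ Y' ∈ Brd q ∧ I ++ X' ∈ Brd p ∧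
    y + q ≤ x + p ∧ h ≤ y + q ∧ Dj (Y1 ++ (J ++ Y')) (X1 ++ (I ++ X'))

/-- the fold, short strand on the right -/
def FoldR (h : ℕ) (J I Y1 X1 : List Bool) : Prop :=
  ∃ (y x q p : ℕ) (Y' X' : List Bool), Y1 ∈ Brd y ∧ X1 ∈ Brd x ∧ J ++ Y' ∈ Brd q ∧ I ++ X' ∈ Brd p ∧
    y + q ≤ x + p ∧ h ≤ y + q ∧ Dj (X1 ++ (I ++ X')) (Y1 ++ (J ++ Y'))

/-- the fresh leg t = t1 ++ t2 (right) beside the barrier P.take m hanging at the end of s (left): the whole right
walk is t1 ++ t2 ++ Z, the whole left walk is s ++ Z', it is not lower than t1 and begins with s ++ P.take m, and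
s ++ P.take m is not higher than the right walk -/
def Bes (P : List Bool) (m : ℕ) (s t1 t2 : List Bool) : Prop :=
  ∃ (y c n nL nR : ℕ) (Z' Z : List Bool), s ∈ Brd y ∧ t1 ∈ Brd c ∧ t2 ∈ Brd n ∧ Z' ∈ Brd nL ∧ Z ∈ Brd nR ∧
    y ≤ c ∧ c ≤ y + nL ∧ m ≤ P.length ∧ (∃ Q, Z' = P.take m ++ Q) ∧
    (∀ i, i ≤ m → (y : ℤ) * 3 + lev P i ≤ 3 * (c + n + nR)) ∧ Dj (s ++ Z') (t1 ++ t2 ++ Z)

/-- pairs (s, t) with s not higher than t and t beside the barrier P.take m hanging at the end of s -/
def BesP (P : List Bool) (m : ℕ) (s t : List Bool) : Prop :=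
  ∃ (y c n : ℕ) (t1 t2 : List Bool), s ∈ Brd y ∧ t1 ∈ FC y c ∧ t2 ∈ Brd n ∧ t = t1 ++ t2 ∧ Bes P m s t1 t2

end Fld

end HexObs
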