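import Pool.Agent.PHW.LowB
import Pool.Agent.PHW.ChainI

/-!
PHW, module B3a: polynomial bound for the words.
-/

set_option autoImplicit false

namespace HexObs

open Complex Finset ENNReal

private lemma endA_dir : ∀ d ∈ dirs, ip d up ≤ 2 := by decide

private lemma endA_lev (t : List Bool) (i : ℕ) : lev t i ≤ 2 * i := by
  induction i with
  | zero => rw [lev_zero]; norm_num
  | succ i ih =>
    rw [lev_succ]
    have h := endA_dir (dx up t i) (ds_mem upd _ : dx up t i ∈ dirs)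
    push_cast
    omega

private lemma endA_sub (n : ℕ) : HpN n ⊆ SSt n := by
  rintro t ⟨hl, ht⟩
  refine ⟨fun i hi hil => ?_, ht.inj⟩
  rw [mem_St]
  have h1 : 0 < lev t i := ht.mem i hi hil
  have h2 := endA_lev t i
  refine ⟨h1, ?_⟩
  have h3 : (i : ℤ) ≤ n := by
    rw [← hl]
    exact_mod_cast hil
  omega

theorem cH_le (n : ℕ) : ENNReal.ofReal (cH n * xc ^ n) ≤ gf (SSt n) := by
  refine le_trans (le_of_eq ?_) (gf_mono (endA_sub n))
  have hfin := HpN_finite n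
  have key : ∀ s : Finset (List Bool), gf (s : Set (List Bool)) = ∑ t ∈ s, wE t :=
    fun s => Finset.tsum_subtype s wE
  have h1 : gf (HpN n) = ∑ t ∈ hfin.toFinset, wE t := by
    rw [← key, hfin.coe_toFinset]
  have h2 : ∀ t ∈ hfin.toFinset, wE t = ENNReal.ofReal (xc ^ n) := by
    intro t ht
    have h3 : t ∈ HpN n := hfin.mem_toFinset.1 ht
    unfold wE
    rw [h3.1]
  rw [h1, Finset.sum_congr rfl h2, Finset.sum_const, nsmul_eq_mul,
    ENNReal.ofReal_mul (Nat.cast_nonneg _), ENNReal.ofReal_natCast]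
  congr 2
  unfold cH
  rw [Set.ncard_eq_toFinset_card _ hfin]

private lemma endA_mono {C : ℝ} (T : ℕ) :
    C * ((T : ℝ) + 1) ^ C ≤ max C 1 * ((T : ℝ) + 1) ^ (max C 1) := by
  have h0 : (1 : ℝ) ≤ (T : ℝ) + 1 := by
    have := Nat.cast_nonneg (α := ℝ) T
    linarith
  have h1 : ((T : ℝ) + 1) ^ C ≤ ((T : ℝ) + 1) ^ (max C 1) :=
    Real.rpow_le_rpow_of_exponent_le h0 (le_max_left _ _)
  have h2 : 0 ≤ ((T : ℝ) + 1) ^ C := Real.rpow_nonneg (by linarith) _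
  calc C * ((T : ℝ) + 1) ^ C ≤ max C 1 * ((T : ℝ) + 1) ^ C :=
        mul_le_mul_of_nonneg_right (le_max_left _ _) h2
    _ ≤ _ := mul_le_mul_of_nonneg_left h1 (le_trans zero_le_one (le_max_right _ _))

/-- bound for the half plane words -/
private lemma endA_half {C : ℝ} (hC : 1 ≤ C)
    (h : ∀ T : ℕ, ∑' g : {g : List Bool // g ∈ Brd T}, wE g.1 * Fch 64 T g.1 ≤
      ENNReal.ofReal (C * ((T : ℝ) + 1) ^ C)) (m : ℕ) :
    cH m * xc ^ m ≤ 8 * C * ((m : ℝ) + 1) ^ (C + 1) := by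
  have h0 : (0 : ℝ) < (m : ℝ) + 1 := by positivity
  have hr : 0 ≤ 8 * C * ((m : ℝ) + 1) ^ (C + 1) := by positivity
  rw [← ENNReal.ofReal_le_ofReal_iff hr]
  refine (cH_le m).trans ((gf_SSt_chain m).trans ?_)
  have h1 : ∑ T ∈ Finset.range (m + 1), ∑' g : {g : List Bool // g ∈ Brd T}, wE g.1 * Fch 64 T g.1 ≤
      ∑ T ∈ Finset.range (m + 1), ENNReal.ofReal (C * ((m : ℝ) + 1) ^ C) := by
    refine Finset.sum_le_sum fun T hT => (h T).trans (ENNReal.ofReal_le_ofReal ?_)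
    have h2 : (T : ℝ) + 1 ≤ (m : ℝ) + 1 := by
      have : T ≤ m := by
        have := Finset.mem_range.1 hT
        omega
      have : (T : ℝ) ≤ m := by exact_mod_cast this
      linarith
    exact mul_le_mul_of_nonneg_left
      (Real.rpow_le_rpow (by positivity) h2 (by linarith)) (by linarith)
  refine (mul_le_mul_right h1 8).trans (le_of_eq ?_)
  rw [Finset.sum_const, Finset.card_range, nsmul_eq_mul]
  have e8 : (8 : ℝ≥0∞) = ENNReal.ofReal 8 := by norm_num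
  have em : ((m + 1 : ℕ) : ℝ≥0∞) = ENNReal.ofReal ((m : ℝ) + 1) := by
    rw [← ENNReal.ofReal_natCast]
    congr 1
    push_cast
    ring
  rw [e8, em, ← ENNReal.ofReal_mul h0.le, ← ENNReal.ofReal_mul (by norm_num)]
  congr 1
  rw [Real.rpow_add h0, Real.rpow_one]
  ring

theorem cS_poly {C : ℝ} (h : ∀ T : ℕ, ∑' g : {g : List Bool // g ∈ Brd T}, wE g.1 * Fch 64 T g.1 ≤
    ENNReal.ofReal (C * ((T : ℝ) + 1) ^ C)) : ∃ C' : ℝ, 0 < C' ∧ ∀ n : ℕ, cS n * xc ^ n ≤ C' * ((n : ℝ) + 1) ^ C' := by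
  obtain ⟨D, hD⟩ : ∃ D, D = max C 1 := ⟨_, rfl⟩
  have hD1 : 1 ≤ D := by rw [hD]; exact le_max_right _ _
  have h' : ∀ T : ℕ, ∑' g : {g : List Bool // g ∈ Brd T}, wE g.1 * Fch 64 T g.1 ≤
      ENNReal.ofReal (D * ((T : ℝ) + 1) ^ D) := fun T => by
    refine (h T).trans (ENNReal.ofReal_le_ofReal ?_)
    rw [hD]
    exact endA_mono T
  obtain ⟨A, hA⟩ : ∃ A : ℝ, A = 40 * (8 * D * 2 ^ (D + 1)) ^ 2 := ⟨_, rfl⟩
  have hA0 : 0 < A := by rw [hA]; positivity
  refine ⟨max A (2 * (D + 1) + 1), lt_max_of_lt_left hA0, fun n => ?_⟩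
  have hn1 : (1 : ℝ) ≤ (n : ℝ) + 1 := by
    have := Nat.cast_nonneg (α := ℝ) n
    linarith
  have hn0 : (0 : ℝ) < (n : ℝ) + 1 := by linarith
  obtain ⟨Q, hQ⟩ : ∃ Q : ℝ, Q = 8 * D * ((n : ℝ) + 2) ^ (D + 1) := ⟨_, rfl⟩
  have hQ1 : 1 ≤ Q := by
    rw [hQ]
    have h2 : (1 : ℝ) ≤ ((n : ℝ) + 2) ^ (D + 1) := Real.one_le_rpow (by linarith) (by linarith)
    nlinarith
  have hQm : ∀ m ≤ n + 1, cH m * xc ^ m ≤ Q := fun m hm => by
    refine (endA_half hD1 h' m).trans ?_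
    rw [hQ]
    have h2 : (m : ℝ) + 1 ≤ (n : ℝ) + 2 := by
      have : (m : ℝ) ≤ (n : ℝ) + 1 := by exact_mod_cast hm
      linarith
    exact mul_le_mul_of_nonneg_left
      (Real.rpow_le_rpow (by positivity) h2 (by linarith)) (by linarith)
  have hQ2 : Q ≤ 8 * D * 2 ^ (D + 1) * ((n : ℝ) + 1) ^ (D + 1) := by
    rw [hQ, mul_assoc (8 * D), ← Real.mul_rpow (by norm_num) hn0.le]
    refine mul_le_mul_of_nonneg_left (Real.rpow_le_rpow (by positivity) ?_ (by linarith)) (by linarith)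
    linarith
  calc cS n * xc ^ n ≤ 40 * (n + 1) * Q ^ 2 := cS_le n hQ1 hQm
    _ ≤ 40 * (n + 1) * (8 * D * 2 ^ (D + 1) * ((n : ℝ) + 1) ^ (D + 1)) ^ 2 := by
        refine mul_le_mul_of_nonneg_left (pow_le_pow_left₀ (by linarith) hQ2 2) (by positivity)
    _ = A * ((n : ℝ) + 1) ^ (2 * (D + 1) + 1) := by
        have e : ((n : ℝ) + 1) ^ (2 * (D + 1) + 1) = (((n : ℝ) + 1) ^ (D + 1)) ^ 2 * ((n : ℝ) + 1) := by
          rw [Real.rpow_add hn0, Real.rpow_one, ← Real.rpow_natCast (((n : ℝ) + 1) ^ (D + 1)) 2,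
            ← Real.rpow_mul hn0.le]
          congr 2
          push_cast
          ring
        rw [e, hA]
        ring
    _ ≤ max A (2 * (D + 1) + 1) * ((n : ℝ) + 1) ^ (max A (2 * (D + 1) + 1)) :=
        mul_le_mul (le_max_left _ _)
          (Real.rpow_le_rpow_of_exponent_le hn1 (le_max_right _ _))
          (Real.rpow_nonneg hn0.le _) (le_trans hA0.le (le_max_left _ _))

end HexObs
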