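import Pool.Agent.PHW.DefsB
import Pool.Agent.PHW.EndA
import Pool.Agent.PHW.Dict

/-!
PHW, module B3c: final form of the polynomial bound.
-/

set_option autoImplicit false

namespace HexObs

open Complex Finset ENNReal

theorem aB_poly {C : ℝ} (h : ∀ T : ℕ, ∑' g : {g : List Bool // g ∈ Brd T}, wE g.1 * Fch 64 T g.1 ≤
    ENNReal.ofReal (C * ((T : ℝ) + 1) ^ C)) : ∃ C' : ℝ, ∀ᶠ n : ℕ in Filter.atTop, (aB n : ℝ) ≤ muB ^ n * (n : ℝ) ^ C' := by
  obtain ⟨C', hC', hc⟩ := cS_poly h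
  refine ⟨2 * C' + 1, ?_⟩
  have hev : ∀ᶠ n : ℕ in Filter.atTop, 3 / 2 * C' ≤ (n : ℝ) :=
    tendsto_natCast_atTop_atTop.eventually_ge_atTop _
  filter_upwards [hev, Filter.eventually_ge_atTop 2] with n hn hn2
  have hx : 0 < xc := xc_pos
  have hn1 : (1 : ℝ) ≤ n := by exact_mod_cast (by omega : 1 ≤ n)
  have hn2' : (2 : ℝ) ≤ n := by exact_mod_cast hn2
  have h1 : (aB n : ℝ) = 3 / 2 * cS n := by
    have := aB_eq (n := n) (by omega)
    have h' : (2 : ℝ) * aB n = 3 * cS n := by exact_mod_cast this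
    linarith
  have h2 : (cS n : ℝ) ≤ C' * ((n : ℝ) + 1) ^ C' * (1 / xc) ^ n := by
    have h3 := hc n
    have h4 : (cS n : ℝ) = (cS n * xc ^ n) * (1 / xc) ^ n := by
      rw [mul_assoc, ← mul_pow, mul_one_div_cancel hx.ne', one_pow, mul_one]
    rw [h4]
    exact mul_le_mul_of_nonneg_right h3 (by positivity)
  have h5 : (1 / xc) ^ n ≤ muB ^ n := pow_le_pow_left₀ (by positivity) le_muB n
  have h6 : ((n : ℝ) + 1) ^ C' ≤ (n : ℝ) ^ (2 * C') := by
    have h7 : (n : ℝ) + 1 ≤ (n : ℝ) ^ (2 : ℝ) := by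
      rw [Real.rpow_two]
      nlinarith
    calc ((n : ℝ) + 1) ^ C' ≤ ((n : ℝ) ^ (2 : ℝ)) ^ C' :=
          Real.rpow_le_rpow (by positivity) h7 hC'.le
      _ = (n : ℝ) ^ (2 * C') := by rw [← Real.rpow_mul (by positivity)]
  have h8 : (n : ℝ) ^ (2 * C' + 1) = (n : ℝ) ^ (2 * C') * n := by
    rw [Real.rpow_add (by positivity), Real.rpow_one]
  have hmu : 0 ≤ muB ^ n := le_trans (by positivity) h5
  calc (aB n : ℝ) = 3 / 2 * cS n := h1
    _ ≤ 3 / 2 * (C' * ((n : ℝ) + 1) ^ C' * (1 / xc) ^ n) := by linarith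
    _ = (3 / 2 * C') * ((n : ℝ) + 1) ^ C' * (1 / xc) ^ n := by ring
    _ ≤ (n : ℝ) * (n : ℝ) ^ (2 * C') * muB ^ n := by
        apply mul_le_mul _ h5 (by positivity) (by positivity)
        exact mul_le_mul hn h6 (by positivity) (by positivity)
    _ = muB ^ n * (n : ℝ) ^ (2 * C' + 1) := by rw [h8]; ring

end HexObs
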