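import Pool.Agent.PHW.EndA
import Pool.Agent.PHW.Dict

/-!
PHW, general end: a bound for the walks of the strips gives a bound for the number of the self-avoiding walks.
-/

set_option autoImplicit false

namespace HexObs

open Complex Finset ENNReal

theorem cS_le_of_SSt {Q : ℕ → ℝ} (hQ1 : ∀ n, 1 ≤ Q n) (hmono : Monotone Q)
    (h : ∀ n, gf (SSt n) ≤ ENNReal.ofReal (Q n)) (n : ℕ) : cS n * xc ^ n ≤ 40 * (n + 1) * Q (n + 1) ^ 2 := by
  apply cS_le n (hQ1 _)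
  intro m hm
  have h1 := (cH_le m).trans (h m)
  have h2 : 0 ≤ Q m := le_trans zero_le_one (hQ1 m)
  rw [ENNReal.ofReal_le_ofReal_iff h2] at h1
  exact h1.trans (hmono hm)

theorem aB_le_of_SSt {Q : ℕ → ℝ} (hQ1 : ∀ n, 1 ≤ Q n) (hmono : Monotone Q)
    (h : ∀ n, gf (SSt n) ≤ ENNReal.ofReal (Q n)) {n : ℕ} (hn : 1 ≤ n) :
    (aB n : ℝ) ≤ muB ^ n * (60 * (n + 1) * Q (n + 1) ^ 2) := by
  have h1 := cS_le_of_SSt hQ1 hmono h n
  have hx : 0 < xc := xc_pos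
  have h2 : (2 : ℝ) * aB n = 3 * cS n := by exact_mod_cast aB_eq hn
  have h4 : (cS n : ℝ) = (cS n * xc ^ n) * (1 / xc) ^ n := by
    rw [mul_assoc, ← mul_pow, mul_one_div_cancel hx.ne', one_pow, mul_one]
  have h5 : (1 / xc) ^ n ≤ muB ^ n := pow_le_pow_left₀ (by positivity) le_muB n
  have h6 : 0 ≤ 40 * ((n : ℝ) + 1) * Q (n + 1) ^ 2 := by positivity
  calc (aB n : ℝ) = 3 / 2 * cS n := by linarith
    _ = 3 / 2 * ((cS n * xc ^ n) * (1 / xc) ^ n) := by rw [← h4]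
    _ ≤ 3 / 2 * ((40 * ((n : ℝ) + 1) * Q (n + 1) ^ 2) * muB ^ n) := by
        gcongr
    _ = muB ^ n * (60 * (n + 1) * Q (n + 1) ^ 2) := by ring

end HexObs
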