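import Pool.Agent.PHW.DefsQ
import Pool.Agent.PHW.EndQ2

/-!
PHW, module QO: quasi-polynomial bound for the numbers of walks.
-/

set_option autoImplicit false

namespace HexObs

open Complex Finset ENNReal

/-- `1 + log₂ (n + 1)` -/
private noncomputable def endQ_L (n : ℕ) : ℝ := 1 + (Nat.log 2 (n + 1) : ℝ)

private lemma endQ_L_one (n : ℕ) : 1 ≤ endQ_L n := by
  unfold endQ_L
  have := Nat.cast_nonneg (α := ℝ) (Nat.log 2 (n + 1))
  linarith

private lemma endQ_L_mono {m n : ℕ} (h : m ≤ n) : endQ_L m ≤ endQ_L n := by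
  unfold endQ_L
  have h1 : Nat.log 2 (m + 1) ≤ Nat.log 2 (n + 1) := Nat.log_mono_right (by omega)
  have : (Nat.log 2 (m + 1) : ℝ) ≤ Nat.log 2 (n + 1) := by exact_mod_cast h1
  linarith

private lemma endQ_L_succ (n : ℕ) : endQ_L (n + 1) ≤ 2 * endQ_L n := by
  have h1 : Nat.log 2 (n + 1 + 1) ≤ Nat.log 2 (n + 1) + 1 := by
    have h2 : Nat.log 2 (n + 1 + 1) ≤ Nat.log 2 ((n + 1) * 2) := Nat.log_mono_right (by omega)
    rwa [Nat.log_mul_base (by norm_num) (by omega)] at h2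
  have h3 : (Nat.log 2 (n + 1 + 1) : ℝ) ≤ Nat.log 2 (n + 1) + 1 := by exact_mod_cast h1
  have h4 := Nat.cast_nonneg (α := ℝ) (Nat.log 2 (n + 1))
  unfold endQ_L
  linarith

/-- `n + 1 ≤ exp (1 + log₂ (n + 1))` -/
private lemma endQ_exp (n : ℕ) : (n : ℝ) + 1 ≤ Real.exp (endQ_L n) := by
  have h1 : n + 1 < 2 ^ (Nat.log 2 (n + 1) + 1) := Nat.lt_pow_succ_log_self (by norm_num) _
  have h2 : (n : ℝ) + 1 ≤ (2 : ℝ) ^ (Nat.log 2 (n + 1) + 1) := by
    have : ((n + 1 : ℕ) : ℝ) ≤ ((2 ^ (Nat.log 2 (n + 1) + 1) : ℕ) : ℝ) := by exact_mod_cast h1.le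
    push_cast at this
    exact this
  refine h2.trans ?_
  have h3 : (2 : ℝ) ≤ Real.exp 1 := by
    have := Real.add_one_le_exp (1 : ℝ)
    linarith
  calc (2 : ℝ) ^ (Nat.log 2 (n + 1) + 1) ≤ (Real.exp 1) ^ (Nat.log 2 (n + 1) + 1) :=
        pow_le_pow_left₀ (by norm_num) h3 _
    _ = Real.exp (endQ_L n) := by
        rw [← Real.exp_nat_mul]
        congr 1
        unfold endQ_L
        push_cast
        ring

/-- the bound for the walks of the strips -/
private noncomputable def endQ_Q (D : ℝ) (n : ℕ) : ℝ := 8 * ((n : ℝ) + 1) * Real.exp (D * endQ_L n ^ D)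

private lemma endQ_Q_one {D : ℝ} (hD : 1 ≤ D) (n : ℕ) : 1 ≤ endQ_Q D n := by
  have h1 : (0 : ℝ) ≤ n := Nat.cast_nonneg n
  have h2 : 1 ≤ Real.exp (D * endQ_L n ^ D) := by
    apply Real.one_le_exp
    have := endQ_L_one n
    positivity
  unfold endQ_Q
  nlinarith

private lemma endQ_Q_mono {D : ℝ} (hD : 1 ≤ D) : Monotone (endQ_Q D) := by
  intro m n h
  unfold endQ_Q
  have h1 : (m : ℝ) ≤ n := by exact_mod_cast h
  have h2 : endQ_L m ^ D ≤ endQ_L n ^ D :=
    Real.rpow_le_rpow (le_trans zero_le_one (endQ_L_one m)) (endQ_L_mono h) (by linarith)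
  have h3 : (0 : ℝ) ≤ m := Nat.cast_nonneg m
  gcongr

private lemma endQ_SSt {C : ℝ} (h : ∀ T : ℕ, GF 64 T T ≤
    ENNReal.ofReal (Real.exp (C * (1 + (Nat.log 2 (T + 1) : ℝ)) ^ C))) (n : ℕ) :
    gf (SSt n) ≤ ENNReal.ofReal (endQ_Q (max C 1) n) := by
  set D := max C 1 with hD
  have hD1 : 1 ≤ D := le_max_right _ _
  refine (gf_SSt_chain n).trans ?_
  have h1 : ∑ T ∈ Finset.range (n + 1), ∑' g : {g : List Bool // g ∈ Brd T}, wE g.1 * Fch 64 T g.1 ≤
      ∑ T ∈ Finset.range (n + 1), ENNReal.ofReal (Real.exp (D * endQ_L n ^ D)) := by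
    refine Finset.sum_le_sum fun T hT => (h T).trans (ENNReal.ofReal_le_ofReal (Real.exp_le_exp.2 ?_))
    have hT' : T ≤ n := by
      have := Finset.mem_range.1 hT
      omega
    have hL : 1 ≤ endQ_L T := endQ_L_one T
    change C * endQ_L T ^ C ≤ D * endQ_L n ^ D
    calc C * endQ_L T ^ C ≤ D * endQ_L T ^ C :=
          mul_le_mul_of_nonneg_right (le_max_left _ _) (Real.rpow_nonneg (by linarith) _)
      _ ≤ D * endQ_L T ^ D :=
          mul_le_mul_of_nonneg_left (Real.rpow_le_rpow_of_exponent_le hL (le_max_left _ _)) (by linarith)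
      _ ≤ D * endQ_L n ^ D :=
          mul_le_mul_of_nonneg_left (Real.rpow_le_rpow (by linarith) (endQ_L_mono hT') (by linarith))
            (by linarith)
  refine (mul_le_mul_right h1 8).trans (le_of_eq ?_)
  rw [Finset.sum_const, Finset.card_range, nsmul_eq_mul]
  have e8 : (8 : ℝ≥0∞) = ENNReal.ofReal 8 := by norm_num
  have em : ((n + 1 : ℕ) : ℝ≥0∞) = ENNReal.ofReal ((n : ℝ) + 1) := by
    rw [← ENNReal.ofReal_natCast]
    congr 1
    push_cast
    ring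
  have h0 : (0 : ℝ) ≤ (n : ℝ) + 1 := by positivity
  rw [e8, em, ← ENNReal.ofReal_mul h0, ← ENNReal.ofReal_mul (by norm_num)]
  congr 1
  unfold endQ_Q
  ring

/-- the final number -/
private lemma endQ_num {D : ℝ} (hD : 1 ≤ D) : ∃ K : ℝ, 1 ≤ K ∧ ∀ n : ℕ,
    60 * ((n : ℝ) + 1) * endQ_Q D (n + 1) ^ 2 ≤ Real.exp (K * endQ_L n ^ K) := by
  have h2D : (1 : ℝ) ≤ 2 ^ D := Real.one_le_rpow (by norm_num) (by linarith)
  refine ⟨13 + 2 * D * 2 ^ D, by nlinarith, fun n => ?_⟩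
  set K : ℝ := 13 + 2 * D * 2 ^ D with hK
  have hDK : D ≤ K := by
    rw [hK]
    nlinarith
  have hL : 1 ≤ endQ_L n := endQ_L_one n
  have hL0 : 0 < endQ_L n := by linarith
  set X : ℝ := endQ_L n ^ D with hX
  have hLX : endQ_L n ≤ X := by
    rw [hX]
    calc endQ_L n = endQ_L n ^ (1 : ℝ) := (Real.rpow_one _).symm
      _ ≤ endQ_L n ^ D := Real.rpow_le_rpow_of_exponent_le hL hD
  have hX1 : 1 ≤ X := hL.trans hLX
  have hXK : X ≤ endQ_L n ^ K := Real.rpow_le_rpow_of_exponent_le hL hDK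
  have h1 : endQ_L (n + 1) ^ D ≤ 2 ^ D * X := by
    rw [hX, ← Real.mul_rpow (by norm_num) hL0.le]
    exact Real.rpow_le_rpow (le_trans zero_le_one (endQ_L_one _)) (endQ_L_succ n) (by linarith)
  have h2 : endQ_Q D (n + 1) ≤ 16 * Real.exp (endQ_L n) * Real.exp (D * 2 ^ D * X) := by
    unfold endQ_Q
    have h3 : (((n + 1 : ℕ) : ℝ) + 1) ≤ 2 * Real.exp (endQ_L n) := by
      have := endQ_exp n
      have h0 : (0 : ℝ) ≤ n := Nat.cast_nonneg n
      push_cast
      linarith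
    have h4 : Real.exp (D * endQ_L (n + 1) ^ D) ≤ Real.exp (D * 2 ^ D * X) := by
      rw [Real.exp_le_exp, mul_assoc]
      exact mul_le_mul_of_nonneg_left h1 (by linarith)
    calc 8 * (((n + 1 : ℕ) : ℝ) + 1) * Real.exp (D * endQ_L (n + 1) ^ D)
        ≤ 8 * (2 * Real.exp (endQ_L n)) * Real.exp (D * 2 ^ D * X) := by
          gcongr
      _ = _ := by ring
  have hQ0 : 0 ≤ endQ_Q D (n + 1) := le_trans zero_le_one (endQ_Q_one hD _)
  have h5 : (15360 : ℝ) ≤ Real.exp 10 := by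
    have h6 := Real.exp_one_gt_d9
    have h7 : (2.7 : ℝ) ^ 10 ≤ Real.exp 1 ^ 10 := pow_le_pow_left₀ (by norm_num) (by linarith) 10
    rw [← Real.exp_nat_mul] at h7
    norm_num at h7
    linarith
  calc 60 * ((n : ℝ) + 1) * endQ_Q D (n + 1) ^ 2
      ≤ 60 * Real.exp (endQ_L n) * (16 * Real.exp (endQ_L n) * Real.exp (D * 2 ^ D * X)) ^ 2 := by
        have := endQ_exp n
        gcongr
    _ = 15360 * (Real.exp (endQ_L n) * (Real.exp (endQ_L n) ^ 2 * Real.exp (D * 2 ^ D * X) ^ 2)) := by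
        ring
    _ ≤ Real.exp 10 * (Real.exp (endQ_L n) * (Real.exp (endQ_L n) ^ 2 * Real.exp (D * 2 ^ D * X) ^ 2)) := by
        gcongr
    _ = Real.exp (10 + (endQ_L n + (2 * endQ_L n + 2 * (D * 2 ^ D * X)))) := by
        rw [Real.exp_add, Real.exp_add, Real.exp_add, ← Real.exp_nat_mul, ← Real.exp_nat_mul]
        push_cast
        rfl
    _ ≤ Real.exp (K * endQ_L n ^ K) := by
        rw [Real.exp_le_exp]
        have h8 : K * X ≤ K * endQ_L n ^ K := mul_le_mul_of_nonneg_left hXK (by linarith)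
        refine le_trans ?_ h8
        rw [hK]
        nlinarith

theorem cS_quasi {C : ℝ} (h : ∀ T : ℕ, GF 64 T T ≤ ENNReal.ofReal (Real.exp (C * (1 + (Nat.log 2 (T + 1) : ℝ)) ^ C))) :
    ∃ C' : ℝ, 0 < C' ∧ ∀ n : ℕ, cS n * xc ^ n ≤ Real.exp (C' * (1 + (Nat.log 2 (n + 1) : ℝ)) ^ C') := by
  have hD1 : (1 : ℝ) ≤ max C 1 := le_max_right _ _
  obtain ⟨K, hK, hnum⟩ := endQ_num hD1
  refine ⟨K, by linarith, fun n => ?_⟩
  refine (cS_le_of_SSt (endQ_Q_one hD1) (endQ_Q_mono hD1) (endQ_SSt h) n).trans ?_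
  refine le_trans ?_ (hnum n)
  have h1 : 0 ≤ ((n : ℝ) + 1) * endQ_Q (max C 1) (n + 1) ^ 2 := by positivity
  nlinarith

theorem aB_quasi {C : ℝ} (h : ∀ T : ℕ, GF 64 T T ≤ ENNReal.ofReal (Real.exp (C * (1 + (Nat.log 2 (T + 1) : ℝ)) ^ C))) :
    ∃ C' : ℝ, ∀ᶠ n : ℕ in Filter.atTop, (aB n : ℝ) ≤ muB ^ n * Real.exp ((Real.log n) ^ C') := by
  have hD1 : (1 : ℝ) ≤ max C 1 := le_max_right _ _
  obtain ⟨K, hK, hnum⟩ := endQ_num hD1
  refine ⟨K + 1, ?_⟩
  have hlog : Filter.Tendsto (fun n : ℕ => Real.log (n : ℝ)) Filter.atTop Filter.atTop :=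
    Real.tendsto_log_atTop.comp tendsto_natCast_atTop_atTop
  filter_upwards [hlog.eventually_ge_atTop (K * 4 ^ K), hlog.eventually_ge_atTop 1,
    Filter.eventually_ge_atTop 2] with n hn hn1 hn2
  have hn2' : (2 : ℝ) ≤ n := by exact_mod_cast hn2
  have hmu : 0 ≤ muB ^ n := le_trans (by have := xc_pos; positivity)
    (pow_le_pow_left₀ (by have := xc_pos; positivity) le_muB n)
  refine (aB_le_of_SSt (endQ_Q_one hD1) (endQ_Q_mono hD1) (endQ_SSt h) (by omega)).trans ?_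
  refine mul_le_mul_of_nonneg_left ((hnum n).trans (Real.exp_le_exp.2 ?_)) hmu
  -- `1 + log₂ (n + 1) ≤ 4 log n`
  have hL4 : endQ_L n ≤ 4 * Real.log n := by
    have h1 : (Nat.log 2 (n + 1) : ℝ) ≤ Real.log (n + 1) / Real.log 2 := by
      rw [le_div_iff₀ (Real.log_pos (by norm_num)), ← Real.log_pow]
      apply Real.log_le_log (by positivity)
      have h2 : 2 ^ Nat.log 2 (n + 1) ≤ n + 1 := Nat.pow_log_le_self 2 (by omega)
      exact_mod_cast h2
    have h3 : Real.log (n + 1) ≤ 2 * Real.log n := by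
      have h4 : Real.log (n + 1) ≤ Real.log ((n : ℝ) ^ 2) := by
        apply Real.log_le_log (by positivity)
        nlinarith
      rw [Real.log_pow] at h4
      exact_mod_cast h4
    have h5 : (2 / 3 : ℝ) ≤ Real.log 2 := by
      have := Real.log_two_gt_d9
      linarith
    have h6 : Real.log (n + 1) / Real.log 2 ≤ 3 * Real.log n := by
      rw [div_le_iff₀ (Real.log_pos (by norm_num))]
      nlinarith
    unfold endQ_L
    linarith
  have hL0 : 0 ≤ endQ_L n := le_trans zero_le_one (endQ_L_one n)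
  have hlog0 : 0 < Real.log n := by linarith
  calc K * endQ_L n ^ K ≤ K * (4 * Real.log n) ^ K :=
        mul_le_mul_of_nonneg_left (Real.rpow_le_rpow hL0 hL4 (by linarith)) (by linarith)
    _ = (K * 4 ^ K) * Real.log n ^ K := by
        rw [Real.mul_rpow (by norm_num) hlog0.le]
        ring
    _ ≤ Real.log n * Real.log n ^ K :=
        mul_le_mul_of_nonneg_right hn (Real.rpow_nonneg hlog0.le _)
    _ = Real.log n ^ (K + 1) := by
        rw [Real.rpow_add hlog0, Real.rpow_one]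
        ring

end HexObs
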