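import Pool.Agent.PHW.TopB
import Pool.Agent.PHW.TopC
import Pool.Agent.PHW.HangA
import Pool.Agent.PHW.Mirror
import Pool.Agent.PHW.Rotate
import Pool.Agent.PHW.PairsA

/-!
PHW, one pair: the increment of the weight of the walks of the strip is bounded by the weight of the disjoint pairs
(bridge, walk) with adjacent feet.
-/

set_option autoImplicit false

namespace HexObs

open Complex Finset ENNReal

/-- weight of the disjoint pairs: bridge of height T (left), any walk of the strip of height T (right) -/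
noncomputable def PT (T : ℕ) : ℝ≥0∞ :=
  ∑' p : {p : List Bool × List Bool // p.1 ∈ Brd T ∧ p.2 ∈ SSt T ∧ Dj p.1 p.2}, wE p.1.1 * wE p.1.2

lemma pair_le {A : Set (List Bool)} {R : List Bool → Set (List Bool)} {B : List Bool × List Bool → Prop} (c : ℝ≥0∞)
    (φ : List Bool × List Bool → List Bool × List Bool) (hφ : ∀ a ∈ A, ∀ t ∈ R a, B (φ (a, t)))
    (hinj : Function.Injective φ) (hw : ∀ a t, wE a * wE t ≤ c * (wE (φ (a, t)).1 * wE (φ (a, t)).2)) :
    ∑' a : {a : List Bool // a ∈ A}, wE a.1 * gf (R a.1) ≤ c * ∑' p : {p : List Bool × List Bool // B p}, wE p.1.1 * wE p.1.2 := by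
  have h1 : ∑' a : {a : List Bool // a ∈ A}, wE a.1 * gf (R a.1) =
      ∑' x : (Σ a : {a : List Bool // a ∈ A}, {t : List Bool // t ∈ R a.1}), wE x.1.1 * wE x.2.1 := by
    rw [ENNReal.tsum_sigma']
    apply tsum_congr
    intro a
    unfold gf
    rw [← ENNReal.tsum_mul_left]
  rw [h1, ← ENNReal.tsum_mul_left]
  let ψ : (Σ a : {a : List Bool // a ∈ A}, {t : List Bool // t ∈ R a.1}) → {p : List Bool × List Bool // B p} :=
    fun x => ⟨φ (x.1.1, x.2.1), hφ _ x.1.2 _ x.2.2⟩
  have hψ : Function.Injective ψ := by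
    rintro ⟨⟨a, ha⟩, ⟨t, ht⟩⟩ ⟨⟨a', ha'⟩, ⟨t', ht'⟩⟩ h
    have h2 : φ (a, t) = φ (a', t') := congrArg Subtype.val h
    have h3 := hinj h2
    rw [Prod.mk.injEq] at h3
    obtain ⟨rfl, rfl⟩ := h3
    rfl
  calc ∑' x : (Σ a : {a : List Bool // a ∈ A}, {t : List Bool // t ∈ R a.1}), wE x.1.1 * wE x.2.1
      ≤ ∑' x : (Σ a : {a : List Bool // a ∈ A}, {t : List Bool // t ∈ R a.1}),
          (fun p : {p : List Bool × List Bool // B p} => c * (wE p.1.1 * wE p.1.2)) (ψ x) :=
        ENNReal.tsum_le_tsum (fun x => hw x.1.1 x.2.1)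
    _ ≤ ∑' p : {p : List Bool × List Bool // B p}, c * (wE p.1.1 * wE p.1.2) :=
        ENNReal.tsum_comp_le_tsum_of_injective hψ _

lemma wE_two (b c : Bool) (t : List Bool) : wE (b :: c :: t) = ENNReal.ofReal (xc ^ 2) * wE t := by
  have h := wE_append [b, c] t
  have e : wE [b, c] = ENNReal.ofReal (xc ^ 2) := rfl
  rw [e] at h
  exact h

lemma four_xc : (1 : ℝ≥0∞) ≤ 4 * ENNReal.ofReal (xc ^ 2) := by
  have h1 : (1 : ℝ) ≤ 4 * xc ^ 2 := by
    rw [xc_sq]
    have h2 : Real.sqrt 2 ≤ 2 := by
      rw [Real.sqrt_le_left (by norm_num)]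
      norm_num
    have h3 : 0 < 2 + Real.sqrt 2 := by positivity
    rw [← mul_div_assoc, le_div_iff₀ h3]
    linarith
  have h4 : (4 : ℝ≥0∞) = ENNReal.ofReal 4 := by norm_num
  rw [h4, ← ENNReal.ofReal_mul (by norm_num), ← ENNReal.ofReal_one]
  exact ENNReal.ofReal_le_ofReal h1

lemma wE_le_two (b c : Bool) (t : List Bool) : wE t ≤ 4 * wE (b :: c :: t) := by
  rw [wE_two, ← mul_assoc]
  calc wE t = 1 * wE t := (one_mul _).symm
    _ ≤ (4 * ENNReal.ofReal (xc ^ 2)) * wE t := by gcongr; exact four_xc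

/-- two letters in front of a walk of the strip -/
lemma SSt_step {T : ℕ} {t : List Bool} (b : Bool) (h : t ∈ SSt T) : (!b) :: b :: t ∈ SSt (T + 1) := by
  have hv : ∀ j, vx oo up ((!b) :: b :: t) (j + 2) = up + turn (!b) up + vx oo up t j := by
    intro j
    have := vx_two (!b) t j
    simp only [Bool.not_not] at this
    exact this
  have hip : ip (up + turn (!b) up) up = 3 := by
    cases b <;> decide
  have hl : ∀ j, lev ((!b) :: b :: t) (j + 2) = 3 + lev t j := by
    intro j
    unfold lev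
    rw [hv, ip_add_left, hip]
  have hl1 : lev ((!b) :: b :: t) 1 = 2 := lev_one _
  have hlen : ((!b) :: b :: t).length = t.length + 2 := rfl
  have hpos : ∀ j, 1 ≤ j → j ≤ t.length → 0 < lev t j ∧ lev t j < 3 * T + 2 := fun j h1 h2 => mem_St.1 (h.mem j h1 h2)
  have hcases : ∀ j, j ≤ t.length + 2 → j = 0 ∨ j = 1 ∨ ∃ l, l ≤ t.length ∧ j = l + 2 := by
    intro j hj
    rcases Nat.lt_or_ge j 2 with h1 | h1
    · omega
    · exact Or.inr (Or.inr ⟨j - 2, by omega, by omega⟩)
  have hlow : ∀ l, l ≤ t.length → 0 ≤ lev t l := by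
    intro l hl'
    rcases Nat.eq_zero_or_pos l with h1 | h1
    · rw [h1, lev_zero]
    · exact (hpos l h1 hl').1.le
  refine ⟨?_, ?_⟩
  · intro j h1 h2
    rw [hlen] at h2
    rw [mem_St]
    rcases hcases j h2 with rfl | rfl | ⟨l, hl', rfl⟩
    · omega
    · rw [hl1]
      constructor
      · norm_num
      · push_cast
        omega
    · rw [hl]
      have h3 := hlow l hl'
      refine ⟨by omega, ?_⟩
      rcases Nat.eq_zero_or_pos l with h4 | h4
      · rw [h4, lev_zero]
        push_cast
        omega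
      · have := (hpos l h4 hl').2
        push_cast
        omega
  · intro i k hik hk heq
    rw [hlen] at hk
    have hlev : lev ((!b) :: b :: t) i = lev ((!b) :: b :: t) k := by
      unfold lev
      rw [heq]
    rcases hcases k hk with rfl | rfl | ⟨l, hl', rfl⟩
    · omega
    · have : i = 0 := by omega
      rw [this, lev_zero, hl1] at hlev
      omega
    · rw [hl] at hlev
      have h3 := hlow l hl'
      rcases hcases i (by omega) with rfl | rfl | ⟨l', hl'', rfl⟩
      · rw [lev_zero] at hlev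
        omega
      · rw [hl1] at hlev
        omega
      · rw [hv, hv] at heq
        exact h.inj l' l (by omega) hl' (add_left_cancel heq)

/-- decomposition of the new walks -/
lemma SSt_succ_sub (T : ℕ) : SSt (T + 1) ⊆ SSt T ∪ (HT (T + 1) ∪
    ({t | ∃ g ∈ Brd T, t = g ++ [true]} ∪ {t | ∃ g ∈ Brd T, t = g ++ [false]})) := by
  intro t ht
  have hmono : ∀ {a b : ℕ} {s : List Bool}, a ≤ b → s ∈ SSt a → s ∈ SSt b := by
    intro a b s hab hs
    refine ⟨fun i h1 h2 => ?_, hs.inj⟩
    have := mem_St.1 (hs.mem i h1 h2)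
    rw [mem_St]
    have hab' : (a : ℤ) ≤ b := by exact_mod_cast hab
    constructor
    · exact this.1
    · linarith [this.2]
  rcases SSt_cases ht with ⟨T', hT', h⟩ | ⟨T', hT', g, hg, c, rfl⟩
  · rcases Nat.lt_or_ge T' (T + 1) with h1 | h1
    · left
      exact hmono (by omega) h.1
    · have : T' = T + 1 := by omega
      rw [this] at h
      right
      left
      exact h
  · rcases Nat.lt_or_ge T' T with h1 | h1
    · left
      refine ⟨fun i hi hl => ?_, ht.inj⟩
      rw [mem_St]
      have h2 := mem_St.1 (ht.mem i hi hl)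
      refine ⟨h2.1, ?_⟩
      rw [List.length_append, List.length_singleton] at hl
      rw [lev_append hl]
      have hT'' : (T' : ℤ) + 1 ≤ T := by exact_mod_cast h1
      rcases Nat.lt_or_ge g.length i with h3 | h3
      · have : i = g.length + 1 := by omega
        rw [this, lev_top hg]
        linarith
      · have := ((mem_Brd.1 hg).1 i hi h3).2
        linarith
    · have : T' = T := by omega
      rw [this] at hg
      right
      right
      cases c
      · right
        exact ⟨g, hg, rfl⟩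
      · left
        exact ⟨g, hg, rfl⟩

lemma gf_add_one (T : ℕ) (c : Bool) : gf {t | ∃ g ∈ Brd T, t = g ++ [c]} ≤ BT T := by
  have h1 := gf_le_mul (P := {t | ∃ g ∈ Brd T, t = g ++ [c]}) (Q := Brd T) (R := {[c]}) (by
    rintro t ⟨g, hg, rfl⟩
    exact ⟨g, hg, [c], rfl, rfl⟩)
  refine h1.trans ?_
  have hxc1 : ENNReal.ofReal xc ≤ 1 := by
    rw [← ENNReal.ofReal_one]
    apply ENNReal.ofReal_le_ofReal
    have h1 := xc_sq
    have h2 : (1 : ℝ) / (2 + Real.sqrt 2) ≤ 1 := by
      rw [div_le_one (by positivity)]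
      have := Real.sqrt_nonneg 2
      linarith
    rw [← h1] at h2
    have h3 := xc_pos
    nlinarith
  have h2 : gf ({[c]} : Set (List Bool)) ≤ 1 := by
    have h3 := gf_finset {[c]}
    rw [Finset.coe_singleton] at h3
    rw [h3, Finset.sum_singleton, List.length_singleton, pow_one]
    exact hxc1
  rw [gf_Brd]
  calc BT T * gf {[c]} ≤ BT T * 1 := by gcongr
    _ = BT T := mul_one _

lemma Dj_nil (g : List Bool) : Dj g [] := by
  unfold Dj
  rw [Set.disjoint_left]
  rintro p _ ⟨i, h1, h2, _⟩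
  simp only [List.length_nil] at h2
  omega

lemma nil_mem_SSt (T : ℕ) : ([] : List Bool) ∈ SSt T := by
  refine ⟨?_, ?_⟩
  · intro i h1 h2
    simp only [List.length_nil] at h2
    omega
  · intro i k h1 h2
    simp only [List.length_nil] at h2
    omega

lemma BT_le_PT (T : ℕ) : BT T ≤ PT T := by
  have h := pair_le (A := Brd T) (R := fun _ => {[]}) (B := fun p => p.1 ∈ Brd T ∧ p.2 ∈ SSt T ∧ Dj p.1 p.2) 1
    (fun p => p) (by
      intro a ha t ht
      rw [Set.mem_singleton_iff] at ht
      subst ht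
      exact ⟨ha, nil_mem_SSt T, Dj_nil a⟩) (fun _ _ h => h) (by
      intro a t
      rw [one_mul])
  rw [one_mul] at h
  have h2 : gf ({[]} : Set (List Bool)) = 1 := by
    have h3 := gf_finset {[]}
    rw [Finset.coe_singleton] at h3
    rw [h3, Finset.sum_singleton, List.length_nil, pow_zero, ENNReal.ofReal_one]
  rw [h2] at h
  simp only [mul_one] at h
  have h3 : gf (Brd T) = BT T := gf_Brd T
  unfold gf at h3
  rw [← h3]
  exact h

lemma BT_le_succ (T : ℕ) : BT T ≤ 4 * BT (T + 1) := by
  rw [← gf_Brd, ← gf_Brd]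
  have h := pair_le (A := Brd T) (R := fun _ => {[]}) (B := fun p => p.1 ∈ Brd (T + 1) ∧ p.2 = []) 4
    (fun p => (true :: false :: p.1, p.2)) (by
      intro a ha t ht
      exact ⟨Brd_step (b := false) ha, ht⟩) (by
      rintro ⟨a, t⟩ ⟨a', t'⟩ h
      simpa using h) (by
      intro a t
      simp only
      rw [← mul_assoc]
      gcongr
      exact wE_le_two true false a)
  have h2 : gf ({[]} : Set (List Bool)) = 1 := by
    have h3 := gf_finset {[]}
    rw [Finset.coe_singleton] at h3
    rw [h3, Finset.sum_singleton, List.length_nil, pow_zero, ENNReal.ofReal_one]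
  rw [h2] at h
  simp only [mul_one] at h
  refine le_trans (le_of_eq rfl) (h.trans ?_)
  gcongr
  let ψ : {p : List Bool × List Bool // p.1 ∈ Brd (T + 1) ∧ p.2 = []} → {g : List Bool // g ∈ Brd (T + 1)} :=
    fun p => ⟨p.1.1, p.2.1⟩
  have hψ : Function.Injective ψ := by
    rintro ⟨⟨a, t⟩, h1, h2⟩ ⟨⟨a', t'⟩, h1', h2'⟩ h
    have h3 : a = a' := congrArg Subtype.val h
    simp only at h2 h2'
    subst h2
    subst h2'
    subst h3
    rfl
  calc ∑' p : {p : List Bool × List Bool // p.1 ∈ Brd (T + 1) ∧ p.2 = []}, wE p.1.1 * wE p.1.2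
      ≤ ∑' p : {p : List Bool × List Bool // p.1 ∈ Brd (T + 1) ∧ p.2 = []},
          (fun g : {g : List Bool // g ∈ Brd (T + 1)} => wE g.1) (ψ p) := by
        apply ENNReal.tsum_le_tsum
        rintro ⟨⟨a, t⟩, h1, h2⟩
        simp only at h2
        subst h2
        show wE a * wE [] ≤ wE a
        have : wE [] = 1 := by
          unfold wE
          rw [List.length_nil, pow_zero, ENNReal.ofReal_one]
        rw [this, mul_one]
    _ ≤ ∑' g : {g : List Bool // g ∈ Brd (T + 1)}, wE g.1 := ENNReal.tsum_comp_le_tsum_of_injective hψ _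

/-- one side of the hanging walks -/
lemma hang_PT (T : ℕ) (b : Bool) :
    ∑' g : {g : List Bool // g ∈ Brd (T + 1)}, wE g.1 * gf {t | t ∈ SSt T ∧ Hang g.1 b t} ≤ 4 * PT (T + 1) := by
  cases b with
  | false =>
    refine pair_le (A := Brd (T + 1)) (R := fun g => {t | t ∈ SSt T ∧ Hang g false t})
      (B := fun p => p.1 ∈ Brd (T + 1) ∧ p.2 ∈ SSt (T + 1) ∧ Dj p.1 p.2) 4
      (fun p => (rev p.1, true :: false :: p.2)) ?_ ?_ ?_
    · rintro g hg t ⟨ht, hh⟩
      exact ⟨Brd_rev hg, SSt_step false ht, hh⟩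
    · rintro ⟨a, t⟩ ⟨a', t'⟩ h
      simp only [Prod.mk.injEq, List.cons.injEq, true_and] at h
      obtain ⟨h1, h2⟩ := h
      have h3 := congrArg rev h1
      rw [rev_rev, rev_rev] at h3
      rw [h3, h2]
    · intro a t
      simp only
      rw [wE_rev, mul_left_comm]
      gcongr
      exact wE_le_two true false t
  | true =>
    refine pair_le (A := Brd (T + 1)) (R := fun g => {t | t ∈ SSt T ∧ Hang g true t})
      (B := fun p => p.1 ∈ Brd (T + 1) ∧ p.2 ∈ SSt (T + 1) ∧ Dj p.1 p.2) 4
      (fun p => ((rev p.1).map not, true :: false :: p.2.map not)) ?_ ?_ ?_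
    · rintro g hg t ⟨ht, hh⟩
      refine ⟨Brd_not (Brd_rev hg), SSt_step false ?_, ?_⟩
      · refine ⟨?_, ?_⟩
        · intro i h1 h2
          have h2' : i ≤ t.length := by simpa using h2
          rw [mem_St, lev_not t (by omega)]
          exact mem_St.1 (ht.mem i h1 h2')
        · intro i k h1 h2 h3
          have h2' : k ≤ t.length := by simpa using h2
          have h3' : vx oo up (t.map not) i = vx oo up (t.map not) k := h3
          rw [vx_not t (by omega), vx_not t (by omega), Prod.mk.injEq] at h3'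
          replace h3 := h3'
          apply ht.inj i k h1 h2'
          ext
          · linarith [h3.1]
          · linarith [h3.1, h3.2]
      · have h1 : Dj (false :: true :: t) (rev g) := hh
        have h2 := Dj_not h1
        exact h2
    · rintro ⟨a, t⟩ ⟨a', t'⟩ h
      simp only [Prod.mk.injEq, List.cons.injEq, true_and] at h
      obtain ⟨h1, h2⟩ := h
      have h3 := congrArg (fun l => rev (List.map not l)) h1
      simp only [map_not_not] at h3
      rw [rev_rev, rev_rev] at h3
      have h4 := congrArg (List.map not) h2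
      rw [map_not_not, map_not_not] at h4
      rw [h3, h4]
    · intro a t
      simp only
      rw [wE_map_not, wE_rev, mul_left_comm]
      gcongr
      have := wE_le_two true false (t.map not)
      rw [wE_map_not] at this
      exact this

/-- the increment is bounded by the adjacent pairs -/
theorem gf_SSt_succ_le (T : ℕ) : gf (SSt (T + 1)) ≤ gf (SSt T) + 64 * PT (T + 1) := by
  have h1 : gf (SSt (T + 1)) ≤ gf (SSt T) + (gf (HT (T + 1)) + (BT T + BT T)) := by
    refine (gf_mono (SSt_succ_sub T)).trans ((gf_union_le _ _).trans ?_)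
    gcongr
    refine (gf_union_le _ _).trans ?_
    gcongr
    refine (gf_union_le _ _).trans ?_
    exact add_le_add (gf_add_one T true) (gf_add_one T false)
  have h2 : gf (HT (T + 1)) ≤ 4 * BT (T + 1) + 32 * PT (T + 1) := by
    have h3 := gf_HT_le (P := Set.univ) (fun _ _ _ => trivial) (fun _ _ _ _ => trivial) (p := []) (Or.inl rfl)
      (T := T + 1) (by omega)
    rw [Set.inter_univ] at h3
    refine h3.trans ?_
    have h4 : ∑' g : {g : List Bool // g ∈ Brd (T + 1) ∧ g ∈ Set.univ}, wE g.1 * (4 + 4 * GH (T + 1 - 1) ([] ++ g.1)) ≤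
        ∑' g : {g : List Bool // g ∈ Brd (T + 1)}, wE g.1 * (4 + 4 * GH T g.1) := by
      let ψ : {g : List Bool // g ∈ Brd (T + 1) ∧ g ∈ Set.univ} → {g : List Bool // g ∈ Brd (T + 1)} :=
        fun g => ⟨g.1, g.2.1⟩
      have hψ : Function.Injective ψ := by
        rintro ⟨a, h⟩ ⟨a', h'⟩ h3
        have h4 : a = a' := congrArg Subtype.val h3
        subst h4
        rfl
      exact ENNReal.tsum_comp_le_tsum_of_injective hψ (fun g : {g : List Bool // g ∈ Brd (T + 1)} =>
        wE g.1 * (4 + 4 * GH T g.1))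
    refine h4.trans ?_
    have h5 : ∑' g : {g : List Bool // g ∈ Brd (T + 1)}, wE g.1 * (4 + 4 * GH T g.1) =
        4 * BT (T + 1) + 4 * (∑' g : {g : List Bool // g ∈ Brd (T + 1)}, wE g.1 * gf {t | t ∈ SSt T ∧ Hang g.1 true t} +
          ∑' g : {g : List Bool // g ∈ Brd (T + 1)}, wE g.1 * gf {t | t ∈ SSt T ∧ Hang g.1 false t}) := by
      rw [← ENNReal.tsum_add, ← ENNReal.tsum_mul_left, ← gf_Brd]
      unfold gf
      rw [← ENNReal.tsum_mul_left]
      rw [← ENNReal.tsum_add]
      apply tsum_congr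
      intro g
      unfold GH gf
      ring
    rw [h5]
    have h6 := hang_PT T true
    have h7 := hang_PT T false
    calc 4 * BT (T + 1) + 4 * (_ + _) ≤ 4 * BT (T + 1) + 4 * (4 * PT (T + 1) + 4 * PT (T + 1)) := by gcongr
      _ = 4 * BT (T + 1) + 32 * PT (T + 1) := by ring
  have h3 := BT_le_succ T
  have h4 := BT_le_PT (T + 1)
  calc gf (SSt (T + 1)) ≤ gf (SSt T) + (gf (HT (T + 1)) + (BT T + BT T)) := h1
    _ ≤ gf (SSt T) + ((4 * PT (T + 1) + 32 * PT (T + 1)) + (4 * PT (T + 1) + 4 * PT (T + 1))) := by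
        have h5 : BT T ≤ 4 * PT (T + 1) := h3.trans (by gcongr)
        have h6 : gf (HT (T + 1)) ≤ 4 * PT (T + 1) + 32 * PT (T + 1) := h2.trans (by gcongr)
        gcongr
    _ = gf (SSt T) + 44 * PT (T + 1) := by ring
    _ ≤ gf (SSt T) + 64 * PT (T + 1) := by
        gcongr
        norm_num

end HexObs
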