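import Pool.Agent.PHW.WallStrong
import Pool.Agent.PHW.Order

/-!
Pairs of bridges of equal height: the distance of the ends.
-/

set_option autoImplicit false

namespace HexObs

open Complex Finset ENNReal

open Ex (BrE overE P2E)

namespace EqTop

/-- points at horizontal position at most c -/
def Wl (c : ℤ) : Set Pt := {v | -(cross up (v - oo)) ≤ c}

lemma tip0_mem {a : ℕ} {s : List Bool} (hs : s ∈ Brd a) (c : ℤ) : tip (foot oo up 0) up s ∈ Wl c ↔ latE s ≤ c := by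
  have h3 := (mem_Brd.1 hs).2.2.1
  have e : tip (foot oo up 0) up s = vx (foot oo up 0) up s s.length + up := by
    rw [tip_eq, h3]
  have e2 : cross up (tip (foot oo up 0) up s - oo) = cross up (vx (foot oo up 0) up s s.length - oo) := by
    rw [e]
    simp only [cross, up, Prod.fst_add, Prod.snd_add, Prod.fst_sub, Prod.snd_sub]
    ring
  unfold Wl latE
  rw [Set.mem_ofPred_eq, e2, Wall.pos0]

lemma tip1_mem {a : ℕ} {s : List Bool} (hs : s ∈ Brd a) (c : ℤ) : tip (foot oo up 1) up s ∈ Wl c ↔ latE s + 2 ≤ c := by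
  have h3 := (mem_Brd.1 hs).2.2.1
  have e : tip (foot oo up 1) up s = vx (foot oo up 1) up s s.length + up := by
    rw [tip_eq, h3]
  have e2 : cross up (tip (foot oo up 1) up s - oo) = cross up (vx (foot oo up 1) up s s.length - oo) := by
    rw [e]
    simp only [cross, up, Prod.fst_add, Prod.snd_add, Prod.fst_sub, Prod.snd_sub]
    ring
  unfold Wl latE
  rw [Set.mem_ofPred_eq, e2, Wall.pos1]

lemma brE0 (a : ℕ) (c : ℤ) : BrE (St a) ∅ (foot oo up 0) up (Wl c) = {t | t ∈ Brd a ∧ latE t ≤ c} := by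
  ext t
  unfold BrE
  simp only [Set.mem_ofPred_eq]
  rw [GGaux.br_foot]
  constructor
  · rintro ⟨h1, h2⟩
    exact ⟨h1, (tip0_mem h1 c).1 h2⟩
  · rintro ⟨h1, h2⟩
    exact ⟨h1, (tip0_mem h1 c).2 h2⟩

lemma brE1 (a : ℕ) (c : ℤ) : BrE (St a) ∅ (foot oo up 1) up (Wl c) = {t | t ∈ Brd a ∧ latE t + 2 ≤ c} := by
  ext t
  unfold BrE
  simp only [Set.mem_ofPred_eq]
  rw [GGaux.br_foot]
  constructor
  · rintro ⟨h1, h2⟩
    exact ⟨h1, (tip1_mem h1 c).1 h2⟩
  · rintro ⟨h1, h2⟩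
    exact ⟨h1, (tip1_mem h1 c).2 h2⟩

/-- pairs with the position of the left end -/
lemma pair_left {a : ℕ} (ha : 1 ≤ a) (c : ℤ) :
    g2 (Brd a) (Brd a) (fun s t => Dj s t ∧ latE s ≤ c) ≤ P2E (St a) oo up 0 (Wl c) 1 Set.univ ∅ := by
  have _ := ha
  rw [g2_left]
  have h2 := tsum_subtype (Brd a) (fun s : List Bool => wE s * gf {t | t ∈ Brd a ∧ (Dj s t ∧ latE s ≤ c)})
  refine (le_of_eq h2).trans ?_
  unfold P2E overE
  apply ENNReal.tsum_le_tsum
  intro s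
  by_cases hs : s ∈ Brd a
  · rw [Set.indicator_of_mem hs]
    by_cases hc : latE s ≤ c
    · have hm : s ∈ BrE (St a) ∅ (foot oo up 0) up (Wl c) := by
        rw [brE0]
        exact ⟨hs, hc⟩
      rw [Set.indicator_of_mem hm]
      apply mul_le_mul_right
      apply gf_mono
      rintro t ⟨h3, h4, _⟩
      rw [Ex.brE_univ, Set.empty_union, mem_br, GGaux.br_foot]
      exact ⟨h3, h4⟩
    · have : {t | t ∈ Brd a ∧ (Dj s t ∧ latE s ≤ c)} = ∅ := by
        ext t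
        simp only [Set.mem_ofPred_eq, Set.mem_empty_iff_false, iff_false]
        rintro ⟨_, _, h⟩
        exact hc h
      rw [this]
      have h0 : gf (∅ : Set (List Bool)) = 0 := by
        unfold gf
        simp
      rw [h0, mul_zero]
      exact zero_le
  · rw [Set.indicator_of_notMem hs]
    exact zero_le

/-- pairs with the position of the right end -/
lemma pair_right {a : ℕ} (ha : 1 ≤ a) (c : ℤ) :
    P2E (St a) oo up 0 Set.univ 1 (Wl c) ∅ ≤ g2 (Brd a) (Brd a) (fun s t => Dj s t ∧ latE t + 2 ≤ c) := by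
  have _ := ha
  rw [g2_left]
  have h2 := tsum_subtype (Brd a) (fun s : List Bool => wE s * gf {t | t ∈ Brd a ∧ (Dj s t ∧ latE t + 2 ≤ c)})
  refine le_trans ?_ (le_of_eq h2.symm)
  unfold P2E overE
  apply ENNReal.tsum_le_tsum
  intro s
  rw [Ex.brE_univ, GGaux.br_foot]
  by_cases hs : s ∈ Brd a
  · rw [Set.indicator_of_mem hs, Set.indicator_of_mem hs]
    apply mul_le_mul_right
    apply gf_mono
    rintro t ⟨h3, h4⟩
    rw [Set.empty_union, mem_br, GGaux.br_foot] at h3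
    exact ⟨h3.1, h3.2, (tip1_mem h3.1 c).1 h4⟩
  · rw [Set.indicator_of_notMem hs]
    exact zero_le

lemma split_le {a : ℕ} (ha : 1 ≤ a) (c : ℤ) :
    g2 (Brd a) (Brd a) (fun s t => Dj s t ∧ latE s ≤ c ∧ c < latE t + 2) +
      g2 (Brd a) (Brd a) (fun s t => Dj s t ∧ latE t + 2 ≤ c) ≤
    g2 (Brd a) (Brd a) (fun s t => Dj s t ∧ latE s ≤ c) := by
  classical
  rw [g2_ind, g2_ind, g2_ind, ← ENNReal.tsum_add]
  apply ENNReal.tsum_le_tsum
  intro s
  rw [← ENNReal.tsum_add]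
  apply ENNReal.tsum_le_tsum
  intro t
  by_cases h : s ∈ Brd a ∧ t ∈ Brd a ∧ Dj s t
  · obtain ⟨h1, h2, h3⟩ := h
    have ho := Dj_order ha h1 h2 h3
    by_cases h4 : latE t + 2 ≤ c
    · rw [if_neg (by rintro ⟨_, _, _, _, h5⟩; omega), if_pos ⟨h1, h2, h3, h4⟩, if_pos ⟨h1, h2, h3, by omega⟩, zero_add]
    · rw [if_neg (by rintro ⟨_, _, _, h5⟩; exact h4 h5) (c := s ∈ Brd a ∧ t ∈ Brd a ∧ Dj s t ∧ latE t + 2 ≤ c), add_zero]
      by_cases h5 : latE s ≤ c
      · rw [if_pos ⟨h1, h2, h3, h5, by omega⟩, if_pos ⟨h1, h2, h3, h5⟩]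
      · rw [if_neg (by rintro ⟨_, _, _, h6, _⟩; exact h5 h6)]
        exact zero_le
  · rw [if_neg (by rintro ⟨h1, h2, h3, _⟩; exact h ⟨h1, h2, h3⟩), if_neg (by rintro ⟨h1, h2, h3, _⟩; exact h ⟨h1, h2, h3⟩)
      (c := s ∈ Brd a ∧ t ∈ Brd a ∧ Dj s t ∧ latE t + 2 ≤ c)]
    simp

lemma X_le {a : ℕ} (ha : 1 ≤ a) (c : ℤ) :
    g2 (Brd a) (Brd a) (fun s t => Dj s t ∧ latE s ≤ c ∧ c < latE t + 2) ≤
      gf {t | t ∈ Brd a ∧ c - 2 < latE t ∧ latE t ≤ c} := by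
  have hsep := Ex.SEP ha (Wl c)
  have t0 := Ex.gf_BrE_ne_top ha 0 (Wl c) ∅
  have t1 := Ex.gf_BrE_ne_top ha 1 (Wl c) ∅
  have t01 := Ex.P2E_ne_top ha 0 1 Set.univ (Wl c) ∅
  have t10 := Ex.P2E_ne_top ha 0 1 (Wl c) Set.univ ∅
  have h1 : gf (BrE (St a) ∅ (foot oo up 1) up (Wl c)) + P2E (St a) oo up 0 (Wl c) 1 Set.univ ∅ ≤
      gf (BrE (St a) ∅ (foot oo up 0) up (Wl c)) + P2E (St a) oo up 0 Set.univ 1 (Wl c) ∅ := by
    rw [← ENNReal.toReal_le_toReal (ENNReal.add_ne_top.2 ⟨t1, t10⟩) (ENNReal.add_ne_top.2 ⟨t0, t01⟩),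
      ENNReal.toReal_add t1 t10, ENNReal.toReal_add t0 t01]
    linarith
  set X := g2 (Brd a) (Brd a) (fun s t => Dj s t ∧ latE s ≤ c ∧ c < latE t + 2) with hX
  set B := g2 (Brd a) (Brd a) (fun s t => Dj s t ∧ latE t + 2 ≤ c) with hB
  set D := gf {t | t ∈ Brd a ∧ c - 2 < latE t ∧ latE t ≤ c} with hD
  have h2 : X + B ≤ P2E (St a) oo up 0 (Wl c) 1 Set.univ ∅ := (split_le ha c).trans (pair_left ha c)
  have h3 : P2E (St a) oo up 0 Set.univ 1 (Wl c) ∅ ≤ B := pair_right ha c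
  have h4 : gf (BrE (St a) ∅ (foot oo up 0) up (Wl c)) ≤ gf (BrE (St a) ∅ (foot oo up 1) up (Wl c)) + D := by
    rw [brE0, brE1]
    refine le_trans (gf_mono ?_) (gf_union_le _ _)
    rintro t ⟨h5, h6⟩
    by_cases h7 : latE t + 2 ≤ c
    · exact Or.inl ⟨h5, h7⟩
    · exact Or.inr ⟨h5, by omega, h6⟩
  have hBt : B ≠ ∞ := ne_top_of_le_ne_top t10 (le_trans le_add_self h2)
  have h5 : gf (BrE (St a) ∅ (foot oo up 1) up (Wl c)) + B + X ≤ gf (BrE (St a) ∅ (foot oo up 1) up (Wl c)) + B + D := by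
    calc gf (BrE (St a) ∅ (foot oo up 1) up (Wl c)) + B + X
        = gf (BrE (St a) ∅ (foot oo up 1) up (Wl c)) + (X + B) := by ring
      _ ≤ gf (BrE (St a) ∅ (foot oo up 1) up (Wl c)) + P2E (St a) oo up 0 (Wl c) 1 Set.univ ∅ := by gcongr
      _ ≤ gf (BrE (St a) ∅ (foot oo up 0) up (Wl c)) + P2E (St a) oo up 0 Set.univ 1 (Wl c) ∅ := h1
      _ ≤ gf (BrE (St a) ∅ (foot oo up 1) up (Wl c)) + D + B := add_le_add h4 h3
      _ = gf (BrE (St a) ∅ (foot oo up 1) up (Wl c)) + B + D := by ring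
  exact (ENNReal.add_le_add_iff_left (ENNReal.add_ne_top.2 ⟨t1, hBt⟩)).1 h5

lemma sum_D (a : ℕ) : ∑' c : ℤ, gf {t | t ∈ Brd a ∧ c - 2 < latE t ∧ latE t ≤ c} ≤ 2 * BT a := by
  classical
  rw [← gf_Brd, gf_ind, ← ENNReal.tsum_mul_left]
  simp_rw [gf_ind]
  rw [ENNReal.tsum_comm]
  apply ENNReal.tsum_le_tsum
  intro t
  rw [tsum_eq_sum (s := {latE t, latE t + 1})]
  · rw [Finset.sum_pair (by omega)]
    by_cases ht : t ∈ Brd a
    · rw [if_pos ht, two_mul]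
      apply add_le_add
      · split_ifs
        · exact le_refl _
        · exact zero_le
      · split_ifs
        · exact le_refl _
        · exact zero_le
    · rw [if_neg (fun h => ht h.1), if_neg (fun h => ht h.1)]
      simp
  · intro c hc
    rw [Finset.mem_insert, Finset.mem_singleton, not_or] at hc
    rw [if_neg]
    rintro ⟨_, h1, h2⟩
    omega

end EqTop

/-- comparison of two sums over shifts. -/
lemma g2_tsum_le {A B : Set (List Bool)} {R : ℕ → List Bool → List Bool → Prop}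
    {S : ℤ → List Bool → List Bool → Prop} (φ : List Bool → ℕ → ℤ) (hφ : ∀ s, Function.Injective (φ s))
    (h : ∀ G s t, s ∈ A → t ∈ B → R G s t → S (φ s G) s t) :
    ∑' G : ℕ, g2 A B (R G) ≤ ∑' c : ℤ, g2 A B (S c) := by
  classical
  simp_rw [g2_ind]
  rw [ENNReal.tsum_comm, ENNReal.tsum_comm (α := ℤ) (β := List Bool)]
  apply ENNReal.tsum_le_tsum
  intro s
  rw [ENNReal.tsum_comm, ENNReal.tsum_comm (α := ℤ) (β := List Bool)]
  apply ENNReal.tsum_le_tsum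
  intro t
  refine le_trans ?_ (ENNReal.tsum_comp_le_tsum_of_injective (hφ s) _)
  apply ENNReal.tsum_le_tsum
  intro G
  by_cases h1 : s ∈ A ∧ t ∈ B ∧ R G s t
  · rw [if_pos h1, if_pos ⟨h1.1, h1.2.1, h G s t h1.1 h1.2.1 h1.2.2⟩]
  · rw [if_neg h1]
    exact zero_le

/-- PAIRS OF EQUAL HEIGHT: the sum over all G of the pairs whose ends have distance at least G + 1. -/
theorem EQ_strong {a : ℕ} (ha : 1 ≤ a) :
    ∑' G : ℕ, g2 (Brd a) (Brd a) (fun s t => Dj s t ∧ latE s + (G + 1) ≤ latE t + 2) ≤ 2 * BT a := by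
  refine le_trans ?_ ((ENNReal.tsum_le_tsum (fun c => EqTop.X_le ha c)).trans (EqTop.sum_D a))
  refine g2_tsum_le (fun s G => latE s + (G : ℤ)) (fun s x y h => by simpa using h) ?_
  rintro G s t _ _ ⟨h3, h4⟩
  exact ⟨h3, by omega, by omega⟩

end HexObs
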