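import Pool.Agent.PHW.DefsF
import Pool.Agent.PHW.JumpV
import Pool.Agent.PHW.Num2

/-!
PHW section S6 (fold lemma): sums over pairs of walks.
-/

set_option autoImplicit false

namespace HexObs

open Complex Finset ENNReal

namespace Fld

/-- weight of a set of pairs -/
noncomputable def W2 (G : Set (List Bool × List Bool)) : ℝ≥0∞ :=
  ∑' p : {p : List Bool × List Bool // p ∈ G}, wE p.1.1 * wE p.1.2

theorem g2_eq_W2 (A B : Set (List Bool)) (R : List Bool → List Bool → Prop) :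
    g2 A B R = W2 {p | p.1 ∈ A ∧ p.2 ∈ B ∧ R p.1 p.2} := rfl

lemma W2_mono {G G' : Set (List Bool × List Bool)} (h : G ⊆ G') : W2 G ≤ W2 G' :=
  ENNReal.tsum_mono_subtype (fun p : List Bool × List Bool => wE p.1 * wE p.2) h

/-- sums of a function over a union -/
lemma tsum_iUnion_le {α ι : Type*} (F : α → ℝ≥0∞) (G : ι → Set α) {S : Set α} (h : ∀ p ∈ S, ∃ i, p ∈ G i) :
    ∑' p : {p : α // p ∈ S}, F p.1 ≤ ∑' i, ∑' p : {p : α // p ∈ G i}, F p.1 := by
  classical
  rw [← ENNReal.tsum_sigma' (f := fun q : (Σ i, {p : α // p ∈ G i}) => F q.2.1)]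
  choose f hf using h
  let ψ : {p : α // p ∈ S} → (Σ i, {p : α // p ∈ G i}) := fun p => ⟨f p.1 p.2, ⟨p.1, hf p.1 p.2⟩⟩
  have hψ : Function.Injective ψ := by
    intro p q hpq
    have h1 : (ψ p).2.1 = (ψ q).2.1 := by rw [hpq]
    exact Subtype.ext h1
  exact ENNReal.tsum_comp_le_tsum_of_injective hψ (fun q : (Σ i, {p : α // p ∈ G i}) => F q.2.1)

/-- dependent product decomposition of both walks -/
lemma W2_dep {G S : Set (List Bool × List Bool)} {R : List Bool × List Bool → Set (List Bool × List Bool)}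
    (h : ∀ p ∈ G, ∃ q ∈ S, ∃ r ∈ R q, p = (q.1 ++ r.1, q.2 ++ r.2)) :
    W2 G ≤ ∑' q : {q : List Bool × List Bool // q ∈ S}, wE q.1.1 * wE q.1.2 * W2 (R q.1) := by
  classical
  unfold W2
  choose f hf g hg hfg using h
  have e : ∑' q : {q : List Bool × List Bool // q ∈ S}, wE q.1.1 * wE q.1.2 *
      ∑' p : {p : List Bool × List Bool // p ∈ R q.1}, wE p.1.1 * wE p.1.2 =
      ∑' q : (Σ q : {q : List Bool × List Bool // q ∈ S}, {p : List Bool × List Bool // p ∈ R q.1}),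
        wE q.1.1.1 * wE q.1.1.2 * (wE q.2.1.1 * wE q.2.1.2) := by
    rw [ENNReal.tsum_sigma' (f := fun q : (Σ q : {q : List Bool × List Bool // q ∈ S},
      {p : List Bool × List Bool // p ∈ R q.1}) => wE q.1.1.1 * wE q.1.1.2 * (wE q.2.1.1 * wE q.2.1.2))]
    exact tsum_congr fun q => ENNReal.tsum_mul_left.symm
  rw [e]
  let ψ : {p : List Bool × List Bool // p ∈ G} →
      (Σ q : {q : List Bool × List Bool // q ∈ S}, {p : List Bool × List Bool // p ∈ R q.1}) :=
    fun p => ⟨⟨f p.1 p.2, hf p.1 p.2⟩, ⟨g p.1 p.2, hg p.1 p.2⟩⟩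
  have hψ : Function.Injective ψ := by
    intro p q hpq
    have h1 : (ψ p).1.1 = (ψ q).1.1 := by rw [hpq]
    have h2 : (ψ p).2.1 = (ψ q).2.1 := by rw [hpq]
    apply Subtype.ext
    have h3 : f p.1 p.2 = f q.1 q.2 := h1
    have h4 : g p.1 p.2 = g q.1 q.2 := h2
    rw [hfg p.1 p.2, hfg q.1 q.2, h3, h4]
  refine le_trans (le_of_eq (tsum_congr fun p => ?_)) (ENNReal.tsum_comp_le_tsum_of_injective hψ
    (fun q : (Σ q : {q : List Bool × List Bool // q ∈ S}, {p : List Bool × List Bool // p ∈ R q.1}) =>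
      wE q.1.1.1 * wE q.1.1.2 * (wE q.2.1.1 * wE q.2.1.2)))
  show wE p.1.1 * wE p.1.2 = wE (f p.1 p.2).1 * wE (f p.1 p.2).2 * (wE (g p.1 p.2).1 * wE (g p.1 p.2).2)
  have h5 := hfg p.1 p.2
  have h6 : p.1.1 = (f p.1 p.2).1 ++ (g p.1 p.2).1 := congrArg Prod.fst h5
  have h7 : p.1.2 = (f p.1 p.2).2 ++ (g p.1 p.2).2 := congrArg Prod.snd h5
  rw [h6, h7, wE_append, wE_append]
  ring

/-- weight of a product set -/
lemma W2_prod_le {G : Set (List Bool × List Bool)} {A B : Set (List Bool)} (h : ∀ p ∈ G, p.1 ∈ A ∧ p.2 ∈ B) :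
    W2 G ≤ gf A * gf B := by
  classical
  have h1 : W2 G ≤ W2 {p | p.1 ∈ A ∧ p.2 ∈ B} := W2_mono h
  refine h1.trans (le_of_eq ?_)
  have h2 : W2 {p | p.1 ∈ A ∧ p.2 ∈ B} = g2 A B (fun _ _ => True) := by
    rw [g2_eq_W2]
    simp only [and_true]
  rw [h2, g2_left]
  simp only [and_true, Set.ofPred_mem_eq]
  rw [ENNReal.tsum_mul_right]
  rfl

/-- only the right walk is decomposed -/
lemma W2_dep1 {G S : Set (List Bool × List Bool)} {R : List Bool × List Bool → Set (List Bool)}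
    (h : ∀ p ∈ G, ∃ q ∈ S, ∃ u ∈ R q, p = (q.1, q.2 ++ u)) :
    W2 G ≤ ∑' q : {q : List Bool × List Bool // q ∈ S}, wE q.1.1 * wE q.1.2 * gf (R q.1) := by
  refine (W2_dep (S := S) (R := fun q => {r | r.1 = [] ∧ r.2 ∈ R q}) fun p hp => ?_).trans ?_
  · obtain ⟨q, hq, u, hu, hpq⟩ := h p hp
    exact ⟨q, hq, ([], u), ⟨rfl, hu⟩, by rw [hpq]; simp⟩
  · refine ENNReal.tsum_le_tsum fun q => ?_
    gcongr
    refine (W2_prod_le (A := {[]}) (B := R q.1) fun p hp => ⟨hp.1, hp.2⟩).trans ?_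
    rw [JumpVaux.gf_nil, one_mul]

/-- sums of the bridge weights over an interval of heights -/
lemma sum_uu_interval (c v l : ℕ) :
    ∑ x ∈ (Finset.Ico v (v + l)).filter (fun x => c ≤ x), uu (x - c) ≤ UU l := by
  classical
  have h1 : ∀ x ∈ (Finset.Ico v (v + l)).filter (fun x => c ≤ x), uu (x - c) ≤ uu (x - max v c) := by
    intro x _
    exact uu_anti (by omega)
  refine (Finset.sum_le_sum h1).trans ?_
  have h2 : ∑ x ∈ (Finset.Ico v (v + l)).filter (fun x => c ≤ x), uu (x - max v c) =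
      ∑ i ∈ ((Finset.Ico v (v + l)).filter (fun x => c ≤ x)).image (fun x => x - max v c), uu i := by
    rw [Finset.sum_image]
    intro x hx y hy hxy
    simp only [Finset.coe_filter, Set.mem_ofPred_eq, Finset.mem_Ico] at hx hy
    have hxy' : x - max v c = y - max v c := hxy
    omega
  rw [h2]
  unfold UU
  apply Finset.sum_le_sum_of_subset_of_nonneg
  · intro i hi
    rw [Finset.mem_image] at hi
    obtain ⟨x, hx, rfl⟩ := hi
    rw [Finset.mem_filter, Finset.mem_Ico] at hx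
    rw [Finset.mem_range]
    omega
  · intro i _ _
    exact (uu_pos i).le

end Fld

end HexObs
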