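import Pool.Agent.PHW.PlanF
import Pool.Agent.PHW.SumF

/-!
PHW section S6 (fold lemma): killing of the fresh leg for one state.
-/

set_option autoImplicit false

namespace HexObs

open Complex Finset ENNReal

namespace Fld

/-- nonflat scales are killing scales -/
lemma card_rows {P : List Bool} {m A k : ℕ} (hm : m ≤ P.length) (hk : 1 ≤ k)
    (hf : ¬ Wall.Flat 8 A ((P.take m).map not) k) :
    (1 / 8 : ℝ) * 2 ^ k ≤ (Ex.rowsL (KB P m) A (2 ^ k)).card := by
  classical
  unfold Wall.Flat at hf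
  have h1 : 2 ^ k ≤ 8 * Wall.nvis ((P.take m).map not) k (A * 2 ^ k) := not_lt.1 hf
  have h2 : Wall.nvis ((P.take m).map not) k (A * 2 ^ k) ≤ (Ex.rowsL (KB P m) A (2 ^ k)).card := by
    unfold Wall.nvis Ex.rowsL
    apply Finset.card_le_card
    intro y hy
    rw [Finset.mem_filter, Finset.mem_Ioc] at hy
    obtain ⟨⟨y1, y2⟩, y3⟩ := hy
    rw [Finset.mem_filter, Finset.mem_Icc]
    obtain ⟨k', rfl⟩ : ∃ k', k = k' + 1 := ⟨k - 1, by omega⟩
    have e1 : 2 ^ (k' + 1) / 2 = 2 ^ k' := by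
      rw [pow_succ]
      omega
    refine ⟨⟨by rw [e1]; simpa using y1, y2⟩, ?_⟩
    intro z hz
    unfold Wall.Clr at y3
    push Not at y3
    obtain ⟨i, i1, i2, i3⟩ := y3
    rw [List.length_map, List.length_take] at i1
    have i4 : i ≤ m := by omega
    have e2 : lev ((P.take m).map not) i = lev P i := by
      rw [lev_not _ (by rw [List.length_take]; omega)]
      have h3 := lev_append (s := P.take m) (t := P.drop m) (i := i) (by rw [List.length_take]; omega)
      rw [List.take_append_drop] at h3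
      exact h3.symm
    have e3 : lat ((P.take m).map not) i = -lat P i := by
      rw [lat_not _ (by rw [List.length_take]; omega)]
      have h3 := lat_append (s := P.take m) (t := P.drop m) (i := i) (by rw [List.length_take]; omega)
      rw [List.take_append_drop] at h3
      rw [h3]
    rw [e2] at i2
    rw [e3] at i3
    refine ⟨i, ?_, i4, i2, ?_⟩
    · rcases Nat.eq_zero_or_pos i with h0 | h0
      · exfalso
        rw [h0, lev_zero] at i2
        have : 1 ≤ y := Nat.one_le_of_lt y1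
        omega
      · exact h0
    · push_cast at hz i3
      linarith
  have h3 : 2 ^ k ≤ 8 * (Ex.rowsL (KB P m) A (2 ^ k)).card := h1.trans (by omega)
  have h4 : (2 : ℝ) ^ k ≤ 8 * ((Ex.rowsL (KB P m) A (2 ^ k)).card : ℝ) := by exact_mod_cast h3
  linarith

/-- output of the section on killing, for the density 1 / 8 -/
def KillL (A : ℕ) (ε C : ℝ) : Prop := ∀ (K : ℕ → ℤ → Prop) (f : ℕ) (x : ℤ) (i n : ℕ) (H : Finset ℕ),
  f ≤ 2 ^ i → x.natAbs ≤ 2 ^ i →
    (∀ k ∈ H, i < k ∧ 2 ^ k ≤ f + n ∧ (1 / 8 : ℝ) * 2 ^ k ≤ (Ex.rowsL K A (2 ^ k)).card) →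
    gf {N | N ∈ Brd n ∧ ¬ Ex.DeadL K f x N} ≤ ENNReal.ofReal (C * (1 - ε) ^ H.card * uu n)

theorem killL_ex (A : ℕ) : ∃ ε C : ℝ, 0 < ε ∧ ε < 1 ∧ 0 < C ∧ KillL A ε C :=
  Ex.killL A (by norm_num : (0 : ℝ) < 1 / 8)

/-- the killing rate may be decreased -/
lemma KillL.mono {A : ℕ} {ε ε' C : ℝ} (hC : 0 < C) (h : KillL A ε C) (h1 : ε' ≤ ε) (h2 : ε < 1) : KillL A ε' C := by
  intro K f x i n H hf hx hH
  refine (h K f x i n H hf hx hH).trans (ENNReal.ofReal_le_ofReal ?_)
  have h3 : (1 - ε) ^ H.card ≤ (1 - ε') ^ H.card := pow_le_pow_left₀ (by linarith) (by linarith) _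
  have h4 := uu_pos n
  have h5 : C * (1 - ε) ^ H.card ≤ C * (1 - ε') ^ H.card := mul_le_mul_of_nonneg_left h3 hC.le
  exact mul_le_mul_of_nonneg_right h5 h4.le

/-- the fresh leg beside the barrier, for one state -/
theorem kill_one {A : ℕ} {ε C : ℝ} (hK : KillL A ε C) {P : List Bool} {m y c i n B : ℕ} {s t1 : List Bool}
    (hm : m ≤ P.length) (hs : s ∈ Brd y) (ht1 : t1 ∈ Brd c) (hf : c - y ≤ 2 ^ i)
    (ho : (latE t1 + 2 - latE s).natAbs ≤ 2 ^ i) (hB : ∀ k, i < k → k ≤ B → 2 ^ k ≤ c - y + n) :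
    gf {t2 | t2 ∈ Brd n ∧ Bes P m s t1 t2} ≤
      ENNReal.ofReal (C * (1 - ε) ^ nfl A ((P.take m).map not) i B * uu n) := by
  classical
  refine le_trans (gf_mono ?_) (hK (KB P m) (c - y) (latE t1 + 2 - latE s) i n
    ((Finset.Ioc i B).filter (fun k => ¬ Wall.Flat 8 A ((P.take m).map not) k)) hf ho ?_)
  · rintro t2 ⟨h1, h2⟩
    exact ⟨h1, not_dead_of_Bes hs ht1 h2⟩
  · intro k hk
    rw [Finset.mem_filter, Finset.mem_Ioc] at hk
    exact ⟨hk.1.1, hB k hk.1.1 hk.1.2, card_rows hm (by omega) hk.2⟩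

/-- change of the interval of scales -/
lemma nfl_le (A : ℕ) (P : List Bool) (a b i B : ℕ) :
    nfl A P a b ≤ nfl A P i B + (i - a) + (b - B) := by
  classical
  unfold nfl
  have h1 : (Finset.Ioc a b).filter (fun k => ¬ Wall.Flat 8 A P k) ⊆
      (Finset.Ioc i B).filter (fun k => ¬ Wall.Flat 8 A P k) ∪ Finset.Ioc a i ∪ Finset.Ioc B b := by
    intro k hk
    rw [Finset.mem_filter, Finset.mem_Ioc] at hk
    rw [Finset.mem_union, Finset.mem_union, Finset.mem_filter, Finset.mem_Ioc, Finset.mem_Ioc, Finset.mem_Ioc]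
    rcases Nat.lt_or_ge i k with h | h
    · rcases Nat.lt_or_ge B k with h' | h'
      · right
        exact ⟨h', hk.1.2⟩
      · left
        left
        exact ⟨⟨h, h'⟩, hk.2⟩
    · left
      right
      exact ⟨hk.1.1, h⟩
  refine (Finset.card_le_card h1).trans ((Finset.card_union_le _ _).trans ?_)
  have h2 := Finset.card_union_le ((Finset.Ioc i B).filter (fun k => ¬ Wall.Flat 8 A P k)) (Finset.Ioc a i)
  rw [Nat.card_Ioc] at h2
  rw [Nat.card_Ioc]
  omega

end Fld

end HexObs
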