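import Pool.Agent.PHW.WallLim
import Pool.Agent.PHW.DefsQ

/-!
The wall inequality, summed over the position of the wall: pairs of bridges with a gap.
-/

set_option autoImplicit false

namespace HexObs

namespace Wall

open Complex Finset ENNReal

open Ex (BrE overE P2E)

/-- walkers from the foot 0 to the top of the strip that avoid the wall. -/
noncomputable def Wc (T t : ℕ) (c : ℤ) : ℝ≥0∞ := gf (BrE (ws oo up T t c) ∅ (foot oo up 0) up (ot oo up T))

/-- pairs (0 to the underside, 1 to the top). -/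
noncomputable def Pc (T t : ℕ) (c : ℤ) : ℝ≥0∞ :=
  P2E (ws oo up T t c) oo up 0 (wl oo up t c) 1 (ot oo up T) ∅

lemma wl_trans (v0 : Pt) {d0 : Pt} (h0 : d0 ∈ dirs) (t : ℕ) (c k : ℤ) :
    (fun p => p + k • hz d0) ⁻¹' (wl v0 d0 t c) = wl v0 d0 t (c - 2 * k) := by
  ext p
  unfold wl
  simp only [Set.mem_preimage, Set.mem_ofPred_eq]
  have e : p + k • hz d0 - v0 = (p - v0) + k • hz d0 := by abel
  have e3 : ip (p + k • hz d0 - v0) d0 = ip (p - v0) d0 := by
    rw [e, ip_add_left, ip_smul_left, t3_ip_hz, mul_zero, add_zero]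
  have e4 : cross d0 (p + k • hz d0 - v0) = cross d0 (p - v0) - 2 * k := by
    rw [e]
    have h1 := t3_cross_smul d0 (hz d0) k
    rw [t3_cross_hz h0] at h1
    have h2 : cross d0 ((p - v0) + k • hz d0) = cross d0 (p - v0) + cross d0 (k • hz d0) := by
      simp only [cross, Prod.fst_add, Prod.snd_add]
      ring
    rw [h2, h1]
    ring
  rw [e3, e4]
  constructor
  · rintro ⟨a, b⟩
    exact ⟨a, by linarith⟩
  · rintro ⟨a, b⟩
    exact ⟨a, by linarith⟩

lemma foot_one : foot oo up 1 = foot oo up 0 + (1 : ℤ) • hz up := by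
  rw [← HexW.foot_add]
  rfl

lemma ot_trans (v0 d0 : Pt) (T : ℕ) (k : ℤ) :
    (fun p => p + k • hz d0) ⁻¹' (ot v0 d0 T) = ot v0 d0 T := by
  ext p
  unfold ot
  simp only [Set.mem_preimage, Set.mem_ofPred_eq]
  have e : p + k • hz d0 - v0 = (p - v0) + k • hz d0 := by abel
  have e3 : ip (p + k • hz d0 - v0) d0 = ip (p - v0) d0 := by
    rw [e, ip_add_left, ip_smul_left, t3_ip_hz, mul_zero, add_zero]
  rw [e3]

lemma Wc_shift (T t : ℕ) (c : ℤ) :
    gf (BrE (ws oo up T t c) ∅ (foot oo up 1) up (ot oo up T)) = Wc T t (c - 2) := by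
  unfold Wc
  congr 1
  ext s
  have e1 : (fun p => p + (1 : ℤ) • hz up) ⁻¹' (ws oo up T t c) = ws oo up T t (c - 2) := by
    unfold ws
    rw [Set.preimage_sdiff, HexW.strip_trans, wl_trans oo upd]
    norm_num
  have h := HexW.Br_trans (ws oo up T t c) ∅ (foot oo up 0) ((1 : ℤ) • hz up) up
  rw [e1, Set.preimage_empty, ← foot_one] at h
  have e2 : tip (foot oo up 1) up s ∈ ot oo up T ↔ tip (foot oo up 0) up s ∈ ot oo up T := by
    rw [foot_one, HexW.tip_trans]
    have h3 := ot_trans oo up T 1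
    constructor
    · intro h4
      have : tip (foot oo up 0) up s ∈ (fun p => p + (1 : ℤ) • hz up) ⁻¹' (ot oo up T) := h4
      rwa [h3] at this
    · intro h4
      rw [← h3] at h4
      exact h4
  unfold BrE
  simp only [Set.mem_ofPred_eq]
  rw [h, e2]

lemma step_le {T t : ℕ} (ht : t < T) (c : ℤ) : Wc T t c + Pc T t c ≤ Wc T t (c - 2) := by
  rw [← Wc_shift]
  exact WI upd ht c

lemma Wc_le {T t : ℕ} (c : ℤ) : Wc T t c ≤ BT T := by
  have e0 : foot oo up 0 = oo := by
    unfold foot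
    simp
  unfold Wc
  rw [← gf_Brd, e0]
  apply gf_mono
  rintro s ⟨⟨a1, a2, a3⟩, a4⟩
  exact ⟨a1.mono (Set.sdiff_subset_sdiff_left Set.sdiff_subset), strip_not_ot a4, a3⟩

lemma range_le {T t : ℕ} (ht : t < T) (a : ℤ) (m : ℕ) :
    Wc T t (a + m - 2) + Wc T t (a + m - 1) + ∑ j ∈ Finset.range m, Pc T t (a + j) ≤
      Wc T t (a - 2) + Wc T t (a - 1) := by
  induction m with
  | zero => simp
  | succ m ih =>
    rw [Finset.sum_range_succ]
    refine le_trans ?_ ih
    have h := step_le ht (a + m)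
    have e1 : a + ((m + 1 : ℕ) : ℤ) - 2 = a + m - 1 := by
      push_cast
      ring
    have e2 : a + ((m + 1 : ℕ) : ℤ) - 1 = a + m := by
      push_cast
      ring
    rw [e1, e2]
    calc Wc T t (a + m - 1) + Wc T t (a + m) + (∑ j ∈ Finset.range m, Pc T t (a + j) + Pc T t (a + m))
        = Wc T t (a + m - 1) + ∑ j ∈ Finset.range m, Pc T t (a + j) + (Wc T t (a + m) + Pc T t (a + m)) := by ring
      _ ≤ Wc T t (a + m - 1) + ∑ j ∈ Finset.range m, Pc T t (a + j) + Wc T t (a + m - 2) := by gcongr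
      _ = Wc T t (a + m - 2) + Wc T t (a + m - 1) + ∑ j ∈ Finset.range m, Pc T t (a + j) := by ring

lemma tsum_Pc {T t : ℕ} (ht : t < T) : ∑' c : ℤ, Pc T t c ≤ 2 * BT T := by
  classical
  rw [ENNReal.tsum_eq_iSup_sum]
  apply iSup_le
  intro S
  obtain ⟨N, hN⟩ : ∃ N : ℕ, ∀ x ∈ S, -(N : ℤ) ≤ x ∧ x < N := by
    refine ⟨∑ x ∈ S, (x.natAbs + 1), fun x hx => ?_⟩
    have h1 : x.natAbs + 1 ≤ ∑ x ∈ S, (x.natAbs + 1) :=
      Finset.single_le_sum (f := fun x : ℤ => x.natAbs + 1) (fun _ _ => Nat.zero_le _) hx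
    omega
  have h2 := range_le ht (-(N : ℤ)) (2 * N)
  have h3 : ∑ c ∈ S, Pc T t c ≤ ∑ j ∈ Finset.range (2 * N), Pc T t (-(N : ℤ) + j) := by
    have hinj : Set.InjOn (fun j : ℕ => -(N : ℤ) + j) (Finset.range (2 * N)) := by
      intro x _ y _ h
      simp only at h
      omega
    rw [← Finset.sum_image (f := fun c : ℤ => Pc T t c) hinj]
    apply Finset.sum_le_sum_of_subset
    intro x hx
    rw [Finset.mem_image]
    obtain ⟨h4, h5⟩ := hN x hx
    exact ⟨(x + N).toNat, Finset.mem_range.2 (by omega), by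
      show -(N : ℤ) + ((x + N).toNat : ℤ) = x
      omega⟩
  calc ∑ c ∈ S, Pc T t c ≤ ∑ j ∈ Finset.range (2 * N), Pc T t (-(N : ℤ) + j) := h3
    _ ≤ Wc T t (-(N : ℤ) + ((2 * N : ℕ) : ℤ) - 2) + Wc T t (-(N : ℤ) + ((2 * N : ℕ) : ℤ) - 1) +
        ∑ j ∈ Finset.range (2 * N), Pc T t (-(N : ℤ) + j) := le_add_self
    _ ≤ Wc T t (-(N : ℤ) - 2) + Wc T t (-(N : ℤ) - 1) := h2
    _ ≤ BT T + BT T := add_le_add (Wc_le _) (Wc_le _)
    _ = 2 * BT T := (two_mul _).symm

/-- position of the vertices of the walks from the feet 0 and 1. -/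
lemma foot0 : foot oo up 0 = oo := by
  unfold foot
  simp

lemma pos0 (s : List Bool) (i : ℕ) : -(cross up (vx (foot oo up 0) up s i - oo)) = lat s i := by
  rw [foot0]
  unfold lat
  congr 2
  exact sub_zero _

lemma lev0 (s : List Bool) (i : ℕ) : ip (vx (foot oo up 0) up s i - oo) up = lev s i := by
  rw [foot0, lev_sub]

lemma vx_one (s : List Bool) (i : ℕ) : vx (foot oo up 1) up s i = vx oo up s i + (1 : ℤ) • hz up := by
  rw [foot_one, foot0, HexW.vx_trans]

lemma pos1 (s : List Bool) (i : ℕ) : -(cross up (vx (foot oo up 1) up s i - oo)) = lat s i + 2 := by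
  rw [vx_one]
  unfold lat
  have h1 : cross up ((1 : ℤ) • hz up) = -2 := by
    have h1 := t3_cross_smul up (hz up) 1
    rw [t3_cross_hz upd] at h1
    rw [h1]
    ring
  have h2 : cross up (vx oo up s i + (1 : ℤ) • hz up - oo) = cross up (vx oo up s i) + cross up ((1 : ℤ) • hz up) := by
    have : vx oo up s i + (1 : ℤ) • hz up - oo = vx oo up s i + (1 : ℤ) • hz up := sub_zero _
    rw [this]
    simp only [cross, Prod.fst_add, Prod.snd_add]
    ring
  rw [h2, h1]
  ring

lemma lev1 (s : List Bool) (i : ℕ) : ip (vx (foot oo up 1) up s i - oo) up = lev s i := by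
  rw [vx_one]
  have h : vx oo up s i + (1 : ℤ) • hz up - oo = (vx oo up s i - oo) + (1 : ℤ) • hz up := by abel
  rw [h, ip_add_left, ip_smul_left, t3_ip_hz, mul_zero, add_zero, lev_sub]

/-- the left bridge ends on the wall from below. -/
lemma left_mem {T t : ℕ} (ht : t < T) {c : ℤ} {s : List Bool} (hs : s ∈ Brd t) (hc : latE s ≤ c) :
    s ∈ BrE (ws oo up T t c) ∅ (foot oo up 0) up (wl oo up t c) := by
  have hs' := hs
  rw [mem_Brd] at hs'
  obtain ⟨h1, h2, h3, h4⟩ := hs'
  have htT : (t : ℤ) < T := by exact_mod_cast ht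
  have hlevt : lev s (s.length + 1) = 3 * t + 2 := by
    rw [lev_succ, h3, h4]
    have : ip up up = 2 := by decide
    omega
  have htip : tip (foot oo up 0) up s ∈ wl oo up t c := by
    refine ⟨Or.inl ?_, ?_⟩
    · have := lev0 s (s.length + 1)
      rw [hlevt] at this
      exact this
    · have e : tip (foot oo up 0) up s = vx (foot oo up 0) up s s.length + up := by
        rw [tip_eq, h3]
      have e2 : cross up (tip (foot oo up 0) up s - oo) = cross up (vx (foot oo up 0) up s s.length - oo) := by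
        rw [e]
        simp only [cross, up, Prod.fst_add, Prod.snd_add, Prod.fst_sub, Prod.snd_sub]
        ring
      rw [e2, pos0]
      exact hc
  refine ⟨⟨⟨?_, ?_⟩, ?_, h3⟩, htip⟩
  · intro i hi hl
    have hb := h1 i hi hl
    refine ⟨⟨⟨?_, ?_, ?_⟩, ?_⟩, fun h => h⟩
    · rw [foot0]
      exact vx_hex oo up s i
    · rw [lev0]
      exact hb.1
    · rw [lev0]
      omega
    · rintro ⟨h | h, _⟩ <;> rw [lev0] at h <;> omega
  · intro i k hik hk
    rw [foot0]
    exact h2 i k hik hk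
  · intro h
    exact h.2 htip

/-- the right bridge avoids the wall. -/
lemma right_mem {T t : ℕ} {c : ℤ} {s r : List Bool} (hr : r ∈ Brd T) (hd : Dj s r)
    (hc : ∀ i, InRow r t i → c < lat r i + 2) :
    r ∈ BrE (ws oo up T t c) (∅ ∪ vis (foot oo up 0) up s) (foot oo up 1) up (ot oo up T) := by
  have hr' := hr
  rw [mem_Brd] at hr'
  obtain ⟨h1, h2, h3, h4⟩ := hr'
  have hlevt : lev r (r.length + 1) = 3 * T + 2 := by
    rw [lev_succ, h3, h4]
    have : ip up up = 2 := by decide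
    omega
  have htip : tip (foot oo up 1) up r ∈ ot oo up T := by
    have := lev1 r (r.length + 1)
    rw [hlevt] at this
    exact this.ge
  refine ⟨⟨⟨?_, ?_⟩, ?_, h3⟩, htip⟩
  · intro i hi hl
    have hb := h1 i hi hl
    refine ⟨⟨⟨?_, ?_, ?_⟩, ?_⟩, ?_⟩
    · exact HexW.hex_foot oo up 1 r i
    · rw [lev1]
      exact hb.1
    · rw [lev1]
      omega
    · rintro ⟨h, h'⟩
      rw [lev1] at h
      rw [pos1] at h'
      have := hc i ⟨hl, h⟩
      omega
    · rw [Set.empty_union]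
      intro h
      exact Set.disjoint_left.1 hd h ⟨i, hi, hl, rfl⟩
  · intro i k hik hk
    rw [vx_one, vx_one]
    intro h
    exact h2 i k hik hk (add_right_cancel h)
  · intro h
    exact strip_not_ot htip h.1

lemma term_le {T t : ℕ} (ht : t < T) (c : ℤ) :
    ∑' s : {s : List Bool // s ∈ Brd t}, (if latE s.1 ≤ c then wE s.1 * gf {r | r ∈ Brd T ∧ Dj s.1 r ∧
      ∀ i, InRow r t i → c < lat r i + 2} else 0) ≤ Pc T t c := by
  have h2 := tsum_subtype (Brd t) (fun s : List Bool => (if latE s ≤ c then wE s * gf {r | r ∈ Brd T ∧ Dj s r ∧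
      ∀ i, InRow r t i → c < lat r i + 2} else 0))
  refine (le_of_eq h2).trans ?_
  unfold Pc P2E overE
  apply ENNReal.tsum_le_tsum
  intro s
  by_cases hs : s ∈ Brd t
  · rw [Set.indicator_of_mem hs]
    by_cases hc : latE s ≤ c
    · rw [if_pos hc, Set.indicator_of_mem (left_mem ht hs hc)]
      apply mul_le_mul_right
      apply gf_mono
      rintro r ⟨h3, h4, h5⟩
      exact right_mem h3 h4 h5
    · rw [if_neg hc]
      exact zero_le
  · rw [Set.indicator_of_notMem hs]
    exact zero_le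

/-- the sum over the position of the wall. -/
theorem gap_sum {T t : ℕ} (ht : t < T) (G : ℕ) :
    (G : ℝ≥0∞) * g2 (Brd t) (Brd T) (fun s r => Dj s r ∧ Gap s r t G) ≤ 2 * BT T := by
  refine le_trans ?_ (tsum_Pc ht)
  rw [g2_left, ← ENNReal.tsum_mul_left]
  calc ∑' s : {s : List Bool // s ∈ Brd t}, (G : ℝ≥0∞) * (wE s.1 * gf {r | r ∈ Brd T ∧ (Dj s.1 r ∧ Gap s.1 r t G)})
      ≤ ∑' s : {s : List Bool // s ∈ Brd t}, ∑' c : ℤ, (if latE s.1 ≤ c then wE s.1 * gf {r | r ∈ Brd T ∧ Dj s.1 r ∧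
          ∀ i, InRow r t i → c < lat r i + 2} else 0) := by
        apply ENNReal.tsum_le_tsum
        intro s
        refine le_trans ?_ (ENNReal.sum_le_tsum (Finset.Ico (latE s.1) (latE s.1 + G)))
        have h1 : (G : ℝ≥0∞) * (wE s.1 * gf {r | r ∈ Brd T ∧ (Dj s.1 r ∧ Gap s.1 r t G)}) =
            ∑ c ∈ Finset.Ico (latE s.1) (latE s.1 + G), wE s.1 * gf {r | r ∈ Brd T ∧ (Dj s.1 r ∧ Gap s.1 r t G)} := by
          rw [Finset.sum_const, Int.card_Ico, nsmul_eq_mul]
          congr 2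
          simp
        rw [h1]
        apply Finset.sum_le_sum
        intro c hc
        rw [Finset.mem_Ico] at hc
        rw [if_pos hc.1]
        apply mul_le_mul_right
        apply gf_mono
        rintro r ⟨h3, h4, h5⟩
        refine ⟨h3, h4, fun i hi => ?_⟩
        have := h5 i hi
        linarith [hc.2]
    _ = ∑' c : ℤ, ∑' s : {s : List Bool // s ∈ Brd t}, (if latE s.1 ≤ c then wE s.1 * gf {r | r ∈ Brd T ∧ Dj s.1 r ∧
          ∀ i, InRow r t i → c < lat r i + 2} else 0) := ENNReal.tsum_comm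
    _ ≤ ∑' c : ℤ, Pc T t c := ENNReal.tsum_le_tsum (fun c => term_le ht c)

end Wall

/-- THE WALL INEQUALITY for pairs of bridges: the lower bridge on the left, gap at least G at its end. -/
theorem WI {f c : ℕ} (h : f < c) {G : ℕ} (hG : 1 ≤ G) :
    g2 (Brd f) (Brd c) (fun s t => Dj s t ∧ Gap s t f G) ≤ ENNReal.ofReal (2 / G * uu c) := by
  have h1 := Wall.gap_sum h G
  have hc : 1 ≤ c := by omega
  have hG' : (0 : ℝ) < G := by exact_mod_cast hG
  have e : ENNReal.ofReal (2 / G * uu c) = 2 * BT c / G := by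
    have e1 : BT c = ENNReal.ofReal (uu c) := by
      unfold uu
      rw [ENNReal.ofReal_toReal (BT_ne_top hc)]
    rw [e1, show 2 / (G : ℝ) * uu c = 2 * uu c / G by ring, ENNReal.ofReal_div_of_pos hG',
      ENNReal.ofReal_mul (by norm_num)]
    simp
  rw [e, ENNReal.le_div_iff_mul_le (Or.inl (by exact_mod_cast (by omega : G ≠ 0))) (Or.inl (ENNReal.natCast_ne_top G)),
    mul_comm]
  exact h1

end HexObs
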