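import Pool.Agent.PHW.DefsQ
import Pool.Agent.PHW.ViaE
import Pool.Agent.PHW.WallSum
import Pool.Agent.PHW.Num3
import Pool.Agent.PHW.FirstCut
import Pool.Agent.PHW.Mirror
import Pool.Agent.PHW.PairsA

/-!
PHW, module QE0: the viable pairs of one block of heights. The pairs with a large gap at the top are bounded by the
wall identity (WI), the others are cut at the first cut of the left bridge at or above M (FC_dec); the end point of
the rest of the left bridge is close to the right bridge (near).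
-/

set_option autoImplicit false

namespace HexObs

open Complex Finset ENNReal

namespace NearBaux

/-- the first cut decomposition, one walk -/
lemma gf_FC_le {M y : ℕ} (hM : M ≤ y) (P : Set (List Bool)) :
    gf {s | s ∈ Brd y ∧ s ∈ P} ≤ ∑ j ∈ Finset.Icc M y, ∑' a : {a : List Bool // a ∈ FC M j},
      wE a.1 * gf {v | v ∈ Brd (y - j) ∧ a.1 ++ v ∈ P} := by
  classical
  have hdec : ∀ s : {s : List Bool | s ∈ Brd y ∧ s ∈ P}, ∃ p : ℕ × List Bool × List Bool,
      (M ≤ p.1 ∧ p.1 ≤ y) ∧ p.2.1 ∈ FC M p.1 ∧ p.2.2 ∈ Brd (y - p.1) ∧ s.1 = p.2.1 ++ p.2.2 := by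
    rintro ⟨s, hs, _⟩
    obtain ⟨j, a, u, h1, h2, h3, h4, h5⟩ := FC_dec hM hs
    exact ⟨(j, a, u), ⟨h1, h2⟩, h3, h4, h5⟩
  choose p hp1 hp2 hp3 hp4 using hdec
  have h1 : ∑ j ∈ Finset.Icc M y, ∑' a : {a : List Bool // a ∈ FC M j},
      wE a.1 * gf {v | v ∈ Brd (y - j) ∧ a.1 ++ v ∈ P} =
      ∑' q : (Σ j : {j // j ∈ Finset.Icc M y}, Σ a : {a : List Bool // a ∈ FC M j.1},
        {v : List Bool | v ∈ Brd (y - j.1) ∧ a.1 ++ v ∈ P}), wE q.2.1.1 * wE q.2.2.1 := by
    rw [ENNReal.tsum_sigma', tsum_fintype, ← Finset.sum_coe_sort (Finset.Icc M y)]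
    refine Finset.sum_congr rfl fun j _ => ?_
    rw [ENNReal.tsum_sigma']
    refine tsum_congr fun a => ?_
    unfold gf
    exact ENNReal.tsum_mul_left.symm
  rw [h1]
  unfold gf
  let ψ : {s : List Bool | s ∈ Brd y ∧ s ∈ P} → (Σ j : {j // j ∈ Finset.Icc M y},
      Σ a : {a : List Bool // a ∈ FC M j.1}, {v : List Bool | v ∈ Brd (y - j.1) ∧ a.1 ++ v ∈ P}) :=
    fun s => ⟨⟨(p s).1, Finset.mem_Icc.2 (hp1 s)⟩, ⟨(p s).2.1, hp2 s⟩, ⟨(p s).2.2, hp3 s, by
      have := s.2.2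
      rw [hp4 s] at this
      exact this⟩⟩
  have hψ : Function.Injective ψ := by
    intro s t hst
    apply Subtype.ext
    have h2 : (ψ s).2.1.1 ++ (ψ s).2.2.1 = (ψ t).2.1.1 ++ (ψ t).2.2.1 := by rw [hst]
    rw [hp4 s, hp4 t]
    exact h2
  calc ∑' s : {s : List Bool | s ∈ Brd y ∧ s ∈ P}, wE s.1
      = ∑' s : {s : List Bool | s ∈ Brd y ∧ s ∈ P}, wE (ψ s).2.1.1 * wE (ψ s).2.2.1 := by
        refine tsum_congr fun s => ?_
        rw [← wE_append]
        exact congrArg wE (hp4 s)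
    _ ≤ _ := ENNReal.tsum_comp_le_tsum_of_injective hψ (fun q : (Σ j : {j // j ∈ Finset.Icc M y},
        Σ a : {a : List Bool // a ∈ FC M j.1}, {v : List Bool | v ∈ Brd (y - j.1) ∧ a.1 ++ v ∈ P}) =>
        wE q.2.1.1 * wE q.2.2.1)

/-- the pairs without gap, one height -/
lemma block_one {M y b : ℕ} (hM : M ≤ y) (hyb : y < b) (G : ℤ) (c : ℕ → ℝ≥0∞)
    (hc : ∀ h : ℕ, ∀ t ∈ Brd b, ∀ x0 : ℤ,
      gf {v | v ∈ Brd h ∧ (∀ i, InRow t y i → x0 + latE v < lat t i + 2) ∧
        ¬ (∀ i, InRow t y i → x0 + latE v + G ≤ lat t i + 2)} ≤ c h) :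
    g2 (Brd y) (Brd b) (fun s t => (Dj s t ∧ Via s t) ∧ ¬ Gap s t y G) ≤
      ∑ j ∈ Finset.Icc M y, PVf M j b * c (y - j) := by
  classical
  have _ := hyb
  rw [g2_right]
  have h1 : ∀ t : {t : List Bool // t ∈ Brd b},
      gf {s | s ∈ Brd y ∧ ((Dj s t.1 ∧ Via s t.1) ∧ ¬ Gap s t.1 y G)} ≤
      ∑ j ∈ Finset.Icc M y, gf {a | a ∈ FC M j ∧ Dj a t.1 ∧ Via a t.1} * c (y - j) := by
    intro t
    refine (gf_FC_le hM {s | (Dj s t.1 ∧ Via s t.1) ∧ ¬ Gap s t.1 y G}).trans ?_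
    refine Finset.sum_le_sum fun j hj => ?_
    rw [Finset.mem_Icc] at hj
    have h2 : gf {a | a ∈ FC M j ∧ Dj a t.1 ∧ Via a t.1} * c (y - j) =
        ∑' a : {a : List Bool // a ∈ FC M j}, wE a.1 * (if Dj a.1 t.1 ∧ Via a.1 t.1 then c (y - j) else 0) := by
      rw [gf_ind, ← ENNReal.tsum_mul_right]
      have h3 := tsum_subtype (FC M j) (fun a : List Bool => wE a * (if Dj a t.1 ∧ Via a t.1 then c (y - j) else 0))
      refine Eq.trans ?_ h3.symm
      refine tsum_congr fun a => ?_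
      by_cases ha : a ∈ FC M j
      · rw [Set.indicator_of_mem ha]
        by_cases h4 : Dj a t.1 ∧ Via a t.1
        · rw [if_pos (show a ∈ {a | a ∈ FC M j ∧ Dj a t.1 ∧ Via a t.1} from ⟨ha, h4⟩), if_pos h4]
        · rw [if_neg (fun h : a ∈ {a | a ∈ FC M j ∧ Dj a t.1 ∧ Via a t.1} => h4 h.2), if_neg h4, zero_mul,
            mul_zero]
      · rw [Set.indicator_of_notMem ha, if_neg (fun h : a ∈ {a | a ∈ FC M j ∧ Dj a t.1 ∧ Via a t.1} => ha h.1),
          zero_mul]
    rw [h2]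
    refine ENNReal.tsum_le_tsum fun a => ?_
    gcongr
    by_cases h4 : Dj a.1 t.1 ∧ Via a.1 t.1
    · rw [if_pos h4]
      refine le_trans (gf_mono ?_) (hc (y - j) t.1 t.2 (latE a.1))
      rintro v ⟨hv, ⟨_, hvia⟩, hgap⟩
      have ha := a.2.1
      have e1 : latE (a.1 ++ v) = latE a.1 + latE v := latE_cat (mem_Brd.1 ha).2.2.1
      have hy : a.1 ++ v ∈ Brd y := by
        have := Brd_append ha hv
        rwa [Nat.add_sub_of_le hj.2] at this
      refine ⟨hv, ?_, ?_⟩
      · intro i hi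
        have := Via_gap hy hvia i hi
        rw [e1] at this
        omega
      · intro hcon
        apply hgap
        intro i hi
        rw [e1]
        exact hcon i hi
    · rw [if_neg h4]
      refine le_of_eq ?_
      have h5 : {v | v ∈ Brd (y - j) ∧ a.1 ++ v ∈ {s | (Dj s t.1 ∧ Via s t.1) ∧ ¬ Gap s t.1 y G}} = ∅ := by
        ext v
        simp only [Set.mem_ofPred_eq, Set.mem_empty_iff_false, iff_false]
        rintro ⟨hv, ⟨hd, hvia⟩, _⟩
        apply h4
        refine ⟨?_, Via_left a.2.1 hv hvia⟩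
        have h6 : Dj (a.1 ++ v) (t.1 ++ []) := by rw [List.append_nil]; exact hd
        exact Dj_prefix h6
      rw [h5]
      unfold gf
      rw [ENNReal.tsum_eq_zero]
      rintro ⟨v, hv⟩
      exact absurd hv (Set.notMem_empty v)
  calc ∑' t : {t : List Bool // t ∈ Brd b}, wE t.1 *
        gf {s | s ∈ Brd y ∧ ((Dj s t.1 ∧ Via s t.1) ∧ ¬ Gap s t.1 y G)}
      ≤ ∑' t : {t : List Bool // t ∈ Brd b}, wE t.1 *
        ∑ j ∈ Finset.Icc M y, gf {a | a ∈ FC M j ∧ Dj a t.1 ∧ Via a t.1} * c (y - j) := by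
        refine ENNReal.tsum_le_tsum fun t => ?_
        gcongr
        exact h1 t
    _ = ∑ j ∈ Finset.Icc M y, PVf M j b * c (y - j) := by
        simp_rw [Finset.mul_sum]
        rw [Summable.tsum_finsetSum (fun _ _ => ENNReal.summable)]
        refine Finset.sum_congr rfl fun j _ => ?_
        unfold PVf
        rw [g2_right, ← ENNReal.tsum_mul_right]
        refine tsum_congr fun t => ?_
        rw [mul_assoc]

/-- exchange of the sums -/
lemma block_swap (M : ℕ) (f c : ℕ → ℝ≥0∞) :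
    ∑ y ∈ Finset.Ico (4 * M) (8 * M), ∑ j ∈ Finset.Icc M y, f j * c (y - j) ≤
      (∑ j ∈ Finset.Ico M (8 * M), f j) * ∑ h ∈ Finset.range (8 * M), c h := by
  classical
  have h1 : ∀ y ∈ Finset.Ico (4 * M) (8 * M), ∑ j ∈ Finset.Icc M y, f j * c (y - j) =
      ∑ j ∈ Finset.Ico M (8 * M), if j ≤ y then f j * c (y - j) else 0 := by
    intro y hy
    rw [Finset.mem_Ico] at hy
    rw [← Finset.sum_filter]
    refine Finset.sum_congr ?_ fun _ _ => rfl
    ext j
    simp only [Finset.mem_Icc, Finset.mem_filter, Finset.mem_Ico]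
    omega
  rw [Finset.sum_congr rfl h1, Finset.sum_comm, Finset.sum_mul]
  refine Finset.sum_le_sum fun j hj => ?_
  have h2 : ∀ y, (if j ≤ y then f j * c (y - j) else 0) = f j * (if j ≤ y then c (y - j) else 0) := by
    intro y
    split_ifs
    · rfl
    · rw [mul_zero]
  simp_rw [h2]
  rw [← Finset.mul_sum]
  gcongr
  rw [← Finset.sum_filter]
  have h3 : ∑ y ∈ (Finset.Ico (4 * M) (8 * M)).filter (fun y => j ≤ y), c (y - j) =
      ∑ h ∈ ((Finset.Ico (4 * M) (8 * M)).filter (fun y => j ≤ y)).image (fun y => y - j), c h := by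
    rw [Finset.sum_image]
    intro y hy z hz hyz
    rw [Finset.mem_coe, Finset.mem_filter] at hy hz
    have h4 : y - j = z - j := hyz
    omega
  rw [h3]
  refine Finset.sum_le_sum_of_subset fun h hh => ?_
  rw [Finset.mem_image] at hh
  obtain ⟨y, hy, rfl⟩ := hh
  rw [Finset.mem_filter, Finset.mem_Ico] at hy
  rw [Finset.mem_range]
  omega

end NearBaux

open NearBaux

/-- one block of heights, from the estimate near -/
theorem near_block_of (hn : ∃ C : ℝ, 0 < C ∧ ∀ h : ℕ, 1 ≤ h → ∀ (b y : ℕ), y < b → ∀ t ∈ Brd b, ∀ (x0 : ℤ) (G : ℕ),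
    gf {v | v ∈ Brd h ∧ (∀ i, InRow t y i → x0 + latE v < lat t i + 2) ∧
      ¬ (∀ i, InRow t y i → x0 + latE v + G ≤ lat t i + 2)} ≤ ENNReal.ofReal (C * (G * (uu h / h)))) :
    ∃ C : ℝ, 0 < C ∧ ∀ M b G D : ℕ, 1 ≤ M → 8 * M ≤ b → 1 ≤ G → 1 ≤ D →
    ∑ y ∈ Finset.Ico (4 * M) (8 * M), VV y b ≤ ENNReal.ofReal (8 * M / G * uu b) +
      (∑ j ∈ Finset.Ico M (8 * M), PVf M j b) * ENNReal.ofReal (C * (G / D) * UU (8 * M) + UU D) := by
  classical
  obtain ⟨C, hC, hnear⟩ := hn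
  refine ⟨C, hC, fun M b G D hM hMb hG hD => ?_⟩
  have hGr : (1 : ℝ) ≤ G := by exact_mod_cast hG
  have hDr : (1 : ℝ) ≤ D := by exact_mod_cast hD
  obtain ⟨cr, hcr⟩ : ∃ cr : ℕ → ℝ, cr = fun h => if h < D then uu h else C * (G * (uu h / h)) := ⟨_, rfl⟩
  have hu0 : ∀ h, 0 ≤ uu h := fun h => (uu_pos h).le
  have hcr0 : ∀ h, 0 ≤ cr h := by
    intro h
    rw [hcr]
    show 0 ≤ (if h < D then uu h else C * (G * (uu h / h)))
    split_ifs
    · exact hu0 h
    · have := hu0 h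
      positivity
  have hc : ∀ y, y < b → ∀ h : ℕ, ∀ t ∈ Brd b, ∀ x0 : ℤ,
      gf {v | v ∈ Brd h ∧ (∀ i, InRow t y i → x0 + latE v < lat t i + 2) ∧
        ¬ (∀ i, InRow t y i → x0 + latE v + (G : ℤ) ≤ lat t i + 2)} ≤ ENNReal.ofReal (cr h) := by
    intro y hy h t ht x0
    rw [hcr]
    show _ ≤ ENNReal.ofReal (if h < D then uu h else C * (G * (uu h / h)))
    split_ifs with h1
    · rw [← BT_eq_uu, ← gf_Brd]
      exact gf_mono fun v hv => hv.1
    · exact hnear h (by omega) b y hy t ht x0 G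
  -- one height
  have hone : ∀ y ∈ Finset.Ico (4 * M) (8 * M), VV y b ≤ ENNReal.ofReal (2 / G * uu b) +
      ∑ j ∈ Finset.Icc M y, PVf M j b * ENNReal.ofReal (cr (y - j)) := by
    intro y hy
    rw [Finset.mem_Ico] at hy
    have h1 := block_one (M := M) (y := y) (b := b) (by omega) (by omega) (G : ℤ)
      (fun h => ENNReal.ofReal (cr h)) (hc y (by omega))
    have h2 : g2 (Brd y) (Brd b) (fun s t => Dj s t ∧ Gap s t y G) ≤ ENNReal.ofReal (2 / G * uu b) :=
      WI (by omega) hG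
    refine le_trans ?_ (add_le_add h2 h1)
    unfold VV g2
    refine le_trans (ENNReal.tsum_mono_subtype (fun p : List Bool × List Bool => wE p.1 * wE p.2) ?_)
      (ENNReal.tsum_union_le (fun p : List Bool × List Bool => wE p.1 * wE p.2) _ _)
    rintro p ⟨hp1, hp2, hp3⟩
    by_cases h3 : Gap p.1 p.2 y G
    · exact Or.inl ⟨hp1, hp2, hp3.1, h3⟩
    · exact Or.inr ⟨hp1, hp2, hp3, h3⟩
  -- the numbers
  have hnum : ∑ h ∈ Finset.range (8 * M), cr h ≤ C * (G / D) * UU (8 * M) + UU D := by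
    have h1 : ∀ h ∈ Finset.range (8 * M), cr h ≤ (if h < D then uu h else 0) + C * (G / D) * uu h := by
      intro h _
      rw [hcr]
      show (if h < D then uu h else C * (G * (uu h / h))) ≤ _
      have h0 := hu0 h
      split_ifs with h2
      · have : 0 ≤ C * (G / D) * uu h := by positivity
        linarith
      · rw [zero_add]
        have h3 : (D : ℝ) ≤ h := by exact_mod_cast (by omega : D ≤ h)
        have h4 : uu h / h ≤ uu h / D := div_le_div_of_nonneg_left h0 (by linarith) h3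
        calc C * (G * (uu h / h)) ≤ C * (G * (uu h / D)) := by gcongr
          _ = C * (G / D) * uu h := by ring
    refine (Finset.sum_le_sum h1).trans ?_
    rw [Finset.sum_add_distrib, ← Finset.mul_sum, add_comm]
    have h5 : ∑ h ∈ Finset.range (8 * M), uu h ≤ UU (8 * M) := by
      unfold UU
      exact Finset.sum_le_sum_of_subset_of_nonneg (Finset.range_subset_range.2 (by omega)) (fun h _ _ => hu0 h)
    have h6 : ∑ h ∈ Finset.range (8 * M), (if h < D then uu h else 0) ≤ UU D := by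
      unfold UU
      rw [← Finset.sum_filter]
      refine Finset.sum_le_sum_of_subset_of_nonneg ?_ (fun h _ _ => hu0 h)
      intro h hh
      rw [Finset.mem_filter, Finset.mem_range] at hh
      rw [Finset.mem_range]
      omega
    have h7 : 0 ≤ C * ((G : ℝ) / D) := by positivity
    exact add_le_add (mul_le_mul_of_nonneg_left h5 h7) h6
  calc ∑ y ∈ Finset.Ico (4 * M) (8 * M), VV y b
      ≤ ∑ y ∈ Finset.Ico (4 * M) (8 * M), (ENNReal.ofReal (2 / G * uu b) +
        ∑ j ∈ Finset.Icc M y, PVf M j b * ENNReal.ofReal (cr (y - j))) := Finset.sum_le_sum hone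
    _ = (4 * M : ℕ) * ENNReal.ofReal (2 / G * uu b) +
        ∑ y ∈ Finset.Ico (4 * M) (8 * M), ∑ j ∈ Finset.Icc M y, PVf M j b * ENNReal.ofReal (cr (y - j)) := by
        rw [Finset.sum_add_distrib, Finset.sum_const, Nat.card_Ico, nsmul_eq_mul,
          show 8 * M - 4 * M = 4 * M by omega]
    _ ≤ ENNReal.ofReal (8 * M / G * uu b) + (∑ j ∈ Finset.Ico M (8 * M), PVf M j b) *
        ENNReal.ofReal (C * (G / D) * UU (8 * M) + UU D) := by
        refine add_le_add (le_of_eq ?_) ?_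
        · rw [← ENNReal.ofReal_natCast, ← ENNReal.ofReal_mul (Nat.cast_nonneg _)]
          congr 1
          push_cast
          ring
        · refine (block_swap M (fun j => PVf M j b) (fun h => ENNReal.ofReal (cr h))).trans ?_
          gcongr
          rw [← ENNReal.ofReal_sum_of_nonneg (fun h _ => hcr0 h)]
          exact ENNReal.ofReal_le_ofReal hnum

end HexObs
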