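import Mathlib

/-!
PHW, A5c: renewal sequences, generic part.
-/

set_option autoImplicit false

namespace HexObs

namespace RenewNum

open Finset

variable {u k : ℕ → ℝ}

theorem sum_k_le (hpos : ∀ T, 0 < u T) (hanti : ∀ {T T' : ℕ}, T ≤ T' → u T' ≤ u T) (hk : ∀ r, 0 ≤ k r)
    (hk0 : k 0 = 0) (hren : ∀ {T : ℕ}, 1 ≤ T → u T = ∑ r ∈ Finset.Icc 1 T, k r * u (T - r)) (n : ℕ) :
    ∑ r ∈ Finset.range n, k r ≤ 1 := by
  rcases Nat.lt_or_ge n 2 with hn | hn
  · interval_cases n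
    · simp
    · simp [hk0]
  · have hT : 1 ≤ n - 1 := by omega
    have h1 := hren hT
    have h2 : (∑ r ∈ Finset.Icc 1 (n - 1), k r) * u (n - 1) ≤ u (n - 1) := by
      calc (∑ r ∈ Finset.Icc 1 (n - 1), k r) * u (n - 1) = ∑ r ∈ Finset.Icc 1 (n - 1), k r * u (n - 1) := by
            rw [Finset.sum_mul]
        _ ≤ ∑ r ∈ Finset.Icc 1 (n - 1), k r * u (n - 1 - r) := by
            apply Finset.sum_le_sum
            intro r _
            exact mul_le_mul_of_nonneg_left (hanti (by omega)) (hk r)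
        _ = u (n - 1) := h1.symm
    have h3 : ∑ r ∈ Finset.Icc 1 (n - 1), k r ≤ 1 := by
      by_contra h
      push Not at h
      have := hpos (n - 1)
      nlinarith
    have h4 : ∑ r ∈ Finset.range n, k r = ∑ r ∈ Finset.Icc 1 (n - 1), k r := by
      have e : Finset.range n = insert 0 (Finset.Icc 1 (n - 1)) := by
        ext x
        simp only [Finset.mem_range, Finset.mem_insert, Finset.mem_Icc]
        omega
      rw [e, Finset.sum_insert (by simp), hk0, zero_add]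
    rw [h4]
    exact h3

theorem K_renewal (hu0 : u 0 = 1) (hk0 : k 0 = 0)
    (hren : ∀ {T : ℕ}, 1 ≤ T → u T = ∑ r ∈ Finset.Icc 1 T, k r * u (T - r)) (N : ℕ) :
    ∑ y ∈ Finset.range (N + 1), u y * (1 - ∑ r ∈ Finset.range (N + 1 - y), k r) = 1 := by
  induction N with
  | zero => simp [hu0, hk0]
  | succ N ih =>
    have h1 : ∑ y ∈ Finset.range (N + 1 + 1), u y * (1 - ∑ r ∈ Finset.range (N + 1 + 1 - y), k r) =
        ∑ y ∈ Finset.range (N + 1 + 1), (u y * (1 - ∑ r ∈ Finset.range (N + 1 - y), k r) -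
          k (N + 1 - y) * u y) := by
      apply Finset.sum_congr rfl
      intro y hy
      rw [Finset.mem_range] at hy
      have e : N + 1 + 1 - y = (N + 1 - y) + 1 := by omega
      rw [e, Finset.sum_range_succ]
      ring
    rw [h1, Finset.sum_sub_distrib, Finset.sum_range_succ, ih]
    have h2 : ∑ y ∈ Finset.range (N + 1 + 1), k (N + 1 - y) * u y = u (N + 1) := by
      rw [hren (by omega : 1 ≤ N + 1)]
      have h3 : ∑ y ∈ Finset.range (N + 1 + 1), k (N + 1 - y) * u y =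
          ∑ r ∈ Finset.range (N + 1 + 1), k r * u (N + 1 - r) := by
        rw [← Finset.sum_range_reflect]
        apply Finset.sum_congr rfl
        intro y hy
        rw [Finset.mem_range] at hy
        have e1 : N + 1 + 1 - 1 - y = N + 1 - y := by omega
        have e2 : N + 1 - (N + 1 - y) = y := by omega
        rw [e1, e2]
      rw [h3]
      have e : Finset.range (N + 1 + 1) = insert 0 (Finset.Icc 1 (N + 1)) := by
        ext x
        simp only [Finset.mem_range, Finset.mem_insert, Finset.mem_Icc]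
        omega
      rw [e, Finset.sum_insert (by simp), hk0]
      ring
    rw [h2]
    simp

theorem K_anti (hk : ∀ r, 0 ≤ k r) {m n : ℕ} (h : m ≤ n) :
    1 - ∑ r ∈ Finset.range n, k r ≤ 1 - ∑ r ∈ Finset.range m, k r := by
  have : ∑ r ∈ Finset.range m, k r ≤ ∑ r ∈ Finset.range n, k r := by
    apply Finset.sum_le_sum_of_subset_of_nonneg
    · exact Finset.range_mono h
    · intro i _ _
      exact hk i
  linarith

theorem U_mul_K (hu0 : u 0 = 1) (hpos : ∀ T, 0 < u T) (hk : ∀ r, 0 ≤ k r) (hk0 : k 0 = 0)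
    (hren : ∀ {T : ℕ}, 1 ≤ T → u T = ∑ r ∈ Finset.Icc 1 T, k r * u (T - r)) (n : ℕ) :
    (∑ t ∈ Finset.range (n + 1), u t) * (1 - ∑ r ∈ Finset.range (n + 1), k r) ≤ 1 := by
  have h1 := K_renewal hu0 hk0 hren n
  refine le_trans ?_ h1.le
  rw [Finset.sum_mul]
  apply Finset.sum_le_sum
  intro y _
  exact mul_le_mul_of_nonneg_left (K_anti hk (by omega)) (hpos y).le

theorem tsum_k (hu0 : u 0 = 1) (hpos : ∀ T, 0 < u T)
    (hanti : ∀ {T T' : ℕ}, T ≤ T' → u T' ≤ u T) (hk : ∀ r, 0 ≤ k r)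
    (hk0 : k 0 = 0) (hren : ∀ {T : ℕ}, 1 ≤ T → u T = ∑ r ∈ Finset.Icc 1 T, k r * u (T - r))
    (hdiv : ∀ C : ℝ, ∃ n : ℕ, C < ∑ t ∈ Finset.range (n + 1), u t) :
    ∑' r : ℕ, k r = 1 := by
  have hle := sum_k_le hpos hanti hk hk0 hren
  have hs : Summable k := summable_of_sum_range_le hk hle
  have h1 : ∑' r : ℕ, k r ≤ 1 := Real.tsum_le_of_sum_range_le hk hle
  rcases h1.lt_or_eq with h | h
  · exfalso
    obtain ⟨n, hn⟩ := hdiv (1 / (1 - ∑' r : ℕ, k r))
    have hd : 0 < 1 - ∑' r : ℕ, k r := by linarith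
    have h2 := U_mul_K hu0 hpos hk hk0 hren n
    have h3 : ∑ r ∈ Finset.range (n + 1), k r ≤ ∑' r : ℕ, k r := hs.sum_le_tsum _ (fun i _ => hk i)
    rw [div_lt_iff₀ hd] at hn
    have h4 : 0 ≤ ∑ t ∈ Finset.range (n + 1), u t := Finset.sum_nonneg (fun i _ => (hpos i).le)
    nlinarith
  · exact h

theorem sum_K (R : ℕ) : ∑ m ∈ Finset.range R, (1 - ∑ r ∈ Finset.range (m + 1), k r) =
    ∑ r ∈ Finset.range (R + 1), r * k r + R * (1 - ∑ r ∈ Finset.range (R + 1), k r) := by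
  induction R with
  | zero => simp
  | succ R ih =>
    rw [Finset.sum_range_succ, ih, Finset.sum_range_succ _ (R + 1), Finset.sum_range_succ _ (R + 1)]
    push_cast
    ring

theorem sum_mul_k (hu0 : u 0 = 1) (hpos : ∀ T, 0 < u T)
    (hanti : ∀ {T T' : ℕ}, T ≤ T' → u T' ≤ u T) (hk : ∀ r, 0 ≤ k r)
    (hk0 : k 0 = 0) (hren : ∀ {T : ℕ}, 1 ≤ T → u T = ∑ r ∈ Finset.Icc 1 T, k r * u (T - r))
    {R : ℕ} (hR : 1 ≤ R) :
    ∑ r ∈ Finset.range (R + 1), r * k r ≤ 3 * (R / ∑ t ∈ Finset.range (R + 1), u t) := by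
  have hle := sum_k_le hpos hanti hk hk0 hren
  have hK : ∀ n, 0 ≤ 1 - ∑ r ∈ Finset.range n, k r := fun n => by linarith [hle n]
  have hU : 0 < ∑ t ∈ Finset.range (R + 1), u t :=
    Finset.sum_pos (fun i _ => hpos i) ⟨0, by simp⟩
  -- sum over N
  have h1 : ∑ N ∈ Finset.range (2 * R + 1),
      ∑ y ∈ Finset.range (N + 1), u y * (1 - ∑ r ∈ Finset.range (N + 1 - y), k r) = 2 * R + 1 := by
    rw [Finset.sum_congr rfl (fun N _ => K_renewal hu0 hk0 hren N)]
    simp
  -- lower bound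
  have h2 : (∑ t ∈ Finset.range (R + 1), u t) * ∑ m ∈ Finset.range R, (1 - ∑ r ∈ Finset.range (m + 1), k r) ≤
      ∑ N ∈ Finset.range (2 * R + 1),
      ∑ y ∈ Finset.range (N + 1), u y * (1 - ∑ r ∈ Finset.range (N + 1 - y), k r) := by
    have e1 : (∑ t ∈ Finset.range (R + 1), u t) * ∑ m ∈ Finset.range R, (1 - ∑ r ∈ Finset.range (m + 1), k r) =
        ∑ p ∈ Finset.range (R + 1) ×ˢ Finset.range R,
          u p.1 * (1 - ∑ r ∈ Finset.range (p.2 + 1), k r) := by
      rw [Finset.sum_product, Finset.sum_mul_sum]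
    have e2 : ∑ N ∈ Finset.range (2 * R + 1),
        ∑ y ∈ Finset.range (N + 1), u y * (1 - ∑ r ∈ Finset.range (N + 1 - y), k r) =
        ∑ q ∈ (Finset.range (2 * R + 1)).sigma (fun N => Finset.range (N + 1)),
          u q.2 * (1 - ∑ r ∈ Finset.range (q.1 + 1 - q.2), k r) := by
      rw [Finset.sum_sigma]
    rw [e1, e2]
    have e3 : ∑ p ∈ Finset.range (R + 1) ×ˢ Finset.range R,
          u p.1 * (1 - ∑ r ∈ Finset.range (p.2 + 1), k r) =
        ∑ q ∈ (Finset.range (R + 1) ×ˢ Finset.range R).image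
          (fun p => (⟨p.1 + p.2, p.1⟩ : Σ _ : ℕ, ℕ)),
          u q.2 * (1 - ∑ r ∈ Finset.range (q.1 + 1 - q.2), k r) := by
      rw [Finset.sum_image]
      · apply Finset.sum_congr rfl
        intro p _
        have : p.1 + p.2 + 1 - p.1 = p.2 + 1 := by omega
        simp only [this]
      · intro p _ q _ h
        simp only [Sigma.mk.injEq, heq_eq_eq] at h
        obtain ⟨h1, h2⟩ := h
        exact Prod.ext h2 (by omega)
    rw [e3]
    apply Finset.sum_le_sum_of_subset_of_nonneg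
    · intro q hq
      rw [Finset.mem_image] at hq
      obtain ⟨p, hp, rfl⟩ := hq
      rw [Finset.mem_product, Finset.mem_range, Finset.mem_range] at hp
      rw [Finset.mem_sigma, Finset.mem_range, Finset.mem_range]
      constructor
      · show p.1 + p.2 < 2 * R + 1
        omega
      · show p.1 < p.1 + p.2 + 1
        omega
    · intro q _ _
      exact mul_nonneg (hpos _).le (hK _)
  rw [h1, sum_K] at h2
  have h3 : (∑ t ∈ Finset.range (R + 1), u t) * ∑ r ∈ Finset.range (R + 1), r * k r ≤ 2 * R + 1 := by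
    have : 0 ≤ (∑ t ∈ Finset.range (R + 1), u t) * ((R : ℝ) * (1 - ∑ r ∈ Finset.range (R + 1), k r)) :=
      mul_nonneg hU.le (mul_nonneg (Nat.cast_nonneg _) (hK _))
    linarith [mul_add (∑ t ∈ Finset.range (R + 1), u t) (∑ r ∈ Finset.range (R + 1), r * k r)
      ((R : ℝ) * (1 - ∑ r ∈ Finset.range (R + 1), k r))]
  have h4 : (1 : ℝ) ≤ R := by exact_mod_cast hR
  rw [← mul_div_assoc, le_div_iff₀ hU]
  linarith

theorem no_cut (hu0 : u 0 = 1) (hpos : ∀ T, 0 < u T) (hk : ∀ r, 0 ≤ k r)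
    (hk0 : k 0 = 0) (hren : ∀ {T : ℕ}, 1 ≤ T → u T = ∑ r ∈ Finset.Icc 1 T, k r * u (T - r))
    {s S : ℕ} (h : s ≤ S) :
    ∑ y ∈ Finset.range (s + 1), u y * (1 - ∑ r ∈ Finset.range (S + 1 - y), k r) ≤
      (∑ t ∈ Finset.range (s + 1), u t) / ∑ t ∈ Finset.range (S - s + 1), u t := by
  have hU : 0 < ∑ t ∈ Finset.range (S - s + 1), u t :=
    Finset.sum_pos (fun i _ => hpos i) ⟨0, by simp⟩
  have h1 := U_mul_K hu0 hpos hk hk0 hren (S - s)
  have h2 : ∑ y ∈ Finset.range (s + 1), u y * (1 - ∑ r ∈ Finset.range (S + 1 - y), k r) ≤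
      (∑ t ∈ Finset.range (s + 1), u t) * (1 - ∑ r ∈ Finset.range (S - s + 1), k r) := by
    rw [Finset.sum_mul]
    apply Finset.sum_le_sum
    intro y hy
    rw [Finset.mem_range] at hy
    exact mul_le_mul_of_nonneg_left (K_anti hk (by omega)) (hpos y).le
  have h3 : 0 ≤ ∑ t ∈ Finset.range (s + 1), u t := Finset.sum_nonneg (fun i _ => (hpos i).le)
  refine h2.trans ?_
  rw [le_div_iff₀ hU]
  calc (∑ t ∈ Finset.range (s + 1), u t) * (1 - ∑ r ∈ Finset.range (S - s + 1), k r) *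
        ∑ t ∈ Finset.range (S - s + 1), u t
      = (∑ t ∈ Finset.range (s + 1), u t) * ((∑ t ∈ Finset.range (S - s + 1), u t) *
          (1 - ∑ r ∈ Finset.range (S - s + 1), k r)) := by ring
    _ ≤ (∑ t ∈ Finset.range (s + 1), u t) * 1 := mul_le_mul_of_nonneg_left h1 h3
    _ = ∑ t ∈ Finset.range (s + 1), u t := mul_one _

end RenewNum

end HexObs
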