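import Pool.Agent.PHW.DefsQ
import Pool.Agent.PHW.Num2
import Pool.Agent.PHW.Num3

/-!
PHW, part Q10: numbers for the recursion along the chain.
-/

set_option autoImplicit false

namespace HexObs

open Complex Finset ENNReal

namespace NumRAux

open Num2Aux

lemma lg_nonneg (D : ℕ) : (0 : ℝ) ≤ Nat.log 2 D := Nat.cast_nonneg _

/-- harmonic numbers -/
lemma harm (D : ℕ) : ∑ i ∈ Finset.range D, 1 / ((i : ℝ) + 1) ≤ 1 + (Nat.log 2 D : ℝ) := by
  induction D using Nat.strong_induction_on with
  | _ D ih =>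
    rcases Nat.lt_or_ge D 2 with h | h
    · interval_cases D
      · simp
      · simp
    · have h1 : D / 2 < D := Nat.div_lt_self (by omega) (by norm_num)
      have h2 := ih (D / 2) h1
      have h3 : Nat.log 2 D = Nat.log 2 (D / 2) + 1 := by
        rw [Nat.log_div_base]
        have : 1 ≤ Nat.log 2 D := (Nat.log_pos_iff).2 ⟨h, by norm_num⟩
        omega
      have h4 : ∑ i ∈ Finset.range D, 1 / ((i : ℝ) + 1) = ∑ i ∈ Finset.range (D / 2), 1 / ((i : ℝ) + 1) +
          ∑ i ∈ Finset.range (D - D / 2), 1 / (((D / 2 + i : ℕ) : ℝ) + 1) := by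
        rw [← Finset.sum_range_add]
        congr 2
        omega
      have h5 : ∑ i ∈ Finset.range (D - D / 2), 1 / (((D / 2 + i : ℕ) : ℝ) + 1) ≤ 1 := by
        have h6 : ∀ i ∈ Finset.range (D - D / 2), 1 / (((D / 2 + i : ℕ) : ℝ) + 1) ≤ 1 / ((D / 2 : ℕ) + 1 : ℝ) := by
          intro i _
          apply one_div_le_one_div_of_le
          · positivity
          · push_cast
            have : (0 : ℝ) ≤ i := Nat.cast_nonneg i
            linarith
        refine (Finset.sum_le_sum h6).trans ?_
        rw [Finset.sum_const, Finset.card_range, nsmul_eq_mul, mul_one_div,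
          div_le_one (by positivity)]
        have : D - D / 2 ≤ D / 2 + 1 := by omega
        exact_mod_cast this
      rw [h4, h3, Nat.cast_add, Nat.cast_one]
      linarith

lemma sum_uU' (D : ℕ) : ∑ i ∈ Finset.range (D + 1), uu i / UU i ≤ 2 * (1 + (Nat.log 2 D : ℝ)) := by
  rw [Finset.sum_range_succ']
  have h0 : uu 0 / UU 0 = 1 := by
    have : UU 0 = uu 0 := by
      unfold UU
      simp
    rw [this, zero]
    norm_num
  have h1 : ∀ i ∈ Finset.range D, uu (i + 1) / UU (i + 1) ≤ 1 / ((i : ℝ) + 1) := by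
    intro i _
    have hU := UU_pos (i + 1)
    have h2 := mul_le_UU (i + 1)
    push_cast at h2
    rw [div_le_div_iff₀ hU (by positivity)]
    linarith
  have h2 := Finset.sum_le_sum h1
  have h3 := harm D
  have h4 := lg_nonneg D
  rw [h0]
  linarith

lemma sum_kU' (D : ℕ) : ∑ r ∈ Finset.range (D + 1), kk r * UU r ≤ 3 * (1 + (Nat.log 2 D : ℝ)) := by
  have h1 : ∑ r ∈ Finset.range (D + 1), kk r * UU r =
      ∑ j ∈ Finset.range (D + 1), uu j * ∑ r ∈ (Finset.range (D + 1)).filter (fun r => j ≤ r), kk r := by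
    have h2 : ∀ r ∈ Finset.range (D + 1), kk r * UU r =
        ∑ j ∈ Finset.range (D + 1), if j ≤ r then kk r * uu j else 0 := by
      intro r hr
      rw [Finset.mem_range] at hr
      rw [← Finset.sum_filter]
      unfold UU
      rw [Finset.mul_sum]
      apply Finset.sum_congr
      · ext x
        simp only [Finset.mem_filter, Finset.mem_range]
        omega
      · intro _ _; rfl
    rw [Finset.sum_congr rfl h2, Finset.sum_comm]
    apply Finset.sum_congr rfl
    intro j _
    rw [Finset.mul_sum, Finset.sum_filter]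
    apply Finset.sum_congr rfl
    intro r _
    split_ifs
    · ring
    · rfl
  have h3 : ∀ j ∈ Finset.range (D + 1), uu j * ∑ r ∈ (Finset.range (D + 1)).filter (fun r => j ≤ r), kk r ≤
      uu j * KK' j := by
    intro j _
    apply mul_le_mul_of_nonneg_left _ (nonneg j)
    unfold KK'
    have h4 := sum_kk_le (D + 1)
    have h5 : ∑ r ∈ (Finset.range (D + 1)).filter (fun r => j ≤ r), kk r +
        ∑ r ∈ (Finset.range (D + 1)).filter (fun r => ¬ j ≤ r), kk r = ∑ r ∈ Finset.range (D + 1), kk r :=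
      Finset.sum_filter_add_sum_filter_not _ _ _
    rcases Nat.lt_or_ge D j with h6 | h6
    · have : (Finset.range (D + 1)).filter (fun r => j ≤ r) = ∅ := by
        ext x
        simp only [Finset.mem_filter, Finset.mem_range, Finset.notMem_empty, iff_false]
        omega
      rw [this, Finset.sum_empty]
      have := sum_kk_le j
      linarith
    · have : (Finset.range (D + 1)).filter (fun r => ¬ j ≤ r) = Finset.range j := by
        ext x
        simp only [Finset.mem_filter, Finset.mem_range]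
        omega
      rw [this] at h5
      linarith
  rw [h1]
  refine (Finset.sum_le_sum h3).trans ?_
  rw [Finset.sum_range_succ', zero]
  have h4 : ∀ j ∈ Finset.range D, uu (j + 1) * KK' (j + 1) ≤ uu j / UU j := by
    intro j _
    have hU := UU_pos j
    rw [le_div_iff₀ hU]
    have h5 := UU_mul_KK j
    have h6 := succ_le j
    have h7 := KK_nonneg (j + 1)
    have h8 := nonneg (j + 1)
    calc uu (j + 1) * KK' (j + 1) * UU j = uu (j + 1) * (UU j * KK' (j + 1)) := by ring
      _ ≤ uu (j + 1) * 1 := mul_le_mul_of_nonneg_left h5 h8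
      _ ≤ uu j := by linarith
  have h5 := Finset.sum_le_sum h4
  have h6 := KK_le_one 0
  have h7 : ∑ j ∈ Finset.range D, uu j / UU j ≤ ∑ j ∈ Finset.range (D + 1), uu j / UU j := by
    rw [Finset.sum_range_succ]
    have := div_nonneg (nonneg D) (UU_pos D).le
    linarith
  have h8 := sum_uU' D
  have h9 := lg_nonneg D
  linarith

/-- the averages of the bridge weights decrease -/
lemma avg_anti {r n : ℕ} (h : r ≤ n) : UU n * (r + 1) ≤ UU r * (n + 1) := by
  induction n, h using Nat.le_induction with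
  | base => exact le_refl _
  | succ n hn ih =>
    have h1 := UU_succ n
    have h2 : (n + 1 : ℝ) * uu (n + 1) ≤ UU n := by
      have h3 := mul_le_UU (n + 1)
      rw [h1] at h3
      push_cast at h3
      have h4 : UU n ≥ (n + 1 : ℝ) * uu n := by
        unfold UU
        have h5 : ∑ _t ∈ Finset.range (n + 1), uu n ≤ ∑ t ∈ Finset.range (n + 1), uu t := by
          apply Finset.sum_le_sum
          intro t ht
          rw [Finset.mem_range] at ht
          exact anti (by omega)
        rw [Finset.sum_const, Finset.card_range, nsmul_eq_mul] at h5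
        push_cast at h5
        exact h5
      have h6 := succ_le n
      have h7 : (0 : ℝ) ≤ n + 1 := by positivity
      nlinarith
    have h3 : uu (n + 1) * (r + 1) ≤ UU r := by
      have h4 : (r + 1 : ℝ) * uu (n + 1) ≤ UU r := by
        unfold UU
        have h5 : ∑ _t ∈ Finset.range (r + 1), uu (n + 1) ≤ ∑ t ∈ Finset.range (r + 1), uu t := by
          apply Finset.sum_le_sum
          intro t ht
          rw [Finset.mem_range] at ht
          exact anti (by omega)
        rw [Finset.sum_const, Finset.card_range, nsmul_eq_mul] at h5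
        push_cast at h5
        exact h5
      linarith
    rw [h1]
    push_cast
    nlinarith

lemma one_term {r n : ℕ} (hn : 1 ≤ n) (h : r ≤ n) : UU n * r / n ≤ 2 * UU r := by
  have h1 := avg_anti h
  have h2 := UU_pos n
  have h3 := UU_pos r
  have hn' : (1 : ℝ) ≤ n := by exact_mod_cast hn
  rw [div_le_iff₀ (by linarith)]
  nlinarith

lemma wq_sum_eq (n : ℕ) : ∑ l ∈ Finset.range n, wq n l = UU n *
    ∑ i ∈ Finset.range (n + 1), ∑ r ∈ Finset.range (n + 1), if i + r ≤ n then
      (r : ℝ) * (uu i / UU i * kk r * (uu (n - i - r) / UU (n - i - r))) else 0 := by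
  unfold wq
  rw [← Finset.mul_sum]
  congr 1
  have h1 : ∀ l ∈ Finset.range n, ∑ i ∈ Finset.range (l + 1), ∑ r ∈ Finset.Ico (l + 1 - i) (n + 1 - i),
      uu i / UU i * kk r * (uu (n - i - r) / UU (n - i - r)) =
      ∑ i ∈ Finset.range (n + 1), ∑ r ∈ Finset.range (n + 1), if i ≤ l ∧ l < i + r ∧ i + r ≤ n then
        uu i / UU i * kk r * (uu (n - i - r) / UU (n - i - r)) else 0 := by
    intro l hl
    rw [Finset.mem_range] at hl
    have h2 : ∀ i ∈ Finset.range (n + 1), ∑ r ∈ Finset.range (n + 1), (if i ≤ l ∧ l < i + r ∧ i + r ≤ n then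
        uu i / UU i * kk r * (uu (n - i - r) / UU (n - i - r)) else 0) =
        if i ≤ l then ∑ r ∈ Finset.Ico (l + 1 - i) (n + 1 - i),
          uu i / UU i * kk r * (uu (n - i - r) / UU (n - i - r)) else 0 := by
      intro i hi
      rw [Finset.mem_range] at hi
      split_ifs with h
      · rw [← Finset.sum_filter]
        apply Finset.sum_congr
        · ext x
          simp only [Finset.mem_filter, Finset.mem_range, Finset.mem_Ico]
          omega
        · intro _ _; rfl
      · apply Finset.sum_eq_zero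
        intro r _
        rw [if_neg (fun h' => h h'.1)]
    rw [Finset.sum_congr rfl h2, ← Finset.sum_filter]
    apply Finset.sum_congr
    · ext x
      simp only [Finset.mem_filter, Finset.mem_range]
      omega
    · intro _ _; rfl
  rw [Finset.sum_congr rfl h1, Finset.sum_comm]
  apply Finset.sum_congr rfl
  intro i _
  rw [Finset.sum_comm]
  apply Finset.sum_congr rfl
  intro r _
  by_cases h : i + r ≤ n
  · rw [if_pos h]
    have h2 : ∀ l ∈ Finset.range n, (if i ≤ l ∧ l < i + r ∧ i + r ≤ n then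
        uu i / UU i * kk r * (uu (n - i - r) / UU (n - i - r)) else 0) =
        if i ≤ l ∧ l < i + r then uu i / UU i * kk r * (uu (n - i - r) / UU (n - i - r)) else 0 := by
      intro l _
      by_cases h3 : i ≤ l ∧ l < i + r
      · rw [if_pos ⟨h3.1, h3.2, h⟩, if_pos h3]
      · rw [if_neg (fun h' => h3 ⟨h'.1, h'.2.1⟩), if_neg h3]
    rw [Finset.sum_congr rfl h2, ← Finset.sum_filter, Finset.sum_const]
    have h4 : (Finset.range n).filter (fun l => i ≤ l ∧ l < i + r) = Finset.Ico i (i + r) := by
      ext x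
      simp only [Finset.mem_filter, Finset.mem_range, Finset.mem_Ico]
      omega
    rw [h4, Nat.card_Ico, nsmul_eq_mul]
    congr 2
    omega
  · rw [if_neg h]
    apply Finset.sum_eq_zero
    intro l _
    rw [if_neg (fun h' => h h'.2.2)]

lemma one_n {n : ℕ} (hn : 1 ≤ n) : 1 / (n : ℝ) * ∑ l ∈ Finset.range n, wq n l ≤
    2 * ∑ i ∈ Finset.range (n + 1), ∑ r ∈ Finset.range (n + 1), if i + r ≤ n then
      uu i / UU i * (kk r * UU r) * (uu (n - i - r) / UU (n - i - r)) else 0 := by
  rw [wq_sum_eq, Finset.mul_sum, Finset.mul_sum, Finset.mul_sum]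
  apply Finset.sum_le_sum
  intro i _
  rw [Finset.mul_sum, Finset.mul_sum, Finset.mul_sum]
  apply Finset.sum_le_sum
  intro r _
  by_cases h : i + r ≤ n
  · rw [if_pos h, if_pos h]
    have h1 := one_term hn (show r ≤ n by omega)
    have hA : 0 ≤ uu i / UU i := div_nonneg (nonneg i) (UU_pos i).le
    have hB : 0 ≤ uu (n - i - r) / UU (n - i - r) := div_nonneg (nonneg _) (UU_pos _).le
    have hk : 0 ≤ kk r := ENNReal.toReal_nonneg
    calc 1 / (n : ℝ) * (UU n * ((r : ℝ) * (uu i / UU i * kk r * (uu (n - i - r) / UU (n - i - r))))) =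
        (UU n * r / n) * (uu i / UU i * kk r * (uu (n - i - r) / UU (n - i - r))) := by ring
      _ ≤ (2 * UU r) * (uu i / UU i * kk r * (uu (n - i - r) / UU (n - i - r))) :=
          mul_le_mul_of_nonneg_right h1 (by positivity)
      _ = _ := by ring
  · rw [if_neg h, if_neg h]
    simp

end NumRAux

open Num2Aux NumRAux

theorem wq_nonneg (n l : ℕ) : 0 ≤ wq n l := by
  unfold wq
  apply mul_nonneg (UU_pos n).le
  apply Finset.sum_nonneg
  intro i _
  apply Finset.sum_nonneg
  intro r _
  have hA : 0 ≤ uu i / UU i := div_nonneg (nonneg i) (UU_pos i).le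
  have hB : 0 ≤ uu (n - i - r) / UU (n - i - r) := div_nonneg (nonneg _) (UU_pos _).le
  have hk : 0 ≤ kk r := ENNReal.toReal_nonneg
  positivity

theorem sum_uU : ∃ C : ℝ, 0 < C ∧ ∀ D : ℕ, ∑ i ∈ Finset.range (D + 1), uu i / UU i ≤ C * (1 + (Nat.log 2 D : ℝ)) :=
  ⟨2, by norm_num, sum_uU'⟩

theorem sum_kU : ∃ C : ℝ, 0 < C ∧ ∀ D : ℕ, ∑ r ∈ Finset.range (D + 1), kk r * UU r ≤ C * (1 + (Nat.log 2 D : ℝ)) :=
  ⟨3, by norm_num, sum_kU'⟩

theorem wq_sum : ∃ C : ℝ, 0 < C ∧ ∀ D : ℕ,
    ∑ n ∈ Finset.Icc 1 D, 1 / (n : ℝ) * ∑ l ∈ Finset.range n, wq n l ≤ C * (1 + (Nat.log 2 D : ℝ)) ^ 3 := by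
  refine ⟨24, by norm_num, fun D => ?_⟩
  obtain ⟨A, hA⟩ : ∃ A : ℕ → ℝ, A = fun i => uu i / UU i := ⟨_, rfl⟩
  obtain ⟨B, hB⟩ : ∃ B : ℕ → ℝ, B = fun r => kk r * UU r := ⟨_, rfl⟩
  have hA0 : ∀ i, 0 ≤ A i := by
    intro i
    rw [hA]
    exact div_nonneg (nonneg i) (UU_pos i).le
  have hB0 : ∀ i, 0 ≤ B i := by
    intro i
    rw [hB]
    exact mul_nonneg ENNReal.toReal_nonneg (UU_pos i).le
  have h1 : ∀ n ∈ Finset.Icc 1 D, 1 / (n : ℝ) * ∑ l ∈ Finset.range n, wq n l ≤
      2 * ∑ i ∈ Finset.range (D + 1), ∑ r ∈ Finset.range (D + 1), ∑ j ∈ Finset.range (D + 1),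
        if i + r + j = n then A i * B r * A j else 0 := by
    intro n hn
    rw [Finset.mem_Icc] at hn
    refine (one_n hn.1).trans ?_
    apply mul_le_mul_of_nonneg_left _ (by norm_num)
    have h2 : ∀ i ∈ Finset.range (n + 1), ∑ r ∈ Finset.range (n + 1), (if i + r ≤ n then
        uu i / UU i * (kk r * UU r) * (uu (n - i - r) / UU (n - i - r)) else 0) ≤
        ∑ r ∈ Finset.range (D + 1), ∑ j ∈ Finset.range (D + 1), if i + r + j = n then A i * B r * A j else 0 := by
      intro i _
      have h3 : ∀ r ∈ Finset.range (n + 1), (if i + r ≤ n then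
          uu i / UU i * (kk r * UU r) * (uu (n - i - r) / UU (n - i - r)) else 0) ≤
          ∑ j ∈ Finset.range (D + 1), if i + r + j = n then A i * B r * A j else 0 := by
        intro r _
        split_ifs with h
        · have h4 := Finset.single_le_sum (f := fun j => if i + r + j = n then A i * B r * A j else 0)
            (s := Finset.range (D + 1)) (fun j _ => by
              split_ifs
              · exact mul_nonneg (mul_nonneg (hA0 _) (hB0 _)) (hA0 _)
              · exact le_refl _) (show n - i - r ∈ Finset.range (D + 1) by rw [Finset.mem_range]; omega)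
          rw [if_pos (by omega)] at h4
          rw [hA, hB] at h4 ⊢
          exact h4
        · apply Finset.sum_nonneg
          intro j _
          split_ifs
          · exact mul_nonneg (mul_nonneg (hA0 _) (hB0 _)) (hA0 _)
          · exact le_refl _
      refine (Finset.sum_le_sum h3).trans ?_
      apply Finset.sum_le_sum_of_subset_of_nonneg
      · intro x hx
        rw [Finset.mem_range] at hx ⊢
        omega
      · intro r _ _
        apply Finset.sum_nonneg
        intro j _
        split_ifs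
        · exact mul_nonneg (mul_nonneg (hA0 _) (hB0 _)) (hA0 _)
        · exact le_refl _
    refine (Finset.sum_le_sum h2).trans ?_
    apply Finset.sum_le_sum_of_subset_of_nonneg
    · intro x hx
      rw [Finset.mem_range] at hx ⊢
      omega
    · intro i _ _
      apply Finset.sum_nonneg
      intro r _
      apply Finset.sum_nonneg
      intro j _
      split_ifs
      · exact mul_nonneg (mul_nonneg (hA0 _) (hB0 _)) (hA0 _)
      · exact le_refl _
  refine (Finset.sum_le_sum h1).trans ?_
  rw [← Finset.mul_sum]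
  have h2 : ∑ n ∈ Finset.Icc 1 D, ∑ i ∈ Finset.range (D + 1), ∑ r ∈ Finset.range (D + 1),
      ∑ j ∈ Finset.range (D + 1), (if i + r + j = n then A i * B r * A j else 0) ≤
      (∑ i ∈ Finset.range (D + 1), A i) * (∑ r ∈ Finset.range (D + 1), B r) * (∑ j ∈ Finset.range (D + 1), A j) := by
    rw [Finset.sum_mul_sum, Finset.sum_mul, Finset.sum_comm]
    apply Finset.sum_le_sum
    intro i _
    rw [Finset.sum_mul, Finset.sum_comm]
    apply Finset.sum_le_sum
    intro r _
    rw [Finset.mul_sum, Finset.sum_comm]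
    apply Finset.sum_le_sum
    intro j _
    rw [← Finset.sum_filter]
    have h3 : ((Finset.Icc 1 D).filter (fun n => i + r + j = n)) ⊆ {i + r + j} := by
      intro x hx
      rw [Finset.mem_filter] at hx
      rw [Finset.mem_singleton]
      exact hx.2.symm
    have h4 := Finset.sum_le_sum_of_subset_of_nonneg (f := fun _ : ℕ => A i * B r * A j) h3
      (fun _ _ _ => mul_nonneg (mul_nonneg (hA0 _) (hB0 _)) (hA0 _))
    rw [Finset.sum_singleton] at h4
    exact h4
  have hL : (0 : ℝ) ≤ 1 + (Nat.log 2 D : ℝ) := by positivity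
  have h3 : ∑ i ∈ Finset.range (D + 1), A i ≤ 2 * (1 + (Nat.log 2 D : ℝ)) := by
    rw [hA]
    exact sum_uU' D
  have h4 : ∑ i ∈ Finset.range (D + 1), B i ≤ 3 * (1 + (Nat.log 2 D : ℝ)) := by
    rw [hB]
    exact sum_kU' D
  have h5 : 0 ≤ ∑ i ∈ Finset.range (D + 1), A i := Finset.sum_nonneg fun i _ => hA0 i
  have h6 : 0 ≤ ∑ i ∈ Finset.range (D + 1), B i := Finset.sum_nonneg fun i _ => hB0 i
  have h7 : (∑ i ∈ Finset.range (D + 1), A i) * (∑ r ∈ Finset.range (D + 1), B r) *
      (∑ j ∈ Finset.range (D + 1), A j) ≤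
      (2 * (1 + (Nat.log 2 D : ℝ))) * (3 * (1 + (Nat.log 2 D : ℝ))) * (2 * (1 + (Nat.log 2 D : ℝ))) := by
    apply mul_le_mul _ h3 h5 (by positivity)
    exact mul_le_mul h3 h4 h6 (by positivity)
  calc 2 * _ ≤ 2 * ((2 * (1 + (Nat.log 2 D : ℝ))) * (3 * (1 + (Nat.log 2 D : ℝ))) *
      (2 * (1 + (Nat.log 2 D : ℝ)))) := mul_le_mul_of_nonneg_left (h2.trans h7) (by norm_num)
    _ = 24 * (1 + (Nat.log 2 D : ℝ)) ^ 3 := by ring

end HexObs
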