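import Pool.Agent.PHW.DefsF
import Pool.Agent.PHW.ViaT
import Pool.Agent.PHW.Mirror
import Pool.Agent.PHW.PairsA
import Pool.Agent.PHW.HangA
import Pool.Agent.HexSPR.Final

/-!
PHW section S6 (fold lemma): planarity.
-/

set_option autoImplicit false

namespace HexObs

open Complex Finset ENNReal

namespace Fld

/-- mirror image of a coincidence of vertices -/
lemma vx_mirror {s t : List Bool} {i j : ℕ} (hi : i ≤ s.length) (hj : j ≤ t.length)
    (h : vx (foot oo up 0) up (t.map not) j = vx (foot oo up 1) up (s.map not) i) :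
    vx (foot oo up 0) up s i = vx (foot oo up 1) up t j := by
  have hup : mulE (-1, 1) (conjE up) = up := by decide
  have e1 := vx_refl (-1, 1) (foot oo up 1) (foot oo up 0) up t (i := j) (by omega)
  have e2 := vx_refl (-1, 1) (foot oo up 0) (foot oo up 1) up s (i := i) (by omega)
  rw [hup, refl_form] at e1 e2
  rw [e1, e2] at h
  rw [foot_zero_eq, foot_one_eq] at h ⊢
  have a1 := congrArg Prod.fst h
  have a2 := congrArg Prod.snd h
  simp only [Prod.fst_add, Prod.snd_add, Prod.fst_sub, Prod.snd_sub] at a1 a2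
  apply Prod.ext
  · linarith
  · linarith

/-- a bridge on the right with two consecutive cuts at the heights y - 1 and y, and a walk S on its left -/
theorem kill_path_R {a y m : ℕ} {w1 w2 S : List Bool} (hy : 1 ≤ y) (hya : y ≤ a) (h1 : w1 ∈ Brd (y - 1))
    (h2 : w2 ∈ Brd (a - y)) (hm1 : 1 ≤ m) (hmS : m ≤ S.length)
    (ht : ∀ i, 1 ≤ i → i ≤ m → 0 < lev S i ∧ lev S i ≤ 3 * a)
    (hd : ∀ i, 1 ≤ i → i ≤ m → ∀ j, 1 ≤ j → j ≤ (w1 ++ [false, true] ++ w2).length →
      vx (foot oo up 0) up S i ≠ vx (foot oo up 1) up (w1 ++ [false, true] ++ w2) j)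
    (hl : lev S m = 3 * y - 1 ∨ lev S m = 3 * y) : lat S m < latE w1 + 2 := by
  have hW : w1.map not ++ [true, false] ++ w2.map not = (w1 ++ [false, true] ++ w2).map not := by
    simp
  have key := kill_path (k := 1) (s1 := w1.map not) (s2 := w2.map not) (t := S.map not) (m := m) hy hya
    (Brd_not h1) (Brd_not h2) hm1 ?_ one_pos ?_ ?_
  · rw [latE_not, lat_not S (by omega)] at key
    omega
  · intro i i1 i2
    rw [lev_not S (by omega)]
    exact ht i i1 i2
  · rw [hW]
    intro i i1 i2 j j1 j2 heq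
    rw [List.length_map] at i2
    exact hd j j1 j2 i i1 i2 (vx_mirror (by omega) i2 heq)
  · rw [lev_not S (by omega)]
    exact hl

/-- part below a tall left walk and beside a tall right walk: viable both ways -/
theorem V2_of_tall {y c nL nR : ℕ} {s Z' t Z : List Bool} (hs : s ∈ Brd y) (hZ' : Z' ∈ Brd nL) (ht : t ∈ Brd c)
    (hZ : Z ∈ Brd nR) (hyc : y ≤ c) (hc : c ≤ y + nL) (hd : Dj (s ++ Z') (t ++ Z)) : V2 s t := by
  refine ⟨Dj_prefix hd, ?_, ?_⟩
  · intro c' b s1 s2 h1 h2 hs12
    have hcb : y = c' + b := by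
      rw [hs12] at hs
      exact Brd_height hs (Brd_append h1 h2)
    rcases Nat.lt_or_ge c' c with h | h
    · refine row_right (n := b + nL) h1 (Brd_append h2 hZ') ht h (by omega) ?_
      rw [← List.append_assoc, ← hs12]
      exact HangA.Dj_pref_right hd
    · intro i hi
      obtain ⟨i1, i2⟩ := hi
      exfalso
      have h3 : lev t i ≤ 3 * c := by
        rcases Nat.eq_zero_or_pos i with h0 | h0
        · rw [h0, lev_zero]
          omega
        · exact ((mem_Brd.1 ht).1 i h0 i1).2
      omega
  · intro c' b s1 s2 h1 h2 hs12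
    have hcb : c = c' + b := by
      have h3 := Brd_not ht
      rw [hs12] at h3
      exact Brd_height h3 (Brd_append h1 h2)
    rcases Nat.lt_or_ge c' y with h | h
    · refine row_right (n := b + nR) h1 (Brd_append h2 (Brd_not hZ)) (Brd_not hs) h (by omega) ?_
      rw [← List.append_assoc, ← hs12, ← List.map_append]
      exact Dj_not (HangA.Dj_pref_left hd)
    · intro i hi
      obtain ⟨i1, i2⟩ := hi
      exfalso
      rw [List.length_map] at i1
      rw [lev_not s (by omega)] at i2
      have h3 : lev s i ≤ 3 * y := by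
        rcases Nat.eq_zero_or_pos i with h0 | h0
        · rw [h0, lev_zero]
          omega
        · exact ((mem_Brd.1 hs).1 i h0 i1).2
      omega

/-- the barrier: positions w in the layer z that are not on the right of all vertices of the barrier -/
def KB (P : List Bool) (m : ℕ) (z : ℕ) (w : ℤ) : Prop :=
  ∃ j, 1 ≤ j ∧ j ≤ m ∧ (lev P j = 3 * z - 1 ∨ lev P j = 3 * z) ∧ w ≤ lat P j

theorem V2_of_Bes {P : List Bool} {m : ℕ} {s t1 t2 : List Bool} (h : Bes P m s t1 t2) : V2 s t1 := by
  obtain ⟨y, c, n, nL, nR, Z', Z, hs, h1, h2, hZ', hZ, hyc, hc, -, -, -, hd⟩ := h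
  rw [List.append_assoc] at hd
  exact V2_of_tall hs hZ' h1 (Brd_append h2 hZ) hyc hc hd

theorem not_dead_of_Bes {P : List Bool} {m y c : ℕ} {s t1 t2 : List Bool} (hs : s ∈ Brd y) (ht1 : t1 ∈ Brd c)
    (h : Bes P m s t1 t2) : ¬ Ex.DeadL (KB P m) (c - y) (latE t1 + 2 - latE s) t2 := by
  obtain ⟨y', c', n, nL, nR, Z', Z, hs', h1', h2, hZ', hZ, hyc, -, hmP, ⟨Q, hQ⟩, hlev, hd⟩ := h
  obtain rfl : y = y' := Brd_height hs hs'
  obtain rfl : c = c' := Brd_height ht1 h1'
  rintro ⟨c1, b1, s1, u1, hs1, hu1, hcut, j, j1, j2, j3, j4⟩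
  have hft : [false, true] ∈ Brd 1 := by
    have := Brd_not Ex.tf_mem
    simpa using this
  have hn : n = c1 + 1 + b1 := by
    rw [hcut] at h2
    exact Brd_height h2 (Brd_append (Brd_append hs1 hft) hu1)
  have hsB := mem_Brd.1 hs
  have hZB := mem_Brd.1 hZ'
  have htB := mem_Brd.1 ht1
  have hmZ : m ≤ Z'.length := by
    rw [hQ, List.length_append, List.length_take]
    omega
  have hlevZ : ∀ i, i ≤ m → lev Z' i = lev P i := by
    intro i hi
    rw [hQ, lev_append (by rw [List.length_take]; omega)]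
    have h3 := lev_append (s := P.take m) (t := P.drop m) (i := i) (by rw [List.length_take]; omega)
    rw [List.take_append_drop] at h3
    exact h3.symm
  have hlatZ : ∀ i, i ≤ m → lat Z' i = lat P i := by
    intro i hi
    rw [hQ, lat_append (by rw [List.length_take]; omega)]
    have h3 := lat_append (s := P.take m) (t := P.drop m) (i := i) (by rw [List.length_take]; omega)
    rw [List.take_append_drop] at h3
    exact h3.symm
  have hW : t1 ++ s1 ++ [false, true] ++ (u1 ++ Z) = t1 ++ t2 ++ Z := by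
    rw [hcut]
    simp only [List.append_assoc]
  have key := kill_path_R (a := c + n + nR) (y := c + c1 + 1) (m := s.length + j) (w1 := t1 ++ s1) (w2 := u1 ++ Z)
    (S := s ++ Z') (by omega) (by omega) (by
      have := Brd_append ht1 hs1
      exact this) (by
      have := Brd_append hu1 hZ
      have e : c + n + nR - (c + c1 + 1) = b1 + nR := by omega
      rw [e]
      exact this) (by omega) (by rw [List.length_append]; omega) ?_ ?_ ?_
  · rw [lat_cat hsB.2.2.1, hlatZ j j2, latE_cat htB.2.2.1] at key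
    omega
  · intro i i1 i2
    rcases Nat.lt_or_ge s.length i with h | h
    · obtain ⟨i', rfl⟩ : ∃ i', i = s.length + i' := ⟨i - s.length, by omega⟩
      have h3 := hZB.1 i' (by omega) (by omega)
      have h4 := hlev i' (by omega)
      rw [lev_cat hsB.2.2.1, hsB.2.2.2, hlevZ i' (by omega)]
      rw [hlevZ i' (by omega)] at h3
      push_cast
      omega
    · have h3 := hsB.1 i i1 h
      rw [lev_append (by omega)]
      push_cast
      omega
  · rw [hW]
    intro i i1 i2 j' j1' j2' heq
    exact Set.disjoint_left.1 hd ⟨i, i1, by rw [List.length_append]; omega, heq⟩ ⟨j', j1', j2', rfl⟩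
  · rw [lev_cat hsB.2.2.1, hsB.2.2.2, hlevZ j j2]
    push_cast
    omega

end Fld

end HexObs
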