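import Pool.Agent.PHW.QuasiRGen
import Pool.Agent.PHW.ChainS
import Pool.Agent.PHW.CuLog
import Pool.Agent.PHW.NumR

/-!
PHW, part Q: quasi-polynomial bound for the total weight of the chains.
-/

set_option autoImplicit false

namespace HexObs

open Complex Finset ENNReal

theorem GF_quasi : ∃ C : ℝ, 0 < C ∧ ∀ T : ℕ,
    GF 64 T T ≤ ENNReal.ofReal (Real.exp (C * (1 + (Nat.log 2 (T + 1) : ℝ)) ^ C)) :=
  GF_quasi_gen (GF_zero 64) (GF_step 64) cu_log wq_sum

end HexObs
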