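import Pool.Agent.PHW.DefsQ
import Pool.Agent.PHW.Num3

/-!
PHW, part Q: solution of the recursion along the chain (general form, the inputs are hypotheses).
-/

set_option autoImplicit false

namespace HexObs

open Complex Finset ENNReal

namespace QR

lemma BT_le1 (T : ℕ) : BT T ≤ 1 := by
  rcases Nat.eq_zero_or_pos T with rfl | h
  · rw [← gf_Brd, Brd_zero]
    unfold gf
    rw [tsum_singleton (f := wE)]
    unfold wE
    simp
  · exact BT_le_one h

lemma BT_top (T : ℕ) : BT T ≠ ∞ := ne_top_of_le_ne_top ENNReal.one_ne_top (BT_le1 T)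

lemma BT_uu (T : ℕ) : BT T = ENNReal.ofReal (uu T) := (ENNReal.ofReal_toReal (BT_top T)).symm

lemma kap_kk (r : ℕ) : kap' r = ENNReal.ofReal (kk r) := by
  refine (ENNReal.ofReal_toReal (ne_top_of_le_ne_top (BT_top r) ?_)).symm
  rw [← gf_Brd]
  exact gf_mono (fun t ht => ht.1)

lemma UU_pos (T : ℕ) : 0 < UU T := by
  unfold UU
  exact Finset.sum_pos (fun t _ => uu_pos t) ⟨0, by simp⟩

lemma UU_mono {a b : ℕ} (h : a ≤ b) : UU a ≤ UU b := by
  unfold UU
  apply Finset.sum_le_sum_of_subset_of_nonneg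
  · exact Finset.range_mono (by omega)
  · exact fun t _ _ => (uu_pos t).le

/-- majorant of the total weights -/
noncomputable def maj (n a : ℕ) : ℝ := uu a * max 1 (UU n / UU a)

lemma maj_nonneg (n a : ℕ) : 0 ≤ maj n a :=
  mul_nonneg (uu_pos a).le (le_max_of_le_left zero_le_one)

lemma maj_mono {m n : ℕ} (h : m ≤ n) (a : ℕ) : maj m a ≤ maj n a := by
  unfold maj
  apply mul_le_mul_of_nonneg_left _ (uu_pos a).le
  apply max_le_max le_rfl
  exact div_le_div_of_nonneg_right (UU_mono h) (UU_pos a).le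

lemma maj_low {n j : ℕ} (h : j ≤ n) : maj n j = UU n * (uu j / UU j) := by
  unfold maj
  have h1 : 1 ≤ UU n / UU j := by
    rw [one_le_div (UU_pos j)]
    exact UU_mono h
  rw [max_eq_right h1]
  field_simp

/-- the kernel of the pairs against the majorant -/
lemma ker_le {n a i : ℕ} (hi : i ≤ n) : uu a * uu i / UU (min a i) ≤ maj n a * (uu i / UU i) := by
  unfold maj
  have ha := uu_pos a
  have hui := uu_pos i
  rcases le_total a i with h | h
  · rw [min_eq_left h]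
    have h1 : UU i / UU a ≤ max 1 (UU n / UU a) :=
      (div_le_div_of_nonneg_right (UU_mono hi) (UU_pos a).le).trans (le_max_right _ _)
    have e : uu a * uu i / UU a = uu a * (UU i / UU a) * (uu i / UU i) := by
      have := UU_pos i
      field_simp
    rw [e]
    apply mul_le_mul_of_nonneg_right _ (div_pos hui (UU_pos i)).le
    exact mul_le_mul_of_nonneg_left h1 ha.le
  · rw [min_eq_right h]
    have e : uu a * uu i / UU i = uu a * 1 * (uu i / UU i) := by ring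
    rw [e]
    apply mul_le_mul_of_nonneg_right _ (div_pos hui (UU_pos i)).le
    exact mul_le_mul_of_nonneg_left (le_max_left _ _) ha.le

lemma wq_nn (n l : ℕ) : 0 ≤ wq n l := by
  unfold wq
  apply mul_nonneg (UU_pos n).le
  apply Finset.sum_nonneg
  intro i _
  apply Finset.sum_nonneg
  intro r _
  exact mul_nonneg (mul_nonneg (div_pos (uu_pos i) (UU_pos i)).le (kk_nonneg r))
    (div_pos (uu_pos _) (UU_pos _)).le

/-- one step -/
lemma step {Λ M : ℝ} (hΛ : 0 ≤ Λ) (hM : 0 ≤ M) {n l : ℕ} (hl : l ≤ n) (a : ℕ)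
    (hst : GF 64 (n + 1) a ≤ GF 64 n a + 64 * (2 * ∑ i ∈ Finset.range (l + 1),
      ∑ r ∈ Finset.Ico (l + 1 - i) (n + 2 - i), gg a i * kap' r * GF 64 n (n + 1 - i - r)))
    (hgg : ∀ i, i ≤ n → gg a i ≤ ENNReal.ofReal (Λ * (uu a * uu i / UU (min a i))))
    (hG : ∀ b, GF 64 n b ≤ ENNReal.ofReal (M * maj n b)) :
    GF 64 (n + 1) a ≤ ENNReal.ofReal (M * (1 + 128 * Λ * wq (n + 1) l) * maj (n + 1) a) := by
  have hterm : ∀ i ∈ Finset.range (l + 1), ∀ r ∈ Finset.Ico (l + 1 - i) (n + 2 - i),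
      gg a i * kap' r * GF 64 n (n + 1 - i - r) ≤
        ENNReal.ofReal (Λ * M * maj (n + 1) a * (UU (n + 1) * (uu i / UU i * kk r *
          (uu (n + 1 - i - r) / UU (n + 1 - i - r))))) := by
    intro i hi r hr
    rw [Finset.mem_range] at hi
    rw [Finset.mem_Ico] at hr
    have h1 := hgg i (by omega)
    have h2 := hG (n + 1 - i - r)
    rw [kap_kk r]
    refine (mul_le_mul' (mul_le_mul' h1 le_rfl) h2).trans ?_
    have hk := kk_nonneg r
    have e1 : 0 ≤ Λ * (uu a * uu i / UU (min a i)) :=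
      mul_nonneg hΛ (div_nonneg (mul_nonneg (uu_pos a).le (uu_pos i).le) (UU_pos _).le)
    rw [← ENNReal.ofReal_mul e1, ← ENNReal.ofReal_mul (mul_nonneg e1 hk)]
    apply ENNReal.ofReal_le_ofReal
    have h3 := ker_le (n := n) (a := a) (i := i) (by omega)
    have h4 : maj n a ≤ maj (n + 1) a := maj_mono (by omega) a
    have h5 := maj_low (n := n) (j := n + 1 - i - r) (by omega)
    have hq1 : 0 ≤ uu i / UU i := (div_pos (uu_pos i) (UU_pos i)).le
    have hq2 : 0 ≤ uu (n + 1 - i - r) / UU (n + 1 - i - r) := (div_pos (uu_pos _) (UU_pos _)).le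
    have h6 : UU n ≤ UU (n + 1) := UU_mono (by omega)
    rw [h5]
    have h7 : uu a * uu i / UU (min a i) ≤ maj (n + 1) a * (uu i / UU i) :=
      h3.trans (mul_le_mul_of_nonneg_right h4 hq1)
    calc Λ * (uu a * uu i / UU (min a i)) * kk r *
        (M * (UU n * (uu (n + 1 - i - r) / UU (n + 1 - i - r))))
        ≤ Λ * (maj (n + 1) a * (uu i / UU i)) * kk r *
        (M * (UU (n + 1) * (uu (n + 1 - i - r) / UU (n + 1 - i - r)))) := by
          apply mul_le_mul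
          · exact mul_le_mul_of_nonneg_right (mul_le_mul_of_nonneg_left h7 hΛ) hk
          · exact mul_le_mul_of_nonneg_left (mul_le_mul_of_nonneg_right h6 hq2) hM
          · exact mul_nonneg hM (mul_nonneg (UU_pos n).le hq2)
          · exact mul_nonneg (mul_nonneg hΛ (mul_nonneg (maj_nonneg _ _) hq1)) hk
      _ = _ := by ring
  have hsum : ∑ i ∈ Finset.range (l + 1), ∑ r ∈ Finset.Ico (l + 1 - i) (n + 2 - i),
      gg a i * kap' r * GF 64 n (n + 1 - i - r) ≤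
        ENNReal.ofReal (Λ * M * maj (n + 1) a * wq (n + 1) l) := by
    refine (Finset.sum_le_sum fun i hi => Finset.sum_le_sum fun r hr => hterm i hi r hr).trans ?_
    have hnn : ∀ i r : ℕ, 0 ≤ Λ * M * maj (n + 1) a * (UU (n + 1) * (uu i / UU i * kk r *
          (uu (n + 1 - i - r) / UU (n + 1 - i - r)))) := by
      intro i r
      exact mul_nonneg (mul_nonneg (mul_nonneg hΛ hM) (maj_nonneg _ _))
        (mul_nonneg (UU_pos _).le (mul_nonneg (mul_nonneg (div_pos (uu_pos i) (UU_pos i)).le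
          (kk_nonneg r)) (div_pos (uu_pos _) (UU_pos _)).le))
    have e1 : ∀ i ∈ Finset.range (l + 1), ∑ r ∈ Finset.Ico (l + 1 - i) (n + 2 - i),
        ENNReal.ofReal (Λ * M * maj (n + 1) a * (UU (n + 1) * (uu i / UU i * kk r *
          (uu (n + 1 - i - r) / UU (n + 1 - i - r))))) =
        ENNReal.ofReal (∑ r ∈ Finset.Ico (l + 1 - i) (n + 2 - i), Λ * M * maj (n + 1) a *
          (UU (n + 1) * (uu i / UU i * kk r * (uu (n + 1 - i - r) / UU (n + 1 - i - r))))) :=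
      fun i _ => (ENNReal.ofReal_sum_of_nonneg fun r _ => hnn i r).symm
    rw [Finset.sum_congr rfl e1, ← ENNReal.ofReal_sum_of_nonneg
      (fun i _ => Finset.sum_nonneg fun r _ => hnn i r)]
    apply ENNReal.ofReal_le_ofReal
    apply le_of_eq
    unfold wq
    simp_rw [← Finset.mul_sum]
  have h1 : GF 64 n a ≤ ENNReal.ofReal (M * maj (n + 1) a) :=
    (hG a).trans (ENNReal.ofReal_le_ofReal (mul_le_mul_of_nonneg_left (maj_mono (by omega) a) hM))
  refine hst.trans ((add_le_add h1 (mul_le_mul' le_rfl (mul_le_mul' le_rfl hsum))).trans ?_)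
  have e64 : (64 : ℝ≥0∞) = ENNReal.ofReal 64 := by norm_num
  have e2 : (2 : ℝ≥0∞) = ENNReal.ofReal 2 := by norm_num
  have hn1 : 0 ≤ M * maj (n + 1) a := mul_nonneg hM (maj_nonneg _ _)
  have hn2 : 0 ≤ Λ * M * maj (n + 1) a * wq (n + 1) l :=
    mul_nonneg (mul_nonneg (mul_nonneg hΛ hM) (maj_nonneg _ _)) (wq_nn _ _)
  rw [e64, e2, ← ENNReal.ofReal_mul (by norm_num), ← ENNReal.ofReal_mul (by norm_num),
    ← ENNReal.ofReal_add hn1 (mul_nonneg (by norm_num) (mul_nonneg (by norm_num) hn2))]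
  apply ENNReal.ofReal_le_ofReal
  apply le_of_eq
  ring

/-- some value is at most the average -/
lemma exists_avg (n : ℕ) (f : ℕ → ℝ) : ∃ l, l ≤ n ∧ f l ≤ 1 / ((n + 1 : ℕ) : ℝ) * ∑ l ∈ Finset.range (n + 1), f l := by
  by_contra h
  push Not at h
  have h1 : ∑ l ∈ Finset.range (n + 1), 1 / ((n + 1 : ℕ) : ℝ) * ∑ l ∈ Finset.range (n + 1), f l <
      ∑ l ∈ Finset.range (n + 1), f l :=
    Finset.sum_lt_sum_of_nonempty ⟨0, by simp⟩ fun l hl => h l (by rw [Finset.mem_range] at hl; omega)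
  rw [Finset.sum_const, Finset.card_range, nsmul_eq_mul] at h1
  have h2 : ((n + 1 : ℕ) : ℝ) ≠ 0 := by positivity
  field_simp at h1
  exact lt_irrefl _ h1

end QR

open QR in
/-- solution of the recursion along the chain: the general form -/
theorem GF_quasi_of
    (hz : ∀ a : ℕ, GF 64 0 a = BT a)
    (hst : ∀ {n l : ℕ}, l ≤ n → ∀ a : ℕ, GF 64 (n + 1) a ≤ GF 64 n a + 64 * (2 * ∑ i ∈ Finset.range (l + 1),
      ∑ r ∈ Finset.Ico (l + 1 - i) (n + 2 - i), gg a i * kap' r * GF 64 n (n + 1 - i - r)))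
    {D : ℕ} {Λ : ℝ} (hΛ : 0 ≤ Λ)
    (hgg : ∀ a i : ℕ, i ≤ D → gg a i ≤ ENNReal.ofReal (Λ * (uu a * uu i / UU (min a i)))) :
    ∀ n, n ≤ D → ∀ a, GF 64 n a ≤ ENNReal.ofReal (Real.exp (128 * Λ * ∑ m ∈ Finset.Icc 1 n,
      1 / (m : ℝ) * ∑ l ∈ Finset.range m, wq m l) * maj n a) := by
  intro n
  induction n with
  | zero =>
    intro _ a
    rw [hz, BT_uu]
    apply ENNReal.ofReal_le_ofReal
    have h1 : uu a ≤ maj 0 a := by
      unfold maj
      exact le_mul_of_one_le_right (uu_pos a).le (le_max_left _ _)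
    simpa using h1
  | succ n ih =>
    intro hn a
    obtain ⟨l, hl, hw⟩ := exists_avg n (fun l => wq (n + 1) l)
    have h := step hΛ (Real.exp_pos _).le hl a (hst hl a)
      (fun i hi => hgg a i (by omega)) (ih (by omega))
    refine h.trans (ENNReal.ofReal_le_ofReal ?_)
    apply mul_le_mul_of_nonneg_right _ (maj_nonneg _ _)
    rw [Finset.sum_Icc_succ_top (by omega), mul_add (128 * Λ), Real.exp_add]
    apply mul_le_mul_of_nonneg_left _ (Real.exp_pos _).le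
    refine le_trans ?_ (Real.add_one_le_exp _)
    have h2 : 128 * Λ * wq (n + 1) l ≤ 128 * Λ * (1 / ((n + 1 : ℕ) : ℝ) *
        ∑ l ∈ Finset.range (n + 1), wq (n + 1) l) :=
      mul_le_mul_of_nonneg_left hw (by positivity)
    linarith

namespace QR

lemma gg_le_mul (a b : ℕ) : gg a b ≤ BT a * BT b := by
  rw [gg_eq_g2, g2_left]
  have h : ∀ s : {s : List Bool // s ∈ Brd a}, wE s.1 * gf {t | t ∈ Brd b ∧ Dj s.1 t} ≤ wE s.1 * BT b := by
    intro s
    apply mul_le_mul' le_rfl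
    rw [← gf_Brd]
    exact gf_mono fun t ht => ht.1
  refine (ENNReal.tsum_le_tsum h).trans ?_
  rw [ENNReal.tsum_mul_right, ← gf_Brd a]
  exact le_rfl

lemma UU0 : UU 0 = 1 := by
  unfold UU
  simp [uu_zero]

lemma gg_bound {C1 : ℝ} (hC1 : 0 < C1)
    (hcu : ∀ a b : ℕ, 1 ≤ b → b ≤ a →
      gg b a ≤ ENNReal.ofReal (C1 * (1 + (Nat.log 2 b : ℝ)) ^ C1 * (uu a * uu b / UU b)))
    {D a i : ℕ} (hi : i ≤ D) :
    gg a i ≤ ENNReal.ofReal ((C1 * (1 + (Nat.log 2 D : ℝ)) ^ C1 + 1) * (uu a * uu i / UU (min a i))) := by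
  have hL : (0 : ℝ) ≤ C1 * (1 + (Nat.log 2 D : ℝ)) ^ C1 := by positivity
  have hq : ∀ a i j : ℕ, 0 ≤ uu a * uu i / UU j := fun a i j =>
    div_nonneg (mul_nonneg (uu_pos a).le (uu_pos i).le) (UU_pos j).le
  have htriv : min a i = 0 → gg a i ≤
      ENNReal.ofReal ((C1 * (1 + (Nat.log 2 D : ℝ)) ^ C1 + 1) * (uu a * uu i / UU (min a i))) := by
    intro h0
    refine (gg_le_mul a i).trans ?_
    rw [BT_uu, BT_uu, ← ENNReal.ofReal_mul (uu_pos a).le, h0, UU0, div_one]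
    apply ENNReal.ofReal_le_ofReal
    have := mul_nonneg (uu_pos a).le (uu_pos i).le
    nlinarith
  have hmono : ∀ m : ℕ, m ≤ D → C1 * (1 + (Nat.log 2 m : ℝ)) ^ C1 ≤ C1 * (1 + (Nat.log 2 D : ℝ)) ^ C1 + 1 := by
    intro m hm
    have h1 : (Nat.log 2 m : ℝ) ≤ (Nat.log 2 D : ℝ) := by exact_mod_cast Nat.log_mono_right hm
    have h2 : (1 + (Nat.log 2 m : ℝ)) ^ C1 ≤ (1 + (Nat.log 2 D : ℝ)) ^ C1 :=
      Real.rpow_le_rpow (by positivity) (by linarith) hC1.le
    nlinarith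
  rcases le_total i a with h | h
  · rcases Nat.eq_zero_or_pos i with h0 | h0
    · exact htriv (by rw [h0]; exact Nat.min_zero a)
    · rw [gg_symm, min_eq_right h]
      refine (hcu a i h0 h).trans (ENNReal.ofReal_le_ofReal ?_)
      exact mul_le_mul_of_nonneg_right (hmono i hi) (hq a i i)
  · rcases Nat.eq_zero_or_pos a with h0 | h0
    · exact htriv (by rw [h0]; exact Nat.zero_min i)
    · rw [min_eq_left h]
      refine (hcu i a h0 h).trans (ENNReal.ofReal_le_ofReal ?_)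
      rw [mul_comm (uu i) (uu a)]
      exact mul_le_mul_of_nonneg_right (hmono a (h.trans hi)) (hq a i a)

/-- the final numbers -/
lemma final_num {C1 C2 : ℝ} (hC1 : 0 < C1) (hC2 : 0 < C2) {L : ℝ} (hL : 1 ≤ L) :
    128 * (C1 * L ^ C1 + 1) * (C2 * L ^ 3) ≤
      (128 * (C1 + 1) * C2 + C1 + 3) * L ^ (128 * (C1 + 1) * C2 + C1 + 3) := by
  have hL0 : 0 < L := by linarith
  have h1 : 1 ≤ L ^ C1 := Real.one_le_rpow hL hC1.le
  have h2 : C1 * L ^ C1 + 1 ≤ (C1 + 1) * L ^ C1 := by nlinarith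
  have h3 : L ^ C1 * L ^ 3 = L ^ (C1 + 3) := by
    rw [Real.rpow_add hL0]
    norm_num
  have hA : 0 < 128 * (C1 + 1) * C2 := by positivity
  have h4 : L ^ (C1 + 3) ≤ L ^ (128 * (C1 + 1) * C2 + C1 + 3) :=
    Real.rpow_le_rpow_of_exponent_le hL (by linarith)
  calc 128 * (C1 * L ^ C1 + 1) * (C2 * L ^ 3)
      ≤ 128 * ((C1 + 1) * L ^ C1) * (C2 * L ^ 3) := by
        apply mul_le_mul_of_nonneg_right _ (by positivity)
        linarith
    _ = 128 * (C1 + 1) * C2 * (L ^ C1 * L ^ 3) := by ring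
    _ = 128 * (C1 + 1) * C2 * L ^ (C1 + 3) := by rw [h3]
    _ ≤ (128 * (C1 + 1) * C2 + C1 + 3) * L ^ (128 * (C1 + 1) * C2 + C1 + 3) := by
        apply mul_le_mul (by linarith) h4 (by positivity) (by positivity)

end QR

open QR in
theorem GF_quasi_gen
    (hz : ∀ a : ℕ, GF 64 0 a = BT a)
    (hst : ∀ {n l : ℕ}, l ≤ n → ∀ a : ℕ, GF 64 (n + 1) a ≤ GF 64 n a + 64 * (2 * ∑ i ∈ Finset.range (l + 1),
      ∑ r ∈ Finset.Ico (l + 1 - i) (n + 2 - i), gg a i * kap' r * GF 64 n (n + 1 - i - r)))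
    (hcu : ∃ C : ℝ, 0 < C ∧ ∀ a b : ℕ, 1 ≤ b → b ≤ a →
      gg b a ≤ ENNReal.ofReal (C * (1 + (Nat.log 2 b : ℝ)) ^ C * (uu a * uu b / UU b)))
    (hws : ∃ C : ℝ, 0 < C ∧ ∀ D : ℕ,
      ∑ n ∈ Finset.Icc 1 D, 1 / (n : ℝ) * ∑ l ∈ Finset.range n, wq n l ≤ C * (1 + (Nat.log 2 D : ℝ)) ^ 3) :
    ∃ C : ℝ, 0 < C ∧ ∀ T : ℕ,
      GF 64 T T ≤ ENNReal.ofReal (Real.exp (C * (1 + (Nat.log 2 (T + 1) : ℝ)) ^ C)) := by
  obtain ⟨C1, hC1, hcu⟩ := hcu
  obtain ⟨C2, hC2, hws⟩ := hws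
  refine ⟨128 * (C1 + 1) * C2 + C1 + 3, by positivity, fun T => ?_⟩
  have h := GF_quasi_of hz hst (D := T) (Λ := C1 * (1 + (Nat.log 2 T : ℝ)) ^ C1 + 1) (by positivity)
    (fun a i hi => gg_bound hC1 hcu hi) T le_rfl T
  refine h.trans (ENNReal.ofReal_le_ofReal ?_)
  have h1 : maj T T ≤ 1 := by
    unfold maj
    rw [div_self (UU_pos T).ne', max_self, mul_one]
    exact uu_le_one T
  refine (mul_le_of_le_one_right (Real.exp_pos _).le h1).trans ?_
  apply Real.exp_le_exp.2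
  have hL1 : (1 : ℝ) ≤ 1 + (Nat.log 2 (T + 1) : ℝ) := by
    have : (0 : ℝ) ≤ (Nat.log 2 (T + 1) : ℝ) := Nat.cast_nonneg _
    linarith
  have hLL : 1 + (Nat.log 2 T : ℝ) ≤ 1 + (Nat.log 2 (T + 1) : ℝ) := by
    have : (Nat.log 2 T : ℝ) ≤ (Nat.log 2 (T + 1) : ℝ) := by
      exact_mod_cast Nat.log_mono_right (Nat.le_succ T)
    linarith
  have hL0 : (0 : ℝ) ≤ 1 + (Nat.log 2 T : ℝ) := by positivity
  refine le_trans ?_ (final_num hC1 hC2 hL1)
  apply mul_le_mul
  · have h2 : (1 + (Nat.log 2 T : ℝ)) ^ C1 ≤ (1 + (Nat.log 2 (T + 1) : ℝ)) ^ C1 :=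
      Real.rpow_le_rpow hL0 hLL hC1.le
    nlinarith
  · refine (hws T).trans ?_
    exact mul_le_mul_of_nonneg_left (pow_le_pow_left₀ hL0 hLL 3) hC2.le
  · apply Finset.sum_nonneg
    intro n _
    exact mul_nonneg (by positivity) (Finset.sum_nonneg fun l _ => wq_nn n l)
  · positivity

end HexObs
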