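import Pool.Agent.PHW.KillF

/-!
PHW section S6 (fold lemma): sums over the states.
-/

set_option autoImplicit false

namespace HexObs

open Complex Finset ENNReal

namespace Fld

lemma Gap_prefix {s t u : List Bool} {c : ℕ} {G : ℤ} (h : Gap s (t ++ u) c G) : Gap s t c G := by
  intro i hi
  obtain ⟨i1, i2⟩ := hi
  have := h i ⟨by rw [List.length_append]; omega, by rw [lev_append (by omega)]; exact i2⟩
  rwa [lat_append (by omega)] at this

lemma Via_prefix {b : ℕ} {s s' t t' : List Bool} (hs' : s' ∈ Brd b) (h : Via (s ++ s') (t ++ t')) : Via s t := by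
  intro c n s1 s2 h1 h2 h3
  exact Gap_prefix (h c (n + b) s1 (s2 ++ s') h1 (Brd_append h2 hs') (by rw [h3, List.append_assoc]))

theorem V2_prefix {b b' : ℕ} {s s' t t' : List Bool} (hs' : s' ∈ Brd b) (ht' : t' ∈ Brd b')
    (h : V2 (s ++ s') (t ++ t')) : V2 s t := by
  obtain ⟨h1, h2, h3⟩ := h
  refine ⟨Dj_prefix h1, Via_prefix hs' h2, ?_⟩
  rw [List.map_append, List.map_append] at h3
  exact Via_prefix (Brd_not ht') h3

/-- the rest of a walk up to its first cut at or above y behind a cut -/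
lemma mem_UR {s y c d : ℕ} {t1 t2 : List Bool} (h1 : t1 ∈ FC s d) (h2 : t2 ∈ Brd (c - d)) (hdc : d ≤ c)
    (h : t1 ++ t2 ∈ FC y c) : t2 ∈ JumpVaux.UR y d c := by
  have hcd : t1 ++ t2 ∈ Brd c := h.1
  rcases Nat.lt_or_ge d y with hd | hd
  · right
    refine ⟨hd, h2, by have := h.2.1; omega, ?_⟩
    rintro c' hc1 hc2 ⟨x, z, b, hx, hz, hxz⟩
    apply h.2.2 (d + c') (by omega) (by omega)
    refine ⟨t1 ++ x, z, b, Brd_append h1.1 hx, hz, ?_⟩
    rw [hxz, List.append_assoc]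
  · left
    have hj : c = d := by
      by_contra hne
      exact h.2.2 d hd (by omega) ⟨t1, t2, _, h1.1, h2, rfl⟩
    refine ⟨hd, hj, ?_⟩
    rw [hj, Nat.sub_self, Brd_zero] at h2
    exact h2

/-- total weight of the rests -/
lemma gf_UR_le (y d : ℕ) : gf {u | ∃ c, y ≤ c ∧ u ∈ JumpVaux.UR y d c} ≤ 1 := by
  classical
  have h1 : gf {u | ∃ c, y ≤ c ∧ u ∈ JumpVaux.UR y d c} ≤
      ∑' c : ℕ, (if y ≤ c then gf (JumpVaux.UR y d c) else 0) := by
    refine (tsum_iUnion_le (fun u => wE u) (fun c : ℕ => {u | y ≤ c ∧ u ∈ JumpVaux.UR y d c}) ?_).trans ?_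
    · rintro u ⟨c, hc1, hc2⟩
      exact ⟨c, hc1, hc2⟩
    · refine ENNReal.tsum_le_tsum fun c => ?_
      split_ifs with h
      · exact gf_mono fun u hu => hu.2
      · rw [nonpos_iff_eq_zero, ENNReal.tsum_eq_zero]
        rintro ⟨u, hu⟩
        exact absurd hu.1 h
  refine h1.trans (ENNReal.tsum_le_of_sum_range_le fun N => ?_)
  rw [← Finset.sum_filter]
  have h2 : (Finset.range N).filter (fun c => y ≤ c) = Finset.Ico y N := by
    ext c
    simp only [Finset.mem_filter, Finset.mem_range, Finset.mem_Ico]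
    omega
  rw [h2]
  exact JumpVaux.sum_UR y d N

lemma W2_biUnion_le {ι : Type*} (I : Finset ι) (G : ι → Set (List Bool × List Bool))
    {S : Set (List Bool × List Bool)} (h : ∀ p ∈ S, ∃ i ∈ I, p ∈ G i) : W2 S ≤ ∑ i ∈ I, W2 (G i) := by
  classical
  have h1 := tsum_iUnion_le (fun p : List Bool × List Bool => wE p.1 * wE p.2) (fun i : I => G i) (S := S)
    (fun p hp => by
      obtain ⟨i, hi, hpi⟩ := h p hp
      exact ⟨⟨i, hi⟩, hpi⟩)
  refine h1.trans (le_of_eq ?_)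
  rw [tsum_fintype, ← Finset.sum_coe_sort I]
  rfl

/-- the states with the exact leg in an interval of heights -/
def SI (a v l : ℕ) : Set (List Bool × List Bool) :=
  {p | ∃ y c, Bl a y ∧ v ≤ y ∧ y < v + l ∧ p.1 ∈ Brd y ∧ p.2 ∈ FC y c ∧ V2 p.1 p.2}

theorem W2_SI {C : ℝ} (hC : 0 < C) (h5 : S5T C) (a v l : ℕ) :
    W2 (SI a v l) ≤ ENNReal.ofReal ((C + 2) * (UU l / UU (2 ^ a))) := by
  classical
  have hUl := Num2Aux.UU_pos l
  have hUa := Num2Aux.UU_pos (2 ^ a)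
  rcases Nat.eq_zero_or_pos a with ha | ha
  · -- heights 0 and 1
    subst ha
    rcases Nat.eq_zero_or_pos l with hl | hl
    · have h1 : SI 0 v l = ∅ := by
        ext p
        constructor
        · rintro ⟨y, c, -, h2, h3, -⟩
          omega
        · exact fun h => absurd h (Set.notMem_empty p)
      rw [h1]
      have h2 : W2 ∅ = 0 := by
        unfold W2
        rw [ENNReal.tsum_eq_zero]
        rintro ⟨p, hp⟩
        exact absurd hp (Set.notMem_empty p)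
      rw [h2]
      exact zero_le
    · have h1 : W2 (SI 0 v l) ≤ ∑ y ∈ Finset.range 2, W2 {p | p.1 ∈ Brd y ∧ ∃ c, p.2 ∈ FC y c} := by
        apply W2_biUnion_le
        rintro p ⟨y, c, h2, -, -, h3, h4, -⟩
        have h5 := h2.1
        exact ⟨y, Finset.mem_range.2 (by simpa using h5), h3, c, h4⟩
      refine h1.trans ?_
      have h2 : ∀ y ∈ Finset.range 2, W2 {p | p.1 ∈ Brd y ∧ ∃ c, p.2 ∈ FC y c} ≤ 1 := by
        intro y _
        refine (W2_prod_le (A := Brd y) (B := {u | ∃ c, y ≤ c ∧ u ∈ JumpVaux.UR y 0 c}) ?_).trans ?_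
        · rintro p ⟨h3, c, h4⟩
          refine ⟨h3, c, h4.2.1, ?_⟩
          have h6 : ([] : List Bool) ∈ FC 0 0 := ⟨nil_mem_Brd, le_rfl, fun c' _ h => by omega⟩
          exact mem_UR (t1 := []) h6 (by simpa using h4.1) (by omega) (by simpa using h4)
        · have h5 : gf (Brd y) ≤ 1 := by
            rw [gf_Brd, BT_eq_uu]
            exact ENNReal.ofReal_le_one.2 (uu_le_one y)
          calc gf (Brd y) * gf {u | ∃ c, y ≤ c ∧ u ∈ JumpVaux.UR y 0 c} ≤ 1 * 1 := by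
                gcongr
                exact gf_UR_le y 0
            _ = 1 := one_mul 1
      refine (Finset.sum_le_sum h2).trans ?_
      rw [Finset.sum_const, Finset.card_range]
      have h3 : (2 • (1 : ℝ≥0∞)) = ENNReal.ofReal 2 := by
        simp
      rw [h3]
      apply ENNReal.ofReal_le_ofReal
      have h4 : UU (2 ^ 0) ≤ UU l := Num2Aux.UU_mono (by rw [pow_zero]; exact hl)
      have h5 : 1 ≤ UU l / UU (2 ^ 0) := by
        rw [le_div_iff₀ hUa, one_mul]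
        exact h4
      nlinarith
  · -- the general case
    refine (W2_dep (S := {q | q.1 ∈ FCU (2 ^ a) ∧ q.2 ∈ FCU (2 ^ a) ∧ V2 q.1 q.2})
      (R := fun q => {r | ∃ y c c1 d1, v ≤ y ∧ y < v + l ∧ q.1 ∈ Brd c1 ∧ q.2 ∈ Brd d1 ∧ c1 ≤ y ∧ y ≤ c ∧
        r.1 ∈ Brd (y - c1) ∧ r.2 ∈ JumpVaux.UR y d1 c}) ?_).trans ?_
    · rintro ⟨s, t⟩ ⟨y, c, hy, h1, h2, hs, ht, hv⟩
      have hay : 2 ^ a ≤ y := by
        rcases hy.2 with h | h
        · exact h
        · omega
      obtain ⟨c1, s1, s2, e1, e2, hs1, hs2, rfl⟩ := FC_dec hay hs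
      have hyc := ht.2.1
      obtain ⟨d1, t1, t2, f1, f2, ht1, ht2, rfl⟩ := FC_dec (hay.trans hyc) ht.1
      refine ⟨(s1, t1), ⟨⟨c1, hs1⟩, ⟨d1, ht1⟩, V2_prefix hs2 ht2 hv⟩, (s2, t2),
        ⟨y, c, c1, d1, h1, h2, hs1.1, ht1.1, e2, hyc, hs2, mem_UR ht1 ht2 f2 ht⟩, rfl⟩
    · have hR : ∀ q : {q : List Bool × List Bool //
          q ∈ {q : List Bool × List Bool | q.1 ∈ FCU (2 ^ a) ∧ q.2 ∈ FCU (2 ^ a) ∧ V2 q.1 q.2}},
          W2 {r | ∃ y c c1 d1, v ≤ y ∧ y < v + l ∧ q.1.1 ∈ Brd c1 ∧ q.1.2 ∈ Brd d1 ∧ c1 ≤ y ∧ y ≤ c ∧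
            r.1 ∈ Brd (y - c1) ∧ r.2 ∈ JumpVaux.UR y d1 c} ≤ ENNReal.ofReal (UU l) := by
        rintro ⟨q, ⟨c1, hq1⟩, ⟨d1, hq2⟩, -⟩
        refine (W2_biUnion_le ((Finset.Ico v (v + l)).filter (fun y => c1 ≤ y))
          (fun y => {r | r.1 ∈ Brd (y - c1) ∧ r.2 ∈ {u | ∃ c, y ≤ c ∧ u ∈ JumpVaux.UR y d1 c}}) ?_).trans ?_
        · rintro r ⟨y, c, c1', d1', h1, h2, h3, h4, h5, h6, h7, h8⟩
          obtain rfl : c1 = c1' := Brd_height hq1.1 h3
          obtain rfl : d1 = d1' := Brd_height hq2.1 h4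
          exact ⟨y, Finset.mem_filter.2 ⟨Finset.mem_Ico.2 ⟨h1, h2⟩, h5⟩, h7, c, h6, h8⟩
        · calc ∑ y ∈ (Finset.Ico v (v + l)).filter (fun y => c1 ≤ y),
              W2 {r | r.1 ∈ Brd (y - c1) ∧ r.2 ∈ {u | ∃ c, y ≤ c ∧ u ∈ JumpVaux.UR y d1 c}}
              ≤ ∑ y ∈ (Finset.Ico v (v + l)).filter (fun y => c1 ≤ y), ENNReal.ofReal (uu (y - c1)) := by
                refine Finset.sum_le_sum fun y _ => ?_
                refine (W2_prod_le (A := Brd (y - c1)) (B := {u | ∃ c, y ≤ c ∧ u ∈ JumpVaux.UR y d1 c})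
                  fun p hp => hp).trans ?_
                rw [gf_Brd, BT_eq_uu]
                calc ENNReal.ofReal (uu (y - c1)) * gf {u | ∃ c, y ≤ c ∧ u ∈ JumpVaux.UR y d1 c}
                    ≤ ENNReal.ofReal (uu (y - c1)) * 1 := by
                      gcongr
                      exact gf_UR_le y d1
                  _ = ENNReal.ofReal (uu (y - c1)) := mul_one _
            _ = ENNReal.ofReal (∑ y ∈ (Finset.Ico v (v + l)).filter (fun y => c1 ≤ y), uu (y - c1)) := by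
                rw [ENNReal.ofReal_sum_of_nonneg fun y _ => (uu_pos _).le]
            _ ≤ ENNReal.ofReal (UU l) := ENNReal.ofReal_le_ofReal (sum_uu_interval c1 v l)
      calc ∑' q : {q : List Bool × List Bool //
          q ∈ {q : List Bool × List Bool | q.1 ∈ FCU (2 ^ a) ∧ q.2 ∈ FCU (2 ^ a) ∧ V2 q.1 q.2}},
          wE q.1.1 * wE q.1.2 * W2 {r | ∃ y c c1 d1, v ≤ y ∧ y < v + l ∧ q.1.1 ∈ Brd c1 ∧ q.1.2 ∈ Brd d1 ∧
            c1 ≤ y ∧ y ≤ c ∧ r.1 ∈ Brd (y - c1) ∧ r.2 ∈ JumpVaux.UR y d1 c}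
          ≤ ∑' q : {q : List Bool × List Bool //
            q ∈ {q : List Bool × List Bool | q.1 ∈ FCU (2 ^ a) ∧ q.2 ∈ FCU (2 ^ a) ∧ V2 q.1 q.2}},
            wE q.1.1 * wE q.1.2 * ENNReal.ofReal (UU l) := by
            refine ENNReal.tsum_le_tsum fun q => ?_
            gcongr
            exact hR q
        _ = g2 (FCU (2 ^ a)) (FCU (2 ^ a)) V2 * ENNReal.ofReal (UU l) := by
            rw [ENNReal.tsum_mul_right]
            rfl
        _ ≤ ENNReal.ofReal (C / UU (2 ^ a)) * ENNReal.ofReal (UU l) := by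
            gcongr
            exact h5 a
        _ = ENNReal.ofReal (C / UU (2 ^ a) * UU l) := by rw [← ENNReal.ofReal_mul (by positivity)]
        _ ≤ ENNReal.ofReal ((C + 2) * (UU l / UU (2 ^ a))) := by
            apply ENNReal.ofReal_le_ofReal
            have : C / UU (2 ^ a) * UU l = C * (UU l / UU (2 ^ a)) := by ring
            rw [this]
            have : 0 ≤ UU l / UU (2 ^ a) := by positivity
            nlinarith

end Fld

end HexObs
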