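import Pool.Agent.HexObs.Ex2
import Pool.Agent.HexW.T3Lim

/-!
The strip with a horizontal wall (a removed left half row): definitions.
-/

set_option autoImplicit false

namespace HexObs

namespace Wall

open Complex Finset ENNReal

/-- the removed left half of the row above the row number t: the vertices of the levels 3 t + 2 and
3 t + 3 whose horizontal coordinate is at most c. -/
def wl (v0 d0 : Pt) (t : ℕ) (c : ℤ) : Set Pt :=
  {v | (ip (v - v0) d0 = 3 * t + 2 ∨ ip (v - v0) d0 = 3 * t + 3) ∧ -(cross d0 (v - v0)) ≤ c}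

/-- the box without the wall. -/
noncomputable def wbox {v0 d0 : Pt} (h0 : d0 ∈ dirs) (T L t : ℕ) (c : ℤ) : Finset Pt :=
  slit (trapF (v0 := v0) h0 T L) (wl v0 d0 t c)

/-- domains for several explorers: half space, the walks that leave upwards have winding 0, the walks
to the base line have winding 3 or -3. -/
structure FDom (Ω : Finset Pt) (v d0 : Pt) : Prop where
  dir : d0 ∈ dirs
  half : ∀ x ∈ Ω, 0 < ip (x - v) d0
  up0 : ∀ t ∈ exits Ω v d0, dx d0 t t.length = d0 → wind t = 0
  bot : ∀ t ∈ exits Ω v d0, dx d0 t t.length = -d0 → ip (tip v d0 t - v) d0 = 0 →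
    (0 < cross d0 (tip v d0 t - v) ∧ wind t = 3) ∨ (cross d0 (tip v d0 t - v) < 0 ∧ wind t = -3)

/-- outside of the strip of height T (the ends of the long walkers). -/
def ot (v0 d0 : Pt) (T : ℕ) : Set Pt := {v | 3 * (T : ℤ) + 2 ≤ ip (v - v0) d0}

end Wall

end HexObs
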