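import Pool.Agent.PHW.WallDefs
import Pool.Agent.PHW.WallWind
import Pool.Agent.HexObs.Planar2

/-!
The box with a wall: exits, the structure FDom.
-/

set_option autoImplicit false

namespace HexObs

namespace Wall

open Complex Finset ENNReal

lemma mem_trapF {v0 d0 : Pt} (h0 : d0 ∈ dirs) {T L : ℕ} {v : Pt} :
    v ∈ trapF (v0 := v0) h0 T L ↔ v ∈ trap v0 d0 T L := by
  rw [← Finset.mem_coe, trapF_coe]

lemma mem_wbox {v0 d0 : Pt} (h0 : d0 ∈ dirs) {T L t : ℕ} {c : ℤ} {v : Pt} :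
    v ∈ wbox (v0 := v0) h0 T L t c ↔ v ∈ trap v0 d0 T L ∧ v ∉ wl v0 d0 t c := by
  unfold wbox
  rw [mem_slit, mem_trapF]

lemma sub_foot (v0 d0 : Pt) (k : ℤ) (q : Pt) : q - v0 = (q - foot v0 d0 k) + (foot v0 d0 k - v0) := by abel

lemma foot_zero' (v0 d0 : Pt) : foot v0 d0 0 = v0 := by
  unfold foot
  rw [zero_smul, add_zero]

lemma lev_foot (v0 d0 : Pt) (k : ℤ) (q : Pt) : ip (q - foot v0 d0 k) d0 = ip (q - v0) d0 := by
  rw [sub_foot v0 d0 k q, ip_add_left, ft_ip, add_zero]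

lemma cross_sub_foot {v0 d0 : Pt} (h0 : d0 ∈ dirs) (k : ℤ) (q : Pt) :
    cross d0 (q - v0) = cross d0 (q - foot v0 d0 k) - 2 * k := by
  have h1 := cross_foot h0 v0 k 0
  rw [foot_zero'] at h1
  rw [sub_foot v0 d0 k q, cross_add_right, h1]
  ring

/-- the wall seen from a foot. -/
lemma wl_hrow {v0 d0 : Pt} (h0 : d0 ∈ dirs) (t : ℕ) (c k : ℤ) :
    hrow (foot v0 d0 k) d0 t (2 * k - c) = wl v0 d0 t c := by
  ext q
  have e1 := lev_foot v0 d0 k q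
  have e2 := cross_sub_foot (v0 := v0) h0 k q
  show ((ip (q - foot v0 d0 k) d0 = 3 * (t : ℤ) + 2 ∨ ip (q - foot v0 d0 k) d0 = 3 * (t : ℤ) + 3) ∧
    2 * k - c ≤ cross d0 (q - foot v0 d0 k)) ↔
    ((ip (q - v0) d0 = 3 * (t : ℤ) + 2 ∨ ip (q - v0) d0 = 3 * (t : ℤ) + 3) ∧ -(cross d0 (q - v0)) ≤ c)
  rw [e1]
  constructor
  · rintro ⟨h1, h2⟩
    exact ⟨h1, by linarith⟩
  · rintro ⟨h1, h2⟩
    exact ⟨h1, by linarith⟩

/-- exits that are not on the wall are exits of the box -/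
theorem exit_box {v0 d0 : Pt} (h0 : d0 ∈ dirs) {T L t : ℕ} {c : ℤ} (p : Pt) {u : List Bool}
    (hu : u ∈ exits (wbox (v0 := v0) h0 T L t c) p d0) (hn : tip p d0 u ∉ wl v0 d0 t c) :
    u ∈ exits (trapF (v0 := v0) h0 T L) p d0 := by
  obtain ⟨harr, hout⟩ := mem_exits.1 hu
  refine mem_exits.2 ⟨⟨fun i h1 h2 => ?_, harr.inj⟩, fun h => hout (mem_slit.2 ⟨h, hn⟩)⟩
  exact (mem_slit.1 (harr.mem i h1 h2)).1

/-- exits on the wall: lower side, upper side, end of the wall -/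
theorem exit_wall {v0 d0 : Pt} (h0 : d0 ∈ dirs) {T L t : ℕ} (hT : 1 ≤ T) (ht : t < T) {c k : ℤ} (hk : |k| < L)
    {u : List Bool} (hu : u ∈ exits (wbox (v0 := v0) h0 T L t c) (foot v0 d0 k) d0)
    (hw : tip (foot v0 d0 k) d0 u ∈ wl v0 d0 t c) :
    (dx d0 u u.length = d0 ∧ wind u = 0) ∨ (dx d0 u u.length = -d0 ∧ wind u = 3) ∨
    (dx d0 u u.length = rotL d0 ∧ wind u = 1) ∨ (dx d0 u u.length = rotL (rotL d0) ∧ wind u = 2) := by
  obtain ⟨harr, hout⟩ := mem_exits.1 hu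
  have key := wall_wind (Ω := ((wbox (v0 := v0) h0 T L t c : Finset Pt) : Set Pt)) (v0 := foot v0 d0 k) h0
    (r := (t : ℤ)) (c := 2 * k - c) (M := 3 * (L : ℤ) - ip (foot v0 d0 k - v0) (rotL d0)) (by positivity)
    ?_ ?_ ?_ (t := u) (saw_coe.2 harr) ?_
  · rcases key with ⟨a1, a2, _⟩ | ⟨a1, a2, _⟩ | ⟨a1, a2, _⟩ | ⟨a1, a2, _⟩
    · exact Or.inl ⟨a1, a2⟩
    · exact Or.inr (Or.inr (Or.inl ⟨a1, a2⟩))
    · exact Or.inr (Or.inr (Or.inr ⟨a1, a2⟩))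
    · exact Or.inr (Or.inl ⟨a1, a2⟩)
  · rw [wl_hrow h0, Set.disjoint_left]
    intro v hv hv2
    exact ((mem_wbox h0).1 hv).2 hv2
  · intro v hv
    rw [lev_foot]
    exact ((mem_wbox h0).1 hv).1.1.2.1
  · intro v hv
    have h1 := ((mem_wbox h0).1 hv).1.2.1
    rw [sub_foot v0 d0 k v, ip_add_left] at h1
    linarith
  · rw [wl_hrow h0]
    exact hw

theorem wbox_fdom {v0 d0 : Pt} (h0 : d0 ∈ dirs) {T L t : ℕ} (hT : 1 ≤ T) (ht : t < T) {c k : ℤ} (hk : |k| < L) :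
    FDom (wbox (v0 := v0) h0 T L t c) (foot v0 d0 k) d0 := by
  obtain ⟨⟨a1, a2, a3, a4, a5⟩, ⟨b1, b2, b3, b4⟩, _⟩ := dirs_distinct d0 h0
  have hg := HexW.trap_good_foot (v0 := v0) h0 (T := T) (L := L) hT hk
  refine ⟨h0, ?_, ?_, ?_⟩
  · intro x hx
    rw [lev_foot]
    exact ((mem_wbox h0).1 hx).1.1.2.1
  · intro u hu hd
    by_cases hw : tip (foot v0 d0 k) d0 u ∈ wl v0 d0 t c
    · rcases exit_wall h0 hT ht hk hu hw with ⟨h1, h2⟩ | ⟨h1, h2⟩ | ⟨h1, h2⟩ | ⟨h1, h2⟩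
      · exact h2
      · exact absurd (h1.symm.trans hd) a5
      · exact absurd (h1.symm.trans hd) a1
      · exact absurd (h1.symm.trans hd) a3
    · have hu' := exit_box h0 (foot v0 d0 k) hu hw
      rcases hg.wind hu' with ⟨h1, h2⟩ | ⟨h1, h2⟩ | ⟨h1, h2⟩ | ⟨h1, h2⟩ | ⟨h1, h2⟩ | ⟨h1, h2⟩
      · exact h2
      · exact absurd (h1.symm.trans hd) a1
      · exact absurd (h1.symm.trans hd) a2
      · exact absurd (h1.symm.trans hd) a3
      · exact absurd (h1.symm.trans hd) a4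
      · exact absurd (h1.symm.trans hd) a5
  · intro u hu hd hl
    have hw : tip (foot v0 d0 k) d0 u ∉ wl v0 d0 t c := by
      rintro ⟨h1, _⟩
      rw [lev_foot] at hl
      rw [hl] at h1
      rcases h1 with h1 | h1 <;> omega
    exact hg.bottom (exit_box h0 (foot v0 d0 k) hu hw) hd

end Wall

end HexObs
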