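import Pool.Agent.PHW.WallSwap
import Pool.Agent.PHW.WallWind

/-!
The wall inequality in a finite box.
-/

set_option autoImplicit false

namespace HexObs

namespace Wall

open Complex Finset ENNReal

open Ex (BrE overE P2E obE mem_brEF ZhE brE_arr obE_mono obE_mul obE_add obE_gr overE_toReal P2E_toReal)

lemma cross_foot0 {d0 : Pt} (h0 : d0 ∈ dirs) (v0 : Pt) (k : ℤ) : cross d0 (foot v0 d0 k - v0) = -2 * k := by
  have h := t3_cross_foot h0 v0 k 0
  have e : foot v0 d0 0 = v0 := by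
    unfold foot
    simp
  rw [e] at h
  rw [h]
  ring

lemma wl_eq {v0 d0 : Pt} (h0 : d0 ∈ dirs) (t : ℕ) (c k : ℤ) :
    wl v0 d0 t c = hrow (foot v0 d0 k) d0 t (2 * k - c) := by
  ext q
  unfold wl hrow
  simp only [Set.mem_ofPred_eq]
  have e1 : ip (q - foot v0 d0 k) d0 = ip (q - v0) d0 := by
    have e : q - foot v0 d0 k = (q - v0) - (foot v0 d0 k - v0) := by abel
    rw [e, ip_sub_left (q - v0), HexW.ip_foot, sub_zero]
  have e2 : cross d0 (q - foot v0 d0 k) = cross d0 (q - v0) + 2 * k := by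
    have e : cross d0 (q - foot v0 d0 k) = cross d0 (q - v0) - cross d0 (foot v0 d0 k - v0) := by
      simp only [cross, Prod.fst_sub, Prod.snd_sub]
      ring
    rw [e, cross_foot0 h0]
    ring
  rw [e1, e2]
  constructor
  · rintro ⟨h1, h2⟩
    exact ⟨h1, by linarith⟩
  · rintro ⟨h1, h2⟩
    exact ⟨h1, by linarith⟩

lemma mem_wbox {v0 d0 : Pt} {h0 : d0 ∈ dirs} {T L t : ℕ} {c : ℤ} {v : Pt} :
    v ∈ wbox (v0 := v0) h0 T L t c ↔ v ∈ trap v0 d0 T L ∧ v ∉ wl v0 d0 t c := by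
  unfold wbox
  rw [mem_slit, ← Finset.mem_coe, trapF_coe]

lemma wbox_coe {v0 d0 : Pt} (h0 : d0 ∈ dirs) (T L t : ℕ) (c : ℤ) :
    ((wbox (v0 := v0) h0 T L t c : Finset Pt) : Set Pt) = trap v0 d0 T L \ wl v0 d0 t c := by
  ext v
  rw [Finset.mem_coe, mem_wbox]
  rfl

lemma fin_bound (Ω : Finset Pt) (f : Pt → ℤ) : ∃ M, ∀ v ∈ (Ω : Set Pt), f v < M := by
  obtain ⟨M, hM⟩ := (Ω.finite_toSet.image f).bddAbove
  exact ⟨M + 1, fun v hv => by
    have := hM (Set.mem_image_of_mem f hv)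
    linarith⟩

/-- exits of the box with a wall. -/
lemma wbox_cases {v0 d0 : Pt} (h0 : d0 ∈ dirs) {T L t : ℕ} (hT : 1 ≤ T) {c k : ℤ} (hk : |k| < L)
    {u : List Bool} (hu : Saw (wbox (v0 := v0) h0 T L t c : Set Pt) (foot v0 d0 k) d0 u)
    (hout : tip (foot v0 d0 k) d0 u ∉ wbox (v0 := v0) h0 T L t c) :
    (tip (foot v0 d0 k) d0 u ∈ wl v0 d0 t c ∧
      ((dx d0 u u.length = d0 ∧ wind u = 0) ∨ (dx d0 u u.length = rotL d0 ∧ wind u = 1) ∨
        (dx d0 u u.length = rotL (rotL d0) ∧ wind u = 2) ∨ (dx d0 u u.length = -d0 ∧ wind u = 3))) ∨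
    (tip (foot v0 d0 k) d0 u ∉ wl v0 d0 t c ∧ u ∈ exits (trapF (v0 := v0) h0 T L) (foot v0 d0 k) d0) := by
  have hg := HexW.trap_good_foot (v0 := v0) h0 hT hk
  by_cases hw : tip (foot v0 d0 k) d0 u ∈ wl v0 d0 t c
  · left
    refine ⟨hw, ?_⟩
    obtain ⟨M, hM⟩ := fin_bound (wbox (v0 := v0) h0 T L t c) (fun v => ip (v - foot v0 d0 k) (rotL d0))
    have key := wall_wind (Ω := (wbox (v0 := v0) h0 T L t c : Set Pt)) (v0 := foot v0 d0 k) h0
      (r := t) (c := 2 * k - c) (M := M) (Int.natCast_nonneg t)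
      (by
        rw [← wl_eq h0, wbox_coe]
        exact Set.disjoint_sdiff_left)
      (fun v hv => by
        rw [Finset.mem_coe, mem_wbox] at hv
        have : v ∈ trapF (v0 := v0) h0 T L := by
          rw [← Finset.mem_coe, trapF_coe]
          exact hv.1
        exact hg.half v this)
      hM hu (by rw [← wl_eq h0]; exact hw)
    rcases key with ⟨a, b, _⟩ | ⟨a, b, _⟩ | ⟨a, b, _⟩ | ⟨a, b, _⟩
    · exact Or.inl ⟨a, b⟩
    · exact Or.inr (Or.inl ⟨a, b⟩)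
    · exact Or.inr (Or.inr (Or.inl ⟨a, b⟩))
    · exact Or.inr (Or.inr (Or.inr ⟨a, b⟩))
  · right
    refine ⟨hw, mem_exits.2 ⟨⟨fun i hi hil => ?_, hu.inj⟩, ?_⟩⟩
    · have := hu.mem i hi hil
      rw [Finset.mem_coe, mem_wbox] at this
      rw [← Finset.mem_coe, trapF_coe]
      exact this.1
    · intro h
      rw [← Finset.mem_coe, trapF_coe] at h
      exact hout (mem_wbox.2 ⟨h, hw⟩)

lemma wbox_wdom {v0 d0 : Pt} (h0 : d0 ∈ dirs) {T L : ℕ} (hT : 1 ≤ T) (t : ℕ) (c : ℤ) {k : ℤ} (hk : |k| < L) :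
    WDom (wbox (v0 := v0) h0 T L t c) (foot v0 d0 k) d0 := by
  have hg := HexW.trap_good_foot (v0 := v0) h0 hT hk
  obtain ⟨⟨a1, a2, a3, a4, a5⟩, ⟨b1, b2, b3, b4⟩, ⟨c1, c2, c3⟩, ⟨e1, e2⟩, f1⟩ := dirs_distinct d0 h0
  have cases := fun (u : List Bool) (hu : u ∈ exits (wbox (v0 := v0) h0 T L t c) (foot v0 d0 k) d0) =>
    wbox_cases h0 (t := t) (c := c) hT hk (saw_coe.2 (mem_exits.1 hu).1) (mem_exits.1 hu).2
  refine ⟨h0, ?_, ?_, ?_, ?_⟩
  · intro x hx
    rw [mem_wbox] at hx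
    exact hg.half x (by rw [← Finset.mem_coe, trapF_coe]; exact hx.1)
  · intro u hu hd
    rcases cases u hu with ⟨_, h⟩ | ⟨_, h⟩
    · rcases h with ⟨_, h⟩ | ⟨h, _⟩ | ⟨h, _⟩ | ⟨h, _⟩
      · exact h
      · exact absurd (h.symm.trans hd) a1
      · exact absurd (h.symm.trans hd) a3
      · exact absurd (h.symm.trans hd) a5
    · rcases hg.wind h with ⟨_, h⟩ | ⟨h, _⟩ | ⟨h, _⟩ | ⟨h, _⟩ | ⟨h, _⟩ | ⟨h, _⟩
      · exact h
      · exact absurd (h.symm.trans hd) a1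
      · exact absurd (h.symm.trans hd) a2
      · exact absurd (h.symm.trans hd) a3
      · exact absurd (h.symm.trans hd) a4
      · exact absurd (h.symm.trans hd) a5
  · intro u hu hd hl
    rcases cases u hu with ⟨hw, _⟩ | ⟨_, h⟩
    · exfalso
      rw [wl_eq h0 t c k] at hw
      obtain ⟨hw, _⟩ := hw
      rw [hl] at hw
      omega
    · exact hg.bottom h hd
  · intro u hu
    rcases cases u hu with ⟨_, h⟩ | ⟨_, h⟩
    · rcases h with ⟨_, h⟩ | ⟨_, h⟩ | ⟨_, h⟩ | ⟨_, h⟩ <;> rw [h] <;> norm_num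
    · rcases hg.wind h with ⟨_, h⟩ | ⟨_, h⟩ | ⟨_, h⟩ | ⟨_, h⟩ | ⟨_, h⟩ | ⟨_, h | h⟩ <;> rw [h] <;> norm_num

lemma strip_not_ot {v0 d0 : Pt} {T : ℕ} {v : Pt} (h : v ∈ ot v0 d0 T) : v ∉ strip v0 d0 T := by
  intro h2
  have h1 : 3 * (T : ℤ) + 2 ≤ ip (v - v0) d0 := h
  have := h2.2.2
  omega

/-- walkers to the top are walkers of the box. -/
lemma top_trap {v0 d0 : Pt} (h0 : d0 ∈ dirs) {T L t : ℕ} {c k : ℤ} {X : Set Pt} {s : List Bool}
    (hs : s ∈ BrE (wbox (v0 := v0) h0 T L t c : Set Pt) X (foot v0 d0 k) d0 (ot v0 d0 T)) :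
    s ∈ Br (trapF (v0 := v0) h0 T L : Set Pt) ∅ (foot v0 d0 k) d0 := by
  obtain ⟨⟨h1, h2, h3⟩, h4⟩ := hs
  refine ⟨⟨fun i hi hil => ?_, h1.inj⟩, ?_, h3⟩
  · have := (h1.mem i hi hil).1
    rw [wbox_coe] at this
    rw [trapF_coe]
    exact ⟨this.1, fun h => h⟩
  · rw [trapF_coe]
    intro h
    exact strip_not_ot h4 h.1

/-- lower bound for the free exits of the left explorer. -/
lemma free_low {Ω : Finset Pt} {p d0 : Pt} (hp : WDom Ω p d0) {V W : Set Pt} (hVW : Disjoint V W)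
    (f : ℤ → ℝ) (hf : ∀ w : ℤ, -3 ≤ w → w ≤ 3 → 0 ≤ f w) (Y : Set Pt) :
    f 0 * gr Ω p d0 (BrE (Ω : Set Pt) Y p d0 V) + f 0 * gr Ω p d0 (BrE (Ω : Set Pt) Y p d0 W) ≤ fr Ω p d0 f Y := by
  classical
  unfold gr fr
  rw [Finset.mul_sum, Finset.mul_sum]
  have hd : Disjoint (fam Ω p d0 (BrE (Ω : Set Pt) Y p d0 V)) (fam Ω p d0 (BrE (Ω : Set Pt) Y p d0 W)) := by
    rw [Finset.disjoint_left]
    intro u h1 h2
    rw [mem_brEF] at h1 h2
    exact Set.disjoint_left.1 hVW h1.2 h2.2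
  rw [← Finset.sum_union hd]
  have key : ∀ u ∈ fam Ω p d0 (BrE (Ω : Set Pt) Y p d0 V) ∪ fam Ω p d0 (BrE (Ω : Set Pt) Y p d0 W),
      u ∈ Br (Ω : Set Pt) Y p d0 := by
    intro u hu
    rw [Finset.mem_union, mem_brEF, mem_brEF] at hu
    rcases hu with h | h
    · exact h.1
    · exact h.1
  calc ∑ u ∈ fam Ω p d0 (BrE (Ω : Set Pt) Y p d0 V) ∪ fam Ω p d0 (BrE (Ω : Set Pt) Y p d0 W), f 0 * xc ^ u.length
      = ∑ u ∈ fam Ω p d0 (BrE (Ω : Set Pt) Y p d0 V) ∪ fam Ω p d0 (BrE (Ω : Set Pt) Y p d0 W),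
          xc ^ u.length * f (wind u) := by
        apply Finset.sum_congr rfl
        intro u hu
        rw [wbr_wind hp (key u hu)]
        ring
    _ ≤ ∑ u ∈ freeF Ω Y p d0, xc ^ u.length * f (wind u) := by
        apply Finset.sum_le_sum_of_subset_of_nonneg
        · intro u hu
          have := key u hu
          rw [mem_freeF]
          exact ⟨this.1, this.2.1⟩
        · intro u hu _
          rw [mem_freeF] at hu
          obtain ⟨h1, h2⟩ := hp.wle u (mem_exits.2 ⟨saw_arr hu.1, hu.2⟩)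
          exact mul_nonneg (pow_nonneg xc_pos.le _) (hf _ h1 h2)

/-- upper bound for the free exits of the right explorer. -/
lemma free_up {Ω : Finset Pt} {p d0 : Pt} (hp : WDom Ω p d0) {V : Set Pt} (f : ℤ → ℝ) (hf : ∀ w, f w ≤ 1)
    (hf0 : 0 ≤ f 0) (hf3 : f (-3) = 0) (Y : Set Pt) (B : Finset Pt)
    (hcase : ∀ u ∈ freeF Ω Y p d0, u ∈ BrE (Ω : Set Pt) Y p d0 V ∨ wind u = -3 ∨ u ∈ Lat (B : Set Pt) Y p d0) :
    fr Ω p d0 f Y ≤ f 0 * gr Ω p d0 (BrE (Ω : Set Pt) Y p d0 V) + gr B p d0 (Lat (B : Set Pt) Y p d0) := by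
  classical
  unfold gr fr
  rw [Finset.mul_sum]
  have h1 : ∀ u ∈ freeF Ω Y p d0, xc ^ u.length * f (wind u) ≤
      (if u ∈ fam Ω p d0 (BrE (Ω : Set Pt) Y p d0 V) then f 0 * xc ^ u.length else 0) +
        (if u ∈ fam B p d0 (Lat (B : Set Pt) Y p d0) then xc ^ u.length else 0) := by
    intro u hu
    have hx := pow_nonneg xc_pos.le u.length
    have n1 : 0 ≤ (if u ∈ fam Ω p d0 (BrE (Ω : Set Pt) Y p d0 V) then f 0 * xc ^ u.length else 0) := by
      split_ifs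
      · exact mul_nonneg hf0 hx
      · exact le_refl _
    have n2 : 0 ≤ (if u ∈ fam B p d0 (Lat (B : Set Pt) Y p d0) then xc ^ u.length else 0) := by
      split_ifs
      · exact hx
      · exact le_refl _
    rcases hcase u hu with h | h | h
    · rw [if_pos (mem_brEF.2 h), wbr_wind hp h.1]
      linarith
    · rw [h, hf3]
      linarith
    · have h2 : u ∈ fam B p d0 (Lat (B : Set Pt) Y p d0) := mem_fam.2 ⟨saw_arr h.1, h⟩
      rw [if_pos h2]
      have := hf (wind u)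
      nlinarith
  refine (Finset.sum_le_sum h1).trans ?_
  rw [Finset.sum_add_distrib, ← Finset.sum_filter, ← Finset.sum_filter]
  apply add_le_add
  · apply Finset.sum_le_sum_of_subset_of_nonneg
    · intro u hu
      rw [Finset.mem_filter] at hu
      exact hu.2
    · intro u _ _
      exact mul_nonneg hf0 (pow_nonneg xc_pos.le _)
  · apply Finset.sum_le_sum_of_subset_of_nonneg
    · intro u hu
      rw [Finset.mem_filter] at hu
      exact hu.2
    · intro u _ _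
      exact pow_nonneg xc_pos.le _

/-- an explorer on the right of a walker does not land on its left. -/
lemma no_left_land {B : Finset Pt} {v0 d0 : Pt} (g0 : GoodDom B (foot v0 d0 0) d0) (g1 : GoodDom B (foot v0 d0 1) d0)
    {X : Set Pt} {s u : List Bool} (hs : s ∈ Br (B : Set Pt) ∅ (foot v0 d0 0) d0)
    (hX : vis (foot v0 d0 0) d0 s ⊆ X) (hu : u ∈ Dn (B : Set Pt) X (foot v0 d0 1) d0)
    (hc : 0 < cross d0 (tip (foot v0 d0 1) d0 u - foot v0 d0 1)) : False := by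
  have hc1 : cross d0 (foot v0 d0 1 - foot v0 d0 0) = -2 := by
    rw [t3_cross_foot g0.dir]
    norm_num
  have key := far_land g1 g0 (by rw [t3_cl_foot, t3_cl_foot]) (t3_ip_foot _ _ _ _) (by
    intro he
    rw [he, sub_self] at hc1
    simp [cross] at hc1) hs hX hu
  rw [hc1] at key
  have k1 : ¬ 0 < cross d0 (tip (foot v0 d0 1) d0 u - foot v0 d0 0) := fun h => by
    have := key.2 h
    norm_num at this
  have hex : u ∈ exits B (foot v0 d0 1) d0 := mem_exits.2 ⟨saw_arr hu.1, hu.2.1⟩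
  have hlev := g1.bottom_level hex hu.2.2
  have hpar := xy_parity (foot v0 d0 1) d0 (tip (foot v0 d0 1) d0 u)
  unfold xy at hpar
  simp only [] at hpar
  rw [hlev] at hpar
  have e : cross d0 (tip (foot v0 d0 1) d0 u - foot v0 d0 0) =
      cross d0 (tip (foot v0 d0 1) d0 u - foot v0 d0 1) + cross d0 (foot v0 d0 1 - foot v0 d0 0) := by
    simp only [cross, Prod.fst_sub, Prod.snd_sub]
    ring
  have e0 : cross d0 (tip (foot v0 d0 1) d0 u - foot v0 d0 0) = 0 := by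
    rw [e, hc1] at k1 ⊢
    omega
  have l0 : ip (tip (foot v0 d0 1) d0 u - foot v0 d0 0) d0 = 0 := by
    have e2 : tip (foot v0 d0 1) d0 u - foot v0 d0 0 =
        (tip (foot v0 d0 1) d0 u - foot v0 d0 1) + (foot v0 d0 1 - foot v0 d0 0) := by abel
    rw [e2, ip_add_left, hlev, t3_ip_foot, add_zero]
  have htip : tip (foot v0 d0 1) d0 u = foot v0 d0 0 := by
    apply xy_inj (v0 := foot v0 d0 0) g0.dir
    unfold xy
    rw [e0, l0, sub_self]
    simp [cross, ip]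
  have hlen : 1 ≤ u.length := by
    by_contra hcon
    have hz : u.length = 0 := by omega
    have h3 := hu.2.2
    rw [hz] at h3
    have hd' : d0 = -d0 := h3
    obtain ⟨⟨_, _, _, _, a5⟩, _⟩ := dirs_distinct d0 g0.dir
    exact a5 hd'.symm
  have hlast : vx (foot v0 d0 1) d0 u u.length = foot v0 d0 0 + d0 := by
    have h4 := tip_eq (v0 := foot v0 d0 1) (d0 := d0) u
    rw [hu.2.2, htip] at h4
    rw [h4]
    abel
  have hl := hu.1.mem u.length hlen le_rfl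
  rw [hlast] at hl
  have e1 : vx (foot v0 d0 0) d0 s 1 = foot v0 d0 0 + d0 := rfl
  rcases Nat.eq_zero_or_pos s.length with h | h
  · have hout : vx (foot v0 d0 0) d0 s (s.length + 1) ∉ (B : Set Pt) := hs.2.1
    rw [h] at hout
    rw [← e1] at hl
    exact hout hl.1
  · rw [← e1] at hl
    exact hl.2 (hX ⟨1, le_rfl, h, rfl⟩)

/-- THE WALL INEQUALITY in a finite box. -/
theorem WI_fin {v0 d0 : Pt} (h0 : d0 ∈ dirs) {T L t : ℕ} (hT : 1 ≤ T) (ht : t < T) (c : ℤ) (hL : 2 ≤ L) :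
    Real.sin (3 * Real.pi / 8) *
      ((gf (BrE (wbox (v0 := v0) h0 T L t c : Set Pt) ∅ (foot v0 d0 0) d0 (ot v0 d0 T))).toReal +
        (P2E (wbox (v0 := v0) h0 T L t c : Set Pt) v0 d0 0 (wl v0 d0 t c) 1 (ot v0 d0 T) ∅).toReal) ≤
    Real.sin (3 * Real.pi / 8) *
      (gf (BrE (wbox (v0 := v0) h0 T L t c : Set Pt) ∅ (foot v0 d0 1) d0 (ot v0 d0 T))).toReal +
      (overE (wbox (v0 := v0) h0 T L t c : Set Pt) (foot v0 d0 0) d0 (ot v0 d0 T)
        (fun Z => gf (Lat (trapF (v0 := v0) h0 T L : Set Pt) Z (foot v0 d0 1) d0)) ∅).toReal := by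
  have hk0 : |(0 : ℤ)| < (L : ℤ) := by
    rw [abs_zero]
    exact_mod_cast (by omega : 0 < L)
  have hk1 : |(1 : ℤ)| < (L : ℤ) := by
    rw [abs_one]
    exact_mod_cast (by omega : 1 < L)
  have g0 := wbox_wdom (v0 := v0) h0 hT t c hk0
  have g1 := wbox_wdom (v0 := v0) h0 hT t c hk1
  have G0 := HexW.trap_good_foot (v0 := v0) h0 hT hk0
  have G1 := HexW.trap_good_foot (v0 := v0) h0 hT hk1
  rw [gf_toReal (brE_arr _ _ _ _ _), gf_toReal (brE_arr _ _ _ _ _), P2E_toReal,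
    overE_toReal _ _ _ _ _ (fun Y => gf_ne_top (lat_arr (trapF (v0 := v0) h0 T L) Y _ _))]
  have hlat : (fun Y => (gf (Lat (trapF (v0 := v0) h0 T L : Set Pt) Y (foot v0 d0 1) d0)).toReal) =
      fun Y => gr (trapF (v0 := v0) h0 T L) (foot v0 d0 1) d0
        (Lat (trapF (v0 := v0) h0 T L : Set Pt) Y (foot v0 d0 1) d0) :=
    funext (fun Y => gf_toReal (lat_arr _ Y _ _))
  rw [hlat]
  have hcase : ∀ s ∈ BrE (wbox (v0 := v0) h0 T L t c : Set Pt) ∅ (foot v0 d0 0) d0 (ot v0 d0 T),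
      ∀ u ∈ freeF (wbox (v0 := v0) h0 T L t c) (∅ ∪ vis (foot v0 d0 0) d0 s) (foot v0 d0 1) d0,
      u ∈ BrE (wbox (v0 := v0) h0 T L t c : Set Pt) (∅ ∪ vis (foot v0 d0 0) d0 s) (foot v0 d0 1) d0 (ot v0 d0 T) ∨
        wind u = -3 ∨ u ∈ Lat (trapF (v0 := v0) h0 T L : Set Pt) (∅ ∪ vis (foot v0 d0 0) d0 s) (foot v0 d0 1) d0 := by
    intro s hs u hu
    rw [mem_freeF] at hu
    obtain ⟨hu1, hu2⟩ := hu
    have hsB := top_trap h0 hs
    have huΩ : Saw (wbox (v0 := v0) h0 T L t c : Set Pt) (foot v0 d0 1) d0 u := hu1.mono Set.sdiff_subset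
    rcases wbox_cases h0 hT hk1 huΩ hu2 with ⟨hw, _⟩ | ⟨hw, hex⟩
    · exfalso
      have key := wall_left (v0 := v0) (v1 := foot v0 d0 1) (v2 := foot v0 d0 0) h0 (t3_cl_foot _ _ _)
        (t3_cl_foot _ _ _) (HexW.ip_foot _ _ _) (HexW.ip_foot _ _ _) ht (c := c) (s := s) (u := u)
        (fun j hj hjl => by
          have := hs.1.1.mem j hj hjl
          rw [wbox_coe] at this
          exact ⟨this.1.1.1.2.1, this.1.2⟩)
        hs.2
        (fun i hi hil => by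
          have := huΩ.mem i hi hil
          rw [wbox_coe] at this
          exact this.1.1.2)
        hw
        (by
          intro he
          have := t3_cross_foot h0 v0 1 0
          rw [he, sub_self] at this
          simp [cross] at this)
        (fun i hi hil j hj hjl he => (hu1.mem i hi hil).2 (Or.inr ⟨j, hj, hjl, he.symm⟩))
      rw [cross_foot0 h0, cross_foot0 h0] at key
      norm_num at key
    · have hsawB : Saw ((trapF (v0 := v0) h0 T L : Set Pt) \ (∅ ∪ vis (foot v0 d0 0) d0 s)) (foot v0 d0 1) d0 u :=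
        ⟨fun i hi hil => ⟨(mem_exits.1 hex).1.mem i hi hil, (hu1.mem i hi hil).2⟩, hu1.inj⟩
      have houtB : tip (foot v0 d0 1) d0 u ∉ (trapF (v0 := v0) h0 T L : Set Pt) := (mem_exits.1 hex).2
      by_cases hd : dx d0 u u.length = d0
      · left
        refine ⟨⟨hu1, hu2, hd⟩, ?_⟩
        have h1 : Saw (trap v0 d0 T L) (foot v0 d0 1) d0 u := by
          rw [← trapF_coe (v0 := v0) h0]
          exact saw_coe.2 (mem_exits.1 hex).1
        have h2 : tip (foot v0 d0 1) d0 u ∉ trap v0 d0 T L := by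
          rw [← trapF_coe (v0 := v0) h0]
          exact houtB
        obtain ⟨⟨a1, a2, a3, a4, a5⟩, _⟩ := dirs_distinct d0 h0
        rcases HexW.foot_exit h0 hT hk1 h1 h2 with ⟨h, _⟩ | ⟨_, h⟩ | ⟨b, h, _⟩
        · exact absurd (h.symm.trans hd) a5
        · show 3 * (T : ℤ) + 2 ≤ _
          rw [h]
        · exfalso
          rw [hd] at h
          cases b
          · exact a2 h.symm
          · exact a1 h.symm
      · right
        by_cases hd' : dx d0 u u.length = -d0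
        · left
          rcases G1.bottom hex hd' with ⟨h1, _⟩ | ⟨_, h1⟩
          · exfalso
            exact no_left_land G0 G1 hsB Set.subset_union_right ⟨hsawB, houtB, hd'⟩ h1
          · exact h1
        · right
          exact ⟨hsawB, houtB, hd, hd'⟩
  obtain ⟨p0, hp0⟩ : ∃ p, p = foot v0 d0 0 := ⟨_, rfl⟩
  obtain ⟨p1, hp1⟩ : ∃ p, p = foot v0 d0 1 := ⟨_, rfl⟩
  obtain ⟨U, hU⟩ : ∃ U : Set Pt, U = ot v0 d0 T := ⟨_, rfl⟩
  obtain ⟨W, hW⟩ : ∃ W : Set Pt, W = wl v0 d0 t c := ⟨_, rfl⟩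
  obtain ⟨Ω, hΩ⟩ : ∃ Ω, Ω = wbox (v0 := v0) h0 T L t c := ⟨_, rfl⟩
  obtain ⟨B, hB⟩ : ∃ B, B = trapF (v0 := v0) h0 T L := ⟨_, rfl⟩
  have hUW : Disjoint U W := by
    rw [Set.disjoint_left, hU, hW]
    intro x hx hx2
    have h1 : 3 * (T : ℤ) + 2 ≤ ip (x - v0) d0 := hx
    have htT : (t : ℤ) < T := by exact_mod_cast ht
    obtain ⟨h | h, _⟩ := hx2 <;> omega
  rw [← hΩ, ← hp0, ← hp1, ← hU, ← hB] at hcase
  rw [← hΩ] at g0 g1
  rw [← hΩ, ← hp0, ← hp1, ← hU, ← hW, ← hB]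
  have M := wslit2E (by rw [hp1]; exact g1 : WDom Ω p1 d0) p0 U 3
  have Lq := wslit2E (by rw [hp0]; exact g0 : WDom Ω p0 d0) p1 U 5
  have swap1 : ZhE Ω ∅ p1 p0 d0 U (fun w => Real.sin ((3 + w) * (Real.pi / 8))) =
      ZhE Ω ∅ p0 p1 d0 U (fun w => Real.sin ((5 + w) * (Real.pi / 8))) := by
    have := wswap_sumE (X := ∅) (p := p0) (q := p1) (by rw [hp0]; exact g0) (by rw [hp1]; exact g1)
      (by rw [hp0, hp1]; exact t3_ip_foot _ _ _ _) (by rw [hp0, hp1, t3_cl_foot, t3_cl_foot])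
      (by rw [hp0, hp1, t3_cross_foot h0]; norm_num) U (fun w => Real.sin ((3 + w) * (Real.pi / 8)))
    rw [this]
    congr 1
    funext w
    congr 1
    push_cast
    ring
  obtain ⟨s4, s2, s8, s5⟩ := sin_vals
  have hpi := Real.pi_pos
  have FM : obE Ω p0 d0 U (fr Ω p1 d0 (fun w => Real.sin ((3 + w) * (Real.pi / 8)))) ∅ ≤
      Real.sin (3 * Real.pi / 8) * obE Ω p0 d0 U (fun Y => gr Ω p1 d0 (BrE (Ω : Set Pt) Y p1 d0 U)) ∅ +
        obE Ω p0 d0 U (fun Z => gr B p1 d0 (Lat (B : Set Pt) Z p1 d0)) ∅ := by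
    rw [← obE_mul, ← obE_add Ω p0 d0 U (fun Y => Real.sin (3 * Real.pi / 8) *
      gr Ω p1 d0 (BrE (Ω : Set Pt) Y p1 d0 U)) (fun Z => gr B p1 d0 (Lat (B : Set Pt) Z p1 d0))]
    apply obE_mono
    intro s hs
    have h4 : Real.sin ((3 + ((0 : ℤ) : ℝ)) * (Real.pi / 8)) = Real.sin (3 * Real.pi / 8) := by
      congr 1
      push_cast
      ring
    have key := free_up (by rw [hp1]; exact g1 : WDom Ω p1 d0) (V := U)
      (fun w => Real.sin ((3 + w) * (Real.pi / 8))) (fun w => Real.sin_le_one _)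
      (by
        rw [h4]
        exact Real.sin_nonneg_of_nonneg_of_le_pi (by linarith) (by linarith))
      (by
        push_cast
        rw [show (3 + (-3 : ℝ)) * (Real.pi / 8) = 0 by ring, Real.sin_zero])
      (∅ ∪ vis p0 d0 s) B (hcase s hs)
    simp only [h4] at key
    exact key
  have FL : Real.sin (3 * Real.pi / 8) * obE Ω p1 d0 U (fun Y => gr Ω p0 d0 (BrE (Ω : Set Pt) Y p0 d0 U)) ∅ +
      Real.sin (3 * Real.pi / 8) * obE Ω p1 d0 U (fun Y => gr Ω p0 d0 (BrE (Ω : Set Pt) Y p0 d0 W)) ∅ ≤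
      obE Ω p1 d0 U (fr Ω p0 d0 (fun w => Real.sin ((5 + w) * (Real.pi / 8)))) ∅ := by
    rw [← obE_mul, ← obE_mul, ← obE_add Ω p1 d0 U (fun Y => Real.sin (3 * Real.pi / 8) *
      gr Ω p0 d0 (BrE (Ω : Set Pt) Y p0 d0 U)) (fun Y => Real.sin (3 * Real.pi / 8) *
      gr Ω p0 d0 (BrE (Ω : Set Pt) Y p0 d0 W))]
    apply obE_mono
    intro s hs
    have h4 : Real.sin ((5 + ((0 : ℤ) : ℝ)) * (Real.pi / 8)) = Real.sin (3 * Real.pi / 8) := by
      rw [← s5]
      congr 1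
      push_cast
      ring
    have key := free_low (by rw [hp0]; exact g0 : WDom Ω p0 d0) hUW
      (fun w => Real.sin ((5 + w) * (Real.pi / 8)))
      (fun w h1 h2 => by
        have h1' : (-3 : ℝ) ≤ w := by exact_mod_cast h1
        have h2' : (w : ℝ) ≤ 3 := by exact_mod_cast h2
        exact Real.sin_nonneg_of_nonneg_of_le_pi (by nlinarith) (by nlinarith))
      (∅ ∪ vis p1 d0 s)
    simp only [h4] at key
    exact key
  have m1 : Real.sin (3 * (Real.pi / 8)) = Real.sin (3 * Real.pi / 8) := by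
    congr 1
    ring
  have c1 := obE_gr Ω p0 p1 d0 U U ∅
  have c2 := obE_gr Ω p0 p1 d0 W U ∅
  rw [m1, swap1] at M
  rw [s5] at Lq
  rw [c2]
  rw [← c1] at FL
  linarith

end Wall

end HexObs
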