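import Pool.Agent.PHW.WallId
import Pool.Agent.HexSPR.Lim

/-!
The wall inequality in the strip.
-/

set_option autoImplicit false

namespace HexObs

namespace Wall

open Complex Finset ENNReal Filter Topology

open Ex (BrE overE P2E brE_arr overE_ne_top overE_le brE_sub up_overE)

/-- the strip of height T without the left half of the row above row t. -/
def ws (v0 d0 : Pt) (T t : ℕ) (c : ℤ) : Set Pt := strip v0 d0 T \ wl v0 d0 t c

lemma ws_sdiff (A B X : Set Pt) : (A \ B) \ X = A \ (B ∪ X) := by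
  ext p
  simp only [Set.mem_sdiff, Set.mem_union]
  tauto

lemma inc_w {v0 v d0 : Pt} {T N t : ℕ} {c : ℤ} {V : Set Pt} (hV : Disjoint V (ws v0 d0 T t c)) (X : Set Pt) :
    HexW.Inc (fun n => BrE (trap v0 d0 T (n + N) \ wl v0 d0 t c) X v d0 V) (BrE (ws v0 d0 T t c) X v d0 V) := by
  have hsub : ∀ n, trap v0 d0 T n \ wl v0 d0 t c ⊆ ws v0 d0 T t c :=
    fun n => Set.sdiff_subset_sdiff_left (trap_sub v0 d0 T n)
  have hout : ∀ {s : List Bool}, tip v d0 s ∈ V → tip v d0 s ∉ ws v0 d0 T t c :=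
    fun h1 h2 => Set.disjoint_left.1 hV h1 h2
  constructor
  · rintro n m hnm s ⟨⟨h1, h2, h3⟩, h4⟩
    refine ⟨⟨h1.mono ?_, fun h => hout h4 (hsub _ h), h3⟩, h4⟩
    exact Set.sdiff_subset_sdiff_left (Set.sdiff_subset_sdiff_left (trap_mono v0 d0 T (by omega)))
  · intro s
    constructor
    · rintro ⟨⟨h1, h2, h3⟩, h4⟩
      unfold ws at h1
      rw [ws_sdiff] at h1
      obtain ⟨L, hL⟩ := HexW.saw_trap' h1
      refine ⟨L, ⟨?_, fun h => hout h4 (hsub _ h), h3⟩, h4⟩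
      rw [ws_sdiff]
      exact hL.mono (Set.sdiff_subset_sdiff_left (trap_mono v0 d0 T (by omega)))
    · rintro ⟨n, ⟨h1, h2, h3⟩, h4⟩
      refine ⟨⟨h1.mono ?_, hout h4, h3⟩, h4⟩
      exact Set.sdiff_subset_sdiff_left (hsub _)

lemma wl_disj {v0 d0 : Pt} {T t : ℕ} {c : ℤ} : Disjoint (wl v0 d0 t c) (ws v0 d0 T t c) := Set.disjoint_sdiff_right

lemma ot_disj {v0 d0 : Pt} {T t : ℕ} {c : ℤ} : Disjoint (ot v0 d0 T) (ws v0 d0 T t c) := by
  rw [Set.disjoint_left]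
  intro x h1 h2
  exact strip_not_ot h1 h2.1

lemma werr_tendsto {v0 d0 : Pt} (h0 : d0 ∈ dirs) {T N t : ℕ} (hT : 1 ≤ T) {c : ℤ} (hN : 2 ≤ N) :
    Tendsto (fun n => overE (trap v0 d0 T (n + N) \ wl v0 d0 t c) (foot v0 d0 0) d0 (ot v0 d0 T)
      (fun Z => gf (Lat (trap v0 d0 T (n + N)) Z (foot v0 d0 1) d0)) ∅) atTop (𝓝 0) := by
  have hk0 : |(0 : ℤ)| < (N : ℤ) := by
    rw [abs_zero]
    exact_mod_cast (by omega : 0 < N)
  have hk1 : |(1 : ℤ)| < (N : ℤ) := by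
    rw [abs_one]
    exact_mod_cast (by omega : 1 < N)
  have hN' : ∀ {j : ℤ}, |j| < N → ∀ n : ℕ, |j| < ((n + N : ℕ) : ℤ) := by
    intro j hj n
    push_cast
    linarith
  have h1 : Tendsto (fun n => gf (HexW.Lat (trap v0 d0 T (n + N)) ∅ true (foot v0 d0 1) d0) +
      gf (HexW.Lat (trap v0 d0 T (n + N)) ∅ false (foot v0 d0 1) d0)) atTop (𝓝 (0 + 0)) :=
    (HexW.lat_tendsto h0 hT hk1 true ∅).add (HexW.lat_tendsto h0 hT hk1 false ∅)
  rw [add_zero] at h1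
  refine tendsto_of_tendsto_of_tendsto_of_le_of_le tendsto_const_nhds h1 (fun _ => zero_le) ?_
  intro n
  have hB : BT T ≤ 1 := BT_le_one hT
  have hb : gf (BrE (trap v0 d0 T (n + N) \ wl v0 d0 t c) ∅ (foot v0 d0 0) d0 (ot v0 d0 T)) ≤ 1 := by
    refine le_trans (gf_mono ?_) ((HexW.gf_Br_trap_le (v0 := v0) h0 hT (hN' hk0 n) ∅).trans hB)
    rintro s ⟨⟨a1, a2, a3⟩, a4⟩
    exact ⟨a1.mono (Set.sdiff_subset_sdiff_left Set.sdiff_subset), fun h => strip_not_ot a4 h.1, a3⟩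
  have e3 := overE_le (Ω := trap v0 d0 T (n + N) \ wl v0 d0 t c) (v := foot v0 d0 0) (d0 := d0)
    (W := ot v0 d0 T)
    (F := fun Z => gf (Lat (trap v0 d0 T (n + N)) Z (foot v0 d0 1) d0)) (X := ∅) (B := 1)
    (fun Z => HexW.latA_le h0 hT (hN' hk1 n) Z) hb
  rw [mul_one] at e3
  exact e3

/-- THE WALL INEQUALITY in the strip: (walkers 0 to the top) + (0 to the underside of the wall, 1 to the top,
disjoint) is at most (walkers 1 to the top). -/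
theorem WI {v0 d0 : Pt} (h0 : d0 ∈ dirs) {T t : ℕ} (ht : t < T) (c : ℤ) :
    gf (BrE (ws v0 d0 T t c) ∅ (foot v0 d0 0) d0 (ot v0 d0 T)) +
      P2E (ws v0 d0 T t c) v0 d0 0 (wl v0 d0 t c) 1 (ot v0 d0 T) ∅ ≤
    gf (BrE (ws v0 d0 T t c) ∅ (foot v0 d0 1) d0 (ot v0 d0 T)) := by
  have hT : 1 ≤ T := by omega
  set s3 := Real.sin (3 * Real.pi / 8) with hs3
  have hpi := Real.pi_pos
  have hs : 0 < s3 := Real.sin_pos_of_pos_of_lt_pi (by positivity) (by linarith)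
  -- the finite inequality
  have hfin : ∀ n : ℕ,
      gf (BrE (trap v0 d0 T (n + 2) \ wl v0 d0 t c) ∅ (foot v0 d0 0) d0 (ot v0 d0 T)) +
      P2E (trap v0 d0 T (n + 2) \ wl v0 d0 t c) v0 d0 0 (wl v0 d0 t c) 1 (ot v0 d0 T) ∅ ≤
    gf (BrE (trap v0 d0 T (n + 2) \ wl v0 d0 t c) ∅ (foot v0 d0 1) d0 (ot v0 d0 T)) +
      ENNReal.ofReal s3⁻¹ * overE (trap v0 d0 T (n + 2) \ wl v0 d0 t c) (foot v0 d0 0) d0 (ot v0 d0 T)
      (fun Z => gf (Lat (trap v0 d0 T (n + 2)) Z (foot v0 d0 1) d0)) ∅ := by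
    intro n
    have h := WI_fin (v0 := v0) h0 (L := n + 2) hT ht c (by omega)
    rw [← hs3] at h
    have f1 : gf (BrE (wbox (v0 := v0) h0 T (n + 2) t c : Set Pt) ∅ (foot v0 d0 0) d0 (ot v0 d0 T)) ≠ ∞ :=
      gf_ne_top (brE_arr _ _ _ _ _)
    have f2 : gf (BrE (wbox (v0 := v0) h0 T (n + 2) t c : Set Pt) ∅ (foot v0 d0 1) d0 (ot v0 d0 T)) ≠ ∞ :=
      gf_ne_top (brE_arr _ _ _ _ _)
    have f3 : P2E (wbox (v0 := v0) h0 T (n + 2) t c : Set Pt) v0 d0 0 (wl v0 d0 t c) 1 (ot v0 d0 T) ∅ ≠ ∞ :=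
      overE_ne_top _ _ _ _ _ (fun Y => gf_ne_top (brE_arr _ _ _ _ _)) ∅
    have f4 : overE (wbox (v0 := v0) h0 T (n + 2) t c : Set Pt) (foot v0 d0 0) d0 (ot v0 d0 T)
        (fun Z => gf (Lat (trapF (v0 := v0) h0 T (n + 2) : Set Pt) Z (foot v0 d0 1) d0)) ∅ ≠ ∞ :=
      overE_ne_top _ _ _ _ _ (fun Y => gf_ne_top (lat_arr _ _ _ _)) ∅
    rw [wbox_coe, trapF_coe] at h f4
    rw [wbox_coe] at f1 f2 f3
    rw [← ENNReal.toReal_add f1 f3] at h
    have f5 : ENNReal.ofReal s3⁻¹ * overE (trap v0 d0 T (n + 2) \ wl v0 d0 t c) (foot v0 d0 0) d0 (ot v0 d0 T)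
      (fun Z => gf (Lat (trap v0 d0 T (n + 2)) Z (foot v0 d0 1) d0)) ∅ ≠ ∞ :=
      ENNReal.mul_ne_top ENNReal.ofReal_ne_top f4
    rw [← ENNReal.toReal_le_toReal (ENNReal.add_ne_top.2 ⟨f1, f3⟩) (ENNReal.add_ne_top.2 ⟨f2, f5⟩),
      ENNReal.toReal_add f2 f5, ENNReal.toReal_mul, ENNReal.toReal_ofReal (inv_nonneg.2 hs.le)]
    rw [← mul_le_mul_iff_right₀ hs]
    refine h.trans (le_of_eq ?_)
    field_simp
  have l1 := (HexW.up_gf (fun X => inc_w (v := foot v0 d0 0) (N := 2) (ot_disj (v0 := v0) (d0 := d0) (T := T)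
    (t := t) (c := c)) X)).tendsto ∅
  have l2 := (HexW.up_gf (fun X => inc_w (v := foot v0 d0 1) (N := 2) (ot_disj (v0 := v0) (d0 := d0) (T := T)
    (t := t) (c := c)) X)).tendsto ∅
  have l3 := (up_overE (fun X => inc_w (v := foot v0 d0 0) (N := 2) (wl_disj (v0 := v0) (d0 := d0) (T := T)
    (t := t) (c := c)) X) (HexW.up_gf (fun X => inc_w (v := foot v0 d0 1) (N := 2) (ot_disj (v0 := v0) (d0 := d0)
    (T := T) (t := t) (c := c)) X))).tendsto ∅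
  have l4 := ENNReal.Tendsto.const_mul (werr_tendsto (v0 := v0) h0 (N := 2) (t := t) (c := c) hT le_rfl)
    (Or.inr (ENNReal.ofReal_ne_top (r := s3⁻¹)))
  rw [mul_zero] at l4
  have key := le_of_tendsto_of_tendsto' (l1.add l3) (l2.add l4) hfin
  rw [add_zero] at key
  exact key

end Wall

end HexObs
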