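import Pool.Agent.PHW.WallDefs

/-!
Planarity for a path that goes up: the parity of the vertical edges on the left is constant off the path (below its
last vertex). Consequence: an explorer on the right of a walker that reaches the top does not end on a wall that is
attached to the left infinity and avoided by the walker.
-/

set_option autoImplicit false

namespace HexObs

namespace Planar

open Finset

lemma KKo_adj {a : ℕ → ℤ × ℤ} {n : ℕ} (ha : ∀ i, i ≤ n → Adj (a i) (a (i + 1))) (ha0 : (a 0).2 = 0)
    {r r' : ℤ × ℤ} (han : r.2 < (a (n + 1)).2) (h : EE r r') (hpos : 0 < r'.2)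
    (hr : ∀ i, i ≤ n + 1 → a i ≠ r) (hr' : ∀ i, i ≤ n + 1 → a i ≠ r') : KK a n r = KK a n r' := by
  obtain ⟨e1, e2, e3⟩ := h
  have hsum : ∀ x y : ZMod 2, x + y = 0 → x = y := by decide
  rcases e3 with ⟨b1, b2⟩ | ⟨b1, b2⟩ | ⟨b1, b2⟩
  · unfold KK
    apply sum_congr rfl
    intro i hi
    rw [mem_range] at hi
    exact kap_vert (ha i (by omega)) e1 b1 b2
  · apply hsum
    unfold KK
    rw [← sum_add_distrib]
    have h1 : ∀ i ∈ range (n + 1), kap (a i) (a (i + 1)) r + kap (a i) (a (i + 1)) r' =
        phi 1 r (a i) + phi 1 r (a (i + 1)) := by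
      intro i hi
      rw [mem_range] at hi
      exact kap_right (ha i (by omega)) e1 e2 b1 b2 (hr' i (by omega)) (hr' (i + 1) (by omega))
    rw [sum_congr rfl h1, sum_tele (fun i => phi 1 r (a i)) n]
    have h2 : phi 1 r (a 0) = 0 := by
      unfold phi
      rw [if_neg]
      omega
    have h3 : phi 1 r (a (n + 1)) = 0 := by
      unfold phi
      rw [if_neg]
      omega
    rw [h2, h3, add_zero]
  · apply hsum
    unfold KK
    rw [← sum_add_distrib]
    have h1 : ∀ i ∈ range (n + 1), kap (a i) (a (i + 1)) r + kap (a i) (a (i + 1)) r' =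
        phi 0 r (a i) + phi 0 r (a (i + 1)) := by
      intro i hi
      rw [mem_range] at hi
      exact kap_left (ha i (by omega)) e1 e2 b1 b2 (hr i (by omega)) (hr (i + 1) (by omega))
    rw [sum_congr rfl h1, sum_tele (fun i => phi 0 r (a i)) n]
    have h2 : phi 0 r (a 0) = 0 := by
      unfold phi
      rw [if_neg]
      omega
    have h3 : phi 0 r (a (n + 1)) = 0 := by
      unfold phi
      rw [if_neg]
      omega
    rw [h2, h3, add_zero]

/-- a path disjoint from the upward path and below its end: the parity is constant. -/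
lemma KKo_path {a g : ℕ → ℤ × ℤ} {n m : ℕ} (ha : ∀ i, i ≤ n → Adj (a i) (a (i + 1))) (ha0 : (a 0).2 = 0)
    (han : ∀ j, j ≤ m → (g j).2 < (a (n + 1)).2) (hg : ∀ j, j < m → Adj (g j) (g (j + 1))) (hg0 : (g 0).2 = 0)
    (hgin : ∀ j, 1 ≤ j → j ≤ m → 0 < (g j).2) (hdis : ∀ i, i ≤ n + 1 → ∀ j, j ≤ m → a i ≠ g j) :
    ∀ j, j ≤ m → KK a n (g j) = KK a n (g 0) := by
  intro j
  induction j with
  | zero => intro _; rfl
  | succ j ih =>
    intro hj
    rw [← ih (by omega)]
    have hp := hgin (j + 1) (by omega) hj
    rcases Nat.eq_zero_or_pos j with h0 | h0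
    · subst h0
      rcases hg 0 (by omega) with h | h
      · exact (KKo_adj ha ha0 (han 0 (by omega)) h hp (fun i hi => hdis i hi 0 (by omega))
          (fun i hi => hdis i hi (0 + 1) hj)).symm
      · exfalso
        obtain ⟨e1, e2, e3⟩ := h
        omega
    · have hp2 := hgin j (by omega) (by omega)
      rcases hg j (by omega) with h | h
      · exact (KKo_adj ha ha0 (han j (by omega)) h hp (fun i hi => hdis i hi j (by omega))
          (fun i hi => hdis i hi (j + 1) hj)).symm
      · exact KKo_adj ha ha0 (han (j + 1) hj) h hp2 (fun i hi => hdis i hi (j + 1) hj)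
          (fun i hi => hdis i hi j (by omega))

lemma KKo_bot {a : ℕ → ℤ × ℤ} {n : ℕ} (ha : ∀ i, i ≤ n → Adj (a i) (a (i + 1))) (ha0 : (a 0).2 = 0)
    (hin : ∀ i, 1 ≤ i → i ≤ n + 1 → 0 < (a i).2) {r : ℤ × ℤ} (hr : r.2 = 0) :
    KK a n r = (if (a 0).1 ≤ r.1 then 1 else 0) := by
  unfold KK
  rw [sum_range_succ']
  have h1 : ∑ k ∈ range n, kap (a (k + 1)) (a (k + 1 + 1)) r = 0 := by
    apply sum_eq_zero
    intro i hi
    rw [mem_range] at hi
    unfold kap
    rw [if_neg]
    have h1 := hin (i + 1) (by omega) (by omega)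
    have h2 := hin (i + 1 + 1) (by omega) (by omega)
    omega
  have h2 : kap (a 0) (a (0 + 1)) r = if (a 0).1 ≤ r.1 then 1 else 0 := by
    unfold kap
    have h3 := ha 0 (by omega)
    have h4 := hin 1 le_rfl (by omega)
    unfold Adj EE at h3
    have key : ((a 0).1 = (a (0 + 1)).1 ∧ ((a 0).2 = r.2 ∨ (a (0 + 1)).2 = r.2) ∧ (a 0).1 ≤ r.1) ↔ (a 0).1 ≤ r.1 := by
      simp only [zero_add] at h3 ⊢
      omega
    simp only [key]
  rw [h1, h2, zero_add]

/-- a path that starts on the right of an upward path and stays below its end does not reach a vertex that sees the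
left infinity (on its level). -/
theorem open_cross {a g : ℕ → ℤ × ℤ} {n m : ℕ} (ha : ∀ i, i ≤ n → Adj (a i) (a (i + 1))) (ha0 : (a 0).2 = 0)
    (hin : ∀ i, 1 ≤ i → i ≤ n + 1 → 0 < (a i).2)
    (han : ∀ j, j ≤ m → (g j).2 < (a (n + 1)).2) (hg : ∀ j, j < m → Adj (g j) (g (j + 1))) (hg0 : (g 0).2 = 0)
    (hgin : ∀ j, 1 ≤ j → j ≤ m → 0 < (g j).2) (hdis : ∀ i, i ≤ n + 1 → ∀ j, j ≤ m → a i ≠ g j)
    (hleft : ∀ i, i ≤ n + 1 → (a i).2 = (g m).2 → (g m).1 < (a i).1) : (g 0).1 < (a 0).1 := by
  have h1 := KKo_path ha ha0 han hg hg0 hgin hdis m le_rfl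
  rw [KKo_bot ha ha0 hin hg0] at h1
  have h2 : KK a n (g m) = 0 := by
    unfold KK
    apply sum_eq_zero
    intro i hi
    rw [mem_range] at hi
    unfold kap
    rw [if_neg]
    rintro ⟨e1, e2 | e2, e3⟩
    · have := hleft i (by omega) e2
      omega
    · have := hleft (i + 1) (by omega) e2
      omega
  rw [h2] at h1
  by_contra hcon
  rw [if_pos (by omega)] at h1
  exact absurd h1 (by decide)

end Planar

namespace Wall

open Complex Finset ENNReal

/-- an explorer that ends on the wall is on the left of every walker that reaches the top and avoids the wall. -/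
theorem wall_left {v0 v1 v2 d0 : Pt} (h0 : d0 ∈ dirs) (c1 : cl v1 = cl v0) (c2 : cl v2 = cl v0)
    (l1 : ip (v1 - v0) d0 = 0) (l2 : ip (v2 - v0) d0 = 0) {T t : ℕ} (ht : t < T) {c : ℤ} {s u : List Bool}
    (hs : ∀ j, 1 ≤ j → j ≤ s.length → 0 < ip (vx v2 d0 s j - v0) d0 ∧ vx v2 d0 s j ∉ wl v0 d0 t c)
    (hst : 3 * (T : ℤ) + 2 ≤ ip (tip v2 d0 s - v0) d0)
    (hu : ∀ i, 1 ≤ i → i ≤ u.length → 0 < ip (vx v1 d0 u i - v0) d0 ∧ ip (vx v1 d0 u i - v0) d0 < 3 * T + 2)
    (hut : tip v1 d0 u ∈ wl v0 d0 t c)
    (hne : v1 ≠ v2)
    (hdis : ∀ i, 1 ≤ i → i ≤ u.length → ∀ j, 1 ≤ j → j ≤ s.length → vx v1 d0 u i ≠ vx v2 d0 s j) :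
    cross d0 (v2 - v0) < cross d0 (v1 - v0) := by
  have htT : (t : ℤ) < T := by exact_mod_cast ht
  have e1 : ∀ i, vx v1 d0 u i = vx v1 d0 u i := fun _ => rfl
  have hutl : 0 < ip (tip v1 d0 u - v0) d0 ∧ ip (tip v1 d0 u - v0) d0 < 3 * T + 2 := by
    obtain ⟨h | h, _⟩ := hut <;> omega
  have key := Planar.open_cross (a := fun j => xy v0 d0 (vx v2 d0 s j)) (g := fun i => xy v0 d0 (vx v1 d0 u i))
    (n := s.length) (m := u.length + 1) (fun i _ => xy_adj h0 c2 s i) l2
    (fun j hj hj2 => by
      rcases Nat.lt_or_ge s.length j with h | h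
      · have : j = s.length + 1 := by omega
        subst this
        have : (0 : ℤ) ≤ T := by positivity
        show 0 < ip (tip v2 d0 s - v0) d0
        omega
      · exact (hs j hj h).1)
    (fun i hi => by
      show ip (vx v1 d0 u i - v0) d0 < ip (tip v2 d0 s - v0) d0
      rcases Nat.lt_or_ge u.length i with h | h
      · have : i = u.length + 1 := by omega
        subst this
        have := hutl.2
        show ip (tip v1 d0 u - v0) d0 < _
        omega
      · rcases Nat.eq_zero_or_pos i with h2 | h2
        · subst h2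
          show ip (v1 - v0) d0 < _
          rw [l1]
          have : (0 : ℤ) ≤ T := by positivity
          omega
        · have := (hu i h2 h).2
          omega)
    (fun i _ => xy_adj h0 c1 u i) l1
    (fun i hi hi2 => by
      show 0 < ip (vx v1 d0 u i - v0) d0
      rcases Nat.lt_or_ge u.length i with h | h
      · have : i = u.length + 1 := by omega
        subst this
        exact hutl.1
      · exact (hu i hi h).1)
    (fun j hj i hi h => by
      have h := xy_inj h0 h
      rcases Nat.eq_zero_or_pos j with hj0 | hj0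
      · subst hj0
        rcases Nat.eq_zero_or_pos i with hi0 | hi0
        · subst hi0
          exact hne h.symm
        · have e : ip (vx v2 d0 s 0 - v0) d0 = 0 := l2
          rw [h] at e
          rcases Nat.lt_or_ge u.length i with h3 | h3
          · have : i = u.length + 1 := by omega
            subst this
            have := hutl.1
            have e' : ip (tip v1 d0 u - v0) d0 = 0 := e
            omega
          · have := (hu i hi0 h3).1
            omega
      · rcases Nat.eq_zero_or_pos i with hi0 | hi0
        · subst hi0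
          have e : ip (vx v1 d0 u 0 - v0) d0 = 0 := l1
          rw [← h] at e
          rcases Nat.lt_or_ge s.length j with h3 | h3
          · have : j = s.length + 1 := by omega
            subst this
            have e' : ip (tip v2 d0 s - v0) d0 = 0 := e
            have : (0 : ℤ) ≤ T := by positivity
            omega
          · have := (hs j hj0 h3).1
            omega
        · rcases Nat.lt_or_ge s.length j with h3 | h3
          · have : j = s.length + 1 := by omega
            subst this
            have e' : tip v2 d0 s = vx v1 d0 u i := h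
            rcases Nat.lt_or_ge u.length i with h4 | h4
            · have : i = u.length + 1 := by omega
              subst this
              have e2 : tip v2 d0 s = tip v1 d0 u := h
              rw [e2] at hst
              omega
            · have := (hu i hi0 h4).2
              rw [← e'] at this
              omega
          · rcases Nat.lt_or_ge u.length i with h4 | h4
            · have : i = u.length + 1 := by omega
              subst this
              have e2 : vx v2 d0 s j = tip v1 d0 u := h
              exact (hs j hj0 h3).2 (e2 ▸ hut)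
            · exact hdis i hi0 h4 j hj0 h3 h.symm)
    (fun j hj hlev => by
      have hlev' : ip (vx v2 d0 s j - v0) d0 = ip (tip v1 d0 u - v0) d0 := hlev
      show -(cross d0 (tip v1 d0 u - v0)) < -(cross d0 (vx v2 d0 s j - v0))
      rcases Nat.eq_zero_or_pos j with hj0 | hj0
      · subst hj0
        exfalso
        have e : ip (vx v2 d0 s 0 - v0) d0 = 0 := l2
        rw [hlev'] at e
        omega
      · rcases Nat.lt_or_ge s.length j with h3 | h3
        · exfalso
          have : j = s.length + 1 := by omega
          subst this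
          have e' : ip (tip v2 d0 s - v0) d0 = ip (tip v1 d0 u - v0) d0 := hlev
          omega
        · by_contra hcon
          apply (hs j hj0 h3).2
          refine ⟨?_, ?_⟩
          · rw [hlev']
            exact hut.1
          · have := hut.2
            linarith)
  have k1 : (xy v0 d0 (vx v1 d0 u 0)).1 = -(cross d0 (v1 - v0)) := rfl
  have k2 : (xy v0 d0 (vx v2 d0 s 0)).1 = -(cross d0 (v2 - v0)) := rfl
  simp only [k1, k2] at key
  linarith

end Wall

end HexObs
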