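import Pool.Agent.PHW.WallDom

/-!
Planarity in the box with a wall: a walker that ends on the wall is continued along the wall.
-/

set_option autoImplicit false

namespace HexObs

namespace Wall

open Complex Finset ENNReal

/-- the word s' continues the word s outside of Ω and above the base line. -/
def Cont (Ω : Set Pt) (v d0 : Pt) (s s' : List Bool) : Prop :=
  (∃ e, s' = s ++ e) ∧ ∀ j, s.length < j → j ≤ s'.length + 1 → vx v d0 s' j ∉ Ω ∧ 0 < ip (vx v d0 s' j - v) d0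

lemma Cont.le {Ω : Set Pt} {v d0 : Pt} {s s' : List Bool} (h : Cont Ω v d0 s s') : s.length ≤ s'.length := by
  obtain ⟨e, rfl⟩ := h.1
  simp

lemma Cont.eq {Ω : Set Pt} {v d0 : Pt} {s s' : List Bool} (h : Cont Ω v d0 s s') {j : ℕ}
    (hj : j ≤ s.length + 1) : vx v d0 s' j = vx v d0 s j := by
  obtain ⟨e, rfl⟩ := h.1
  exact vx_append hj

lemma cont_step {Ω : Set Pt} {v d0 : Pt} {s s' : List Bool} (h : Cont Ω v d0 s s') {b : Bool} {e : Pt}
    (he : turn b (dx d0 s' s'.length) = e) (h1 : tip v d0 s' + e ∉ Ω)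
    (h2 : 0 < ip (tip v d0 s' + e - v) d0) : Cont Ω v d0 s (s' ++ [b]) := by
  obtain ⟨⟨e', he'⟩, hc⟩ := h
  refine ⟨⟨e' ++ [b], by rw [he', List.append_assoc]⟩, ?_⟩
  intro j hj hjl
  have hl : (s' ++ [b]).length = s'.length + 1 := by simp
  rw [hl] at hjl
  rcases Nat.lt_or_ge (s'.length + 1) j with h3 | h3
  · have hjj : j = (s' ++ [b]).length + 1 := by omega
    have h4 : vx v d0 (s' ++ [b]) j = tip v d0 (s' ++ [b]) := by
      rw [hjj]
      rfl
    rw [h4, tip_append_one, he]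
    exact ⟨h1, h2⟩
  · rw [vx_append h3]
    exact hc j hj h3

/-- the continuation along the wall. -/
lemma cont_zig {v0 d0 v : Pt} (h0 : d0 ∈ dirs) {t : ℕ} {c : ℤ} {Ω : Set Pt} (hΩ : ∀ x ∈ wl v0 d0 t c, x ∉ Ω)
    (hlv : ∀ q, ip (q - v) d0 = ip (q - v0) d0) {s s' : List Bool} (h : Cont Ω v d0 s s')
    (hdx : dx d0 s' s'.length = rotL d0) (hlev : ip (tip v d0 s' - v0) d0 = 3 * t + 3)
    (hc : -(cross d0 (tip v d0 s' - v0)) ≤ c) (n : ℕ) :
    ∃ s'', Cont Ω v d0 s s'' ∧ dx d0 s'' s''.length = rotL d0 ∧ ip (tip v d0 s'' - v0) d0 = 3 * t + 3 ∧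
      -(cross d0 (tip v d0 s'' - v0)) ≤ c ∧
      ip (tip v d0 s' - v0) (rotL d0) + 3 * n ≤ ip (tip v d0 s'' - v0) (rotL d0) := by
  obtain ⟨t1, t2, t3, t4, t5, t6, t7, t8, t9, t10, t11, t12, t13, t14⟩ := esc_tab d0 h0
  induction n with
  | zero => exact ⟨s', h, hdx, hlev, hc, by simp⟩
  | succ n ih =>
    obtain ⟨s1, a1, a2, a3, a4, a5⟩ := ih
    have b1 : turn true (dx d0 s1 s1.length) = rotL (rotL d0) := by rw [a2, t8]
    have b3 : tip v d0 s1 + rotL (rotL d0) - v0 = (tip v d0 s1 - v0) + rotL (rotL d0) := by abel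
    have m1 : tip v d0 s1 + rotL (rotL d0) ∈ wl v0 d0 t c := by
      refine ⟨Or.inl ?_, ?_⟩
      · rw [b3, ip_add_left, a3, t2]
        ring
      · rw [b3, cross_add_right, t4]
        linarith
    have l1 : 0 < ip (tip v d0 s1 + rotL (rotL d0) - v) d0 := by
      rw [hlv]
      rcases m1.1 with h | h <;> rw [h] <;> positivity
    have c1 := cont_step a1 b1 (hΩ _ m1) l1
    have b2 : dx d0 (s1 ++ [true]) (s1 ++ [true]).length = rotL (rotL d0) := by
      rw [dx_append_one, b1]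
    have b4 : turn false (dx d0 (s1 ++ [true]) (s1 ++ [true]).length) = rotL d0 := by rw [b2, t9]
    have b5 : tip v d0 (s1 ++ [true]) = tip v d0 s1 + rotL (rotL d0) := by
      rw [tip_append_one, b1]
    have b6 : tip v d0 (s1 ++ [true]) + rotL d0 - v0 = (tip v d0 s1 - v0) + rotL (rotL d0) + rotL d0 := by
      rw [b5]
      abel
    have m2 : tip v d0 (s1 ++ [true]) + rotL d0 ∈ wl v0 d0 t c := by
      refine ⟨Or.inr ?_, ?_⟩
      · rw [b6, ip_add_left, ip_add_left, a3, t2, t1]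
        ring
      · rw [b6, cross_add_right, cross_add_right, t4, t3]
        linarith
    have l2 : 0 < ip (tip v d0 (s1 ++ [true]) + rotL d0 - v) d0 := by
      rw [hlv]
      rcases m2.1 with h | h <;> rw [h] <;> positivity
    have c2 := cont_step c1 b4 (hΩ _ m2) l2
    have b7 : tip v d0 (s1 ++ [true] ++ [false]) = tip v d0 (s1 ++ [true]) + rotL d0 := by
      rw [tip_append_one, b4]
    refine ⟨s1 ++ [true] ++ [false], c2, ?_, ?_, ?_, ?_⟩
    · rw [dx_append_one, b4]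
    · rw [b7, b6, ip_add_left, ip_add_left, a3, t2, t1]
      ring
    · rw [b7]
      exact m2.2
    · rw [b7, b6, ip_add_left, ip_add_left, t6, t5]
      push_cast
      linarith

/-- the continuation upwards on the left of the box. -/
lemma cont_up {v0 d0 v : Pt} (h0 : d0 ∈ dirs) {L : ℤ} {Ω : Set Pt} (hΩ : ∀ x, L ≤ ip (x - v0) (rotL d0) → x ∉ Ω)
    (hlv : ∀ q, ip (q - v) d0 = ip (q - v0) d0) {s s' : List Bool} (h : Cont Ω v d0 s s')
    (hdx : dx d0 s' s'.length = rotL d0) (hlev : 0 < ip (tip v d0 s' - v0) d0)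
    (hL : L ≤ ip (tip v d0 s' - v0) (rotL d0)) (n : ℕ) :
    ∃ s'', Cont Ω v d0 s s'' ∧ dx d0 s'' s''.length = rotL d0 ∧
      ip (tip v d0 s'' - v0) d0 = ip (tip v d0 s' - v0) d0 + 3 * n ∧ L ≤ ip (tip v d0 s'' - v0) (rotL d0) := by
  obtain ⟨t1, t2, t3, t4, t5, t6, t7, t8, t9, t10, t11, t12, t13, t14⟩ := esc_tab d0 h0
  have u1 : turn false (rotL d0) = d0 := turn_turn true d0
  have u2 : ip d0 (rotL d0) = 1 := ip_rotL_self h0
  induction n with
  | zero => exact ⟨s', h, hdx, by simp, hL⟩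
  | succ n ih =>
    obtain ⟨s1, a1, a2, a3, a4⟩ := ih
    have b1 : turn false (dx d0 s1 s1.length) = d0 := by rw [a2, u1]
    have b3 : tip v d0 s1 + d0 - v0 = (tip v d0 s1 - v0) + d0 := by abel
    have l1 : 0 < ip (tip v d0 s1 + d0 - v) d0 := by
      rw [hlv, b3, ip_add_left, a3, t11]
      positivity
    have g1 : L ≤ ip (tip v d0 s1 + d0 - v0) (rotL d0) := by
      rw [b3, ip_add_left, u2]
      linarith
    have c1 := cont_step a1 b1 (hΩ _ g1) l1
    have b2 : dx d0 (s1 ++ [false]) (s1 ++ [false]).length = d0 := by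
      rw [dx_append_one, b1]
    have b4 : turn true (dx d0 (s1 ++ [false]) (s1 ++ [false]).length) = rotL d0 := by rw [b2, t7]
    have b5 : tip v d0 (s1 ++ [false]) = tip v d0 s1 + d0 := by
      rw [tip_append_one, b1]
    have b6 : tip v d0 (s1 ++ [false]) + rotL d0 - v0 = (tip v d0 s1 - v0) + d0 + rotL d0 := by
      rw [b5]
      abel
    have l2 : 0 < ip (tip v d0 (s1 ++ [false]) + rotL d0 - v) d0 := by
      rw [hlv, b6, ip_add_left, ip_add_left, a3, t11, t1]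
      positivity
    have g2 : L ≤ ip (tip v d0 (s1 ++ [false]) + rotL d0 - v0) (rotL d0) := by
      rw [b6, ip_add_left, ip_add_left, u2, t5]
      linarith
    have c2 := cont_step c1 b4 (hΩ _ g2) l2
    have b7 : tip v d0 (s1 ++ [false] ++ [true]) = tip v d0 (s1 ++ [false]) + rotL d0 := by
      rw [tip_append_one, b4]
    refine ⟨s1 ++ [false] ++ [true], c2, ?_, ?_, ?_⟩
    · rw [dx_append_one, b4]
    · rw [b7, b6, ip_add_left, ip_add_left, a3, t11, t1]
      push_cast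
      ring
    · rw [b7]
      exact g2

/-- every walker is continued to a level above the box. -/
lemma ext_top {v0 d0 : Pt} (h0 : d0 ∈ dirs) {T L t : ℕ} (hT : 1 ≤ T) {c k : ℤ} (hk : |k| < L)
    {X : Set Pt} {s : List Bool} (hs : s ∈ Br (wbox (v0 := v0) h0 T L t c : Set Pt) X (foot v0 d0 k) d0) :
    ∃ s', Cont (wbox (v0 := v0) h0 T L t c : Set Pt) (foot v0 d0 k) d0 s s' ∧
      ∀ x ∈ wbox (v0 := v0) h0 T L t c, ip (x - foot v0 d0 k) d0 < ip (tip (foot v0 d0 k) d0 s' - foot v0 d0 k) d0 := by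
  obtain ⟨t1, t2, t3, t4, t5, t6, t7, t8, t9, t10, t11, t12, t13, t14⟩ := esc_tab d0 h0
  have hlv : ∀ q, ip (q - foot v0 d0 k) d0 = ip (q - v0) d0 := lev_foot v0 d0 k
  have hsout : tip (foot v0 d0 k) d0 s ∉ (wbox (v0 := v0) h0 T L t c : Set Pt) := hs.2.1
  have hprev : ip (tip (foot v0 d0 k) d0 s - v0) d0 = ip (vx (foot v0 d0 k) d0 s s.length - v0) d0 + 2 := by
    have e2 : tip (foot v0 d0 k) d0 s - v0 = (vx (foot v0 d0 k) d0 s s.length - v0) + d0 := by
      rw [tip_eq, hs.2.2]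
      abel
    rw [e2, ip_add_left, ip_self_dir h0]
  have hpos0 : 0 ≤ ip (vx (foot v0 d0 k) d0 s s.length - v0) d0 := by
    rcases Nat.eq_zero_or_pos s.length with h | h
    · rw [h]
      have : vx (foot v0 d0 k) d0 s 0 = foot v0 d0 k := rfl
      rw [this, ft_ip]
    · exact ((mem_wbox h0).1 (hs.1.mem s.length h le_rfl).1).1.1.2.1.le
  have hpos : 0 < ip (tip (foot v0 d0 k) d0 s - v0) d0 := by linarith
  have hbase : Cont (wbox (v0 := v0) h0 T L t c : Set Pt) (foot v0 d0 k) d0 s s := by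
    refine ⟨⟨[], by simp⟩, ?_⟩
    intro j hj hjl
    have hjj : j = s.length + 1 := by omega
    rw [hjj]
    exact ⟨hsout, by rw [hlv]; exact hpos⟩
  by_cases hw : tip (foot v0 d0 k) d0 s ∈ wl v0 d0 t c
  · have hlev : ip (tip (foot v0 d0 k) d0 s - v0) d0 = 3 * t + 2 := by
      have h1 := hex_level h0 (vx_hex (foot v0 d0 k) d0 s s.length)
      rw [hlv] at h1
      rcases hw.1 with h2 | h2
      · exact h2
      · omega
    have hcw : ∀ x ∈ wl v0 d0 t c, x ∉ (wbox (v0 := v0) h0 T L t c : Set Pt) :=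
      fun x hx h => ((mem_wbox h0).1 h).2 hx
    -- the first turn
    have b1 : turn true (dx d0 s s.length) = rotL d0 := by rw [hs.2.2, t7]
    have b3 : tip (foot v0 d0 k) d0 s + rotL d0 - v0 = (tip (foot v0 d0 k) d0 s - v0) + rotL d0 := by abel
    have m1 : tip (foot v0 d0 k) d0 s + rotL d0 ∈ wl v0 d0 t c := by
      refine ⟨Or.inr ?_, ?_⟩
      · rw [b3, ip_add_left, hlev, t1]
        ring
      · rw [b3, cross_add_right, t3]
        have := hw.2
        linarith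
    have l1 : 0 < ip (tip (foot v0 d0 k) d0 s + rotL d0 - foot v0 d0 k) d0 := by
      rw [hlv]
      rcases m1.1 with h | h <;> rw [h] <;> positivity
    have c1 := cont_step hbase b1 (hcw _ m1) l1
    have e1 : tip (foot v0 d0 k) d0 (s ++ [true]) = tip (foot v0 d0 k) d0 s + rotL d0 := by
      rw [tip_append_one, b1]
    obtain ⟨n, hn⟩ : ∃ n : ℕ, 3 * (L : ℤ) ≤ ip (tip (foot v0 d0 k) d0 (s ++ [true]) - v0) (rotL d0) + 3 * n := by
      refine ⟨(3 * (L : ℤ) - ip (tip (foot v0 d0 k) d0 (s ++ [true]) - v0) (rotL d0)).toNat, ?_⟩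
      have := Int.self_le_toNat (3 * (L : ℤ) - ip (tip (foot v0 d0 k) d0 (s ++ [true]) - v0) (rotL d0))
      linarith
    obtain ⟨s1, a1, a2, a3, a4, a5⟩ := cont_zig h0 hcw hlv c1 (by rw [dx_append_one, b1])
      (by rw [e1, b3, ip_add_left, hlev, t1]; ring) (by rw [e1]; exact m1.2) n
    have hout : ∀ x, 3 * (L : ℤ) ≤ ip (x - v0) (rotL d0) → x ∉ (wbox (v0 := v0) h0 T L t c : Set Pt) := by
      intro x hx h
      have := ((mem_wbox h0).1 h).1.2.1
      linarith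
    obtain ⟨s2, d1, d2, d3, d4⟩ := cont_up h0 hout hlv a1 a2 (by rw [a3]; positivity) (by linarith) T
    refine ⟨s2, d1, ?_⟩
    intro x hx
    rw [hlv, hlv, d3, a3]
    have := ((mem_wbox h0).1 hx).1.1.2.2
    have h5 : (0 : ℤ) ≤ t := by positivity
    linarith
  · refine ⟨s, hbase, ?_⟩
    intro x hx
    have hg := HexW.trap_good_foot (v0 := v0) h0 (T := T) (L := L) hT hk
    have hex : s ∈ exits (wbox (v0 := v0) h0 T L t c) (foot v0 d0 k) d0 :=
      mem_exits.2 ⟨saw_arr hs.1, hs.2.1⟩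
    have hex' := exit_box h0 (foot v0 d0 k) hex hw
    have h6 := hg.exit s hex' x ((mem_trapF h0).2 ((mem_wbox h0).1 hx).1)
    rw [hs.2.2] at h6
    have e : tip (foot v0 d0 k) d0 s - x = (tip (foot v0 d0 k) d0 s - foot v0 d0 k) - (x - foot v0 d0 k) := by abel
    rw [e, ip_sub_left (tip (foot v0 d0 k) d0 s - foot v0 d0 k)] at h6
    linarith

/-- a walk that avoids a walker avoids its continuation. -/
lemma sep_gen {Ω : Set Pt} {v2 d0 : Pt} (hΩ : ∀ x ∈ Ω, 0 < ip (x - v2) d0) {s s' : List Bool}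
    (hs : Saw Ω v2 d0 s) (hc : Cont Ω v2 d0 s s')
    (htop : ∀ x ∈ Ω, ip (x - v2) d0 < ip (tip v2 d0 s' - v2) d0) {w : Pt} {a : List Bool} {n : ℕ}
    (lw : ip (w - v2) d0 = 0) (nw : w ≠ v2)
    (ha : ∀ i, 1 ≤ i → i ≤ n → vx w d0 a i ∈ Ω ∧ vx w d0 a i ∉ vis v2 d0 s) :
    (∀ j, 1 ≤ j → j ≤ s'.length + 1 → 0 < ip (vx v2 d0 s' j - v2) d0) ∧
    (∀ i, i ≤ n → ∀ j, j ≤ s'.length + 1 → vx w d0 a i ≠ vx v2 d0 s' j) ∧
      (∀ i, i ≤ n → ip (vx w d0 a i - v2) d0 < ip (tip v2 d0 s' - v2) d0) := by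
  have lz : ip (v2 - v2) d0 = 0 := by
    rw [sub_self]
    simp [ip]
  have hspos : ∀ j, 1 ≤ j → j ≤ s'.length + 1 → 0 < ip (vx v2 d0 s' j - v2) d0 := by
    intro j hj hjl
    rcases Nat.lt_or_ge s.length j with h | h
    · exact (hc.2 j h hjl).2
    · rw [hc.eq (by omega)]
      exact hΩ _ (hs.mem j hj h)
  refine ⟨hspos, ?_, ?_⟩
  · intro i hi j hj he
    rcases Nat.eq_zero_or_pos i with hi0 | hi0
    · rw [hi0] at he
      have he' : w = vx v2 d0 s' j := he
      rcases Nat.eq_zero_or_pos j with hj1 | hj1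
      · rw [hj1] at he'
        exact nw he'
      · have := hspos j hj1 hj
        rw [← he', lw] at this
        exact lt_irrefl _ this
    · have hm := ha i hi0 hi
      rcases Nat.eq_zero_or_pos j with hj1 | hj1
      · rw [hj1] at he
        have he' : vx w d0 a i = v2 := he
        have := hΩ _ hm.1
        rw [he', lz] at this
        exact lt_irrefl _ this
      · rcases Nat.lt_or_ge s.length j with h | h
        · rw [he] at hm
          exact (hc.2 j h hj).1 hm.1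
        · rw [hc.eq (by omega)] at he
          exact hm.2 ⟨j, hj1, h, he.symm⟩
  · intro i hi
    rcases Nat.eq_zero_or_pos i with hi0 | hi0
    · rw [hi0]
      show ip (w - v2) d0 < _
      rw [lw]
      exact hspos _ (by omega) le_rfl
    · exact htop _ (ha i hi0 hi).1

lemma ip_foot_foot (v0 d0 : Pt) (a b : ℤ) : ip (foot v0 d0 a - foot v0 d0 b) d0 = 0 := by
  rw [lev_foot, ft_ip]

/-- the explorer does not reach the far walker (walkers of any type) -/
theorem w_far_hit {v0 d0 : Pt} (h0 : d0 ∈ dirs) {T L t : ℕ} (hT : 1 ≤ T) (ht : t < T) {c k1 k2 k3 : ℤ}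
    (hk1 : |k1| < L) (hk2 : |k2| < L) (hk3 : |k3| < L) (hside : (k1 < k2 ∧ k2 < k3) ∨ (k3 < k2 ∧ k2 < k1))
    {s g u : List Bool} (hs : s ∈ Br (wbox (v0 := v0) h0 T L t c : Set Pt) ∅ (foot v0 d0 k2) d0)
    (hg : g ∈ Br (wbox (v0 := v0) h0 T L t c : Set Pt) (vis (foot v0 d0 k2) d0 s) (foot v0 d0 k3) d0)
    (hu : Saw ((wbox (v0 := v0) h0 T L t c : Set Pt) \ (vis (foot v0 d0 k2) d0 s ∪ vis (foot v0 d0 k3) d0 g))
      (foot v0 d0 k1) d0 u) :
    tip (foot v0 d0 k1) d0 u ∉ vis (foot v0 d0 k3) d0 g := by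
  rintro ⟨j0, hj0, hj0l, hv⟩
  obtain ⟨s', hc, htop⟩ := ext_top h0 hT hk2 hs
  have hhalf : ∀ (k : ℤ), ∀ x ∈ (wbox (v0 := v0) h0 T L t c : Set Pt), 0 < ip (x - foot v0 d0 k) d0 := by
    intro k x hx
    rw [lev_foot]
    exact ((mem_wbox h0).1 hx).1.1.2.1
  have hs1 : Saw (wbox (v0 := v0) h0 T L t c : Set Pt) (foot v0 d0 k2) d0 s := hs.1.mono Set.sdiff_subset
  have n1 : foot v0 d0 k1 ≠ foot v0 d0 k2 := by
    intro h
    have := foot_inj h0 h
    omega
  have n3 : foot v0 d0 k3 ≠ foot v0 d0 k2 := by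
    intro h
    have := foot_inj h0 h
    omega
  obtain ⟨hspos, A1, A2⟩ := sep_gen (hhalf k2) hs1 hc htop (w := foot v0 d0 k1) (a := u) (n := u.length)
    (ip_foot_foot v0 d0 k1 k2) n1 (fun i hi hil =>
    ⟨(hu.mem i hi hil).1, fun h => (hu.mem i hi hil).2 (Or.inl h)⟩)
  obtain ⟨_, B1, B2⟩ := sep_gen (hhalf k2) hs1 hc htop (w := foot v0 d0 k3) (a := g) (n := j0)
    (ip_foot_foot v0 d0 k3 k2) n3 (fun i hi hil =>
    ⟨(hg.1.mem i hi (by omega)).1, (hg.1.mem i hi (by omega)).2⟩)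
  have key := no_cross_hit (v0 := foot v0 d0 k2) (v2 := foot v0 d0 k2) h0 (by rw [ft_cl, ft_cl]) rfl
    (by rw [ft_cl, ft_cl]) (ip_foot_foot v0 d0 k1 k2) (ip_foot_foot v0 d0 k2 k2) (ip_foot_foot v0 d0 k3 k2)
    hj0 hv.symm (fun i hi hil => hhalf k2 _ (hu.mem i hi hil).1)
    (fun i hi hil => hhalf k2 _ (hg.1.mem i hi (by omega)).1) hspos A1 B1 A2 B2
  rw [cross_foot h0, cross_foot h0] at key
  omega

/-- an arc does not jump over a walker (of any type) -/
theorem w_far_land {v0 d0 : Pt} (h0 : d0 ∈ dirs) {T L t : ℕ} (hT : 1 ≤ T) (ht : t < T) {c k1 k2 : ℤ}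
    (hk1 : |k1| < L) (hk2 : |k2| < L) (hne : k1 ≠ k2) {X : Set Pt} {s u : List Bool}
    (hs : s ∈ Br (wbox (v0 := v0) h0 T L t c : Set Pt) ∅ (foot v0 d0 k2) d0) (hX : vis (foot v0 d0 k2) d0 s ⊆ X)
    (hu : Saw ((wbox (v0 := v0) h0 T L t c : Set Pt) \ X) (foot v0 d0 k1) d0 u)
    (hd : dx d0 u u.length = -d0) (hl : ip (tip (foot v0 d0 k1) d0 u - v0) d0 = 0) :
    k1 < k2 ↔ 0 < cross d0 (tip (foot v0 d0 k1) d0 u - foot v0 d0 k2) := by
  obtain ⟨s', hc, htop⟩ := ext_top h0 hT hk2 hs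
  have hhalf : ∀ (k : ℤ), ∀ x ∈ (wbox (v0 := v0) h0 T L t c : Set Pt), 0 < ip (x - foot v0 d0 k) d0 := by
    intro k x hx
    rw [lev_foot]
    exact ((mem_wbox h0).1 hx).1.1.2.1
  have hs1 : Saw (wbox (v0 := v0) h0 T L t c : Set Pt) (foot v0 d0 k2) d0 s := hs.1.mono Set.sdiff_subset
  have n1 : foot v0 d0 k1 ≠ foot v0 d0 k2 := fun h => hne (foot_inj h0 h)
  obtain ⟨hspos, A1, A2⟩ := sep_gen (hhalf k2) hs1 hc htop (w := foot v0 d0 k1) (a := u) (n := u.length)
    (ip_foot_foot v0 d0 k1 k2) n1 (fun i hi hil =>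
    ⟨(hu.mem i hi hil).1, fun h => (hu.mem i hi hil).2 (hX h)⟩)
  have hlen : 1 ≤ u.length := by
    by_contra hcon
    have hz : u.length = 0 := by omega
    rw [hz] at hd
    have hd' : d0 = -d0 := hd
    obtain ⟨⟨_, _, _, _, a5⟩, _⟩ := dirs_distinct d0 h0
    exact a5 hd'.symm
  have hlev2 : ip (tip (foot v0 d0 k1) d0 u - foot v0 d0 k2) d0 = 0 := by
    rw [lev_foot]
    exact hl
  have hlast : vx (foot v0 d0 k1) d0 u u.length = tip (foot v0 d0 k1) d0 u + d0 := by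
    rw [tip_eq, hd]
    abel
  have htn : tip (foot v0 d0 k1) d0 u ≠ foot v0 d0 k2 := by
    intro he
    have hm := hu.mem u.length hlen le_rfl
    rw [hlast, he] at hm
    have e1 : vx (foot v0 d0 k2) d0 s 1 = foot v0 d0 k2 + d0 := rfl
    rcases Nat.eq_zero_or_pos s.length with h | h
    · have h2 : vx (foot v0 d0 k2) d0 s (s.length + 1) ∉ (wbox (v0 := v0) h0 T L t c : Set Pt) := hs.2.1
      rw [h] at h2
      rw [← e1] at hm
      exact h2 hm.1
    · rw [← e1] at hm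
      exact hm.2 (hX ⟨1, le_rfl, h, rfl⟩)
  have key := no_cross (v0 := foot v0 d0 k2) (v2 := foot v0 d0 k2) h0 (by rw [ft_cl, ft_cl]) rfl
    (ip_foot_foot v0 d0 k1 k2) (ip_foot_foot v0 d0 k2 k2)
    (fun i hi hil => hhalf k2 _ (hu.mem i hi hil).1) hlev2 hspos ?_ ?_
  · rw [cross_foot h0] at key
    rw [← key]
    omega
  · intro i hi j hj he
    rcases Nat.lt_or_ge u.length i with h5 | h5
    · have hii : i = u.length + 1 := by omega
      rw [hii] at he
      have he' : tip (foot v0 d0 k1) d0 u = vx (foot v0 d0 k2) d0 s' j := he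
      rcases Nat.eq_zero_or_pos j with hj1 | hj1
      · rw [hj1] at he'
        exact htn he'
      · have := hspos j hj1 hj
        rw [← he', hlev2] at this
        exact lt_irrefl _ this
    · exact A1 i h5 j hj he
  · intro i hi
    rcases Nat.lt_or_ge u.length i with h5 | h5
    · have hii : i = u.length + 1 := by omega
      rw [hii]
      show ip (tip (foot v0 d0 k1) d0 u - foot v0 d0 k2) d0 < _
      rw [hlev2]
      exact hspos _ (by omega) le_rfl
    · exact A2 i h5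

end Wall

end HexObs
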