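import Pool.Agent.PHW.WallSum
import Pool.Agent.PHW.FirstCut
import Pool.Agent.PHW.PairsA
import Pool.Agent.PHW.Num1
import Pool.Agent.PHW.Mirror

/-!
The wall inequality, strong form (weighted by the gap), and for legs that are stopped at a first cut.
-/

set_option autoImplicit false

namespace HexObs

open Complex Finset ENNReal

/-- strong form of the wall inequality: the sum over all G of the pairs with gap at least G + 1. -/
theorem WI_strong {f c : ℕ} (h : f < c) :
    ∑' G : ℕ, g2 (Brd f) (Brd c) (fun s t => Dj s t ∧ Gap s t f (G + 1)) ≤ 2 * BT c := by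
  refine le_trans ?_ (Wall.tsum_Pc h)
  simp_rw [g2_left]
  rw [ENNReal.tsum_comm]
  calc ∑' s : {s : List Bool // s ∈ Brd f}, ∑' G : ℕ, wE s.1 * gf {r | r ∈ Brd c ∧ (Dj s.1 r ∧ Gap s.1 r f (G + 1))}
      ≤ ∑' s : {s : List Bool // s ∈ Brd f}, ∑' c' : ℤ, (if latE s.1 ≤ c' then wE s.1 * gf {r | r ∈ Brd c ∧ Dj s.1 r ∧
          ∀ i, InRow r f i → c' < lat r i + 2} else 0) := by
        apply ENNReal.tsum_le_tsum
        intro s
        refine le_trans ?_ (ENNReal.tsum_comp_le_tsum_of_injective (f := fun G : ℕ => latE s.1 + (G : ℤ))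
          (fun x y h => by simpa using h) _)
        apply ENNReal.tsum_le_tsum
        intro G
        rw [if_pos (by omega)]
        apply mul_le_mul_right
        apply gf_mono
        rintro r ⟨h3, h4, h5⟩
        refine ⟨h3, h4, fun i hi => ?_⟩
        have := h5 i hi
        linarith
    _ = ∑' c' : ℤ, ∑' s : {s : List Bool // s ∈ Brd f}, (if latE s.1 ≤ c' then wE s.1 * gf {r | r ∈ Brd c ∧ Dj s.1 r ∧
          ∀ i, InRow r f i → c' < lat r i + 2} else 0) := ENNReal.tsum_comm
    _ ≤ ∑' c' : ℤ, Wall.Pc c f c' := ENNReal.tsum_le_tsum (fun c' => Wall.term_le h c')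

/-- the gap does not see the part of the right leg beyond the row. -/
lemma Gap_beyond {a d n : ℕ} {s t u : List Bool} {G : ℤ} (ht : t ∈ Brd d) (hu : u ∈ Brd n) (had : a < d)
    (h : Gap s t a G) : Gap s (t ++ u) a G := by
  intro i ⟨hi, hl⟩
  rw [mem_Brd] at ht hu
  rw [List.length_append] at hi
  by_cases hit : i ≤ t.length
  · rw [lev_append (by omega)] at hl
    rw [lat_append (by omega)]
    exact h i ⟨hit, hl⟩
  · exfalso
    have e : i = t.length + (i - t.length) := by omega
    rw [e, lev_cat ht.2.2.1, ht.2.2.2] at hl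
    have := (hu.1 (i - t.length) (by omega) (by omega)).1
    omega

lemma Gap_prefix {a : ℕ} {s t u : List Bool} {G : ℤ} (h : Gap s (t ++ u) a G) : Gap s t a G := by
  intro i ⟨hi, hl⟩
  have h2 := h i ⟨by rw [List.length_append]; omega, by rw [lev_append (by omega)]; exact hl⟩
  rwa [lat_append (by omega)] at h2

lemma BT_anti' {a b : ℕ} (h : a ≤ b) : BT b ≤ BT a := by
  have h0 : BT 0 = 1 := by
    have h1 : BT 0 ≠ ∞ := by
      rw [← gf_Brd, Brd_zero]
      unfold gf
      rw [tsum_subtype ({[]} : Set (List Bool)) wE, tsum_eq_single []]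
      · rw [Set.indicator_of_mem (Set.mem_singleton _)]
        unfold wE
        exact ENNReal.ofReal_ne_top
      · intro b hb
        exact Set.indicator_of_notMem (by simpa using hb) _
    rw [← ENNReal.ofReal_toReal h1]
    have := uu_zero
    unfold uu at this
    rw [this, ENNReal.ofReal_one]
  rcases Nat.eq_zero_or_pos a with ha | ha
  · rw [ha, h0]
    rcases Nat.eq_zero_or_pos b with hb | hb
    · rw [hb, h0]
    · exact BT_le_one hb
  · have hb : 1 ≤ b := by omega
    rw [← ENNReal.ofReal_toReal (BT_ne_top ha), ← ENNReal.ofReal_toReal (BT_ne_top hb)]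
    exact ENNReal.ofReal_le_ofReal (uu_anti h)

/-- stopping the right leg at its first cut at or above s. -/
lemma stop_le {a s : ℕ} (h : a < s) (R : List Bool → List Bool → Prop)
    (hR : ∀ (x t u : List Bool) (d n : ℕ), x ∈ Brd a → t ∈ Brd d → u ∈ Brd n → a < d → R x t → R x (t ++ u)) (T : ℕ) :
    (∑ d ∈ Finset.Icc s T, g2 (Brd a) (FC s d) R) * BT T ≤ g2 (Brd a) (Brd T) R := by
  rcases Nat.lt_or_ge T s with hTs | hTs
  · rw [Finset.Icc_eq_empty (by omega)]
    simp
  · simp_rw [g2_left]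
    rw [← Summable.tsum_finsetSum (fun _ _ => ENNReal.summable), ← ENNReal.tsum_mul_right]
    apply ENNReal.tsum_le_tsum
    intro x
    rw [← Finset.mul_sum, mul_assoc]
    apply mul_le_mul_right
    have key := gf_FC {y | R x.1 y} hTs
    calc (∑ d ∈ Finset.Icc s T, gf {t | t ∈ FC s d ∧ R x.1 t}) * BT T
        = ∑ d ∈ Finset.Icc s T, gf {t | t ∈ FC s d ∧ R x.1 t} * BT T := Finset.sum_mul _ _ _
      _ ≤ ∑ d ∈ Finset.Icc s T, gf (FC s d ∩ {y | R x.1 y}) * BT (T - d) := by
          apply Finset.sum_le_sum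
          intro d _
          exact mul_le_mul' (le_refl _) (BT_anti' (Nat.sub_le T d))
      _ = gf {t | t ∈ Brd T ∧ ∃ j a u, j ≤ T ∧ a ∈ FC s j ∧ a ∈ {y | R x.1 y} ∧ u ∈ Brd (T - j) ∧ t = a ++ u} :=
          key.symm
      _ ≤ gf {t | t ∈ Brd T ∧ R x.1 t} := by
          apply gf_mono
          rintro t ⟨h1, j, y, u, h2, h3, h4, h5, h6⟩
          refine ⟨h1, ?_⟩
          rw [h6]
          exact hR x.1 y u j (T - j) x.2 h3.1 h5 (by
            have := h3.2.1
            omega) h4

/-- THE WALL INEQUALITY, strong form, right leg stopped at its first cut at or above s. -/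
theorem WI_stop {a s : ℕ} (h : a < s) :
    ∑' d : ℕ, ∑' G : ℕ, g2 (Brd a) (FC s d) (fun x y => Dj x y ∧ Gap x y a (G + 1)) ≤ 2 := by
  have hfin : ∀ T : ℕ, ∑ d ∈ Finset.Icc s T, ∑' G : ℕ, g2 (Brd a) (FC s d) (fun x y => Dj x y ∧ Gap x y a (G + 1)) ≤ 2 := by
    intro T
    rcases Nat.lt_or_ge T s with hTs | hTs
    · rw [Finset.Icc_eq_empty (by omega)]
      simp
    have hT : 1 ≤ T := by omega
    have h1 : (∑ d ∈ Finset.Icc s T, ∑' G : ℕ, g2 (Brd a) (FC s d) (fun x y => Dj x y ∧ Gap x y a (G + 1))) * BT T ≤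
        2 * BT T := by
      calc (∑ d ∈ Finset.Icc s T, ∑' G : ℕ, g2 (Brd a) (FC s d) (fun x y => Dj x y ∧ Gap x y a (G + 1))) * BT T
          = ∑' G : ℕ, (∑ d ∈ Finset.Icc s T, g2 (Brd a) (FC s d) (fun x y => Dj x y ∧ Gap x y a (G + 1))) * BT T := by
            rw [← Summable.tsum_finsetSum (fun _ _ => ENNReal.summable), ENNReal.tsum_mul_right]
        _ ≤ ∑' G : ℕ, g2 (Brd a) (Brd T) (fun x y => Dj x y ∧ Gap x y a (G + 1)) := by
            apply ENNReal.tsum_le_tsum
            intro G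
            exact stop_le h _ (fun x t u d n hx ht hu had hR =>
              ⟨Dj_beyond hx ht hu had.le hR.1, Gap_beyond ht hu had hR.2⟩) T
        _ ≤ 2 * BT T := WI_strong (by omega)
    have hp : BT T ≠ 0 := by
      intro h0
      have := uu_pos T
      unfold uu at this
      rw [h0] at this
      simp at this
    exact (ENNReal.mul_le_mul_iff_left hp (BT_ne_top hT)).1 h1
  rw [ENNReal.tsum_eq_iSup_sum]
  apply iSup_le
  intro S
  obtain ⟨N, hN⟩ : ∃ N : ℕ, ∀ x ∈ S, x ≤ N := ⟨S.sup id, fun x hx => Finset.le_sup (f := id) hx⟩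
  refine le_trans ?_ (hfin N)
  have hz : ∀ d, d < s → ∑' G : ℕ, g2 (Brd a) (FC s d) (fun x y => Dj x y ∧ Gap x y a (G + 1)) = 0 := by
    intro d hd
    rw [ENNReal.tsum_eq_zero]
    intro G
    rw [g2_right, ENNReal.tsum_eq_zero]
    rintro ⟨t, ht⟩
    exact absurd ht.2.1 (by omega)
  calc ∑ d ∈ S, ∑' G : ℕ, g2 (Brd a) (FC s d) (fun x y => Dj x y ∧ Gap x y a (G + 1))
      ≤ ∑ d ∈ Finset.range (N + 1), ∑' G : ℕ, g2 (Brd a) (FC s d) (fun x y => Dj x y ∧ Gap x y a (G + 1)) := by
        apply Finset.sum_le_sum_of_subset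
        intro x hx
        exact Finset.mem_range.2 (by
          have := hN x hx
          omega)
    _ = ∑ d ∈ Finset.Icc s N, ∑' G : ℕ, g2 (Brd a) (FC s d) (fun x y => Dj x y ∧ Gap x y a (G + 1)) := by
        symm
        apply Finset.sum_subset
        · intro x hx
          rw [Finset.mem_Icc] at hx
          exact Finset.mem_range.2 (by omega)
        · intro x hx1 hx2
          rw [Finset.mem_range] at hx1
          rw [Finset.mem_Icc] at hx2
          exact hz x (by omega)
  
/-- weak form: gap at least G. -/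
theorem WI_stopG {a s : ℕ} (h : a < s) (G : ℕ) :
    (G : ℝ≥0∞) * ∑' d : ℕ, g2 (Brd a) (FC s d) (fun x y => Dj x y ∧ Gap x y a G) ≤ 2 := by
  refine le_trans ?_ (WI_stop h)
  rw [← ENNReal.tsum_mul_left]
  apply ENNReal.tsum_le_tsum
  intro d
  refine le_trans ?_ (ENNReal.sum_le_tsum (Finset.range G))
  rw [← Finset.card_range G, ← nsmul_eq_mul, ← Finset.sum_const, Finset.card_range]
  apply Finset.sum_le_sum
  intro k hk
  rw [Finset.mem_range] at hk
  apply g2_mono (le_refl _) (le_refl _)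
  rintro x y _ _ ⟨h1, h2⟩
  refine ⟨h1, fun i hi => ?_⟩
  have := h2 i hi
  have h3 : (k : ℤ) + 1 ≤ G := by exact_mod_cast hk
  linarith

end HexObs
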