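import Pool.Agent.PHW.WallPlan

/-!
Swaps and slit identities in domains with a wall.
-/

set_option autoImplicit false

namespace HexObs

namespace Wall

open Complex Finset ENNReal

open Ex (BrE overE P2E obE mem_brEF ZhE tip_stem sum_brE_comm)

/-- domains for explorers: half space, the walks that leave upwards have winding 0, the walks
to the base line have winding 3 or -3, all windings are at most 3. -/
structure WDom (Ω : Finset Pt) (v d0 : Pt) : Prop where
  dir : d0 ∈ dirs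
  half : ∀ x ∈ Ω, 0 < ip (x - v) d0
  up0 : ∀ t ∈ exits Ω v d0, dx d0 t t.length = d0 → wind t = 0
  bot : ∀ t ∈ exits Ω v d0, dx d0 t t.length = -d0 → ip (tip v d0 t - v) d0 = 0 →
    (0 < cross d0 (tip v d0 t - v) ∧ wind t = 3) ∨ (cross d0 (tip v d0 t - v) < 0 ∧ wind t = -3)
  wle : ∀ t ∈ exits Ω v d0, -3 ≤ wind t ∧ wind t ≤ 3

lemma wbr_wind {Ω : Finset Pt} {q d0 : Pt} (hq : WDom Ω q d0) {X : Set Pt} {s : List Bool}
    (hs : s ∈ Br (Ω : Set Pt) X q d0) : wind s = 0 :=
  hq.up0 s (br_exits hs) hs.2.2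

/-- theta swap, windings: q is on the right of p. -/
theorem wswap_wind {Ω : Finset Pt} {X : Set Pt} {p q d0 : Pt} (hp : WDom Ω p d0) (hq : WDom Ω q d0)
    (hpq : ip (q - p) d0 = 0) (hcl : cl p = cl q) (hright : cross d0 (q - p) < 0) {l r m : List Bool} {c : Bool}
    (hs : r ++ ([c] ++ m) ∈ Br (Ω : Set Pt) X q d0)
    (hl : Saw ((Ω : Set Pt) \ (X ∪ vis q d0 (r ++ ([c] ++ m)))) p d0 l)
    (ht : tip p d0 l = tip q d0 r) : wind r = wind l + 2 := by
  have hne : p ≠ q := by
    rintro rfl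
    rw [sub_self] at hright
    simp [cross] at hright
  obtain ⟨_, hd2, hbr, _⟩ := swap_geo hp.dir (fun v hv => hp.half v hv) hpq hne hcl hs hl ht
  have w1 := wbr_wind hq hs
  have w2 := wbr_wind hp hbr
  have hs' := hs
  obtain ⟨hs1, hs2, hs3⟩ := hs'
  have hslen : (r ++ ([c] ++ m)).length = r.length + 1 + m.length := by
    simp only [List.length_append, List.length_singleton]
    omega
  have er : ∀ i, i ≤ r.length + 1 → vx q d0 (r ++ ([c] ++ m)) i = vx q d0 r i := fun i hi => vx_append hi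
  have hv : vx q d0 (r ++ ([c] ++ m)) (r.length + 1) = tip p d0 l := by
    rw [er _ le_rfl, ht]
    rfl
  have hvΩ : tip p d0 l ∈ Ω := by
    rw [← hv]
    exact (hs1.mem _ (by omega) (by omega)).1
  have hpo : ∀ v ∈ Ω, v ≠ p := by
    intro v hv hvp
    have := hp.half v hv
    rw [hvp, sub_self] at this
    simp [ip] at this
  obtain ⟨hex, hdir, htip⟩ := arc_exit (c := c) (fun v hv => hp.half v hv) hpq (l := l) (r := r)
    ⟨fun i hi hil => (hl.mem i hi hil).1, hl.inj⟩
    ⟨fun i hi hil => by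
        have := (hs1.mem i hi (by omega)).1
        rwa [er i (by omega)] at this,
      fun i k hik hkl => by
        have := hs1.inj i k hik (by omega)
        rwa [er i (by omega), er k (by omega)] at this⟩
    hvΩ
    (fun i hil => by
      rcases Nat.eq_zero_or_pos i with hi0 | hi0
      · rw [hi0]
        exact fun h => hpo _ hvΩ h.symm
      · intro h
        exact (hl.mem i hi0 hil).2 (Or.inr ⟨r.length + 1, by omega, by omega, hv.trans h.symm⟩))
    (fun i hir => by
      have := hs1.inj i (r.length + 1) (by omega) (by omega)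
      rw [hv] at this
      rwa [er i (by omega)] at this)
    (fun i k hi hil hk hkr h => (hl.mem i hi hil).2 (Or.inr ⟨k, hk, by omega, by rw [er k (by omega), h]⟩))
    ht hd2
  have w3 : wind (l ++ ([c] ++ rev r)) = -3 := by
    rcases hp.bot _ hex hdir (by rw [htip]; exact hpq) with ⟨h1, h2⟩ | ⟨h1, h2⟩
    · rw [htip] at h1
      exact absurd h1 (not_lt.2 hright.le)
    · exact h2
  rw [wind_append, wind_cons, wind_rev] at w3
  rw [wind_append, wind_cons] at w1 w2
  cases c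
  · simp only [sgn, Bool.not_false, if_true, Bool.false_eq_true, if_false] at w1 w2 w3
    omega
  · simp only [sgn, Bool.not_true, if_true, Bool.false_eq_true, if_false] at w1 w2 w3
    omega

/-- THE SWAP with ends: q is on the right of p. -/
theorem wswap_sumE {Ω : Finset Pt} {X : Set Pt} {p q d0 : Pt} (hp : WDom Ω p d0) (hq : WDom Ω q d0)
    (hpq : ip (q - p) d0 = 0) (hcl : cl p = cl q) (hright : cross d0 (q - p) < 0) (W : Set Pt) (f : ℤ → ℝ) :
    ZhE Ω X q p d0 W f = ZhE Ω X p q d0 W (fun w => f (w + 2)) := by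
  have hne : p ≠ q := by
    rintro rfl
    rw [sub_self] at hright
    simp [cross] at hright
  have hqp : ip (p - q) d0 = 0 := by
    have e : p - q = -(q - p) := by abel
    rw [e, ip_neg_left, hpq, neg_zero]
  unfold ZhE
  rw [Finset.sum_sigma', Finset.sum_sigma']
  symm
  refine Finset.sum_bij' (fun a _ => ⟨(swp q p d0 (a.1, a.2)).1, (swp q p d0 (a.1, a.2)).2⟩)
    (fun a _ => ⟨(swp p q d0 (a.1, a.2)).1, (swp p q d0 (a.1, a.2)).2⟩) ?_ ?_ ?_ ?_ ?_
  · rintro ⟨s, u⟩ ha
    rw [Finset.mem_sigma] at ha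
    simp only at ha
    rw [mem_brEF, mem_hitF] at ha
    obtain ⟨⟨hs, hsW⟩, hu, ht⟩ := ha
    obtain ⟨r, c, m, rfl, ht'⟩ := hit_pieces hs hu ht
    obtain ⟨k1, _, h1, h2⟩ := swap_geo hp.dir (fun v hv => hp.half v hv) hpq hne hcl hs hu ht'
    rw [Finset.mem_sigma]
    simp only [swp_eq hs ht']
    rw [mem_brEF, mem_hitF]
    refine ⟨⟨h1, ?_⟩, h2, u.length + 1, by omega, by simp, ?_⟩
    · rw [tip_stem ht' k1]
      exact hsW
    · rw [vx_append le_rfl, ← ht']
      rfl
  · rintro ⟨s, u⟩ ha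
    rw [Finset.mem_sigma] at ha
    simp only at ha
    rw [mem_brEF, mem_hitF] at ha
    obtain ⟨⟨hs, hsW⟩, hu, ht⟩ := ha
    obtain ⟨r, c, m, rfl, ht'⟩ := hit_pieces hs hu ht
    obtain ⟨k1, _, h1, h2⟩ := swap_geo hq.dir (fun v hv => hq.half v hv) hqp hne.symm hcl.symm hs hu ht'
    rw [Finset.mem_sigma]
    simp only [swp_eq hs ht']
    rw [mem_brEF, mem_hitF]
    refine ⟨⟨h1, ?_⟩, h2, u.length + 1, by omega, by simp, ?_⟩
    · rw [tip_stem ht' k1]
      exact hsW
    · rw [vx_append le_rfl, ← ht']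
      rfl
  · rintro ⟨s, u⟩ ha
    rw [Finset.mem_sigma] at ha
    simp only at ha
    rw [mem_brEF, mem_hitF] at ha
    obtain ⟨⟨hs, _⟩, hu, ht⟩ := ha
    obtain ⟨r, c, m, rfl, ht'⟩ := hit_pieces hs hu ht
    obtain ⟨_, _, h1, h2⟩ := swap_geo hp.dir (fun v hv => hp.half v hv) hpq hne hcl hs hu ht'
    simp only [swp_eq hs ht', swp_eq h1 ht'.symm, Bool.not_not]
  · rintro ⟨s, u⟩ ha
    rw [Finset.mem_sigma] at ha
    simp only at ha
    rw [mem_brEF, mem_hitF] at ha
    obtain ⟨⟨hs, _⟩, hu, ht⟩ := ha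
    obtain ⟨r, c, m, rfl, ht'⟩ := hit_pieces hs hu ht
    obtain ⟨_, _, h1, h2⟩ := swap_geo hq.dir (fun v hv => hq.half v hv) hqp hne.symm hcl.symm hs hu ht'
    simp only [swp_eq hs ht', swp_eq h1 ht'.symm, Bool.not_not]
  · rintro ⟨s, u⟩ ha
    rw [Finset.mem_sigma] at ha
    simp only at ha
    rw [mem_brEF, mem_hitF] at ha
    obtain ⟨⟨hs, _⟩, hu, ht⟩ := ha
    obtain ⟨r, c, m, rfl, ht'⟩ := hit_pieces hs hu ht
    have hw := wswap_wind hp hq hpq hcl hright hs hu ht'
    simp only [swp_eq hs ht']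
    rw [hw]
    congr 2
    simp only [List.length_append, List.length_singleton]
    omega

/-- THE SLIT IDENTITY with one walker. -/
theorem wslit2E {Ω : Finset Pt} {p d0 : Pt} (hp : WDom Ω p d0) (q : Pt) (W : Set Pt) (m : ℝ) :
    Real.sin (m * (Real.pi / 8)) * gr Ω q d0 (BrE (Ω : Set Pt) ∅ q d0 W) =
      obE Ω q d0 W (fr Ω p d0 (fun w => Real.sin ((m + w) * (Real.pi / 8)))) ∅ +
      ZhE Ω ∅ p q d0 W (fun w => Real.sin ((m + w) * (Real.pi / 8))) := by
  set f : ℤ → ℝ := fun w => Real.sin ((m + w) * (Real.pi / 8)) with hf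
  unfold obE gr ZhE
  rw [Finset.mul_sum, ← Finset.sum_add_distrib]
  apply Finset.sum_congr rfl
  intro s hs
  rw [mem_brEF] at hs
  have hid := identity_phase (slit Ω (∅ ∪ vis q d0 s)) hp.dir
    (fun v hv => hp.half v (mem_slit.1 hv).1) m
  have key := sum_exits_pair Ω (Set.empty_disjoint (vis q d0 s)) (Set.empty_subset _) (vis_sub hs.1) p d0 f _ hid
  have e1 : ∑ u ∈ hitF Ω (vis q d0 s) ∅ p d0, xc ^ u.length * f (wind u) = 0 := by
    apply Finset.sum_eq_zero
    intro u hu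
    rw [mem_hitF] at hu
    exact absurd hu.2 (Set.notMem_empty _)
  rw [e1, add_zero] at key
  have e2 : ∑ u ∈ hitF Ω ∅ (vis q d0 s) p d0, xc ^ (s.length + u.length) * f (wind u) =
      xc ^ s.length * ∑ u ∈ hitF Ω ∅ (vis q d0 s) p d0, xc ^ u.length * f (wind u) := by
    rw [Finset.mul_sum]
    apply Finset.sum_congr rfl
    intro u _
    ring
  rw [e2, key]
  ring

end Wall

end HexObs
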